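import Pool.Agent.Lib.MP_e029a2_pr.An

/-!
# Analysis: real operators, words as functions, Fourier

Words are functions `σ : Fin k → Dir D` with distinct coordinates.  The real operators act on
functions on `Fin D → ℤ` and are iterated with `Nat.iterate` (`(Pw k D)^[N] f`).
-/

set_option autoImplicit false

namespace FDr

open MeasureTheory
open scoped ENNReal

/-- The transversal lattice. -/
abbrev V (D : ℕ) : Type := Fin D → ℤ

/-- The displacement of a word. -/
def wsum {D k : ℕ} (σ : Fin k → Dir D) : V D := ∑ j, dv (σ j)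

/-- The words of length `k` with distinct coordinates. -/
def Wd (k D : ℕ) : Finset (Fin k → Dir D) :=
  Finset.univ.filter fun σ => Function.Injective fun j => (σ j).1

/-- The number of words. -/
def wc (k D : ℕ) : ℕ := 2 ^ k * D.descFactorial k

/-- The indicator function of a point. -/
def ind {α : Type*} [DecidableEq α] (w : α) : α → ℝ := fun v => if v = w then 1 else 0

/-- The average over the words. -/
noncomputable def Pw (k D : ℕ) (f : V D → ℝ) (v : V D) : ℝ :=
  ((wc k D : ℝ))⁻¹ * ∑ σ ∈ Wd k D, f (v + wsum σ)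

/-- The average over the pairs of words: one step of the difference of two independent chains. -/
noncomputable def Tw (k D : ℕ) (f : V D → ℝ) (v : V D) : ℝ :=
  ((wc k D : ℝ) ^ 2)⁻¹ * ∑ σ ∈ Wd k D, ∑ σ' ∈ Wd k D, f (v + wsum σ - wsum σ')

/-- The average over the directions. -/
noncomputable def Qd (D : ℕ) (f : V D → ℝ) (v : V D) : ℝ :=
  (2 * (D : ℝ))⁻¹ * ∑ δ : Dir D, f (v + dv δ)

/-- The pair operator of the kernel inequality. -/
noncomputable def TT (D n : ℕ) (f : V D → ℝ≥0∞) (u : V D) : ℝ≥0∞ :=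
  ∑ l ∈ inj D n, ∑ l' ∈ inj D n, dw D n ^ 2 * f (u + sumv l - sumv l')

/-- The sum over the words of a leap. -/
noncomputable def PP (D n : ℕ) (f : V D → ℝ≥0∞) (u : V D) : ℝ≥0∞ :=
  ∑ l ∈ inj D n, dw D n * f (u + sumv l)

/-! ### Fourier -/

/-- A finite combination of translations. -/
def convOp {D : ℕ} {κ : Type*} (A : Finset κ) (c : κ → ℝ) (u : κ → V D) (f : V D → ℝ)
    (v : V D) : ℝ := ∑ a ∈ A, c a * f (v + u a)

/-- The uniform measure of the circle. -/
noncomputable def circ : Measure ℝ :=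
  (ENNReal.ofReal (2 * Real.pi))⁻¹ • volume.restrict (Set.Ioc (-Real.pi) Real.pi)

/-- The uniform measure of the torus. -/
noncomputable def tor (D : ℕ) : Measure (Fin D → ℝ) := Measure.pi fun _ => circ

/-- The pairing. -/
def dot {D : ℕ} (θ : Fin D → ℝ) (v : V D) : ℝ := ∑ c, θ c * (v c : ℝ)

/-- The symbol of `Pw`. -/
noncomputable def Phi (k D : ℕ) (θ : Fin D → ℝ) : ℝ :=
  ((wc k D : ℝ))⁻¹ * ∑ σ ∈ Wd k D, ∏ j : Fin k, Real.cos (θ (σ j).1)

/-- The symbol of `Qd`. -/
noncomputable def cD (D : ℕ) (θ : Fin D → ℝ) : ℝ := (D : ℝ)⁻¹ * ∑ c, Real.cos (θ c)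

/-- The sum `∑ (1 - |cos θ_c|)`. -/
noncomputable def osc {D : ℕ} (θ : Fin D → ℝ) : ℝ := ∑ c, (1 - |Real.cos (θ c)|)

end FDr
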