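import Pool.Agent.Lib.MP_e029a2_pr.TH7

/-!
# Monotonicity in the drift, part 1: the difference of the laws of a run
-/

set_option autoImplicit false

namespace FDr.AM

open MeasureTheory ProbabilityTheory
open scoped ENNReal
open FDr.TH (lintegral_runLaw tsum_split)

/-- The constant `w / (2 (1 - w))`. -/
noncomputable def cc (w : ℝ) : ℝ := w / (2 * (1 - w))

theorem cc_pos (w : Set.Ioo (0 : ℝ) 1) : 0 < cc w := by
  have h1 := w.2.1
  have h2 := w.2.2
  unfold cc
  have : 0 < 1 - (w : ℝ) := by linarith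
  positivity

/-- The increment `c (α' - α)`. -/
noncomputable def dd (w α α' : Set.Ioo (0 : ℝ) 1) : ℝ≥0∞ := ENNReal.ofReal (cc w * (α' - α))

/-- the sum over the splittings `l = l₁ ++ b :: l₂` -/
noncomputable def SS (v' v : Bool → ℝ) (b : Bool) : Run → ℝ
  | [] => 0
  | x :: l => (if x = b then (l.map v).prod else 0) + v' x * SS v' v b l

theorem SS_eq (v' v : Bool → ℝ) (b : Bool) (l : Run) : SS v' v b l = ∑ i ∈ Finset.range (l.length + 1),
    ((l.take i).map v').prod * (match l.drop i with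
      | [] => 0
      | x :: r => if x = b then (r.map v).prod else 0) := by
  induction l with
  | nil => simp [SS]
  | cons x l ih =>
    rw [SS, List.length_cons, Finset.sum_range_succ', ih, Finset.mul_sum, add_comm]
    congr 1
    · refine Finset.sum_congr rfl fun i _ => ?_
      rw [List.take_succ_cons, List.map_cons, List.prod_cons, List.drop_succ_cons, mul_assoc]
    · simp

theorem SS_diff {v' v : Bool → ℝ} {δ : ℝ} (ht : v' true = v true + δ) (hf : v' false = v false - δ) (l : Run) :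
    (l.map v').prod + δ * SS v' v false l = (l.map v).prod + δ * SS v' v true l := by
  induction l with
  | nil => simp [SS]
  | cons x l ih =>
    rw [SS, SS, List.map_cons, List.prod_cons, List.map_cons, List.prod_cons]
    cases x
    · simp only [if_true, Bool.false_eq_true, if_false]
      have h1 : v' false * (l.map v').prod = v' false * ((l.map v).prod + δ * SS v' v true l) - v' false * (δ * SS v' v false l) := by
        rw [← ih]
        ring
      rw [h1, hf]
      ring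
    · simp only [if_true, Bool.true_eq_false, if_false]
      have h1 : v' true * (l.map v').prod = v' true * ((l.map v).prod + δ * SS v' v true l) - v' true * (δ * SS v' v false l) := by
        rw [← ih]
        ring
      rw [h1, ht]
      ring

theorem SS_nonneg {v' v : Bool → ℝ} (h' : ∀ b, 0 ≤ v' b) (h : ∀ b, 0 ≤ v b) (b : Bool) (l : Run) : 0 ≤ SS v' v b l := by
  induction l with
  | nil => simp [SS]
  | cons x l ih =>
    rw [SS]
    have h1 : 0 ≤ (l.map v).prod := List.prod_nonneg fun y hy => by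
      obtain ⟨b, -, rfl⟩ := List.mem_map.1 hy
      exact h b
    have h2 := h' x
    split_ifs <;> positivity

theorem lintegral_mid (w α' α : Set.Ioo (0 : ℝ) 1) (b : Bool) (φ : Run → ℝ≥0∞) :
    ∫⁻ l₁, ∫⁻ l₂, φ (l₁ ++ b :: l₂) ∂runLaw w α ∂runLaw w α' =
      ∑' l : Run, ENNReal.ofReal ((1 - w) ^ 2 * SS (bw w α') (bw w α) b l) * φ l := by
  have hw : (0 : ℝ) ≤ 1 - w := by linarith [w.2.2]
  have hb : ∀ (a : Set.Ioo (0 : ℝ) 1) (l : Run), 0 ≤ (l.map (bw w a)).prod := fun a l =>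
    List.prod_nonneg fun y hy => by
      obtain ⟨b, -, rfl⟩ := List.mem_map.1 hy
      exact (bw_pos w.2 a.2 b).le
  rw [lintegral_runLaw]
  simp only [lintegral_runLaw]
  have h1 : ∀ l₁ : Run, ENNReal.ofReal (runW w α' l₁) * ∑' l₂ : Run, ENNReal.ofReal (runW w α l₂) * φ (l₁ ++ b :: l₂) =
      ∑' r : Run, (match r with
        | [] => 0
        | x :: l₂ => if x = b then ENNReal.ofReal ((1 - w) ^ 2 * ((l₁.map (bw w α')).prod * (l₂.map (bw w α)).prod)) *
          φ (l₁ ++ x :: l₂) else 0) := by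
    intro l₁
    rw [← ENNReal.tsum_mul_left]
    have hinj : Function.Injective fun l : Run => b :: l := fun l l' h => by simpa using h
    refine Eq.trans ?_ (hinj.tsum_eq (f := fun r : Run => (match r with
        | [] => 0
        | x :: l₂ => if x = b then ENNReal.ofReal ((1 - w) ^ 2 * ((l₁.map (bw w α')).prod * (l₂.map (bw w α)).prod)) *
          φ (l₁ ++ x :: l₂) else 0 : ℝ≥0∞)) ?_)
    · refine tsum_congr fun l₂ => ?_
      simp only [if_true]
      rw [← mul_assoc, runW_eq, runW_eq, ← ENNReal.ofReal_mul (mul_nonneg hw (hb _ _))]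
      congr 2
      ring
    · intro r hr
      cases r with
      | nil => simp at hr
      | cons x r =>
        by_cases hx : x = b
        · exact ⟨r, by rw [hx]⟩
        · simp [hx] at hr
  rw [tsum_congr h1, tsum_split fun l₁ r => (match r with
        | [] => 0
        | x :: l₂ => if x = b then ENNReal.ofReal ((1 - w) ^ 2 * ((l₁.map (bw w α')).prod * (l₂.map (bw w α)).prod)) *
          φ (l₁ ++ x :: l₂) else 0)]
  refine tsum_congr fun l => ?_
  rw [SS_eq, Finset.mul_sum, ENNReal.ofReal_sum_of_nonneg, Finset.sum_mul]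
  · refine Finset.sum_congr rfl fun i _ => ?_
    rcases hd : l.drop i with _ | ⟨x, r⟩
    · simp
    · simp only
      split_ifs with hx
      · rw [← hd, List.take_append_drop]
      · simp
  · intro i _
    refine mul_nonneg (by positivity) (mul_nonneg (hb _ _) ?_)
    rcases hd : l.drop i with _ | ⟨x, r⟩
    · simp
    · simp only
      split_ifs with hx
      · exact hb _ _
      · exact le_rfl

/-- **The difference of the laws of a run.** -/
theorem run_diff (w : Set.Ioo (0 : ℝ) 1) {α α' : Set.Ioo (0 : ℝ) 1} (h : α < α') (φ : Run → ℝ≥0∞) :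
    ∫⁻ l, φ l ∂runLaw w α' + dd w α α' * ∫⁻ l₁, ∫⁻ l₂, φ (l₁ ++ false :: l₂) ∂runLaw w α ∂runLaw w α' =
      ∫⁻ l, φ l ∂runLaw w α + dd w α α' * ∫⁻ l₁, ∫⁻ l₂, φ (l₁ ++ true :: l₂) ∂runLaw w α ∂runLaw w α' := by
  have hw : (0 : ℝ) < 1 - w := by linarith [w.2.2]
  have hh : (α : ℝ) < α' := h
  have hd : 0 ≤ cc w * ((α' : ℝ) - α) := mul_nonneg (cc_pos w).le (by linarith)
  have hS : ∀ b l, 0 ≤ SS (bw w α') (bw w α) b l := fun b l =>
    SS_nonneg (fun b => (bw_pos w.2 α'.2 b).le) (fun b => (bw_pos w.2 α.2 b).le) b l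
  have hb : ∀ (a : Set.Ioo (0 : ℝ) 1) (l : Run), 0 ≤ runW w a l := fun a l => (runW_pos w.2 a.2 l).le
  rw [lintegral_mid, lintegral_mid, lintegral_runLaw, lintegral_runLaw, ← ENNReal.tsum_mul_left, ← ENNReal.tsum_mul_left,
    ← ENNReal.tsum_add, ← ENNReal.tsum_add]
  refine tsum_congr fun l => ?_
  unfold dd
  rw [← mul_assoc, ← mul_assoc, ← ENNReal.ofReal_mul hd, ← ENNReal.ofReal_mul hd, ← add_mul, ← add_mul,
    ← ENNReal.ofReal_add (hb _ _) (mul_nonneg hd (mul_nonneg (by positivity) (hS _ _))),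
    ← ENNReal.ofReal_add (hb _ _) (mul_nonneg hd (mul_nonneg (by positivity) (hS _ _)))]
  congr 2
  have h1 := SS_diff (v' := bw w α') (v := bw w α) (δ := w * ((α' : ℝ) - α) / 2) (by unfold bw; simp; ring)
    (by unfold bw; simp; ring) l
  rw [runW_eq, runW_eq]
  have h2 : cc w * ((α' : ℝ) - α) * (1 - w) ^ 2 = (1 - w) * (w * ((α' : ℝ) - α) / 2) := by
    unfold cc
    field_simp
  have h3 : ∀ x : ℝ, cc w * ((α' : ℝ) - α) * ((1 - w) ^ 2 * x) = (1 - w) * (w * ((α' : ℝ) - α) / 2) * x := by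
    intro x
    rw [← mul_assoc, h2]
  rw [h3, h3]
  linear_combination (1 - (w : ℝ)) * h1

theorem lint_le {Ω : Type*} [MeasurableSpace Ω] (μ : Measure Ω) [IsProbabilityMeasure μ] {φ : Ω → ℝ≥0∞} {C : ℝ≥0∞}
    (hφ : ∀ l, φ l ≤ C) : ∫⁻ l, φ l ∂μ ≤ C := by
  calc ∫⁻ l, φ l ∂μ ≤ ∫⁻ _, C ∂μ := lintegral_mono hφ
    _ = C := by rw [lintegral_const, measure_univ, mul_one]

/-- the total variation, in both directions -/
theorem run_le (w : Set.Ioo (0 : ℝ) 1) {α α' : Set.Ioo (0 : ℝ) 1} (h : α < α') {φ : Run → ℝ≥0∞} (hφ : ∀ l, φ l ≤ 1) :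
    ∫⁻ l, φ l ∂runLaw w α' ≤ ∫⁻ l, φ l ∂runLaw w α + dd w α α' := by
  have h1 := run_diff w h φ
  have h2 : ∫⁻ l₁, ∫⁻ l₂, φ (l₁ ++ true :: l₂) ∂runLaw w α ∂runLaw w α' ≤ 1 :=
    lint_le _ fun l₁ => lint_le _ fun l₂ => hφ _
  calc ∫⁻ l, φ l ∂runLaw w α' ≤ _ := le_self_add
    _ = _ := h1
    _ ≤ _ := add_le_add le_rfl ((mul_le_mul_right h2 _).trans (le_of_eq (mul_one _)))

theorem run_ge (w : Set.Ioo (0 : ℝ) 1) {α α' : Set.Ioo (0 : ℝ) 1} (h : α < α') {φ : Run → ℝ≥0∞} (hφ : ∀ l, φ l ≤ 1) :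
    ∫⁻ l, φ l ∂runLaw w α ≤ ∫⁻ l, φ l ∂runLaw w α' + dd w α α' := by
  have h1 := run_diff w h φ
  have h2 : ∫⁻ l₁, ∫⁻ l₂, φ (l₁ ++ false :: l₂) ∂runLaw w α ∂runLaw w α' ≤ 1 :=
    lint_le _ fun l₁ => lint_le _ fun l₂ => hφ _
  calc ∫⁻ l, φ l ∂runLaw w α ≤ _ := le_self_add
    _ = _ := h1.symm
    _ ≤ _ := add_le_add le_rfl ((mul_le_mul_right h2 _).trans (le_of_eq (mul_one _)))

end FDr.AM
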