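import Pool.Agent.Lib.MP_e029a2_pr.AM9

/-!
# Monotonicity in the drift, part 10: the threshold function
-/

set_option autoImplicit false

namespace FDr.AM

open MeasureTheory ProbabilityTheory
open scoped ENNReal
open FDr.TH (CL pC P2 lp cp rp map_lp map_cp measurable_lp measurable_cp measurable_CLc one_le_Ug bw_lt Xi)
open FDr.TR (Ug mfun_eq kap_ne_zero)

theorem pC_mono {w' w : Set.Ioo (0 : ℝ) 1} (α : Set.Ioo (0 : ℝ) 1) (hw : w' < w) (S : Set ℤ) (h z : ℤ) :
    pC w' α S h z ≤ pC w α S h z := by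
  have h1 : pC w α S h z = P2 w' w α {ω | CL S h (cp ω none) (fun x => cp ω (some x)) z} := by
    unfold pC
    rw [← map_cp α hw, Measure.map_apply measurable_cp (measurableSet_setOfPred.2 (measurable_CLc _ _ _))]
    rfl
  have h2 : pC w' α S h z = P2 w' w α {ω | CL S h (lp ω none) (fun x => lp ω (some x)) z} := by
    unfold pC
    rw [← map_lp α hw, Measure.map_apply measurable_lp (measurableSet_setOfPred.2 (measurable_CLc _ _ _))]
    rfl
  rw [h1, h2]
  refine measure_mono fun ω hω => ?_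
  exact CL_mono_run (fun _ hx => vis_append_left hx) (fun x _ hx => vis_append_left hx) hω

theorem Ug_mono {w' w : Set.Ioo (0 : ℝ) 1} (α : Set.Ioo (0 : ℝ) 1) (hw : w' < w) (s : ℝ) : Ug w' α s ≤ Ug w α s := by
  refine TH.Ug_le w' α s fun S => ?_
  unfold Xi
  calc ∑ z ∈ S, pC w' α ↑S 0 z * ENNReal.ofReal (s ^ z) ≤ ∑ z ∈ S, actP w α Set.univ z * ENNReal.ofReal (s ^ z) := by
        refine Finset.sum_le_sum fun z _ => mul_le_mul_left ?_ _
        refine (pC_mono α hw _ _ _).trans ?_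
        have h1 := TH.pC_le_actP w α (↑S : Set ℤ) 0 z
        rwa [sub_zero] at h1
    _ ≤ _ := by
        unfold Ug
        exact ENNReal.sum_le_tsum S

/-- **Lowering `w`.** -/
theorem mfun_lower {w0 w : Set.Ioo (0 : ℝ) 1} (α : Set.Ioo (0 : ℝ) 1) (hw : w0 < w) {s : ℝ} (hs : 0 < s)
    (hm : mfun w α s < 2) : mfun w0 α s ≤ ENNReal.ofReal ((1 - w0) / (1 - w)) * mfun w α s := by
  have hww : (w0 : ℝ) < w := hw
  have hw0 := w0.2.1
  have hw1 := w.2.2
  have hk1 : kap w α s < 1 := by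
    by_contra hcon
    have h1 : (2 : ℝ≥0∞) ≤ mfun w α s := by
      rw [mfun_eq]
      calc (2 : ℝ≥0∞) = 1 * (1 + 1) := by norm_num
        _ ≤ _ := mul_le_mul' (not_lt.1 hcon) (add_le_add le_rfl (one_le_Ug w α s))
    exact absurd hm (not_lt.2 h1)
  have hb : bw w α true * s + bw w α false * s⁻¹ < 1 := (bw_lt w w α hs hk1).trans hw1
  have hp := bw_pos w.2 α.2 true
  have hq := bw_pos w.2 α.2 false
  have hx0 : 0 < bw w α true * s + bw w α false * s⁻¹ := by positivity
  have hr := TH.bw_ratio w0 w α s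
  have hr1 : (w0 : ℝ) / w ≤ 1 := by
    rw [div_le_one w.2.1]
    exact hww.le
  have hb0 : bw w0 α true * s + bw w0 α false * s⁻¹ ≤ bw w α true * s + bw w α false * s⁻¹ := by
    rw [hr]
    calc (w0 : ℝ) / w * (bw w α true * s + bw w α false * s⁻¹) ≤ 1 * (bw w α true * s + bw w α false * s⁻¹) :=
          mul_le_mul_of_nonneg_right hr1 hx0.le
      _ = _ := one_mul _
  have hkk : kap w0 α s ≤ ENNReal.ofReal ((1 - w0) / (1 - w)) * kap w α s := by
    rw [kap_eq w0 α s hs (hb0.trans_lt hb), kap_eq w α s hs hb]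
    have h1 : 0 < 1 - (w : ℝ) := by linarith
    have h2 : 0 < 1 - (w0 : ℝ) := by linarith
    rw [← ENNReal.ofReal_mul (by positivity)]
    refine ENNReal.ofReal_le_ofReal ?_
    have h3 : 0 < 1 - (bw w α true * s + bw w α false * s⁻¹) := by linarith
    have h4 : 0 < 1 - (bw w0 α true * s + bw w0 α false * s⁻¹) := by linarith
    calc (1 - w0) / (1 - (bw w0 α true * s + bw w0 α false * s⁻¹))
        ≤ (1 - w0) / (1 - (bw w α true * s + bw w α false * s⁻¹)) :=
          div_le_div_of_nonneg_left h2.le h3 (by linarith)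
      _ = _ := by
          field_simp
  rw [mfun_eq, mfun_eq, ← mul_assoc]
  exact mul_le_mul' hkk (add_le_add le_rfl (Ug_mono α hw s))

/-- **The threshold is decreasing in the drift.** -/
theorem threshold_anti {f : Set.Ioo (0 : ℝ) 1 → ℝ} (hf0 : ∀ α, 1 / 2 ≤ f α) (hf1 : ∀ α, f α ≤ 1)
    (hf : ∀ w α : Set.Ioo (0 : ℝ) 1, ((w : ℝ) < f α → 1 < Lam w α) ∧ (f α < (w : ℝ) → Lam w α < 1))
    {α α' : Set.Ioo (0 : ℝ) 1} (hα : α < α') :
    f α' ≤ f α - (1 - f α) ^ 2 * (1 + f α) * (α' - α) / 8 := by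
  have hαα : (α : ℝ) < α' := hα
  have ha0 := α.2.1
  have ha1 := α'.2.2
  rcases (hf1 α).lt_or_eq with hF | hF
  · -- a bound for all `w > f α`
    have key : ∀ w w0 : Set.Ioo (0 : ℝ) 1, f α < (w : ℝ) → w0 < w →
        (1 - (w0 : ℝ)) * (1 - (1 - (w : ℝ) ^ 2) * (α' - α) / 8) < 1 - w → f α' ≤ w0 := by
      intro w w0 hw hw0 hlt
      have h1 := (hf w α).2 hw
      unfold Lam at h1
      obtain ⟨s, hs⟩ := iInf_lt_iff.1 h1
      obtain ⟨hs0, hs1⟩ := iInf_lt_iff.1 hs
      have h2 := mfun_alpha w hα hs0 hs1.le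
      have hw1 := w.2.2
      have hw2 := w.2.1
      have h4 : 0 ≤ (1 - (w : ℝ) ^ 2) * (α' - α) / 8 := by
        have : 0 ≤ 1 - (w : ℝ) ^ 2 := by nlinarith
        have : 0 ≤ (α' : ℝ) - α := by linarith
        positivity
      have h5 : mfun w α' s < 2 := by
        refine h2.trans_lt ?_
        refine lt_of_le_of_lt (ENNReal.ofReal_le_ofReal (by linarith : _ ≤ (1 : ℝ))) ?_
        rw [ENNReal.ofReal_one]
        exact ENNReal.one_lt_two
      have h3 := mfun_lower α' hw0 hs0 h5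
      by_contra hcon
      have h6 := (hf w0 α').1 (not_le.1 hcon)
      have h7 : Lam w0 α' ≤ mfun w0 α' s := iInf₂_le s hs0
      have h8 : 0 < 1 - (w : ℝ) := by linarith
      have h9 : 0 < 1 - (w0 : ℝ) := by linarith [w0.2.2]
      have h10 : mfun w0 α' s < 1 := by
        refine (h3.trans (mul_le_mul_right h2 _)).trans_lt ?_
        rw [← ENNReal.ofReal_mul (by positivity), ← ENNReal.ofReal_one]
        refine (ENNReal.ofReal_lt_ofReal_iff one_pos).2 ?_
        rw [div_mul_eq_mul_div, div_lt_one h8]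
        exact hlt
      exact absurd (h6.trans_le h7) (not_lt.2 h10.le)
    -- the limit
    obtain ⟨F, hFd⟩ : ∃ F : ℝ, F = f α := ⟨_, rfl⟩
    have hF0 := hf0 α
    rw [← hFd] at hF hF0 key ⊢
    refine le_of_forall_pos_lt_add fun ε hε => ?_
    obtain ⟨x, hx⟩ : ∃ x : ℝ, x = (1 - F ^ 2) * (α' - α) / 8 := ⟨_, rfl⟩
    have hx0 : 0 < x := by
      rw [hx]
      have : 0 < 1 - F ^ 2 := by nlinarith
      have : 0 < (α' : ℝ) - α := by linarith
      positivity
    have hx1 : x ≤ 1 / 8 := by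
      rw [hx]
      have h1 : (1 - F ^ 2) * (α' - α) ≤ 1 * 1 := mul_le_mul (by nlinarith) (by linarith) (by linarith) (by norm_num)
      linarith
    -- w = F + η, w0 = F - (1 - F) x + ε'
    obtain ⟨e, he⟩ : ∃ e : ℝ, e = min ε ((1 - F) * x / 2) := ⟨_, rfl⟩
    have he0 : 0 < e := by
      rw [he]
      have : 0 < 1 - F := by linarith
      exact lt_min hε (by positivity)
    have heε : e ≤ ε := by rw [he]; exact min_le_left _ _
    have heF : e ≤ (1 - F) * x / 2 := by rw [he]; exact min_le_right _ _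
    -- continuity
    have hcont : Filter.Tendsto (fun η : ℝ => (1 - (F - (1 - F) * x + e / 2)) * (1 - (1 - (F + η) ^ 2) * (α' - α) / 8) -
        (1 - (F + η))) (nhds 0) (nhds ((1 - (F - (1 - F) * x + e / 2)) * (1 - (1 - (F + 0) ^ 2) * (α' - α) / 8) -
        (1 - (F + 0)))) := by
      refine Continuous.tendsto ?_ 0
      fun_prop
    have hneg : (1 - (F - (1 - F) * x + e / 2)) * (1 - (1 - (F + 0) ^ 2) * (α' - α) / 8) - (1 - (F + 0)) < 0 := by
      rw [add_zero, ← hx]
      have h1 : (1 - (F - (1 - F) * x + e / 2)) * (1 - x) - (1 - F) = -(1 - F) * x ^ 2 - e / 2 * (1 - x) := by ring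
      rw [h1]
      have h2 : 0 < e / 2 * (1 - x) := mul_pos (by linarith) (by linarith)
      have h3 : 0 ≤ (1 - F) * x ^ 2 := mul_nonneg (by linarith) (by positivity)
      linarith
    have hev := hcont.eventually (gt_mem_nhds hneg)
    rw [Metric.eventually_nhds_iff] at hev
    obtain ⟨r, hr, hball⟩ := hev
    obtain ⟨η, hη⟩ : ∃ η : ℝ, η = min (r / 2) ((1 - F) / 2) := ⟨_, rfl⟩
    have hη0 : 0 < η := by
      rw [hη]
      exact lt_min (by linarith) (by linarith)
    have hηr : η < r := by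
      rw [hη]
      exact (min_le_left _ _).trans_lt (by linarith)
    have hηF : η ≤ (1 - F) / 2 := by
      rw [hη]
      exact min_le_right _ _
    have h1 := hball (y := η) (by rw [Real.dist_eq, sub_zero, abs_of_pos hη0]; exact hηr)
    have hFx : (1 - F) * x ≤ 1 / 16 := by
      have : (1 - F) * x ≤ 1 / 2 * (1 / 8) := mul_le_mul (by linarith) hx1 hx0.le (by norm_num)
      linarith
    have hw : F + η ∈ Set.Ioo (0 : ℝ) 1 := ⟨by linarith, by linarith⟩
    have hw0 : F - (1 - F) * x + e / 2 ∈ Set.Ioo (0 : ℝ) 1 := ⟨by linarith, by nlinarith⟩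
    have h2 := key ⟨F + η, hw⟩ ⟨F - (1 - F) * x + e / 2, hw0⟩ (by simp only; linarith) (by
      show F - (1 - F) * x + e / 2 < F + η
      nlinarith) (by
      simp only
      linarith)
    simp only at h2
    have h3 : (1 - F) ^ 2 * (1 + F) * (α' - α) / 8 = (1 - F) * x := by
      rw [hx]
      ring
    rw [h3]
    linarith
  · -- `f α = 1`
    have h1 := hf1 α'
    rw [hF]
    simp only [sub_self]
    linarith

end FDr.AM
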