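import Pool.Agent.Lib.MP_e029a2_pr.AM1

/-!
# Monotonicity in the drift, part 2: the difference of the laws of finitely many runs
-/

set_option autoImplicit false

namespace FDr.AM

open MeasureTheory ProbabilityTheory
open scoped ENNReal
open FDr.TH (lintegral_cond lintegral_runLaw)

variable {ι : Type*} [DecidableEq ι]

/-- The run of the frog `f` is continued by the step `b` and the run `l`. -/
def ext (c : ι → Run) (f : ι) (b : Bool) (l : Run) : ι → Run := Function.update c f (c f ++ b :: l)

theorem measurable_ext (f : ι) (b : Bool) (l : Run) : Measurable fun c : ι → Run => ext c f b l := by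
  refine measurable_pi_lambda _ fun j => ?_
  by_cases hj : j = f
  · subst hj
    have h1 : (fun c : ι → Run => ext c j b l j) = fun c => c j ++ b :: l := by
      funext c
      unfold ext
      rw [Function.update_self]
    rw [h1]
    exact (measurable_of_countable fun r : Run => r ++ b :: l).comp (measurable_pi_apply j)
  · have h1 : (fun c : ι → Run => ext c f b l j) = fun c => c j := by
      funext c
      unfold ext
      rw [Function.update_of_ne hj]
    rw [h1]
    exact measurable_pi_apply j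

omit [DecidableEq ι] in
theorem measurable_run {g : (ι → Run) → ℝ≥0∞} (hg : Measurable g) (w α : Set.Ioo (0 : ℝ) 1)
    {φ : (ι → Run) → Run → ι → Run} (hφ : ∀ l, Measurable fun c => φ c l) :
    Measurable fun c => ∫⁻ l, g (φ c l) ∂runLaw w α := by
  simp only [lintegral_runLaw]
  exact Measurable.tsum fun l => (hg.comp (hφ l)).const_mul _

omit [DecidableEq ι] in
theorem swap_run {g : (ι → Run) → ℝ≥0∞} (hg : Measurable g) (w α : Set.Ioo (0 : ℝ) 1) (P : Measure (ι → Run))
    {φ : (ι → Run) → Run → ι → Run} (hφ : ∀ l, Measurable fun c => φ c l) :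
    ∫⁻ c, ∫⁻ l, g (φ c l) ∂runLaw w α ∂P = ∫⁻ l, ∫⁻ c, g (φ c l) ∂P ∂runLaw w α := by
  simp only [lintegral_runLaw]
  have hm0 : ∀ l : Run, Measurable fun c => g (φ c l) := fun l => hg.comp (hφ l)
  have hm : ∀ l : Run, Measurable fun c => ENNReal.ofReal (runW w α l) * g (φ c l) := fun l => (hm0 l).const_mul _
  rw [lintegral_tsum fun l => (hm l).aemeasurable]
  exact tsum_congr fun l => lintegral_const_mul _ (hm0 l)

/-- The law of the runs. -/
noncomputable def PP (ι : Type*) (w α : Set.Ioo (0 : ℝ) 1) : Measure (ι → Run) := Measure.infinitePi fun _ : ι => runLaw w α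

instance PP_prob (w α : Set.Ioo (0 : ℝ) 1) : IsProbabilityMeasure (PP ι w α) := by
  unfold PP
  infer_instance

/-- The mean after a continuation of the run of `f`. -/
noncomputable def EX (w α : Set.Ioo (0 : ℝ) 1) (g : (ι → Run) → ℝ≥0∞) (b : Bool) (f : ι) : ℝ≥0∞ :=
  ∫⁻ c, ∫⁻ l, g (ext c f b l) ∂runLaw w α ∂PP ι w α

theorem EX_le (w α : Set.Ioo (0 : ℝ) 1) {g : (ι → Run) → ℝ≥0∞} (h1 : ∀ c, g c ≤ 1) (b : Bool) (f : ι) :
    EX w α g b f ≤ 1 := lint_le _ fun _ => lint_le _ fun _ => h1 _

theorem cond_one (w α : Set.Ioo (0 : ℝ) 1) {g : (ι → Run) → ℝ≥0∞} (hg : Measurable g) (i : ι) :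
    ∫⁻ c, g c ∂PP ι w α = ∫⁻ a, ∫⁻ c, g (Function.update c i a) ∂PP ι w α ∂runLaw w α := by
  have h1 := lintegral_cond (fun _ : ι => runLaw w α) i (g := fun a c => g (Function.update c i a))
    (fun a => hg.comp measurable_update_left) (fun a c c' hc => by
      refine congrArg g (funext fun j => ?_)
      by_cases hj : j = i
      · subst hj
        rw [Function.update_self, Function.update_self]
      · rw [Function.update_of_ne hj, Function.update_of_ne hj, hc j hj])
  simp only [Function.update_eq_self] at h1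
  exact h1

theorem EX_ne (w α : Set.Ioo (0 : ℝ) 1) {g : (ι → Run) → ℝ≥0∞} (hg : Measurable g) {i j : ι} (hij : j ≠ i) (b : Bool) :
    EX w α g b j = ∫⁻ a, EX w α (fun c => g (Function.update c i a)) b j ∂runLaw w α := by
  have h1 := lintegral_cond (fun _ : ι => runLaw w α) i
    (g := fun a c => ∫⁻ l, g (Function.update (ext c j b l) i a) ∂runLaw w α)
    (fun a => measurable_run (φ := fun c l => Function.update (ext c j b l) i a) hg w α fun l =>
      measurable_update_left.comp (measurable_ext j b l)) (fun a c c' hc => by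
      refine lintegral_congr fun l => congrArg g (funext fun k => ?_)
      by_cases hk : k = i
      · subst hk
        rw [Function.update_self, Function.update_self]
      · rw [Function.update_of_ne hk, Function.update_of_ne hk]
        unfold ext
        by_cases hkj : k = j
        · subst hkj
          rw [Function.update_self, Function.update_self, hc k hk]
        · rw [Function.update_of_ne hkj, Function.update_of_ne hkj, hc k hk])
  have h2 : ∀ (c : ι → Run) (l : Run), Function.update (ext c j b l) i (c i) = ext c j b l := by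
    intro c l
    have h3 : c i = ext c j b l i := by
      unfold ext
      rw [Function.update_of_ne (Ne.symm hij)]
    conv_lhs => rw [h3]
    exact Function.update_eq_self _ _
  simp only [h2] at h1
  exact h1

theorem EX_eq (w α : Set.Ioo (0 : ℝ) 1) {g : (ι → Run) → ℝ≥0∞} (hg : Measurable g) (i : ι) (b : Bool) :
    EX w α g b i = ∫⁻ a, ∫⁻ l, ∫⁻ c, g (Function.update c i (a ++ b :: l)) ∂PP ι w α ∂runLaw w α ∂runLaw w α := by
  have h1 := lintegral_cond (fun _ : ι => runLaw w α) i
    (g := fun a c => ∫⁻ l, g (Function.update c i (a ++ b :: l)) ∂runLaw w α)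
    (fun a => measurable_run (φ := fun c l => Function.update c i (a ++ b :: l)) hg w α fun l =>
      measurable_update_left) (fun a c c' hc => by
      refine lintegral_congr fun l => congrArg g (funext fun k => ?_)
      by_cases hk : k = i
      · subst hk
        rw [Function.update_self, Function.update_self]
      · rw [Function.update_of_ne hk, Function.update_of_ne hk, hc k hk])
  unfold EX PP ext
  rw [h1]
  refine lintegral_congr fun a => ?_
  exact swap_run (φ := fun c l => Function.update c i (a ++ b :: l)) hg w α _ fun l => measurable_update_left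

theorem russo (w : Set.Ioo (0 : ℝ) 1) {α α' : Set.Ioo (0 : ℝ) 1} (h : α < α') (F : Finset ι) (g : (ι → Run) → ℝ≥0∞)
    (hg : Measurable g) (h1 : ∀ c, g c ≤ 1) (hdep : ∀ c c' : ι → Run, (∀ i ∈ F, c i = c' i) → g c = g c') :
    ∫⁻ c, g c ∂PP ι w α' + dd w α α' * ∑ f ∈ F, EX w α g false f ≤
      ∫⁻ c, g c ∂PP ι w α + dd w α α' * ∑ f ∈ F, EX w α g true f + (F.card * (F.card + 1) : ℕ) * dd w α α' ^ 2 := by
  induction F using Finset.induction_on generalizing g with
  | empty =>
    have h2 : ∀ c, g c = g fun _ => [] := fun c => hdep c _ (by simp)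
    rw [lintegral_congr h2, lintegral_congr h2, lintegral_const, lintegral_const, measure_univ, measure_univ]
    simp
  | insert i F hi ih =>
    obtain ⟨d, hd⟩ : ∃ d, d = dd w α α' := ⟨_, rfl⟩
    rw [← hd] at ih ⊢
    have hmu : ∀ a : Run, Measurable fun c : ι → Run => g (Function.update c i a) := fun a =>
      hg.comp measurable_update_left
    have hdep' : ∀ (a : Run) (c c' : ι → Run), (∀ j ∈ F, c j = c' j) →
        g (Function.update c i a) = g (Function.update c' i a) := by
      intro a c c' hc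
      refine hdep _ _ fun j hj => ?_
      by_cases hji : j = i
      · subst hji
        rw [Function.update_self, Function.update_self]
      · rw [Function.update_of_ne hji, Function.update_of_ne hji, hc j (Finset.mem_of_mem_insert_of_ne hj hji)]
    have h2 := fun a : Run => ih (fun c => g (Function.update c i a)) (hmu a) (fun c => h1 _) (hdep' a)
    -- notation
    obtain ⟨G, hG⟩ : ∃ G : Run → ℝ≥0∞, ∀ a, G a = ∫⁻ c, g (Function.update c i a) ∂PP ι w α := ⟨_, fun _ => rfl⟩
    obtain ⟨X, hX⟩ : ∃ X : Bool → ι → Run → ℝ≥0∞, ∀ b j a, X b j a = EX w α (fun c => g (Function.update c i a)) b j :=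
      ⟨_, fun _ _ _ => rfl⟩
    have hG1 : ∀ a, G a ≤ 1 := fun a => by
      rw [hG]
      exact lint_le _ fun _ => h1 _
    have hX1 : ∀ b j a, X b j a ≤ 1 := fun b j a => by
      rw [hX]
      exact EX_le w α (fun _ => h1 _) b j
    simp only [← hG, ← hX] at h2
    have h3 : ∫⁻ c, g c ∂PP ι w α' + d * ∑ j ∈ F, ∫⁻ a, X false j a ∂runLaw w α' ≤
        ∫⁻ a, G a ∂runLaw w α' + d * ∑ j ∈ F, ∫⁻ a, X true j a ∂runLaw w α' + (F.card * (F.card + 1) : ℕ) * d ^ 2 := by
      have h4 := lintegral_mono (μ := runLaw w α') h2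
      rw [lintegral_add_left (measurable_of_countable _), lintegral_const_mul _ (measurable_of_countable _),
        lintegral_finsetSum _ fun j _ => measurable_of_countable _, ← cond_one w α' hg i,
        lintegral_add_left (measurable_of_countable _), lintegral_add_left (measurable_of_countable _),
        lintegral_const_mul _ (measurable_of_countable _),
        lintegral_finsetSum _ fun j _ => measurable_of_countable _, lintegral_const, measure_univ, mul_one] at h4
      exact h4
    have h5 : ∀ b, ∀ j ∈ F, EX w α g b j = ∫⁻ a, X b j a ∂runLaw w α := by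
      intro b j hj
      rw [EX_ne w α hg (i := i) (fun hji => hi (hji ▸ hj)) b]
      simp only [hX]
    have h6 : ∀ b, EX w α g b i = ∫⁻ a, ∫⁻ l, G (a ++ b :: l) ∂runLaw w α ∂runLaw w α := by
      intro b
      rw [EX_eq w α hg i b]
      simp only [hG]
    have h7 := run_diff w h G
    rw [← hd] at h7
    have h8 : ∫⁻ c, g c ∂PP ι w α = ∫⁻ a, G a ∂runLaw w α := by
      rw [cond_one w α hg i]
      simp only [hG]
    obtain ⟨Y, hY⟩ : ∃ Y : Bool → Run → ℝ≥0∞, ∀ b a, Y b a = ∫⁻ l, G (a ++ b :: l) ∂runLaw w α := ⟨_, fun _ _ => rfl⟩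
    have hY1 : ∀ b a, Y b a ≤ 1 := fun b a => by
      rw [hY]
      exact lint_le _ fun _ => hG1 _
    simp only [← hY] at h6 h7
    have hN : ∑ j ∈ F, EX w α g false j ≤ ∑ j ∈ F, ∫⁻ a, X false j a ∂runLaw w α' + F.card * d := by
      rw [← nsmul_eq_mul, ← Finset.sum_const, ← Finset.sum_add_distrib]
      refine Finset.sum_le_sum fun j hj => ?_
      rw [h5 _ _ hj, hd]
      exact run_ge w h (hX1 _ _)
    have hQ : ∑ j ∈ F, ∫⁻ a, X true j a ∂runLaw w α' ≤ ∑ j ∈ F, EX w α g true j + F.card * d := by
      rw [← nsmul_eq_mul, ← Finset.sum_const, ← Finset.sum_add_distrib]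
      refine Finset.sum_le_sum fun j hj => ?_
      rw [h5 _ _ hj, hd]
      exact run_le w h (hX1 _ _)
    have hYf : ∫⁻ a, Y false a ∂runLaw w α ≤ ∫⁻ a, Y false a ∂runLaw w α' + d := by
      rw [hd]
      exact run_ge w h (hY1 _)
    have hYt : ∫⁻ a, Y true a ∂runLaw w α' ≤ ∫⁻ a, Y true a ∂runLaw w α + d := by
      rw [hd]
      exact run_le w h (hY1 _)
    rw [Finset.sum_insert hi, Finset.sum_insert hi, Finset.card_insert_of_notMem hi, h6, h6, h8]
    have e1 : (((F.card + 1) * (F.card + 1 + 1) : ℕ) : ℝ≥0∞) = ((F.card * (F.card + 1) : ℕ) : ℝ≥0∞) + 2 * (F.card + 1) := by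
      push_cast
      ring
    rw [e1]
    calc ∫⁻ c, g c ∂PP ι w α' + d * (∫⁻ a, Y false a ∂runLaw w α + ∑ j ∈ F, EX w α g false j)
        ≤ ∫⁻ c, g c ∂PP ι w α' + d * ((∫⁻ a, Y false a ∂runLaw w α' + d) +
          (∑ j ∈ F, ∫⁻ a, X false j a ∂runLaw w α' + F.card * d)) := by gcongr
      _ = (∫⁻ c, g c ∂PP ι w α' + d * ∑ j ∈ F, ∫⁻ a, X false j a ∂runLaw w α') + (d * ∫⁻ a, Y false a ∂runLaw w α' +
          (F.card + 1) * d ^ 2) := by ring
      _ ≤ (∫⁻ a, G a ∂runLaw w α' + d * ∑ j ∈ F, ∫⁻ a, X true j a ∂runLaw w α' + (F.card * (F.card + 1) : ℕ) * d ^ 2) +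
          (d * ∫⁻ a, Y false a ∂runLaw w α' + (F.card + 1) * d ^ 2) := by gcongr
      _ = (∫⁻ a, G a ∂runLaw w α' + d * ∫⁻ a, Y false a ∂runLaw w α') + (d * ∑ j ∈ F, ∫⁻ a, X true j a ∂runLaw w α' +
          ((F.card * (F.card + 1) : ℕ) * d ^ 2 + (F.card + 1) * d ^ 2)) := by ring
      _ = (∫⁻ a, G a ∂runLaw w α + d * ∫⁻ a, Y true a ∂runLaw w α') + (d * ∑ j ∈ F, ∫⁻ a, X true j a ∂runLaw w α' +
          ((F.card * (F.card + 1) : ℕ) * d ^ 2 + (F.card + 1) * d ^ 2)) := by rw [h7]
      _ ≤ (∫⁻ a, G a ∂runLaw w α + d * (∫⁻ a, Y true a ∂runLaw w α + d)) + (d * (∑ j ∈ F, EX w α g true j + F.card * d) +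
          ((F.card * (F.card + 1) : ℕ) * d ^ 2 + (F.card + 1) * d ^ 2)) := by gcongr
      _ = _ := by ring

end FDr.AM
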