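import Pool.Agent.Lib.MP_e029a2_pr.AM1

/-!
# Monotonicity in the drift, part 5: one step of the arriving frog

JOB AM5.  Notation: `p = bw w α true`, `q = bw w α false` (`p + q = w`), `u y = Xi w α s T y` (`FDr.TH.Xi`: the sum of
`pC w α T y z * s ^ z` over `z ∈ T`), `pC w α T y z = ∫⁻ r, qC w α T y r z ∂runLaw w α` (`FDr.TH.pC_eq`), and
`lintegral_runLaw`: an integral for `runLaw` is a sum over the runs `l` with the weights `runW w α l`
(`runW_eq : runW w α l = (1 - w) * (l.map (bw w α)).prod`).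

1. `lintegral_cons`: the first step of a run: split the sum over the runs into `[]` and `b :: l`
   (`runW w α (b :: l) = bw w α b * runW w α l`).
2. `CL_cons`: for `y ∉ S`: `CL S y (b :: l) c z ↔ CL S (y + sg b) l c z`; for every `y`: `CL S (y + sg b) l c z → CL S y (b :: l) c z`
   (`vis (b :: l) = {0} ∪ (sg b + vis l)`; induction on `CL`).
3. `Xi_super`, `Xi_harm` from 1, 2 and `CL_nil` (the empty run activates nothing if `y ∉ S`).
4. `aa` is the smaller root of `q x² - x + p = 0` (`4 p q = w² (1 - α²) < 1`).  `aa_eq`, `aa_pos`, `aa_le` (`aa ≤ w`: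
   `aa = p + q aa² ≤ p + q` as `aa ≤ 1`; `aa ≤ 1` as `q - 1 + p ≤ 0`).
5. `Xi_ge`: `aa * u (y + 1) ≤ u y` for every `y`: with the real numbers `u y` (finite: `pC ≤ 1`): the set of the
   `θ ∈ [0, aa]` such that `θ u (y+1) ≤ u y` for every `y` contains `0`, is closed, and with `θ` it contains
   `p / (1 - q θ)` (`u y ≥ p u (y+1) + q u (y-1) ≥ p u (y+1) + q θ u y`).  Its supremum `θ` has `p / (1 - q θ) ≤ θ`,
   i.e. `q θ² - θ + p ≤ 0`, so `θ ≥ aa`.
6. `Xi_diff`: `aa² u (y+1) ≤ u (y-1)` by 5 (twice), `u y = p u (y+1) + q u (y-1)` by `Xi_harm`, and (`a = aa`)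
   `1 - p (1/a - a) = w a`, `1 + q (1/a - a) = w / a`; so `u (y+1) ≤ u (y-1) + (1/a - a) u y` is equivalent to
   `w a u (y+1) ≤ (w/a) u (y-1)`.
-/

set_option autoImplicit false

namespace FDr.AM

open MeasureTheory ProbabilityTheory
open scoped ENNReal
open FDr.TH (CL pC qC pC_eq Xi lintegral_runLaw CL_nil)

theorem lintegral_cons (w α : Set.Ioo (0 : ℝ) 1) (φ : Run → ℝ≥0∞) : ∫⁻ l, φ l ∂runLaw w α =
    ENNReal.ofReal (1 - w) * φ [] + ENNReal.ofReal (bw w α true) * ∫⁻ l, φ (true :: l) ∂runLaw w α +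
      ENNReal.ofReal (bw w α false) * ∫⁻ l, φ (false :: l) ∂runLaw w α := by
  classical
  rw [lintegral_runLaw, lintegral_runLaw, lintegral_runLaw]
  have h00 : (∑' l : Run, ENNReal.ofReal (runW w α l) * φ l) = ENNReal.ofReal (runW w α []) * φ [] +
      ∑' l : Run, if l = [] then 0 else ENNReal.ofReal (runW w α l) * φ l := by
    refine (ENNReal.tsum_eq_add_tsum_ite ([] : Run)).trans ?_
    refine congrArg (fun t => ENNReal.ofReal (runW w α []) * φ [] + t) (tsum_congr fun l => ?_)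
    by_cases h : l = []
    · rw [if_pos h, if_pos h]
    · rw [if_neg h, if_neg h]
  rw [h00]
  have h0 : ENNReal.ofReal (runW w α []) = ENNReal.ofReal (1 - w) := by
    rw [runW_eq, List.map_nil, List.prod_nil, mul_one]
  have hinj : Function.Injective fun p : Bool × Run => p.1 :: p.2 := by
    rintro ⟨b, l⟩ ⟨b', l'⟩ h
    simpa using h
  have h1 : (∑' l : Run, if l = [] then 0 else ENNReal.ofReal (runW w α l) * φ l) =
      ∑' p : Bool × Run, ENNReal.ofReal (runW w α (p.1 :: p.2)) * φ (p.1 :: p.2) := by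
    have h2 := hinj.tsum_eq (f := fun l : Run => if l = [] then (0 : ℝ≥0∞) else ENNReal.ofReal (runW w α l) * φ l) (by
      intro l hl
      cases l with
      | nil => simp at hl
      | cons b l => exact ⟨(b, l), rfl⟩)
    rw [← h2]
    refine tsum_congr fun p => ?_
    rw [if_neg (List.cons_ne_nil _ _)]
  have h3 : ∀ b : Bool, (∑' l : Run, ENNReal.ofReal (runW w α (b :: l)) * φ (b :: l)) =
      ENNReal.ofReal (bw w α b) * ∑' l : Run, ENNReal.ofReal (runW w α l) * φ (b :: l) := by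
    intro b
    rw [← ENNReal.tsum_mul_left]
    refine tsum_congr fun l => ?_
    have h4 : runW w α (b :: l) = bw w α b * runW w α l := by
      rw [runW_eq, runW_eq, List.map_cons, List.prod_cons]
      ring
    rw [h4, ENNReal.ofReal_mul (bw_pos w.2 α.2 b).le, mul_assoc]
  rw [h1, ENNReal.tsum_prod', tsum_bool, h3, h3, h0]
  rw [add_comm (ENNReal.ofReal (bw w α false) * _), add_assoc]

private theorem AM5_dsp (b : Bool) (l : Run) (i : ℕ) : dsp ((b :: l).take (i + 1)) = sg b + dsp (l.take i) := by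
  unfold dsp
  rw [List.take_succ_cons, List.map_cons, List.sum_cons]

theorem CL_cons_of {S : Set ℤ} {y : ℤ} {b : Bool} {l : Run} {c : ℤ → Run} {z : ℤ} (H : CL S (y + sg b) l c z) :
    CL S y (b :: l) c z := by
  induction H with
  | enter z hz hS =>
    obtain ⟨i, hi, h1⟩ := hz
    refine CL.enter z ⟨i + 1, ?_, ?_⟩ hS
    · rw [List.length_cons]
      omega
    · rw [AM5_dsp, h1]
      ring
  | next z z' _ hv hS ih => exact CL.next z z' ih hv hS

theorem CL_cons {S : Set ℤ} {y : ℤ} (hy : y ∉ S) {b : Bool} {l : Run} {c : ℤ → Run} {z : ℤ} :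
    CL S y (b :: l) c z ↔ CL S (y + sg b) l c z := by
  refine ⟨fun H => ?_, CL_cons_of⟩
  induction H with
  | enter z hz hS =>
    obtain ⟨i, hi, h1⟩ := hz
    cases i with
    | zero =>
      have h2 : dsp ((b :: l).take 0) = 0 := by simp [dsp]
      rw [h2] at h1
      have h3 : z = y := by omega
      rw [h3] at hS
      exact absurd hS hy
    | succ i =>
      rw [AM5_dsp] at h1
      refine CL.enter z ⟨i, ?_, ?_⟩ hS
      · rw [List.length_cons] at hi
        omega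
      · omega
  | next z z' _ hv hS ih => exact CL.next z z' ih hv hS

private theorem AM5_qC_le (w α : Set.Ioo (0 : ℝ) 1) (S : Set ℤ) (y : ℤ) (b : Bool) (l : Run) (z : ℤ) :
    qC w α S (y + sg b) l z ≤ qC w α S y (b :: l) z := by
  unfold TH.qC
  exact measure_mono fun c hc => CL_cons_of hc

private theorem AM5_qC_eq (w α : Set.Ioo (0 : ℝ) 1) {S : Set ℤ} {y : ℤ} (hy : y ∉ S) (b : Bool) (l : Run) (z : ℤ) :
    qC w α S y (b :: l) z = qC w α S (y + sg b) l z := by
  unfold TH.qC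
  refine congrArg _ (Set.ext fun c => ?_)
  exact CL_cons hy

private theorem AM5_qC_nil (w α : Set.Ioo (0 : ℝ) 1) {S : Set ℤ} {y : ℤ} (hy : y ∉ S) (z : ℤ) :
    qC w α S y [] z = 0 := by
  unfold TH.qC
  have h6 : {c : Option ℤ → Run | CL S y [] (fun x => c (some x)) z} = ∅ :=
    Set.eq_empty_of_forall_notMem fun c hc => CL_nil hy hc
  rw [h6, measure_empty]

private theorem AM5_pC_super (w α : Set.Ioo (0 : ℝ) 1) (S : Set ℤ) (y z : ℤ) :
    ENNReal.ofReal (bw w α true) * pC w α S (y + 1) z + ENNReal.ofReal (bw w α false) * pC w α S (y - 1) z ≤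
      pC w α S y z := by
  rw [pC_eq w α S (y + 1), pC_eq w α S (y - 1), pC_eq w α S y, lintegral_cons w α fun r => qC w α S y r z, add_assoc]
  refine le_trans ?_ le_add_self
  refine add_le_add (mul_le_mul_right (lintegral_mono fun l => ?_) _) (mul_le_mul_right (lintegral_mono fun l => ?_) _)
  · exact AM5_qC_le w α S y true l z
  · exact AM5_qC_le w α S y false l z

private theorem AM5_pC_harm (w α : Set.Ioo (0 : ℝ) 1) {S : Set ℤ} {y : ℤ} (hy : y ∉ S) (z : ℤ) :
    pC w α S y z = ENNReal.ofReal (bw w α true) * pC w α S (y + 1) z +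
      ENNReal.ofReal (bw w α false) * pC w α S (y - 1) z := by
  rw [pC_eq w α S (y + 1), pC_eq w α S (y - 1), pC_eq w α S y, lintegral_cons w α fun r => qC w α S y r z,
    AM5_qC_nil w α hy, mul_zero, zero_add]
  have h1 : ∀ b : Bool, ∫⁻ l, qC w α S y (b :: l) z ∂runLaw w α = ∫⁻ l, qC w α S (y + sg b) l z ∂runLaw w α :=
    fun b => lintegral_congr fun l => AM5_qC_eq w α hy b l z
  rw [h1, h1]
  rfl

theorem Xi_super (w α : Set.Ioo (0 : ℝ) 1) (s : ℝ) (T : Finset ℤ) (y : ℤ) :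
    ENNReal.ofReal (bw w α true) * Xi w α s T (y + 1) + ENNReal.ofReal (bw w α false) * Xi w α s T (y - 1) ≤
      Xi w α s T y := by
  unfold TH.Xi
  rw [Finset.mul_sum, Finset.mul_sum, ← Finset.sum_add_distrib]
  refine Finset.sum_le_sum fun z _ => ?_
  rw [← mul_assoc, ← mul_assoc, ← add_mul]
  exact mul_le_mul_left (AM5_pC_super w α _ y z) _

theorem Xi_harm (w α : Set.Ioo (0 : ℝ) 1) (s : ℝ) (T : Finset ℤ) {y : ℤ} (hy : y ∉ T) : Xi w α s T y =
    ENNReal.ofReal (bw w α true) * Xi w α s T (y + 1) + ENNReal.ofReal (bw w α false) * Xi w α s T (y - 1) := by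
  unfold TH.Xi
  rw [Finset.mul_sum, Finset.mul_sum, ← Finset.sum_add_distrib]
  refine Finset.sum_congr rfl fun z _ => ?_
  rw [← mul_assoc, ← mul_assoc, ← add_mul]
  rw [AM5_pC_harm w α (S := ↑T) (y := y) (by exact_mod_cast hy) z]

/-- The smaller root of `q x² - x + p = 0`: the probability that a run visits `1`. -/
noncomputable def aa (w α : ℝ) : ℝ :=
  (1 - Real.sqrt (1 - 4 * (bw w α true * bw w α false))) / (2 * bw w α false)

private theorem AM5_basic (w α : Set.Ioo (0 : ℝ) 1) : bw w α true + bw w α false = w ∧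
    4 * (bw w α true * bw w α false) < 1 ∧ bw w α false < 1 / 2 := by
  have h1 := w.2.1
  have h2 := w.2.2
  have h3 := α.2.1
  have h4 := α.2.2
  unfold bw
  simp only [if_true, Bool.false_eq_true, if_false]
  refine ⟨by ring, ?_, ?_⟩
  · have h5 : 4 * ((w : ℝ) * (1 + α) / 2 * (w * (1 - α) / 2)) = (w : ℝ) ^ 2 * (1 - (α : ℝ) ^ 2) := by ring
    rw [h5]
    have h6 : (w : ℝ) ^ 2 < 1 := by nlinarith
    have h7 : 0 < (α : ℝ) ^ 2 := by positivity
    have h8 : 0 < (w : ℝ) ^ 2 := by positivity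
    nlinarith
  · nlinarith

private theorem AM5_root (w α : Set.Ioo (0 : ℝ) 1) : ∃ s : ℝ, 0 < s ∧ s < 1 ∧
    s ^ 2 = 1 - 4 * (bw w α true * bw w α false) ∧ 2 * bw w α false * aa w α = 1 - s := by
  obtain ⟨h1, h2, h3⟩ := AM5_basic w α
  have hp := bw_pos w.2 α.2 true
  have hq := bw_pos w.2 α.2 false
  refine ⟨Real.sqrt (1 - 4 * (bw w α true * bw w α false)), Real.sqrt_pos.2 (by linarith), ?_, ?_, ?_⟩
  · rw [Real.sqrt_lt' one_pos]
    have : 0 < bw w α true * bw w α false := mul_pos hp hq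
    linarith
  · exact Real.sq_sqrt (by linarith)
  · unfold aa
    field_simp

theorem aa_eq (w α : Set.Ioo (0 : ℝ) 1) : bw w α true + bw w α false * aa w α ^ 2 = aa w α := by
  obtain ⟨s, hs0, hs1, hs2, hs3⟩ := AM5_root w α
  have hq := bw_pos w.2 α.2 false
  have h1 : (4 * bw w α false) * (bw w α true + bw w α false * aa w α ^ 2) = (4 * bw w α false) * aa w α := by
    have h2 : (2 * bw w α false * aa w α) ^ 2 = (1 - s) ^ 2 := by rw [hs3]
    nlinarith
  exact mul_left_cancel₀ (by positivity) h1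

theorem aa_pos (w α : Set.Ioo (0 : ℝ) 1) : 0 < aa w α := by
  obtain ⟨s, hs0, hs1, hs2, hs3⟩ := AM5_root w α
  have hq := bw_pos w.2 α.2 false
  have h1 : 0 < 2 * bw w α false * aa w α := by rw [hs3]; linarith
  exact (mul_pos_iff_of_pos_left (by positivity)).1 h1

theorem aa_le (w α : Set.Ioo (0 : ℝ) 1) : aa w α ≤ w := by
  obtain ⟨s, hs0, hs1, hs2, hs3⟩ := AM5_root w α
  obtain ⟨h1, h2, h3⟩ := AM5_basic w α
  have hp := bw_pos w.2 α.2 true
  have hq := bw_pos w.2 α.2 false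
  have hw := w.2.2
  have h4 : 1 - 2 * bw w α false ≤ s := by
    by_contra h
    push Not at h
    have h5 : s ^ 2 < (1 - 2 * bw w α false) ^ 2 := by
      apply pow_lt_pow_left₀ h hs0.le two_ne_zero
    nlinarith
  have h5 : aa w α ≤ 1 := by
    have h6 : 2 * bw w α false * aa w α ≤ 2 * bw w α false * 1 := by rw [hs3]; linarith
    exact le_of_mul_le_mul_left h6 (by positivity)
  have h6 := aa_eq w α
  have h7 := aa_pos w α
  have h8 : aa w α ^ 2 ≤ 1 := by nlinarith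
  have h9 := mul_le_mul_of_nonneg_left h8 hq.le
  linarith

private theorem AM5_fin (w α : Set.Ioo (0 : ℝ) 1) (s : ℝ) (T : Finset ℤ) (y : ℤ) : Xi w α s T y ≠ ⊤ := by
  unfold TH.Xi
  refine (ENNReal.sum_lt_top.2 fun z _ => ?_).ne
  refine ENNReal.mul_lt_top ?_ ENNReal.ofReal_lt_top
  unfold TH.pC
  exact measure_lt_top _ _

private theorem AM5_real_super (w α : Set.Ioo (0 : ℝ) 1) (s : ℝ) (T : Finset ℤ) (y : ℤ) :
    bw w α true * (Xi w α s T (y + 1)).toReal + bw w α false * (Xi w α s T (y - 1)).toReal ≤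
      (Xi w α s T y).toReal := by
  have hp := bw_pos w.2 α.2 true
  have hq := bw_pos w.2 α.2 false
  have h1 := ENNReal.toReal_mono (AM5_fin w α s T y) (Xi_super w α s T y)
  rw [ENNReal.toReal_add (ENNReal.mul_ne_top ENNReal.ofReal_ne_top (AM5_fin _ _ _ _ _))
    (ENNReal.mul_ne_top ENNReal.ofReal_ne_top (AM5_fin _ _ _ _ _)), ENNReal.toReal_mul, ENNReal.toReal_mul,
    ENNReal.toReal_ofReal hp.le, ENNReal.toReal_ofReal hq.le] at h1
  exact h1

private theorem AM5_real_harm (w α : Set.Ioo (0 : ℝ) 1) (s : ℝ) (T : Finset ℤ) {y : ℤ} (hy : y ∉ T) :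
    (Xi w α s T y).toReal = bw w α true * (Xi w α s T (y + 1)).toReal + bw w α false * (Xi w α s T (y - 1)).toReal := by
  have hp := bw_pos w.2 α.2 true
  have hq := bw_pos w.2 α.2 false
  rw [Xi_harm w α s T hy, ENNReal.toReal_add (ENNReal.mul_ne_top ENNReal.ofReal_ne_top (AM5_fin _ _ _ _ _))
    (ENNReal.mul_ne_top ENNReal.ofReal_ne_top (AM5_fin _ _ _ _ _)), ENNReal.toReal_mul, ENNReal.toReal_mul,
    ENNReal.toReal_ofReal hp.le, ENNReal.toReal_ofReal hq.le]

private theorem AM5_ge {p q a : ℝ} (hp : 0 < p) (hq : 0 < q) (ha : 0 < a) (hr : p + q * a ^ 2 = a)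
    (h2 : 2 * q * a < 1) {u : ℤ → ℝ} (h0 : ∀ y, 0 ≤ u y) (hu : ∀ y, p * u (y + 1) + q * u (y - 1) ≤ u y) (y : ℤ) :
    a * u (y + 1) ≤ u y := by
  obtain ⟨Θ, hΘ⟩ : ∃ Θ : Set ℝ, Θ = {θ | 0 ≤ θ ∧ θ ≤ a ∧ ∀ y, θ * u (y + 1) ≤ u y} := ⟨_, rfl⟩
  have hne : (0 : ℝ) ∈ Θ := by
    rw [hΘ]
    exact ⟨le_rfl, ha.le, fun y => by rw [zero_mul]; exact h0 y⟩
  have hbdd : BddAbove Θ := ⟨a, fun θ hθ => by rw [hΘ] at hθ; exact hθ.2.1⟩
  have hcl : IsClosed Θ := by
    have h3 : Θ = Set.Icc 0 a ∩ ⋂ y, {θ : ℝ | θ * u (y + 1) ≤ u y} := by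
      rw [hΘ]
      ext θ
      simp only [Set.mem_ofPred_eq, Set.mem_inter_iff, Set.mem_Icc, Set.mem_iInter]
      tauto
    rw [h3]
    exact isClosed_Icc.inter (isClosed_iInter fun y => isClosed_le (continuous_id.mul continuous_const) continuous_const)
  have hmem : sSup Θ ∈ Θ := hcl.csSup_mem ⟨0, hne⟩ hbdd
  obtain ⟨θ, hθ⟩ : ∃ θ, θ = sSup Θ := ⟨_, rfl⟩
  rw [← hθ] at hmem
  have hm := hmem
  rw [hΘ] at hm
  obtain ⟨hm0, hm1, hm2⟩ := hm
  have hqa : q * a < 1 := by nlinarith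
  have hqθ : 0 < 1 - q * θ := by nlinarith
  have hnext : p / (1 - q * θ) ∈ Θ := by
    rw [hΘ]
    refine ⟨by positivity, ?_, fun y => ?_⟩
    · rw [div_le_iff₀ hqθ]
      nlinarith [mul_nonneg (mul_pos hq ha).le (sub_nonneg.2 hm1)]
    · rw [div_mul_eq_mul_div, div_le_iff₀ hqθ]
      have h3 := hm2 (y - 1)
      rw [sub_add_cancel] at h3
      have h4 := hu y
      nlinarith
  have hle : p / (1 - q * θ) ≤ θ := by
    rw [hθ]
    rw [hθ] at hnext
    exact le_csSup hbdd hnext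
  rw [div_le_iff₀ hqθ] at hle
  have hθa : a ≤ θ := by
    by_contra h
    push Not at h
    have h5 : (θ - a) * (q * (θ + a) - 1) ≤ 0 := by nlinarith
    have h6 : q * (θ + a) - 1 < 0 := by nlinarith
    have h7 : 0 < (θ - a) * (q * (θ + a) - 1) := mul_pos_of_neg_of_neg (by linarith) h6
    linarith
  have h8 : θ = a := le_antisymm hm1 hθa
  rw [← h8]
  exact hm2 y

private theorem AM5_real_ge (w α : Set.Ioo (0 : ℝ) 1) (s : ℝ) (T : Finset ℤ) (y : ℤ) :
    aa w α * (Xi w α s T (y + 1)).toReal ≤ (Xi w α s T y).toReal := by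
  obtain ⟨t, ht0, ht1, ht2, ht3⟩ := AM5_root w α
  exact AM5_ge (bw_pos w.2 α.2 true) (bw_pos w.2 α.2 false) (aa_pos w α) (aa_eq w α) (by rw [ht3]; linarith)
    (u := fun y => (Xi w α s T y).toReal) (fun y => ENNReal.toReal_nonneg) (fun y => AM5_real_super w α s T y) y

theorem Xi_ge (w α : Set.Ioo (0 : ℝ) 1) {s : ℝ} (hs : 0 < s) (T : Finset ℤ) (y : ℤ) :
    ENNReal.ofReal (aa w α) * Xi w α s T (y + 1) ≤ Xi w α s T y := by
  have h1 := AM5_real_ge w α s T y
  rw [← ENNReal.toReal_le_toReal (ENNReal.mul_ne_top ENNReal.ofReal_ne_top (AM5_fin _ _ _ _ _)) (AM5_fin _ _ _ _ _),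
    ENNReal.toReal_mul, ENNReal.toReal_ofReal (aa_pos w α).le]
  exact h1

private theorem AM5_diff {p q a w u0 u1 u2 : ℝ} (ha : 0 < a) (hw : 0 < w) (hpq : p + q = w) (hr : p + q * a ^ 2 = a)
    (h1 : a * u2 ≤ u1) (h2 : a * u1 ≤ u0) (hu : u1 = p * u2 + q * u0) : u2 ≤ u0 + (1 / a - a) * u1 := by
  have h3 : a ^ 2 * u2 ≤ u0 := by nlinarith
  have h4 : p = a * (1 - q * a) := by linarith
  have h5 : a * (u0 + (1 / a - a) * u1 - u2) = w * (u0 - a ^ 2 * u2) := by
    have h6 : a * (u0 + (1 / a - a) * u1 - u2) = a * u0 + (1 - a ^ 2) * u1 - a * u2 := by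
      field_simp
    rw [h6, hu, ← hpq]
    linear_combination (u2 - u0) * hr
  have h7 : 0 ≤ a * (u0 + (1 / a - a) * u1 - u2) := by
    rw [h5]
    exact mul_nonneg hw.le (by linarith)
  have h8 := nonneg_of_mul_nonneg_right h7 ha
  linarith

theorem Xi_diff (w α : Set.Ioo (0 : ℝ) 1) {s : ℝ} (hs : 0 < s) (T : Finset ℤ) {y : ℤ} (hy : y ∉ T) :
    Xi w α s T (y + 1) ≤ Xi w α s T (y - 1) + ENNReal.ofReal (1 / aa w α - aa w α) * Xi w α s T y := by
  have ha := aa_pos w α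
  have ha1 : aa w α < 1 := (aa_le w α).trans_lt w.2.2
  have h0 : 0 ≤ 1 / aa w α - aa w α := by
    have h1 : 1 < 1 / aa w α := by rw [lt_div_iff₀ ha]; linarith
    linarith
  have hf := fun y => AM5_fin w α s T y
  rw [← ENNReal.toReal_le_toReal (hf _) (ENNReal.add_ne_top.2 ⟨hf _, ENNReal.mul_ne_top ENNReal.ofReal_ne_top (hf _)⟩),
    ENNReal.toReal_add (hf _) (ENNReal.mul_ne_top ENNReal.ofReal_ne_top (hf _)), ENNReal.toReal_mul,
    ENNReal.toReal_ofReal h0]
  have h3 := AM5_real_ge w α s T (y - 1)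
  rw [sub_add_cancel] at h3
  exact AM5_diff ha w.2.1 (AM5_basic w α).1 (aa_eq w α) (AM5_real_ge w α s T y) h3 (AM5_real_harm w α s T hy)

end FDr.AM
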