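import Pool.Agent.Lib.MP_e029a2_pr.AM2
import Pool.Agent.Lib.MP_e029a2_pr.AM5

/-!
# Monotonicity in the drift, part 3: the cluster after the continuation of a run
-/

set_option autoImplicit false

namespace FDr.AM

open MeasureTheory ProbabilityTheory
open scoped ENNReal
open FDr.TH (CL cS pl fr CL_decomp end_notMem CL_nil CL_congr CL_congr_iff CL_mono cS_congr cS_next dsp_append)

theorem vis_append_left {l r : Run} {x : ℤ} (hx : x ∈ vis l) : x ∈ vis (l ++ r) := by
  obtain ⟨i, hi, rfl⟩ := hx
  exact ⟨i, by rw [List.length_append]; omega, by rw [List.take_append_of_le_length hi]⟩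

theorem vis_append_right {l r : Run} {x : ℤ} (hx : x - dsp l ∈ vis r) : x ∈ vis (l ++ r) := by
  obtain ⟨i, hi, h1⟩ := hx
  refine ⟨l.length + i, by rw [List.length_append]; omega, ?_⟩
  rw [List.take_append, List.take_of_length_le (by omega), dsp_append, Nat.add_sub_cancel_left, h1]
  ring

/-- more visits activate more frogs -/
theorem CL_mono_run {S : Set ℤ} {h : ℤ} {e e' : Run} {c c' : ℤ → Run} (he : vis e ⊆ vis e')
    (hc : ∀ x, vis (c x) ⊆ vis (c' x)) {z : ℤ} (H : CL S h e c z) : CL S h e' c' z := by
  induction H with
  | enter z hz hS => exact CL.enter z (he hz) hS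
  | next z z' _ hv hS ih => exact CL.next z z' ih (hc _ hv) hS

/-- the configuration after the continuation is a concatenation -/
theorem ext_eq (c : Option ℤ → Run) (f : Option ℤ) (b : Bool) (l : Run) (g : Option ℤ) :
    ext c f b l g = c g ++ (if g = f then b :: l else []) := by
  unfold ext
  by_cases hg : g = f
  · subst hg
    rw [Function.update_self, if_pos rfl]
  · rw [Function.update_of_ne hg, if_neg hg, List.append_nil]

/-- **The cluster after the continuation of the run of a frog of the cluster.** -/
theorem CL_ext {S : Set ℤ} {h : ℤ} {c : Option ℤ → Run} {f : Option ℤ} (hf : fr (cS S h c) f) (b : Bool) (l : Run)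
    (z : ℤ) : CL S h (ext c f b l none) (fun x => ext c f b l (some x)) z ↔ z ∈ cS S h c ∨
      CL (S \ cS S h c) (pl h f + dsp (c f) + sg b) l (fun x => c (some x)) z := by
  have hy := end_notMem hf
  constructor
  · intro H
    have H' : CL S h (c none ++ (if none = f then b :: l else [])) (fun x => c (some x) ++ (if some x = f then b :: l else []))
        z := by
      simpa only [ext_eq] using H
    rcases CL_decomp (l := c) (r := fun g => if g = f then b :: l else []) H' with h1 | ⟨f', hf', h1⟩
    · exact Or.inl h1
    · right
      by_cases hff : f' = f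
      · subst hff
        simp only [if_true] at h1
        rw [← CL_cons hy]
        refine CL_congr (fun x hx => ?_) h1
        have h2 : some x ≠ f' := fun h3 => hx.2 (hf' x h3.symm)
        rw [if_neg h2, List.append_nil]
      · simp only [if_neg hff] at h1
        exact absurd h1 fun h2 => CL_nil (end_notMem hf') h2
  · intro H
    have hmono : ∀ z, z ∈ cS S h c → CL S h (ext c f b l none) (fun x => ext c f b l (some x)) z := by
      intro z hz
      refine CL_mono_run ?_ (fun x => ?_) hz
      · rw [ext_eq]
        exact fun _ hx => vis_append_left hx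
      · rw [ext_eq]
        exact fun _ hx => vis_append_left hx
    rcases H with h1 | h1
    · exact hmono z h1
    · have h2 : CL (S \ cS S h c) (pl h f + dsp (c f)) (b :: l) (fun x => c (some x)) z := (CL_cons hy).2 h1
      clear h1
      have hreach : ∀ x, x - (pl h f + dsp (c f)) ∈ vis (b :: l) → x - pl h f ∈ vis (ext c f b l f) := by
        intro x hx
        rw [ext_eq, if_pos rfl]
        refine vis_append_right ?_
        rwa [sub_sub]
      induction h2 with
      | enter z hz hS =>
        cases f with
        | none => exact CL.enter z (hreach z hz) hS.1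
        | some x => exact CL.next x z (hmono x (hf x rfl)) (hreach z hz) hS.1
      | next z z' _ hv hS ih =>
        refine CL.next z z' ih ?_ hS.1
        rw [ext_eq]
        exact vis_append_left hv

/-- the continuation of the run of a frog outside the cluster changes nothing -/
theorem CL_ext_not {S : Set ℤ} {h : ℤ} {c : Option ℤ → Run} {f : Option ℤ} (hf : ¬fr (cS S h c) f) (b : Bool) (l : Run)
    (z : ℤ) : CL S h (ext c f b l none) (fun x => ext c f b l (some x)) z ↔ z ∈ cS S h c := by
  have h1 : cS S h (ext c f b l) = cS S h c := by
    refine cS_congr (c := c) (fun g hg => ?_) rfl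
    have h2 : g ≠ f := fun h3 => hf (h3 ▸ hg)
    rw [ext_eq, if_neg h2, List.append_nil]
  have h2 : (z ∈ cS S h (ext c f b l)) ↔ z ∈ cS S h c := by rw [h1]
  exact h2

end FDr.AM
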