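import Pool.Agent.Lib.MP_e029a2_pr.AM3

/-!
# Monotonicity in the drift, part 4: the inequality for the generating functions
-/

set_option autoImplicit false

namespace FDr.AM

open MeasureTheory ProbabilityTheory
open scoped ENNReal
open FDr.TH (CL cS pl fr PR pC qC pC_eq EA measurable_CL measurable_CLc measurable_EA measurable_cS cS_subset cS_congr
  CL_congr_iff Xi pC_zero lintegral_mul_of_disj lintegral_runLaw)
open FDr.TR (ind_true ind_false ind_mono ind_and ind_congr measurable_ind lintegral_ind)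

/-- The part of the activation probability from the continuations. -/
noncomputable def AB (w α : Set.Ioo (0 : ℝ) 1) (T : Finset ℤ) (h : ℤ) (b : Bool) (z : ℤ) : ℝ≥0∞ :=
  ∑' p : Finset ℤ × Option ℤ × ℤ, PR w α {c | EA ↑T h ↑p.1 p.2.1 p.2.2 c} * pC w α (↑(T \ p.1)) (p.2.2 + sg b) z

/-- the arriving frog makes an independent run -/
theorem pC_swap (w α : Set.Ioo (0 : ℝ) 1) (S : Set ℤ) (y z : ℤ) :
    ∫⁻ c, ∫⁻ l, TR.ind (CL S y l (fun x => c (some x)) z) ∂runLaw w α ∂PR w α = pC w α S y z := by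
  have hm : ∀ l : Run, Measurable fun c : Option ℤ → Run => TR.ind (CL S y l (fun x => c (some x)) z) := fun l =>
    measurable_ind (measurable_CL S y measurable_const (fun _ => measurable_pi_apply _) z)
  have hm2 : ∀ l : Run, Measurable fun c : Option ℤ → Run => ENNReal.ofReal (runW w α l) *
      TR.ind (CL S y l (fun x => c (some x)) z) := fun l => (hm l).const_mul _
  rw [pC_eq, lintegral_runLaw]
  simp only [lintegral_runLaw]
  rw [lintegral_tsum fun l => (hm2 l).aemeasurable]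
  refine tsum_congr fun l => ?_
  rw [lintegral_const_mul _ (hm l), lintegral_ind _ (measurable_CL S y measurable_const (fun _ => measurable_pi_apply _) z)]
  rfl

theorem EX_split (w α : Set.Ioo (0 : ℝ) 1) (T : Finset ℤ) (h z : ℤ) (b : Bool) (f : Option ℤ) :
    EX w α (fun c => TR.ind (CL (↑T : Set ℤ) h (c none) (fun x => c (some x)) z)) b f = pC w α ↑T h z +
      ∑' p : Finset ℤ × ℤ, PR w α {c | EA ↑T h ↑p.1 f p.2 c} * pC w α (↑(T \ p.1)) (p.2 + sg b) z := by
  classical
  have h1 : ∀ c : Option ℤ → Run, ∫⁻ l, TR.ind (CL (↑T : Set ℤ) h (ext c f b l none) (fun x => ext c f b l (some x)) z)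
      ∂runLaw w α = TR.ind (CL (↑T : Set ℤ) h (c none) (fun x => c (some x)) z) +
        ∑' p : Finset ℤ × ℤ, TR.ind (EA ↑T h ↑p.1 f p.2 c) *
          ∫⁻ l, TR.ind (CL (↑(T \ p.1) : Set ℤ) (p.2 + sg b) l (fun x => c (some x)) z) ∂runLaw w α := by
    intro c
    have hfin : (cS (↑T : Set ℤ) h c).Finite := T.finite_toSet.subset (cS_subset _ _ _)
    by_cases hf : fr (cS (↑T : Set ℤ) h c) f
    · rw [tsum_eq_single (hfin.toFinset, pl h f + dsp (c f))]
      · rw [ind_true (p := EA (↑T : Set ℤ) h ↑(hfin.toFinset, pl h f + dsp (c f)).1 f (hfin.toFinset, pl h f + dsp (c f)).2 c)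
          ⟨hfin.coe_toFinset.symm, by rw [hfin.coe_toFinset]; exact hf, rfl⟩, one_mul]
        simp only [CL_ext hf b]
        have h2 : ∀ l : Run, TR.ind (z ∈ cS (↑T : Set ℤ) h c ∨
            CL ((↑T : Set ℤ) \ cS ↑T h c) (pl h f + dsp (c f) + sg b) l (fun x => c (some x)) z) =
            TR.ind (CL (↑T : Set ℤ) h (c none) (fun x => c (some x)) z) +
              TR.ind (CL (↑(T \ hfin.toFinset) : Set ℤ) (pl h f + dsp (c f) + sg b) l (fun x => c (some x)) z) := by
          intro l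
          rw [Finset.coe_sdiff, hfin.coe_toFinset]
          by_cases hz : z ∈ cS (↑T : Set ℤ) h c
          · rw [ind_true (Or.inl hz), ind_true (p := CL (↑T : Set ℤ) h (c none) (fun x => c (some x)) z) hz,
              ind_false fun h3 => (TH.CL.mem h3).2 hz, add_zero]
          · have h3 : TR.ind (CL (↑T : Set ℤ) h (c none) (fun x => c (some x)) z) = 0 := ind_false hz
            rw [h3, zero_add]
            exact ind_congr (or_iff_right hz)
        simp only [h2]
        rw [lintegral_add_left (measurable_of_countable _), lintegral_const, measure_univ, mul_one]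
      · rintro ⟨C, e⟩ hp
        rw [ind_false, zero_mul]
        rintro ⟨k1, -, k3⟩
        refine hp (Prod.ext ?_ k3.symm)
        simp only at k1 ⊢
        rw [← Finset.coe_inj, hfin.coe_toFinset]
        exact k1.symm
    · simp only [CL_ext_not hf b]
      rw [lintegral_const, measure_univ, mul_one]
      have h3 : (∑' p : Finset ℤ × ℤ, TR.ind (EA ↑T h ↑p.1 f p.2 c) *
          ∫⁻ l, TR.ind (CL (↑(T \ p.1) : Set ℤ) (p.2 + sg b) l (fun x => c (some x)) z) ∂runLaw w α) = 0 := by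
        rw [ENNReal.tsum_eq_zero]
        rintro ⟨C, e⟩
        rw [ind_false, zero_mul]
        rintro ⟨k1, k2, -⟩
        simp only at k1 k2
        exact hf (k1 ▸ k2)
      rw [h3, add_zero]
      rfl
  have hml : ∀ p : Finset ℤ × ℤ, Measurable fun c : Option ℤ → Run =>
      ∫⁻ l, TR.ind (CL (↑(T \ p.1) : Set ℤ) (p.2 + sg b) l (fun x => c (some x)) z) ∂runLaw w α := by
    intro p
    simp only [lintegral_runLaw]
    exact Measurable.tsum fun l => (measurable_ind (measurable_CL _ _ measurable_const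
      (fun _ => measurable_pi_apply _) z)).const_mul _
  have hme : ∀ p : Finset ℤ × ℤ, Measurable fun c : Option ℤ → Run => TR.ind (EA (↑T : Set ℤ) h ↑p.1 f p.2 c) :=
    fun p => measurable_ind (measurable_EA _ _ _ _ _)
  have hmm : ∀ p : Finset ℤ × ℤ, Measurable fun c : Option ℤ → Run => TR.ind (EA (↑T : Set ℤ) h ↑p.1 f p.2 c) *
      ∫⁻ l, TR.ind (CL (↑(T \ p.1) : Set ℤ) (p.2 + sg b) l (fun x => c (some x)) z) ∂runLaw w α :=
    fun p => (hme p).mul (hml p)
  unfold EX
  rw [lintegral_congr h1, lintegral_add_left (measurable_ind (measurable_CLc _ _ _)),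
    lintegral_tsum fun p => (hmm p).aemeasurable]
  refine congrArg₂ (· + ·) (lintegral_ind _ (measurable_CLc _ _ _)) (tsum_congr fun p => ?_)
  obtain ⟨C, e⟩ := p
  have h4 : ∫⁻ c, TR.ind (EA (↑T : Set ℤ) h ↑C f e c) *
      ∫⁻ l, TR.ind (CL (↑(T \ C) : Set ℤ) (e + sg b) l (fun x => c (some x)) z) ∂runLaw w α ∂PR w α =
      (∫⁻ c, TR.ind (EA (↑T : Set ℤ) h ↑C f e c) ∂PR w α) *
        ∫⁻ c, ∫⁻ l, TR.ind (CL (↑(T \ C) : Set ℤ) (e + sg b) l (fun x => c (some x)) z) ∂runLaw w α ∂PR w α := by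
    unfold PR
    refine lintegral_mul_of_disj (fun _ => runLaw w α) {i | fr (↑C : Set ℤ) i} (hme (C, e)) (hml (C, e)) ?_ ?_
    · have key : ∀ c c' : Option ℤ → Run, (∀ i ∈ {i : Option ℤ | fr (↑C : Set ℤ) i}, c i = c' i) →
          EA ↑T h ↑C f e c → EA ↑T h ↑C f e c' := by
        rintro c c' hc ⟨k1, k2, k3⟩
        refine ⟨cS_congr (fun g hg => hc g hg) k1, k2, ?_⟩
        rw [← hc f k2]
        exact k3
      intro c c' hc
      exact ind_congr ⟨key c c' hc, key c' c fun i hi => (hc i hi).symm⟩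
    · intro c c' hc
      refine lintegral_congr fun l => ind_congr (CL_congr_iff (fun x hx => hc (some x) fun h5 => ?_) z)
      exact (Finset.mem_sdiff.1 (Finset.mem_coe.1 hx)).2 (Finset.mem_coe.1 (h5 x rfl))
  refine Eq.trans h4 ?_
  rw [pC_swap, lintegral_ind _ (measurable_EA _ _ _ _ _)]

theorem sum_EX (w α : Set.Ioo (0 : ℝ) 1) (T : Finset ℤ) (h z : ℤ) (b : Bool) :
    ∑ f ∈ Finset.insertNone T, EX w α (fun c => TR.ind (CL (↑T : Set ℤ) h (c none) (fun x => c (some x)) z)) b f =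
      (T.card + 1 : ℕ) * pC w α ↑T h z + AB w α T h b z := by
  classical
  have h1 : AB w α T h b z = ∑ f ∈ Finset.insertNone T, ∑' p : Finset ℤ × ℤ, PR w α {c | EA ↑T h ↑p.1 f p.2 c} *
      pC w α (↑(T \ p.1)) (p.2 + sg b) z := by
    unfold AB
    rw [ENNReal.tsum_prod']
    have h2 : ∀ C : Finset ℤ, ∑' p : Option ℤ × ℤ, PR w α {c | EA (↑T : Set ℤ) h ↑C p.1 p.2 c} *
        pC w α (↑(T \ C)) (p.2 + sg b) z = ∑ f ∈ Finset.insertNone T, ∑' e : ℤ, PR w α {c | EA (↑T : Set ℤ) h ↑C f e c} *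
          pC w α (↑(T \ C)) (e + sg b) z := by
      intro C
      rw [ENNReal.tsum_prod']
      refine tsum_eq_sum fun f hf => ?_
      rw [ENNReal.tsum_eq_zero]
      intro e
      have h3 : {c : Option ℤ → Run | EA (↑T : Set ℤ) h ↑C f e c} = ∅ := by
        refine Set.eq_empty_of_forall_notMem fun c hc => hf ?_
        obtain ⟨k1, k2, -⟩ := hc
        rw [Finset.mem_insertNone]
        intro x hx
        have h4 : x ∈ (↑C : Set ℤ) := k2 x hx
        rw [← k1] at h4
        exact Finset.mem_coe.1 (cS_subset _ _ _ h4)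
      rw [h3, measure_empty, zero_mul]
    simp only [h2]
    rw [Summable.tsum_finsetSum fun _ _ => ENNReal.summable]
    refine Finset.sum_congr rfl fun f _ => ?_
    rw [ENNReal.tsum_prod']
  rw [h1, Finset.sum_congr rfl fun f _ => EX_split w α T h z b f, Finset.sum_add_distrib, Finset.sum_const,
    nsmul_eq_mul, Finset.card_insertNone]

/-- **The inequality for one point.** -/
theorem pC_alpha (w : Set.Ioo (0 : ℝ) 1) {α α' : Set.Ioo (0 : ℝ) 1} (hα : α < α') (T : Finset ℤ) (h z : ℤ) :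
    pC w α' ↑T h z + dd w α α' * AB w α T h false z ≤ pC w α ↑T h z + dd w α α' * AB w α T h true z +
      ((T.card + 1) * (T.card + 1 + 1) : ℕ) * dd w α α' ^ 2 := by
  have hle : ∀ p : Prop, TR.ind p ≤ 1 := fun p => by
    by_cases hp : p
    · rw [ind_true hp]
    · rw [ind_false hp]
      exact zero_le
  have h1 := russo w hα (Finset.insertNone T)
    (fun c : Option ℤ → Run => TR.ind (CL (↑T : Set ℤ) h (c none) (fun x => c (some x)) z))
    (measurable_ind (measurable_CLc _ _ _)) (fun c => hle _) (fun c c' hc => by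
      refine ind_congr ?_
      have h2 : c none = c' none := hc none (by simp)
      rw [h2]
      exact CL_congr_iff (fun x hx => hc (some x) (by simpa using hx)) z)
  rw [sum_EX, sum_EX, Finset.card_insertNone] at h1
  have h3 : ∀ a : Set.Ioo (0 : ℝ) 1, ∫⁻ c, TR.ind (CL (↑T : Set ℤ) h (c none) (fun x => c (some x)) z) ∂PP (Option ℤ) w a =
      pC w a ↑T h z := fun a => lintegral_ind _ (measurable_CLc _ _ _)
  rw [h3, h3] at h1
  have hd : dd w α α' ≠ ⊤ := ENNReal.ofReal_ne_top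
  have hp : pC w α ↑T h z ≠ ⊤ := ne_top_of_le_ne_top ENNReal.one_ne_top prob_le_one
  have hX : dd w α α' * ((T.card + 1 : ℕ) * pC w α ↑T h z) ≠ ⊤ :=
    ENNReal.mul_ne_top hd (ENNReal.mul_ne_top (ENNReal.natCast_ne_top _) hp)
  rw [mul_add, mul_add] at h1
  refine (ENNReal.add_le_add_iff_left hX).1 ?_
  calc dd w α α' * ((T.card + 1 : ℕ) * pC w α ↑T h z) + (pC w α' ↑T h z + dd w α α' * AB w α T h false z)
      = pC w α' ↑T h z + (dd w α α' * ((T.card + 1 : ℕ) * pC w α ↑T h z) + dd w α α' * AB w α T h false z) := by ring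
    _ ≤ _ := h1
    _ = _ := by ring

theorem sum_AB (w α : Set.Ioo (0 : ℝ) 1) (s : ℝ) (T : Finset ℤ) (h : ℤ) (b : Bool) :
    ∑ z ∈ T, AB w α T h b z * ENNReal.ofReal (s ^ z) = ∑' p : Finset ℤ × Option ℤ × ℤ,
      PR w α {c | EA ↑T h ↑p.1 p.2.1 p.2.2 c} * Xi w α s (T \ p.1) (p.2.2 + sg b) := by
  have h1 : ∀ p : Finset ℤ × Option ℤ × ℤ, Xi w α s (T \ p.1) (p.2.2 + sg b) =
      ∑ z ∈ T, pC w α (↑(T \ p.1)) (p.2.2 + sg b) z * ENNReal.ofReal (s ^ z) := by
    intro p
    refine Finset.sum_subset Finset.sdiff_subset fun z _ hz => ?_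
    rw [pC_zero, zero_mul]
    exact fun h => hz (Finset.mem_coe.1 h)
  simp only [h1]
  unfold AB
  simp only [← ENNReal.tsum_mul_right]
  rw [← Summable.tsum_finsetSum fun _ _ => ENNReal.summable]
  refine tsum_congr fun p => ?_
  rw [Finset.mul_sum]
  exact Finset.sum_congr rfl fun z _ => by rw [mul_assoc]

/-- **The inequality for the generating functions.** -/
theorem Xi_alpha (w : Set.Ioo (0 : ℝ) 1) {α α' : Set.Ioo (0 : ℝ) 1} (hα : α < α') (s : ℝ) (T : Finset ℤ) (h : ℤ) :
    Xi w α' s T h + dd w α α' * ∑' p : Finset ℤ × Option ℤ × ℤ, PR w α {c | EA ↑T h ↑p.1 p.2.1 p.2.2 c} *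
        Xi w α s (T \ p.1) (p.2.2 - 1) ≤
      Xi w α s T h + dd w α α' * ∑' p : Finset ℤ × Option ℤ × ℤ, PR w α {c | EA ↑T h ↑p.1 p.2.1 p.2.2 c} *
        Xi w α s (T \ p.1) (p.2.2 + 1) +
        ((T.card + 1) * (T.card + 1 + 1) : ℕ) * dd w α α' ^ 2 * ∑ z ∈ T, ENNReal.ofReal (s ^ z) := by
  have h1 := sum_AB w α s T h true
  have h2 := sum_AB w α s T h false
  have e1 : sg true = 1 := by simp [sg]
  have e2 : sg false = -1 := by simp [sg]
  simp only [e1] at h1
  simp only [e2, ← sub_eq_add_neg] at h2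
  rw [← h1, ← h2]
  unfold Xi
  rw [Finset.mul_sum, Finset.mul_sum, Finset.mul_sum, ← Finset.sum_add_distrib, ← Finset.sum_add_distrib,
    ← Finset.sum_add_distrib]
  refine Finset.sum_le_sum fun z _ => ?_
  calc pC w α' ↑T h z * ENNReal.ofReal (s ^ z) + dd w α α' * (AB w α T h false z * ENNReal.ofReal (s ^ z))
      = (pC w α' ↑T h z + dd w α α' * AB w α T h false z) * ENNReal.ofReal (s ^ z) := by ring
    _ ≤ (pC w α ↑T h z + dd w α α' * AB w α T h true z +
      ((T.card + 1) * (T.card + 1 + 1) : ℕ) * dd w α α' ^ 2) * ENNReal.ofReal (s ^ z) :=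
        mul_le_mul_left (pC_alpha w hα T h z) _
    _ = _ := by ring

end FDr.AM
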