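import Pool.Agent.Lib.MP_e029a2_pr.AM4

/-!
# Monotonicity in the drift, part 6: the inequality for the best constant
-/

set_option autoImplicit false

namespace FDr.AM

open MeasureTheory ProbabilityTheory
open scoped ENNReal
open FDr.TH (CL cS pl fr PR pC EA Xi VV le_VV VV_ne_top ends_le end_notMem pC_zero)
open FDr.TR (ofReal_zpow_add Ug mfun_eq kap_ne_zero)

theorem AB_ne_top (w α : Set.Ioo (0 : ℝ) 1) (T : Finset ℤ) (h : ℤ) (b : Bool) (z : ℤ) : AB w α T h b z ≠ ⊤ := by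
  have hle : ∀ p : Prop, TR.ind p ≤ 1 := fun p => by
    by_cases hp : p
    · rw [TR.ind_true hp]
    · rw [TR.ind_false hp]
      exact zero_le
  have h1 := sum_EX w α T h z b
  have h2 : AB w α T h b z ≤ ∑ f ∈ Finset.insertNone T, EX w α (fun c => TR.ind (CL (↑T : Set ℤ) h (c none)
      (fun x => c (some x)) z)) b f := by
    rw [h1]
    exact le_add_self
  refine ne_top_of_le_ne_top ?_ h2
  refine (ENNReal.sum_lt_top.2 fun f _ => ?_).ne
  exact (EX_le w α (fun c => hle _) b f).trans_lt ENNReal.one_lt_top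

theorem Xi_ne_top (w α : Set.Ioo (0 : ℝ) 1) (s : ℝ) (T : Finset ℤ) (h : ℤ) : Xi w α s T h ≠ ⊤ := by
  unfold Xi
  refine (ENNReal.sum_lt_top.2 fun z _ => ENNReal.mul_lt_top ?_ ENNReal.ofReal_lt_top).ne
  exact (prob_le_one (μ := PR w α)).trans_lt ENNReal.one_lt_top

/-- **The increment of the generating function.** -/
theorem Xi_incr (w : Set.Ioo (0 : ℝ) 1) {α α' : Set.Ioo (0 : ℝ) 1} (hα : α < α') {s : ℝ} (hs : 0 < s) {S T : Finset ℤ}
    (hT : T ⊆ S) (h : ℤ) : Xi w α' s T h ≤ Xi w α s T h + dd w α α' * (ENNReal.ofReal (1 / aa w α - aa w α) *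
      (VV w α s S * (kap w α s * (ENNReal.ofReal (s ^ h) + Xi w α s T h)))) +
      ((T.card + 1) * (T.card + 1 + 1) : ℕ) * dd w α α' ^ 2 * ∑ z ∈ T, ENNReal.ofReal (s ^ z) := by
  obtain ⟨Sm, hSm⟩ : ∃ x, x = ∑' p : Finset ℤ × Option ℤ × ℤ, PR w α {c | EA (↑T : Set ℤ) h ↑p.1 p.2.1 p.2.2 c} *
      Xi w α s (T \ p.1) (p.2.2 - 1) := ⟨_, rfl⟩
  have h1 := Xi_alpha w hα s T h
  have h2 : ∑' p : Finset ℤ × Option ℤ × ℤ, PR w α {c | EA (↑T : Set ℤ) h ↑p.1 p.2.1 p.2.2 c} *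
      Xi w α s (T \ p.1) (p.2.2 + 1) ≤ Sm + ENNReal.ofReal (1 / aa w α - aa w α) *
        (VV w α s S * (kap w α s * (ENNReal.ofReal (s ^ h) + Xi w α s T h))) := by
    have h3 : ∀ p : Finset ℤ × Option ℤ × ℤ, PR w α {c | EA (↑T : Set ℤ) h ↑p.1 p.2.1 p.2.2 c} *
        Xi w α s (T \ p.1) (p.2.2 + 1) ≤ PR w α {c | EA (↑T : Set ℤ) h ↑p.1 p.2.1 p.2.2 c} *
          Xi w α s (T \ p.1) (p.2.2 - 1) + ENNReal.ofReal (1 / aa w α - aa w α) * (VV w α s S *
            (PR w α {c | EA (↑T : Set ℤ) h ↑p.1 p.2.1 p.2.2 c} * ENNReal.ofReal (s ^ p.2.2))) := by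
      intro p
      by_cases hp : ∃ c, EA (↑T : Set ℤ) h ↑p.1 p.2.1 p.2.2 c
      · obtain ⟨c, k1, k2, k3⟩ := hp
        have h4 : p.2.2 ∉ T \ p.1 := by
          have h5 : pl h p.2.1 + dsp (c p.2.1) ∉ (↑T : Set ℤ) \ cS ↑T h c := end_notMem (by rw [k1]; exact k2)
          rw [k1, k3] at h5
          intro h6
          apply h5
          rw [← Finset.coe_sdiff]
          exact Finset.mem_coe.2 h6
        refine (mul_le_mul_right (Xi_diff w α hs (T \ p.1) h4) _).trans ?_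
        rw [mul_add]
        refine add_le_add le_rfl ?_
        refine (mul_le_mul_right (mul_le_mul_right (le_VV w α hs (Finset.sdiff_subset.trans hT) h4) _) _).trans
          (le_of_eq ?_)
        ring
      · have h1 : {c | EA (↑T : Set ℤ) h ↑p.1 p.2.1 p.2.2 c} = ∅ :=
          Set.eq_empty_of_forall_notMem fun c hc => hp ⟨c, hc⟩
        rw [h1, measure_empty, zero_mul]
        exact zero_le
    refine (ENNReal.tsum_le_tsum h3).trans ?_
    rw [ENNReal.tsum_add, ENNReal.tsum_mul_left, ENNReal.tsum_mul_left, ← hSm]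
    refine add_le_add le_rfl (mul_le_mul_right (mul_le_mul_right (ends_le w α hs T h) _) _)
  have h5 : Sm ≠ ⊤ := by
    have h6 := sum_AB w α s T h false
    have e2 : sg false = -1 := by simp [sg]
    simp only [e2, ← sub_eq_add_neg] at h6
    rw [hSm, ← h6]
    refine (ENNReal.sum_lt_top.2 fun z _ => ENNReal.mul_lt_top (lt_top_iff_ne_top.2 (AB_ne_top w α T h false z))
      ENNReal.ofReal_lt_top).ne
  rw [← hSm] at h1
  have hd : dd w α α' ≠ ⊤ := ENNReal.ofReal_ne_top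
  have hX : dd w α α' * Sm ≠ ⊤ := ENNReal.mul_ne_top hd h5
  refine (ENNReal.add_le_add_iff_left hX).1 ?_
  calc dd w α α' * Sm + Xi w α' s T h = Xi w α' s T h + dd w α α' * Sm := add_comm _ _
    _ ≤ _ := h1
    _ ≤ Xi w α s T h + dd w α α' * (Sm + ENNReal.ofReal (1 / aa w α - aa w α) *
        (VV w α s S * (kap w α s * (ENNReal.ofReal (s ^ h) + Xi w α s T h)))) +
        ((T.card + 1) * (T.card + 1 + 1) : ℕ) * dd w α α' ^ 2 * ∑ z ∈ T, ENNReal.ofReal (s ^ z) := by gcongr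
    _ = _ := by ring

/-- far to the right of the frogs -/
theorem Xi_far (w α : Set.Ioo (0 : ℝ) 1) {s : ℝ} (hs : 0 < s) (hb : bw w α true * s + bw w α false * s⁻¹ < 1)
    {T : Finset ℤ} {H : ℤ} (hT : ∀ z ∈ T, z < H) {h : ℤ} (hh : H ≤ h) :
    Xi w α s T h * ENNReal.ofReal (s ^ (-h)) ≤ Xi w α s T H * ENNReal.ofReal (s ^ (-H)) := by
  obtain ⟨u, hu⟩ : ∃ u : ℤ → ℝ, ∀ y, u y = (Xi w α s T y).toReal := ⟨_, fun _ => rfl⟩
  have hp := bw_pos w.2 α.2 true
  have hq := bw_pos w.2 α.2 false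
  have hpq : bw w α true + bw w α false = w := by
    unfold bw
    simp
    ring
  have hu0 : ∀ y, 0 ≤ u y := fun y => by rw [hu]; exact ENNReal.toReal_nonneg
  obtain ⟨B, hB⟩ : ∃ B : ℝ, B = (∑ z ∈ T, ENNReal.ofReal (s ^ z)).toReal := ⟨_, rfl⟩
  have hBt : ∑ z ∈ T, ENNReal.ofReal (s ^ z) ≠ ⊤ := (ENNReal.sum_lt_top.2 fun z _ => ENNReal.ofReal_lt_top).ne
  have huB : ∀ y, u y ≤ B := fun y => by
    rw [hu, hB]
    refine ENNReal.toReal_mono hBt ?_
    unfold Xi
    refine Finset.sum_le_sum fun z _ => ?_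
    calc pC w α ↑T y z * ENNReal.ofReal (s ^ z) ≤ 1 * ENNReal.ofReal (s ^ z) := mul_le_mul_left prob_le_one _
      _ = _ := one_mul _
  have hB0 : 0 ≤ B := (hu0 0).trans (huB 0)
  have hharm : ∀ y, H ≤ y → u y = bw w α true * u (y + 1) + bw w α false * u (y - 1) := by
    intro y hy
    have hyT : y ∉ T := fun hy' => absurd (hT y hy') (by omega)
    have h1 := Xi_harm w α s T hyT
    rw [hu, hu, hu, h1, ENNReal.toReal_add, ENNReal.toReal_mul, ENNReal.toReal_mul, ENNReal.toReal_ofReal hp.le,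
      ENNReal.toReal_ofReal hq.le]
    · exact ENNReal.mul_ne_top ENNReal.ofReal_ne_top (Xi_ne_top _ _ _ _ _)
    · exact ENNReal.mul_ne_top ENNReal.ofReal_ne_top (Xi_ne_top _ _ _ _ _)
  have key : ∀ n : ℕ, ∀ y, H ≤ y → u y - s ^ (y - H) * u H ≤ (w : ℝ) ^ n * B := by
    intro n
    induction n with
    | zero =>
      intro y _
      have h1 : 0 ≤ s ^ (y - H) * u H := mul_nonneg (zpow_pos hs _).le (hu0 _)
      rw [pow_zero, one_mul]
      linarith [huB y]
    | succ n ih =>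
      intro y hy
      rcases hy.lt_or_eq with h1 | h1
      · have h2 := ih (y + 1) (by omega)
        have h3 := ih (y - 1) (by omega)
        have h4 := hharm y hy
        have h5 : s ^ (y + 1 - H) = s ^ (y - H) * s := by
          rw [show y + 1 - H = (y - H) + 1 by ring, zpow_add_one₀ hs.ne']
        have h6 : s ^ (y - 1 - H) = s ^ (y - H) * s⁻¹ := by
          rw [show y - 1 - H = (y - H) - 1 by ring, zpow_sub_one₀ hs.ne']
        rw [h5] at h2
        rw [h6] at h3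
        have h7 : 0 ≤ s ^ (y - H) * u H := mul_nonneg (zpow_pos hs _).le (hu0 _)
        have h8 : (bw w α true * s + bw w α false * s⁻¹) * (s ^ (y - H) * u H) ≤ 1 * (s ^ (y - H) * u H) :=
          mul_le_mul_of_nonneg_right hb.le h7
        have h9 := mul_le_mul_of_nonneg_left h2 hp.le
        have h10 := mul_le_mul_of_nonneg_left h3 hq.le
        rw [pow_succ]
        have h11 : bw w α true * ((w : ℝ) ^ n * B) + bw w α false * ((w : ℝ) ^ n * B) = (w : ℝ) ^ n * w * B := by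
          rw [← add_mul, hpq]
          ring
        rw [h4]
        linarith
      · have h2 : y - H = 0 := by omega
        rw [h2, zpow_zero, one_mul, h1, sub_self]
        exact mul_nonneg (pow_nonneg w.2.1.le _) hB0
  have hlim : u h - s ^ (h - H) * u H ≤ 0 := by
    have h1 : Filter.Tendsto (fun n : ℕ => (w : ℝ) ^ n * B) Filter.atTop (nhds 0) := by
      have h2 := (tendsto_pow_atTop_nhds_zero_of_lt_one w.2.1.le w.2.2).mul_const B
      rwa [zero_mul] at h2
    exact ge_of_tendsto' h1 fun n => key n h hh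
  have h1 : u h * s ^ (-h) ≤ u H * s ^ (-H) := by
    have h2 : s ^ (h - H) * s ^ (-h) = s ^ (-H) := by
      rw [← zpow_add₀ hs.ne']
      congr 1
      ring
    have h3 : u h * s ^ (-h) ≤ s ^ (h - H) * u H * s ^ (-h) :=
      mul_le_mul_of_nonneg_right (by linarith) (zpow_pos hs _).le
    calc u h * s ^ (-h) ≤ s ^ (h - H) * u H * s ^ (-h) := h3
      _ = u H * (s ^ (h - H) * s ^ (-h)) := by ring
      _ = _ := by rw [h2]
  have h2 : ∀ y : ℤ, Xi w α s T y * ENNReal.ofReal (s ^ (-y)) = ENNReal.ofReal (u y * s ^ (-y)) := by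
    intro y
    rw [ENNReal.ofReal_mul (hu0 y), hu, ENNReal.ofReal_toReal (Xi_ne_top _ _ _ _ _)]
  rw [h2, h2]
  exact ENNReal.ofReal_le_ofReal h1

/-- **The increment of the best constant.** -/
theorem VV_incr (w : Set.Ioo (0 : ℝ) 1) {α α' : Set.Ioo (0 : ℝ) 1} (hα : α < α') {s : ℝ} (hs : 0 < s) (hs1 : s ≤ 1)
    (hb : bw w α' true * s + bw w α' false * s⁻¹ < 1) (S : Finset ℤ) {H : ℤ} (hH : ∀ z ∈ S, z < H) :
    VV w α' s S ≤ VV w α s S + dd w α α' * (ENNReal.ofReal (1 / aa w α - aa w α) *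
      (VV w α s S * (kap w α s * (1 + VV w α s S)))) +
      ((S.card + 1) * (S.card + 1 + 1) : ℕ) * dd w α α' ^ 2 * ((∑ z ∈ S, ENNReal.ofReal (s ^ z)) *
        ENNReal.ofReal (s ^ (-H))) := by
  have h0 : ∀ T ⊆ S, ∀ h ∉ T, h ≤ H → Xi w α' s T h * ENNReal.ofReal (s ^ (-h)) ≤
      VV w α s S + dd w α α' * (ENNReal.ofReal (1 / aa w α - aa w α) *
      (VV w α s S * (kap w α s * (1 + VV w α s S)))) +
      ((S.card + 1) * (S.card + 1 + 1) : ℕ) * dd w α α' ^ 2 * ((∑ z ∈ S, ENNReal.ofReal (s ^ z)) *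
        ENNReal.ofReal (s ^ (-H))) := by
    intro T hT h hh hhH
    have h2 : ENNReal.ofReal (s ^ h) * ENNReal.ofReal (s ^ (-h)) = 1 := by
      rw [← ofReal_zpow_add hs, add_neg_cancel, zpow_zero, ENNReal.ofReal_one]
    have h3 : Xi w α s T h * ENNReal.ofReal (s ^ (-h)) ≤ VV w α s S := by
      calc Xi w α s T h * ENNReal.ofReal (s ^ (-h)) ≤ VV w α s S * ENNReal.ofReal (s ^ h) * ENNReal.ofReal (s ^ (-h)) :=
            mul_le_mul_left (le_VV w α hs hT hh) _
        _ = _ := by rw [mul_assoc, h2, mul_one]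
    have h4 : ENNReal.ofReal (s ^ (-h)) ≤ ENNReal.ofReal (s ^ (-H)) := by
      refine ENNReal.ofReal_le_ofReal ?_
      exact zpow_le_zpow_right_of_le_one₀ hs hs1 (by omega)
    calc Xi w α' s T h * ENNReal.ofReal (s ^ (-h)) ≤ (Xi w α s T h + dd w α α' * (ENNReal.ofReal (1 / aa w α - aa w α) *
          (VV w α s S * (kap w α s * (ENNReal.ofReal (s ^ h) + Xi w α s T h)))) +
          ((T.card + 1) * (T.card + 1 + 1) : ℕ) * dd w α α' ^ 2 * ∑ z ∈ T, ENNReal.ofReal (s ^ z)) *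
            ENNReal.ofReal (s ^ (-h)) := mul_le_mul_left (Xi_incr w hα hs hT h) _
      _ = Xi w α s T h * ENNReal.ofReal (s ^ (-h)) + dd w α α' * (ENNReal.ofReal (1 / aa w α - aa w α) *
          (VV w α s S * (kap w α s * (ENNReal.ofReal (s ^ h) * ENNReal.ofReal (s ^ (-h)) +
            Xi w α s T h * ENNReal.ofReal (s ^ (-h)))))) +
          ((T.card + 1) * (T.card + 1 + 1) : ℕ) * dd w α α' ^ 2 * ((∑ z ∈ T, ENNReal.ofReal (s ^ z)) *
            ENNReal.ofReal (s ^ (-h))) := by ring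
      _ ≤ _ := by
          rw [h2]
          have h5 : T.card ≤ S.card := Finset.card_le_card hT
          have h6 : ∑ z ∈ T, ENNReal.ofReal (s ^ z) ≤ ∑ z ∈ S, ENNReal.ofReal (s ^ z) :=
            Finset.sum_le_sum_of_subset hT
          have h7 : (T.card + 1) * (T.card + 1 + 1) ≤ (S.card + 1) * (S.card + 1 + 1) :=
            Nat.mul_le_mul (by omega) (by omega)
          have h8 : (((T.card + 1) * (T.card + 1 + 1) : ℕ) : ℝ≥0∞) ≤ ((S.card + 1) * (S.card + 1 + 1) : ℕ) :=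
            Nat.cast_le.2 h7
          gcongr
  conv_lhs => unfold VV
  refine iSup₂_le fun T hT => iSup₂_le fun h hh => ?_
  by_cases hhH : h ≤ H
  · exact h0 T hT h hh hhH
  · have hHT : H ∉ T := fun h1 => absurd (hH H (hT h1)) (lt_irrefl _)
    exact (Xi_far w α' hs hb (fun z hz => hH z (hT hz)) (by omega)).trans (h0 T hT H hHT le_rfl)

end FDr.AM
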