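import Mathlib

/-!
# Monotonicity in the drift, part 7: the comparison (real analysis)

JOB AM7.  `c = w/(2(1-w))`, `p = w (1+α)/2`, `q = w (1-α)/2`, `k = (1-w)/(1 - p s - q/s) > 0`, `0 < s < 1`, `a` is the
smaller root of `q x² - x + p = 0`, `0 < a ≤ w`.

1. `key_ineq`: `(1/a - a) (1/k - 2) ≤ (1/s - s) - (1/a - a)`.
   Proof: `1/k = (1 - w + (1-s)(p - q/s)) / (1 - w)`, so `1/k - 1 = (1-s)(p - q/s)/(1-w)`, and with `p = a - q a²`:
   `1 - w = (1-a)(1 - q (1+a))`, `1/a - a = (1-a)(1+a)/a`.  So `(1/a - a)(1/k - 1) = (1-s)(1+a)(p - q/s)/(a (1-q(1+a)))`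
   and `(1+s) a (1-q-qa) - (1+a)(p s - q) = (1 - a s)(a + q (1-a²)) ≥ 0`, i.e.
   `(1+a)(p - q/s)/(a (1-q-qa)) ≤ (1+s)/s`.  (`1 - q (1+a) > 0` as `(1-w)/(1-a) > 0`.)
2. `comparison`: `θ = (1-w²)/8`, `B α = (1 - θ (α - α0)) / k α - 2` where `1/k α = (1 - p s - q/s)/(1-w)` is affine in `α`
   with slope `c (1/s - s)`.  Let `N` be large and `Δ = (α1-α0)/N`.  Claim: `V α ≤ B α` implies `V (α+Δ) ≤ B (α+Δ)`
   (for `α ∈ [α0, α1 - Δ]`).  `V (α+Δ) ≤ V + Δ c (1/a-a) k V (1+V) + K Δ² ≤ B + Δ c (1/a-a) k B (1+B) + K Δ²` (`0 ≤ V ≤ B`).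
   With `m = 1 - θ (α-α0) ∈ [7/8, 1]`: `k (1+B) = m - k ≤ m`, `B ≤ 1/k - 2`, so
   `c (1/a-a) k B (1+B) ≤ c m (1/a-a)(1/k-2) ≤ c m ((1/s-s) - (1/a-a))`, and
   `B (α+Δ) = B α + Δ (m c (1/s-s) - θ/k) - θ c (1/s-s) Δ²`.
   As `k ≥ 1-w` (i.e. `p s + q/s ≥ 0`) and `1/a - a ≥ 1/w - w = (1-w²)/w`:
   `m c (1/a-a) - θ/k ≥ (7/8) (1-w²)/(2 (1-w)) - (1-w²)/(8 (1-w)) = (5/16)(1+w) =: η > 0`.
   So it suffices that `Δ (K + θ c (1/s-s)) ≤ η`.  Induction on the steps.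
-/

set_option autoImplicit false

namespace FDr.AM

/-- `1 / κ` -/
noncomputable def ik (w s α : ℝ) : ℝ := (1 - w * (1 + α) / 2 * s - w * (1 - α) / 2 * s⁻¹) / (1 - w)

theorem key_ineq {w α s a : ℝ} (hw0 : 0 < w) (hw1 : w < 1) (hα0 : 0 < α) (hα1 : α < 1) (hs0 : 0 < s) (hs1 : s < 1)
    (ha0 : 0 < a) (haw : a ≤ w) (ha : w * (1 + α) / 2 + w * (1 - α) / 2 * a ^ 2 = a) :
    (1 / a - a) * (ik w s α - 2) ≤ (1 / s - s) - (1 / a - a) := by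
  have hw : 0 < 1 - w := by linarith
  have h1 : (1 / s - s) - (1 / a - a) - (1 / a - a) * (ik w s α - 2) =
      (1 - s) * ((1 + s) * a * (1 - w) - (1 - a ^ 2) * (w * (1 + α) / 2 * s - w * (1 - α) / 2)) /
        (s * a * (1 - w)) := by
    unfold ik
    have hs' : s ≠ 0 := hs0.ne'
    have ha' : a ≠ 0 := ha0.ne'
    have hw' : 1 - w ≠ 0 := hw.ne'
    field_simp
    ring
  have h2 : (1 + s) * a * (1 - w) - (1 - a ^ 2) * (w * (1 + α) / 2 * s - w * (1 - α) / 2) =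
      (1 - a) * (1 - a * s) * (a + w * (1 - α) / 2 * (1 - a ^ 2)) := by
    linear_combination (-((1 + s) * a + (1 - a ^ 2) * s)) * ha
  have ha1 : a < 1 := lt_of_le_of_lt haw hw1
  have h3 : 0 ≤ 1 - a * s := by nlinarith
  have h4 : 0 ≤ w * (1 - α) / 2 := by
    have : 0 ≤ w * (1 - α) := mul_nonneg hw0.le (by linarith)
    linarith
  have h5 : 0 ≤ 1 - a ^ 2 := by nlinarith
  have h6 : 0 ≤ (1 - s) * ((1 + s) * a * (1 - w) - (1 - a ^ 2) * (w * (1 + α) / 2 * s - w * (1 - α) / 2)) /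
      (s * a * (1 - w)) := by
    rw [h2]
    refine div_nonneg (mul_nonneg (by linarith) (mul_nonneg (mul_nonneg (by linarith) h3) ?_)) ?_
    · exact add_nonneg ha0.le (mul_nonneg h4 h5)
    · exact (mul_pos (mul_pos hs0 ha0) hw).le
  rw [← h1] at h6
  linarith

private theorem AM7_ik_add {w s α d : ℝ} (hw1 : w < 1) (hs0 : 0 < s) :
    ik w s (α + d) = ik w s α + d * (w / (2 * (1 - w)) * (1 / s - s)) := by
  unfold ik
  have hw' : 1 - w ≠ 0 := by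
    intro h
    linarith
  have hs' : s ≠ 0 := hs0.ne'
  field_simp
  ring

private theorem AM7_ik_le {w s α : ℝ} (hw0 : 0 < w) (hw1 : w < 1) (hα0 : 0 < α) (hα1 : α < 1) (hs0 : 0 < s) :
    ik w s α ≤ 1 / (1 - w) := by
  unfold ik
  have h1 : 0 ≤ w * (1 + α) / 2 * s := by positivity
  have h2 : 0 ≤ w * (1 - α) / 2 * s⁻¹ := by
    have : 0 < 1 - α := by linarith
    positivity
  exact div_le_div_of_nonneg_right (by linarith) (by linarith)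

private theorem AM7_step {w s α α0 a V V' K Δ : ℝ} (hw0 : 0 < w) (hw1 : w < 1) (h0 : 0 < α0) (hα : α0 ≤ α)
    (hα1 : α < 1) (hs0 : 0 < s) (hs1 : s < 1) (hk : 0 < ik w s α)
    (ha0 : 0 < a) (haw : a ≤ w) (ha : w * (1 + α) / 2 + w * (1 - α) / 2 * a ^ 2 = a)
    (hV0 : 0 ≤ V) (hΔ : 0 ≤ Δ)
    (hV : V' ≤ V + w / (2 * (1 - w)) * Δ * (1 / a - a) * (ik w s α)⁻¹ * (V * (1 + V)) + K * Δ ^ 2)
    (hΔK : Δ * (K + (1 - w ^ 2) / 8 * (w / (2 * (1 - w)) * (1 / s - s))) ≤ 5 / 16 * (1 + w))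
    (hs : V ≤ (1 - (1 - w ^ 2) * (α - α0) / 8) * ik w s α - 2) :
    V' ≤ (1 - (1 - w ^ 2) * (α + Δ - α0) / 8) * ik w s (α + Δ) - 2 := by
  have hw : 0 < 1 - w := by linarith
  obtain ⟨c, hc⟩ : ∃ c, c = w / (2 * (1 - w)) := ⟨_, rfl⟩
  obtain ⟨κ, hκ⟩ : ∃ κ, κ = ik w s α := ⟨_, rfl⟩
  obtain ⟨θ, hθ⟩ : ∃ θ, θ = (1 - w ^ 2) / 8 := ⟨_, rfl⟩
  obtain ⟨m, hm⟩ : ∃ m, m = 1 - θ * (α - α0) := ⟨_, rfl⟩
  obtain ⟨g, hg⟩ : ∃ g, g = 1 / a - a := ⟨_, rfl⟩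
  obtain ⟨σ, hσ⟩ : ∃ σ, σ = 1 / s - s := ⟨_, rfl⟩
  have hc0 : 0 < c := by rw [hc]; positivity
  have hw2 : w ^ 2 < 1 := by nlinarith
  have hθ0 : 0 < θ := by rw [hθ]; linarith
  have hθ1 : θ ≤ 1 / 8 := by rw [hθ]; nlinarith
  have hm1 : m ≤ 1 := by
    rw [hm]
    have : 0 ≤ θ * (α - α0) := mul_nonneg hθ0.le (by linarith)
    linarith
  have hm0 : 7 / 8 ≤ m := by
    rw [hm]
    have h1 : θ * (α - α0) ≤ 1 / 8 * 1 :=
      mul_le_mul hθ1 (by linarith) (by linarith) (by norm_num)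
    linarith
  have ha1 : a < 1 := lt_of_le_of_lt haw hw1
  have hgw : (1 - w ^ 2) / w ≤ g := by
    rw [hg]
    have h1 : 1 / w ≤ 1 / a := one_div_le_one_div_of_le ha0 haw
    have h2 : (1 - w ^ 2) / w = 1 / w - w := by
      field_simp
    rw [h2]
    linarith
  have hg0 : 0 < g := lt_of_lt_of_le (div_pos (by linarith) hw0) hgw
  have hkey : g * (κ - 2) ≤ σ - g := by
    rw [hg, hκ, hσ]
    exact key_ineq hw0 hw1 (by linarith) hα1 hs0 hs1 ha0 haw ha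
  have hκ0 : 0 < κ := by rw [hκ]; exact hk
  have hκ1 : θ * κ ≤ (1 + w) / 8 := by
    have h1 : κ ≤ 1 / (1 - w) := by
      rw [hκ]
      exact AM7_ik_le hw0 hw1 (by linarith) hα1 hs0
    have h2 : θ * κ ≤ θ * (1 / (1 - w)) := mul_le_mul_of_nonneg_left h1 hθ0.le
    have h3 : θ * (1 / (1 - w)) = (1 + w) / 8 := by
      rw [hθ]
      field_simp
      ring
    linarith
  have hcg : 7 / 16 * (1 + w) ≤ c * m * g := by
    have h1 : c * (7 / 8) * ((1 - w ^ 2) / w) ≤ c * m * g :=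
      mul_le_mul (mul_le_mul_of_nonneg_left hm0 hc0.le) hgw (div_nonneg (by linarith) hw0.le)
        (mul_nonneg hc0.le (by linarith))
    have h2 : c * (7 / 8) * ((1 - w ^ 2) / w) = 7 / 16 * (1 + w) := by
      rw [hc]
      field_simp
      ring
    linarith
  obtain ⟨B, hB⟩ : ∃ B, B = m * κ - 2 := ⟨_, rfl⟩
  have hVB : V ≤ B := by
    rw [hB, hm, hθ, hκ]
    have h1 : (1 - (1 - w ^ 2) / 8 * (α - α0)) * ik w s α - 2 = (1 - (1 - w ^ 2) * (α - α0) / 8) * ik w s α - 2 := by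
      ring
    rw [h1]
    exact hs
  have hB0 : 0 ≤ B := hV0.trans hVB
  have hVV : V * (1 + V) ≤ B * (1 + B) :=
    mul_le_mul hVB (by linarith) (by linarith) hB0
  have hkB : κ⁻¹ * (B * (1 + B)) ≤ m * (κ - 2) := by
    have h1 : κ⁻¹ * (1 + B) = m - κ⁻¹ := by
      rw [hB]
      field_simp
      ring
    have h2 : κ⁻¹ * (B * (1 + B)) = B * (κ⁻¹ * (1 + B)) := by ring
    rw [h2, h1]
    have h3 : 0 < κ⁻¹ := inv_pos.2 hκ0
    have h4 : B * (m - κ⁻¹) ≤ B * m := mul_le_mul_of_nonneg_left (by linarith) hB0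
    have h5 : B ≤ κ - 2 := by
      rw [hB]
      have : m * κ ≤ 1 * κ := mul_le_mul_of_nonneg_right hm1 hκ0.le
      linarith
    have h6 : B * m ≤ (κ - 2) * m := mul_le_mul_of_nonneg_right h5 (by linarith)
    linarith
  have hcgk : c * g * κ⁻¹ * (V * (1 + V)) ≤ c * m * (σ - g) := by
    have h1 : κ⁻¹ * (V * (1 + V)) ≤ κ⁻¹ * (B * (1 + B)) :=
      mul_le_mul_of_nonneg_left hVV (inv_pos.2 hκ0).le
    have h2 : c * g * (κ⁻¹ * (V * (1 + V))) ≤ c * g * (m * (κ - 2)) :=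
      mul_le_mul_of_nonneg_left (h1.trans hkB) (mul_pos hc0 hg0).le
    have h3 : c * m * (g * (κ - 2)) ≤ c * m * (σ - g) :=
      mul_le_mul_of_nonneg_left hkey (mul_nonneg hc0.le (by linarith))
    have h4 : c * g * κ⁻¹ * (V * (1 + V)) = c * g * (κ⁻¹ * (V * (1 + V))) := by ring
    have h5 : c * g * (m * (κ - 2)) = c * m * (g * (κ - 2)) := by ring
    rw [h4]
    linarith
  have hV2 : V' ≤ B + Δ * (c * m * (σ - g)) + K * Δ ^ 2 := by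
    rw [← hc, ← hg, ← hκ] at hV
    have h1 : c * Δ * g * κ⁻¹ * (V * (1 + V)) = Δ * (c * g * κ⁻¹ * (V * (1 + V))) := by ring
    rw [h1] at hV
    have h2 : Δ * (c * g * κ⁻¹ * (V * (1 + V))) ≤ Δ * (c * m * (σ - g)) :=
      mul_le_mul_of_nonneg_left hcgk hΔ
    linarith
  rw [← hc, ← hθ, ← hσ] at hΔK
  have hfin : (1 - (1 - w ^ 2) * (α + Δ - α0) / 8) * ik w s (α + Δ) - 2 =
      B + Δ * (m * c * σ) - θ * Δ * κ - θ * (c * σ) * Δ ^ 2 := by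
    rw [AM7_ik_add hw1 hs0, ← hc, ← hσ, ← hκ, hB, hm, hθ]
    ring
  rw [hfin]
  have h7 : Δ * (Δ * (K + θ * (c * σ))) ≤ Δ * (c * m * g - θ * κ) :=
    mul_le_mul_of_nonneg_left (by linarith) hΔ
  have h8 : Δ * (c * m * (σ - g)) + K * Δ ^ 2 = Δ * (m * c * σ) - θ * Δ * κ - θ * (c * σ) * Δ ^ 2 +
      (Δ * (Δ * (K + θ * (c * σ))) - Δ * (c * m * g - θ * κ)) := by ring
  linarith

theorem comparison {w s α0 α1 : ℝ} (hw0 : 0 < w) (hw1 : w < 1) (h0 : 0 < α0) (h01 : α0 < α1) (h1 : α1 < 1)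
    (hs0 : 0 < s) (hs1 : s < 1) (hk : 0 < ik w s α0) (a V : ℝ → ℝ) (K : ℝ)
    (ha0 : ∀ α, α0 ≤ α → α ≤ α1 → 0 < a α) (haw : ∀ α, α0 ≤ α → α ≤ α1 → a α ≤ w)
    (ha : ∀ α, α0 ≤ α → α ≤ α1 → w * (1 + α) / 2 + w * (1 - α) / 2 * a α ^ 2 = a α)
    (hV0 : ∀ α, α0 ≤ α → α ≤ α1 → 0 ≤ V α)
    (hV : ∀ α α', α0 ≤ α → α < α' → α' ≤ α1 → V α' ≤ V α + w / (2 * (1 - w)) * (α' - α) * (1 / a α - a α) *
      (ik w s α)⁻¹ * (V α * (1 + V α)) + K * (α' - α) ^ 2)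
    (hs : V α0 ≤ ik w s α0 - 2) :
    V α1 ≤ (1 - (1 - w ^ 2) * (α1 - α0) / 8) * ik w s α1 - 2 := by
  have hw : 0 < 1 - w := by linarith
  obtain ⟨M, hM⟩ : ∃ M, M = K + (1 - w ^ 2) / 8 * (w / (2 * (1 - w)) * (1 / s - s)) := ⟨_, rfl⟩
  obtain ⟨N, hN⟩ := exists_nat_gt ((α1 - α0) * M / (5 / 16 * (1 + w)))
  have hη : 0 < 5 / 16 * (1 + w) := by linarith
  obtain ⟨Δ, hΔ⟩ : ∃ Δ, Δ = (α1 - α0) / (N + 1 : ℝ) := ⟨_, rfl⟩
  have hN1 : (0 : ℝ) < N + 1 := by positivity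
  have hΔ0 : 0 < Δ := by rw [hΔ]; exact div_pos (by linarith) hN1
  have hΔN : (N + 1 : ℝ) * Δ = α1 - α0 := by
    rw [hΔ]
    field_simp
  have hΔM : Δ * M ≤ 5 / 16 * (1 + w) := by
    have h2 : (α1 - α0) * M < N * (5 / 16 * (1 + w)) := (div_lt_iff₀ hη).1 hN
    have h3 : (N + 1 : ℝ) * (Δ * M) ≤ (N + 1 : ℝ) * (5 / 16 * (1 + w)) := by
      rw [← mul_assoc, hΔN]
      linarith
    exact le_of_mul_le_mul_left h3 hN1
  have hσ0 : 0 ≤ w / (2 * (1 - w)) * (1 / s - s) := by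
    refine mul_nonneg (by positivity) ?_
    have h1 : 1 ≤ 1 / s := by
      rw [le_div_iff₀ hs0]
      linarith
    linarith
  have hik : ∀ α, α0 ≤ α → 0 < ik w s α := by
    intro α hα
    have h1 := AM7_ik_add (w := w) (s := s) (α := α0) (d := α - α0) hw1 hs0
    rw [add_sub_cancel] at h1
    rw [h1]
    have h2 : 0 ≤ (α - α0) * (w / (2 * (1 - w)) * (1 / s - s)) := mul_nonneg (by linarith) hσ0
    linarith
  have hind : ∀ i : ℕ, i ≤ N + 1 → V (α0 + i * Δ) ≤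
      (1 - (1 - w ^ 2) * (α0 + i * Δ - α0) / 8) * ik w s (α0 + i * Δ) - 2 := by
    intro i
    induction i with
    | zero =>
      intro _
      rw [Nat.cast_zero, zero_mul, add_zero, sub_self, mul_zero, zero_div, sub_zero, one_mul]
      exact hs
    | succ i ih =>
      intro hi
      have h2 := ih (by omega)
      have hiN : (i : ℝ) + 1 ≤ N + 1 := by
        have : i + 1 ≤ N + 1 := hi
        exact_mod_cast this
      have h3 : α0 + ((i + 1 : ℕ) : ℝ) * Δ = α0 + i * Δ + Δ := by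
        push_cast
        ring
      have h4 : α0 ≤ α0 + i * Δ := by
        have : 0 ≤ (i : ℝ) * Δ := by positivity
        linarith
      have h5 : α0 + i * Δ + Δ ≤ α1 := by
        have : ((i : ℝ) + 1) * Δ ≤ (N + 1 : ℝ) * Δ := mul_le_mul_of_nonneg_right hiN hΔ0.le
        linarith
      rw [h3]
      have h6 := hV (α0 + i * Δ) (α0 + i * Δ + Δ) h4 (by linarith) h5
      rw [add_sub_cancel_left] at h6
      exact AM7_step hw0 hw1 h0 h4 (by linarith) hs0 hs1 (hik _ h4) (ha0 _ h4 (by linarith))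
        (haw _ h4 (by linarith)) (ha _ h4 (by linarith)) (hV0 _ h4 (by linarith)) hΔ0.le h6
        (by rw [← hM]; exact hΔM) h2
  have hend := hind (N + 1) le_rfl
  have h9 : α0 + ((N + 1 : ℕ) : ℝ) * Δ = α1 := by
    push_cast
    linarith
  rw [h9] at hend
  exact hend

end FDr.AM
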