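import Pool.Agent.Lib.MP_e029a2_pr.AM7

/-!
# Monotonicity in the drift, part 8: the second comparison (real analysis)
-/

set_option autoImplicit false

namespace FDr.AM

theorem steps {α0 α1 δ : ℝ} (h01 : α0 < α1) (P : ℝ → Prop) (hδ : 0 < δ) (h0 : P α0)
    (hstep : ∀ α Δ : ℝ, α0 ≤ α → 0 < Δ → Δ ≤ δ → α + Δ ≤ α1 → P α → P (α + Δ)) : P α1 := by
  obtain ⟨N, hN⟩ := exists_nat_gt ((α1 - α0) / δ)
  have hN0 : (0 : ℝ) < N := lt_of_le_of_lt (div_nonneg (by linarith) hδ.le) hN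
  obtain ⟨Δ, hΔ⟩ : ∃ Δ : ℝ, Δ = (α1 - α0) / N := ⟨_, rfl⟩
  have hΔ0 : 0 < Δ := by
    rw [hΔ]
    exact div_pos (by linarith) hN0
  have hΔδ : Δ ≤ δ := by
    rw [hΔ, div_le_iff₀ hN0]
    rw [div_lt_iff₀ hδ] at hN
    linarith
  have hNΔ : N * Δ = α1 - α0 := by
    rw [hΔ]
    field_simp
  have key : ∀ k : ℕ, k ≤ N → P (α0 + k * Δ) := by
    intro k
    induction k with
    | zero =>
      intro _
      simpa using h0
    | succ k ih =>
      intro hk
      have h1 := ih (by omega)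
      have h2 : (0 : ℝ) ≤ k * Δ := by positivity
      have h3 : ((k + 1 : ℕ) : ℝ) ≤ N := by exact_mod_cast hk
      have h4 : ((k + 1 : ℕ) : ℝ) * Δ ≤ N * Δ := mul_le_mul_of_nonneg_right h3 hΔ0.le
      have h5 := hstep (α0 + k * Δ) Δ (by linarith) hΔ0 hΔδ (by push_cast at h4; linarith) h1
      have h6 : α0 + ((k + 1 : ℕ) : ℝ) * Δ = α0 + k * Δ + Δ := by
        push_cast
        ring
      rw [h6]
      exact h5
  have h1 := key N le_rfl
  rw [hNΔ] at h1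
  have h2 : α0 + (α1 - α0) = α1 := by ring
  rwa [h2] at h1

theorem ik_add {w s : ℝ} (hw : w < 1) (α Δ : ℝ) : ik w s (α + Δ) = ik w s α + w / (2 * (1 - w)) * (s⁻¹ - s) * Δ := by
  have h1 : (1 : ℝ) - w ≠ 0 := by
    have : 0 < 1 - w := by linarith
    exact this.ne'
  unfold ik
  generalize s⁻¹ = t
  field_simp
  ring

theorem ik_le {w s α : ℝ} (hw0 : 0 < w) (hw : w < 1) (h0 : 0 < α) (h1 : α < 1) (hs : 0 < s) : ik w s α ≤ 1 / (1 - w) := by
  have h3 : 0 < 1 - w := by linarith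
  unfold ik
  refine div_le_div_of_nonneg_right ?_ h3.le
  have h4 : 0 ≤ w * (1 + α) / 2 * s := by positivity
  have h5 : 0 ≤ w * (1 - α) / 2 * s⁻¹ := by
    have : 0 < 1 - α := by linarith
    positivity
  linarith

theorem comparison2 {w s α0 α1 : ℝ} (hw0 : 0 < w) (hw1 : w < 1) (h0 : 0 < α0) (h01 : α0 < α1) (h1 : α1 < 1)
    (hs0 : 0 < s) (hs1 : s < 1) (hk : 0 < ik w s α0) (a V W : ℝ → ℝ) (K : ℝ)
    (ha0 : ∀ α, α0 ≤ α → α ≤ α1 → 0 < a α) (haw : ∀ α, α0 ≤ α → α ≤ α1 → a α ≤ w)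
    (ha : ∀ α, α0 ≤ α → α ≤ α1 → w * (1 + α) / 2 + w * (1 - α) / 2 * a α ^ 2 = a α)
    (hV0 : ∀ α, α0 ≤ α → α ≤ α1 → 0 ≤ V α) (hVk : ∀ α, α0 ≤ α → α ≤ α1 → V α ≤ ik w s α - 2)
    (hW0 : ∀ α, α0 ≤ α → α ≤ α1 → 0 ≤ W α)
    (hW : ∀ α α', α0 ≤ α → α < α' → α' ≤ α1 → W α' ≤ W α + w / (2 * (1 - w)) * (α' - α) * (1 / a α - a α) *
      (ik w s α)⁻¹ * (V α * (1 + W α)) + K * (α' - α) ^ 2)
    (hs : W α0 ≤ ik w s α0 - 1) :
    W α1 ≤ (1 - (1 - w ^ 2) * (α1 - α0) / 8) * ik w s α1 - 1 := by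
  obtain ⟨c, hc⟩ : ∃ c : ℝ, c = w / (2 * (1 - w)) := ⟨_, rfl⟩
  obtain ⟨σ, hσ⟩ : ∃ σ : ℝ, σ = s⁻¹ - s := ⟨_, rfl⟩
  obtain ⟨θ, hθ⟩ : ∃ θ : ℝ, θ = (1 - w ^ 2) / 8 := ⟨_, rfl⟩
  have hw2 : 0 < 1 - w := by linarith
  have hc0 : 0 < c := by rw [hc]; positivity
  have hσ0 : 0 < σ := by
    rw [hσ]
    have h2 : 1 < s⁻¹ := (one_lt_inv₀ hs0).2 hs1
    linarith
  have hθ0 : 0 < θ := by
    rw [hθ]
    have : 0 < 1 - w ^ 2 := by nlinarith
    positivity
  have hθ1 : θ ≤ 1 / 8 := by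
    rw [hθ]
    have : 0 ≤ w ^ 2 := by positivity
    linarith
  rw [← hc] at hW
  have hikp : ∀ α, α0 ≤ α → 0 < ik w s α := by
    intro α hα
    have h2 := ik_add (s := s) hw1 α0 (α - α0)
    rw [← hc, ← hσ] at h2
    have h3 : α0 + (α - α0) = α := by ring
    rw [h3] at h2
    have h4 : 0 ≤ c * σ * (α - α0) := mul_nonneg (by positivity) (by linarith)
    linarith
  obtain ⟨δ, hδ⟩ : ∃ δ : ℝ, δ = 5 / 16 / (|K| + θ * c * σ + 1) := ⟨_, rfl⟩
  have hden : 0 < |K| + θ * c * σ + 1 := by positivity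
  have hδ0 : 0 < δ := by rw [hδ]; positivity
  have h2 := steps h01 (fun α => W α ≤ (1 - θ * (α - α0)) * ik w s α - 1) hδ0 (by
    simp only [sub_self, mul_zero, sub_zero, one_mul]
    exact hs) (by
    intro α Δ hα hΔ0 hΔ hα1 hP
    have hαle : α ≤ α1 := by linarith
    have hα1' : α < 1 := by linarith
    have hαpos : 0 < α := by linarith
    obtain ⟨m, hm⟩ : ∃ m : ℝ, m = 1 - θ * (α - α0) := ⟨_, rfl⟩
    have hm1 : 7 / 8 ≤ m := by
      rw [hm]
      have h3 : θ * (α - α0) ≤ 1 / 8 * 1 := mul_le_mul hθ1 (by linarith) (by linarith) (by norm_num)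
      linarith
    rw [← hm] at hP
    have hik := hikp α hα
    have hikle := ik_le hw0 hw1 hαpos hα1' hs0
    have hkey := key_ineq hw0 hw1 hαpos hα1' hs0 hs1 (ha0 α hα hαle) (haw α hα hαle) (ha α hα hαle)
    obtain ⟨A, hA⟩ : ∃ A : ℝ, A = 1 / a α - a α := ⟨_, rfl⟩
    have hA1 : (1 - w ^ 2) / w ≤ A := by
      rw [hA]
      have h3 := ha0 α hα hαle
      have h4 := haw α hα hαle
      have h5 : 1 / w ≤ 1 / a α := one_div_le_one_div_of_le h3 h4
      have h6 : (1 - w ^ 2) / w = 1 / w - w := by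
        field_simp
      rw [h6]
      linarith
    have hAn : 0 ≤ A := by
      refine le_trans ?_ hA1
      have : 0 < 1 - w ^ 2 := by nlinarith
      positivity
    have hcA : (1 + w) / 2 ≤ c * A := by
      have h3 : c * ((1 - w ^ 2) / w) ≤ c * A := mul_le_mul_of_nonneg_left hA1 hc0.le
      have h4 : c * ((1 - w ^ 2) / w) = (1 + w) / 2 := by
        rw [hc]
        field_simp
        ring
      linarith
    rw [← hA] at hkey
    have hσ' : 1 / s - s = σ := by rw [hσ, one_div]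
    rw [hσ'] at hkey
    have hstep := hW α (α + Δ) hα (by linarith) hα1
    rw [← hA, add_sub_cancel_left] at hstep
    -- the main term
    have hV := hVk α hα hαle
    have hVn := hV0 α hα hαle
    have hWn := hW0 α hα hαle
    have hmain : (ik w s α)⁻¹ * (V α * (1 + W α)) ≤ m * (ik w s α - 2) := by
      have h3 : V α * (1 + W α) ≤ (ik w s α - 2) * (m * ik w s α) :=
        mul_le_mul hV (by linarith) (by linarith) (by linarith)
      calc (ik w s α)⁻¹ * (V α * (1 + W α)) ≤ (ik w s α)⁻¹ * ((ik w s α - 2) * (m * ik w s α)) :=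
            mul_le_mul_of_nonneg_left h3 (inv_nonneg.2 hik.le)
        _ = _ := by
            field_simp
    have hmain2 : A * (m * (ik w s α - 2)) ≤ m * (σ - A) := by
      have h3 : m * (A * (ik w s α - 2)) ≤ m * (σ - A) := mul_le_mul_of_nonneg_left hkey (by linarith)
      linarith
    have hmain3 : c * Δ * A * (ik w s α)⁻¹ * (V α * (1 + W α)) ≤ c * Δ * (m * (σ - A)) := by
      calc c * Δ * A * (ik w s α)⁻¹ * (V α * (1 + W α)) = c * Δ * A * ((ik w s α)⁻¹ * (V α * (1 + W α))) := by ring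
        _ ≤ c * Δ * A * (m * (ik w s α - 2)) := mul_le_mul_of_nonneg_left hmain (by positivity)
        _ = c * Δ * (A * (m * (ik w s α - 2))) := by ring
        _ ≤ _ := mul_le_mul_of_nonneg_left hmain2 (by positivity)
    have hB : (1 - θ * (α + Δ - α0)) * ik w s (α + Δ) - 1 = (m * ik w s α - 1) + Δ * (m * c * σ - θ * ik w s α) -
        θ * c * σ * Δ ^ 2 := by
      rw [ik_add hw1, ← hc, ← hσ, hm]
      ring
    show W (α + Δ) ≤ (1 - θ * (α + Δ - α0)) * ik w s (α + Δ) - 1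
    rw [hB]
    have hθik : θ * ik w s α ≤ (1 + w) / 8 := by
      have h3 : θ * ik w s α ≤ θ * (1 / (1 - w)) := mul_le_mul_of_nonneg_left hikle hθ0.le
      have h4 : θ * (1 / (1 - w)) = (1 + w) / 8 := by
        rw [hθ]
        field_simp
        ring
      linarith
    have hΔ' : Δ * (|K| + θ * c * σ) ≤ 5 / 16 := by
      have h3 : Δ * (|K| + θ * c * σ + 1) ≤ 5 / 16 := by
        rw [hδ, le_div_iff₀ hden] at hΔ
        exact hΔ
      linarith
    have hKabs : K * Δ ^ 2 ≤ |K| * Δ ^ 2 := mul_le_mul_of_nonneg_right (le_abs_self K) (by positivity)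
    have hfin : Δ * (Δ * (|K| + θ * c * σ)) ≤ Δ * (m * (c * A) - θ * ik w s α) := by
      refine mul_le_mul_of_nonneg_left ?_ hΔ0.le
      have h3 : 7 / 8 * ((1 + w) / 2) ≤ m * (c * A) := mul_le_mul hm1 hcA (by linarith) (by linarith)
      linarith
    linarith)
  have h3 : θ * (α1 - α0) = (1 - w ^ 2) * (α1 - α0) / 8 := by
    rw [hθ]
    ring
  simp only [h3] at h2
  exact h2

end FDr.AM
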