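import Pool.Agent.Lib.MP_e029a2_pr.AM6
import Pool.Agent.Lib.MP_e029a2_pr.AM8

/-!
# Monotonicity in the drift, part 9: the theorem
-/

set_option autoImplicit false

namespace FDr.AM

open MeasureTheory ProbabilityTheory
open scoped ENNReal
open FDr.TH (Xi VV VV_ne_top Xi_le_Ug Xi_add_le_Ug one_le_Ug Ug_le bw_lt)
open FDr.TR (ofReal_zpow_add Ug mfun_eq kap_ne_zero)

theorem mfun_ge_two (w α : Set.Ioo (0 : ℝ) 1) {s : ℝ} (hs : 1 ≤ s) : 2 ≤ mfun w α s := by
  have hs0 : 0 < s := by linarith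
  have hw0 := w.2.1
  have hw1 := w.2.2
  have hp := bw_pos w.2 α.2 true
  have hq := bw_pos w.2 α.2 false
  have hpq : bw w α true + bw w α false = w := by
    unfold bw
    simp
    ring
  have hqp : bw w α false ≤ bw w α true := by
    have := mul_pos hw0 α.2.1
    unfold bw
    simp only [if_true, Bool.false_eq_true, if_false]
    linarith
  have h1 : (w : ℝ) ≤ bw w α true * s + bw w α false * s⁻¹ := by
    have h2 : bw w α true * (s - 1) * s ≥ bw w α false * (s - 1) := by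
      have h3 : 0 ≤ s - 1 := by linarith
      have h4 : bw w α false * (s - 1) ≤ bw w α true * (s - 1) := mul_le_mul_of_nonneg_right hqp h3
      have h5 : bw w α true * (s - 1) * 1 ≤ bw w α true * (s - 1) * s := mul_le_mul_of_nonneg_left hs (mul_nonneg hp.le h3)
      linarith
    have h3 : bw w α false * s⁻¹ * s = bw w α false := by
      field_simp
    have h4 : (bw w α true * s + bw w α false * s⁻¹ - w) * s ≥ 0 := by
      have h2' : 0 ≤ bw w α true * (s - 1) * s - bw w α false * (s - 1) := by linarith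
      calc (bw w α true * s + bw w α false * s⁻¹ - w) * s = bw w α true * s * s + bw w α false * s⁻¹ * s - w * s := by ring
        _ = bw w α true * s * s + bw w α false - (bw w α true + bw w α false) * s := by rw [h3, hpq]
        _ = bw w α true * (s - 1) * s - bw w α false * (s - 1) := by ring
        _ ≥ 0 := h2'
    have h5 := nonneg_of_mul_nonneg_left h4 hs0
    linarith
  have hk : 1 ≤ kap w α s := by
    rw [TH.kap_geom w α hs0]
    calc (1 : ℝ≥0∞) = ENNReal.ofReal (1 - w) * ∑' n : ℕ, ENNReal.ofReal w ^ n := by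
          rw [ENNReal.tsum_geometric, ENNReal.ofReal_sub _ hw0.le, ENNReal.ofReal_one]
          refine (ENNReal.mul_inv_cancel ?_ ?_).symm
          · rw [← ENNReal.ofReal_one, ← ENNReal.ofReal_sub _ hw0.le]
            exact (ENNReal.ofReal_pos.2 (by linarith)).ne'
          · exact ENNReal.sub_ne_top ENNReal.one_ne_top
      _ ≤ _ := by
          refine mul_le_mul_right (ENNReal.tsum_le_tsum fun n => ?_) _
          exact pow_le_pow_left₀ zero_le (ENNReal.ofReal_le_ofReal h1) n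
  rw [mfun_eq]
  calc (2 : ℝ≥0∞) = 1 * (1 + 1) := by norm_num
    _ ≤ _ := mul_le_mul' hk (add_le_add le_rfl (one_le_Ug w α s))

theorem ik_kap (w α : Set.Ioo (0 : ℝ) 1) {s : ℝ} (hs : 0 < s) (hb : bw w α true * s + bw w α false * s⁻¹ < 1) :
    kap w α s = ENNReal.ofReal (ik w s α)⁻¹ ∧ 0 < ik w s α := by
  have hw1 : 0 < 1 - (w : ℝ) := by linarith [w.2.2]
  have h1 : ik w s α = (1 - (bw w α true * s + bw w α false * s⁻¹)) / (1 - w) := by
    unfold ik bw
    simp only [if_true, Bool.false_eq_true, if_false]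
    congr 1
    ring
  constructor
  · rw [kap_eq w α s hs hb, h1, inv_div]
  · rw [h1]
    exact div_pos (by linarith) hw1

theorem bw_sum_mono (w : Set.Ioo (0 : ℝ) 1) {α α' : Set.Ioo (0 : ℝ) 1} (h : α ≤ α') {s : ℝ} (hs : 0 < s) (hs1 : s ≤ 1) :
    bw w α' true * s + bw w α' false * s⁻¹ ≤ bw w α true * s + bw w α false * s⁻¹ := by
  have hw0 := w.2.1
  have hh : (α : ℝ) ≤ α' := h
  have h1 : s ≤ s⁻¹ := hs1.trans ((one_le_inv₀ hs).2 hs1)
  have h2 : 0 ≤ (w : ℝ) * (α' - α) * (s⁻¹ - s) := mul_nonneg (mul_nonneg hw0.le (by linarith)) (by linarith)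
  unfold bw
  simp only [if_true, Bool.false_eq_true, if_false]
  linarith

theorem to_real {V' V d A Vb i W C : ℝ} {n : ℕ} (hV : 0 ≤ V) (hd : 0 ≤ d) (hA : 0 ≤ A) (hVb : 0 ≤ Vb) (hi : 0 ≤ i)
    (hW : 0 ≤ W) (hC : 0 ≤ C) (h : ENNReal.ofReal V' ≤ ENNReal.ofReal V + ENNReal.ofReal d * (ENNReal.ofReal A *
      (ENNReal.ofReal Vb * (ENNReal.ofReal i * (1 + ENNReal.ofReal W)))) + (n : ℝ≥0∞) * ENNReal.ofReal d ^ 2 *
        ENNReal.ofReal C) : V' ≤ V + d * (A * (Vb * (i * (1 + W)))) + n * d ^ 2 * C := by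
  rw [← ENNReal.ofReal_one, ← ENNReal.ofReal_add zero_le_one hW, ← ENNReal.ofReal_mul hi,
    ← ENNReal.ofReal_mul hVb, ← ENNReal.ofReal_mul hA, ← ENNReal.ofReal_mul hd, ← ENNReal.ofReal_pow hd,
    ← ENNReal.ofReal_natCast, ← ENNReal.ofReal_mul (Nat.cast_nonneg _),
    ← ENNReal.ofReal_mul (by positivity), ← ENNReal.ofReal_add hV (by positivity),
    ← ENNReal.ofReal_add (by positivity) (by positivity)] at h
  exact (ENNReal.ofReal_le_ofReal_iff (by positivity)).1 h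

/-- **The quantitative monotonicity.** -/
theorem mfun_alpha (w : Set.Ioo (0 : ℝ) 1) {α0 α1 : Set.Ioo (0 : ℝ) 1} (h : α0 < α1) {s : ℝ} (hs : 0 < s)
    (hm : mfun w α0 s ≤ 1) : mfun w α1 s ≤ ENNReal.ofReal (1 - (1 - (w : ℝ) ^ 2) * (α1 - α0) / 8) := by
  have hs1 : s < 1 := by
    by_contra hcon
    have h1 := mfun_ge_two w α0 (not_lt.1 hcon)
    have h2 := h1.trans hm
    norm_num at h2
  have hw0 := w.2.1
  have hw1 := w.2.2
  have hh : (α0 : ℝ) < α1 := h
  have ha0 := α0.2.1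
  have ha1 := α1.2.2
  -- the constants at the beginning
  have hK0 := kap_ne_zero w α0 hs
  have hm' := hm
  rw [mfun_eq] at hm
  have hUt : Ug w α0 s ≠ ⊤ := by
    intro h
    rw [h, add_top, ENNReal.mul_top hK0] at hm
    exact not_top_lt (hm.trans_lt ENNReal.one_lt_top)
  have hk1 : kap w α0 s < 1 := by
    by_contra hcon
    have h1 : (2 : ℝ≥0∞) ≤ kap w α0 s * (1 + Ug w α0 s) := by
      calc (2 : ℝ≥0∞) = 1 * (1 + 1) := by norm_num
        _ ≤ _ := mul_le_mul' (not_lt.1 hcon) (add_le_add le_rfl (one_le_Ug w α0 s))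
    have h2 := h1.trans hm
    norm_num at h2
  have hb0 : bw w α0 true * s + bw w α0 false * s⁻¹ < 1 := (bw_lt w w α0 hs hk1).trans hw1
  have hb : ∀ a : Set.Ioo (0 : ℝ) 1, α0 ≤ a → bw w a true * s + bw w a false * s⁻¹ < 1 := fun a ha =>
    (bw_sum_mono w ha hs hs1.le).trans_lt hb0
  obtain ⟨U, hU⟩ : ∃ U : ℝ, U = (Ug w α0 s).toReal := ⟨_, rfl⟩
  have hUE : Ug w α0 s = ENNReal.ofReal U := by rw [hU, ENNReal.ofReal_toReal hUt]
  have hUn : 0 ≤ U := by rw [hU]; exact ENNReal.toReal_nonneg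
  obtain ⟨hkE, hikp⟩ := ik_kap w α0 hs hb0
  have hUk : U ≤ ik w s α0 - 1 := by
    rw [hkE, hUE, ← ENNReal.ofReal_one, ← ENNReal.ofReal_add zero_le_one hUn,
      ← ENNReal.ofReal_mul (inv_nonneg.2 hikp.le)] at hm
    have h1 := (ENNReal.ofReal_le_ofReal_iff zero_le_one).1 hm
    rw [inv_mul_le_iff₀ hikp] at h1
    linarith
  -- for every finite window
  have hY : ∀ S : Finset ℤ, Xi w α1 s S 0 ≤ ENNReal.ofReal ((1 - (1 - (w : ℝ) ^ 2) * (α1 - α0) / 8) * ik w s α1 - 1) := by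
    intro S
    classical
    obtain ⟨H, hH⟩ : ∃ H : ℤ, ∀ z ∈ S, z < H := by
      obtain ⟨H, hH⟩ := S.finite_toSet.bddAbove
      exact ⟨H + 1, fun z hz => by have := hH (Finset.mem_coe.2 hz); omega⟩
    obtain ⟨V, hV⟩ : ∃ V : ℝ → ℝ, ∀ a, V a = if ha : a ∈ Set.Ioo (0 : ℝ) 1 then (VV w ⟨a, ha⟩ s S).toReal else 0 :=
      ⟨_, fun _ => rfl⟩
    obtain ⟨W, hW⟩ : ∃ W : ℝ → ℝ, ∀ a, W a = if ha : a ∈ Set.Ioo (0 : ℝ) 1 then (Xi w ⟨a, ha⟩ s S 0).toReal else 0 :=
      ⟨_, fun _ => rfl⟩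
    have hVE : ∀ a : Set.Ioo (0 : ℝ) 1, α0 ≤ a → VV w a s S = ENNReal.ofReal (V a) := by
      intro a ha
      rw [hV, dif_pos a.2, ENNReal.ofReal_toReal (VV_ne_top w _ hs (hb _ ha) S)]
    have hWE : ∀ a : Set.Ioo (0 : ℝ) 1, Xi w a s S 0 = ENNReal.ofReal (W a) := by
      intro a
      rw [hW, dif_pos a.2, ENNReal.ofReal_toReal (Xi_ne_top w _ s S 0)]
    have hVn : ∀ a : ℝ, 0 ≤ V a := by
      intro a
      rw [hV]
      split_ifs
      · exact ENNReal.toReal_nonneg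
      · exact le_rfl
    have hWn : ∀ a : ℝ, 0 ≤ W a := by
      intro a
      rw [hW]
      split_ifs
      · exact ENNReal.toReal_nonneg
      · exact le_rfl
    have hcc : w / (2 * (1 - w)) = cc w := rfl
    -- the constant of the error
    obtain ⟨E, hE⟩ : ∃ E : ℝ, E = ((S.card + 1) * (S.card + 1 + 1) : ℕ) * ((∑ z ∈ S, s ^ z) * s ^ (-H)) := ⟨_, rfl⟩
    obtain ⟨E', hE'⟩ : ∃ E' : ℝ, E' = ((S.card + 1) * (S.card + 1 + 1) : ℕ) * (∑ z ∈ S, s ^ z) := ⟨_, rfl⟩
    have hSn : 0 ≤ ∑ z ∈ S, s ^ z := Finset.sum_nonneg fun z _ => (zpow_pos hs z).le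
    have hSE : ∑ z ∈ S, ENNReal.ofReal (s ^ z) = ENNReal.ofReal (∑ z ∈ S, s ^ z) :=
      (ENNReal.ofReal_sum_of_nonneg fun z _ => (zpow_pos hs z).le).symm
    have haa : ∀ a : Set.Ioo (0 : ℝ) 1, 0 ≤ 1 / aa w a - aa w a := by
      intro a
      have h1 := aa_pos w a
      have h2 := aa_le w a
      have h3 : 1 ≤ 1 / aa w a := by
        rw [le_div_iff₀ h1]
        linarith
      linarith
    have hVstep : ∀ a a' : ℝ, (α0 : ℝ) ≤ a → a < a' → a' ≤ α1 → V a' ≤ V a + w / (2 * (1 - w)) * (a' - a) *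
        (1 / aa w a - aa w a) * (ik w s a)⁻¹ * (V a * (1 + V a)) + (E * cc w ^ 2) * (a' - a) ^ 2 := by
      intro a a' h1 h2 h3
      have ha : a ∈ Set.Ioo (0 : ℝ) 1 := ⟨by linarith, by linarith⟩
      have ha' : a' ∈ Set.Ioo (0 : ℝ) 1 := ⟨by linarith, by linarith⟩
      have hle : α0 ≤ (⟨a, ha⟩ : Set.Ioo (0 : ℝ) 1) := h1
      have hle' : α0 ≤ (⟨a', ha'⟩ : Set.Ioo (0 : ℝ) 1) := by
        show (α0 : ℝ) ≤ a'
        linarith
      have hstep := VV_incr w (α := ⟨a, ha⟩) (α' := ⟨a', ha'⟩) h2 hs hs1.le (hb _ hle') S hH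
      rw [hVE _ hle, hVE _ hle', (ik_kap w ⟨a, ha⟩ hs (hb _ hle)).1, hSE] at hstep
      have hik := (ik_kap w ⟨a, ha⟩ hs (hb _ hle)).2
      simp only at hstep hik
      have hd : 0 ≤ cc w * (a' - a) := mul_nonneg (cc_pos w).le (by linarith)
      unfold dd at hstep
      simp only at hstep
      have hi := inv_nonneg.2 hik.le
      have hVa := hVn a
      have haa' := haa ⟨a, ha⟩
      simp only at haa'
      rw [← ENNReal.ofReal_mul hSn] at hstep
      have h4 := to_real hVa hd haa' hVa hi hVa (mul_nonneg hSn (zpow_pos hs _).le) hstep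
      rw [hcc, hE]
      refine h4.trans (le_of_eq ?_)
      ring
    have hWstep : ∀ a a' : ℝ, (α0 : ℝ) ≤ a → a < a' → a' ≤ α1 → W a' ≤ W a + w / (2 * (1 - w)) * (a' - a) *
        (1 / aa w a - aa w a) * (ik w s a)⁻¹ * (V a * (1 + W a)) + (E' * cc w ^ 2) * (a' - a) ^ 2 := by
      intro a a' h1 h2 h3
      have ha : a ∈ Set.Ioo (0 : ℝ) 1 := ⟨by linarith, by linarith⟩
      have ha' : a' ∈ Set.Ioo (0 : ℝ) 1 := ⟨by linarith, by linarith⟩
      have hle : α0 ≤ (⟨a, ha⟩ : Set.Ioo (0 : ℝ) 1) := h1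
      have hstep := Xi_incr w (α := ⟨a, ha⟩) (α' := ⟨a', ha'⟩) h2 hs (Finset.Subset.refl S) 0
      rw [hVE _ hle, hWE, hWE, (ik_kap w ⟨a, ha⟩ hs (hb _ hle)).1, hSE] at hstep
      have hik := (ik_kap w ⟨a, ha⟩ hs (hb _ hle)).2
      simp only [zpow_zero, ENNReal.ofReal_one] at hstep hik
      have hd : 0 ≤ cc w * (a' - a) := mul_nonneg (cc_pos w).le (by linarith)
      unfold dd at hstep
      simp only at hstep
      have hi := inv_nonneg.2 hik.le
      have hVa := hVn a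
      have hWa := hWn a
      have haa' := haa ⟨a, ha⟩
      simp only at haa'
      have h4 := to_real hWa hd haa' hVa hi hWa hSn hstep
      rw [hcc, hE']
      refine h4.trans (le_of_eq ?_)
      ring
    have hroot : ∀ a : ℝ, (α0 : ℝ) ≤ a → a ≤ α1 → w * (1 + a) / 2 + w * (1 - a) / 2 * aa w a ^ 2 = aa w a := by
      intro a h1 h2
      have ha : a ∈ Set.Ioo (0 : ℝ) 1 := ⟨by linarith, by linarith⟩
      have h3 := aa_eq w ⟨a, ha⟩
      unfold bw at h3
      simp only [if_true, Bool.false_eq_true, if_false] at h3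
      exact h3
    have hpos : ∀ a : ℝ, (α0 : ℝ) ≤ a → a ≤ α1 → 0 < aa w a := fun a h1 h2 =>
      aa_pos w ⟨a, ⟨by linarith, by linarith⟩⟩
    have hle : ∀ a : ℝ, (α0 : ℝ) ≤ a → a ≤ α1 → aa w a ≤ w := fun a h1 h2 =>
      aa_le w ⟨a, ⟨by linarith, by linarith⟩⟩
    have hVinit : V α0 ≤ ik w s α0 - 2 := by
      have h1 : VV w α0 s S + 1 ≤ Ug w α0 s := by
        have h2 : ∀ T ⊆ S, ∀ g ∉ T, Xi w α0 s T g * ENNReal.ofReal (s ^ (-g)) ≤ Ug w α0 s - 1 := by
          intro T hT g hg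
          refine ENNReal.le_sub_of_add_le_right ENNReal.one_ne_top ?_
          have h3 : ENNReal.ofReal (s ^ g) * ENNReal.ofReal (s ^ (-g)) = 1 := by
            rw [← ofReal_zpow_add hs, add_neg_cancel, zpow_zero, ENNReal.ofReal_one]
          calc Xi w α0 s T g * ENNReal.ofReal (s ^ (-g)) + 1
              = (Xi w α0 s T g + ENNReal.ofReal (s ^ g)) * ENNReal.ofReal (s ^ (-g)) := by rw [add_mul, h3]
            _ ≤ ENNReal.ofReal (s ^ g) * Ug w α0 s * ENNReal.ofReal (s ^ (-g)) :=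
                mul_le_mul_left (Xi_add_le_Ug w α0 hs hg) _
            _ = ENNReal.ofReal (s ^ g) * ENNReal.ofReal (s ^ (-g)) * Ug w α0 s := by ring
            _ = _ := by rw [h3, one_mul]
        have h3 : VV w α0 s S ≤ Ug w α0 s - 1 := by
          unfold VV
          exact iSup₂_le fun T hT => iSup₂_le fun g hg => h2 T hT g hg
        calc VV w α0 s S + 1 ≤ Ug w α0 s - 1 + 1 := add_le_add h3 le_rfl
          _ = _ := tsub_add_cancel_of_le (one_le_Ug w α0 s)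
      rw [hVE α0 le_rfl, hUE, ← ENNReal.ofReal_one, ← ENNReal.ofReal_add (hVn _) zero_le_one] at h1
      have h2 := (ENNReal.ofReal_le_ofReal_iff hUn).1 h1
      linarith
    have hWinit : W α0 ≤ ik w s α0 - 1 := by
      have h1 := Xi_le_Ug w α0 hs S 0
      rw [zpow_zero, ENNReal.ofReal_one, one_mul, hWE, hUE] at h1
      have h2 := (ENNReal.ofReal_le_ofReal_iff hUn).1 h1
      linarith
    have hVk : ∀ a : ℝ, (α0 : ℝ) ≤ a → a ≤ α1 → V a ≤ ik w s a - 2 := by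
      intro a h1 h2
      rcases h1.lt_or_eq with h3 | h3
      · have h4 := comparison hw0 hw1 ha0 h3 (by linarith) hs hs1 hikp (aa w) V (E * cc w ^ 2)
          (fun b hb1 hb2 => hpos b hb1 (by linarith)) (fun b hb1 hb2 => hle b hb1 (by linarith))
          (fun b hb1 hb2 => hroot b hb1 (by linarith)) (fun b _ _ => hVn b)
          (fun b b' hb1 hb2 hb3 => hVstep b b' hb1 hb2 (by linarith)) hVinit
        have h5 : 0 < ik w s a := (ik_kap w ⟨a, ⟨by linarith, by linarith⟩⟩ hs (hb _ h1)).2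
        have h6 : 0 ≤ (1 - (w : ℝ) ^ 2) * (a - α0) / 8 * ik w s a := by
          have : 0 ≤ 1 - (w : ℝ) ^ 2 := by nlinarith
          have : 0 ≤ a - (α0 : ℝ) := by linarith
          positivity
        linarith
      · rw [← h3]
        exact hVinit
    have hfin := comparison2 hw0 hw1 ha0 hh ha1 hs hs1 hikp (aa w) V W (E' * cc w ^ 2) hpos hle hroot
      (fun b _ _ => hVn b) hVk (fun b _ _ => hWn b) hWstep hWinit
    rw [hWE]
    exact ENNReal.ofReal_le_ofReal hfin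
  have hUg := Ug_le w α1 s hY
  obtain ⟨hkE1, hikp1⟩ := ik_kap w α1 hs (hb _ h.le)
  have hc0 : 0 ≤ (1 - (1 - (w : ℝ) ^ 2) * (α1 - α0) / 8) * ik w s α1 - 1 := by
    have h1 := (one_le_Ug w α1 s).trans hUg
    by_contra hcon
    rw [ENNReal.ofReal_of_nonpos (not_le.1 hcon).le] at h1
    exact absurd h1 (by norm_num)
  rw [mfun_eq, hkE1]
  calc ENNReal.ofReal (ik w s α1)⁻¹ * (1 + Ug w α1 s) ≤ ENNReal.ofReal (ik w s α1)⁻¹ *
        (1 + ENNReal.ofReal ((1 - (1 - (w : ℝ) ^ 2) * (α1 - α0) / 8) * ik w s α1 - 1)) := by gcongr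
    _ = ENNReal.ofReal (1 - (1 - (w : ℝ) ^ 2) * (α1 - α0) / 8) := by
        rw [← ENNReal.ofReal_one, ← ENNReal.ofReal_add zero_le_one hc0, ← ENNReal.ofReal_mul (inv_nonneg.2 hikp1.le)]
        congr 1
        field_simp
        ring

end FDr.AM

namespace FDr

open scoped ENNReal

/-- **The monotonicity in the drift.** -/
theorem Lam_alpha (w α α' : Set.Ioo (0 : ℝ) 1) (h : α < α') (hl : Lam w α < 1) :
    Lam w α' ≤ ENNReal.ofReal (1 - (1 - (w : ℝ) ^ 2) * (α' - α) / 8) := by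
  unfold Lam at hl
  obtain ⟨s, hs⟩ := iInf_lt_iff.1 hl
  obtain ⟨hs0, hs1⟩ := iInf_lt_iff.1 hs
  exact (iInf₂_le s hs0).trans (AM.mfun_alpha w h hs0 hs1.le)

end FDr
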