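import Pool.Agent.Lib.MP_e029a2_pr.FR5

/-!
# Job FR7: local upper bounds `C (N+1)^(-D/2)` for fixed `D`

By FR5 the left side is at most `∫ |symbol|^N ≤ ∫ exp (-(N/D) osc θ)` (for `Tw` the symbol `Phi^2` is also at
most `exp (-(osc/D))`, as `Phi^2 ≤ |Phi|`), which for `N ≥ 1` is at most `(2/√(N/D))^D = (2 √D)^D (1/√N)^D`
(`int_tor_exp`), and `1/√N ≤ √2/√(N+1)`.  For `N = 0` the left side is at most `1 = ph D 0`.  So
`C = (2 √D √2)^D + 1` works.  `ph D N = ((√(N+1))⁻¹)^D`.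
-/

set_option autoImplicit false

namespace FDr

open MeasureTheory
open scoped ENNReal

theorem FR7_dot_cont {D : ℕ} (u : V D) : Continuous fun θ : Fin D → ℝ => dot θ u := by
  unfold dot
  fun_prop

theorem FR7_gen (D : ℕ) (hD : 1 ≤ D) (S : (Fin D → ℝ) → ℝ) (hS : Continuous S)
    (hSb : ∀ θ, |S θ| ≤ Real.exp (-(osc θ / D))) (N : ℕ) (u : V D) :
    ∫ θ, S θ ^ N * Real.cos (dot θ u) ∂(tor D) ≤ ((2 * Real.sqrt D * Real.sqrt 2) ^ D + 1) * ph D N := by
  have hD0 : (0 : ℝ) < D := by exact_mod_cast hD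
  have hc : Continuous fun θ : Fin D → ℝ => Real.cos (dot θ u) := Real.continuous_cos.comp (FR7_dot_cont u)
  have hpt : ∀ θ, S θ ^ N * Real.cos (dot θ u) ≤ Real.exp (-((N : ℝ) / D * osc θ)) := by
    intro θ
    have h1 : |S θ ^ N * Real.cos (dot θ u)| ≤ Real.exp (-(osc θ / D)) ^ N := by
      rw [abs_mul, abs_pow]
      calc |S θ| ^ N * |Real.cos (dot θ u)| ≤ |S θ| ^ N * 1 :=
            mul_le_mul_of_nonneg_left (Real.abs_cos_le_one _) (pow_nonneg (abs_nonneg _) N)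
        _ = |S θ| ^ N := mul_one _
        _ ≤ _ := pow_le_pow_left₀ (abs_nonneg _) (hSb θ) N
    rw [← Real.exp_nat_mul] at h1
    refine (le_abs_self _).trans (h1.trans (le_of_eq ?_))
    congr 1
    field_simp
  have hi1 : Integrable (fun θ => S θ ^ N * Real.cos (dot θ u)) (tor D) := by
    refine Integrable.of_bound ((hS.pow N).mul hc).aestronglyMeasurable 1 (Filter.Eventually.of_forall fun θ => ?_)
    rw [Real.norm_eq_abs, abs_mul, abs_pow]
    have h1 : |S θ| ≤ 1 := (hSb θ).trans (by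
      rw [Real.exp_le_one_iff]
      have := osc_nonneg θ
      have h2 : 0 ≤ osc θ / D := div_nonneg this hD0.le
      linarith)
    exact mul_le_one₀ (pow_le_one₀ (abs_nonneg _) h1) (abs_nonneg _) (Real.abs_cos_le_one _)
  have hi2 : Integrable (fun θ => Real.exp (-((N : ℝ) / D * osc θ))) (tor D) := by
    refine Integrable.of_bound (Real.continuous_exp.comp
      ((continuous_const.mul (continuous_osc D)).neg)).aestronglyMeasurable 1 (Filter.Eventually.of_forall fun θ => ?_)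
    rw [Real.norm_eq_abs, abs_of_pos (Real.exp_pos _), Real.exp_le_one_iff]
    have h2 : 0 ≤ (N : ℝ) / D * osc θ := mul_nonneg (div_nonneg (Nat.cast_nonneg N) hD0.le) (osc_nonneg θ)
    linarith
  have hle : ∫ θ, S θ ^ N * Real.cos (dot θ u) ∂(tor D) ≤ ∫ θ, Real.exp (-((N : ℝ) / D * osc θ)) ∂(tor D) :=
    integral_mono hi1 hi2 hpt
  refine hle.trans ?_
  have hK : 0 ≤ (2 * Real.sqrt D * Real.sqrt 2) ^ D := by positivity
  rcases Nat.eq_zero_or_pos N with rfl | hN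
  · have h1 : ∫ θ, Real.exp (-(((0 : ℕ) : ℝ) / D * osc θ)) ∂(tor D) = 1 := by
      simp
    have h2 : ph D 0 = 1 := by
      simp [ph]
    rw [h1, h2, mul_one]
    linarith
  · have hN0 : (0 : ℝ) < N := by exact_mod_cast hN
    have hN1 : (1 : ℝ) ≤ N := by exact_mod_cast hN
    refine (int_tor_exp D ((N : ℝ) / D) (div_pos hN0 hD0)).trans ?_
    have hsN : 0 < Real.sqrt N := Real.sqrt_pos.2 hN0
    have hsN1 : 0 < Real.sqrt (N + 1) := Real.sqrt_pos.2 (by linarith)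
    have hsD : 0 < Real.sqrt D := Real.sqrt_pos.2 hD0
    have h1 : 2 / Real.sqrt ((N : ℝ) / D) ≤ 2 * Real.sqrt D * Real.sqrt 2 * (Real.sqrt (N + 1))⁻¹ := by
      rw [Real.sqrt_div hN0.le]
      have h2 : Real.sqrt (N + 1) ≤ Real.sqrt 2 * Real.sqrt N := by
        rw [← Real.sqrt_mul (by norm_num)]
        exact Real.sqrt_le_sqrt (by linarith)
      rw [div_div_eq_mul_div, ← div_eq_mul_inv, div_le_div_iff₀ hsN hsN1]
      have h3 : 0 ≤ 2 * Real.sqrt D := by positivity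
      nlinarith [mul_le_mul_of_nonneg_left h2 h3]
    have h4 : 0 ≤ 2 / Real.sqrt ((N : ℝ) / D) := by positivity
    have h5 := pow_le_pow_left₀ h4 h1 D
    rw [mul_pow] at h5
    have h6 : ph D N = (Real.sqrt (N + 1))⁻¹ ^ D := rfl
    rw [← h6] at h5
    have h7 : 0 ≤ ph D N := by
      rw [h6]
      positivity
    nlinarith

theorem Pw_exact (k D : ℕ) (hk : 1 ≤ k) (hD : k ≤ D) : ∃ C : ℝ, 0 < C ∧ ∀ (N : ℕ) (w v : V D),
    (Pw k D)^[N] (ind w) v ≤ C * ph D N := by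
  refine ⟨(2 * Real.sqrt D * Real.sqrt 2) ^ D + 1, by positivity, fun N w v => ?_⟩
  rw [Pw_ind k D hk hD]
  exact FR7_gen D (hk.trans hD) (Phi k D) (continuous_Phi k D) (abs_Phi_le k D hk hD) N (v - w)

theorem Tw_exact (k D : ℕ) (hk : 1 ≤ k) (hD : k ≤ D) : ∃ C : ℝ, 0 < C ∧ ∀ (N : ℕ) (w v : V D),
    (Tw k D)^[N] (ind w) v ≤ C * ph D N := by
  refine ⟨(2 * Real.sqrt D * Real.sqrt 2) ^ D + 1, by positivity, fun N w v => ?_⟩
  rw [Tw_ind k D hk hD]
  refine FR7_gen D (hk.trans hD) (fun θ => Phi k D θ ^ 2) ((continuous_Phi k D).pow 2) (fun θ => ?_) N (v - w)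
  rw [abs_pow]
  have h1 := abs_Phi_le_one k D hk hD θ
  have h2 := abs_Phi_le k D hk hD θ
  have h3 := abs_nonneg (Phi k D θ)
  nlinarith

theorem Qd_exact (D : ℕ) (hD : 1 ≤ D) : ∃ C : ℝ, 0 < C ∧ ∀ (N : ℕ) (w v : V D),
    (Qd D)^[N] (ind w) v ≤ C * ph D N := by
  refine ⟨(2 * Real.sqrt D * Real.sqrt 2) ^ D + 1, by positivity, fun N w v => ?_⟩
  rw [Qd_ind D hD]
  exact FR7_gen D hD (cD D) (continuous_cD D) (abs_cD_le D hD) N (v - w)

end FDr
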