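import Pool.Agent.Lib.MP_e029a2_pr.CV2
import Pool.Agent.Lib.MP_e029a2_pr.FR7

/-!
# Job AN4: the simple random walk spreads

`srw_eq`, `Qd_exact` with `w = 0`, and `ph D j → 0` for `D ≥ 1`.
-/

set_option autoImplicit false

namespace FDr

open MeasureTheory
open scoped ENNReal

theorem AN4_ph (D : ℕ) (hD : 1 ≤ D) : Filter.Tendsto (fun j : ℕ => ph D j) Filter.atTop (nhds 0) := by
  have h1 : Filter.Tendsto (fun j : ℕ => Real.sqrt ((j : ℝ) + 1)) Filter.atTop Filter.atTop :=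
    Real.tendsto_sqrt_atTop.comp (Filter.tendsto_atTop_add_const_right _ 1 tendsto_natCast_atTop_atTop)
  have h2 : Filter.Tendsto (fun j : ℕ => ((Real.sqrt ((j : ℝ) + 1))⁻¹) ^ D) Filter.atTop (nhds (0 ^ D)) :=
    (tendsto_inv_atTop_zero.comp h1).pow D
  rw [zero_pow (by omega)] at h2
  exact h2

theorem an4' (D : ℕ) (hD : 1 ≤ D) (ε : ℝ≥0∞) (hε : 0 < ε) :
    ∃ j0 : ℕ, ∀ j, j0 ≤ j → ∀ v : Fin D → ℤ, srw D j v ≤ ε := by
  obtain ⟨C, -, hC⟩ := Qd_exact D hD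
  have h1 : Filter.Tendsto (fun j : ℕ => ENNReal.ofReal (C * ph D j)) Filter.atTop (nhds 0) := by
    have h2 := ENNReal.tendsto_ofReal ((AN4_ph D hD).const_mul C)
    rw [mul_zero, ENNReal.ofReal_zero] at h2
    exact h2
  obtain ⟨j0, hj0⟩ := Filter.eventually_atTop.1 (h1.eventually_le_const hε)
  refine ⟨j0, fun j hj v => ?_⟩
  rw [srw_eq D hD j v]
  exact (ENNReal.ofReal_le_ofReal (hC j 0 v)).trans (hj0 j hj)

end FDr
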