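import Pool.Agent.Lib.MP_e029a2_pr.Law

/-!
# The walks: definitions

* `dispP k`: the law of the displacement of a run.
* `hz j h`: the probability that the height after `j` cells is `h`.
* `srw D j v`: the simple random walk on `ℤ^D`.
* `Gam D h v`: the mean number of the entries of a frog at the point `(h, v)` if it starts a line at `0`.
* `inj D n`: the lists of `n` directions with distinct coordinates; `av B N v f`: the sum over the `N`-tuples of such
  lists (a path from `v`, which does not visit `B`), with the weight `(2D)^(-n N)`, of `f` at the end of the path.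
-/

set_option autoImplicit false

namespace FDr

open MeasureTheory ProbabilityTheory
open scoped ENNReal

/-- the law of the displacement of a run -/
noncomputable def dispP (w α : Set.Ioo (0 : ℝ) 1) (k : ℤ) : ℝ≥0∞ := runLaw w α {l | dsp l = k}

/-- the law of the height after `j` cells -/
noncomputable def hz (w α : Set.Ioo (0 : ℝ) 1) : ℕ → ℤ → ℝ≥0∞
  | 0 => fun h => if h = 0 then 1 else 0
  | j + 1 => fun h => ∑' k : ℤ, dispP w α k * hz w α j (h - k)

/-- the simple random walk on `ℤ^D` -/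
noncomputable def srw (D : ℕ) : ℕ → (Fin D → ℤ) → ℝ≥0∞
  | 0 => fun v => if v = 0 then 1 else 0
  | j + 1 => fun v => ∑ d : Dir D, (2 * (D : ℝ≥0∞))⁻¹ * srw D j (v - dv d)

/-- the Green function of the entries -/
noncomputable def Gam (w α : Set.Ioo (0 : ℝ) 1) (D : ℕ) (h : ℤ) (v : Fin D → ℤ) : ℝ≥0∞ :=
  ∑' j : ℕ, hz w α j h * srw D j v

/-- lists of `n` directions with distinct coordinates -/
def inj (D n : ℕ) : Finset (List (Dir D)) :=
  ((Finset.univ : Finset (List.Vector (Dir D) n)).image fun v => v.toList).filter fun l => (l.map Prod.fst).Nodup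

/-- the sum of the directions of a list -/
def sumv {D : ℕ} (l : List (Dir D)) : Fin D → ℤ := (l.map dv).sum

/-- the weight `(2D)^(-n)` of a list -/
noncomputable def dw (D n : ℕ) : ℝ≥0∞ := ((2 * (D : ℝ≥0∞)) ^ n)⁻¹

/-- the total weight of `inj D n` -/
noncomputable def qn (D n : ℕ) : ℝ≥0∞ := ((inj D n).card : ℝ≥0∞) * dw D n

/-- the path from `v` with the directions `l` does not visit `B` (after its starting point) -/
def okl {D : ℕ} (B : Finset (Fin D → ℤ)) (v : Fin D → ℤ) (l : List (Dir D)) : Prop :=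
  ∀ a, 1 ≤ a → a ≤ l.length → v + sumv (l.take a) ∉ B

noncomputable instance {D : ℕ} (B : Finset (Fin D → ℤ)) (v : Fin D → ℤ) (l : List (Dir D)) : Decidable (okl B v l) :=
  Classical.propDecidable _

/-- the sum over the paths from `v` of `N` long steps which avoid `B` of the value of `f` at the end -/
noncomputable def av (D n : ℕ) (B : Finset (Fin D → ℤ)) (f : (Fin D → ℤ) → ℝ≥0∞) : ℕ → (Fin D → ℤ) → ℝ≥0∞
  | 0 => f
  | N + 1 => fun v => ∑ l ∈ (inj D n).filter (fun l => okl B v l), dw D n * av D n B f N (v + sumv l)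

/-- the meeting function -/
noncomputable def sfun (D n : ℕ) (u : Fin D → ℤ) : ℝ≥0∞ :=
  ∑ a ∈ Finset.Icc 1 n, ∑ b ∈ Finset.Icc 1 n, srw D (a + b) u

/-- `(N+1)^(-D/2)` -/
noncomputable def ph (D N : ℕ) : ℝ := ((Real.sqrt (N + 1))⁻¹) ^ D

/-- the parity of a point -/
def evn {D : ℕ} (v : Fin D → ℤ) : Prop := Even (∑ i, v i)

/-- the bounds of the two kernels -/
structure Kern (D n : ℕ) (W C1 : ℝ≥0∞) (T : ℕ → ℝ≥0∞) (A : ℕ → (Fin D → ℤ) → ℝ≥0∞) : Prop where
  kT : ∀ k, T (k + 1) ≤ (W * qn D n + C1 / D) * T k + C1 * ⨆ u, A k u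
  kA : ∀ k u, A (k + 1) u ≤
    W ^ 2 * (∑ l ∈ inj D n, ∑ l' ∈ inj D n, dw D n ^ 2 * A k (u + sumv l - sumv l')) +
      C1 * sfun D n u * (T k + ⨆ v, A k v)

end FDr
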