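import Pool.Agent.Lib.MP_e029a2_pr.ADef

/-!
# Job W2: bounds for the number of words

`wc k D = 2^k D(D-1)...(D-k+1)`.
* `wc_pos`: `Nat.descFactorial_pos`.
* `wc_le`: `Nat.descFactorial_le_pow`.
* `wc_ge`: `Nat.pow_sub_le_descFactorial : (n + 1 - k)^k ≤ n.descFactorial k`, and
  `(D+1-k)^k ≥ (D-k)^k = D^k (1 - k/D)^k ≥ D^k (1 - k^2/D)` (Bernoulli, `one_add_mul_le_pow`), which is
  `≥ (3/4) D^k` for `D ≥ D0 = 4 k^2 + k + 1`.
* `wc_tendsto`-like form `wc_ge'`: for every `ε > 0` it is `≥ (1 - ε) (2D)^k` for large `D`, same proof.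
-/

set_option autoImplicit false

namespace FDr

open MeasureTheory
open scoped ENNReal

theorem wc_pos (k D : ℕ) (h : k ≤ D) : 0 < wc k D := by
  unfold wc
  exact Nat.mul_pos (by positivity) (Nat.descFactorial_pos.2 h)

theorem wc_le (k D : ℕ) : (wc k D : ℝ) ≤ (2 * (D : ℝ)) ^ k := by
  unfold wc
  rw [mul_pow]
  push_cast
  refine mul_le_mul_of_nonneg_left ?_ (by positivity)
  exact_mod_cast Nat.descFactorial_le_pow D k

theorem wc_ge (k : ℕ) (ε : ℝ) (hε : 0 < ε) : ∃ D0 : ℕ, ∀ D : ℕ, D0 ≤ D →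
    (1 - ε) * (2 * (D : ℝ)) ^ k ≤ wc k D := by
  obtain ⟨M, hM⟩ := exists_nat_gt ((k : ℝ) ^ 2 / ε)
  refine ⟨max (k + 1) M, fun D hD => ?_⟩
  have hk : k + 1 ≤ D := le_trans (le_max_left _ _) hD
  have hMD : (M : ℝ) ≤ D := by exact_mod_cast le_trans (le_max_right _ _) hD
  have hkR : (k : ℝ) + 1 ≤ D := by exact_mod_cast hk
  have hk0 : (0 : ℝ) ≤ k := Nat.cast_nonneg k
  have hD0 : (0 : ℝ) < D := by linarith
  have h1 : (k : ℝ) ^ 2 / D ≤ ε := by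
    rw [div_le_iff₀ hD0]
    have h2 : (k : ℝ) ^ 2 / ε ≤ D := by linarith
    rw [div_le_iff₀ hε] at h2
    linarith
  have h3 : ((D + 1 - k : ℕ) : ℝ) ^ k ≤ (D.descFactorial k : ℝ) := by
    exact_mod_cast Nat.pow_sub_le_descFactorial D k
  have h4 : ((D + 1 - k : ℕ) : ℝ) = D + 1 - k := by
    rw [Nat.cast_sub (by omega)]
    push_cast
    ring
  have h5 : 1 + (k : ℝ) * (-(k / D)) ≤ (1 + (-((k : ℝ) / D))) ^ k := by
    apply one_add_mul_le_pow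
    have : (k : ℝ) / D ≤ 1 := by
      rw [div_le_one hD0]
      linarith
    linarith
  have h6 : (1 - ε) * (D : ℝ) ^ k ≤ ((D : ℝ) - k) ^ k := by
    have e1 : (D : ℝ) - k = D * (1 + (-((k : ℝ) / D))) := by
      field_simp
      ring
    rw [e1, mul_pow, mul_comm]
    refine mul_le_mul_of_nonneg_left (le_trans ?_ h5) (by positivity)
    have e2 : 1 + (k : ℝ) * (-(k / D)) = 1 - (k : ℝ) ^ 2 / D := by ring
    rw [e2]
    linarith
  have h7 : ((D : ℝ) - k) ^ k ≤ ((D : ℝ) + 1 - k) ^ k :=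
    pow_le_pow_left₀ (by linarith) (by linarith) k
  rw [h4] at h3
  unfold wc
  rw [mul_pow]
  push_cast
  have h8 : (1 - ε) * (D : ℝ) ^ k ≤ (D.descFactorial k : ℝ) := le_trans h6 (le_trans h7 h3)
  calc (1 - ε) * (2 ^ k * (D : ℝ) ^ k) = 2 ^ k * ((1 - ε) * (D : ℝ) ^ k) := by ring
    _ ≤ 2 ^ k * (D.descFactorial k : ℝ) := mul_le_mul_of_nonneg_left h8 (by positivity)

end FDr
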