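import Pool.Agent.Lib.MP_e029a2_pr.CV1
import Pool.Agent.Lib.MP_e029a2_pr.W2

/-!
# Job CV2: the `ℝ≥0∞` operators and the real operators

* `srw_eq`: induction on `j`; `(Qd D)^[j+1] f = Qd D ((Qd D)^[j] f)` (`Function.iterate_succ_apply'`);
  `∑_d g (v - dv d) = ∑_d g (v + dv d)` by the bijection `(c, b) ↦ (c, !b)` (`dv (c, !b) = - dv (c, b)`).
* `PP_iter`, `TT_iter`: induction on `N`, with `sum_inj`, `sumv_ofFn`, `dw_eq`, `qn_eq`; one step:
  `PP (ofReal ∘ f) v = ∑_σ ofReal ((2D)^(-n)) * ofReal (f (v + wsum σ)) = qn * ofReal (Pw f v)`, as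
  `qn = ofReal (wc/(2D)^n)`, `Pw f v = wc⁻¹ ∑ f`; `wc > 0` as `n ≤ D` (`wc_pos`).  `PP` and `TT` commute
  with the multiplication by constants.  The real iterates of a nonnegative function are nonnegative
  (`Pw_nonneg`, `Tw_nonneg`, `Qd_nonneg`).
-/

set_option autoImplicit false

namespace FDr

open MeasureTheory
open scoped ENNReal

private theorem CV2_neg {D : ℕ} (d : Dir D) (v : V D) : v - dv d = v + dv (d.1, !d.2) := by
  rw [sub_eq_add_neg]
  congr 1
  unfold dv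
  funext i
  rw [Pi.neg_apply]
  by_cases h : i = d.1
  · subst h
    rw [Pi.single_eq_same, Pi.single_eq_same]
    cases d.2 <;> rfl
  · rw [Pi.single_eq_of_ne h, Pi.single_eq_of_ne h, neg_zero]

private theorem CV2_flip {D : ℕ} (g : V D → ℝ≥0∞) (v : V D) :
    ∑ d : Dir D, g (v - dv d) = ∑ d : Dir D, g (v + dv d) := by
  refine Fintype.sum_equiv ((Equiv.refl (Fin D)).prodCongr Equiv.boolNot) _ _ fun d => ?_
  rw [CV2_neg]
  rfl

private theorem CV2_two (D : ℕ) : ENNReal.ofReal (2 * (D : ℝ)) = 2 * (D : ℝ≥0∞) := by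
  rw [ENNReal.ofReal_mul (by norm_num), ENNReal.ofReal_ofNat, ENNReal.ofReal_natCast]

private theorem CV2_PP (D n : ℕ) (hD : 1 ≤ D) (hn : n ≤ D) (g : V D → ℝ) (hg : ∀ v, 0 ≤ g v) (c : ℝ≥0∞) (v : V D) :
    PP D n (fun u => c * ENNReal.ofReal (g u)) v = c * qn D n * ENNReal.ofReal (Pw n D g v) := by
  have hD0 : (0 : ℝ) < D := Nat.cast_pos.2 hD
  have hw : (0 : ℝ) < wc n D := Nat.cast_pos.2 (wc_pos n D hn)
  have h1 : ENNReal.ofReal (∑ σ ∈ Wd n D, g (v + wsum σ)) = ∑ σ ∈ Wd n D, ENNReal.ofReal (g (v + wsum σ)) :=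
    ENNReal.ofReal_sum_of_nonneg fun σ _ => hg _
  have h2 : qn D n * ENNReal.ofReal (Pw n D g v) = dw D n * ∑ σ ∈ Wd n D, ENNReal.ofReal (g (v + wsum σ)) := by
    rw [qn_eq D n hD, dw_eq D n hD, ← h1, ← ENNReal.ofReal_mul (by positivity), ← ENNReal.ofReal_mul (by positivity)]
    unfold Pw
    congr 1
    field_simp
  rw [mul_assoc, h2]
  unfold PP
  rw [sum_inj]
  simp only [sumv_ofFn]
  rw [Finset.mul_sum, Finset.mul_sum]
  exact Finset.sum_congr rfl fun σ _ => by rw [mul_left_comm]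

private theorem CV2_TT (D n : ℕ) (hD : 1 ≤ D) (hn : n ≤ D) (g : V D → ℝ) (hg : ∀ v, 0 ≤ g v) (c : ℝ≥0∞) (v : V D) :
    TT D n (fun u => c * ENNReal.ofReal (g u)) v = c * qn D n ^ 2 * ENNReal.ofReal (Tw n D g v) := by
  have hD0 : (0 : ℝ) < D := Nat.cast_pos.2 hD
  have hw : (0 : ℝ) < wc n D := Nat.cast_pos.2 (wc_pos n D hn)
  have h1 : ENNReal.ofReal (∑ σ ∈ Wd n D, ∑ σ' ∈ Wd n D, g (v + wsum σ - wsum σ')) =
      ∑ σ ∈ Wd n D, ∑ σ' ∈ Wd n D, ENNReal.ofReal (g (v + wsum σ - wsum σ')) := by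
    rw [ENNReal.ofReal_sum_of_nonneg fun σ _ => Finset.sum_nonneg fun σ' _ => hg _]
    exact Finset.sum_congr rfl fun σ _ => ENNReal.ofReal_sum_of_nonneg fun σ' _ => hg _
  have h2 : qn D n ^ 2 * ENNReal.ofReal (Tw n D g v) =
      dw D n ^ 2 * ∑ σ ∈ Wd n D, ∑ σ' ∈ Wd n D, ENNReal.ofReal (g (v + wsum σ - wsum σ')) := by
    rw [qn_eq D n hD, dw_eq D n hD, ← h1, ← ENNReal.ofReal_pow (by positivity), ← ENNReal.ofReal_pow (by positivity),
      ← ENNReal.ofReal_mul (by positivity), ← ENNReal.ofReal_mul (by positivity)]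
    unfold Tw
    congr 1
    field_simp
  rw [mul_assoc, h2]
  unfold TT
  rw [sum_inj]
  simp only [sum_inj, sumv_ofFn]
  rw [Finset.mul_sum, Finset.mul_sum]
  refine Finset.sum_congr rfl fun σ _ => ?_
  rw [Finset.mul_sum, Finset.mul_sum]
  exact Finset.sum_congr rfl fun σ' _ => by rw [mul_left_comm]

theorem Pw_nonneg (k D : ℕ) (f : V D → ℝ) (hf : ∀ v, 0 ≤ f v) (N : ℕ) (v : V D) :
    0 ≤ (Pw k D)^[N] f v := by

  induction N generalizing v with
  | zero => exact hf v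
  | succ N ih =>
    rw [Function.iterate_succ_apply']
    exact mul_nonneg (inv_nonneg.2 (Nat.cast_nonneg _)) (Finset.sum_nonneg fun σ _ => ih _)

theorem Tw_nonneg (k D : ℕ) (f : V D → ℝ) (hf : ∀ v, 0 ≤ f v) (N : ℕ) (v : V D) :
    0 ≤ (Tw k D)^[N] f v := by

  induction N generalizing v with
  | zero => exact hf v
  | succ N ih =>
    rw [Function.iterate_succ_apply']
    exact mul_nonneg (inv_nonneg.2 (sq_nonneg _)) (Finset.sum_nonneg fun σ _ => Finset.sum_nonneg fun σ' _ => ih _)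

theorem Qd_nonneg (D : ℕ) (f : V D → ℝ) (hf : ∀ v, 0 ≤ f v) (N : ℕ) (v : V D) :
    0 ≤ (Qd D)^[N] f v := by

  induction N generalizing v with
  | zero => exact hf v
  | succ N ih =>
    rw [Function.iterate_succ_apply']
    exact mul_nonneg (inv_nonneg.2 (mul_nonneg (by norm_num) (Nat.cast_nonneg _)))
      (Finset.sum_nonneg fun σ _ => ih _)

theorem srw_eq (D : ℕ) (hD : 1 ≤ D) (j : ℕ) (v : V D) :
    srw D j v = ENNReal.ofReal ((Qd D)^[j] (ind 0) v) := by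

  have h0 : ∀ v : V D, 0 ≤ ind (0 : V D) v := by
    intro v
    unfold ind
    split_ifs <;> norm_num
  have hD0 : (0 : ℝ) < D := Nat.cast_pos.2 hD
  induction j generalizing v with
  | zero =>
    change (if v = 0 then (1 : ℝ≥0∞) else 0) = ENNReal.ofReal (if v = 0 then (1 : ℝ) else 0)
    split_ifs
    · rw [ENNReal.ofReal_one]
    · rw [ENNReal.ofReal_zero]
  | succ j ih =>
    rw [Function.iterate_succ_apply']
    change ∑ d : Dir D, (2 * (D : ℝ≥0∞))⁻¹ * srw D j (v - dv d) =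
      ENNReal.ofReal ((2 * (D : ℝ))⁻¹ * ∑ δ : Dir D, (Qd D)^[j] (ind 0) (v + dv δ))
    rw [ENNReal.ofReal_mul (by positivity), ENNReal.ofReal_inv_of_pos (by positivity), CV2_two,
      ENNReal.ofReal_sum_of_nonneg fun δ _ => Qd_nonneg D _ h0 j _, ← Finset.mul_sum, CV2_flip (srw D j) v]
    congr 1
    exact Finset.sum_congr rfl fun d _ => ih _

theorem PP_iter (D n : ℕ) (hD : 1 ≤ D) (hn : n ≤ D) (f : V D → ℝ) (hf : ∀ v, 0 ≤ f v) (N : ℕ) (v : V D) :
    (PP D n)^[N] (fun u => ENNReal.ofReal (f u)) v = qn D n ^ N * ENNReal.ofReal ((Pw n D)^[N] f v) := by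

  induction N generalizing v with
  | zero =>
    rw [pow_zero, one_mul]
    rfl
  | succ N ih =>
    rw [Function.iterate_succ_apply', Function.iterate_succ_apply']
    have h1 : (PP D n)^[N] (fun u => ENNReal.ofReal (f u)) =
        fun u => qn D n ^ N * ENNReal.ofReal ((Pw n D)^[N] f u) := funext fun u => ih u
    rw [h1, CV2_PP D n hD hn _ (Pw_nonneg n D f hf N), pow_succ]

theorem TT_iter (D n : ℕ) (hD : 1 ≤ D) (hn : n ≤ D) (f : V D → ℝ) (hf : ∀ v, 0 ≤ f v) (N : ℕ) (v : V D) :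
    (TT D n)^[N] (fun u => ENNReal.ofReal (f u)) v =
      qn D n ^ (2 * N) * ENNReal.ofReal ((Tw n D)^[N] f v) := by

  induction N generalizing v with
  | zero =>
    rw [mul_zero, pow_zero, one_mul]
    rfl
  | succ N ih =>
    rw [Function.iterate_succ_apply', Function.iterate_succ_apply']
    have h1 : (TT D n)^[N] (fun u => ENNReal.ofReal (f u)) =
        fun u => qn D n ^ (2 * N) * ENNReal.ofReal ((Tw n D)^[N] f u) := funext fun u => ih u
    rw [h1, CV2_TT D n hD hn _ (Tw_nonneg n D f hf N), ← pow_add, Nat.mul_succ]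

end FDr
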