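import Pool.Agent.Lib.MP_e029a2_pr.FM3
import Pool.Agent.Lib.MP_e029a2_pr.CV2
import Pool.Agent.Lib.MP_e029a2_pr.FR7

/-!
# Job FM4: the chain meets a far set of lines with small probability

* `gB u ≤ ∑_{b ∈ B} ∑_{1 ≤ a ≤ n} ∑_{l ∈ inj} dw 1_{u + sumv (l.take a) = b}` (union bound).  So by linearity
  `(PP)^[k] gB v ≤ ∑_{b} ∑_a ∑_{l ∈ inj} dw (PP)^[k] (1_{b - sumv (l.take a)}) v`
  `≤ card B * n * qn * qn^k * ofReal (C0 ph D k)` (`PP_iter` for `f = ind w` and `Pw_exact`).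
* If `v` is at `ℓ¹`-distance `≥ ρ` from `B` and `n (k+1) < ρ`, then `(PP)^[k] gB v = 0`: a path of `k` words and `a ≤ n`
  more steps has `ℓ¹`-length `≤ n k + n < ρ`.  (Prove: `(PP)^[k] f v = 0` if `f = 0` at all the points at distance
  `≤ n k` from `v`; and `gB u = 0` if `u` is at distance `> n` from `B`; the `ℓ¹`-norm of `dv d` is `1`.)
* So `∑_{k<N} (PP)^[k] gB v qn^(N-1-k) ≤ qn^N card B n C0 ∑_{k ≥ K} ph D k` for `ρ > n (K+1)`, and for `D ≥ 4`:
  `ph D k ≤ 1/(k+1)²`, the tail of a convergent series, `∑_{k ≥ K} 1/(k+1)² ≤ 1/K`.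
(In this statement `ε` is arbitrary and `ρ` depends on `B` and `ε`.)
-/

set_option autoImplicit false

namespace FDr

open MeasureTheory
open scoped ENNReal

/-- the `ℓ¹` norm -/
def FM4nn {D : ℕ} (v : V D) : ℤ := ∑ i, |v i|

theorem FM4nn_add {D : ℕ} (v w : V D) : FM4nn (v + w) ≤ FM4nn v + FM4nn w := by
  unfold FM4nn
  rw [← Finset.sum_add_distrib]
  exact Finset.sum_le_sum fun i _ => abs_add_le _ _

theorem FM4nn_dv {D : ℕ} (d : Dir D) : FM4nn (dv d) = 1 := by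
  unfold FM4nn dv
  rw [Finset.sum_eq_single d.1]
  · rw [Pi.single_eq_same]
    unfold sg
    cases d.2 <;> simp
  · intro b _ hb
    rw [Pi.single_eq_of_ne hb, abs_zero]
  · intro h
    exact absurd (Finset.mem_univ _) h

theorem FM4nn_sumv {D : ℕ} (l : List (Dir D)) : FM4nn (sumv l) ≤ l.length := by
  induction l with
  | nil =>
    have : FM4nn (sumv ([] : List (Dir D))) = 0 := by
      unfold FM4nn sumv
      simp
    rw [this]
    simp
  | cons d l ih =>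
    have e : sumv (d :: l) = dv d + sumv l := by
      unfold sumv
      rw [List.map_cons, List.sum_cons]
    rw [e, List.length_cons]
    have h1 := FM4nn_add (dv d) (sumv l)
    rw [FM4nn_dv] at h1
    push_cast
    linarith

theorem FM4_len {D n : ℕ} {l : List (Dir D)} (h : l ∈ inj D n) : l.length = n := by
  unfold inj at h
  obtain ⟨h1, -⟩ := Finset.mem_filter.1 h
  obtain ⟨v, -, rfl⟩ := Finset.mem_image.1 h1
  exact v.toList_length

theorem FM4_mono {D n : ℕ} (f g : V D → ℝ≥0∞) (h : ∀ u, f u ≤ g u) (k : ℕ) (v : V D) :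
    (PP D n)^[k] f v ≤ (PP D n)^[k] g v := by
  induction k generalizing v with
  | zero => exact h v
  | succ k ih =>
    rw [Function.iterate_succ_apply', Function.iterate_succ_apply']
    exact Finset.sum_le_sum fun l _ => mul_le_mul' le_rfl (ih _)

theorem FM4_lin {D n : ℕ} {ι : Type*} (I : Finset ι) (c : ι → ℝ≥0∞) (f : ι → V D → ℝ≥0∞) (k : ℕ) (v : V D) :
    (PP D n)^[k] (fun u => ∑ i ∈ I, c i * f i u) v = ∑ i ∈ I, c i * (PP D n)^[k] (f i) v := by
  induction k generalizing v with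
  | zero => rfl
  | succ k ih =>
    rw [Function.iterate_succ_apply']
    have e : (PP D n)^[k] (fun u => ∑ i ∈ I, c i * f i u) = fun v => ∑ i ∈ I, c i * (PP D n)^[k] (f i) v := funext ih
    rw [e]
    show ∑ l ∈ inj D n, dw D n * ∑ i ∈ I, c i * (PP D n)^[k] (f i) (v + sumv l) = _
    have e2 : ∀ i ∈ I, c i * (PP D n)^[k + 1] (f i) v =
        ∑ l ∈ inj D n, dw D n * (c i * (PP D n)^[k] (f i) (v + sumv l)) := by
      intro i _
      rw [Function.iterate_succ_apply']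
      show c i * ∑ l ∈ inj D n, dw D n * (PP D n)^[k] (f i) (v + sumv l) = _
      rw [Finset.mul_sum]
      exact Finset.sum_congr rfl fun l _ => by ring
    rw [Finset.sum_congr rfl e2, Finset.sum_comm]
    exact Finset.sum_congr rfl fun l _ => by rw [Finset.mul_sum]

theorem FM4_supp {D n : ℕ} (f : V D → ℝ≥0∞) (k : ℕ) (v : V D)
    (h : ∀ u, FM4nn (u - v) ≤ n * k → f u = 0) : (PP D n)^[k] f v = 0 := by
  induction k generalizing v with
  | zero =>
    refine h v ?_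
    rw [sub_self]
    unfold FM4nn
    simp
  | succ k ih =>
    rw [Function.iterate_succ_apply']
    refine Finset.sum_eq_zero fun l hl => ?_
    rw [ih (v + sumv l) ?_, mul_zero]
    intro u hu
    refine h u ?_
    have e : u - v = (u - (v + sumv l)) + sumv l := by abel
    rw [e]
    have h1 := FM4nn_add (u - (v + sumv l)) (sumv l)
    have h2 := FM4nn_sumv l
    rw [FM4_len hl] at h2
    push_cast at hu ⊢
    linarith

/-- the points visited by the words -/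
theorem FM4_gB_zero {D n : ℕ} (B : Finset (Fin D → ℤ)) (u : V D) (h : ∀ b ∈ B, (n : ℤ) < FM4nn (u - b)) :
    gB D n B u = 0 := by
  unfold gB
  rw [Finset.sum_eq_zero]
  intro l hl
  exfalso
  obtain ⟨h1, h2⟩ := Finset.mem_filter.1 hl
  refine h2 ?_
  intro a _ ha hB
  have h3 := h _ hB
  have e : u - (u + sumv (l.take a)) = -sumv (l.take a) := by abel
  rw [e] at h3
  have e2 : FM4nn (-sumv (l.take a)) = FM4nn (sumv (l.take a)) := by
    unfold FM4nn
    exact Finset.sum_congr rfl fun i _ => by rw [Pi.neg_apply, abs_neg]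
  rw [e2] at h3
  have h4 := FM4nn_sumv (l.take a)
  have h5 : (l.take a).length ≤ n := by
    rw [List.length_take]
    exact le_trans (min_le_right _ _) (FM4_len h1).le
  have h6 : ((l.take a).length : ℤ) ≤ n := by exact_mod_cast h5
  linarith

theorem FM4_gB_le {D n : ℕ} (B : Finset (Fin D → ℤ)) (u : V D) :
    gB D n B u ≤ ∑ t ∈ B ×ˢ (Finset.Icc 1 n ×ˢ inj D n), dw D n * ENNReal.ofReal (ind (t.1 - sumv (t.2.2.take t.2.1)) u) := by
  have hswap : ∑ t ∈ B ×ˢ (Finset.Icc 1 n ×ˢ inj D n), dw D n * ENNReal.ofReal (ind (t.1 - sumv (t.2.2.take t.2.1)) u) =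
      ∑ l ∈ inj D n, ∑ b ∈ B, ∑ a ∈ Finset.Icc 1 n, dw D n * ENNReal.ofReal (ind (b - sumv (l.take a)) u) := by
    rw [Finset.sum_product]
    have e1 : ∀ b ∈ B, ∑ y ∈ Finset.Icc 1 n ×ˢ inj D n, dw D n * ENNReal.ofReal (ind (b - sumv (y.2.take y.1)) u) =
        ∑ l ∈ inj D n, ∑ a ∈ Finset.Icc 1 n, dw D n * ENNReal.ofReal (ind (b - sumv (l.take a)) u) := by
      intro b _
      rw [Finset.sum_product_right]
    rw [Finset.sum_congr rfl e1, Finset.sum_comm]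
  rw [hswap]
  unfold gB
  rw [Finset.sum_filter]
  refine Finset.sum_le_sum fun l hl => ?_
  by_cases h : okl B u l
  · rw [if_neg (not_not_intro h)]
    exact bot_le
  · rw [if_pos h]
    have h' : ∃ a, 1 ≤ a ∧ a ≤ l.length ∧ u + sumv (l.take a) ∈ B := by
      by_contra hc
      refine h fun a ha1 ha2 hb => hc ⟨a, ha1, ha2, hb⟩
    obtain ⟨a, ha1, ha2, hb⟩ := h'
    have h1 : dw D n = dw D n * ENNReal.ofReal (ind ((u + sumv (l.take a)) - sumv (l.take a)) u) := by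
      unfold ind
      rw [if_pos (by abel), ENNReal.ofReal_one, mul_one]
    calc dw D n = dw D n * ENNReal.ofReal (ind ((u + sumv (l.take a)) - sumv (l.take a)) u) := h1
      _ ≤ ∑ a' ∈ Finset.Icc 1 n, dw D n * ENNReal.ofReal (ind ((u + sumv (l.take a)) - sumv (l.take a')) u) :=
        Finset.single_le_sum (f := fun a' => dw D n * ENNReal.ofReal (ind ((u + sumv (l.take a)) - sumv (l.take a')) u))
          (fun _ _ => bot_le) (Finset.mem_Icc.2 ⟨ha1, by rw [← FM4_len hl]; exact ha2⟩)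
      _ ≤ ∑ b ∈ B, ∑ a' ∈ Finset.Icc 1 n, dw D n * ENNReal.ofReal (ind (b - sumv (l.take a')) u) :=
        Finset.single_le_sum (f := fun b => ∑ a' ∈ Finset.Icc 1 n, dw D n * ENNReal.ofReal (ind (b - sumv (l.take a')) u))
          (fun _ _ => bot_le) hb

theorem FM4_iter {D n : ℕ} (hn : 1 ≤ n) (hD : n ≤ D) (B : Finset (Fin D → ℤ)) {C : ℝ}
    (hC : ∀ (N : ℕ) (w v : V D), (Pw n D)^[N] (ind w) v ≤ C * ph D N) (k : ℕ) (v : V D) :
    (PP D n)^[k] (gB D n B) v ≤ ((B.card * n : ℕ) : ℝ≥0∞) * (qn D n ^ (k + 1) * ENNReal.ofReal (C * ph D k)) := by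
  refine le_trans (FM4_mono _ _ (FM4_gB_le B) k v) ?_
  rw [FM4_lin]
  have h1 : ∀ t ∈ B ×ˢ (Finset.Icc 1 n ×ˢ inj D n),
      dw D n * (PP D n)^[k] (fun u => ENNReal.ofReal (ind (t.1 - sumv (t.2.2.take t.2.1)) u)) v ≤
        dw D n * (qn D n ^ k * ENNReal.ofReal (C * ph D k)) := by
    intro t _
    refine mul_le_mul' le_rfl ?_
    rw [PP_iter D n (le_trans hn hD) hD _ (fun v => by unfold ind; split_ifs <;> norm_num) k v]
    exact mul_le_mul' le_rfl (ENNReal.ofReal_le_ofReal (hC k _ v))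
  refine le_trans (Finset.sum_le_sum h1) ?_
  rw [Finset.sum_const, Finset.card_product, Finset.card_product, Nat.card_Icc, Nat.add_sub_cancel, nsmul_eq_mul]
  refine le_of_eq ?_
  unfold qn
  push_cast
  ring

theorem FM4_tail {K : ℕ} (hK : 1 ≤ K) (m : ℕ) :
    ∑ j ∈ Finset.range m, 1 / (((K + j : ℕ) : ℝ) + 1) ^ 2 ≤ 1 / (K : ℝ) - 1 / ((K + m : ℕ) : ℝ) := by
  induction m with
  | zero => simp
  | succ m ih =>
    rw [Finset.sum_range_succ]
    have hK0 : (0 : ℝ) < K := by exact_mod_cast hK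
    have h0 : (0 : ℝ) < ((K + m : ℕ) : ℝ) := by push_cast; positivity
    have h1 : 1 / (((K + m : ℕ) : ℝ) + 1) ^ 2 ≤ 1 / ((K + m : ℕ) : ℝ) - 1 / ((K + (m + 1) : ℕ) : ℝ) := by
      have e : ((K + (m + 1) : ℕ) : ℝ) = ((K + m : ℕ) : ℝ) + 1 := by push_cast; ring
      rw [e]
      generalize ((K + m : ℕ) : ℝ) = x at h0 ⊢
      rw [div_sub_div _ _ h0.ne' (by positivity), div_le_div_iff₀ (by positivity) (by positivity)]
      nlinarith
    linarith

theorem FM4_ph {D : ℕ} (hD4 : 4 ≤ D) (k : ℕ) : ph D k ≤ 1 / ((k : ℝ) + 1) ^ 2 := by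
  unfold ph
  have h1 : 1 ≤ Real.sqrt ((k : ℝ) + 1) := by
    rw [Real.one_le_sqrt]
    have : (0 : ℝ) ≤ k := Nat.cast_nonneg k
    linarith
  have h2 : (Real.sqrt ((k : ℝ) + 1))⁻¹ ≤ 1 := inv_le_one_of_one_le₀ h1
  have h3 : 0 ≤ (Real.sqrt ((k : ℝ) + 1))⁻¹ := by positivity
  refine le_trans (pow_le_pow_of_le_one h3 h2 hD4) ?_
  have h4 : Real.sqrt ((k : ℝ) + 1) ^ 2 = (k : ℝ) + 1 := Real.sq_sqrt (by positivity)
  rw [inv_pow, one_div]
  have h5 : Real.sqrt ((k : ℝ) + 1) ^ 4 = ((k : ℝ) + 1) ^ 2 := by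
    calc Real.sqrt ((k : ℝ) + 1) ^ 4 = (Real.sqrt ((k : ℝ) + 1) ^ 2) ^ 2 := by ring
      _ = _ := by rw [h4]
  rw [h5]

theorem FM4_sum {D n : ℕ} (hn : 1 ≤ n) (hD : n ≤ D) (hD4 : 4 ≤ D) (B : Finset (Fin D → ℤ)) {C : ℝ} (hC0 : 0 < C)
    (hC : ∀ (N : ℕ) (w v : V D), (Pw n D)^[N] (ind w) v ≤ C * ph D N) {K : ℕ} (hK : 1 ≤ K) (m : ℕ) (v : V D) :
    ∑ j ∈ Finset.range m, (PP D n)^[K + j] (gB D n B) v * qn D n ^ (K + m - 1 - (K + j)) ≤
      qn D n ^ (K + m) * ENNReal.ofReal ((B.card * n : ℕ) * (C * (1 / K))) := by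
  have h1 : ∀ j ∈ Finset.range m, (PP D n)^[K + j] (gB D n B) v * qn D n ^ (K + m - 1 - (K + j)) ≤
      qn D n ^ (K + m) * ENNReal.ofReal ((B.card * n : ℕ) * (C * (1 / (((K + j : ℕ) : ℝ) + 1) ^ 2))) := by
    intro j hj
    have hj' := Finset.mem_range.1 hj
    refine le_trans (mul_le_mul' (FM4_iter hn hD B hC (K + j) v) le_rfl) ?_
    have h2 : ENNReal.ofReal (C * ph D (K + j)) ≤ ENNReal.ofReal (C * (1 / (((K + j : ℕ) : ℝ) + 1) ^ 2)) :=
      ENNReal.ofReal_le_ofReal (mul_le_mul_of_nonneg_left (FM4_ph hD4 (K + j)) hC0.le)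
    have e : qn D n ^ (K + m) = qn D n ^ (K + j + 1) * qn D n ^ (K + m - 1 - (K + j)) := by
      rw [← pow_add]
      congr 1
      omega
    rw [ENNReal.ofReal_mul (Nat.cast_nonneg _), ENNReal.ofReal_natCast, e]
    calc ((B.card * n : ℕ) : ℝ≥0∞) * (qn D n ^ (K + j + 1) * ENNReal.ofReal (C * ph D (K + j))) * qn D n ^ (K + m - 1 - (K + j))
        ≤ ((B.card * n : ℕ) : ℝ≥0∞) * (qn D n ^ (K + j + 1) * ENNReal.ofReal (C * (1 / (((K + j : ℕ) : ℝ) + 1) ^ 2))) * qn D n ^ (K + m - 1 - (K + j)) :=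
          mul_le_mul' (mul_le_mul' le_rfl (mul_le_mul' le_rfl h2)) le_rfl
      _ = _ := by ring
  refine le_trans (Finset.sum_le_sum h1) ?_
  rw [← Finset.mul_sum, ← ENNReal.ofReal_sum_of_nonneg (fun j _ => by positivity)]
  refine mul_le_mul' le_rfl (ENNReal.ofReal_le_ofReal ?_)
  rw [← Finset.mul_sum, ← Finset.mul_sum]
  refine mul_le_mul_of_nonneg_left (mul_le_mul_of_nonneg_left ?_ hC0.le) (Nat.cast_nonneg _)
  refine le_trans (FM4_tail hK m) ?_
  have : (0 : ℝ) ≤ 1 / ((K + m : ℕ) : ℝ) := by positivity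
  linarith

theorem gB_small (n : ℕ) (hn : 1 ≤ n) (D : ℕ) (hD : n ≤ D) (hD4 : 4 ≤ D) (B : Finset (Fin D → ℤ))
    (ε : ℝ) (hε : 0 < ε) : ∃ ρ : ℕ, ∀ v : V D, (∀ b ∈ B, (ρ : ℤ) ≤ ∑ i, |v i - b i|) → ∀ N : ℕ,
      ∑ k ∈ Finset.range N, (PP D n)^[k] (gB D n B) v * qn D n ^ (N - 1 - k) ≤
        qn D n ^ N * ENNReal.ofReal ε := by
  obtain ⟨C, hC0, hC⟩ := Pw_exact n D hn hD
  obtain ⟨K0, hK0⟩ := exists_nat_gt (((B.card * n : ℕ) : ℝ) * C / ε)
  have hK1 : 1 ≤ K0 + 1 := Nat.le_add_left _ _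
  set K := K0 + 1 with hKdef
  refine ⟨n * K + 1, fun v hv N => ?_⟩
  have hv' : ∀ b ∈ B, ((n * K + 1 : ℕ) : ℤ) ≤ FM4nn (v - b) := fun b hb => hv b hb
  have hz : ∀ k < K, (PP D n)^[k] (gB D n B) v = 0 := by
    intro k hk
    refine FM4_supp _ k v fun u hu => FM4_gB_zero B u fun b hb => ?_
    have h1 := hv' b hb
    have e : v - b = (u - b) + -(u - v) := by abel
    have h2 := FM4nn_add (u - b) (-(u - v))
    rw [← e] at h2
    have e2 : FM4nn (-(u - v)) = FM4nn (u - v) := by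
      unfold FM4nn
      exact Finset.sum_congr rfl fun i _ => by rw [Pi.neg_apply, abs_neg]
    rw [e2] at h2
    have h3 : n * (k + 1) ≤ n * K := Nat.mul_le_mul_left n hk
    have h4 : ((n * (k + 1) : ℕ) : ℤ) ≤ ((n * K : ℕ) : ℤ) := by exact_mod_cast h3
    push_cast at h1 h4
    nlinarith
  rcases le_or_gt N K with hN | hN
  · rw [Finset.sum_eq_zero]
    · exact bot_le
    · intro k hk
      rw [hz k (lt_of_lt_of_le (Finset.mem_range.1 hk) hN), zero_mul]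
  · obtain ⟨m, rfl⟩ : ∃ m, N = K + m := ⟨N - K, by omega⟩
    rw [Finset.sum_range_add]
    have h0 : ∑ x ∈ Finset.range K, (PP D n)^[x] (gB D n B) v * qn D n ^ (K + m - 1 - x) = 0 :=
      Finset.sum_eq_zero fun k hk => by rw [hz k (Finset.mem_range.1 hk), zero_mul]
    rw [h0, zero_add]
    refine le_trans (FM4_sum hn hD hD4 B hC0 hC hK1 m v) ?_
    refine mul_le_mul' le_rfl (ENNReal.ofReal_le_ofReal ?_)
    have hKr : (0 : ℝ) < K := by exact_mod_cast hK1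
    have h1 : (((B.card * n : ℕ) : ℝ)) * C / ε < K := lt_trans hK0 (by rw [hKdef]; push_cast; linarith)
    rw [div_lt_iff₀ hε] at h1
    have e : ((B.card * n : ℕ) : ℝ) * (C * (1 / K)) = ((B.card * n : ℕ) : ℝ) * C / K := by ring
    rw [e, div_le_iff₀ hKr]
    linarith

end FDr
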