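import Pool.Agent.Lib.MP_e029a2_pr.G2
import Pool.Agent.Lib.MP_e029a2_pr.CV2
import Pool.Agent.Lib.MP_e029a2_pr.FR7

/-!
# Job G3: (AN2) the Green function

First claim: `srw ≤ 1` (it is an average), so `Gam h v ≤ ∑'_j hz j h ≤ G` (`hz_green`).
Second claim: `srw D j v ≤ ofReal (C0 ph D j)` (`srw_eq`, `Qd_exact`).  Let `s > 1`, `K = kap s < ∞` (`exists_upper`),
`K ≥ 1` may be assumed (replace `K` by `max K 1`).  Choose a natural `L ≥ 1` with `K^(1/L) ≤ s^(1/2)`, i.e.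
`K² ≤ s^L`.  For `j ≤ m/L` (i.e. `L j ≤ m`): `hz j m ≤ K^j s^(-m)` (`hz_le`), and `(K^j)² = (K²)^j ≤ s^(L j) ≤ s^m`, so
`K^j ≤ s^(m/2)` and `hz j m ≤ (√s)^(-m)`.  So the part `j ≤ m/L` of the sum is at most
`(m+1) (√s)^(-m) ≤ C ph D m` (exponential beats polynomial: `(m+1) (√(m+1))^D (√s)^(-m)` is bounded).
For `j > m/L`: `j + 1 ≥ (m+1)/L`, `ph D j ≤ (√L)^D ph D m`, so this part is at most `C0 (√L)^D ph D m * G`.
-/

set_option autoImplicit false

namespace FDr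

open MeasureTheory
open scoped ENNReal

theorem G3_sqrt_one (m : ℕ) : 1 ≤ Real.sqrt ((m : ℝ) + 1) := by
  rw [Real.one_le_sqrt]
  have : (0 : ℝ) ≤ m := Nat.cast_nonneg m
  linarith

theorem G3_ph_pos (D m : ℕ) : 0 < ph D m := by
  unfold ph
  have := G3_sqrt_one m
  positivity

theorem G3_ph_le_one (D m : ℕ) : ph D m ≤ 1 := by
  unfold ph
  have := G3_sqrt_one m
  exact pow_le_one₀ (by positivity) (inv_le_one_of_one_le₀ this)

theorem G3_ph_compare (D : ℕ) {L m j : ℕ} (h : m + 1 ≤ L * (j + 1)) :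
    ph D j ≤ Real.sqrt L ^ D * ph D m := by
  unfold ph
  rw [← mul_pow]
  have h1 := G3_sqrt_one m
  have h2 := G3_sqrt_one j
  refine pow_le_pow_left₀ (by positivity) ?_ D
  rw [← div_eq_mul_inv, inv_eq_one_div, div_le_div_iff₀ (by linarith) (by linarith), one_mul,
    ← Real.sqrt_mul (Nat.cast_nonneg L)]
  refine Real.sqrt_le_sqrt ?_
  exact_mod_cast h

theorem G3_exp (D : ℕ) {s : ℝ} (hs : 1 < s) : ∃ C : ℝ, 0 < C ∧ ∀ m : ℕ,
    ((m : ℝ) + 1) * (Real.sqrt s)⁻¹ ^ m ≤ C * ph D m := by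
  have hs1 : 1 < Real.sqrt s := by
    rw [Real.lt_sqrt zero_le_one, one_pow]
    exact hs
  have hr0 : 0 < (Real.sqrt s)⁻¹ := by positivity
  have hr1 : (Real.sqrt s)⁻¹ < 1 := inv_lt_one_of_one_lt₀ hs1
  have h1 := tendsto_pow_const_mul_const_pow_of_abs_lt_one (D + 1) (r := (Real.sqrt s)⁻¹) (by rwa [abs_of_pos hr0])
  obtain ⟨M, hM⟩ := h1.bddAbove_range
  have hM' : ∀ n : ℕ, (n : ℝ) ^ (D + 1) * (Real.sqrt s)⁻¹ ^ n ≤ M := fun n => hM ⟨n, rfl⟩
  refine ⟨(|M| + 1) * Real.sqrt s, by positivity, fun m => ?_⟩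
  have h2 := hM' (m + 1)
  push_cast at h2
  have h3 : ph D m * ((m : ℝ) + 1) ^ D ≥ 1 := by
    unfold ph
    rw [← mul_pow]
    refine one_le_pow₀ ?_
    have h4 := G3_sqrt_one m
    rw [inv_mul_eq_div, one_le_div (by linarith)]
    have h5 : Real.sqrt ((m : ℝ) + 1) * Real.sqrt ((m : ℝ) + 1) = (m : ℝ) + 1 :=
      Real.mul_self_sqrt (by positivity)
    nlinarith
  have hph := G3_ph_pos D m
  have h4 : ((m : ℝ) + 1) * (Real.sqrt s)⁻¹ ^ m ≤ ((m : ℝ) + 1) * (Real.sqrt s)⁻¹ ^ m * (ph D m * ((m : ℝ) + 1) ^ D) :=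
    le_mul_of_one_le_right (by positivity) h3
  refine h4.trans ?_
  have h5 : ((m : ℝ) + 1) * (Real.sqrt s)⁻¹ ^ m * (ph D m * ((m : ℝ) + 1) ^ D) =
      (((m : ℝ) + 1) ^ (D + 1) * (Real.sqrt s)⁻¹ ^ (m + 1)) * Real.sqrt s * ph D m := by
    have h6 : (Real.sqrt s)⁻¹ ^ (m + 1) * Real.sqrt s = (Real.sqrt s)⁻¹ ^ m := by
      rw [pow_succ, mul_assoc, inv_mul_cancel₀ (by positivity), mul_one]
    calc ((m : ℝ) + 1) * (Real.sqrt s)⁻¹ ^ m * (ph D m * ((m : ℝ) + 1) ^ D)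
        = ((m : ℝ) + 1) ^ (D + 1) * (Real.sqrt s)⁻¹ ^ m * ph D m := by ring
      _ = ((m : ℝ) + 1) ^ (D + 1) * ((Real.sqrt s)⁻¹ ^ (m + 1) * Real.sqrt s) * ph D m := by rw [h6]
      _ = _ := by ring
  rw [h5]
  refine mul_le_mul_of_nonneg_right (mul_le_mul_of_nonneg_right ?_ (by positivity)) hph.le
  have h7 := le_abs_self M
  linarith

theorem G3_hz (w α : Set.Ioo (0 : ℝ) 1) {s K : ℝ} (hs : 1 < s) (hK1 : 1 ≤ K) (hK : kap w α s ≤ ENNReal.ofReal K)
    {L : ℕ} (hL : K ^ 2 ≤ s ^ L) {j m : ℕ} (hj : L * j ≤ m) :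
    hz w α j m ≤ ENNReal.ofReal ((Real.sqrt s)⁻¹ ^ m) := by
  have hs0 : 0 < s := by linarith
  have h1 := hz_le w α s hs0 j m
  refine h1.trans ?_
  have h2 : kap w α s ^ j * ENNReal.ofReal (s ^ (-(m : ℤ))) ≤ ENNReal.ofReal (K ^ j * s ^ (-(m : ℤ))) := by
    rw [ENNReal.ofReal_mul (by positivity), ENNReal.ofReal_pow (by linarith)]
    exact mul_le_mul_left (pow_le_pow_left' hK j) _
  refine h2.trans (ENNReal.ofReal_le_ofReal ?_)
  have h3 : (K ^ j) ^ 2 ≤ (Real.sqrt s ^ m) ^ 2 := by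
    calc (K ^ j) ^ 2 = (K ^ 2) ^ j := by ring
      _ ≤ (s ^ L) ^ j := pow_le_pow_left₀ (by positivity) hL j
      _ = s ^ (L * j) := by rw [pow_mul]
      _ ≤ s ^ m := pow_le_pow_right₀ hs.le hj
      _ = (Real.sqrt s ^ m) ^ 2 := by
        rw [← pow_mul, mul_comm m 2, pow_mul, Real.sq_sqrt hs0.le]
  have h4 : K ^ j ≤ Real.sqrt s ^ m := by
    refine (pow_le_pow_iff_left₀ (by positivity) (by positivity) two_ne_zero).1 h3
  have h5 : Real.sqrt s ^ m * s ^ (-(m : ℤ)) = (Real.sqrt s)⁻¹ ^ m := by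
    have h6 : s ^ m = Real.sqrt s ^ m * Real.sqrt s ^ m := by
      rw [← mul_pow, Real.mul_self_sqrt hs0.le]
    have h7 : Real.sqrt s ^ m ≠ 0 := by positivity
    rw [zpow_neg, zpow_natCast, h6, inv_pow, mul_inv, ← mul_assoc, mul_inv_cancel₀ h7, one_mul]
  rw [← h5]
  exact mul_le_mul_of_nonneg_right h4 (by positivity)

theorem an2' (w α : Set.Ioo (0 : ℝ) 1) (D : ℕ) (hD : 3 ≤ D) : ∃ C : ℝ, 0 < C ∧
    (∀ (h : ℤ) (v : Fin D → ℤ), Gam w α D h v ≤ ENNReal.ofReal C) ∧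
      ∀ (m : ℕ) (v : Fin D → ℤ), Gam w α D m v ≤ ENNReal.ofReal (C * ph D m) := by
  obtain ⟨G, hG0, hG⟩ := hz_green w α
  obtain ⟨C0, hC0, hQ⟩ := Qd_exact D (by omega)
  obtain ⟨s, hs, hKtop⟩ := exists_upper w α
  obtain ⟨C1, hC1, hE⟩ := G3_exp D hs
  obtain ⟨K, hKd⟩ : ∃ K : ℝ, K = max (kap w α s).toReal 1 := ⟨_, rfl⟩
  have hK1 : 1 ≤ K := by
    rw [hKd]
    exact le_max_right _ _
  have hK : kap w α s ≤ ENNReal.ofReal K := by
    rw [← ENNReal.ofReal_toReal hKtop.ne, hKd]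
    exact ENNReal.ofReal_le_ofReal (le_max_left _ _)
  obtain ⟨L, hL⟩ := pow_unbounded_of_one_lt (K ^ 2) hs
  have hL1 : 1 ≤ L := by
    rcases Nat.eq_zero_or_pos L with h0 | h0
    · rw [h0, pow_zero] at hL
      nlinarith
    · exact h0
  have hsrw : ∀ j v, srw D j v ≤ ENNReal.ofReal (C0 * ph D j) := by
    intro j v
    rw [srw_eq D (by omega)]
    exact ENNReal.ofReal_le_ofReal (hQ j 0 v)
  have hsrw1 : ∀ j v, srw D j v ≤ ENNReal.ofReal C0 := by
    intro j v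
    refine (hsrw j v).trans (ENNReal.ofReal_le_ofReal ?_)
    exact mul_le_of_le_one_right hC0.le (G3_ph_le_one D j)
  have hpart1 : ∀ h v, Gam w α D h v ≤ ENNReal.ofReal (G * C0) := by
    intro h v
    unfold Gam
    calc ∑' j : ℕ, hz w α j h * srw D j v ≤ ∑' j : ℕ, hz w α j h * ENNReal.ofReal C0 :=
          ENNReal.tsum_le_tsum fun j => mul_le_mul_right (hsrw1 j v) _
      _ = (∑' j : ℕ, hz w α j h) * ENNReal.ofReal C0 := ENNReal.tsum_mul_right
      _ ≤ ENNReal.ofReal G * ENNReal.ofReal C0 := mul_le_mul_left (hG h) _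
      _ = ENNReal.ofReal (G * C0) := (ENNReal.ofReal_mul hG0.le).symm
  have hpart2 : ∀ (m : ℕ) v, Gam w α D m v ≤ ENNReal.ofReal ((C0 * C1 + G * C0 * Real.sqrt L ^ D) * ph D m) := by
    intro m v
    have hph := G3_ph_pos D m
    have hterm : ∀ j : ℕ, hz w α j m * srw D j v ≤
        (if j < m + 1 then ENNReal.ofReal ((Real.sqrt s)⁻¹ ^ m * C0) else 0) +
          hz w α j m * ENNReal.ofReal (C0 * (Real.sqrt L ^ D * ph D m)) := by
      intro j
      by_cases hj : L * j ≤ m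
      · have hj' : j < m + 1 := by
          have : 1 * j ≤ L * j := Nat.mul_le_mul_right j hL1
          omega
        rw [if_pos hj']
        refine le_add_right ?_
        rw [ENNReal.ofReal_mul (by positivity)]
        exact mul_le_mul' (G3_hz w α hs hK1 hK hL.le hj) (hsrw1 j v)
      · refine le_add_left (mul_le_mul_right ((hsrw j v).trans (ENNReal.ofReal_le_ofReal ?_)) _)
        refine mul_le_mul_of_nonneg_left (G3_ph_compare D ?_) hC0.le
        have : L * (j + 1) = L * j + L := by ring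
        omega
    unfold Gam
    calc ∑' j : ℕ, hz w α j m * srw D j v ≤
        ∑' j : ℕ, ((if j < m + 1 then ENNReal.ofReal ((Real.sqrt s)⁻¹ ^ m * C0) else 0) +
          hz w α j m * ENNReal.ofReal (C0 * (Real.sqrt L ^ D * ph D m))) := ENNReal.tsum_le_tsum hterm
      _ = (∑' j : ℕ, (if j < m + 1 then ENNReal.ofReal ((Real.sqrt s)⁻¹ ^ m * C0) else 0)) +
          ∑' j : ℕ, hz w α j m * ENNReal.ofReal (C0 * (Real.sqrt L ^ D * ph D m)) := ENNReal.tsum_add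
      _ ≤ ENNReal.ofReal (C0 * C1 * ph D m) + ENNReal.ofReal (G * (C0 * (Real.sqrt L ^ D * ph D m))) := by
          refine add_le_add ?_ ?_
          · rw [tsum_eq_sum (s := Finset.range (m + 1)) (fun j hj => if_neg (by rwa [Finset.mem_range] at hj))]
            rw [Finset.sum_congr rfl (fun j hj => if_pos (Finset.mem_range.1 hj)), Finset.sum_const, Finset.card_range,
              nsmul_eq_mul]
            have h1 : ((m + 1 : ℕ) : ℝ≥0∞) = ENNReal.ofReal ((m : ℝ) + 1) := by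
              rw [← ENNReal.ofReal_natCast]
              push_cast
              rfl
            rw [h1, ← ENNReal.ofReal_mul (by positivity)]
            refine ENNReal.ofReal_le_ofReal ?_
            have h2 := mul_le_mul_of_nonneg_left (hE m) hC0.le
            calc ((m : ℝ) + 1) * ((Real.sqrt s)⁻¹ ^ m * C0) = C0 * (((m : ℝ) + 1) * (Real.sqrt s)⁻¹ ^ m) := by ring
              _ ≤ C0 * (C1 * ph D m) := h2
              _ = C0 * C1 * ph D m := by ring
          · rw [ENNReal.tsum_mul_right, ENNReal.ofReal_mul hG0.le]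
            exact mul_le_mul_left (hG m) _
      _ = ENNReal.ofReal ((C0 * C1 + G * C0 * Real.sqrt L ^ D) * ph D m) := by
          rw [← ENNReal.ofReal_add (by positivity) (by positivity)]
          congr 1
          ring
  refine ⟨G * C0 + (C0 * C1 + G * C0 * Real.sqrt L ^ D), by positivity, fun h v => ?_, fun m v => ?_⟩
  · refine (hpart1 h v).trans (ENNReal.ofReal_le_ofReal ?_)
    have : 0 ≤ C0 * C1 + G * C0 * Real.sqrt L ^ D := by positivity
    linarith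
  · refine (hpart2 m v).trans (ENNReal.ofReal_le_ofReal ?_)
    refine mul_le_mul_of_nonneg_right ?_ (G3_ph_pos D m).le
    have : 0 ≤ G * C0 := by positivity
    linarith

end FDr
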