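import Pool.Agent.Lib.MP_e029a2_pr.FM2
import Pool.Agent.Lib.MP_e029a2_pr.FM4
import Pool.Agent.Lib.MP_e029a2_pr.G3

/-!
# Job FM5: (AN3) the first moment

Let `c` be from `PP_Gam_lower`, `C` from `an2'` (`D ≥ 4`).  For `m = N H - h ≥ N H/2` (large `N`):
`Gam m x ≤ ofReal (C ph D m) ≤ ofReal (C' ph D N)`, `C' = C (√2)^D` (as `m + 1 ≥ (N+1)/2`, `H ≥ 1`); note that
`(N * H - h : ℤ)` is the cast of a natural number `m` for large `N`.
Take `ε = c/(2 C')` in `gB_small`; then by `av_ge` with `F = ofReal (C' ph D N)`: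
`ofReal c q^N ofReal (ph) ≤ av + q^N ofReal ε ofReal (C' ph) = av + q^N ofReal (c ph/2)`, so
`av ≥ q^N ofReal (c ph/2)` (`ENNReal`: everything finite).  The constant is `c/2`.
-/

set_option autoImplicit false

namespace FDr

open MeasureTheory
open scoped ENNReal

private theorem FM5_qn (D n : ℕ) (hD : 1 ≤ D) : qn D n ≠ ⊤ := by
  unfold qn dw
  refine ENNReal.mul_ne_top (ENNReal.natCast_ne_top _) ?_
  rw [ENNReal.inv_ne_top]
  refine pow_ne_zero n (mul_ne_zero two_ne_zero ?_)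
  have : D ≠ 0 := by omega
  exact_mod_cast this

private theorem FM5_ph (D m N : ℕ) (h : N + 1 ≤ 2 * (m + 1)) : ph D m ≤ Real.sqrt 2 ^ D * ph D N := by
  unfold ph
  rw [← mul_pow]
  refine pow_le_pow_left₀ (by positivity) ?_ D
  have h1 : (N : ℝ) + 1 ≤ 2 * (m + 1) := by exact_mod_cast h
  have h2 : Real.sqrt ((N : ℝ) + 1) ≤ Real.sqrt 2 * Real.sqrt ((m : ℝ) + 1) := by
    rw [← Real.sqrt_mul (by norm_num)]
    exact Real.sqrt_le_sqrt h1
  have h3 : 0 < Real.sqrt ((N : ℝ) + 1) := Real.sqrt_pos.2 (by positivity)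
  have h4 : 0 < Real.sqrt ((m : ℝ) + 1) := Real.sqrt_pos.2 (by positivity)
  rw [← div_eq_mul_inv, inv_eq_one_div, div_le_div_iff₀ h4 h3]
  linarith

theorem an3' (w α : Set.Ioo (0 : ℝ) 1) (n H : ℕ) (hn : 4 ≤ n) (hne : Even n) (hH : 1 ≤ H) (D : ℕ) (hD : n ≤ D) :
    ∃ c : ℝ, 0 < c ∧ ∀ B : Finset (Fin D → ℤ), ∃ ρ : ℕ, ∀ v : Fin D → ℤ, evn v →
      (∀ b ∈ B, (ρ : ℤ) ≤ ∑ i, |v i - b i|) → ∀ h : ℤ, ∃ N0 : ℕ, ∀ N : ℕ, N0 ≤ N → Even N →
        ENNReal.ofReal c * qn D n ^ N * ENNReal.ofReal (ph D N) ≤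
          av D n B (fun v => Gam w α D (N * H - h) (-v)) N v := by
  obtain ⟨c, hc, hPP⟩ := PP_Gam_lower w α n H (by omega) hH D hD
  obtain ⟨C, hC, -, hG⟩ := an2' w α D (by omega)
  have hC' : 0 < C * Real.sqrt 2 ^ D := by positivity
  refine ⟨c / 2, half_pos hc, fun B => ?_⟩
  obtain ⟨ρ, hρ⟩ := gB_small n (by omega) D hD (by omega) B (c / (2 * (C * Real.sqrt 2 ^ D))) (by positivity)
  refine ⟨ρ, fun v _ hvB h => ?_⟩
  obtain ⟨N0, hN0⟩ := hPP v h
  refine ⟨max N0 (2 * h.natAbs), fun N hN hNe => ?_⟩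
  have hN1 : N0 ≤ N := (le_max_left _ _).trans hN
  have hN2 : 2 * h.natAbs ≤ N := (le_max_right _ _).trans hN
  have hNH : N ≤ N * H := Nat.le_mul_of_pos_right N hH
  obtain ⟨m, hm⟩ : ∃ m : ℕ, (m : ℤ) = (N : ℤ) * H - h := by
    refine ⟨((N : ℤ) * H - h).toNat, Int.toNat_of_nonneg ?_⟩
    have h1 : ((N : ℤ)) ≤ (N : ℤ) * H := by exact_mod_cast hNH
    omega
  have hmN : N + 1 ≤ 2 * (m + 1) := by
    have h1 : ((N : ℤ)) ≤ (N : ℤ) * H := by exact_mod_cast hNH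
    omega
  have hF : ∀ u : V D, (fun v : V D => Gam w α D (N * H - h) (-v)) u ≤
      ENNReal.ofReal (C * Real.sqrt 2 ^ D * ph D N) := by
    intro u
    show Gam w α D (N * H - h) (-u) ≤ _
    rw [← hm]
    refine (hG m (-u)).trans (ENNReal.ofReal_le_ofReal ?_)
    rw [mul_assoc]
    exact mul_le_mul_of_nonneg_left (FM5_ph D m N hmN) hC.le
  have h1 := av_ge D n B (fun v : V D => Gam w α D (N * H - h) (-v)) _ hF N v
  rw [← Finset.sum_mul] at h1
  have hph : 0 ≤ ph D N := by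
    unfold ph
    positivity
  have h2 := hN0 N hN1 hNe
  have h3 : (∑ k ∈ Finset.range N, (PP D n)^[k] (gB D n B) v * qn D n ^ (N - 1 - k)) *
      ENNReal.ofReal (C * Real.sqrt 2 ^ D * ph D N) ≤
      ENNReal.ofReal (c / 2) * qn D n ^ N * ENNReal.ofReal (ph D N) := by
    refine (mul_le_mul_left (hρ v hvB N) _).trans (le_of_eq ?_)
    have h4 : ENNReal.ofReal (c / (2 * (C * Real.sqrt 2 ^ D))) * ENNReal.ofReal (C * Real.sqrt 2 ^ D * ph D N) =
        ENNReal.ofReal (c / 2) * ENNReal.ofReal (ph D N) := by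
      rw [← ENNReal.ofReal_mul (by positivity), ← ENNReal.ofReal_mul (by positivity)]
      congr 1
      field_simp
    rw [mul_assoc, h4]
    ring
  have h5 : ENNReal.ofReal c * qn D n ^ N * ENNReal.ofReal (ph D N) =
      ENNReal.ofReal (c / 2) * qn D n ^ N * ENNReal.ofReal (ph D N) +
        ENNReal.ofReal (c / 2) * qn D n ^ N * ENNReal.ofReal (ph D N) := by
    have h6 : ENNReal.ofReal c = ENNReal.ofReal (c / 2) + ENNReal.ofReal (c / 2) := by
      rw [← ENNReal.ofReal_add (half_pos hc).le (half_pos hc).le, add_halves]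
    rw [h6]
    ring
  have hX : ENNReal.ofReal (c / 2) * qn D n ^ N * ENNReal.ofReal (ph D N) ≠ ⊤ :=
    ENNReal.mul_ne_top (ENNReal.mul_ne_top ENNReal.ofReal_ne_top (ENNReal.pow_ne_top (FM5_qn D n (by omega))))
      ENNReal.ofReal_ne_top
  rw [h5] at h2
  have h7 := (h2.trans h1).trans (add_le_add_right h3 _)
  exact (ENNReal.add_le_add_iff_right hX).1 h7

end FDr
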