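import Pool.Agent.Lib.MP_e029a2_pr.R5
import Pool.Agent.Lib.MP_e029a2_pr.G3
import Pool.Agent.Lib.MP_e029a2_pr.FM5
import Pool.Agent.Lib.MP_e029a2_pr.AN4

/-!
# The walks: the four statements which are used by the frog model
-/

set_option autoImplicit false

namespace FDr

open MeasureTheory ProbabilityTheory
open scoped ENNReal NNReal

/-- (AN1) the second moment recursion -/
theorem an1 (n : ℕ) (hn : 4 ≤ n) (W C1 : ℝ≥0) (hW : 4 < W) : ∃ D0 : ℕ, ∀ D : ℕ, D0 ≤ D → ∃ C : ℝ, 0 < C ∧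
    ∀ (T : ℕ → ℝ≥0∞) (A : ℕ → (Fin D → ℤ) → ℝ≥0∞) (t0 a0 : ℝ), 0 ≤ t0 → 0 ≤ a0 → Kern D n W C1 T A →
      T 0 ≤ ENNReal.ofReal t0 → (∀ u, A 0 u ≤ ENNReal.ofReal a0) →
      ∀ k, T k ≤ ((W : ℝ≥0∞) * qn D n) ^ (2 * k) * ENNReal.ofReal (C * (a0 + t0 * ph D k)) :=
  an1' n hn W C1 hW

/-- (AN2) the Green function -/
theorem an2 (w α : Set.Ioo (0 : ℝ) 1) (D : ℕ) (hD : 3 ≤ D) : ∃ C : ℝ, 0 < C ∧
    (∀ (h : ℤ) (v : Fin D → ℤ), Gam w α D h v ≤ ENNReal.ofReal C) ∧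
      ∀ (m : ℕ) (v : Fin D → ℤ), Gam w α D m v ≤ ENNReal.ofReal (C * ph D m) :=
  an2' w α D hD

/-- (AN3) the first moment -/
theorem an3 (w α : Set.Ioo (0 : ℝ) 1) (n H : ℕ) (hn : 4 ≤ n) (hne : Even n) (hH : 1 ≤ H) (D : ℕ) (hD : n ≤ D) :
    ∃ c : ℝ, 0 < c ∧ ∀ B : Finset (Fin D → ℤ), ∃ ρ : ℕ, ∀ v : Fin D → ℤ, evn v →
      (∀ b ∈ B, (ρ : ℤ) ≤ ∑ i, |v i - b i|) → ∀ h : ℤ, ∃ N0 : ℕ, ∀ N : ℕ, N0 ≤ N → Even N →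
        ENNReal.ofReal c * qn D n ^ N * ENNReal.ofReal (ph D N) ≤
          av D n B (fun v => Gam w α D (N * H - h) (-v)) N v :=
  an3' w α n H hn hne hH D hD

/-- (AN4) the simple random walk spreads -/
theorem an4 (D : ℕ) (hD : 1 ≤ D) (ε : ℝ≥0∞) (hε : 0 < ε) :
    ∃ j0 : ℕ, ∀ j, j0 ≤ j → ∀ v : Fin D → ℤ, srw D j v ≤ ε :=
  an4' D hD ε hε

end FDr
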