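import Pool.Agent.Lib.MP_e029a2_pr.G1

/-!
# Job G2: the law of the height

* `hz_gen`: induction on `j`: `∑'_h hz (j+1) h s^h = ∑'_h ∑'_k dispP k hz j (h-k) s^k s^(h-k) = kap s * kap s ^ j`
  (`ENNReal.tsum_comm`, the shift `h ↦ h - k` (`Equiv.tsum_eq`), `ENNReal.tsum_mul_left`, `kap_tsum`).
* `hz_sum`: `s = 1` (or the same induction with `dispP_sum`).
* `hz_le`: one term of `hz_gen`: `hz j h * ofReal (s^h) ≤ kap s ^ j`.
* `hz_green`: `∑'_j hz j h ≤ G`.  Max principle: `U J h = ∑_{j ≤ J} hz j h ≤ U J 0` by induction on `J`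
  (`U (J+1) h = (if h = 0 then 1 else 0) + ∑'_k dispP k * U J (h-k)`; for `h ≠ 0` this is `≤ U J 0 ≤ U (J+1) 0`
  by `dispP_sum`; for `h = 0` trivial).  `∑_j hz j 0 ≤ ∑_j kap s ^ j = 1/(1 - kap s) < ∞` with
  `s` from `exists_lower` (`hz_le` at `h = 0`).
* `hz_succ_ge`: one term of the defining sum.
-/

set_option autoImplicit false

namespace FDr

open MeasureTheory
open scoped ENNReal

theorem hz_gen (w α : Set.Ioo (0 : ℝ) 1) (s : ℝ) (hs : 0 < s) (j : ℕ) :
    ∑' h : ℤ, hz w α j h * ENNReal.ofReal (s ^ h) = kap w α s ^ j := by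
  induction j with
  | zero =>
    rw [tsum_eq_single (0 : ℤ)]
    · simp only [hz, if_true, zpow_zero, ENNReal.ofReal_one, mul_one, pow_zero]
    · intro h hh
      simp only [hz, if_neg hh, zero_mul]
  | succ j ih =>
    have e1 : ∀ h : ℤ, hz w α (j + 1) h * ENNReal.ofReal (s ^ h) =
        ∑' k : ℤ, dispP w α k * hz w α j (h - k) * ENNReal.ofReal (s ^ h) := by
      intro h
      rw [ENNReal.tsum_mul_right]
      rfl
    rw [tsum_congr e1, ENNReal.tsum_comm]
    have e2 : ∀ k : ℤ, ∑' h : ℤ, dispP w α k * hz w α j (h - k) * ENNReal.ofReal (s ^ h) =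
        dispP w α k * ENNReal.ofReal (s ^ k) * kap w α s ^ j := by
      intro k
      rw [← ih, ← ENNReal.tsum_mul_left, ← (Equiv.subRight k).tsum_eq
        (fun h : ℤ => dispP w α k * ENNReal.ofReal (s ^ k) * (hz w α j h * ENNReal.ofReal (s ^ h)))]
      refine tsum_congr fun h => ?_
      rw [Equiv.subRight_apply]
      have e3 : s ^ h = s ^ k * s ^ (h - k) := by
        rw [← zpow_add₀ hs.ne']
        congr 1
        ring
      rw [e3, ENNReal.ofReal_mul (zpow_pos hs k).le]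
      ring
    rw [tsum_congr e2, ENNReal.tsum_mul_right, ← kap_tsum w α s hs, pow_succ, mul_comm]

theorem hz_sum (w α : Set.Ioo (0 : ℝ) 1) (j : ℕ) : ∑' h : ℤ, hz w α j h = 1 := by
  have h1 := hz_gen w α 1 one_pos j
  have h2 : kap w α 1 = 1 := by
    rw [kap_tsum w α 1 one_pos, ← dispP_sum w α]
    refine tsum_congr fun k => ?_
    rw [one_zpow, ENNReal.ofReal_one, mul_one]
  rw [h2, one_pow] at h1
  rw [← h1]
  refine tsum_congr fun k => ?_
  rw [one_zpow, ENNReal.ofReal_one, mul_one]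

theorem hz_le (w α : Set.Ioo (0 : ℝ) 1) (s : ℝ) (hs : 0 < s) (j : ℕ) (h : ℤ) :
    hz w α j h ≤ kap w α s ^ j * ENNReal.ofReal (s ^ (-h)) := by
  have h1 : hz w α j h * ENNReal.ofReal (s ^ h) ≤ kap w α s ^ j := by
    rw [← hz_gen w α s hs j]
    exact ENNReal.le_tsum h
  have h2 : ENNReal.ofReal (s ^ h) * ENNReal.ofReal (s ^ (-h)) = 1 := by
    rw [← ENNReal.ofReal_mul (zpow_pos hs h).le, ← zpow_add₀ hs.ne', add_neg_cancel, zpow_zero, ENNReal.ofReal_one]
  calc hz w α j h = hz w α j h * ENNReal.ofReal (s ^ h) * ENNReal.ofReal (s ^ (-h)) := by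
        rw [mul_assoc, h2, mul_one]
    _ ≤ kap w α s ^ j * ENNReal.ofReal (s ^ (-h)) := by gcongr

theorem hz_green (w α : Set.Ioo (0 : ℝ) 1) : ∃ G : ℝ, 0 < G ∧ ∀ h : ℤ,
    ∑' j : ℕ, hz w α j h ≤ ENNReal.ofReal G := by
  obtain ⟨s, hs0, hs1, hk⟩ := exists_lower w α
  have hU : ∀ (J : ℕ) (h : ℤ), ∑ j ∈ Finset.range J, hz w α j h ≤ ∑ j ∈ Finset.range J, hz w α j 0 := by
    intro J
    induction J with
    | zero => intro h; simp
    | succ J ih =>
      intro h
      by_cases hh : h = 0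
      · rw [hh]
      · have e1 : ∑ j ∈ Finset.range (J + 1), hz w α j h =
            ∑' k : ℤ, dispP w α k * ∑ j ∈ Finset.range J, hz w α j (h - k) := by
          rw [Finset.sum_range_succ']
          have e2 : hz w α 0 h = 0 := by
            simp only [hz, if_neg hh]
          rw [e2, add_zero]
          have e3 : ∀ k : ℤ, dispP w α k * ∑ j ∈ Finset.range J, hz w α j (h - k) =
              ∑ j ∈ Finset.range J, dispP w α k * hz w α j (h - k) := fun k => Finset.mul_sum _ _ _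
          rw [tsum_congr e3, Summable.tsum_finsetSum fun i _ => ENNReal.summable]
          rfl
        rw [e1]
        calc ∑' k : ℤ, dispP w α k * ∑ j ∈ Finset.range J, hz w α j (h - k)
            ≤ ∑' k : ℤ, dispP w α k * ∑ j ∈ Finset.range J, hz w α j 0 := by
              refine ENNReal.tsum_le_tsum fun k => ?_
              exact mul_le_mul_right (ih (h - k)) _
          _ = ∑ j ∈ Finset.range J, hz w α j 0 := by
              rw [ENNReal.tsum_mul_right, dispP_sum, one_mul]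
          _ ≤ ∑ j ∈ Finset.range (J + 1), hz w α j 0 := by
              rw [Finset.sum_range_succ]
              exact le_self_add
  have h0 : ∑' j : ℕ, hz w α j 0 ≤ (1 - kap w α s)⁻¹ := by
    rw [← ENNReal.tsum_geometric]
    refine ENNReal.tsum_le_tsum fun j => ?_
    have h1 := hz_le w α s hs0 j 0
    rwa [neg_zero, zpow_zero, ENNReal.ofReal_one, mul_one] at h1
  have hne : (1 - kap w α s)⁻¹ ≠ ∞ := by
    rw [ENNReal.inv_ne_top]
    exact (tsub_pos_of_lt hk).ne'
  have hne0 : (1 - kap w α s)⁻¹ ≠ 0 := by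
    rw [ENNReal.inv_ne_zero]
    exact ENNReal.sub_ne_top ENNReal.one_ne_top
  refine ⟨((1 - kap w α s)⁻¹).toReal, ENNReal.toReal_pos hne0 hne, fun h => ?_⟩
  rw [ENNReal.ofReal_toReal hne, ENNReal.tsum_eq_iSup_nat]
  refine iSup_le fun J => ?_
  exact (hU J h).trans ((ENNReal.sum_le_tsum _).trans h0)

theorem hz_succ_ge (w α : Set.Ioo (0 : ℝ) 1) (j : ℕ) (h k : ℤ) :
    dispP w α k * hz w α j h ≤ hz w α (j + 1) (h + k) := by
  have h1 : dispP w α k * hz w α j (h + k - k) ≤ hz w α (j + 1) (h + k) :=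
    ENNReal.le_tsum (f := fun k' : ℤ => dispP w α k' * hz w α j (h + k - k')) k
  rwa [add_sub_cancel_right] at h1

end FDr
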