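import Mathlib

/-!
# The frog model with drift on `ℤ^(D+1)`: definitions

`ℤ^(D+1) = ℤ × ℤ^D`; the first factor is the direction `e_1` of the drift.
-/

set_option autoImplicit false

namespace FDr

open MeasureTheory ProbabilityTheory
open scoped ENNReal

/-- The sites of `ℤ^(D+1)`: the coordinate along `e_1` (the height) and the `D` other coordinates. -/
abbrev Site (D : ℕ) : Type := ℤ × (Fin D → ℤ)

/-- The steps: `inl true`, `inl false` are `e_1`, `-e_1`; `inr (i, b)` is `± e_(i+2)`. -/
abbrev Stp (D : ℕ) : Type := Bool ⊕ (Fin D × Bool)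

/-- The sign of a bit. -/
def sg (b : Bool) : ℤ := if b then 1 else -1

/-- The vector of a step. -/
def vec {D : ℕ} : Stp D → Site D
  | Sum.inl b => (sg b, 0)
  | Sum.inr ib => (0, Pi.single ib.1 (sg ib.2))

/-- The step law `π_{w,α}` of the problem, `d = D + 1`. -/
noncomputable def wt (w α : ℝ) (D : ℕ) : Stp D → ℝ
  | Sum.inl true => w * (1 + α) / 2
  | Sum.inl false => w * (1 - α) / 2
  | Sum.inr _ => (1 - w) / (2 * D)

/-- The position after `n` steps of a walk with the steps `η` started at `x`. -/
def pos {D : ℕ} (η : ℕ → Stp D) (x : Site D) (n : ℕ) : Site D := x + ∑ i ∈ Finset.range n, vec (η i)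

/-- The frogs which are activated: `η x` are the steps of the frog `x`. -/
inductive Active {D : ℕ} (η : Site D → ℕ → Stp D) : Site D → Prop
  | start : Active η 0
  | visit (x : Site D) (n : ℕ) : Active η x → Active η (pos (η x) x n)

/-- The visits to the origin by active frogs: the pairs of an active frog and a number of its steps. -/
def visits {D : ℕ} (η : Site D → ℕ → Stp D) : Set (Site D × ℕ) :=
  {p | Active η p.1 ∧ pos (η p.1) p.1 p.2 = 0}

/-- `ξ x n` (`x` a site, `n` a number) are independent steps with the law `π_{w,α}` of the frog `x`. -/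
structure IsFrog {Ω : Type*} [MeasurableSpace Ω] (D : ℕ) (w α : ℝ) (P : Measure Ω) (ξ : Site D → ℕ → Ω → Stp D) :
    Prop where
  meas : ∀ x n, Measurable (ξ x n)
  indep : iIndepFun (fun p : Site D × ℕ => ξ p.1 p.2) P
  law : ∀ x n s, P {ω | ξ x n ω = s} = ENNReal.ofReal (wt w α D s)

/-- Recurrence: almost surely the origin is visited infinitely often. -/
def Recurrent {Ω : Type*} [MeasurableSpace Ω] {D : ℕ} (P : Measure Ω) (ξ : Site D → ℕ → Ω → Stp D) : Prop :=
  ∀ᵐ ω ∂P, (visits fun x n => ξ x n ω).Infinite

/-! ### The one-dimensional process with killing -/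

/-- A finite run: the steps `±1` of a frog on `ℤ` before it is killed. -/
abbrev Run : Type := List Bool

/-- The displacement. -/
def dsp (l : Run) : ℤ := (l.map sg).sum

/-- The positions which are visited, relative to the starting point. -/
def vis (l : Run) : Set ℤ := {h | ∃ i, i ≤ l.length ∧ dsp (l.take i) = h}

/-- The probability of the run `l`: before every step the frog is killed with probability `1 - w`. -/
noncomputable def runW (w α : ℝ) (l : Run) : ℝ :=
  (1 - w) * (l.map fun b => if b then w * (1 + α) / 2 else w * (1 - α) / 2).prod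

/-- The frogs on `ℤ` which are activated if a frog with the run `e` starts at `0`; there is one sleeping frog at every
site `h ∈ S`, with the run `c h`. -/
inductive Clus (S : Set ℤ) (e : Run) (c : ℤ → Run) : ℤ → Prop
  | enter (h : ℤ) : h ∈ vis e → h ∈ S → Clus S e c h
  | next (h h' : ℤ) : Clus S e c h → h' - h ∈ vis (c h) → h' ∈ S → Clus S e c h'

instance : MeasurableSpace Run := ⊤

/-- The law of a run. -/
noncomputable def runLaw (w α : Set.Ioo (0 : ℝ) 1) : Measure Run :=
  Measure.sum fun l => ENNReal.ofReal (runW w α l) • Measure.dirac l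

end FDr
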