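import Pool.Agent.Lib.MP_e029a2_pr.SPre

/-!
# The simple random walk; all pairs of chains (job SMeetS)

`srw_sum`: by induction: `∑' v, srw (j+1) v = ∑ d, (2D)⁻¹ ∑' v, srw j (v - dv d)` and the shift; there are `2D` directions.
`srw_le`: `srw (j+1) v = (2D)⁻¹ ∑ d, srw j (v - dv d) ≤ (2D)⁻¹ ∑' v, srw j v` because `d ↦ v - dv d` is injective.
`all_pairs`: `∑ l l', Q {Rz l ∧ Rz l'} = ∫⁻ (∑ l, 1 {Rz l})^2 ≤ ((2L+2)^n)^2` (`lint_ind`, `lintegral_finset_sum`,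
`Finset.sum_mul_sum`; `cnt` with `ML_sub`; measurability `Chn.Rz_meas`).
-/

set_option autoImplicit false

namespace FDr

open MeasureTheory ProbabilityTheory
open scoped ENNReal

variable {w α : Set.Ioo (0 : ℝ) 1} (m : Mac w α) {D : ℕ} [NeZero D] (B : Finset (Fin D → ℤ))

omit [NeZero D] in
theorem srw_sum (hD : D ≠ 0) (j : ℕ) : ∑' v, srw D j v = 1 := by
  induction j with
  | zero =>
    show ∑' v : Fin D → ℤ, (if v = 0 then (1 : ℝ≥0∞) else 0) = 1
    exact tsum_ite_eq 0 _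
  | succ j ih =>
    show ∑' v : Fin D → ℤ, ∑ d : Dir D, (2 * (D : ℝ≥0∞))⁻¹ * srw D j (v - dv d) = 1
    have h1 : ∑' v : Fin D → ℤ, ∑ d : Dir D, (2 * (D : ℝ≥0∞))⁻¹ * srw D j (v - dv d) =
        ∑ d : Dir D, ∑' v : Fin D → ℤ, (2 * (D : ℝ≥0∞))⁻¹ * srw D j (v - dv d) :=
      Summable.tsum_finsetSum fun d _ => ENNReal.summable
    rw [h1]
    have h2 : ∀ d : Dir D, ∑' v : Fin D → ℤ, (2 * (D : ℝ≥0∞))⁻¹ * srw D j (v - dv d) = (2 * (D : ℝ≥0∞))⁻¹ := by
      intro d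
      have h0 : ∑' v : Fin D → ℤ, srw D j (v - dv d) = ∑' v : Fin D → ℤ, srw D j v :=
        (Equiv.subRight (dv d)).tsum_eq (fun v => srw D j v)
      rw [ENNReal.tsum_mul_left, h0, ih, mul_one]
    rw [Finset.sum_congr rfl fun d _ => h2 d, Finset.sum_const, Finset.card_univ, Fintype.card_prod, Fintype.card_fin,
      Fintype.card_bool, nsmul_eq_mul]
    have h3 : ((D * 2 : ℕ) : ℝ≥0∞) = 2 * (D : ℝ≥0∞) := by
      push_cast
      ring
    rw [h3]
    refine ENNReal.mul_inv_cancel ?_ ?_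
    · exact mul_ne_zero two_ne_zero (Nat.cast_ne_zero.2 hD)
    · exact ENNReal.mul_ne_top ENNReal.ofNat_ne_top (ENNReal.natCast_ne_top D)

omit [NeZero D] in
private theorem SMeetS_inj (v : Fin D → ℤ) : Function.Injective fun d : Dir D => v - dv d := by
  rintro ⟨a, b⟩ ⟨a', b'⟩ h
  have h1 : dv (a, b) = dv (a', b') := sub_right_injective h
  have h2 := congrFun h1 a
  unfold dv at h2
  rw [Pi.single_eq_same] at h2
  have hab : a = a' := by
    by_contra hne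
    have h3 : (Pi.single (M := fun _ : Fin D => ℤ) a' (sg b')) a = 0 := Pi.single_eq_of_ne hne _
    have h4 : sg b = 0 := h2.trans h3
    unfold sg at h4
    cases b <;> simp at h4
  subst hab
  have h3 : (Pi.single (M := fun _ : Fin D => ℤ) a (sg b')) a = sg b' := Pi.single_eq_same _ _
  have h4 : sg b = sg b' := h2.trans h3
  have h5 : b = b' := by
    clear h1 h2 h3 h
    revert h4
    cases b <;> cases b' <;> simp [sg]
  rw [h5]

omit [NeZero D] in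
theorem srw_le (hD : D ≠ 0) (j : ℕ) (hj : 1 ≤ j) (v : Fin D → ℤ) : srw D j v ≤ (2 * (D : ℝ≥0∞))⁻¹ := by
  obtain ⟨i, rfl⟩ : ∃ i, j = i + 1 := ⟨j - 1, by omega⟩
  show ∑ d : Dir D, (2 * (D : ℝ≥0∞))⁻¹ * srw D i (v - dv d) ≤ (2 * (D : ℝ≥0∞))⁻¹
  rw [← Finset.mul_sum]
  have h1 : ∑ d : Dir D, srw D i (v - dv d) ≤ 1 := by
    rw [← srw_sum hD i, ← tsum_fintype (L := .unconditional _) (fun d : Dir D => srw D i (v - dv d))]
    exact ENNReal.tsum_comp_le_tsum_of_injective (SMeetS_inj v) (srw D i)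
  calc (2 * (D : ℝ≥0∞))⁻¹ * ∑ d : Dir D, srw D i (v - dv d) ≤ (2 * (D : ℝ≥0∞))⁻¹ * 1 := mul_le_mul_right h1 _
    _ = (2 * (D : ℝ≥0∞))⁻¹ := mul_one _

private theorem SMeetS_ind {Ω : Type*} [MeasurableSpace Ω] (μ : Measure Ω) (P : Ω → Prop) [DecidablePred P]
    (hP : MeasurableSet {ω | P ω}) : ∫⁻ ω, (if P ω then 1 else 0) ∂μ = μ {ω | P ω} := by
  rw [← lintegral_indicator_one hP]
  refine lintegral_congr fun c => ?_
  by_cases hc : P c
  · rw [if_pos hc, Set.indicator_of_mem (show c ∈ {c | P c} from hc)]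
    rfl
  · rw [if_neg hc, Set.indicator_of_notMem (show c ∉ {c | P c} from hc)]

theorem all_pairs (σ : St D) (hσ : Inv B σ) :
    ∑ l ∈ (m.ML D).filter (fun l => okm B σ.2.2 l), ∑ l' ∈ (m.ML D).filter (fun l => okm B σ.2.2 l),
      Q w α D {c | Rz m.L c σ l ∧ Rz m.L c σ l'} ≤ (2 * m.L + 2) ^ (2 * m.n) := by
  classical
  set F := (m.ML D).filter (fun l => okm B σ.2.2 l) with hF
  have hch : ∀ l ∈ F, Chn m B σ l := fun l hl =>
    ⟨hσ, (Finset.mem_filter.1 hl).1, (Finset.mem_filter.1 hl).2⟩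
  have hms : ∀ l ∈ F, MeasurableSet {c : Conf D | Rz m.L c σ l} := fun l hl => (hch l hl).Rz_meas
  have h1 : ∀ l ∈ F, ∀ l' ∈ F, Q w α D {c | Rz m.L c σ l ∧ Rz m.L c σ l'} =
      ∫⁻ c, (if Rz m.L c σ l then (1 : ℝ≥0∞) else 0) * (if Rz m.L c σ l' then 1 else 0) ∂(Q w α D) := by
    intro l hl l' hl'
    rw [← SMeetS_ind (Q w α D) (fun c => Rz m.L c σ l ∧ Rz m.L c σ l') ((hms l hl).inter (hms l' hl'))]
    refine lintegral_congr fun c => ?_
    by_cases h2 : Rz m.L c σ l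
    · by_cases h3 : Rz m.L c σ l'
      · rw [if_pos ⟨h2, h3⟩, if_pos h2, if_pos h3, one_mul]
      · rw [if_neg fun h => h3 h.2, if_neg h3, mul_zero]
    · rw [if_neg fun h => h2 h.1, if_neg h2, zero_mul]
  have hme : ∀ l ∈ F, Measurable fun c : Conf D => (if Rz m.L c σ l then (1 : ℝ≥0∞) else 0) := fun l hl =>
    Measurable.ite (hms l hl) measurable_const measurable_const
  rw [Finset.sum_congr rfl fun l hl => Finset.sum_congr rfl fun l' hl' => h1 l hl l' hl']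
  have h4 : ∀ l ∈ F, ∑ l' ∈ F, ∫⁻ c, (if Rz m.L c σ l then (1 : ℝ≥0∞) else 0) * (if Rz m.L c σ l' then 1 else 0)
      ∂(Q w α D) = ∫⁻ c, ∑ l' ∈ F, (if Rz m.L c σ l then (1 : ℝ≥0∞) else 0) * (if Rz m.L c σ l' then 1 else 0)
      ∂(Q w α D) := by
    intro l hl
    rw [lintegral_finsetSum]
    intro l' hl'
    exact (hme l hl).mul (hme l' hl')
  rw [Finset.sum_congr rfl h4, ← lintegral_finsetSum]
  · have h5 : ∀ c : Conf D, ∑ l ∈ F, ∑ l' ∈ F,
        (if Rz m.L c σ l then (1 : ℝ≥0∞) else 0) * (if Rz m.L c σ l' then 1 else 0) ≤ (2 * m.L + 2) ^ (2 * m.n) := by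
      intro c
      rw [← Finset.sum_mul_sum]
      have h6 : ∑ l ∈ F, (if Rz m.L c σ l then (1 : ℝ≥0∞) else 0) ≤ (2 * m.L + 2) ^ m.n := by
        refine le_trans (Finset.sum_le_sum_of_subset ((Finset.filter_subset _ _).trans (ML_sub m))) ?_
        exact cnt (m.MK D) m.L c m.n σ
      have h7 : ((2 * (m.L : ℝ≥0∞) + 2) ^ (2 * m.n)) = (2 * m.L + 2) ^ m.n * (2 * m.L + 2) ^ m.n := by
        rw [two_mul m.n, pow_add]
      rw [h7]
      exact mul_le_mul' h6 h6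
    refine le_trans (lintegral_mono h5) ?_
    rw [lintegral_const, measure_univ, mul_one]
  · intro l hl
    exact Finset.measurable_fun_sum _ fun l' hl' => (hme l hl).mul (hme l' hl')

end FDr
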