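import Pool.Agent.Lib.MP_e029a2_pr.SFirst

/-!
# The second moment of the number of entries (job SN0)

`N0 c σ = ∑' i, 1 {E i}` with `E i : σ.2 + ∑ t < i, cvec (c (x, j + t)) = 0`. So `N0 ^ 2 = ∑' i i', 1 {E i} 1 {E i'}
≤ 2 * ∑' i, ∑' d, 1 {E i ∧ E (i + d)}` (for every pair either `i' = i + d` or `i = i' + d`; in `ℝ≥0∞`:
`∑' i i', f i i' ≤ ∑' i d, f i (i + d) + ∑' i' d, f (i' + d) i'`). `E i ∧ E (i + d)` iff `E i` and
`∑ t < d, cvec (c (x, j + i + t)) = 0`; these events depend on disjoint sets of cells, so (`prob_and_dep`, `Q_entry`,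
`Q_sum`) the probability is `(hz i (-z.1) * srw i (-z.2)) * (hz d 0 * srw d 0)`. Sum over `d`: `Gam 0 0`; over `i`:
`Gam (-z.1) (-z.2)`.
-/

set_option autoImplicit false

namespace FDr

open MeasureTheory ProbabilityTheory
open scoped ENNReal

/-- the square of a series -/
theorem tsum_sq_sn0 (F : ℕ → ℝ≥0∞) : (∑' i, F i) * (∑' i, F i) ≤ 2 * ∑' i, ∑' d, F i * F (i + d) := by
  have h1 : (∑' i, F i) * (∑' i, F i) = ∑' i, ∑' k, F i * F k := by
    rw [← ENNReal.tsum_mul_right]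
    exact tsum_congr fun i => by rw [ENNReal.tsum_mul_left]
  have h2 : ∀ i : ℕ, ∑' k, (if i ≤ k then F i * F k else 0) = ∑' d, F i * F (i + d) := by
    intro i
    have h3 : ∑' k, (if i ≤ k then F i * F k else 0) = ∑ k ∈ Finset.range i, (if i ≤ k then F i * F k else 0) +
        ∑' d, (if i ≤ d + i then F i * F (d + i) else 0) :=
      (Summable.sum_add_tsum_nat_add' (f := fun k => if i ≤ k then F i * F k else 0) ENNReal.summable).symm
    have h4 : ∑ k ∈ Finset.range i, (if i ≤ k then F i * F k else 0) = 0 := by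
      refine Finset.sum_eq_zero fun k hk => ?_
      rw [if_neg (by have := Finset.mem_range.1 hk; omega)]
    rw [h3, h4, zero_add]
    refine tsum_congr fun d => ?_
    rw [if_pos (Nat.le_add_left _ _), Nat.add_comm]
  have h3 : ∀ k : ℕ, ∑' i, (if k ≤ i then F i * F k else 0) = ∑' d, F k * F (k + d) := by
    intro k
    rw [← h2 k]
    refine tsum_congr fun i => ?_
    by_cases h : k ≤ i
    · rw [if_pos h, if_pos h, mul_comm]
    · rw [if_neg h, if_neg h]
  rw [h1]
  calc ∑' i, ∑' k, F i * F k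
      ≤ ∑' i, ∑' k, ((if i ≤ k then F i * F k else 0) + (if k ≤ i then F i * F k else 0)) := by
        refine ENNReal.tsum_le_tsum fun i => ENNReal.tsum_le_tsum fun k => ?_
        rcases le_total i k with h | h
        · rw [if_pos h]
          exact le_self_add
        · rw [if_pos h]
          exact le_add_self
    _ = ∑' i, ∑' k, (if i ≤ k then F i * F k else 0) + ∑' i, ∑' k, (if k ≤ i then F i * F k else 0) := by
        rw [← ENNReal.tsum_add]
        exact tsum_congr fun i => ENNReal.tsum_add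
    _ = ∑' i, ∑' d, F i * F (i + d) + ∑' k, ∑' d, F k * F (k + d) := by
        have h4 : ∑' i, ∑' k, (if k ≤ i then F i * F k else 0) = ∑' k, ∑' d, F k * F (k + d) := by
          rw [ENNReal.tsum_comm]
          exact tsum_congr h3
        rw [tsum_congr h2, h4]
    _ = 2 * ∑' i, ∑' d, F i * F (i + d) := (two_mul _).symm

theorem E_N0_sq {D : ℕ} [NeZero D] (w α : Set.Ioo (0 : ℝ) 1) (σ : St D) :
    ∫⁻ c, N0 c σ * N0 c σ ∂Q w α D ≤ 2 * (Gam w α D (-σ.2.1) (-σ.2.2) * Gam w α D 0 0) := by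
  classical
  let f : ℕ → Conf D → ℝ≥0∞ := fun i c =>
    if σ.2 + ∑ t ∈ Finset.range i, cvec (c (σ.1.1, σ.1.2 + t)) = 0 then 1 else 0
  have hf : ∀ i, Measurable (f i) := fun i => Measurable.ite (N0_ev_meas σ i) measurable_const measurable_const
  have hN : ∀ c : Conf D, N0 c σ = ∑' i, f i c := by
    intro c
    unfold N0
    refine tsum_congr fun i => ?_
    by_cases h : σ.2 + ∑ t ∈ Finset.range i, cvec (c (σ.1.1, σ.1.2 + t)) = 0
    · simp only [f, if_pos h]
    · simp only [f, if_neg h]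
  have hpair : ∀ i d : ℕ, ∫⁻ c, f i c * f (i + d) c ∂Q w α D =
      (hz w α i (-σ.2.1) * srw D i (-σ.2.2)) * (hz w α d 0 * srw D d 0) := by
    intro i d
    let σ' : St D := ((σ.1.1, σ.1.2 + i), 0)
    have hiff : ∀ c : Conf D, (σ.2 + ∑ t ∈ Finset.range i, cvec (c (σ.1.1, σ.1.2 + t)) = 0 ∧
        σ.2 + ∑ t ∈ Finset.range (i + d), cvec (c (σ.1.1, σ.1.2 + t)) = 0) ↔
        (σ.2 + ∑ t ∈ Finset.range i, cvec (c (σ.1.1, σ.1.2 + t)) = 0 ∧
          σ'.2 + ∑ t ∈ Finset.range d, cvec (c (σ'.1.1, σ'.1.2 + t)) = 0) := by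
      intro c
      have h1 : ∑ t ∈ Finset.range (i + d), cvec (c (σ.1.1, σ.1.2 + t)) =
          ∑ t ∈ Finset.range i, cvec (c (σ.1.1, σ.1.2 + t)) +
            ∑ t ∈ Finset.range d, cvec (c (σ'.1.1, σ'.1.2 + t)) := by
        rw [Finset.sum_range_add]
        congr 1
        refine Finset.sum_congr rfl fun t _ => ?_
        show cvec (c (σ.1.1, σ.1.2 + (i + t))) = cvec (c (σ.1.1, σ.1.2 + i + t))
        rw [Nat.add_assoc]
      have h2 : σ'.2 = 0 := rfl
      rw [h1, h2, zero_add, ← add_assoc]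
      constructor
      · rintro ⟨h3, h4⟩
        rw [h3, zero_add] at h4
        exact ⟨h3, h4⟩
      · rintro ⟨h3, h4⟩
        refine ⟨h3, ?_⟩
        rw [h3, h4, zero_add]
    have h1 : ∀ c : Conf D, f i c * f (i + d) c =
        if (σ.2 + ∑ t ∈ Finset.range i, cvec (c (σ.1.1, σ.1.2 + t)) = 0 ∧
          σ'.2 + ∑ t ∈ Finset.range d, cvec (c (σ'.1.1, σ'.1.2 + t)) = 0) then 1 else 0 := by
      intro c
      simp only [f]
      rw [← if_congr (hiff c) rfl rfl]
      by_cases h3 : σ.2 + ∑ t ∈ Finset.range i, cvec (c (σ.1.1, σ.1.2 + t)) = 0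
      · by_cases h4 : σ.2 + ∑ t ∈ Finset.range (i + d), cvec (c (σ.1.1, σ.1.2 + t)) = 0
        · rw [if_pos h3, if_pos h4, if_pos ⟨h3, h4⟩, one_mul]
        · have h5 : ¬ (σ.2 + ∑ t ∈ Finset.range i, cvec (c (σ.1.1, σ.1.2 + t)) = 0 ∧
              σ.2 + ∑ t ∈ Finset.range (i + d), cvec (c (σ.1.1, σ.1.2 + t)) = 0) := fun h => h4 h.2
          rw [if_neg h4, if_neg h5, mul_zero]
      · have h5 : ¬ (σ.2 + ∑ t ∈ Finset.range i, cvec (c (σ.1.1, σ.1.2 + t)) = 0 ∧
            σ.2 + ∑ t ∈ Finset.range (i + d), cvec (c (σ.1.1, σ.1.2 + t)) = 0) := fun h => h3 h.1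
        rw [if_neg h3, if_neg h5, zero_mul]
    have hdis : Disjoint ((fun t => (σ.1.1, σ.1.2 + t)) '' Set.Iio i) ((fun t => (σ'.1.1, σ'.1.2 + t)) '' Set.Iio d) := by
      rw [Set.disjoint_left]
      rintro _ ⟨t, ht, rfl⟩ ⟨t', _, h⟩
      have h3 : σ.1.2 + i + t' = σ.1.2 + t := congrArg Prod.snd h
      have h4 : t < i := ht
      omega
    rw [lintegral_congr h1, lint_ind (Q w α D) (fun c : Conf D => σ.2 + ∑ t ∈ Finset.range i,
      cvec (c (σ.1.1, σ.1.2 + t)) = 0 ∧ σ'.2 + ∑ t ∈ Finset.range d, cvec (c (σ'.1.1, σ'.1.2 + t)) = 0)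
      ((N0_ev_meas σ i).inter (N0_ev_meas σ' d))]
    have h2 := prob_and_dep (cellLaw w α D) hdis (N0_ev_meas σ i) (N0_ev_meas σ' d) (N0_ev_dep σ i) (N0_ev_dep σ' d)
    have h3 := Q_entry w α σ i
    have h4 := Q_entry w α σ' d
    have h5 : σ'.2 = 0 := rfl
    rw [h5] at h4
    unfold Q at h3 h4 ⊢
    rw [h2, h3, h5, h4]
    have h6 : -(0 : Site D).1 = 0 := by rw [Prod.fst_zero, neg_zero]
    have h7 : -(0 : Site D).2 = 0 := by rw [Prod.snd_zero, neg_zero]
    rw [h6, h7]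
  calc ∫⁻ c, N0 c σ * N0 c σ ∂Q w α D ≤ ∫⁻ c, 2 * ∑' i, ∑' d, f i c * f (i + d) c ∂Q w α D := by
        refine lintegral_mono fun c => ?_
        show N0 c σ * N0 c σ ≤ 2 * ∑' i, ∑' d, f i c * f (i + d) c
        rw [hN c]
        exact tsum_sq_sn0 fun i => f i c
    _ = 2 * ∑' i, ∑' d, (hz w α i (-σ.2.1) * srw D i (-σ.2.2)) * (hz w α d 0 * srw D d 0) := by
        have hm : ∀ i d, Measurable fun c => f i c * f (i + d) c := fun i d => (hf i).mul (hf (i + d))
        rw [lintegral_const_mul _ (Measurable.tsum fun i => Measurable.tsum fun d => hm i d),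
          lintegral_tsum fun i => (Measurable.tsum fun d => hm i d).aemeasurable]
        congr 1
        refine tsum_congr fun i => ?_
        rw [lintegral_tsum fun d => (hm i d).aemeasurable]
        exact tsum_congr fun d => hpair i d
    _ = 2 * (Gam w α D (-σ.2.1) (-σ.2.2) * Gam w α D 0 0) := by
        congr 1
        unfold Gam
        rw [← ENNReal.tsum_mul_right]
        exact tsum_congr fun i => by rw [ENNReal.tsum_mul_left]
    _ ≤ _ := le_rfl

end FDr
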