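import Pool.Agent.Lib.MP_e029a2_pr.SKern
import Pool.Agent.Lib.MP_e029a2_pr.SN0

/-!
# Terminal values and the Cauchy-Schwarz inequality (job ZTerm)

`term_T`: `X_zero`, `E_N0_sq`, the height of the state is `h0`. `term_A`: two states with distinct frogs `x, x'`: `N0 c σ` depends
on `{p | p.1 = x}` only (as in `N0_dep`), `lintegral_mul_dep` (`N0_meas`), `E_N0`. `cs`: `X = X * 1 {X ≠ 0}`,
`ENNReal.lintegral_mul_le_Lp_mul_Lq` with `p = q = 2` (or another form of Cauchy-Schwarz), squared.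
-/

set_option autoImplicit false

namespace FDr

open MeasureTheory ProbabilityTheory
open scoped ENNReal NNReal

private theorem zterm_dep {D : ℕ} (σ : St D) : Dep {p : Site D × ℕ | p.1 = σ.1.1} (fun c : Conf D => N0 c σ) := by
  classical
  intro c c' hc
  unfold N0
  refine tsum_congr fun i => ?_
  have h1 : (σ.2 + ∑ t ∈ Finset.range i, cvec (c (σ.1.1, σ.1.2 + t)) = 0) =
      (σ.2 + ∑ t ∈ Finset.range i, cvec (c' (σ.1.1, σ.1.2 + t)) = 0) := by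
    refine N0_ev_dep σ i c c' ?_
    rintro _ ⟨t, _, rfl⟩
    exact hc _ rfl
  by_cases h2 : σ.2 + ∑ t ∈ Finset.range i, cvec (c (σ.1.1, σ.1.2 + t)) = 0
  · rw [if_pos h2, if_pos (h1 ▸ h2)]
  · rw [if_neg h2, if_neg (h1 ▸ h2)]

private theorem zterm_hgt {w α : Set.Ioo (0 : ℝ) 1} (m : Mac w α) (h0 x : ℤ) (h : x = h0 + ((0 : ℕ) : ℤ) * m.H) :
    x = h0 := by
  rw [h, Nat.cast_zero, zero_mul, add_zero]

theorem term_T {w α : Set.Ioo (0 : ℝ) 1} (m : Mac w α) (D : ℕ) [NeZero D] (B : Finset (Fin D → ℤ)) (h0 : ℤ) (a : ℝ≥0∞)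
    (ha : ∀ v : Fin D → ℤ, Gam w α D (-h0) v ≤ a) : Tk m B h0 0 ≤ 2 * (a * Gam w α D 0 0) := by
  unfold Tk
  refine iSup₂_le fun σ hσ => ?_
  have h1 := zterm_hgt m h0 σ.2.1 hσ.2
  have h2 : ∫⁻ c, X m B c 0 σ * X m B c 0 σ ∂Q w α D ≤ 2 * (Gam w α D (-σ.2.1) (-σ.2.2) * Gam w α D 0 0) :=
    E_N0_sq w α σ
  refine h2.trans ?_
  rw [h1]
  gcongr
  exact ha _

theorem term_A {w α : Set.Ioo (0 : ℝ) 1} (m : Mac w α) (D : ℕ) [NeZero D] (B : Finset (Fin D → ℤ)) (h0 : ℤ) (a : ℝ≥0∞)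
    (ha : ∀ v : Fin D → ℤ, Gam w α D (-h0) v ≤ a) (u : Fin D → ℤ) : Ak m B h0 0 u ≤ a * a := by
  unfold Ak
  refine iSup₂_le fun p hp => ?_
  have h1 := zterm_hgt m h0 p.1.2.1 hp.2.2.1
  have h2 := zterm_hgt m h0 p.2.2.1 hp.2.2.2.1
  have hne := hp.2.2.2.2.1
  have hd : Disjoint {q : Site D × ℕ | q.1 = p.1.1.1} {q : Site D × ℕ | q.1 = p.2.1.1} := by
    rw [Set.disjoint_left]
    intro q hq hq'
    exact hne (hq.symm.trans hq')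
  have h3 : ∫⁻ c, X m B c 0 p.1 * X m B c 0 p.2 ∂Q w α D =
      (∫⁻ c, N0 c p.1 ∂Q w α D) * ∫⁻ c, N0 c p.2 ∂Q w α D := by
    unfold Q
    exact lintegral_mul_dep (cellLaw w α D) hd (N0_meas p.1) (N0_meas p.2) (zterm_dep p.1) (zterm_dep p.2)
  rw [h3, E_N0, E_N0, h1, h2]
  exact mul_le_mul' (ha _) (ha _)

theorem cs {Ω : Type*} [MeasurableSpace Ω] (μ : Measure Ω) (f : Ω → ℝ≥0∞) (hf : Measurable f) :
    (∫⁻ ω, f ω ∂μ) ^ 2 ≤ (∫⁻ ω, f ω * f ω ∂μ) * μ {ω | f ω ≠ 0} := by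
  classical
  have hE : MeasurableSet {ω | f ω ≠ 0} := (hf (measurableSet_singleton 0)).compl
  have h1 := ENNReal.lintegral_mul_le_Lp_mul_Lq μ (Real.HolderConjugate.two_two) hf.aemeasurable
    (g := Set.indicator {ω | f ω ≠ 0} 1) ((measurable_one.indicator hE).aemeasurable)
  have h2 : ∫⁻ a, (f * Set.indicator {ω | f ω ≠ 0} (1 : Ω → ℝ≥0∞) : Ω → ℝ≥0∞) a ∂μ = ∫⁻ a, f a ∂μ := by
    refine lintegral_congr fun a => ?_
    rw [Pi.mul_apply]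
    by_cases ha : f a = 0
    · rw [ha, zero_mul]
    · rw [Set.indicator_of_mem (show a ∈ {ω | f ω ≠ 0} from ha), Pi.one_apply, mul_one]
  have h3 : ∫⁻ a, (Set.indicator {ω | f ω ≠ 0} (1 : Ω → ℝ≥0∞) a) ^ (2 : ℝ) ∂μ = μ {ω | f ω ≠ 0} := by
    rw [← lintegral_indicator_one hE]
    refine lintegral_congr fun a => ?_
    by_cases ha : f a = 0
    · rw [Set.indicator_of_notMem (show a ∉ {ω | f ω ≠ 0} from fun h => h ha)]
      exact ENNReal.zero_rpow_of_pos (by norm_num)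
    · rw [Set.indicator_of_mem (show a ∈ {ω | f ω ≠ 0} from ha), Pi.one_apply, ENNReal.one_rpow]
  have h4 : ∫⁻ a, f a ^ (2 : ℝ) ∂μ = ∫⁻ a, f a * f a ∂μ := by
    refine lintegral_congr fun a => ?_
    rw [ENNReal.rpow_two, pow_two]
  rw [h2, h3, h4] at h1
  have h5 : ∀ z : ℝ≥0∞, (z ^ (1 / (2 : ℝ))) ^ 2 = z := by
    intro z
    rw [← ENNReal.rpow_two, ← ENNReal.rpow_mul]
    norm_num
  calc (∫⁻ ω, f ω ∂μ) ^ 2 ≤ ((∫⁻ a, f a * f a ∂μ) ^ (1 / (2 : ℝ)) * (μ {ω | f ω ≠ 0}) ^ (1 / (2 : ℝ))) ^ 2 := by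
        gcongr
    _ = _ := by rw [mul_pow, h5, h5]

end FDr
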