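import Pool.Agent.Lib.MP_e029a2_pr.SX

/-!
# The first moment
-/

set_option autoImplicit false

namespace FDr

open MeasureTheory ProbabilityTheory
open scoped ENNReal

variable {D : ℕ}

/-- partition by the values of a variable with countably many values -/
theorem lint_part {Ω A : Type*} [MeasurableSpace Ω] [Countable A] [MeasurableSpace A] [MeasurableSingletonClass A]
    (μ : Measure Ω) (V : Ω → A) (hV : Measurable V) (P : Ω → Prop) (hP : MeasurableSet {ω | P ω}) :
    μ {ω | P ω} = ∑' a, μ {ω | P ω ∧ V ω = a} := by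
  have h1 : {ω | P ω} = ⋃ a, {ω | P ω ∧ V ω = a} := by
    ext ω
    rw [Set.mem_iUnion]
    exact ⟨fun h => ⟨V ω, h, rfl⟩, fun ⟨_, h⟩ => h.1⟩
  have h2 : Pairwise (Function.onFun Disjoint fun a => {ω | P ω ∧ V ω = a}) := by
    intro a b hab
    show Disjoint _ _
    rw [Set.disjoint_left]
    rintro ω ⟨_, h2⟩ ⟨_, h3⟩
    exact hab (h2.symm.trans h3)
  have h3 : ∀ a, MeasurableSet {ω | P ω ∧ V ω = a} := fun a => hP.inter (hV (measurableSet_singleton a))
  rw [h1, measure_iUnion h2 h3]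

/-- the law of the sum of the vectors of `i` cells of a frog -/
theorem Q_sum [NeZero D] (w α : Set.Ioo (0 : ℝ) 1) (x : Site D) (j i : ℕ) (z : Site D) :
    Q w α D {c | ∑ t ∈ Finset.range i, cvec (c (x, j + t)) = z} = hz w α i z.1 * srw D i z.2 := by
  induction i generalizing z with
  | zero =>
    have h1 : {c : Conf D | ∑ t ∈ Finset.range 0, cvec (c (x, j + t)) = z} = {_c : Conf D | 0 = z} := by
      ext c
      show ∑ t ∈ Finset.range 0, cvec (c (x, j + t)) = z ↔ 0 = z
      rw [Finset.sum_range_zero]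
    rw [h1]
    by_cases h2 : (0 : Site D) = z
    · have h3 : {_c : Conf D | (0 : Site D) = z} = Set.univ := Set.eq_univ_of_forall fun _ => h2
      rw [h3, measure_univ, ← h2]
      show 1 = (if (0 : ℤ) = 0 then (1 : ℝ≥0∞) else 0) * (if (0 : Fin D → ℤ) = 0 then (1 : ℝ≥0∞) else 0)
      rw [if_pos rfl, if_pos rfl, one_mul]
    · have h3 : {_c : Conf D | (0 : Site D) = z} = ∅ := Set.eq_empty_of_forall_notMem fun _ => h2
      rw [h3, measure_empty]
      show 0 = (if z.1 = 0 then (1 : ℝ≥0∞) else 0) * (if z.2 = 0 then (1 : ℝ≥0∞) else 0)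
      by_cases h4 : z.1 = 0
      · by_cases h5 : z.2 = 0
        · exact absurd (Prod.ext h4.symm h5.symm) h2
        · rw [if_neg h5, mul_zero]
      · rw [if_neg h4, zero_mul]
  | succ i ih =>
    have hd : ∀ (i : ℕ) (z : Site D), Dep ((fun t => (x, j + t)) '' Set.Iio i)
        (fun c : Conf D => ∑ t ∈ Finset.range i, cvec (c (x, j + t)) = z) := by
      intro i z c c' hc
      have h1 : ∑ t ∈ Finset.range i, cvec (c (x, j + t)) = ∑ t ∈ Finset.range i, cvec (c' (x, j + t)) := by
        refine Finset.sum_congr rfl fun t ht => ?_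
        rw [hc _ ⟨t, Finset.mem_range.1 ht, rfl⟩]
      show (_ = z) = (_ = z)
      rw [h1]
    have hm : ∀ (i : ℕ) (z : Site D), MeasurableSet {c : Conf D | ∑ t ∈ Finset.range i, cvec (c (x, j + t)) = z} :=
      fun i z => Dep.measurableSet ((Set.finite_Iio i).image _) (hd i z)
    let V : Conf D → ℤ × Dir D := fun c => (dsp (c (x, j + i)).1, (c (x, j + i)).2)
    have hV : Measurable V := by
      have h1 : V = (fun a : Cell D => ((dsp a.1, a.2) : ℤ × Dir D)) ∘ fun c => c (x, j + i) := rfl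
      rw [h1]
      exact (measurable_of_countable _).comp (measurable_pi_apply _)
    rw [lint_part (Q w α D) V hV _ (hm (i + 1) z)]
    have h2 : ∀ a : ℤ × Dir D, Q w α D {c | ∑ t ∈ Finset.range (i + 1), cvec (c (x, j + t)) = z ∧ V c = a} =
        (dispP w α a.1 * hz w α i (z.1 - a.1)) * ((2 * (D : ℝ≥0∞))⁻¹ * srw D i (z.2 - dv a.2)) := by
      rintro ⟨k, d⟩
      have h3 : {c : Conf D | ∑ t ∈ Finset.range (i + 1), cvec (c (x, j + t)) = z ∧ V c = (k, d)} =
          {c | ∑ t ∈ Finset.range i, cvec (c (x, j + t)) = z - (k, dv d) ∧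
            (0 + dsp (c (x, j + i)).1 = k ∧ (c (x, j + i)).2 = d)} := by
        ext c
        show (∑ t ∈ Finset.range (i + 1), cvec (c (x, j + t)) = z ∧ (dsp (c (x, j + i)).1, (c (x, j + i)).2) = (k, d)) ↔
          (∑ t ∈ Finset.range i, cvec (c (x, j + t)) = z - (k, dv d) ∧
            (0 + dsp (c (x, j + i)).1 = k ∧ (c (x, j + i)).2 = d))
        rw [Finset.sum_range_succ, zero_add]
        constructor
        · rintro ⟨h4, h7⟩
          have h5 : dsp (c (x, j + i)).1 = k := congrArg Prod.fst h7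
          have h6 : (c (x, j + i)).2 = d := congrArg Prod.snd h7
          refine ⟨?_, h5, h6⟩
          rw [← h4, ← h5, ← h6]
          exact (add_sub_cancel_right (∑ t ∈ Finset.range i, cvec (c (x, j + t))) (cvec (c (x, j + i)))).symm
        · rintro ⟨h4, h5, h6⟩
          refine ⟨?_, Prod.ext h5 h6⟩
          have h8 : cvec (c (x, j + i)) = (k, dv d) := by
            unfold cvec
            rw [h5, h6]
          rw [h4, h8]
          exact sub_add_cancel z (k, dv d)
      have h4 := prob_and_dep (cellLaw w α D) (S := (fun t => (x, j + t)) '' Set.Iio i) (T := {(x, j + i)}) (by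
          rw [Set.disjoint_singleton_right]
          rintro ⟨t, h5, h6⟩
          have h7 : j + t = j + i := congrArg Prod.snd h6
          have h8 : t < i := h5
          omega) (hm i (z - (k, dv d))) (Dep.measurableSet (Set.finite_singleton _) (fun c c' hc => by
            show (0 + dsp (c (x, j + i)).1 = k ∧ (c (x, j + i)).2 = d) =
              (0 + dsp (c' (x, j + i)).1 = k ∧ (c' (x, j + i)).2 = d)
            rw [hc _ (Set.mem_singleton _)])) (hd i (z - (k, dv d))) (fun c c' hc => by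
            show (0 + dsp (c (x, j + i)).1 = k ∧ (c (x, j + i)).2 = d) =
              (0 + dsp (c' (x, j + i)).1 = k ∧ (c' (x, j + i)).2 = d)
            rw [hc _ (Set.mem_singleton _)])
      have h5 := ih (z - (k, dv d))
      have h6 := Q_cell w α (x, j + i) 0 k d
      rw [h3]
      unfold Q at h5 h6 ⊢
      rw [h4, h5, h6, sub_zero]
      show hz w α i (z.1 - k) * srw D i (z.2 - dv d) * (dispP w α k * (2 * (D : ℝ≥0∞))⁻¹) =
        (dispP w α k * hz w α i (z.1 - k)) * ((2 * (D : ℝ≥0∞))⁻¹ * srw D i (z.2 - dv d))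
      ring
    rw [tsum_congr h2, ENNReal.tsum_prod']
    show ∑' (k : ℤ) (d : Dir D), (dispP w α k * hz w α i (z.1 - k)) * ((2 * (D : ℝ≥0∞))⁻¹ * srw D i (z.2 - dv d)) =
      (∑' k : ℤ, dispP w α k * hz w α i (z.1 - k)) * ∑ d : Dir D, (2 * (D : ℝ≥0∞))⁻¹ * srw D i (z.2 - dv d)
    rw [← ENNReal.tsum_mul_right]
    refine tsum_congr fun k => ?_
    rw [ENNReal.tsum_mul_left, tsum_fintype]

theorem lint_ind {Ω : Type*} [MeasurableSpace Ω] (μ : Measure Ω) (P : Ω → Prop) [DecidablePred P]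
    (hP : MeasurableSet {ω | P ω}) : ∫⁻ ω, (if P ω then 1 else 0) ∂μ = μ {ω | P ω} := by
  rw [← lintegral_indicator_one hP]
  refine lintegral_congr fun c => ?_
  by_cases hc : P c
  · rw [if_pos hc, Set.indicator_of_mem (show c ∈ {c | P c} from hc)]
    rfl
  · rw [if_neg hc, Set.indicator_of_notMem (show c ∉ {c | P c} from hc)]

/-- the probability that the frog of the state enters at the origin after `i` more cells -/
theorem Q_entry [NeZero D] (w α : Set.Ioo (0 : ℝ) 1) (σ : St D) (i : ℕ) :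
    Q w α D {c | σ.2 + ∑ t ∈ Finset.range i, cvec (c (σ.1.1, σ.1.2 + t)) = 0} =
      hz w α i (-σ.2.1) * srw D i (-σ.2.2) := by
  have h1 := Q_sum w α σ.1.1 σ.1.2 i (-σ.2)
  have h2 : {c : Conf D | σ.2 + ∑ t ∈ Finset.range i, cvec (c (σ.1.1, σ.1.2 + t)) = 0} =
      {c | ∑ t ∈ Finset.range i, cvec (c (σ.1.1, σ.1.2 + t)) = -σ.2} := by
    ext c
    show σ.2 + ∑ t ∈ Finset.range i, cvec (c (σ.1.1, σ.1.2 + t)) = 0 ↔
      ∑ t ∈ Finset.range i, cvec (c (σ.1.1, σ.1.2 + t)) = -σ.2
    rw [eq_neg_iff_add_eq_zero, add_comm]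
  rw [h2, h1]
  rfl

theorem E_N0 [NeZero D] (w α : Set.Ioo (0 : ℝ) 1) (σ : St D) :
    ∫⁻ c, N0 c σ ∂Q w α D = Gam w α D (-σ.2.1) (-σ.2.2) := by
  classical
  unfold N0 Gam
  rw [lintegral_tsum fun i => (Measurable.ite (N0_ev_meas σ i) measurable_const measurable_const).aemeasurable]
  refine tsum_congr fun i => ?_
  rw [lint_ind _ _ (N0_ev_meas σ i), Q_entry]

variable {w α : Set.Ioo (0 : ℝ) 1} (m : Mac w α) (B : Finset (Fin D → ℤ))

/-- one realised long step and a function of the future -/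
theorem Chn.lint_one [NeZero D] {σ : St D} {l : List (Mic D)} {m : Mac w α} {B : Finset (Fin D → ℤ)}
    (h : Chn m B σ l) {f : Conf D → ℝ≥0∞} (hf : Measurable f) (hfd : Dep (Fut B (endS σ l)) f) [DecidablePred
    fun c : Conf D => Rz m.L c σ l] :
    ∫⁻ c, (if Rz m.L c σ l then f c else 0) ∂Q w α D = qw w α m.L l * dw D m.n * ∫⁻ c, f c ∂Q w α D := by
  have h0 : Disjoint (Us m.L σ l) (Fut B (endS σ l)) := by
    rw [Set.disjoint_left]
    intro p h1 h2
    obtain ⟨i, h3, h4⟩ := (mem_Us' m.L σ l p).1 h1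
    rw [ml_len m h.ml] at h3
    have hH : (1 : ℤ) ≤ m.H := by exact_mod_cast m.H1
    rcases h2 with ⟨h5, h6⟩ | ⟨h5, h6⟩
    · rcases h4 with h7 | ⟨_, h8⟩
      · rcases h.own h3.le with ⟨h8, h9⟩ | ⟨h8, h8', h8'', a, r, h9, h10, h11, h12, h13⟩
        · rw [h7, h9] at h5 h6
          rw [← h.st_n] at h5 h6
          rcases h.own (le_refl m.n) with ⟨g8, g9⟩ | ⟨g8, g8', g8'', _⟩
          · rw [g9] at h6
            have h10 : σ.1.2 + m.n ≤ σ.1.2 + i := h6
            omega
          · exact h.ne_init g8' g8'' h5.symm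
        · rw [h7, h13] at h5 h6
          rw [← h.st_n] at h5 h6
          rcases h.own (le_refl m.n) with ⟨g8, g9⟩ | ⟨g8, g8', g8'', b, s, g9, g10, g11, g12, g13⟩
          · rw [g9] at h5
            rw [h13] at h8' h8''
            exact h.ne_init h8' h8'' h5
          · rw [g13] at h5 h6
            have h14 : (st σ l a).2.2 = (st σ l b).2.2 := (Prod.mk.inj h5).2
            have h15 : m.n - b ≤ i - a := h6
            have h16 : a = b := by
              by_contra h17
              exact h.line_ne (by omega) (by omega) h17 h14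
            omega
      · have h9 := h.inv_end.1
        rw [h8.1] at h6
        omega
    · rw [h.end_hgt] at h6
      rcases h.U1_home h3 h4 with h7 | h7
      · rcases h.inv.2 with h8 | h8
        · rw [h7] at h5
          exact h5 h8
        · rw [h7] at h6
          have h9 : σ.1.1.1 < σ.2.1 - m.H := h6
          linarith
      · linarith [h7.1]
  have h1 : ∀ c : Conf D, (if Rz m.L c σ l then f c else 0) = (if Rz m.L c σ l then 1 else 0) * f c := by
    intro c
    by_cases hc : Rz m.L c σ l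
    · rw [if_pos hc, if_pos hc, one_mul]
    · rw [if_neg hc, if_neg hc, zero_mul]
  rw [lintegral_congr h1, ← h.Q_Rz, ← lint_ind _ _ h.Rz_meas]
  unfold Q
  refine lintegral_mul_dep (cellLaw w α D) h0 (Measurable.ite h.Rz_meas measurable_const measurable_const) hf ?_ hfd
  intro c c' hc
  have h2 : Rz m.L c σ l = Rz m.L c' σ l := h.Rz_dep' c c' hc
  show (if Rz m.L c σ l then (1 : ℝ≥0∞) else 0) = if Rz m.L c' σ l then 1 else 0
  by_cases h3 : Rz m.L c σ l
  · rw [if_pos h3, if_pos (h2 ▸ h3)]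
  · rw [if_neg h3, if_neg (h2 ▸ h3)]

/-- the first moment -/
theorem X_first [NeZero D] (k : ℕ) (σ : St D) (hσ : Inv B σ) : ∫⁻ c, X m B c k σ ∂Q w α D =
    m.W ^ k * av D m.n B (fun v => Gam w α D (k * m.H - σ.2.1) (-v)) k σ.2.2 := by
  classical
  induction k generalizing σ with
  | zero =>
    rw [pow_zero, one_mul]
    show ∫⁻ c, N0 c σ ∂Q w α D = Gam w α D ((0 : ℕ) * m.H - σ.2.1) (-σ.2.2)
    rw [E_N0, Nat.cast_zero, zero_mul, zero_sub]
  | succ k ih =>
    have h1 : ∀ l ∈ (m.ML D).filter (fun l => okm B σ.2.2 l),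
        ∫⁻ c, (if Rz m.L c σ l then X m B c k (endS σ l) else 0) ∂Q w α D = qw w α m.L l * dw D m.n *
          (m.W ^ k * av D m.n B (fun v => Gam w α D ((k + 1 : ℕ) * m.H - σ.2.1) (-v)) k (σ.2.2 + vsum l)) := by
      intro l hl
      rw [Finset.mem_filter] at hl
      have h : Chn m B σ l := ⟨hσ, hl.1, hl.2⟩
      rw [h.lint_one (X_meas m B k _ h.inv_end) (X_dep m B k _ h.inv_end), ih _ h.inv_end, h.end_hgt, h.end_line]
      congr 5
      funext v
      congr 1
      push_cast
      ring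
    have h2 : ∀ l ∈ (m.ML D).filter (fun l => okm B σ.2.2 l),
        Measurable fun c : Conf D => if Rz m.L c σ l then X m B c k (endS σ l) else 0 := by
      intro l hl
      rw [Finset.mem_filter] at hl
      have h : Chn m B σ l := ⟨hσ, hl.1, hl.2⟩
      exact Measurable.ite h.Rz_meas (X_meas m B k _ h.inv_end) measurable_const
    show ∫⁻ c, ∑ l ∈ (m.ML D).filter (fun l => okm B σ.2.2 l),
      (if Rz m.L c σ l then X m B c k (endS σ l) else 0) ∂Q w α D = _
    rw [lintegral_finsetSum _ h2, Finset.sum_congr rfl h1,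
      sum_ML m B σ (fun l => qw w α m.L l * dw D m.n *
        (m.W ^ k * av D m.n B (fun v => Gam w α D ((k + 1 : ℕ) * m.H - σ.2.1) (-v)) k (σ.2.2 + vsum l)))]
    show _ = m.W ^ (k + 1) * ∑ δ ∈ (inj D m.n).filter (fun l => okl B σ.2.2 l), dw D m.n *
      av D m.n B (fun v => Gam w α D ((k + 1 : ℕ) * m.H - σ.2.1) (-v)) k (σ.2.2 + sumv δ)
    rw [pow_succ, mul_assoc, show m.W = ∑ κ ∈ m.F, (κ.map (hW w α m.L)).prod from rfl]
    rw [Finset.sum_mul, Finset.mul_sum]
    refine Finset.sum_congr rfl fun κ hκ => ?_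
    rw [Finset.mul_sum, Finset.mul_sum]
    refine Finset.sum_congr rfl fun δ hδ => ?_
    have hδ' := ((mem_inj δ).1 (Finset.mem_filter.1 hδ).1).1
    have h0 : κ.length = δ.length := (m.len κ hκ).trans hδ'.symm
    rw [qw_zip m.L κ δ h0, vsum_eq, List.map_snd_zip (le_of_eq h0.symm)]
    show _ = m.W ^ k * ((κ.map (hW w α m.L)).prod * (dw D m.n *
      av D m.n B (fun v => Gam w α D ((k + 1 : ℕ) * m.H - σ.2.1) (-v)) k (σ.2.2 + sumv δ)))
    rw [show (∑ κ ∈ m.F, (κ.map (hW w α m.L)).prod) = m.W from rfl, mul_assoc, mul_left_comm (dw D m.n), mul_left_comm]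

end FDr
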