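import Pool.Agent.Lib.MP_e029a2_pr.TH6

/-!
# The monotonicity in `α`, part 1: one run

Left steps of a run are replaced by right steps one by one.
-/

set_option autoImplicit false

namespace FDr.MA

open MeasureTheory ProbabilityTheory
open scoped ENNReal

open FDr.TH (lintegral_runLaw)

/-- A run is empty or has a first step. -/
def consEquiv : Option (Bool × Run) ≃ Run where
  toFun o := match o with
    | none => []
    | some p => p.1 :: p.2
  invFun l := match l with
    | [] => none
    | b :: l => some (b, l)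
  left_inv o := by
    cases o with
    | none => rfl
    | some p => rfl
  right_inv l := by
    cases l with
    | nil => rfl
    | cons b l => rfl

theorem tsum_cons (f : Run → ℝ≥0∞) :
    ∑' l : Run, f l = f [] + (∑' r : Run, f (true :: r) + ∑' r : Run, f (false :: r)) := by
  rw [← consEquiv.tsum_eq, TR.tsum_opt]
  congr 1
  rw [ENNReal.tsum_prod', tsum_fintype, Fintype.sum_bool]
  rfl

theorem runW_cons (w α : ℝ) (b : Bool) (l : Run) : runW w α (b :: l) = bw w α b * runW w α l := by
  rw [runW_eq, runW_eq, List.map_cons, List.prod_cons]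
  ring

/-- The first step of a run. -/
theorem lintegral_cons (w α : Set.Ioo (0 : ℝ) 1) (F : Run → ℝ≥0∞) :
    ∫⁻ l, F l ∂runLaw w α = ENNReal.ofReal (1 - w) * F [] +
      (ENNReal.ofReal (bw w α true) * ∫⁻ r, F (true :: r) ∂runLaw w α +
        ENNReal.ofReal (bw w α false) * ∫⁻ r, F (false :: r) ∂runLaw w α) := by
  rw [lintegral_runLaw, lintegral_runLaw, lintegral_runLaw, tsum_cons]
  have h0 : runW (w : ℝ) α [] = 1 - w := by
    rw [runW_eq]
    simp
  have h1 : ∀ b : Bool, ∑' r : Run, ENNReal.ofReal (runW w α (b :: r)) * F (b :: r) =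
      ENNReal.ofReal (bw w α b) * ∑' r : Run, ENNReal.ofReal (runW w α r) * F (b :: r) := by
    intro b
    rw [← ENNReal.tsum_mul_left]
    refine tsum_congr fun r => ?_
    rw [runW_cons, ENNReal.ofReal_mul (bw_pos w.2 α.2 b).le, mul_assoc]
  rw [h0, h1, h1]

/-- The integral over the runs with less than `n` steps. -/
noncomputable def tr (w α : Set.Ioo (0 : ℝ) 1) : ℕ → (Run → ℝ≥0∞) → ℝ≥0∞
  | 0, _ => 0
  | n + 1, F => ENNReal.ofReal (1 - w) * F [] + (ENNReal.ofReal (bw w α true) * tr w α n (fun r => F (true :: r)) +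
      ENNReal.ofReal (bw w α false) * tr w α n (fun r => F (false :: r)))

theorem tr_eq (w α : Set.Ioo (0 : ℝ) 1) (n : ℕ) (F : Run → ℝ≥0∞) :
    tr w α n F = ∑' l : Run, if l.length < n then ENNReal.ofReal (runW w α l) * F l else 0 := by
  induction n generalizing F with
  | zero =>
    simp [tr]
  | succ n ih =>
    have h0 : runW (w : ℝ) α [] = 1 - w := by
      rw [runW_eq]
      simp
    have h1 : ∀ b : Bool, (∑' r : Run, if (b :: r).length < n + 1 then ENNReal.ofReal (runW w α (b :: r)) * F (b :: r)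
        else 0) = ENNReal.ofReal (bw w α b) * tr w α n (fun r => F (b :: r)) := by
      intro b
      rw [ih, ← ENNReal.tsum_mul_left]
      refine tsum_congr fun r => ?_
      rw [List.length_cons]
      by_cases h : r.length < n
      · rw [if_pos h, if_pos (by omega), runW_cons, ENNReal.ofReal_mul (bw_pos w.2 α.2 b).le, mul_assoc]
      · rw [if_neg h, if_neg (by omega), mul_zero]
    rw [tsum_cons, h1, h1, tr, if_pos (by simp), h0]

theorem le_tr (w α : Set.Ioo (0 : ℝ) 1) (F : Run → ℝ≥0∞) {B : ℝ≥0∞} (h : ∀ n, tr w α n F ≤ B) :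
    ∫⁻ l, F l ∂runLaw w α ≤ B := by
  classical
  rw [lintegral_runLaw, ENNReal.tsum_eq_iSup_sum]
  refine iSup_le fun T => ?_
  refine le_trans ?_ (h (T.sup List.length + 1))
  rw [tr_eq]
  refine le_trans (le_of_eq ?_) (ENNReal.sum_le_tsum T)
  refine Finset.sum_congr rfl fun l hl => ?_
  rw [if_pos]
  exact Nat.lt_succ_of_le (Finset.le_sup (f := List.length) hl)

theorem bw_true_add (w : ℝ) {α α' : ℝ} : bw w α' true = bw w α true + w * (α' - α) / 2 := by
  unfold bw
  simp only [if_true]
  ring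

theorem bw_false_add (w : ℝ) {α α' : ℝ} : bw w α false = bw w α' false + w * (α' - α) / 2 := by
  unfold bw
  simp only [Bool.false_eq_true, if_false]
  ring

/-- Exchanging a left step for a right step. -/
theorem step_le (w : Set.Ioo (0 : ℝ) 1) {α α' : Set.Ioo (0 : ℝ) 1} (h : α ≤ α') {a b g : ℝ≥0∞} (hab : a + g ≤ b) :
    ENNReal.ofReal (bw w α' true) * a + ENNReal.ofReal (bw w α' false) * b +
      ENNReal.ofReal (w * (α' - α) / 2) * g ≤
      ENNReal.ofReal (bw w α true) * a + ENNReal.ofReal (bw w α false) * b := by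
  have h1 : (α : ℝ) ≤ α' := h
  have h2 := w.2.1
  have hδ : 0 ≤ (w : ℝ) * (α' - α) / 2 := by
    have : 0 ≤ (α' : ℝ) - α := by linarith
    positivity
  rw [bw_true_add (w : ℝ) (α := α), bw_false_add (w : ℝ) (α := α) (α' := α'), ENNReal.ofReal_add (bw_pos w.2 α.2 _).le hδ,
    ENNReal.ofReal_add (bw_pos w.2 α'.2 _).le hδ, add_mul, add_mul]
  calc ENNReal.ofReal (bw w α true) * a + ENNReal.ofReal (w * (α' - α) / 2) * a + ENNReal.ofReal (bw w α' false) * b +
        ENNReal.ofReal (w * (α' - α) / 2) * g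
      = ENNReal.ofReal (bw w α true) * a + (ENNReal.ofReal (bw w α' false) * b +
        ENNReal.ofReal (w * (α' - α) / 2) * (a + g)) := by ring
    _ ≤ _ := by gcongr

/-- **One run.** -/
theorem run_mono (w : Set.Ioo (0 : ℝ) 1) {α α' : Set.Ioo (0 : ℝ) 1} (h : α ≤ α') (F : Run → ℝ≥0∞)
    (hF : ∀ l, ∫⁻ r, F (l ++ true :: r) ∂runLaw w α ≤ ∫⁻ r, F (l ++ false :: r) ∂runLaw w α) :
    ∫⁻ r, F r ∂runLaw w α' ≤ ∫⁻ r, F r ∂runLaw w α := by
  refine le_tr w α' F fun n => ?_
  induction n generalizing F with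
  | zero => exact zero_le
  | succ n ih =>
    rw [tr, lintegral_cons w α F]
    refine add_le_add le_rfl ?_
    have h1 := ih (fun r => F (true :: r)) fun l => hF (true :: l)
    have h2 := ih (fun r => F (false :: r)) fun l => hF (false :: l)
    refine (add_le_add (mul_le_mul_right h1 _) (mul_le_mul_right h2 _)).trans ?_
    have h3 := step_le w h (g := 0) (le_of_eq_of_le (add_zero _) (hF []))
    rw [mul_zero, add_zero] at h3
    exact h3

/-- One run, with the gain of the first step. -/
theorem run_mono_gain (w : Set.Ioo (0 : ℝ) 1) {α α' : Set.Ioo (0 : ℝ) 1} (h : α ≤ α') (F : Run → ℝ≥0∞) {g : ℝ≥0∞}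
    (hF : ∀ l, ∫⁻ r, F (l ++ true :: r) ∂runLaw w α ≤ ∫⁻ r, F (l ++ false :: r) ∂runLaw w α)
    (hg : ∫⁻ r, F (true :: r) ∂runLaw w α + g ≤ ∫⁻ r, F (false :: r) ∂runLaw w α) :
    ∫⁻ r, F r ∂runLaw w α' + ENNReal.ofReal (w * (α' - α) / 2) * g ≤ ∫⁻ r, F r ∂runLaw w α := by
  rw [lintegral_cons w α F, lintegral_cons w α' F, add_assoc]
  refine add_le_add le_rfl ?_
  have h1 := run_mono w h (fun r => F (true :: r)) fun l => hF (true :: l)
  have h2 := run_mono w h (fun r => F (false :: r)) fun l => hF (false :: l)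
  refine (add_le_add (add_le_add (mul_le_mul_right h1 _) (mul_le_mul_right h2 _)) le_rfl).trans ?_
  exact step_le w h hg

end FDr.MA
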