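import Pool.Agent.Lib.MP_e029a2_pr.G2

/-!
# Job G4: the height walk enters near the level `m` (overshoot)

Write `P(X_j = h) = hz j h`, `G` from `hz_green`.  Let `tl L = ∑'_{i ≥ 1} ∑'_{k > L + i} dispP k` (naturals); it is
finite and tends to `0` as `L → ∞` by `dispP k ≤ K s^(-k)` (`s > 1` from `exists_upper`, `K = kap s`:
one term of `kap_tsum`).  Choose `L` with `G * tl L ≤ 1/4`.
For `m ≥ 1` and `J`: (1) `∑'_{h ≥ m} hz (j+1) h ≤ ∑'_{h ≥ m} hz j h + ∑'_{h < m} hz j h * ∑'_{k ≥ m-h} dispP k`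
(split the defining sum according to the previous height); the last inner sum is split into
`m - h ≤ k ≤ m - h + L` and `k > m - h + L`; the first part contributes at most `∑_{l ≤ L} hz (j+1) (m+l)`
(`∑'_h hz j h * dispP (m + l - h) = hz (j+1) (m+l)`).  Summing over `j < J` and using `∑'_{h≥m} hz 0 h = 0`:
`∑'_{h ≥ m} hz J h ≤ ∑_{j<J} ∑_{l≤L} hz (j+1) (m+l) + G tl L`.
(2) lower tail: `∑'_{h<m} hz J h ≤ kap s ^ J * s^(-m)` for the `s < 1` of `exists_lower` (Markov: for `h < m`,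
`1 ≤ s^h s^(-m)`), which is `≤ 1/4` if `J = A m`, where `kap s ^ A ≤ s/4`.  So with `hz_sum`:
`∑_{j<J} ∑_{l≤L} hz (j+1) (m+l) ≥ 3/4 - 1/4 = 1/2`.
(3) `hz (j+1) (m+l) * dispP (-l) ≤ hz (j+2) m` (`hz_succ_ge`), so with `δ = min_{l ≤ L} dispP (-l) > 0` (`dispP_pos`):
`(L+1) ∑_{j < J+2} hz j m ≥ δ/2`.  Take `A' = A + 2` (`m ≥ 1`, so `A m + 2 ≤ A' m`), `c = (δ/(2(L+1))).toReal`.
-/

set_option autoImplicit false

namespace FDr

open MeasureTheory
open scoped ENNReal

/-- the tail of the displacement -/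
private noncomputable def g4T (w α : Set.Ioo (0 : ℝ) 1) (x : ℤ) : ℝ≥0∞ := ∑' k : ℤ, if x ≤ k then dispP w α k else 0

private theorem g4_hz_succ (w α : Set.Ioo (0 : ℝ) 1) (j : ℕ) (h : ℤ) :
    hz w α (j + 1) h = ∑' h' : ℤ, dispP w α (h - h') * hz w α j h' := by
  show ∑' k : ℤ, dispP w α k * hz w α j (h - k) = _
  rw [← (Equiv.subLeft h).tsum_eq]
  refine tsum_congr fun k => ?_
  rw [Equiv.subLeft_apply, sub_sub_cancel]

private theorem g4_shift (w α : Set.Ioo (0 : ℝ) 1) (h' : ℤ) : ∑' h : ℤ, dispP w α (h - h') = 1 := by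
  rw [← dispP_sum w α]
  exact (Equiv.subRight h').tsum_eq fun k => dispP w α k

private theorem g4_shiftT (w α : Set.Ioo (0 : ℝ) 1) (h' x : ℤ) :
    (∑' h : ℤ, if x ≤ h then dispP w α (h - h') else 0) = g4T w α (x - h') := by
  unfold g4T
  rw [← (Equiv.subRight h').tsum_eq fun k => if x - h' ≤ k then dispP w α k else 0]
  refine tsum_congr fun h => ?_
  rw [Equiv.subRight_apply]
  by_cases hx : x ≤ h
  · rw [if_pos hx, if_pos (by omega)]
  · rw [if_neg hx, if_neg (by omega)]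

/-- one step -/
private theorem g4_step (w α : Set.Ioo (0 : ℝ) 1) (j m L : ℕ) :
    (∑' h : ℤ, if (m : ℤ) ≤ h then hz w α (j + 1) h else 0) ≤
      (∑' h : ℤ, if (m : ℤ) ≤ h then hz w α j h else 0) +
      (∑ l ∈ Finset.range (L + 1), hz w α (j + 1) (m + l)) +
      ∑' h : ℤ, (if h < m then hz w α j h * g4T w α (m + L + 1 - h) else 0) := by
  have h1 : ∀ h h' : ℤ, (if (m : ℤ) ≤ h then dispP w α (h - h') * hz w α j h' else 0) ≤
      (dispP w α (h - h') * (if (m : ℤ) ≤ h' then hz w α j h' else 0)) +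
      (∑ l ∈ Finset.range (L + 1), if h = m + (l : ℤ) then dispP w α (h - h') * hz w α j h' else 0) +
      (if h' < m then hz w α j h' * (if (m : ℤ) + L + 1 ≤ h then dispP w α (h - h') else 0) else 0) := by
    intro h h'
    by_cases hm : (m : ℤ) ≤ h
    · rw [if_pos hm]
      by_cases hm' : (m : ℤ) ≤ h'
      · rw [if_pos hm']
        exact le_self_add.trans le_self_add
      · rw [if_neg hm', mul_zero, zero_add, if_pos (not_le.1 hm')]
        by_cases hL : (m : ℤ) + L + 1 ≤ h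
        · rw [if_pos hL, mul_comm]
          exact le_add_self
        · refine le_trans ?_ le_self_add
          have hl : (h - m).toNat ∈ Finset.range (L + 1) := by
            rw [Finset.mem_range]
            omega
          refine le_trans ?_ (Finset.single_le_sum (f := fun l : ℕ => if h = m + (l : ℤ) then
            dispP w α (h - h') * hz w α j h' else 0) (fun _ _ => zero_le) hl)
          rw [if_pos (by omega)]
    · rw [if_neg hm]
      exact zero_le
  calc (∑' h : ℤ, if (m : ℤ) ≤ h then hz w α (j + 1) h else 0)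
      = ∑' h : ℤ, ∑' h' : ℤ, (if (m : ℤ) ≤ h then dispP w α (h - h') * hz w α j h' else 0) := by
        refine tsum_congr fun h => ?_
        by_cases hm : (m : ℤ) ≤ h
        · rw [if_pos hm, g4_hz_succ]
          exact tsum_congr fun h' => (if_pos hm).symm
        · simp [hm]
    _ ≤ ∑' h : ℤ, ∑' h' : ℤ, ((dispP w α (h - h') * (if (m : ℤ) ≤ h' then hz w α j h' else 0)) +
      (∑ l ∈ Finset.range (L + 1), if h = m + (l : ℤ) then dispP w α (h - h') * hz w α j h' else 0) +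
      (if h' < m then hz w α j h' * (if (m : ℤ) + L + 1 ≤ h then dispP w α (h - h') else 0) else 0)) :=
        ENNReal.tsum_le_tsum fun h => ENNReal.tsum_le_tsum fun h' => h1 h h'
    _ = (∑' h : ℤ, ∑' h' : ℤ, (dispP w α (h - h') * (if (m : ℤ) ≤ h' then hz w α j h' else 0))) +
      (∑' h : ℤ, ∑' h' : ℤ, ∑ l ∈ Finset.range (L + 1), if h = m + (l : ℤ) then
        dispP w α (h - h') * hz w α j h' else 0) +
      (∑' h : ℤ, ∑' h' : ℤ, if h' < m then hz w α j h' * (if (m : ℤ) + L + 1 ≤ h then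
        dispP w α (h - h') else 0) else 0) := by
        simp only [ENNReal.tsum_add]
    _ = _ := by
        congr 1
        · congr 1
          · rw [ENNReal.tsum_comm]
            refine tsum_congr fun h' => ?_
            rw [ENNReal.tsum_mul_right, g4_shift, one_mul]
          · have h2 : ∀ h : ℤ, (∑' h' : ℤ, ∑ l ∈ Finset.range (L + 1), if h = m + (l : ℤ) then
                dispP w α (h - h') * hz w α j h' else 0) = ∑ l ∈ Finset.range (L + 1), if h = m + (l : ℤ) then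
                hz w α (j + 1) h else 0 := by
              intro h
              rw [Summable.tsum_finsetSum fun _ _ => ENNReal.summable]
              refine Finset.sum_congr rfl fun l _ => ?_
              by_cases hl : h = m + (l : ℤ)
              · simp only [if_pos hl]
                rw [g4_hz_succ]
              · simp only [if_neg hl, tsum_zero]
            rw [tsum_congr h2, Summable.tsum_finsetSum fun _ _ => ENNReal.summable]
            refine Finset.sum_congr rfl fun l _ => ?_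
            rw [tsum_eq_single (m + (l : ℤ)), if_pos rfl]
            intro h hh
            exact if_neg hh
        · rw [ENNReal.tsum_comm]
          refine tsum_congr fun h' => ?_
          by_cases hm : h' < m
          · simp only [if_pos hm]
            rw [ENNReal.tsum_mul_left, g4_shiftT]
          · simp only [if_neg hm, tsum_zero]

private theorem g4_sum (w α : Set.Ioo (0 : ℝ) 1) (m L : ℕ) (hm : 1 ≤ m) (J : ℕ) :
    (∑' h : ℤ, if (m : ℤ) ≤ h then hz w α J h else 0) ≤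
      (∑ j ∈ Finset.range J, ∑ l ∈ Finset.range (L + 1), hz w α (j + 1) (m + l)) +
      ∑ j ∈ Finset.range J, ∑' h : ℤ, (if h < m then hz w α j h * g4T w α (m + L + 1 - h) else 0) := by
  induction J with
  | zero =>
    have h1 : ∀ h : ℤ, (if (m : ℤ) ≤ h then hz w α 0 h else 0) = 0 := by
      intro h
      by_cases hh : (m : ℤ) ≤ h
      · rw [if_pos hh]
        show (if h = 0 then (1 : ℝ≥0∞) else 0) = 0
        exact if_neg (by omega)
      · exact if_neg hh
    rw [tsum_congr h1, tsum_zero]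
    exact zero_le
  | succ J ih =>
    rw [Finset.sum_range_succ _ J, Finset.sum_range_succ _ J]
    refine (g4_step w α J m L).trans ?_
    calc _ ≤ ((∑ j ∈ Finset.range J, ∑ l ∈ Finset.range (L + 1), hz w α (j + 1) (m + l)) +
      ∑ j ∈ Finset.range J, ∑' h : ℤ, (if h < m then hz w α j h * g4T w α (m + L + 1 - h) else 0)) +
      (∑ l ∈ Finset.range (L + 1), hz w α (J + 1) (m + l)) +
      ∑' h : ℤ, (if h < m then hz w α J h * g4T w α (m + L + 1 - h) else 0) := by gcongr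
      _ = _ := by ring

/-- the total weight of the long jumps -/
private noncomputable def g4tl (w α : Set.Ioo (0 : ℝ) 1) (L : ℕ) : ℝ≥0∞ :=
  ∑' i : ℤ, if 0 < i then g4T w α (i + L + 1) else 0

private theorem g4_far (w α : Set.Ioo (0 : ℝ) 1) (m L : ℕ) (J : ℕ) {G : ℝ≥0∞}
    (hG : ∀ h : ℤ, ∑' j : ℕ, hz w α j h ≤ G) :
    ∑ j ∈ Finset.range J, ∑' h : ℤ, (if h < m then hz w α j h * g4T w α (m + L + 1 - h) else 0) ≤
      G * g4tl w α L := by
  calc _ ≤ ∑' j : ℕ, ∑' h : ℤ, (if h < m then hz w α j h * g4T w α (m + L + 1 - h) else 0) := ENNReal.sum_le_tsum _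
    _ = ∑' h : ℤ, ∑' j : ℕ, (if h < m then hz w α j h * g4T w α (m + L + 1 - h) else 0) := ENNReal.tsum_comm
    _ ≤ ∑' h : ℤ, G * (if h < m then g4T w α (m + L + 1 - h) else 0) := by
        refine ENNReal.tsum_le_tsum fun h => ?_
        by_cases hh : h < m
        · simp only [if_pos hh]
          rw [ENNReal.tsum_mul_right]
          exact mul_le_mul_left (hG h) _
        · simp only [if_neg hh, tsum_zero, mul_zero, le_refl]
    _ = G * ∑' h : ℤ, (if h < m then g4T w α (m + L + 1 - h) else 0) := ENNReal.tsum_mul_left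
    _ = _ := by
        congr 1
        unfold g4tl
        rw [← (Equiv.subLeft (m : ℤ)).tsum_eq]
        refine tsum_congr fun i => ?_
        rw [Equiv.subLeft_apply]
        by_cases hi : 0 < i
        · rw [if_pos (by omega), if_pos hi]
          congr 1
          ring
        · rw [if_neg (by omega), if_neg hi]

private theorem g4_geom {r : ℝ} (hr0 : 0 < r) (hr1 : r < 1) (x : ℤ) :
    (∑' k : ℤ, if x ≤ k then ENNReal.ofReal (r ^ k) else 0) = ENNReal.ofReal (r ^ x * (1 - r)⁻¹) := by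
  have hinj : Function.Injective fun n : ℕ => x + (n : ℤ) := fun a b hab => by
    simpa using hab
  rw [← hinj.tsum_eq]
  · have h1 : ∀ n : ℕ, (if x ≤ x + (n : ℤ) then ENNReal.ofReal (r ^ (x + (n : ℤ))) else 0) =
        ENNReal.ofReal (r ^ x) * ENNReal.ofReal r ^ n := by
      intro n
      rw [if_pos (by omega), zpow_add₀ hr0.ne', ENNReal.ofReal_mul (zpow_pos hr0 x).le, zpow_natCast,
        ENNReal.ofReal_pow hr0.le]
    rw [tsum_congr h1, ENNReal.tsum_mul_left, ENNReal.tsum_geometric, ENNReal.ofReal_mul (zpow_pos hr0 x).le,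
      ENNReal.ofReal_inv_of_pos (by linarith), ENNReal.ofReal_sub _ hr0.le, ENNReal.ofReal_one]
  · intro k hk
    have hk' : x ≤ k := by
      by_contra hx
      exact hk (if_neg hx)
    exact ⟨(k - x).toNat, by simp only; omega⟩

/-- the long jumps are unlikely -/
private theorem g4_tl (w α : Set.Ioo (0 : ℝ) 1) : ∃ (r c : ℝ), 0 < r ∧ r < 1 ∧ 0 ≤ c ∧ ∀ L : ℕ,
    g4tl w α L ≤ ENNReal.ofReal (c * r ^ L) := by
  obtain ⟨s, hs, hK⟩ := exists_upper w α
  have hs0 : 0 < s := by linarith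
  have hr0 : 0 < s⁻¹ := inv_pos.2 hs0
  have hr1 : s⁻¹ < 1 := inv_lt_one_of_one_lt₀ hs
  have hd : ∀ k : ℤ, dispP w α k ≤ kap w α s * ENNReal.ofReal (s⁻¹ ^ k) := by
    intro k
    have h1 : dispP w α k * ENNReal.ofReal (s ^ k) ≤ kap w α s := by
      rw [kap_tsum w α s hs0]
      exact ENNReal.le_tsum k
    have h2 : ENNReal.ofReal (s ^ k) * ENNReal.ofReal (s⁻¹ ^ k) = 1 := by
      rw [← ENNReal.ofReal_mul (zpow_pos hs0 k).le, ← mul_zpow, mul_inv_cancel₀ hs0.ne', one_zpow, ENNReal.ofReal_one]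
    calc dispP w α k = dispP w α k * ENNReal.ofReal (s ^ k) * ENNReal.ofReal (s⁻¹ ^ k) := by
          rw [mul_assoc, h2, mul_one]
      _ ≤ _ := mul_le_mul_left h1 _
  have hT : ∀ x : ℤ, g4T w α x ≤ kap w α s * ENNReal.ofReal (s⁻¹ ^ x * (1 - s⁻¹)⁻¹) := by
    intro x
    rw [← g4_geom hr0 hr1 x, ← ENNReal.tsum_mul_left]
    refine ENNReal.tsum_le_tsum fun k => ?_
    by_cases hk : x ≤ k
    · rw [if_pos hk, if_pos hk]
      exact hd k
    · rw [if_neg hk, if_neg hk, mul_zero]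
  have h1r : 0 < (1 - s⁻¹)⁻¹ := inv_pos.2 (by linarith)
  refine ⟨s⁻¹, (kap w α s).toReal * (1 - s⁻¹)⁻¹ * (1 - s⁻¹)⁻¹, hr0, hr1, by positivity, fun L => ?_⟩
  calc g4tl w α L ≤ ∑' i : ℤ, (if 1 ≤ i then kap w α s * ENNReal.ofReal (s⁻¹ ^ L * (1 - s⁻¹)⁻¹) *
        ENNReal.ofReal (s⁻¹ ^ i) else 0) := by
        unfold g4tl
        refine ENNReal.tsum_le_tsum fun i => ?_
        by_cases hi : 0 < i
        · rw [if_pos hi, if_pos (by omega)]
          refine (hT _).trans ?_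
          rw [mul_assoc]
          refine mul_le_mul_right ?_ _
          rw [← ENNReal.ofReal_mul (by positivity)]
          refine ENNReal.ofReal_le_ofReal ?_
          rw [show i + (L : ℤ) + 1 = (L : ℤ) + i + 1 by ring, zpow_add₀ hr0.ne', zpow_add₀ hr0.ne', zpow_natCast, zpow_one]
          have h5 : 0 < s⁻¹ ^ L * s⁻¹ ^ i * (1 - s⁻¹)⁻¹ := by positivity
          nlinarith
        · rw [if_neg hi]
          exact zero_le
    _ = kap w α s * ENNReal.ofReal (s⁻¹ ^ L * (1 - s⁻¹)⁻¹) * ∑' i : ℤ, (if 1 ≤ i then ENNReal.ofReal (s⁻¹ ^ i) else 0) := by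
        rw [← ENNReal.tsum_mul_left]
        refine tsum_congr fun i => ?_
        by_cases hi : 1 ≤ i
        · rw [if_pos hi, if_pos hi]
        · rw [if_neg hi, if_neg hi, mul_zero]
    _ ≤ kap w α s * ENNReal.ofReal (s⁻¹ ^ L * (1 - s⁻¹)⁻¹) * ENNReal.ofReal ((1 - s⁻¹)⁻¹) := by
        refine mul_le_mul_right ?_ _
        rw [g4_geom hr0 hr1 1, zpow_one]
        refine ENNReal.ofReal_le_ofReal ?_
        nlinarith
    _ = _ := by
        rw [← ENNReal.ofReal_toReal hK.ne, ← ENNReal.ofReal_mul ENNReal.toReal_nonneg,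
          ← ENNReal.ofReal_mul (by positivity), ENNReal.toReal_ofReal ENNReal.toReal_nonneg]
        congr 1
        ring

/-- the lower tail -/
private theorem g4_low (w α : Set.Ioo (0 : ℝ) 1) : ∃ A : ℕ, ∀ m : ℕ, 1 ≤ m →
    (∑' h : ℤ, if h < (m : ℤ) then hz w α (A * m) h else 0) ≤ 4⁻¹ := by
  obtain ⟨s, hs0, hs1, hK⟩ := exists_lower w α
  have hc : 0 < ENNReal.ofReal s / 4 :=
    ENNReal.div_pos (ENNReal.ofReal_pos.2 hs0).ne' (by norm_num)
  obtain ⟨A, hA⟩ := ((ENNReal.tendsto_pow_atTop_nhds_zero_of_lt_one hK).eventually_lt_const hc).exists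
  refine ⟨A, fun m hm => ?_⟩
  have hsi : 0 < s⁻¹ := inv_pos.2 hs0
  have h1 : ∀ h : ℤ, (if h < (m : ℤ) then hz w α (A * m) h else 0) ≤
      hz w α (A * m) h * ENNReal.ofReal (s ^ h) * ENNReal.ofReal (s⁻¹ ^ m) := by
    intro h
    by_cases hh : h < (m : ℤ)
    · rw [if_pos hh, mul_assoc, ← ENNReal.ofReal_mul (zpow_pos hs0 h).le]
      refine le_mul_of_one_le_right' ?_
      rw [← ENNReal.ofReal_one]
      refine ENNReal.ofReal_le_ofReal ?_
      have h2 : s ^ (m : ℤ) ≤ s ^ h := zpow_le_zpow_right_of_le_one₀ hs0 hs1.le hh.le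
      rw [zpow_natCast] at h2
      calc (1 : ℝ) = s ^ m * s⁻¹ ^ m := by rw [← mul_pow, mul_inv_cancel₀ hs0.ne', one_pow]
        _ ≤ _ := mul_le_mul_of_nonneg_right h2 (by positivity)
    · rw [if_neg hh]
      exact zero_le
  refine (ENNReal.tsum_le_tsum h1).trans ?_
  rw [ENNReal.tsum_mul_right, hz_gen w α s hs0]
  have h2 : ENNReal.ofReal (s⁻¹ ^ m) = (ENNReal.ofReal s)⁻¹ ^ m := by
    rw [ENNReal.ofReal_pow hsi.le, ENNReal.ofReal_inv_of_pos hs0]
  rw [h2, pow_mul, ← mul_pow]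
  have h3 : kap w α s ^ A * (ENNReal.ofReal s)⁻¹ ≤ 4⁻¹ := by
    calc kap w α s ^ A * (ENNReal.ofReal s)⁻¹ ≤ (ENNReal.ofReal s / 4) * (ENNReal.ofReal s)⁻¹ :=
          mul_le_mul_left hA.le _
      _ = 4⁻¹ * (ENNReal.ofReal s * (ENNReal.ofReal s)⁻¹) := by
          rw [div_eq_mul_inv]
          ring
      _ = 4⁻¹ := by
          rw [ENNReal.mul_inv_cancel (ENNReal.ofReal_pos.2 hs0).ne' ENNReal.ofReal_ne_top, mul_one]
  have h4 : (4 : ℝ≥0∞)⁻¹ ≤ 1 := ENNReal.inv_le_one.2 (by norm_num)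
  calc (kap w α s ^ A * (ENNReal.ofReal s)⁻¹) ^ m ≤ (4⁻¹ : ℝ≥0∞) ^ m := pow_le_pow_left₀ zero_le h3 m
    _ ≤ 4⁻¹ := pow_le_of_le_one zero_le h4 (by omega)

theorem hz_lower (w α : Set.Ioo (0 : ℝ) 1) : ∃ (A : ℕ) (c : ℝ), 0 < c ∧ ∀ m : ℕ, 1 ≤ m →
    ENNReal.ofReal c ≤ ∑ j ∈ Finset.range (A * m), hz w α j m := by
  obtain ⟨G, hG0, hG⟩ := hz_green w α
  obtain ⟨r, c, hr0, hr1, hc, htl⟩ := g4_tl w α
  obtain ⟨A, hA⟩ := g4_low w α
  -- the choice of `L`
  obtain ⟨L, hL⟩ : ∃ L : ℕ, G * (c * r ^ L) < 1 / 4 := by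
    have h1 : Filter.Tendsto (fun L : ℕ => G * (c * r ^ L)) Filter.atTop (nhds (G * (c * 0))) :=
      ((tendsto_pow_atTop_nhds_zero_of_lt_one hr0.le hr1).const_mul c).const_mul G
    rw [mul_zero, mul_zero] at h1
    exact (h1.eventually_lt_const (by norm_num)).exists
  have hfar : ENNReal.ofReal G * g4tl w α L ≤ 4⁻¹ := by
    calc ENNReal.ofReal G * g4tl w α L ≤ ENNReal.ofReal G * ENNReal.ofReal (c * r ^ L) :=
          mul_le_mul_right (htl L) _
      _ = ENNReal.ofReal (G * (c * r ^ L)) := (ENNReal.ofReal_mul hG0.le).symm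
      _ ≤ ENNReal.ofReal (1 / 4) := ENNReal.ofReal_le_ofReal hL.le
      _ = 4⁻¹ := by
          rw [one_div, ENNReal.ofReal_inv_of_pos (by norm_num)]
          norm_num
  -- the minimal probability
  obtain ⟨δ, hδ0, hδ1, hδ⟩ : ∃ δ : ℝ≥0∞, 0 < δ ∧ δ ≤ 1 ∧ ∀ l ∈ Finset.range (L + 1), δ ≤ dispP w α (-(l : ℤ)) := by
    refine ⟨(Finset.range (L + 1)).inf' ⟨0, by simp⟩ fun l => dispP w α (-(l : ℤ)), ?_, ?_, ?_⟩
    · rw [Finset.lt_inf'_iff]
      exact fun l _ => dispP_pos w α _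
    · refine (Finset.inf'_le _ (Finset.mem_range.2 (Nat.succ_pos L))).trans ?_
      rw [← dispP_sum w α]
      exact ENNReal.le_tsum _
    · exact fun l hl => Finset.inf'_le _ hl
  have hδt : δ ≠ ⊤ := ne_top_of_le_ne_top ENNReal.one_ne_top hδ1
  have hden0 : (2 * ((L : ℝ≥0∞) + 1)) ≠ 0 := by
    refine mul_ne_zero two_ne_zero ?_
    exact (lt_of_lt_of_le one_pos le_add_self).ne'
  have hdent : (2 * ((L : ℝ≥0∞) + 1)) ≠ ⊤ :=
    ENNReal.mul_ne_top ENNReal.ofNat_ne_top (ENNReal.add_ne_top.2 ⟨ENNReal.natCast_ne_top L, ENNReal.one_ne_top⟩)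
  have hct : δ / (2 * ((L : ℝ≥0∞) + 1)) ≠ ⊤ := ENNReal.div_ne_top hδt hden0
  refine ⟨A + 2, (δ / (2 * ((L : ℝ≥0∞) + 1))).toReal, ?_, fun m hm => ?_⟩
  · exact ENNReal.toReal_pos (ENNReal.div_pos hδ0.ne' hdent).ne' hct
  rw [ENNReal.ofReal_toReal hct]
  -- the lower bound of the near entries
  have h1 : (1 : ℝ≥0∞) ≤ (∑ j ∈ Finset.range (A * m), ∑ l ∈ Finset.range (L + 1), hz w α (j + 1) (m + l)) + 2⁻¹ := by
    calc (1 : ℝ≥0∞) = ∑' h : ℤ, hz w α (A * m) h := (hz_sum w α _).symm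
      _ = (∑' h : ℤ, if (m : ℤ) ≤ h then hz w α (A * m) h else 0) +
          ∑' h : ℤ, (if h < (m : ℤ) then hz w α (A * m) h else 0) := by
          rw [← ENNReal.tsum_add]
          refine tsum_congr fun h => ?_
          by_cases hh : (m : ℤ) ≤ h
          · rw [if_pos hh, if_neg (not_lt.2 hh), add_zero]
          · rw [if_neg hh, if_pos (not_le.1 hh), zero_add]
      _ ≤ ((∑ j ∈ Finset.range (A * m), ∑ l ∈ Finset.range (L + 1), hz w α (j + 1) (m + l)) + 4⁻¹) + 4⁻¹ := by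
          refine add_le_add ((g4_sum w α m L hm (A * m)).trans (add_le_add le_rfl ?_)) (hA m hm)
          exact (g4_far w α m L (A * m) hG).trans hfar
      _ = _ := by
          rw [add_assoc]
          congr 1
          have h4 : (2 : ℝ≥0∞)⁻¹ * 2⁻¹ = 4⁻¹ := by
            rw [← ENNReal.mul_inv (Or.inl two_ne_zero) (Or.inl ENNReal.ofNat_ne_top)]
            norm_num
          rw [← h4, ← mul_add, ENNReal.inv_two_add_inv_two, mul_one]
  have h2 : (2 : ℝ≥0∞)⁻¹ ≤ ∑ j ∈ Finset.range (A * m), ∑ l ∈ Finset.range (L + 1), hz w α (j + 1) (m + l) := by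
    have h3 : (2 : ℝ≥0∞)⁻¹ + 2⁻¹ ≤ (∑ j ∈ Finset.range (A * m), ∑ l ∈ Finset.range (L + 1), hz w α (j + 1) (m + l)) + 2⁻¹ := by
      rw [ENNReal.inv_two_add_inv_two]
      exact h1
    exact (ENNReal.add_le_add_iff_right (ENNReal.inv_ne_top.2 two_ne_zero)).1 h3
  -- from the near entries to `m`
  have h3 : ∀ j : ℕ, δ * ∑ l ∈ Finset.range (L + 1), hz w α (j + 1) (m + l) ≤ (L + 1) * hz w α (j + 2) m := by
    intro j
    rw [Finset.mul_sum]
    calc _ ≤ ∑ l ∈ Finset.range (L + 1), hz w α (j + 2) m := by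
          refine Finset.sum_le_sum fun l hl => ?_
          refine (mul_le_mul_left (hδ l hl) _).trans ((hz_succ_ge w α (j + 1) (m + l) (-(l : ℤ))).trans ?_)
          rw [add_neg_cancel_right]
      _ = _ := by
          rw [Finset.sum_const, Finset.card_range, nsmul_eq_mul]
          push_cast
          rfl
  have h4 : δ * 2⁻¹ ≤ (L + 1) * ∑ j ∈ Finset.range ((A + 2) * m), hz w α j m := by
    calc δ * 2⁻¹ ≤ δ * ∑ j ∈ Finset.range (A * m), ∑ l ∈ Finset.range (L + 1), hz w α (j + 1) (m + l) :=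
          mul_le_mul_right h2 _
      _ = ∑ j ∈ Finset.range (A * m), δ * ∑ l ∈ Finset.range (L + 1), hz w α (j + 1) (m + l) := Finset.mul_sum _ _ _
      _ ≤ ∑ j ∈ Finset.range (A * m), (L + 1) * hz w α (j + 2) m := Finset.sum_le_sum fun j _ => h3 j
      _ = (L + 1) * ∑ j ∈ Finset.range (A * m), hz w α (j + 2) m := (Finset.mul_sum _ _ _).symm
      _ ≤ (L + 1) * ∑ j ∈ Finset.range (A * m + 2), hz w α j m := by
          refine mul_le_mul_right ?_ _
          rw [Finset.sum_range_succ' _ (A * m + 1), Finset.sum_range_succ' _ (A * m)]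
          exact le_self_add.trans le_self_add
      _ ≤ _ := by
          refine mul_le_mul_right (Finset.sum_le_sum_of_subset (Finset.range_mono ?_)) _
          nlinarith
  refine ENNReal.div_le_of_le_mul ?_
  have h5 : δ ≤ 2 * (δ * 2⁻¹) := by
    rw [mul_comm δ, ← mul_assoc, ENNReal.mul_inv_cancel two_ne_zero ENNReal.ofNat_ne_top, one_mul]
  calc δ ≤ 2 * (δ * 2⁻¹) := h5
    _ ≤ 2 * ((L + 1) * ∑ j ∈ Finset.range ((A + 2) * m), hz w α j m) := mul_le_mul_right h4 _
    _ = _ := by ring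

end FDr
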