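import Pool.Agent.Lib.MP_e029a2_pr.SFirst
import Pool.Agent.Lib.MP_e029a2_pr.AnS

/-!
# The first frog is far from finitely many lines (job ZFar)

(1) `ent_even`: for `j` even, `(ent c 0 j).2` is even: the sum of the coordinates of `dv d` is `± 1`, so the sum of the
coordinates of a sum of `j` directions has the parity of `j` (`ent c 0 j = ∑ i < j, cvec (c (0, i))`).
(2) `far`: the probability that `(ent c 0 j).2` is at distance `< ρ` of a point of `B` tends to 0: the set `V` of the points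
`v` with `∑ i, |v i - b i| < ρ` for some `b ∈ B` is finite (coordinates between `b i - ρ` and `b i + ρ`); by `Q_sum` (with
`x = 0`, frog cells from 0) `Q {(ent c 0 j).2 = v} = ∑' h, hz j h * srw D j v ≤ srw D j v` (`∑' h, hz w α j h ≤ 1`; or
`= srw D j v`), and `an4` with `ε / |V|`.
-/

set_option autoImplicit false

namespace FDr

open MeasureTheory ProbabilityTheory
open scoped ENNReal

private theorem ZFar_single {D : ℕ} (d : Dir D) : ∑ i, dv d i = sg d.2 := by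
  unfold dv
  rw [Finset.sum_eq_single d.1]
  · rw [Pi.single_eq_same]
  · intro i _ hi
    rw [Pi.single_eq_of_ne hi]
  · intro h
    exact absurd (Finset.mem_univ _) h

private theorem ZFar_par {D : ℕ} (c : Conf D) (j : ℕ) : Even ((∑ i, (ent c 0 j).2 i) - (j : ℤ)) := by
  induction j with
  | zero =>
    refine ⟨0, ?_⟩
    unfold ent
    simp
  | succ j ih =>
    have h1 : ∀ i, (ent c 0 (j + 1)).2 i = (ent c 0 j).2 i + dv (c (0, j)).2 i := by
      intro i
      unfold ent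
      rw [Finset.sum_range_succ, ← add_assoc]
      rfl
    rw [Finset.sum_congr rfl fun i _ => h1 i, Finset.sum_add_distrib, ZFar_single]
    obtain ⟨r, hr⟩ := ih
    unfold sg
    split_ifs
    · exact ⟨r, by push_cast; linarith⟩
    · exact ⟨r - 1, by push_cast; linarith⟩

theorem ent_even {D : ℕ} (c : Conf D) (j : ℕ) (hj : Even j) : evn (ent c 0 j).2 := by
  have h1 := ZFar_par c j
  have h2 : Even (j : ℤ) := by exact_mod_cast hj
  have h3 := h1.add h2
  rw [sub_add_cancel] at h3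
  exact h3

private theorem ZFar_disp (w α : Set.Ioo (0 : ℝ) 1) : ∑' k : ℤ, dispP w α k = 1 := by
  have h1 := lint_part (runLaw w α) dsp (measurable_of_countable _) (fun _ => True) MeasurableSet.univ
  have h2 : {ω : Run | True} = Set.univ := Set.eq_univ_of_forall fun _ => trivial
  rw [h2, measure_univ] at h1
  rw [h1]
  refine tsum_congr fun k => ?_
  unfold dispP
  congr 1
  ext l
  exact ⟨fun h => ⟨trivial, h⟩, fun h => h.2⟩

private theorem ZFar_hz (w α : Set.Ioo (0 : ℝ) 1) (j : ℕ) : ∑' h : ℤ, hz w α j h = 1 := by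
  induction j with
  | zero =>
    show ∑' h : ℤ, (if h = 0 then (1 : ℝ≥0∞) else 0) = 1
    rw [tsum_ite_eq]
  | succ j ih =>
    show ∑' h : ℤ, ∑' k : ℤ, dispP w α k * hz w α j (h - k) = 1
    rw [ENNReal.tsum_comm]
    have h1 : ∀ k : ℤ, ∑' h : ℤ, dispP w α k * hz w α j (h - k) = dispP w α k := by
      intro k
      rw [ENNReal.tsum_mul_left]
      have h2 : ∑' h : ℤ, hz w α j (h - k) = ∑' h : ℤ, hz w α j h := (Equiv.subRight k).tsum_eq (hz w α j)
      rw [h2, ih, mul_one]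
    rw [tsum_congr h1, ZFar_disp]

private theorem ZFar_line (w α : Set.Ioo (0 : ℝ) 1) (D : ℕ) [NeZero D] (j : ℕ) (v : Fin D → ℤ) :
    Q w α D {c | (ent c 0 j).2 = v} ≤ srw D j v := by
  have h1 : {c : Conf D | (ent c 0 j).2 = v} ⊆ ⋃ h : ℤ, {c | ∑ t ∈ Finset.range j, cvec (c (0, 0 + t)) = (h, v)} := by
    intro c hc
    rw [Set.mem_iUnion]
    refine ⟨(ent c 0 j).1, ?_⟩
    show ∑ t ∈ Finset.range j, cvec (c (0, 0 + t)) = ((ent c 0 j).1, v)
    have h2 : (ent c 0 j).2 = v := hc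
    rw [← h2]
    show _ = ent c 0 j
    unfold ent
    rw [zero_add]
    refine Finset.sum_congr rfl fun t _ => ?_
    rw [zero_add]
  refine (measure_mono h1).trans ((measure_iUnion_le _).trans ?_)
  have h2 : ∀ h : ℤ, Q w α D {c | ∑ t ∈ Finset.range j, cvec (c (0, 0 + t)) = (h, v)} = hz w α j h * srw D j v :=
    fun h => Q_sum w α 0 0 j (h, v)
  rw [tsum_congr h2, ENNReal.tsum_mul_right, ZFar_hz, one_mul]

theorem far (w α : Set.Ioo (0 : ℝ) 1) (D : ℕ) [NeZero D] (B : Finset (Fin D → ℤ)) (ρ : ℕ) (ε : ℝ≥0∞) (hε : 0 < ε) :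
    ∃ j0 : ℕ, ∀ j, j0 ≤ j → Q w α D {c | ∃ b ∈ B, ∑ i, |(ent c 0 j).2 i - b i| < (ρ : ℤ)} ≤ ε := by
  classical
  obtain ⟨V, hV⟩ : ∃ V : Finset (Fin D → ℤ), V = B.biUnion fun b => Finset.Icc (fun i => b i - (ρ : ℤ)) (fun i => b i + (ρ : ℤ)) :=
    ⟨_, rfl⟩
  have hn : ((V.card : ℝ≥0∞) + 1) ≠ ⊤ := ENNReal.add_ne_top.2 ⟨ENNReal.natCast_ne_top _, ENNReal.one_ne_top⟩
  obtain ⟨j0, hj0⟩ := an4 D (NeZero.one_le) (ε / (V.card + 1)) (ENNReal.div_pos hε.ne' hn)
  refine ⟨j0, fun j hj => ?_⟩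
  have h1 : {c : Conf D | ∃ b ∈ B, ∑ i, |(ent c 0 j).2 i - b i| < (ρ : ℤ)} ⊆ ⋃ v ∈ V, {c | (ent c 0 j).2 = v} := by
    rintro c ⟨b, hb, hc⟩
    rw [Set.mem_iUnion₂]
    refine ⟨(ent c 0 j).2, ?_, rfl⟩
    rw [hV, Finset.mem_biUnion]
    refine ⟨b, hb, ?_⟩
    have h2 : ∀ i, |(ent c 0 j).2 i - b i| ≤ (ρ : ℤ) := by
      intro i
      refine le_trans ?_ hc.le
      exact Finset.single_le_sum (f := fun i => |(ent c 0 j).2 i - b i|) (fun i _ => abs_nonneg _) (Finset.mem_univ i)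
    rw [Finset.mem_Icc]
    constructor
    · intro i
      have h3 := (abs_le.1 (h2 i)).1
      show b i - (ρ : ℤ) ≤ (ent c 0 j).2 i
      linarith
    · intro i
      have h3 := (abs_le.1 (h2 i)).2
      show (ent c 0 j).2 i ≤ b i + (ρ : ℤ)
      linarith
  calc Q w α D {c | ∃ b ∈ B, ∑ i, |(ent c 0 j).2 i - b i| < (ρ : ℤ)}
      ≤ Q w α D (⋃ v ∈ V, {c | (ent c 0 j).2 = v}) := measure_mono h1
    _ ≤ ∑ v ∈ V, Q w α D {c | (ent c 0 j).2 = v} := measure_biUnion_finset_le _ _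
    _ ≤ ∑ v ∈ V, ε / (V.card + 1) := Finset.sum_le_sum fun v _ => (ZFar_line w α D j v).trans (hj0 j hj v)
    _ = V.card * (ε / (V.card + 1)) := by rw [Finset.sum_const, nsmul_eq_mul]
    _ ≤ (V.card + 1) * (ε / (V.card + 1)) := mul_le_mul_left le_self_add _
    _ = ε := ENNReal.mul_div_cancel (by simp) hn

end FDr
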