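import Pool.Agent.Lib.MP_e029a2_pr.MRec

/-!
# Visits in the language of steps and of cells (job MBij)

Let `η x n = stp (fun j => c (x, j)) n` (this is `allStp c (x, n)`), `a j = c (x, j)`.
(1) `pos_off`: for `i ≤ (a j).1.length`, the position after `off a j + i` steps is `ent c x j + (dsp ((a j).1.take i), 0)`
(induction on `j` and `i` with `stp_off`; the sum of the vectors of `word (a j)` is `cvec (a j)`).
(2) every number `n` is `off a j + i` with unique `j` and `i ≤ (a j).1.length` (`off` is strictly increasing).
(3) `Active η x ↔ ActC c x` (induction in both directions: `h ∈ vis (a j).1` iff `h = dsp ((a j).1.take i)` with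
`i ≤ length`).
(4) `(x, j, i) ↦ (x, off a j + i)` is injective on `visC c` and its image is `visits η`; so one is infinite iff the other is.
-/

set_option autoImplicit false

namespace FDr

private theorem MBij_off_succ {D : ℕ} (a : ℕ → Cell D) (j : ℕ) : off a (j + 1) = off a j + (a j).1.length + 1 := by
  unfold off
  rw [Finset.sum_range_succ, add_assoc]

private theorem MBij_pos_succ {D : ℕ} (η : ℕ → Stp D) (x : Site D) (n : ℕ) : pos η x (n + 1) = pos η x n + vec (η n) := by
  unfold pos
  rw [Finset.sum_range_succ, add_assoc]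

private theorem MBij_word_lt {D : ℕ} (a : Cell D) (i : ℕ) (hi : i < a.1.length)
    (h : i < (word a).length) : (word a)[i]'h = Sum.inl (a.1[i]) := by
  unfold word
  rw [List.getElem_append_left (by rw [List.length_map]; exact hi), List.getElem_map]

private theorem MBij_word_len {D : ℕ} (a : Cell D)
    (h : a.1.length < (word a).length) : (word a)[a.1.length]'h = Sum.inr a.2 := by
  unfold word
  rw [List.getElem_append_right (by rw [List.length_map])]
  simp

private theorem MBij_line {D : ℕ} (c : Conf D) (x : Site D) (j : ℕ)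
    (h0 : pos (stp fun j => c (x, j)) x (off (fun j => c (x, j)) j) = ent c x j) (i : ℕ) (hi : i ≤ (c (x, j)).1.length) :
    pos (stp fun j => c (x, j)) x (off (fun j => c (x, j)) j + i) =
      ent c x j + (dsp ((c (x, j)).1.take i), 0) := by
  induction i with
  | zero =>
    rw [add_zero, h0, List.take_zero]
    show ent c x j = ent c x j + (0, 0)
    rw [Prod.mk_zero_zero, add_zero]
  | succ i ih =>
    have h1 := ih (Nat.le_of_succ_le hi)
    rw [← add_assoc, MBij_pos_succ, h1]
    have h2 := stp_off (fun j => c (x, j)) j i (by omega)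
    rw [h2, MBij_word_lt _ i hi, List.take_succ_eq_append_getElem hi, add_assoc]
    congr 1
    show ((dsp ((c (x, j)).1.take i), 0) : Site D) + (sg ((c (x, j)).1[i]), 0) = _
    rw [Prod.mk_add_mk, add_zero]
    congr 1
    unfold dsp
    rw [List.map_append, List.sum_append]
    simp

private theorem MBij_start {D : ℕ} (c : Conf D) (x : Site D) (j : ℕ) :
    pos (stp fun j => c (x, j)) x (off (fun j => c (x, j)) j) = ent c x j := by
  induction j with
  | zero =>
    unfold off ent pos
    simp
  | succ j ih =>
    rw [MBij_off_succ, MBij_pos_succ, MBij_line c x j ih _ le_rfl]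
    have h2 := stp_off (fun j => c (x, j)) j (c (x, j)).1.length (by omega)
    rw [h2, MBij_word_len, List.take_length]
    unfold ent
    rw [Finset.sum_range_succ, add_assoc, add_assoc]
    congr 2
    show ((dsp (c (x, j)).1, 0) : Site D) + (0, Pi.single (c (x, j)).2.1 (sg (c (x, j)).2.2)) = _
    rw [Prod.mk_add_mk, add_zero, zero_add]
    rfl

theorem pos_off {D : ℕ} (c : Conf D) (x : Site D) (j i : ℕ) (hi : i ≤ (c (x, j)).1.length) :
    pos (stp fun j => c (x, j)) x (off (fun j => c (x, j)) j + i) =
      ent c x j + (dsp ((c (x, j)).1.take i), 0) :=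
  MBij_line c x j (MBij_start c x j) i hi

theorem exists_off {D : ℕ} (a : ℕ → Cell D) (n : ℕ) : ∃ j i, i ≤ (a j).1.length ∧ n = off a j + i := by
  induction n with
  | zero =>
    refine ⟨0, 0, Nat.zero_le _, ?_⟩
    unfold off
    simp
  | succ n ih =>
    obtain ⟨j, i, hi, hn⟩ := ih
    rcases Nat.lt_or_ge i (a j).1.length with h | h
    · exact ⟨j, i + 1, h, by omega⟩
    · refine ⟨j + 1, 0, Nat.zero_le _, ?_⟩
      rw [MBij_off_succ]
      omega

private theorem MBij_off_lt {D : ℕ} (a : ℕ → Cell D) (j j' i : ℕ) (h : i ≤ (a j).1.length) (hj : j < j') :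
    off a j + i < off a j' := by
  induction j' with
  | zero => exact absurd hj (Nat.not_lt_zero j)
  | succ j' ih =>
    rw [MBij_off_succ]
    rcases Nat.lt_or_ge j j' with h1 | h1
    · have := ih h1
      omega
    · have h2 : j = j' := by omega
      subst h2
      omega

theorem off_inj {D : ℕ} (a : ℕ → Cell D) (j j' i i' : ℕ) (h : i ≤ (a j).1.length) (h' : i' ≤ (a j').1.length)
    (he : off a j + i = off a j' + i') : j = j' ∧ i = i' := by
  rcases lt_trichotomy j j' with h1 | h1 | h1
  · have := MBij_off_lt a j j' i h h1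
    omega
  · subst h1
    exact ⟨rfl, by omega⟩
  · have := MBij_off_lt a j' j i' h' h1
    omega

theorem active_actC {D : ℕ} (c : Conf D) (x : Site D) : Active (fun y n => allStp c (y, n)) x ↔ ActC c x := by
  constructor
  · intro h
    induction h with
    | start => exact ActC.start
    | visit x n _ ih =>
      obtain ⟨j, i, hi, hn⟩ := exists_off (fun j => c (x, j)) n
      have h1 : pos (fun n => allStp c (x, n)) x n = ent c x j + (dsp ((c (x, j)).1.take i), 0) := by
        rw [hn]
        exact pos_off c x j i hi
      rw [h1]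
      exact ActC.visit x j _ ih ⟨i, hi, rfl⟩
  · intro h
    induction h with
    | start => exact Active.start
    | visit x j h _ hh ih =>
      obtain ⟨i, hi, rfl⟩ := hh
      have h1 := Active.visit x (off (fun j => c (x, j)) j + i) ih
      have h2 : pos (fun n => allStp c (x, n)) x (off (fun j => c (x, j)) j + i) =
          ent c x j + (dsp ((c (x, j)).1.take i), 0) := pos_off c x j i hi
      rw [h2] at h1
      exact h1

theorem visits_inf {D : ℕ} (c : Conf D) : (visits fun x n => allStp c (x, n)).Infinite ↔ (visC c).Infinite := by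
  have hinj : Set.InjOn (fun p : Site D × ℕ × ℕ => ((p.1, off (fun j => c (p.1, j)) p.2.1 + p.2.2) : Site D × ℕ)) (visC c) := by
    rintro ⟨x, j, i⟩ ⟨_, hi, _⟩ ⟨x', j', i'⟩ ⟨_, hi', _⟩ he
    have h1 : x = x' := congrArg Prod.fst he
    subst h1
    have h2 : off (fun j => c (x, j)) j + i = off (fun j => c (x, j)) j' + i' := congrArg Prod.snd he
    obtain ⟨h3, h4⟩ := off_inj (fun j => c (x, j)) j j' i i' hi hi' h2
    rw [h3, h4]
  have himg : (fun p : Site D × ℕ × ℕ => ((p.1, off (fun j => c (p.1, j)) p.2.1 + p.2.2) : Site D × ℕ)) '' (visC c) =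
      visits fun x n => allStp c (x, n) := by
    ext ⟨x, n⟩
    constructor
    · rintro ⟨⟨x', j, i⟩, ⟨h1, h2, h3⟩, he⟩
      have h4 : x' = x := congrArg Prod.fst he
      subst h4
      have h5 : off (fun j => c (x', j)) j + i = n := congrArg Prod.snd he
      refine ⟨(active_actC c x').2 h1, ?_⟩
      rw [← h5]
      exact (pos_off c x' j i h2).trans h3
    · rintro ⟨h1, h2⟩
      obtain ⟨j, i, hi, hn⟩ := exists_off (fun j => c (x, j)) n
      refine ⟨(x, j, i), ⟨(active_actC c x).1 h1, hi, ?_⟩, ?_⟩
      · rw [← pos_off c x j i hi, ← hn]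
        exact h2
      · show (x, off (fun j => c (x, j)) j + i) = (x, n)
        rw [← hn]
  rw [← himg, Set.infinite_image_iff hinj]

end FDr
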