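import Pool.Agent.Lib.MP_e029a2_pr.MDef

/-!
# Measurability of the events (job MMeas)

`Active η x ↔ ∃ n, ActN η' n x` with `η' p = η p.1 p.2` (induction). `{η | ActN η n x}` is measurable by induction on `n`
(countable unions; `pos` is a finite sum of functions of coordinates in a countable discrete space). So
`{η | Active (fun x n => η (x, n)) x}` is measurable, and so is the event that `p ∈ visits`. The set of visits is infinite
iff for every finite set `K` of pairs there is `p ∉ K` in it (`Set.infinite_iff...`: `Set.Infinite.exists_notMem_finset`,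
and if the set is finite take `K` the set itself): a countable intersection (`Finset (Site D × ℕ)` is countable) of
countable unions.
-/

set_option autoImplicit false

namespace FDr

open MeasureTheory ProbabilityTheory
open scoped ENNReal

theorem active_iff {D : ℕ} (η : SConf D) (x : Site D) : Active (fun y n => η (y, n)) x ↔ ∃ n, ActN η n x := by
  constructor
  · intro h
    induction h with
    | start => exact ⟨0, rfl⟩
    | visit x n _ ih =>
      obtain ⟨m, hm⟩ := ih
      exact ⟨m + 1, Or.inr ⟨x, n, hm, rfl⟩⟩
  · rintro ⟨n, hn⟩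
    induction n generalizing x with
    | zero =>
      have h0 : x = 0 := hn
      rw [h0]
      exact Active.start
    | succ n ih =>
      rcases hn with h | ⟨y, i, hy, hx⟩
      · exact ih x h
      · rw [← hx]
        exact Active.visit y i (ih y hy)

theorem MMeas_sing (D : ℕ) : MeasurableSingletonClass (Stp D) := by
  refine ⟨fun x => measurableSet_sum_iff.2 ⟨?_, ?_⟩⟩
  · exact (Set.subsingleton_singleton.preimage Sum.inl_injective).measurableSet
  · exact (Set.subsingleton_singleton.preimage Sum.inr_injective).measurableSet

theorem MMeas_pos {D : ℕ} (x y : Site D) (i : ℕ) : MeasurableSet {η : SConf D | pos (fun k => η (y, k)) y i = x} := by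
  have hm : Measurable fun (η : SConf D) (j : Fin i) => η (y, (j : ℕ)) :=
    measurable_pi_lambda _ fun j => measurable_pi_apply _
  have hsing := MMeas_sing D
  have hs : MeasurableSet {u : Fin i → Stp D | y + ∑ j, vec (u j) = x} := (Set.to_countable _).measurableSet
  have h := hm hs
  have e : {η : SConf D | pos (fun k => η (y, k)) y i = x} =
      (fun (η : SConf D) (j : Fin i) => η (y, (j : ℕ))) ⁻¹' {u : Fin i → Stp D | y + ∑ j, vec (u j) = x} := by
    ext η
    show pos (fun k => η (y, k)) y i = x ↔ y + ∑ j : Fin i, vec (η (y, (j : ℕ))) = x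
    unfold pos
    rw [Finset.sum_range]
  rw [e]
  exact h

theorem MMeas_ActN {D : ℕ} (n : ℕ) (x : Site D) : MeasurableSet {η : SConf D | ActN η n x} := by
  induction n generalizing x with
  | zero => exact MeasurableSet.const _
  | succ n ih =>
    have e : {η : SConf D | ActN η (n + 1) x} = {η : SConf D | ActN η n x} ∪
        ⋃ (y : Site D), ⋃ (i : ℕ), ({η : SConf D | ActN η n y} ∩ {η : SConf D | pos (fun k => η (y, k)) y i = x}) := by
      ext η
      rw [Set.mem_union, Set.mem_iUnion]
      refine or_congr Iff.rfl ?_
      constructor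
      · rintro ⟨y, i, h⟩
        exact ⟨y, Set.mem_iUnion.2 ⟨i, h⟩⟩
      · rintro ⟨y, h⟩
        obtain ⟨i, h⟩ := Set.mem_iUnion.1 h
        exact ⟨y, i, h⟩
    rw [e]
    exact (ih x).union (MeasurableSet.iUnion fun y => MeasurableSet.iUnion fun i => (ih y).inter (MMeas_pos x y i))

theorem MMeas_Active {D : ℕ} (x : Site D) : MeasurableSet {η : SConf D | Active (fun y n => η (y, n)) x} := by
  have e : {η : SConf D | Active (fun y n => η (y, n)) x} = ⋃ n : ℕ, {η : SConf D | ActN η n x} := by
    ext η
    rw [Set.mem_iUnion]
    exact active_iff η x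
  rw [e]
  exact MeasurableSet.iUnion fun n => MMeas_ActN n x

theorem visits_meas (D : ℕ) : MeasurableSet {η : SConf D | (visits fun x n => η (x, n)).Infinite} := by
  have hp : ∀ p : Site D × ℕ, MeasurableSet {η : SConf D | p ∈ visits fun x n => η (x, n)} := by
    intro p
    exact (MMeas_Active p.1).inter (MMeas_pos 0 p.1 p.2)
  have e : {η : SConf D | (visits fun x n => η (x, n)).Infinite} =
      ⋂ K : Finset (Site D × ℕ), ⋃ p : {p : Site D × ℕ // p ∉ K}, {η : SConf D | (p : Site D × ℕ) ∈ visits fun x n => η (x, n)} := by
    ext η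
    rw [Set.mem_iInter]
    constructor
    · intro h K
      obtain ⟨p, hp, hpK⟩ := Set.Infinite.exists_notMem_finset h K
      exact Set.mem_iUnion.2 ⟨⟨p, hpK⟩, hp⟩
    · intro h hfin
      obtain ⟨p, hp⟩ := Set.mem_iUnion.1 (h hfin.toFinset)
      exact p.2 (hfin.mem_toFinset.2 hp)
  rw [e]
  exact MeasurableSet.iInter fun K => MeasurableSet.iUnion fun p => hp p

end FDr
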