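import Pool.Agent.Lib.MP_e029a2_pr.MAll
import Pool.Agent.Lib.MP_e029a2_pr.MMeas
import Pool.Agent.Lib.MP_e029a2_pr.MBij

/-!
# Transfer from the cells to every model (job MTra)

`visC_meas`: by `visits_inf` the event is the preimage of the measurable event `visits_meas` under the measurable map
`allStp`. `transfer`: `P.map (all steps) = infinitePi stepLaw = (Q w α D).map allStp`; `ae_map_iff` twice, with
`visits_meas` (or its complement) and `visits_inf`; `(visits fun x n => ξ x n ω)` is the set for `η p = ξ p.1 p.2 ω`.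
-/

set_option autoImplicit false
set_option linter.unusedSectionVars false

namespace FDr

open MeasureTheory ProbabilityTheory
open scoped ENNReal

theorem visC_meas (D : ℕ) [NeZero D] : MeasurableSet {c : Conf D | (visC c).Infinite} := by
  have h2 : {c : Conf D | (visC c).Infinite} =
      allStp ⁻¹' {η : SConf D | (visits fun x n => η (x, n)).Infinite} := by
    ext c
    exact (visits_inf c).symm
  rw [h2]
  exact (allStp_meas D) (visits_meas D)

private theorem mtra_map {Ω : Type*} [MeasurableSpace Ω] (w α : Set.Ioo (0 : ℝ) 1) (D : ℕ) [NeZero D] (P : Measure Ω)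
    (ξ : Site D → ℕ → Ω → Stp D) (h : IsFrog D w α P ξ) (s : Set (SConf D)) (hs : MeasurableSet s)
    (hQ : ∀ᵐ c ∂Q w α D, allStp c ∈ s) : ∀ᵐ ω ∂P, (fun p : Site D × ℕ => ξ p.1 p.2 ω) ∈ s := by
  have h1 : ∀ᵐ η ∂(Q w α D).map allStp, η ∈ s := (ae_map_iff (allStp_meas D).aemeasurable hs).2 hQ
  rw [allStp_law, ← isFrog_law w α D P ξ h] at h1
  have hm : Measurable (fun ω (p : Site D × ℕ) => ξ p.1 p.2 ω) := measurable_pi_lambda _ fun p => h.meas p.1 p.2
  exact (ae_map_iff hm.aemeasurable hs).1 h1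

theorem transfer_inf {Ω : Type*} [MeasurableSpace Ω] (w α : Set.Ioo (0 : ℝ) 1) (D : ℕ) [NeZero D] (P : Measure Ω)
    (ξ : Site D → ℕ → Ω → Stp D) (h : IsFrog D w α P ξ) (hQ : ∀ᵐ c ∂Q w α D, (visC c).Infinite) : Recurrent P ξ := by
  refine mtra_map w α D P ξ h {η : SConf D | (visits fun x n => η (x, n)).Infinite} (visits_meas D) ?_
  filter_upwards [hQ] with c hc
  exact (visits_inf c).2 hc

theorem transfer_fin {Ω : Type*} [MeasurableSpace Ω] (w α : Set.Ioo (0 : ℝ) 1) (D : ℕ) [NeZero D] (P : Measure Ω)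
    (ξ : Site D → ℕ → Ω → Stp D) (h : IsFrog D w α P ξ) (hQ : ∀ᵐ c ∂Q w α D, (visC c).Finite) :
    ∀ᵐ ω ∂P, (visits fun x n => ξ x n ω).Finite := by
  have h1 := mtra_map w α D P ξ h {η : SConf D | (visits fun x n => η (x, n)).Infinite}ᶜ (visits_meas D).compl ?_
  · filter_upwards [h1] with ω hω
    exact Set.not_infinite.1 hω
  · filter_upwards [hQ] with c hc
    intro h2
    exact (visits_inf c).1 h2 hc

end FDr
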