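import Pool.Agent.Lib.MP_e029a2_pr.SInd

/-!
# Two facts of measure theory (job ZLim; only Mathlib and `Dep`)

(1) `io_meas`: `E n` measurable with `δ ≤ μ (E n)` for infinitely many `n`: the measure of `⋂ k, ⋃ n ≥ k, E n` is
`≥ δ` (the sets `⋃ n ≥ k, E n` decrease, `tendsto_measure_iInter_atTop` or `measure_iInter_eq_iInf`, each has measure
`≥ δ`).
(2) `levy`: if `c₀ * μ Z ≤ μ (Z ∩ R)` for all events `Z` which depend on finitely many coordinates, then `μ Rᶜ = 0`: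
the sets which depend on finitely many coordinates are an algebra (`MeasureTheory.IsSetAlgebra`) which generates the
product σ-algebra (countable discrete `β`), so for `ε > 0` there is such `Z` with `μ (Rᶜ ∆ Z) < ε`
(`MeasureTheory.Measure.MeasureDense`, `Measure.MeasureDense.of_generateFrom_isSetAlgebra_finite` in
`Mathlib/MeasureTheory/Measure/SeparableMeasure.lean`). Then `c₀ (μ Rᶜ - ε) ≤ c₀ μ Z ≤ μ (Z ∩ R) ≤ ε` (`Z ∩ R ⊆ Rᶜ ∆ Z`).
-/

set_option autoImplicit false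

namespace FDr

open MeasureTheory ProbabilityTheory
open scoped ENNReal

theorem io_meas {Ω : Type*} [MeasurableSpace Ω] (μ : Measure Ω) [IsFiniteMeasure μ] (E : ℕ → Set Ω)
    (hE : ∀ n, MeasurableSet (E n)) (δ : ℝ≥0∞) (h : ∀ k : ℕ, ∃ n, k ≤ n ∧ δ ≤ μ (E n)) :
    δ ≤ μ {ω | ∀ k : ℕ, ∃ n, k ≤ n ∧ ω ∈ E n} := by
  have h1 : {ω | ∀ k : ℕ, ∃ n, k ≤ n ∧ ω ∈ E n} = ⋂ k : ℕ, ⋃ n : ℕ, ⋃ _ : k ≤ n, E n := by
    ext ω
    simp only [Set.mem_ofPred_eq, Set.mem_iInter, Set.mem_iUnion, exists_prop]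
  have h2 : Antitone fun k : ℕ => ⋃ n : ℕ, ⋃ _ : k ≤ n, E n := by
    intro k l hkl ω hω
    simp only [Set.mem_iUnion, exists_prop] at hω ⊢
    obtain ⟨n, hn, hω⟩ := hω
    exact ⟨n, hkl.trans hn, hω⟩
  have h3 : ∀ k : ℕ, MeasurableSet (⋃ n : ℕ, ⋃ _ : k ≤ n, E n) := fun k =>
    MeasurableSet.iUnion fun n => MeasurableSet.iUnion fun _ => hE n
  rw [h1, h2.measure_iInter (fun k => (h3 k).nullMeasurableSet) ⟨0, measure_ne_top μ _⟩]
  refine le_iInf fun k => ?_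
  obtain ⟨n, hn, hδ⟩ := h k
  refine hδ.trans (measure_mono fun ω hω => ?_)
  simp only [Set.mem_iUnion, exists_prop]
  exact ⟨n, hn, hω⟩

private def ZLim_A (ι β : Type*) : Set (Set (ι → β)) :=
  {Z | ∃ S : Finset ι, Dep (S : Set ι) (fun c => c ∈ Z)}

private theorem ZLim_alg (ι β : Type*) : IsSetAlgebra (ZLim_A ι β) where
  empty_mem := ⟨∅, fun _ _ _ => rfl⟩
  compl_mem := by
    rintro Z ⟨S, hS⟩
    exact ⟨S, hS.comp fun p => ¬ p⟩
  union_mem := by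
    classical
    rintro Z W ⟨S, hS⟩ ⟨T, hT⟩
    refine ⟨S ∪ T, ?_⟩
    have h1 : Dep ((S ∪ T : Finset ι) : Set ι) (fun c => c ∈ Z) :=
      hS.mono (by rw [Finset.coe_union]; exact Set.subset_union_left)
    have h2 : Dep ((S ∪ T : Finset ι) : Set ι) (fun c => c ∈ W) :=
      hT.mono (by rw [Finset.coe_union]; exact Set.subset_union_right)
    exact h1.comp₂ h2 fun p q => p ∨ q

private theorem ZLim_gen {ι β : Type*} [MeasurableSpace β] [Countable β] [DiscreteMeasurableSpace β] [Nonempty β] :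
    (MeasurableSpace.pi : MeasurableSpace (ι → β)) = MeasurableSpace.generateFrom (ZLim_A ι β) := by
  refine le_antisymm ?_ ?_
  · refine iSup_le fun i => ?_
    rintro _ ⟨s, -, rfl⟩
    refine MeasurableSpace.measurableSet_generateFrom ⟨{i}, fun c c' hc => ?_⟩
    have h1 : c i = c' i := hc i (by simp)
    show (c i ∈ s) = (c' i ∈ s)
    rw [h1]
  · refine MeasurableSpace.generateFrom_le ?_
    rintro Z ⟨S, hS⟩
    exact Dep.measurableSet S.finite_toSet hS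

theorem levy {ι β : Type*} [Countable ι] [MeasurableSpace β] [Countable β] [DiscreteMeasurableSpace β] [Nonempty β]
    (μ : Measure β) [IsProbabilityMeasure μ] (R : Set (ι → β)) (hR : MeasurableSet R) (c₀ : ℝ≥0∞) (hc : 0 < c₀)
    (hc1 : c₀ ≠ ⊤) (h : ∀ (S : Finset ι) (Z : Set (ι → β)), Dep (S : Set ι) (fun c => c ∈ Z) →
      c₀ * Measure.infinitePi (fun _ : ι => μ) Z ≤ Measure.infinitePi (fun _ : ι => μ) (Z ∩ R)) :
    Measure.infinitePi (fun _ : ι => μ) Rᶜ = 0 := by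
  by_contra hne
  have hx : 0 < (Measure.infinitePi (fun _ : ι => μ) Rᶜ).toReal :=
    ENNReal.toReal_pos hne (measure_ne_top _ _)
  have hc0 : 0 < c₀.toReal := ENNReal.toReal_pos hc.ne' hc1
  obtain ⟨x, hxd⟩ : ∃ x : ℝ, x = (Measure.infinitePi (fun _ : ι => μ) Rᶜ).toReal := ⟨_, rfl⟩
  obtain ⟨c, hcd⟩ : ∃ c : ℝ, c = c₀.toReal := ⟨_, rfl⟩
  rw [← hxd] at hx
  rw [← hcd] at hc0
  have hε : 0 < c * x / (2 * (1 + c)) := by positivity
  obtain ⟨Z, ⟨S, hS⟩, hZ⟩ := (Measure.MeasureDense.of_generateFrom_isSetAlgebra_finite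
    (Measure.infinitePi (fun _ : ι => μ)) (ZLim_alg ι β) ZLim_gen).approx Rᶜ hR.compl (measure_ne_top _ _) _ hε
  obtain ⟨e, he⟩ : ∃ e : ℝ≥0∞, e = ENNReal.ofReal (c * x / (2 * (1 + c))) := ⟨_, rfl⟩
  rw [← he] at hZ
  have h1 : Measure.infinitePi (fun _ : ι => μ) Rᶜ ≤ Measure.infinitePi (fun _ : ι => μ) Z + e := by
    have h2 : Rᶜ ⊆ Z ∪ symmDiff Rᶜ Z := by
      intro ω hω
      by_cases h3 : ω ∈ Z
      · exact Or.inl h3
      · exact Or.inr (Or.inl ⟨hω, h3⟩)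
    exact (measure_mono h2).trans ((measure_union_le _ _).trans (add_le_add le_rfl hZ.le))
  have h2 : Measure.infinitePi (fun _ : ι => μ) (Z ∩ R) ≤ e := by
    refine (measure_mono ?_).trans hZ.le
    rintro ω ⟨h3, h4⟩
    exact Or.inr ⟨h3, fun h5 => h5 h4⟩
  have h3 : c₀ * Measure.infinitePi (fun _ : ι => μ) Rᶜ ≤ (1 + c₀) * e := by
    calc c₀ * Measure.infinitePi (fun _ : ι => μ) Rᶜ ≤
        c₀ * (Measure.infinitePi (fun _ : ι => μ) Z + e) := mul_le_mul_right h1 _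
      _ = c₀ * Measure.infinitePi (fun _ : ι => μ) Z + c₀ * e := mul_add _ _ _
      _ ≤ e + c₀ * e := add_le_add ((h S Z hS).trans h2) le_rfl
      _ = (1 + c₀) * e := by rw [add_mul, one_mul]
  have h4 : (1 + c₀) * e ≠ ⊤ := by
    rw [he]
    exact ENNReal.mul_ne_top (ENNReal.add_ne_top.2 ⟨ENNReal.one_ne_top, hc1⟩) ENNReal.ofReal_ne_top
  have h5 := ENNReal.toReal_mono h4 h3
  rw [ENNReal.toReal_mul, ENNReal.toReal_mul, ENNReal.toReal_add ENNReal.one_ne_top hc1, he,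
    ENNReal.toReal_ofReal hε.le, ← hxd, ← hcd, ENNReal.toReal_one] at h5
  have h6 : (1 + c) * (c * x / (2 * (1 + c))) = c * x / 2 := by
    field_simp
  rw [h6] at h5
  have h7 : 0 < c * x := by positivity
  linarith

end FDr
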