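import Pool.Agent.Lib.MP_e029a2_pr.W1

/-!
# Job CV1: lists and functions

`inj D n` is the set of the lists of length `n` of directions with `Nodup` coordinates.
* `sum_inj`: `l ↦ (j ↦ l[j])` and `σ ↦ List.ofFn σ` are inverse bijections between the lists of length
  `n` and `Fin n → Dir D`; `(List.ofFn σ).map Prod.fst = List.ofFn (fun j => (σ j).1)` is `Nodup` iff
  `j ↦ (σ j).1` is injective (`List.nodup_ofFn`).  Use `Finset.sum_bij'` or `Finset.sum_nbij'`, or
  `inj D n = (Wd n D).image List.ofFn` and `Finset.sum_image` (`List.ofFn_injective`).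
* `sumv_ofFn`: `List.map_ofFn`, `List.sum_ofFn`.
* `card_inj`: `sum_inj` with `f = 1` and `card_Wd`.
* `qn_eq`: `dw D n = ((2 D)^n)⁻¹` and conversions `ENNReal.ofReal`.
-/

set_option autoImplicit false

namespace FDr

open MeasureTheory
open scoped ENNReal

theorem inj_eq (D n : ℕ) : inj D n = (Wd n D).image List.ofFn := by
  classical
  unfold inj Wd
  ext l
  rw [Finset.mem_filter, Finset.mem_image, Finset.mem_image]
  constructor
  · rintro ⟨⟨v, -, hv⟩, hl⟩
    have hn : l.length = n := by rw [← hv]; exact v.2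
    subst hn
    refine ⟨l.get, ?_, List.ofFn_get l⟩
    rw [Finset.mem_filter]
    refine ⟨Finset.mem_univ _, ?_⟩
    rw [← List.nodup_ofFn]
    have h1 : l.map Prod.fst = List.ofFn (fun j => (l.get j).1) := by
      conv_lhs => rw [← List.ofFn_get l]
      rw [List.map_ofFn]
      rfl
    rw [← h1]
    exact hl
  · rintro ⟨σ, hσ, rfl⟩
    rw [Finset.mem_filter] at hσ
    refine ⟨⟨⟨List.ofFn σ, List.length_ofFn⟩, Finset.mem_univ _, rfl⟩, ?_⟩
    rw [List.map_ofFn, List.nodup_ofFn]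
    exact hσ.2

theorem sum_inj {M : Type*} [AddCommMonoid M] (D n : ℕ) (f : List (Dir D) → M) :
    ∑ l ∈ inj D n, f l = ∑ σ ∈ Wd n D, f (List.ofFn σ) := by
  rw [inj_eq, Finset.sum_image (fun _ _ _ _ h => List.ofFn_injective h)]

theorem sumv_ofFn {D n : ℕ} (σ : Fin n → Dir D) : sumv (List.ofFn σ) = wsum σ := by
  unfold sumv wsum
  rw [List.map_ofFn, List.sum_ofFn]
  rfl

theorem card_inj (D n : ℕ) : (inj D n).card = wc n D := by
  rw [inj_eq, Finset.card_image_of_injective _ List.ofFn_injective, card_Wd]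

theorem dw_eq (D n : ℕ) (hD : 1 ≤ D) : dw D n = ENNReal.ofReal (((2 * (D : ℝ)) ^ n)⁻¹) := by
  have hD0 : (0 : ℝ) < D := by exact_mod_cast hD
  unfold dw
  rw [ENNReal.ofReal_inv_of_pos (by positivity), ENNReal.ofReal_pow (by positivity), ENNReal.ofReal_mul (by norm_num),
    ENNReal.ofReal_natCast, ENNReal.ofReal_ofNat]

theorem qn_eq (D n : ℕ) (hD : 1 ≤ D) :
    qn D n = ENNReal.ofReal ((wc n D : ℝ) / (2 * (D : ℝ)) ^ n) := by
  have hD0 : (0 : ℝ) < D := by exact_mod_cast hD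
  unfold qn
  rw [card_inj, dw_eq D n hD, div_eq_mul_inv, ENNReal.ofReal_mul (Nat.cast_nonneg _), ENNReal.ofReal_natCast]

theorem qn_pos (D n : ℕ) (hD : 1 ≤ D) (hn : n ≤ D) : 0 < qn D n := by
  have hD0 : (0 : ℝ) < D := by exact_mod_cast hD
  rw [qn_eq D n hD, ENNReal.ofReal_pos]
  have h1 : 0 < wc n D := by
    unfold wc
    exact Nat.mul_pos (Nat.two_pow_pos n) (Nat.descFactorial_pos.2 hn)
  have h2 : (0 : ℝ) < wc n D := by exact_mod_cast h1
  positivity

theorem qn_le_one (D n : ℕ) (hD : 1 ≤ D) : qn D n ≤ 1 := by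
  have hD0 : (0 : ℝ) < D := by exact_mod_cast hD
  rw [qn_eq D n hD]
  refine ENNReal.ofReal_le_one.2 ?_
  rw [div_le_one (by positivity)]
  have h1 : wc n D ≤ (2 * D) ^ n := by
    unfold wc
    rw [mul_pow]
    exact Nat.mul_le_mul_left _ (Nat.descFactorial_le_pow D n)
  exact_mod_cast h1

end FDr
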