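import Pool.Agent.Lib.MP_e029a2_pr.Law

/-!
# `Λ > 1` if `w (2 - √(1 - α²)) < 1`

For every `s > 0`: `kap s = (1-w) ∑_n (bw true s + bw false / s)^n ≥ (1-w)/(1-x)` with `x = w √(1 - α²)`, as
`bw true s + bw false / s ≥ 2 √(bw true bw false) = x`, and `actP univ 0 = 1`.  So `mfun s ≥ 2 (1-w)/(1-x)`, which is
`> 1` iff `w (2 - √(1 - α²)) < 1`.
-/

set_option autoImplicit false

namespace FDr

open MeasureTheory ProbabilityTheory
open scoped ENNReal

/-- the generating function of the displacement of a run as a geometric series -/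
theorem kap_geom (w α : Set.Ioo (0 : ℝ) 1) (s : ℝ) (hs : 0 < s) :
    kap w α s = ENNReal.ofReal (1 - w) *
      ∑' n : ℕ, (ENNReal.ofReal (bw w α true * s) + ENNReal.ofReal (bw w α false * s⁻¹)) ^ n := by
  have h0 : (0 : ℝ) ≤ 1 - w := by linarith [w.2.2]
  unfold kap runLaw
  rw [lintegral_sum_measure]
  let a : Bool → ℝ≥0∞ := fun b => ENNReal.ofReal (bw w α b * s ^ sg b)
  have h1 : ∀ l : Run, ∫⁻ l', ENNReal.ofReal (s ^ dsp l') ∂(ENNReal.ofReal (runW w α l) • Measure.dirac l : Measure Run) =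
      ENNReal.ofReal (1 - w) * (l.map a).prod := by
    intro l
    rw [lintegral_smul_measure, lintegral_dirac, smul_eq_mul, runW_eq, ENNReal.ofReal_mul h0, mul_assoc]
    congr 1
    induction l with
    | nil => simp [dsp]
    | cons b l ih =>
      rw [List.map_cons, List.prod_cons, List.map_cons, List.prod_cons, ← ih, ENNReal.ofReal_mul (bw_pos w.2 α.2 b).le]
      have h2 : dsp (b :: l) = sg b + dsp l := by simp [dsp]
      rw [h2, zpow_add₀ hs.ne', ENNReal.ofReal_mul (zpow_pos hs _).le]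
      simp only [a]
      rw [ENNReal.ofReal_mul (bw_pos w.2 α.2 b).le]
      ring
  rw [tsum_congr h1, ENNReal.tsum_mul_left, tsum_run]
  simp [a, sg]

theorem kap_ge (w α : Set.Ioo (0 : ℝ) 1) (s : ℝ) (hs : 0 < s) :
    ENNReal.ofReal ((1 - w) / (1 - w * Real.sqrt (1 - (α : ℝ) ^ 2))) ≤ kap w α s := by
  have hw := w.2.1
  have hw1 := w.2.2
  have ha := α.2.1
  have ha1 := α.2.2
  have hr0 : 0 ≤ Real.sqrt (1 - (α : ℝ) ^ 2) := Real.sqrt_nonneg _
  have hr1 : Real.sqrt (1 - (α : ℝ) ^ 2) ≤ 1 := by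
    rw [Real.sqrt_le_one]
    nlinarith
  set r := Real.sqrt (1 - (α : ℝ) ^ 2) with hr
  have hr2 : r ^ 2 = 1 - (α : ℝ) ^ 2 := by
    rw [hr, Real.sq_sqrt]
    nlinarith
  have hx1 : (w : ℝ) * r < 1 := by nlinarith
  have hx0 : (0 : ℝ) ≤ w * r := by positivity
  -- the arithmetic geometric inequality
  have h1 : (w : ℝ) * r ≤ bw w α true * s + bw w α false * s⁻¹ := by
    have h2 : (bw w α true * s) * (bw w α false * s⁻¹) = (w * r / 2) ^ 2 := by
      have h3 : (bw w α true * s) * (bw w α false * s⁻¹) = bw w α true * bw w α false := by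
        field_simp
      rw [h3]
      simp only [bw, if_true, Bool.false_eq_true, if_false]
      have h31 : ((w : ℝ) * r / 2) ^ 2 = w ^ 2 * r ^ 2 / 4 := by ring
      rw [h31, hr2]
      ring
    have h4 : 0 < bw w α true * s := mul_pos (bw_pos w.2 α.2 _) hs
    have h5 : 0 < bw w α false * s⁻¹ := mul_pos (bw_pos w.2 α.2 _) (inv_pos.2 hs)
    have h6 : (w * r) ^ 2 ≤ (bw w α true * s + bw w α false * s⁻¹) ^ 2 := by
      nlinarith [sq_nonneg (bw w α true * s - bw w α false * s⁻¹)]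
    exact le_of_sq_le_sq h6 (by positivity)
  rw [kap_geom w α s hs, div_eq_mul_inv, ENNReal.ofReal_mul (by linarith)]
  refine mul_le_mul' le_rfl ?_
  have h7 : ENNReal.ofReal ((1 - (w : ℝ) * r)⁻¹) = ∑' n : ℕ, (ENNReal.ofReal (w * r)) ^ n := by
    rw [ENNReal.tsum_geometric, ENNReal.ofReal_inv_of_pos (by linarith), ENNReal.ofReal_sub _ hx0, ENNReal.ofReal_one]
  rw [h7]
  refine ENNReal.tsum_le_tsum fun n => ?_
  refine pow_le_pow_left' ?_ n
  rw [← ENNReal.ofReal_add (mul_pos (bw_pos w.2 α.2 _) hs).le (mul_pos (bw_pos w.2 α.2 _) (inv_pos.2 hs)).le]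
  exact ENNReal.ofReal_le_ofReal h1

theorem actP_zero (w α : Set.Ioo (0 : ℝ) 1) : actP w α Set.univ 0 = 1 := by
  unfold actP
  have h1 : {c : Option ℤ → Run | Clus Set.univ (c none) (fun z => c (some z)) 0} = Set.univ := by
    rw [Set.eq_univ_iff_forall]
    intro c
    refine Clus.enter 0 ⟨0, Nat.zero_le _, ?_⟩ (Set.mem_univ _)
    simp [dsp]
  rw [h1, measure_univ]

theorem mfun_ge (w α : Set.Ioo (0 : ℝ) 1) (s : ℝ) (hs : 0 < s) :
    ENNReal.ofReal (2 * ((1 - w) / (1 - w * Real.sqrt (1 - (α : ℝ) ^ 2)))) ≤ mfun w α s := by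
  rw [ENNReal.ofReal_mul (by norm_num), ENNReal.ofReal_ofNat, mul_comm]
  unfold mfun
  refine mul_le_mul' (kap_ge w α s hs) ?_
  calc (2 : ℝ≥0∞) = 1 + 1 := one_add_one_eq_two.symm
    _ ≤ _ := by
      refine add_le_add le_rfl ?_
      refine le_trans (le_of_eq ?_) (ENNReal.le_tsum (0 : ℤ))
      rw [actP_zero, zpow_zero, ENNReal.ofReal_one, mul_one]

/-- the region of recurrence in high dimension contains `w (2 - √(1 - α²)) < 1` -/
theorem one_lt_Lam (w α : Set.Ioo (0 : ℝ) 1) (h : (w : ℝ) * (2 - Real.sqrt (1 - (α : ℝ) ^ 2)) < 1) :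
    1 < Lam w α := by
  have hw := w.2.1
  have hw1 := w.2.2
  have hr0 : 0 ≤ Real.sqrt (1 - (α : ℝ) ^ 2) := Real.sqrt_nonneg _
  have hr1 : Real.sqrt (1 - (α : ℝ) ^ 2) ≤ 1 := by
    rw [Real.sqrt_le_one]
    nlinarith [α.2.1]
  set r := Real.sqrt (1 - (α : ℝ) ^ 2) with hr
  have hx1 : (0 : ℝ) < 1 - w * r := by nlinarith
  have h1 : (1 : ℝ≥0∞) < ENNReal.ofReal (2 * ((1 - w) / (1 - w * r))) := by
    rw [ENNReal.one_lt_ofReal, ← mul_div_assoc, lt_div_iff₀ hx1]
    nlinarith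
  refine lt_of_lt_of_le h1 ?_
  unfold Lam
  exact le_iInf₂ fun s hs => mfun_ge w α s hs

end FDr
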