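import Pool.Agent.Lib.MP_e029a2_pr.ADef

/-!
# Job G1: exponential moments of the displacement of a run

* `kap_tsum`: the fibres of `dsp` (countable): `∫⁻ ofReal (s^dsp l) = ∑'_k ∫⁻_{dsp = k}`
  (`lintegral` over the countable type `Run`; `runLaw` is a sum of Dirac measures:
  `lintegral_sum_measure`, `lintegral_smul_measure`, `lintegral_dirac`; or `lintegral_comp`/`Measure.map dsp`).
* `kap_eq`: `kap = ∑'_l ofReal (runW l) ofReal (s^dsp l) = ofReal (1-w) ∑'_l ∏_{b ∈ l} ofReal (bw b * s^(sg b))`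
  `= ofReal (1-w) ∑'_n (ofReal (bw true * s) + ofReal (bw false * s⁻¹))^n` (`tsum_run`), a geometric series.
* `exists_lower`: with `p = (1+α)/2`, `q = (1-α)/2`, `f(s) = p s + q/s`: `f(1) = 1`, `f'(1) = p - q = α > 0`, so
  `f(s) < 1` for some `s < 1`: explicitly for `s ∈ (q/p, 1)` (`(1-s)(q - p s) < 0`), e.g. `s = (1 + q/p)/2`;
  then `kap s = (1-w)/(1 - w f(s)) < 1`.
* `exists_upper`: `w f(s) < 1` for some `s > 1` (continuity at `s = 1`, `w < 1`): explicitly for `s > 1`: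
  `f(s) ≤ s`, so `s = (1 + 1/w)/2` works: `w s = (w+1)/2 < 1`.
* `dispP_pos`: `{l | dsp l = k}` contains the run of `|k|` equal steps, which has positive weight (`runW_pos`).
-/

set_option autoImplicit false

namespace FDr

open MeasureTheory
open scoped ENNReal

private theorem G1_lint (w α : Set.Ioo (0 : ℝ) 1) (f : Run → ℝ≥0∞) :
    ∫⁻ l, f l ∂runLaw w α = ∑' l, ENNReal.ofReal (runW w α l) * f l := by
  unfold runLaw
  rw [lintegral_sum_measure]
  refine tsum_congr fun l => ?_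
  rw [lintegral_smul_measure, lintegral_dirac' l measurable_from_top, smul_eq_mul]

private theorem G1_disp (w α : Set.Ioo (0 : ℝ) 1) (k : ℤ) :
    dispP w α k = ∑' l, ENNReal.ofReal (runW w α l) * (if dsp l = k then 1 else 0) := by
  unfold dispP
  rw [← lintegral_indicator_one (MeasurableSpace.measurableSet_top), G1_lint]
  refine tsum_congr fun l => ?_
  rw [Set.indicator_apply]
  rfl

theorem kap_tsum (w α : Set.Ioo (0 : ℝ) 1) (s : ℝ) (hs : 0 < s) :
    kap w α s = ∑' k : ℤ, dispP w α k * ENNReal.ofReal (s ^ k) := by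
  have h1 : ∀ k : ℤ, dispP w α k * ENNReal.ofReal (s ^ k) =
      ∑' l, ENNReal.ofReal (runW w α l) * (if k = dsp l then ENNReal.ofReal (s ^ k) else 0) := by
    intro k
    rw [G1_disp, ← ENNReal.tsum_mul_right]
    refine tsum_congr fun l => ?_
    by_cases h : dsp l = k
    · rw [if_pos h, if_pos h.symm, mul_one]
    · rw [if_neg h, if_neg (fun h' => h h'.symm), mul_zero, zero_mul]
  rw [tsum_congr h1, ENNReal.tsum_comm]
  unfold kap
  rw [G1_lint]
  refine tsum_congr fun l => ?_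
  rw [ENNReal.tsum_mul_left, tsum_ite_eq]

private theorem G1_dsp_cons (b : Bool) (l : Run) : dsp (b :: l) = sg b + dsp l := by
  unfold dsp
  rw [List.map_cons, List.sum_cons]

theorem kap_eq (w α : Set.Ioo (0 : ℝ) 1) (s : ℝ) (hs : 0 < s)
    (hb : bw w α true * s + bw w α false * s⁻¹ < 1) :
    kap w α s = ENNReal.ofReal ((1 - w) / (1 - (bw w α true * s + bw w α false * s⁻¹))) := by
  have hw1 : 0 < 1 - (w : ℝ) := by linarith [w.2.2]
  have h1 : ∀ l : Run, ENNReal.ofReal (runW w α l) * ENNReal.ofReal (s ^ dsp l) =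
      ENNReal.ofReal (1 - w) * (l.map fun b => ENNReal.ofReal (bw w α b * s ^ sg b)).prod := by
    intro l
    rw [runW_eq, ← ENNReal.ofReal_mul (by
      refine mul_nonneg hw1.le (List.prod_nonneg fun x hx => ?_)
      obtain ⟨b, -, rfl⟩ := List.mem_map.1 hx
      exact (bw_pos w.2 α.2 b).le), mul_assoc, ENNReal.ofReal_mul hw1.le]
    congr 1
    induction l with
    | nil =>
      simp [dsp]
    | cons b l ih =>
      have hbp : 0 ≤ bw w α b * s ^ sg b := mul_nonneg (bw_pos w.2 α.2 b).le (zpow_nonneg hs.le _)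
      rw [List.map_cons, List.prod_cons, List.map_cons, List.prod_cons, ← ih, ← ENNReal.ofReal_mul hbp, G1_dsp_cons,
        zpow_add₀ hs.ne']
      congr 1
      ring
  unfold kap
  have e1 : bw w α true * s ^ sg true = bw w α true * s := by
    simp [sg]
  have e2 : bw w α false * s ^ sg false = bw w α false * s⁻¹ := by
    simp [sg]
  rw [G1_lint, tsum_congr h1, ENNReal.tsum_mul_left, tsum_run, e1, e2,
    ← ENNReal.ofReal_add (mul_nonneg (bw_pos w.2 α.2 _).le hs.le)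
      (mul_nonneg (bw_pos w.2 α.2 _).le (inv_nonneg.2 hs.le)), ENNReal.tsum_geometric]
  have h2 : (1 : ℝ≥0∞) - ENNReal.ofReal (bw w α true * s + bw w α false * s⁻¹) =
      ENNReal.ofReal (1 - (bw w α true * s + bw w α false * s⁻¹)) := by
    rw [ENNReal.ofReal_sub _ (add_nonneg (mul_nonneg (bw_pos w.2 α.2 _).le hs.le)
      (mul_nonneg (bw_pos w.2 α.2 _).le (inv_nonneg.2 hs.le))), ENNReal.ofReal_one]
  rw [h2, ENNReal.ofReal_div_of_pos (by linarith), ENNReal.div_eq_inv_mul, mul_comm]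

theorem exists_lower (w α : Set.Ioo (0 : ℝ) 1) : ∃ s : ℝ, 0 < s ∧ s < 1 ∧ kap w α s < 1 := by
  have hw0 := w.2.1
  have hw1 := w.2.2
  have ha0 := α.2.1
  have ha1 := α.2.2
  have h1 : (0 : ℝ) < 1 + α := by linarith
  have hx : bw w α true * (1 + (α : ℝ))⁻¹ + bw w α false * ((1 + (α : ℝ))⁻¹)⁻¹ = w * (1 - (α : ℝ) ^ 2 / 2) := by
    unfold bw
    rw [inv_inv]
    simp only [if_true, Bool.false_eq_true, if_false]
    field_simp
    ring
  have hlt : (w : ℝ) * (1 - (α : ℝ) ^ 2 / 2) < w := by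
    have : 0 < (w : ℝ) * ((α : ℝ) ^ 2 / 2) := by positivity
    linarith
  refine ⟨(1 + (α : ℝ))⁻¹, inv_pos.2 h1, inv_lt_one_of_one_lt₀ (by linarith), ?_⟩
  rw [kap_eq w α _ (inv_pos.2 h1) (by rw [hx]; linarith), hx, ENNReal.ofReal_lt_one]
  rw [div_lt_one (by linarith)]
  linarith

theorem exists_upper (w α : Set.Ioo (0 : ℝ) 1) : ∃ s : ℝ, 1 < s ∧ kap w α s < ∞ := by
  have hw0 := w.2.1
  have hw1 := w.2.2
  have hinv : 1 < (w : ℝ)⁻¹ := one_lt_inv_iff₀.2 ⟨hw0, hw1⟩
  have hs1 : 1 < (1 + (w : ℝ)⁻¹) / 2 := by linarith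
  have hs0 : 0 < (1 + (w : ℝ)⁻¹) / 2 := by linarith
  refine ⟨(1 + (w : ℝ)⁻¹) / 2, hs1, ?_⟩
  have hx : bw w α true * ((1 + (w : ℝ)⁻¹) / 2) + bw w α false * ((1 + (w : ℝ)⁻¹) / 2)⁻¹ < 1 := by
    have h1 : ((1 + (w : ℝ)⁻¹) / 2)⁻¹ ≤ (1 + (w : ℝ)⁻¹) / 2 :=
      (inv_le_one_of_one_le₀ hs1.le).trans hs1.le
    have h2 : bw w α false * ((1 + (w : ℝ)⁻¹) / 2)⁻¹ ≤ bw w α false * ((1 + (w : ℝ)⁻¹) / 2) :=
      mul_le_mul_of_nonneg_left h1 (bw_pos w.2 α.2 _).le
    have h3 : bw w α true * ((1 + (w : ℝ)⁻¹) / 2) + bw w α false * ((1 + (w : ℝ)⁻¹) / 2) = (w + 1) / 2 := by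
      rw [← add_mul, bw_sum]
      field_simp
    linarith
  rw [kap_eq w α _ hs0 hx]
  exact ENNReal.ofReal_lt_top

private theorem G1_dsp_rep (b : Bool) (n : ℕ) : dsp (List.replicate n b) = n * sg b := by
  unfold dsp
  rw [List.map_replicate, List.sum_replicate, nsmul_eq_mul]

theorem dispP_pos (w α : Set.Ioo (0 : ℝ) 1) (k : ℤ) : 0 < dispP w α k := by
  have h1 : ∃ l : Run, dsp l = k := by
    rcases le_total 0 k with hk | hk
    · refine ⟨List.replicate k.toNat true, ?_⟩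
      rw [G1_dsp_rep]
      simp only [sg, if_true, mul_one]
      exact Int.toNat_of_nonneg hk
    · refine ⟨List.replicate (-k).toNat false, ?_⟩
      rw [G1_dsp_rep]
      simp only [sg, Bool.false_eq_true, if_false, mul_neg, mul_one]
      have := Int.toNat_of_nonneg (show 0 ≤ -k by omega)
      omega
  obtain ⟨l, hl⟩ := h1
  rw [G1_disp]
  have h2 := ENNReal.le_tsum (f := fun l => ENNReal.ofReal (runW w α l) * (if dsp l = k then 1 else 0)) l
  refine lt_of_lt_of_le ?_ h2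
  change 0 < ENNReal.ofReal (runW w α l) * (if dsp l = k then 1 else 0)
  rw [if_pos hl, mul_one]
  exact ENNReal.ofReal_pos.2 (runW_pos w.2 α.2 l)

theorem dispP_sum (w α : Set.Ioo (0 : ℝ) 1) : ∑' k : ℤ, dispP w α k = 1 := by
  have h1 := kap_tsum w α 1 one_pos
  have h2 : kap w α 1 = 1 := by
    unfold kap
    simp only [one_zpow, ENNReal.ofReal_one]
    rw [lintegral_one, measure_univ]
  rw [h2] at h1
  rw [h1]
  refine tsum_congr fun k => ?_
  rw [one_zpow, ENNReal.ofReal_one, mul_one]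

end FDr
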