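import Pool.Agent.Lib.MP_e029a2_pr.D2b
import Pool.Agent.Lib.MP_e029a2_pr.G1

/-!
# Job D2: `Λ < 1` for `w (1 - √(1 - α²)) > 1/2`

Let `s = √(bw false/bw true)`, so `x = bw true * s + bw false * s⁻¹ = 2 √(bw true * bw false) = w √(1 - α²)` (as
`bw true * bw false = w² (1 - α²)/4`).  The hypothesis says `1 - w + x < 1/2`, so `2 x < 2 w - 1 < 1`.
Let `v = ∑'_{d ≠ 0} visP d s^d ≤ 1/(1-x) - 1 = x/(1-x) < 1` (`visP_gen`, `visP_zero`), `v < 1` as `2x < 1`.
For a finite window `S = Icc (-L) L` let `A = ∑_{h ∈ S} actP S h s^h < ∞`.  By `actP_le`: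
`A ≤ (1 + v) + ∑_{h' ∈ S} actP S h' s^h' ∑_{h ≠ h'} visP (h-h') s^(h-h') ≤ (1 + v) + A v`, so
`A ≤ (1+v)/(1-v)` and `1 + A ≤ 2/(1-v) ≤ 2 (1-x)/(1-2x)`.  With `L → ∞` (`actP_iSup`, monotone convergence):
`1 + ∑'_h actP univ h s^h ≤ 2 (1-x)/(1-2x)`, and by `kap_eq`: `mfun s ≤ (1-w)/(1-x) * 2 (1-x)/(1-2x) = 2 (1-w)/(1-2x) < 1`.
-/

set_option autoImplicit false

namespace FDr

open MeasureTheory ProbabilityTheory
open scoped ENNReal

theorem D2_Clus_mem {S : Set ℤ} {e : Run} {c : ℤ → Run} {h : ℤ} (hc : Clus S e c h) : h ∈ S := by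
  cases hc with
  | enter _ _ h1 => exact h1
  | next _ _ _ _ h1 => exact h1

theorem D2_Clus_mono {S S' : Set ℤ} (hS : S ⊆ S') {e : Run} {c : ℤ → Run} {h : ℤ} (hc : Clus S e c h) :
    Clus S' e c h := by
  induction hc with
  | enter h h0 h1 => exact Clus.enter h h0 (hS h1)
  | next h h' _ h1 h2 ih => exact Clus.next h h' ih h1 (hS h2)

theorem D2_actP_mono (w α : Set.Ioo (0 : ℝ) 1) {S S' : Set ℤ} (hS : S ⊆ S') (h : ℤ) :
    actP w α S h ≤ actP w α S' h := by
  unfold actP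
  exact measure_mono fun c hc => D2_Clus_mono hS hc

theorem D2_actP_zero (w α : Set.Ioo (0 : ℝ) 1) {S : Set ℤ} {h : ℤ} (hh : h ∉ S) : actP w α S h = 0 := by
  unfold actP
  have h1 : {c : Option ℤ → Run | Clus S (c none) (fun z => c (some z)) h} = ∅ := by
    rw [Set.eq_empty_iff_forall_notMem]
    intro c hc
    exact hh (D2_Clus_mem hc)
  rw [h1, measure_empty]

theorem D2_actP_le_one (w α : Set.Ioo (0 : ℝ) 1) (S : Set ℤ) (h : ℤ) : actP w α S h ≤ 1 := by
  unfold actP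
  exact prob_le_one

/-- The recursion for a finite window. -/
theorem D2_window (w α : Set.Ioo (0 : ℝ) 1) (s x : ℝ) (hs : 0 < s) (hx : bw w α true * s + bw w α false * s⁻¹ = x)
    (hx0 : 0 ≤ x) (hx2 : 2 * x < 1) (S : Finset ℤ) :
    ∑ h ∈ S, actP w α (S : Set ℤ) h * ENNReal.ofReal (s ^ h) ≤ ENNReal.ofReal (1 / (1 - 2 * x)) := by
  have hV := visP_gen w α s hs (by rw [hx]; linarith)
  rw [hx] at hV
  obtain ⟨g, hg⟩ : ∃ g : ℤ → ℝ≥0∞, ∀ d, g d = if d = 0 then 0 else visP w α d * ENNReal.ofReal (s ^ d) := ⟨_, fun _ => rfl⟩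
  obtain ⟨v, hv⟩ : ∃ v, v = ∑' d, g d := ⟨_, rfl⟩
  have hVv : ∑' d : ℤ, visP w α d * ENNReal.ofReal (s ^ d) = 1 + v := by
    rw [ENNReal.tsum_eq_add_tsum_ite 0, visP_zero, zpow_zero, ENNReal.ofReal_one, mul_one, hv]
    refine congrArg _ (tsum_congr fun d => ?_)
    rw [hg]
    by_cases hd : d = 0
    · rw [if_pos hd, if_pos hd]
    · rw [if_neg hd, if_neg hd]
  rw [hVv] at hV
  have hvtop : v ≠ ∞ := by
    intro h0
    rw [h0, add_top] at hV
    exact ENNReal.ofReal_ne_top (top_le_iff.1 hV)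
  obtain ⟨A, hA⟩ : ∃ A, A = ∑ h ∈ S, actP w α (S : Set ℤ) h * ENNReal.ofReal (s ^ h) := ⟨_, rfl⟩
  have hAtop : A ≠ ∞ := by
    rw [hA]
    refine ENNReal.sum_ne_top.2 fun h _ => ?_
    exact ENNReal.mul_ne_top (ne_top_of_le_ne_top ENNReal.one_ne_top (D2_actP_le_one w α _ h)) ENNReal.ofReal_ne_top
  have hmain : A ≤ (1 + v) + A * v := by
    have h1 : A ≤ ∑ h ∈ S, (visP w α h * ENNReal.ofReal (s ^ h) +
        ∑ h' ∈ S.erase h, (actP w α (S : Set ℤ) h' * ENNReal.ofReal (s ^ h')) * g (h - h')) := by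
      rw [hA]
      refine Finset.sum_le_sum fun h hh => ?_
      refine (mul_le_mul_left (actP_le w α S h hh) _).trans ?_
      rw [add_mul, Finset.sum_mul]
      refine add_le_add le_rfl (Finset.sum_le_sum fun h' hh' => ?_)
      have h2 : h - h' ≠ 0 := by
        intro h3
        exact (Finset.mem_erase.1 hh').1 (by omega)
      rw [hg, if_neg h2]
      have h3 : s ^ h = s ^ h' * s ^ (h - h') := by
        rw [← zpow_add₀ hs.ne']
        congr 1
        ring
      rw [h3, ENNReal.ofReal_mul (by positivity)]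
      exact le_of_eq (by ring)
    refine h1.trans ?_
    rw [Finset.sum_add_distrib]
    refine add_le_add ?_ ?_
    · rw [← hVv]
      exact ENNReal.sum_le_tsum S
    · have h2 : ∑ h ∈ S, ∑ h' ∈ S.erase h, (actP w α (S : Set ℤ) h' * ENNReal.ofReal (s ^ h')) * g (h - h') ≤
          ∑ h ∈ S, ∑ h' ∈ S, (actP w α (S : Set ℤ) h' * ENNReal.ofReal (s ^ h')) * g (h - h') :=
        Finset.sum_le_sum fun h _ => Finset.sum_le_sum_of_subset (Finset.erase_subset h S)
      refine h2.trans ?_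
      rw [Finset.sum_comm, hA, Finset.sum_mul]
      refine Finset.sum_le_sum fun h' _ => ?_
      rw [← Finset.mul_sum]
      refine mul_le_mul_right ?_ _
      refine (ENNReal.sum_le_tsum S).trans (le_of_eq ?_)
      rw [hv]
      exact (Equiv.subRight h').tsum_eq g
  rw [← hA]
  -- real numbers
  have hvr : v.toReal ≤ x / (1 - x) := by
    have h1 := ENNReal.toReal_mono ENNReal.ofReal_ne_top hV
    rw [ENNReal.toReal_add ENNReal.one_ne_top hvtop, ENNReal.toReal_one, ENNReal.toReal_ofReal (by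
      apply div_nonneg zero_le_one
      linarith)] at h1
    have h2 : (1 : ℝ) / (1 - x) = 1 + x / (1 - x) := by
      have : (1 : ℝ) - x ≠ 0 := by
        intro h3
        linarith
      field_simp
      ring
    linarith
  have hAr : A.toReal ≤ (1 + v.toReal) + A.toReal * v.toReal := by
    have h1 := ENNReal.toReal_mono (ENNReal.add_ne_top.2 ⟨ENNReal.add_ne_top.2 ⟨ENNReal.one_ne_top, hvtop⟩,
      ENNReal.mul_ne_top hAtop hvtop⟩) hmain
    rwa [ENNReal.toReal_add (ENNReal.add_ne_top.2 ⟨ENNReal.one_ne_top, hvtop⟩) (ENNReal.mul_ne_top hAtop hvtop),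
      ENNReal.toReal_add ENNReal.one_ne_top hvtop, ENNReal.toReal_mul, ENNReal.toReal_one] at h1
  rw [← ENNReal.ofReal_toReal hAtop]
  refine ENNReal.ofReal_le_ofReal ?_
  have hA0 : 0 ≤ A.toReal := ENNReal.toReal_nonneg
  have h1x : 0 < 1 - x := by linarith
  have h2x : 0 < 1 - 2 * x := by linarith
  have h1 : A.toReal * v.toReal ≤ A.toReal * (x / (1 - x)) := mul_le_mul_of_nonneg_left hvr hA0
  have h2 : A.toReal ≤ 1 + x / (1 - x) + A.toReal * (x / (1 - x)) := by linarith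
  rw [le_div_iff₀ h2x]
  have h3 : A.toReal * (1 - x) ≤ (1 + x / (1 - x) + A.toReal * (x / (1 - x))) * (1 - x) :=
    mul_le_mul_of_nonneg_right h2 h1x.le
  have h4 : (1 + x / (1 - x) + A.toReal * (x / (1 - x))) * (1 - x) = 1 + A.toReal * x := by
    field_simp
    ring
  linarith

/-- The bound for the full cluster. -/
theorem D2_full (w α : Set.Ioo (0 : ℝ) 1) (s x : ℝ) (hs : 0 < s) (hx : bw w α true * s + bw w α false * s⁻¹ = x)
    (hx0 : 0 ≤ x) (hx2 : 2 * x < 1) :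
    ∑' h : ℤ, actP w α Set.univ h * ENNReal.ofReal (s ^ h) ≤ ENNReal.ofReal (1 / (1 - 2 * x)) := by
  rw [ENNReal.tsum_eq_iSup_sum]
  refine iSup_le fun F => ?_
  have h1 : ∑ h ∈ F, actP w α Set.univ h * ENNReal.ofReal (s ^ h) =
      ⨆ L : ℕ, ∑ h ∈ F, actP w α ((Finset.Icc (-(L : ℤ)) L : Finset ℤ) : Set ℤ) h * ENNReal.ofReal (s ^ h) := by
    rw [← ENNReal.finsetSum_iSup_of_monotone]
    · refine Finset.sum_congr rfl fun h _ => ?_
      rw [actP_iSup, ENNReal.iSup_mul]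
    · intro h L L' hL
      refine mul_le_mul_left (D2_actP_mono w α ?_ h) _
      rw [Finset.coe_subset]
      exact Finset.Icc_subset_Icc (by omega) (by omega)
  rw [h1]
  refine iSup_le fun L => ?_
  refine le_trans ?_ (D2_window w α s x hs hx hx0 hx2 (Finset.Icc (-(L : ℤ)) L))
  have h2 : ∑ h ∈ F, actP w α ((Finset.Icc (-(L : ℤ)) L : Finset ℤ) : Set ℤ) h * ENNReal.ofReal (s ^ h) ≤
      ∑' h : ℤ, actP w α ((Finset.Icc (-(L : ℤ)) L : Finset ℤ) : Set ℤ) h * ENNReal.ofReal (s ^ h) :=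
    ENNReal.sum_le_tsum F
  refine h2.trans (le_of_eq ?_)
  refine tsum_eq_sum fun h hh => ?_
  rw [D2_actP_zero w α (by rwa [Finset.mem_coe]), zero_mul]

theorem Lam_lt_one (w α : Set.Ioo (0 : ℝ) 1)
    (h : 1 / 2 < (w : ℝ) * (1 - Real.sqrt (1 - (α : ℝ) ^ 2))) : Lam w α < 1 := by
  have hw0 := w.2.1
  have hw1 := w.2.2
  have ha0 := α.2.1
  have ha1 := α.2.2
  have hT := bw_pos w.2 α.2 true
  have hF := bw_pos w.2 α.2 false
  obtain ⟨s, hsd⟩ : ∃ s : ℝ, s = Real.sqrt (bw w α false / bw w α true) := ⟨_, rfl⟩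
  have hs : 0 < s := by
    rw [hsd]
    exact Real.sqrt_pos.2 (div_pos hF hT)
  have hs2 : s ^ 2 = bw w α false / bw w α true := by
    rw [hsd, Real.sq_sqrt (div_pos hF hT).le]
  obtain ⟨x, hxd⟩ : ∃ x : ℝ, x = (w : ℝ) * Real.sqrt (1 - (α : ℝ) ^ 2) := ⟨_, rfl⟩
  have hx0 : 0 ≤ x := by
    rw [hxd]
    exact mul_nonneg hw0.le (Real.sqrt_nonneg _)
  have hprod : bw w α true * bw w α false = (w : ℝ) ^ 2 * (1 - (α : ℝ) ^ 2) / 4 := by
    unfold bw
    simp only [if_true, Bool.false_eq_true, if_false]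
    ring
  have hx : bw w α true * s + bw w α false * s⁻¹ = x := by
    have h1 : bw w α false * s⁻¹ = bw w α true * s := by
      have h2 : bw w α false = bw w α true * s ^ 2 := by
        rw [hs2]
        field_simp
      rw [h2]
      field_simp
    rw [h1]
    have h2 : 0 ≤ bw w α true * s + bw w α true * s := by positivity
    have h3 : (bw w α true * s + bw w α true * s) ^ 2 = x ^ 2 := by
      have h4 : (bw w α true * s + bw w α true * s) ^ 2 = 4 * (bw w α true) ^ 2 * s ^ 2 := by ring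
      have h5 : (0 : ℝ) ≤ 1 - (α : ℝ) ^ 2 := by nlinarith
      rw [h4, hs2, hxd, mul_pow, Real.sq_sqrt h5]
      have h6 : 4 * (bw w α true) ^ 2 * (bw w α false / bw w α true) = 4 * (bw w α true * bw w α false) := by
        field_simp
      rw [h6, hprod]
      ring
    exact (pow_left_inj₀ h2 hx0 two_ne_zero).1 h3
  have hlt : 2 * x < 2 * w - 1 := by
    rw [hxd]
    linarith
  have hx2 : 2 * x < 1 := by linarith
  have hk := kap_eq w α s hs (by rw [hx]; linarith)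
  rw [hx] at hk
  have hfull := D2_full w α s x hs hx hx0 hx2
  have h1x : 0 < 1 - x := by linarith
  have h2x : 0 < 1 - 2 * x := by linarith
  have hm : mfun w α s < 1 := by
    unfold mfun
    rw [hk]
    calc ENNReal.ofReal ((1 - w) / (1 - x)) * (1 + ∑' h : ℤ, actP w α Set.univ h * ENNReal.ofReal (s ^ h))
        ≤ ENNReal.ofReal ((1 - w) / (1 - x)) * (1 + ENNReal.ofReal (1 / (1 - 2 * x))) :=
          mul_le_mul_right (add_le_add le_rfl hfull) _
      _ = ENNReal.ofReal ((1 - w) / (1 - x) * (1 + 1 / (1 - 2 * x))) := by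
          rw [ENNReal.ofReal_mul (div_nonneg (by linarith) h1x.le), ENNReal.ofReal_add zero_le_one (by positivity),
            ENNReal.ofReal_one]
      _ < 1 := by
          rw [← ENNReal.ofReal_one]
          refine (ENNReal.ofReal_lt_ofReal_iff one_pos).2 ?_
          have h4 : 1 + 1 / (1 - 2 * x) = (2 - 2 * x) / (1 - 2 * x) := by
            rw [eq_div_iff h2x.ne', add_mul, div_mul_cancel₀ _ h2x.ne']
            ring
          rw [h4, div_mul_div_comm, div_lt_one (mul_pos h1x h2x)]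
          have h5 := mul_pos h1x (by linarith : 0 < (1 - 2 * x) - 2 * (1 - (w : ℝ)))
          linarith
  exact (iInf₂_le s hs).trans_lt hm

end FDr
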