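import Pool.Agent.Lib.MP_e029a2_pr.Law

/-!
# Job D2a: the last step inequality for the cluster

`visP d` is the probability that a run visits `d`.  Let `S` be a finite set of integers and `h ∈ S`.
1. If `Clus S e c h` then `h ∈ vis e`, or there is `h' ∈ S`, `h' ≠ h`, with `Clus S e c h'` and `h - h' ∈ vis (c h')`:
   take the last step of a derivation of `Clus S e c h` of minimal length (or: prove by induction on the derivation
   of `Clus S e c z` that for `z = h` the conclusion holds: in the case `next h' h` with `h' = h` use the induction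
   hypothesis, with `h' ≠ h` it is the conclusion; the case `enter` is the first alternative).
2. The event `Clus S e c h'` does not depend on `c h'`: if `c` and `c'` agree outside `h'` then
   `Clus S e c h' ↔ Clus S e c' h'` (show by induction that `Clus S e c z` implies `Clus S e c' z ∨ Clus S e c' h'`: in
   the step `next z z'` with `z ≠ h'`, `c z = c' z`; with `z = h'` we already have `Clus S e c' h'`).
3. Under the product measure `Measure.infinitePi (fun _ : Option ℤ => runLaw w α)` the event
   `{c | Clus S (c none) (fun z => c (some z)) h'}` depends on the coordinates other than `some h'` and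
   `{c | h - h' ∈ vis (c (some h'))}` on the coordinate `some h'`: they are independent, so the probability of the
   intersection is the product `actP S h' * visP (h - h')`.  (Measurability: the events depend on finitely many
   coordinates (`S` finite) with values in a discrete countable space; or use that the complement/union form is
   countable.)  Union bound over `h' ∈ S \ {h}`.
-/

set_option autoImplicit false

namespace FDr

open MeasureTheory ProbabilityTheory
open scoped ENNReal

/-- the probability that a run visits `d` -/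
noncomputable def visP (w α : Set.Ioo (0 : ℝ) 1) (d : ℤ) : ℝ≥0∞ := runLaw w α {l | d ∈ vis l}

private theorem D2a_discrete : DiscreteMeasurableSpace Run := ⟨fun _ => trivial⟩

private theorem D2a_mem {S : Set ℤ} {e : Run} {c : ℤ → Run} {z : ℤ} (h : Clus S e c z) : z ∈ S := by
  cases h with
  | enter h1 h2 h3 => exact h3
  | next h1 h2 h3 h4 h5 => exact h5

private theorem D2a_last {S : Set ℤ} {e : Run} {c : ℤ → Run} {z : ℤ} (h : Clus S e c z) :
    z ∈ vis e ∨ ∃ z', z' ≠ z ∧ Clus S e c z' ∧ z - z' ∈ vis (c z') := by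
  induction h with
  | enter h1 h2 h3 => exact Or.inl h2
  | next h1 h2 h3 h4 h5 ih =>
    by_cases h : h1 = h2
    · subst h; exact ih
    · exact Or.inr ⟨h1, h, h3, h4⟩

private theorem D2a_indep {S : Set ℤ} {e e' : Run} {c c' : ℤ → Run} {z0 : ℤ} (he : e = e')
    (hc : ∀ z ∈ S, z ≠ z0 → c z = c' z) {z : ℤ} (h : Clus S e c z) : Clus S e' c' z ∨ Clus S e' c' z0 := by
  subst he
  induction h with
  | enter h1 h2 h3 => exact Or.inl (Clus.enter h1 h2 h3)
  | next h1 h2 h3 h4 h5 ih =>
    rcases ih with ih | ih
    · by_cases h : h1 = z0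
      · subst h; exact Or.inr ih
      · left
        refine Clus.next h1 h2 ih ?_ h5
        rw [← hc h1 (D2a_mem h3) h]
        exact h4
    · exact Or.inr ih

private theorem D2a_indep_iff {S : Set ℤ} {e e' : Run} {c c' : ℤ → Run} {z0 : ℤ} (he : e = e')
    (hc : ∀ z ∈ S, z ≠ z0 → c z = c' z) : Clus S e c z0 ↔ Clus S e' c' z0 := by
  constructor
  · intro h
    rcases D2a_indep he hc h with h | h
    · exact h
    · exact h
  · intro h
    rcases D2a_indep he.symm (fun z hz hne => (hc z hz hne).symm) h with h | h
    · exact h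
    · exact h

private theorem D2a_eval (w α : Set.Ioo (0 : ℝ) 1) (i : Option ℤ) (B : Set Run) :
    Measure.infinitePi (fun _ : Option ℤ => runLaw w α) {c | c i ∈ B} = runLaw w α B := by
  haveI := D2a_discrete
  have h := measurePreserving_eval_infinitePi (fun _ : Option ℤ => runLaw w α) i
  exact h.measure_preimage (MeasurableSet.of_discrete (s := B)).nullMeasurableSet

private theorem D2a_prod (w α : Set.Ioo (0 : ℝ) 1) (S : Finset ℤ) (z0 : ℤ) (B : Set Run) :
    Measure.infinitePi (fun _ : Option ℤ => runLaw w α)
      ({c | Clus (S : Set ℤ) (c none) (fun z => c (some z)) z0} ∩ {c | c (some z0) ∈ B}) =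
      actP w α (S : Set ℤ) z0 * runLaw w α B := by
  classical
  haveI := D2a_discrete
  set P := Measure.infinitePi (fun _ : Option ℤ => runLaw w α) with hP
  have hI : iIndepFun (fun (i : Option ℤ) (c : Option ℤ → Run) => c i) P :=
    iIndepFun_infinitePi (P := fun _ : Option ℤ => runLaw w α) (X := fun _ => id) (fun _ => measurable_id)
  set F : Finset (Option ℤ) := insert none ((S.erase z0).image some) with hF
  have hd : Disjoint F {some z0} := by
    rw [Finset.disjoint_singleton_right, hF, Finset.mem_insert, Finset.mem_image]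
    rintro (h | ⟨a, ha, h⟩)
    · exact Option.some_ne_none _ h
    · rw [Option.some_inj] at h
      rw [h] at ha
      exact Finset.notMem_erase z0 S ha
  have hII := hI.indepFun_finset F {some z0} hd (fun i => measurable_pi_apply i)
  set ext : (F → Run) → Option ℤ → Run := fun d i => if h : i ∈ F then d ⟨i, h⟩ else [] with hext
  have hA : {c : Option ℤ → Run | Clus (S : Set ℤ) (c none) (fun z => c (some z)) z0} =
      (fun (c : Option ℤ → Run) (i : F) => c i) ⁻¹'
        {d | Clus (S : Set ℤ) (ext d none) (fun z => ext d (some z)) z0} := by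
    ext c
    rw [Set.mem_preimage, Set.mem_ofPred_eq, Set.mem_ofPred_eq]
    have hin : ∀ i ∈ F, ext (fun i : F => c i) i = c i := by
      intro i hi
      rw [hext]
      simp only
      rw [dif_pos hi]
    refine D2a_indep_iff ?_ ?_
    · exact (hin none (Finset.mem_insert_self _ _)).symm
    · intro z hz hne
      refine (hin (some z) (Finset.mem_insert_of_mem (Finset.mem_image_of_mem _ ?_))).symm
      exact Finset.mem_erase.2 ⟨hne, hz⟩
  have hB : {c : Option ℤ → Run | c (some z0) ∈ B} =
      (fun (c : Option ℤ → Run) (i : ({some z0} : Finset (Option ℤ))) => c i) ⁻¹'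
        {d | d ⟨some z0, Finset.mem_singleton_self _⟩ ∈ B} := by
    ext c
    rfl
  have hmA : MeasurableSet {d : F → Run | Clus (S : Set ℤ) (ext d none) (fun z => ext d (some z)) z0} :=
    (Set.to_countable _).measurableSet
  have hmB : MeasurableSet {d : ({some z0} : Finset (Option ℤ)) → Run | d ⟨some z0, Finset.mem_singleton_self _⟩ ∈ B} :=
    (Set.to_countable _).measurableSet
  have h := hII.measure_inter_preimage_eq_mul _ _ hmA hmB
  rw [← hA, ← hB] at h
  rw [h]
  have h2 := D2a_eval w α (some z0) B
  rw [← hP] at h2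
  rw [h2]
  rfl

theorem actP_le (w α : Set.Ioo (0 : ℝ) 1) (S : Finset ℤ) (h : ℤ) (hS : h ∈ S) :
    actP w α (S : Set ℤ) h ≤ visP w α h + ∑ h' ∈ S.erase h, actP w α (S : Set ℤ) h' * visP w α (h - h') := by
  have h1 : {c : Option ℤ → Run | Clus (S : Set ℤ) (c none) (fun z => c (some z)) h} ⊆
      {c | c none ∈ {l : Run | h ∈ vis l}} ∪ ⋃ z ∈ S.erase h,
        ({c | Clus (S : Set ℤ) (c none) (fun z => c (some z)) z} ∩ {c | c (some z) ∈ {l : Run | h - z ∈ vis l}}) := by
    intro c hc
    rcases D2a_last hc with h2 | ⟨z, hz1, hz2, hz3⟩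
    · exact Or.inl h2
    · right
      refine Set.mem_iUnion₂.2 ⟨z, Finset.mem_erase.2 ⟨hz1, ?_⟩, hz2, hz3⟩
      have := D2a_mem hz2
      exact_mod_cast this
  unfold actP
  refine (measure_mono h1).trans ((measure_union_le _ _).trans ?_)
  refine add_le_add ?_ ((measure_biUnion_finset_le _ _).trans (Finset.sum_le_sum fun z _ => ?_))
  · rw [D2a_eval]
    rfl
  · rw [D2a_prod]
    rfl

private theorem D2a_mono {S T : Set ℤ} (hST : S ⊆ T) {e : Run} {c : ℤ → Run} {z : ℤ} (h : Clus S e c z) : Clus T e c z := by
  induction h with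
  | enter h1 h2 h3 => exact Clus.enter h1 h2 (hST h3)
  | next h1 h2 h3 h4 h5 ih => exact Clus.next h1 h2 ih h4 (hST h5)

private theorem D2a_win_mono : Monotone fun L : ℕ => (((Finset.Icc (-(L : ℤ)) L : Finset ℤ)) : Set ℤ) := by
  intro L M h x hx
  have h1 : (L : ℤ) ≤ M := by exact_mod_cast h
  simp only [Finset.coe_Icc, Set.mem_Icc] at hx ⊢
  constructor
  · linarith [hx.1]
  · linarith [hx.2]

private theorem D2a_in_win (z : ℤ) {L : ℕ} (h : z.natAbs ≤ L) :
    z ∈ ((Finset.Icc (-(L : ℤ)) L : Finset ℤ) : Set ℤ) := by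
  simp only [Finset.coe_Icc, Set.mem_Icc]
  omega

private theorem D2a_exists {e : Run} {c : ℤ → Run} {z : ℤ} (h : Clus Set.univ e c z) :
    ∃ L : ℕ, Clus ((Finset.Icc (-(L : ℤ)) L : Finset ℤ) : Set ℤ) e c z := by
  induction h with
  | enter h1 h2 h3 => exact ⟨h1.natAbs, Clus.enter h1 h2 (D2a_in_win h1 le_rfl)⟩
  | next h1 h2 h3 h4 h5 ih =>
    obtain ⟨L, hL⟩ := ih
    exact ⟨max L h2.natAbs, Clus.next h1 h2 (D2a_mono (D2a_win_mono (le_max_left _ _)) hL) h4
      (D2a_in_win h2 (le_max_right _ _))⟩

/-- the cluster is the increasing union of the clusters of the finite windows -/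
theorem actP_iSup (w α : Set.Ioo (0 : ℝ) 1) (h : ℤ) :
    actP w α Set.univ h = ⨆ L : ℕ, actP w α ((Finset.Icc (-(L : ℤ)) L : Finset ℤ) : Set ℤ) h := by
  have h1 : {c : Option ℤ → Run | Clus Set.univ (c none) (fun z => c (some z)) h} =
      ⋃ L : ℕ, {c | Clus ((Finset.Icc (-(L : ℤ)) L : Finset ℤ) : Set ℤ) (c none) (fun z => c (some z)) h} := by
    ext c
    rw [Set.mem_iUnion]
    constructor
    · intro hc
      exact D2a_exists hc
    · rintro ⟨L, hL⟩
      exact D2a_mono (Set.subset_univ _) hL
  have h2 : Monotone fun L : ℕ =>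
      {c : Option ℤ → Run | Clus ((Finset.Icc (-(L : ℤ)) L : Finset ℤ) : Set ℤ) (c none) (fun z => c (some z)) h} := by
    intro L M hLM c hc
    exact D2a_mono (D2a_win_mono hLM) hc
  unfold actP
  rw [h1, h2.measure_iUnion]

end FDr
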