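import Pool.Agent.Lib.MP_e029a2_pr.D2a

/-!
# Job D2b: the generating function of the visited points

Let `x = bw true * s + bw false * s⁻¹ < 1`.  `1_{d ∈ vis l} ≤ ∑_{i ≤ length l} 1_{dsp (l.take i) = d}`, so
`∑'_d visP d s^d ≤ ∑'_l runW l ∑_{i ≤ length l} s^(dsp (l.take i)) = ∑'_{(l₁, l₂)} W l₁ s^(dsp l₁) runW l₂`, where `l = l₁ ++ l₂`
(bijection between the pairs `(l, i)`, `i ≤ length l`, and the pairs `(l₁, l₂)`), `W l = ∏ bw`; the sum over `l₂` of `runW`
is `1` (`runLaw_prob`) and the sum over `l₁` is `∑'_n x^n = 1/(1-x)` (`tsum_run` with `a b = ofReal (bw b * s^(sg b))`).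
-/

set_option autoImplicit false

namespace FDr

open MeasureTheory ProbabilityTheory
open scoped ENNReal

private theorem D2b_law (w α : Set.Ioo (0 : ℝ) 1) (A : Set Run) :
    runLaw w α A = ∑' l : Run, ENNReal.ofReal (runW w α l) * A.indicator 1 l := by
  unfold runLaw
  rw [Measure.sum_apply _ (show MeasurableSet A from trivial)]
  refine tsum_congr fun l => ?_
  rw [Measure.smul_apply, Measure.dirac_apply' l (show MeasurableSet A from trivial), smul_eq_mul]

private theorem D2b_sum_vis (s : ℝ) (l : Run) :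
    ∑' d : ℤ, ({l : Run | d ∈ vis l}.indicator 1 l : ℝ≥0∞) * ENNReal.ofReal (s ^ d) ≤
      ∑ i : Fin (l.length + 1), ENNReal.ofReal (s ^ dsp (l.take i)) := by
  have h1 : ∀ d : ℤ, ({l : Run | d ∈ vis l}.indicator 1 l : ℝ≥0∞) * ENNReal.ofReal (s ^ d) ≤
      ∑ i : Fin (l.length + 1), (if d = dsp (l.take i) then ENNReal.ofReal (s ^ d) else 0) := by
    intro d
    by_cases hd : d ∈ vis l
    · obtain ⟨i, hi, hdi⟩ := hd
      rw [Set.indicator_of_mem (show l ∈ {l : Run | d ∈ vis l} from ⟨i, hi, hdi⟩), Pi.one_apply, one_mul]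
      refine le_trans (le_of_eq ?_) (Finset.single_le_sum (fun _ _ => zero_le)
        (Finset.mem_univ (⟨i, Nat.lt_succ_of_le hi⟩ : Fin (l.length + 1))))
      rw [if_pos hdi.symm]
    · rw [Set.indicator_of_notMem (show l ∉ {l : Run | d ∈ vis l} from hd), zero_mul]
      exact zero_le
  refine (ENNReal.tsum_le_tsum h1).trans (le_of_eq ?_)
  rw [Summable.tsum_finsetSum (fun _ _ => ENNReal.summable)]
  refine Finset.sum_congr rfl fun i _ => ?_
  rw [tsum_ite_eq]

private theorem D2b_pow {s : ℝ} (hs : 0 < s) (l : Run) :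
    ENNReal.ofReal (s ^ dsp l) = (l.map fun b => ENNReal.ofReal (s ^ sg b)).prod := by
  induction l with
  | nil => simp [dsp]
  | cons b l ih =>
    have h1 : dsp (b :: l) = sg b + dsp l := by
      simp [dsp]
    rw [h1, zpow_add₀ hs.ne', ENNReal.ofReal_mul (zpow_pos hs _).le, ih, List.map_cons, List.prod_cons]

private theorem D2b_W (w α : Set.Ioo (0 : ℝ) 1) (l : Run) :
    ENNReal.ofReal (runW w α l) = ENNReal.ofReal (1 - w) * (l.map fun b => ENNReal.ofReal (bw w α b)).prod := by
  rw [runW_eq, ENNReal.ofReal_mul (by linarith [w.2.2])]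
  congr 1
  induction l with
  | nil => simp
  | cons b l ih =>
    rw [List.map_cons, List.prod_cons, List.map_cons, List.prod_cons, ENNReal.ofReal_mul (bw_pos w.2 α.2 b).le, ih]

private theorem D2b_term (w α : Set.Ioo (0 : ℝ) 1) {s : ℝ} (hs : 0 < s) (l : Run) (i : ℕ) :
    ENNReal.ofReal (runW w α l) * ENNReal.ofReal (s ^ dsp (l.take i)) =
      ((l.take i).map fun b => ENNReal.ofReal (bw w α b) * ENNReal.ofReal (s ^ sg b)).prod *
        ENNReal.ofReal (runW w α (l.drop i)) := by
  have h1 : (l.map fun b => ENNReal.ofReal (bw w α b)).prod =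
      ((l.take i).map fun b => ENNReal.ofReal (bw w α b)).prod *
        ((l.drop i).map fun b => ENNReal.ofReal (bw w α b)).prod := by
    rw [← List.prod_append, ← List.map_append, List.take_append_drop]
  rw [D2b_W, D2b_W, h1, D2b_pow hs, List.prod_map_mul]
  ring

theorem visP_gen (w α : Set.Ioo (0 : ℝ) 1) (s : ℝ) (hs : 0 < s)
    (hx : bw w α true * s + bw w α false * s⁻¹ < 1) :
    ∑' d : ℤ, visP w α d * ENNReal.ofReal (s ^ d) ≤
      ENNReal.ofReal (1 / (1 - (bw w α true * s + bw w α false * s⁻¹))) := by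
  have h1 : ∑' d : ℤ, visP w α d * ENNReal.ofReal (s ^ d) =
      ∑' l : Run, ENNReal.ofReal (runW w α l) *
        ∑' d : ℤ, ({l : Run | d ∈ vis l}.indicator 1 l : ℝ≥0∞) * ENNReal.ofReal (s ^ d) := by
    have h2 : ∀ d : ℤ, visP w α d * ENNReal.ofReal (s ^ d) =
        ∑' l : Run, ENNReal.ofReal (runW w α l) *
          (({l : Run | d ∈ vis l}.indicator 1 l : ℝ≥0∞) * ENNReal.ofReal (s ^ d)) := by
      intro d
      rw [visP, D2b_law, ← ENNReal.tsum_mul_right]
      exact tsum_congr fun l => mul_assoc _ _ _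
    rw [tsum_congr h2, ENNReal.tsum_comm]
    exact tsum_congr fun l => ENNReal.tsum_mul_left
  rw [h1]
  have h3 : ∀ l : Run, ENNReal.ofReal (runW w α l) *
      ∑' d : ℤ, ({l : Run | d ∈ vis l}.indicator 1 l : ℝ≥0∞) * ENNReal.ofReal (s ^ d) ≤
      ∑' i : Fin (l.length + 1),
        ((l.take i).map fun b => ENNReal.ofReal (bw w α b) * ENNReal.ofReal (s ^ sg b)).prod *
          ENNReal.ofReal (runW w α (l.drop i)) := by
    intro l
    refine (mul_le_mul_right (D2b_sum_vis s l) _).trans (le_of_eq ?_)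
    rw [Finset.mul_sum, tsum_fintype]
    exact Finset.sum_congr rfl fun i _ => D2b_term w α hs l i
  refine (ENNReal.tsum_le_tsum h3).trans ?_
  rw [← ENNReal.tsum_sigma (fun (l : Run) (i : Fin (l.length + 1)) =>
    ((l.take i).map fun b => ENNReal.ofReal (bw w α b) * ENNReal.ofReal (s ^ sg b)).prod *
          ENNReal.ofReal (runW w α (l.drop i)))]
  have hinj : Function.Injective fun p : (Σ l : Run, Fin (l.length + 1)) => (p.1.take p.2, p.1.drop p.2) := by
    rintro ⟨l, i⟩ ⟨l', i'⟩ h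
    have h4 : l.take i = l'.take i' := congrArg Prod.fst h
    have h5 : l.drop i = l'.drop i' := congrArg Prod.snd h
    have h6 : l = l' := by
      rw [← List.take_append_drop i l, h4, h5, List.take_append_drop]
    subst h6
    have h7 := congrArg List.length h4
    rw [List.length_take, List.length_take, min_eq_left (Nat.le_of_lt_succ i.2),
      min_eq_left (Nat.le_of_lt_succ i'.2)] at h7
    rw [Fin.ext h7]
  refine (ENNReal.tsum_comp_le_tsum_of_injective hinj (fun q : Run × Run =>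
    (q.1.map fun b => ENNReal.ofReal (bw w α b) * ENNReal.ofReal (s ^ sg b)).prod *
      ENNReal.ofReal (runW w α q.2))).trans ?_
  rw [ENNReal.tsum_prod' (f := fun q : Run × Run =>
    (q.1.map fun b => ENNReal.ofReal (bw w α b) * ENNReal.ofReal (s ^ sg b)).prod *
      ENNReal.ofReal (runW w α q.2))]
  have h8 : ∑' l : Run, ENNReal.ofReal (runW w α l) = 1 := by
    have h9 := D2b_law w α Set.univ
    rw [measure_univ] at h9
    rw [h9]
    refine tsum_congr fun l => ?_
    rw [Set.indicator_univ, Pi.one_apply, mul_one]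
  have h10 : ∀ l : Run, ∑' l' : Run, (l.map fun b => ENNReal.ofReal (bw w α b) * ENNReal.ofReal (s ^ sg b)).prod *
      ENNReal.ofReal (runW w α l') =
      (l.map fun b => ENNReal.ofReal (bw w α b) * ENNReal.ofReal (s ^ sg b)).prod := by
    intro l
    rw [ENNReal.tsum_mul_left, h8, mul_one]
  rw [tsum_congr h10, tsum_run]
  have h11 : ENNReal.ofReal (bw w α true) * ENNReal.ofReal (s ^ sg true) +
      ENNReal.ofReal (bw w α false) * ENNReal.ofReal (s ^ sg false) =
      ENNReal.ofReal (bw w α true * s + bw w α false * s⁻¹) := by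
    have e1 : sg true = 1 := rfl
    have e2 : sg false = -1 := rfl
    rw [e1, e2, zpow_one, zpow_neg_one, ← ENNReal.ofReal_mul (bw_pos w.2 α.2 _).le,
      ← ENNReal.ofReal_mul (bw_pos w.2 α.2 _).le, ← ENNReal.ofReal_add]
    · exact mul_nonneg (bw_pos w.2 α.2 _).le hs.le
    · exact mul_nonneg (bw_pos w.2 α.2 _).le (inv_pos.2 hs).le
  rw [h11, ENNReal.tsum_geometric]
  have h12 : 0 ≤ bw w α true * s + bw w α false * s⁻¹ :=
    add_nonneg (mul_nonneg (bw_pos w.2 α.2 _).le hs.le) (mul_nonneg (bw_pos w.2 α.2 _).le (inv_pos.2 hs).le)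
  rw [one_div, ENNReal.ofReal_inv_of_pos (by linarith), ENNReal.ofReal_sub _ h12, ENNReal.ofReal_one]

theorem visP_zero (w α : Set.Ioo (0 : ℝ) 1) : visP w α 0 = 1 := by
  have h : {l : Run | (0 : ℤ) ∈ vis l} = Set.univ := by
    ext l
    exact iff_of_true ⟨0, Nat.zero_le _, by simp [dsp]⟩ trivial
  rw [visP, h, measure_univ]

end FDr
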