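import Pool.Agent.Lib.MP_e029a2_pr.G2

/-!
# Removing odd coordinates

`srw D (j+1) v ≥ (2D)⁻¹ srw D j (v - dv d)` (one term of the definition), `hz (j + 1) h ≥ dispP 0 * hz j h`
(`hz_succ_ge` with `k = 0`), so `Gam h v ≥ dispP 0 (2D)⁻¹ Gam h (v - dv d)`; induction over the finset `S`.
-/

set_option autoImplicit false

namespace FDr

open MeasureTheory
open scoped ENNReal

private theorem FM1_step (w α : Set.Ioo (0 : ℝ) 1) (D : ℕ) (h : ℤ) (v : V D) (c : Fin D) :
    dispP w α 0 * (2 * (D : ℝ≥0∞))⁻¹ * Gam w α D h (v - Pi.single c 1) ≤ Gam w α D h v := by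
  unfold Gam
  rw [← ENNReal.tsum_mul_left]
  refine le_trans (ENNReal.tsum_le_tsum (g := fun j => hz w α (j + 1) h * srw D (j + 1) v) fun j => ?_) ?_
  · have h1 : dispP w α 0 * hz w α j h ≤ hz w α (j + 1) h := by
      have := hz_succ_ge w α j h 0
      rwa [add_zero] at this
    have h2 : (2 * (D : ℝ≥0∞))⁻¹ * srw D j (v - Pi.single c 1) ≤ srw D (j + 1) v := by
      have h3 := Finset.single_le_sum (f := fun d : Dir D => (2 * (D : ℝ≥0∞))⁻¹ * srw D j (v - dv d))
        (fun d _ => zero_le) (Finset.mem_univ ((c, true) : Dir D))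
      have e : dv ((c, true) : Dir D) = Pi.single c 1 := rfl
      simp only [e] at h3
      exact h3
    calc dispP w α 0 * (2 * (D : ℝ≥0∞))⁻¹ * (hz w α j h * srw D j (v - Pi.single c 1))
        = (dispP w α 0 * hz w α j h) * ((2 * (D : ℝ≥0∞))⁻¹ * srw D j (v - Pi.single c 1)) := by ring
      _ ≤ hz w α (j + 1) h * srw D (j + 1) v := mul_le_mul' h1 h2
  · exact ENNReal.tsum_comp_le_tsum_of_injective Nat.succ_injective
      (fun j => hz w α j h * srw D j v)

theorem Gam_shift (w α : Set.Ioo (0 : ℝ) 1) (D : ℕ) (hD : 1 ≤ D) (h : ℤ) (v : V D) (S : Finset (Fin D)) :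
    (dispP w α 0 * (2 * (D : ℝ≥0∞))⁻¹) ^ D * Gam w α D h (v - ∑ c ∈ S, Pi.single c 1) ≤
      Gam w α D h v := by
  have key : ∀ (S : Finset (Fin D)) (v : V D), (dispP w α 0 * (2 * (D : ℝ≥0∞))⁻¹) ^ S.card *
      Gam w α D h (v - ∑ c ∈ S, Pi.single c 1) ≤ Gam w α D h v := by
    intro S
    induction S using Finset.induction_on with
    | empty =>
      intro v
      rw [Finset.sum_empty, sub_zero, Finset.card_empty, pow_zero, one_mul]
    | insert c S hc ih =>
      intro v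
      rw [Finset.sum_insert hc, Finset.card_insert_of_notMem hc, pow_succ']
      have e : v - (Pi.single c 1 + ∑ c ∈ S, Pi.single c 1) = (v - Pi.single c 1) - ∑ c ∈ S, Pi.single c 1 := by
        rw [sub_sub]
      rw [e, mul_assoc]
      exact (mul_le_mul_right (ih (v - Pi.single c 1)) _).trans (FM1_step w α D h v c)
  refine le_trans (mul_le_mul_left ?_ _) (key S v)
  apply pow_le_pow_right_of_le_one'
  · have h1 : dispP w α 0 ≤ 1 := prob_le_one
    have h2 : (2 * (D : ℝ≥0∞))⁻¹ ≤ 1 := by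
      rw [ENNReal.inv_le_one]
      have h3 : (1 : ℝ≥0∞) ≤ (D : ℝ≥0∞) := by exact_mod_cast hD
      calc (1 : ℝ≥0∞) = 1 * 1 := (one_mul 1).symm
        _ ≤ 2 * (D : ℝ≥0∞) := mul_le_mul' one_le_two h3
    calc dispP w α 0 * (2 * (D : ℝ≥0∞))⁻¹ ≤ 1 * 1 := mul_le_mul' h1 h2
      _ = 1 := one_mul 1
  · have := Finset.card_le_univ S
    rwa [Fintype.card_fin] at this

end FDr
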