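import Pool.Agent.Lib.MP_e029a2_pr.FR6

/-!
# Job FR10: the difference between the offset `v` and the offset zero

Let all `v i` be even, `v i = 2 a_i`.
1. `1 - cos (x + y) ≤ 2 (1 - cos x) + 2 (1 - cos y)` (as `2 (1 - cos x) = |1 - e^{ix}|²`; or directly:
   `1 - cos (x+y) = 2 sin²((x+y)/2)` and `(a+b)² ≤ 2a² + 2b²`, `|sin (a+b)| ≤ |sin a| + |sin b|`).  More generally
   `1 - cos (∑_{c} x_c) ≤ D ∑_c (1 - cos x_c)`: `|sin (∑ y_c)| ≤ ∑ |sin y_c|` and Cauchy-Schwarz.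
2. `1 - cos (2 a y) ≤ a² (1 - cos (2 y)) = 2 a² sin² y ≤ 4 a² (1 - |cos y|)` (`|sin (a y)| ≤ |a| |sin y|` for
   integers `a`; `sin² y = (1 - |cos y|)(1 + |cos y|)`).
   So `0 ≤ 1 - cos (dot θ v) ≤ Cv * osc θ` with `Cv = D ∑_i (v i)²` (for instance).
3. `0 ≤ Phi^N ≤ exp (-(N/D) osc)`, `0 ≤ cD^l ≤ 1` (even powers), and with `y = (N/D) osc`:
   `osc * exp (-y) = (D/N) y exp (-y) ≤ (D/N) exp (-y/2)` (as `y ≤ exp (y/2)`: `y/2 + 1 ≤ exp (y/2)` gives
   `y ≤ 2 exp (y/2)`: use the constant `2D/N` instead).  So the integral is at most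
   `Cv (2D/N) ∫ exp (-(N/(2D)) osc) ≤ Cv (2D/N) (2 √(2D)/√N)^D` (`int_tor_exp`) and `1/√N ≤ √2/√(N+1)`.
-/

set_option autoImplicit false

namespace FDr

open MeasureTheory
open scoped ENNReal

private theorem FR10_sin_add (a b : ℝ) : |Real.sin (a + b)| ≤ |Real.sin a| + |Real.sin b| := by
  rw [Real.sin_add]
  refine (abs_add_le _ _).trans (add_le_add ?_ ?_)
  · rw [abs_mul]
    exact mul_le_of_le_one_right (abs_nonneg _) (Real.abs_cos_le_one b)
  · rw [abs_mul]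
    exact mul_le_of_le_one_left (abs_nonneg _) (Real.abs_cos_le_one a)

private theorem FR10_sin_sum {ι : Type*} (s : Finset ι) (y : ι → ℝ) :
    |Real.sin (∑ c ∈ s, y c)| ≤ ∑ c ∈ s, |Real.sin (y c)| := by
  classical
  induction s using Finset.induction_on with
  | empty => simp
  | insert a s ha ih =>
    rw [Finset.sum_insert ha, Finset.sum_insert ha]
    exact (FR10_sin_add _ _).trans (add_le_add le_rfl ih)

private theorem FR10_sin_nat (n : ℕ) (y : ℝ) : |Real.sin (n * y)| ≤ n * |Real.sin y| := by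
  induction n with
  | zero => simp
  | succ n ih =>
    have h1 : ((n + 1 : ℕ) : ℝ) * y = n * y + y := by
      push_cast
      ring
    rw [h1]
    refine (FR10_sin_add _ _).trans ?_
    push_cast
    linarith

private theorem FR10_sin_int (a : ℤ) (y : ℝ) : Real.sin (a * y) ^ 2 ≤ (a : ℝ) ^ 2 * Real.sin y ^ 2 := by
  have h1 : Real.sin (a * y) ^ 2 = Real.sin ((a.natAbs : ℝ) * y) ^ 2 := by
    have h2 : ((a.natAbs : ℝ)) = |(a : ℝ)| := by
      rw [Nat.cast_natAbs, Int.cast_abs]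
    rw [h2]
    rcases abs_choice (a : ℝ) with h | h
    · rw [h]
    · rw [h, neg_mul, Real.sin_neg, neg_sq]
  have h3 : (a : ℝ) ^ 2 = ((a.natAbs : ℕ) : ℝ) ^ 2 := by
    rw [Nat.cast_natAbs, Int.cast_abs, sq_abs]
  rw [h1, h3, ← mul_pow, ← sq_abs (Real.sin _), ← sq_abs (_ * Real.sin y), abs_mul, abs_of_nonneg (Nat.cast_nonneg (a.natAbs) : (0 : ℝ) ≤ _)]
  exact pow_le_pow_left₀ (abs_nonneg _) (FR10_sin_nat _ _) 2

private theorem FR10_sin_cos (y : ℝ) : Real.sin y ^ 2 ≤ 2 * (1 - |Real.cos y|) := by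
  have h1 := Real.sin_sq_add_cos_sq y
  have h2 := Real.abs_cos_le_one y
  have h3 := abs_nonneg (Real.cos y)
  have h4 := sq_abs (Real.cos y)
  nlinarith

private theorem FR10_dot {D : ℕ} (v : V D) (hv : ∀ i, (2 : ℤ) ∣ v i) (θ : Fin D → ℝ) :
    1 - Real.cos (dot θ v) ≤ (D * ∑ i, (v i : ℝ) ^ 2) * osc θ := by
  choose a ha using hv
  have h1 : dot θ v = 2 * ∑ c, ((a c : ℤ) : ℝ) * θ c := by
    unfold dot
    rw [Finset.mul_sum]
    refine Finset.sum_congr rfl fun c _ => ?_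
    rw [ha c]
    push_cast
    ring
  have h2 : 1 - Real.cos (dot θ v) = 2 * Real.sin (∑ c, ((a c : ℤ) : ℝ) * θ c) ^ 2 := by
    rw [h1, Real.cos_two_mul, ← Real.sin_sq_add_cos_sq (∑ c, ((a c : ℤ) : ℝ) * θ c)]
    ring
  have h3 : Real.sin (∑ c, ((a c : ℤ) : ℝ) * θ c) ^ 2 ≤ D * ∑ c, Real.sin ((a c : ℝ) * θ c) ^ 2 := by
    have h4 : Real.sin (∑ c, ((a c : ℤ) : ℝ) * θ c) ^ 2 ≤ (∑ c, |Real.sin ((a c : ℝ) * θ c)|) ^ 2 := by
      rw [← sq_abs (Real.sin _)]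
      exact pow_le_pow_left₀ (abs_nonneg _) (FR10_sin_sum _ _) 2
    have h5 := sq_sum_le_card_mul_sum_sq (s := (Finset.univ : Finset (Fin D))) (f := fun c => |Real.sin ((a c : ℝ) * θ c)|)
    rw [Finset.card_univ, Fintype.card_fin] at h5
    simp only [sq_abs] at h5
    exact h4.trans h5
  have h6 : ∀ c, Real.sin ((a c : ℝ) * θ c) ^ 2 ≤ (v c : ℝ) ^ 2 / 2 * (1 - |Real.cos (θ c)|) := by
    intro c
    have h7 := FR10_sin_int (a c) (θ c)
    have h8 := FR10_sin_cos (θ c)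
    have h9 : (v c : ℝ) ^ 2 = 4 * (a c : ℝ) ^ 2 := by
      rw [ha c]
      push_cast
      ring
    rw [h9]
    have h10 := mul_le_mul_of_nonneg_left h8 (sq_nonneg (a c : ℝ))
    linarith
  have h7 : ∑ c, Real.sin ((a c : ℝ) * θ c) ^ 2 ≤ (∑ c, (v c : ℝ) ^ 2) / 2 * osc θ := by
    calc ∑ c, Real.sin ((a c : ℝ) * θ c) ^ 2 ≤ ∑ c, (v c : ℝ) ^ 2 / 2 * (1 - |Real.cos (θ c)|) :=
          Finset.sum_le_sum fun c _ => h6 c
      _ ≤ ∑ c, (v c : ℝ) ^ 2 / 2 * osc θ := by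
          refine Finset.sum_le_sum fun c _ => mul_le_mul_of_nonneg_left ?_ (by positivity)
          exact Finset.single_le_sum (f := fun c => 1 - |Real.cos (θ c)|)
            (fun c _ => sub_nonneg.2 (Real.abs_cos_le_one _)) (Finset.mem_univ c)
      _ = (∑ c, (v c : ℝ) ^ 2) / 2 * osc θ := by
          rw [← Finset.sum_mul, Finset.sum_div]
  rw [h2]
  have h8 := mul_le_mul_of_nonneg_left h7 (Nat.cast_nonneg D : (0 : ℝ) ≤ D)
  calc 2 * Real.sin (∑ c, ((a c : ℤ) : ℝ) * θ c) ^ 2 ≤ 2 * (D * ((∑ c, (v c : ℝ) ^ 2) / 2 * osc θ)) := by linarith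
    _ = (D * ∑ i, (v i : ℝ) ^ 2) * osc θ := by ring

theorem int_diff (k D : ℕ) (hk : 1 ≤ k) (hD : k ≤ D) (v : V D) (hv : ∀ i, (2 : ℤ) ∣ v i) :
    ∃ C : ℝ, 0 < C ∧ ∀ N : ℕ, 1 ≤ N → Even N → ∀ l : ℕ, Even l →
      ∫ θ, Phi k D θ ^ N * cD D θ ^ l * (1 - Real.cos (dot θ v)) ∂(tor D) ≤ C / N * ph D N := by
  have hD1 : 1 ≤ D := hk.trans hD
  have hD0 : (0 : ℝ) < D := by exact_mod_cast hD1
  obtain ⟨Cv, hCv⟩ : ∃ Cv : ℝ, Cv = D * ∑ i, (v i : ℝ) ^ 2 + 1 := ⟨_, rfl⟩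
  have hsum0 : 0 ≤ (D : ℝ) * ∑ i, (v i : ℝ) ^ 2 := mul_nonneg hD0.le (Finset.sum_nonneg fun i _ => sq_nonneg _)
  have hCv0 : 0 < Cv := by rw [hCv]; linarith
  refine ⟨Cv * (2 * D) * (4 * Real.sqrt D) ^ D, by positivity, ?_⟩
  intro N hN hNe l hle
  have hN' : (1 : ℝ) ≤ N := by exact_mod_cast hN
  have hN0 : (0 : ℝ) < N := by linarith
  have hlam : (0 : ℝ) < N / (2 * D) := by positivity
  have hosc : ∀ θ : Fin D → ℝ, 0 ≤ osc θ := fun θ => osc_nonneg θ
  have hg : Integrable (fun θ : Fin D → ℝ => Cv * (2 * D / N) * Real.exp (-(N / (2 * D) * osc θ))) (tor D) := by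
    refine Integrable.const_mul ?_ _
    refine Integrable.of_bound (Real.continuous_exp.comp (continuous_const.mul (continuous_osc D)).neg).aestronglyMeasurable 1
      (Filter.Eventually.of_forall fun θ => ?_)
    show ‖Real.exp (-(N / (2 * D) * osc θ))‖ ≤ 1
    rw [Real.norm_eq_abs, abs_of_pos (Real.exp_pos _), Real.exp_le_one_iff]
    exact neg_nonpos.2 (mul_nonneg hlam.le (hosc θ))
  have hf0 : ∀ θ : Fin D → ℝ, 0 ≤ Phi k D θ ^ N * cD D θ ^ l * (1 - Real.cos (dot θ v)) := fun θ =>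
    mul_nonneg (mul_nonneg (hNe.pow_nonneg _) (hle.pow_nonneg _)) (sub_nonneg.2 (Real.cos_le_one _))
  have hfg : ∀ θ : Fin D → ℝ, Phi k D θ ^ N * cD D θ ^ l * (1 - Real.cos (dot θ v)) ≤
      Cv * (2 * D / N) * Real.exp (-(N / (2 * D) * osc θ)) := by
    intro θ
    have h1 : Phi k D θ ^ N ≤ Real.exp (-(N * (osc θ / D))) := by
      calc Phi k D θ ^ N ≤ |Phi k D θ ^ N| := le_abs_self _
        _ = |Phi k D θ| ^ N := abs_pow _ _
        _ ≤ Real.exp (-(osc θ / D)) ^ N := pow_le_pow_left₀ (abs_nonneg _) (abs_Phi_le k D hk hD θ) N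
        _ = Real.exp (-(N * (osc θ / D))) := by
            rw [← Real.exp_nat_mul]
            refine congrArg Real.exp ?_
            ring
    have h2 : cD D θ ^ l ≤ 1 := by
      calc cD D θ ^ l ≤ |cD D θ ^ l| := le_abs_self _
        _ = |cD D θ| ^ l := abs_pow _ _
        _ ≤ 1 := pow_le_one₀ (abs_nonneg _) (abs_cD_le_one D hD1 θ)
    have h3 : 1 - Real.cos (dot θ v) ≤ Cv * osc θ := by
      refine (FR10_dot v hv θ).trans ?_
      exact mul_le_mul_of_nonneg_right (by rw [hCv]; linarith) (hosc θ)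
    have h4 : Phi k D θ ^ N * cD D θ ^ l ≤ Real.exp (-(N * (osc θ / D))) * 1 :=
      mul_le_mul h1 h2 (hle.pow_nonneg _) (Real.exp_pos _).le
    obtain ⟨y, hy⟩ : ∃ y : ℝ, y = N / D * osc θ := ⟨_, rfl⟩
    have hy1 : (N : ℝ) * (osc θ / D) = y := by rw [hy]; ring
    have hy2 : (N : ℝ) / (2 * D) * osc θ = y / 2 := by
      rw [hy]
      field_simp
    have hy3 : osc θ = D / N * y := by
      rw [hy]
      field_simp
    rw [hy1, mul_one] at h4
    have h5 : y * Real.exp (-y) ≤ 2 * Real.exp (-(y / 2)) := by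
      have h6 := Real.add_one_le_exp (y / 2)
      have h7 : y ≤ 2 * Real.exp (y / 2) := by linarith
      have h8 : Real.exp (y / 2) * Real.exp (-y) = Real.exp (-(y / 2)) := by
        rw [← Real.exp_add]
        refine congrArg Real.exp ?_
        ring
      have h9 := mul_le_mul_of_nonneg_right h7 (Real.exp_pos (-y)).le
      rw [mul_assoc, h8] at h9
      exact h9
    calc Phi k D θ ^ N * cD D θ ^ l * (1 - Real.cos (dot θ v))
        ≤ Real.exp (-y) * (Cv * osc θ) :=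
          mul_le_mul h4 h3 (sub_nonneg.2 (Real.cos_le_one _)) (Real.exp_pos _).le
      _ = Cv * (D / N) * (y * Real.exp (-y)) := by
          rw [hy3]
          ring
      _ ≤ Cv * (D / N) * (2 * Real.exp (-(y / 2))) := mul_le_mul_of_nonneg_left h5 (by positivity)
      _ = Cv * (2 * D / N) * Real.exp (-(N / (2 * D) * osc θ)) := by
          rw [hy2]
          ring
  have hmain : ∫ θ, Phi k D θ ^ N * cD D θ ^ l * (1 - Real.cos (dot θ v)) ∂(tor D) ≤
      ∫ θ, Cv * (2 * D / N) * Real.exp (-(N / (2 * D) * osc θ)) ∂(tor D) :=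
    integral_mono_of_nonneg (Filter.Eventually.of_forall hf0) hg (Filter.Eventually.of_forall hfg)
  rw [integral_const_mul] at hmain
  have h10 := int_tor_exp D (N / (2 * D)) hlam
  have h11 : (2 / Real.sqrt (N / (2 * D))) ^ D ≤ (4 * Real.sqrt D) ^ D * ph D N := by
    unfold ph
    rw [← mul_pow]
    refine pow_le_pow_left₀ (by positivity) ?_ D
    have h12 : Real.sqrt ((N : ℝ) + 1) ≤ Real.sqrt 2 * Real.sqrt N := by
      rw [← Real.sqrt_mul (by norm_num)]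
      exact Real.sqrt_le_sqrt (by linarith)
    have hsN1 : 0 < Real.sqrt ((N : ℝ) + 1) := Real.sqrt_pos.2 (by linarith)
    have hsN : 0 < Real.sqrt N := Real.sqrt_pos.2 hN0
    have hsD : 0 < Real.sqrt D := Real.sqrt_pos.2 hD0
    have hs2 : Real.sqrt 2 * Real.sqrt 2 = 2 := Real.mul_self_sqrt (by norm_num)
    have hs20 : 0 < Real.sqrt 2 := Real.sqrt_pos.2 (by norm_num)
    have h13 : Real.sqrt (N / (2 * D)) = Real.sqrt N / (Real.sqrt 2 * Real.sqrt D) := by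
      rw [Real.sqrt_div hN0.le, Real.sqrt_mul (by norm_num)]
    rw [h13, ← div_eq_mul_inv, div_div_eq_mul_div, div_le_div_iff₀ hsN hsN1]
    calc 2 * (Real.sqrt 2 * Real.sqrt D) * Real.sqrt ((N : ℝ) + 1) ≤
          2 * (Real.sqrt 2 * Real.sqrt D) * (Real.sqrt 2 * Real.sqrt N) :=
          mul_le_mul_of_nonneg_left h12 (by positivity)
      _ = 2 * (Real.sqrt 2 * Real.sqrt 2) * Real.sqrt D * Real.sqrt N := by ring
      _ = 4 * Real.sqrt D * Real.sqrt N := by rw [hs2]; ring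
  refine hmain.trans ?_
  have h14 : Cv * (2 * D / N) * ∫ θ, Real.exp (-(N / (2 * D) * osc θ)) ∂(tor D) ≤
      Cv * (2 * D / N) * ((4 * Real.sqrt D) ^ D * ph D N) :=
    mul_le_mul_of_nonneg_left (h10.trans h11) (by positivity)
  refine h14.trans (le_of_eq ?_)
  ring

end FDr
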