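import Pool.Agent.Lib.MP_e029a2_pr.FR6

/-!
# Job FR9: the lower bound at offset zero

`N` and `l` are even, so the integrand `Phi^N cD^l` is `≥ 0`.  Let `ε = 1/√(k + A + 1)` and
`t = ε/√N ≤ 1`.  On the box `{θ | ∀ c, |θ_c| ≤ t}`: `Phi^N ≥ (1 - t²/2)^(kN) ≥ 1 - k N t²/2 = 1 - k ε²/2 ≥ 1/2`
(Bernoulli, `one_add_mul_le_pow`; `Phi_ge`) and `cD^l ≥ (1 - t²/2)^l ≥ 1 - l t²/2 ≥ 1 - A ε²/2 ≥ 1/2` (`cD_ge`,
`l ≤ A N`).  The measure of the box is `(2t/(2π))^D = (ε/π)^D (1/√N)^D` (`Measure.pi_pi`; the box is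
`Set.pi univ (fun _ => Set.Icc (-t) t)`, and `circ (Icc (-t) t) = t/π` for `0 < t < π`), and
`1/√N ≥ 1/√(N+1)`.  So `c = (1/4) (ε/π)^D`.  (The integrand is continuous and bounded by `1`, hence
integrable; `setIntegral_le_integral`-type argument, or compare with the indicator function of the box.)
-/

set_option autoImplicit false

namespace FDr

open MeasureTheory
open scoped ENNReal

private theorem FR9_circ {t : ℝ} (ht0 : 0 < t) (ht1 : t ≤ 1) :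
    circ (Set.Icc (-t) t) = ENNReal.ofReal (t / Real.pi) := by
  have hpi := Real.pi_gt_three
  have hsub : Set.Icc (-t) t ⊆ Set.Ioc (-Real.pi) Real.pi := fun x hx => ⟨by linarith [hx.1], by linarith [hx.2]⟩
  unfold circ
  rw [Measure.smul_apply, smul_eq_mul, Measure.restrict_apply measurableSet_Icc,
    Set.inter_eq_left.2 hsub, Real.volume_Icc,
    ← ENNReal.ofReal_inv_of_pos (by linarith), ← ENNReal.ofReal_mul (by positivity)]
  refine congrArg ENNReal.ofReal ?_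
  field_simp
  ring

private theorem FR9_box {D : ℕ} {t : ℝ} (ht0 : 0 < t) (ht1 : t ≤ 1) :
    (tor D).real (Set.pi Set.univ fun _ : Fin D => Set.Icc (-t) t) = (t / Real.pi) ^ D := by
  unfold tor
  rw [Measure.real, Measure.pi_pi, Finset.prod_congr rfl fun _ _ => FR9_circ ht0 ht1, Finset.prod_const,
    Finset.card_univ, Fintype.card_fin, ENNReal.toReal_pow,
    ENNReal.toReal_ofReal (div_nonneg ht0.le Real.pi_pos.le)]

theorem int_lower (k D A : ℕ) (hk : 1 ≤ k) (hD : k ≤ D) : ∃ c : ℝ, 0 < c ∧ ∀ N : ℕ, 1 ≤ N → Even N →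
    ∀ l : ℕ, l ≤ A * N → Even l → c * ph D N ≤ ∫ θ, Phi k D θ ^ N * cD D θ ^ l ∂(tor D) := by
  have hs : (0 : ℝ) < (k : ℝ) + A + 1 := by positivity
  obtain ⟨ε, hε⟩ : ∃ ε : ℝ, ε = (Real.sqrt ((k : ℝ) + A + 1))⁻¹ := ⟨_, rfl⟩
  have hε0 : 0 < ε := by rw [hε]; exact inv_pos.2 (Real.sqrt_pos.2 hs)
  have hε2 : ε ^ 2 * ((k : ℝ) + A + 1) = 1 := by
    rw [hε, inv_pow, Real.sq_sqrt hs.le, inv_mul_cancel₀ hs.ne']
  have hk0 : (0 : ℝ) ≤ k := Nat.cast_nonneg k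
  have hA0 : (0 : ℝ) ≤ A := Nat.cast_nonneg A
  have hε1 : ε ^ 2 ≤ 1 := by nlinarith [sq_nonneg ε, mul_nonneg (sq_nonneg ε) hk0, mul_nonneg (sq_nonneg ε) hA0]
  refine ⟨1 / 4 * (ε / Real.pi) ^ D, by positivity, ?_⟩
  intro N hN hNe l hl hle
  have hN' : (1 : ℝ) ≤ N := by exact_mod_cast hN
  have hN0 : (0 : ℝ) < N := by linarith
  have hsN : 0 < Real.sqrt N := Real.sqrt_pos.2 hN0
  have hsN2 : Real.sqrt N ^ 2 = N := Real.sq_sqrt hN0.le
  obtain ⟨t, ht⟩ : ∃ t : ℝ, t = ε / Real.sqrt N := ⟨_, rfl⟩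
  have ht0 : 0 < t := by rw [ht]; exact div_pos hε0 hsN
  have ht2 : t ^ 2 * N = ε ^ 2 := by
    rw [ht, div_pow, hsN2, div_mul_cancel₀ _ hN0.ne']
  have ht1' : t ^ 2 ≤ 1 := by nlinarith [sq_nonneg t]
  have ht1 : t ≤ 1 := by nlinarith
  have hl' : (l : ℝ) ≤ A * N := by exact_mod_cast hl
  obtain ⟨B, hB⟩ : ∃ B : Set (Fin D → ℝ), B = Set.pi Set.univ fun _ : Fin D => Set.Icc (-t) t := ⟨_, rfl⟩
  have hBm : MeasurableSet B := by
    rw [hB]
    exact MeasurableSet.univ_pi fun _ => measurableSet_Icc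
  have hcont : Continuous fun θ : Fin D → ℝ => Phi k D θ ^ N * cD D θ ^ l :=
    ((continuous_Phi k D).pow N).mul ((continuous_cD D).pow l)
  have hint : Integrable (fun θ : Fin D → ℝ => Phi k D θ ^ N * cD D θ ^ l) (tor D) := by
    refine Integrable.of_bound hcont.aestronglyMeasurable 1 (Filter.Eventually.of_forall fun θ => ?_)
    rw [Real.norm_eq_abs, abs_mul, abs_pow, abs_pow]
    exact mul_le_one₀ (pow_le_one₀ (abs_nonneg _) (abs_Phi_le_one k D hk hD θ)) (pow_nonneg (abs_nonneg _) _)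
      (pow_le_one₀ (abs_nonneg _) (abs_cD_le_one D (hk.trans hD) θ))
  have hpt : ∀ θ : Fin D → ℝ, B.indicator (fun _ => (1 / 4 : ℝ)) θ ≤ Phi k D θ ^ N * cD D θ ^ l := by
    intro θ
    by_cases hθ : θ ∈ B
    · rw [Set.indicator_of_mem hθ]
      have hθc : ∀ c, |θ c| ≤ t := by
        intro c
        rw [hB] at hθ
        have h1 := hθ c (Set.mem_univ c)
        exact abs_le.2 h1
      have h0 : (0 : ℝ) ≤ 1 - t ^ 2 / 2 := by linarith
      have h1 : (1 : ℝ) / 2 ≤ Phi k D θ ^ N := by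
        calc (1 : ℝ) / 2 ≤ 1 + ((k * N : ℕ) : ℝ) * (-(t ^ 2 / 2)) := by
              push_cast
              have : (k : ℝ) * N * (t ^ 2 / 2) = k * ε ^ 2 / 2 := by rw [← ht2]; ring
              nlinarith [mul_nonneg (sq_nonneg ε) hA0, sq_nonneg ε]
          _ ≤ (1 + -(t ^ 2 / 2)) ^ (k * N) := one_add_mul_le_pow (by linarith) _
          _ = ((1 - t ^ 2 / 2) ^ k) ^ N := by rw [pow_mul, sub_eq_add_neg]
          _ ≤ Phi k D θ ^ N := pow_le_pow_left₀ (pow_nonneg h0 _) (Phi_ge k D hD θ t ht0.le ht1 hθc) N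
      have h2 : (1 : ℝ) / 2 ≤ cD D θ ^ l := by
        calc (1 : ℝ) / 2 ≤ 1 + (l : ℝ) * (-(t ^ 2 / 2)) := by
              have h3 : (l : ℝ) * (t ^ 2 / 2) ≤ A * N * (t ^ 2 / 2) :=
                mul_le_mul_of_nonneg_right hl' (by positivity)
              have h4 : (A : ℝ) * N * (t ^ 2 / 2) = A * ε ^ 2 / 2 := by rw [← ht2]; ring
              nlinarith [mul_nonneg (sq_nonneg ε) hk0, sq_nonneg ε]
          _ ≤ (1 + -(t ^ 2 / 2)) ^ l := one_add_mul_le_pow (by linarith) _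
          _ = (1 - t ^ 2 / 2) ^ l := by rw [sub_eq_add_neg]
          _ ≤ cD D θ ^ l := pow_le_pow_left₀ h0 (cD_ge D (hk.trans hD) θ t ht0.le ht1 hθc) l
      calc (1 / 4 : ℝ) = 1 / 2 * (1 / 2) := by norm_num
        _ ≤ Phi k D θ ^ N * cD D θ ^ l := mul_le_mul h1 h2 (by norm_num) (by linarith)
    · rw [Set.indicator_of_notMem hθ]
      exact mul_nonneg (hNe.pow_nonneg _) (hle.pow_nonneg _)
  have h1 : ∫ θ, B.indicator (fun _ => (1 / 4 : ℝ)) θ ∂(tor D) ≤ ∫ θ, Phi k D θ ^ N * cD D θ ^ l ∂(tor D) :=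
    integral_mono ((integrable_const _).indicator hBm) hint hpt
  rw [integral_indicator_const _ hBm, hB, FR9_box ht0 ht1, smul_eq_mul] at h1
  refine le_trans ?_ h1
  unfold ph
  have h2 : (Real.sqrt ((N : ℝ) + 1))⁻¹ ^ D ≤ (Real.sqrt N)⁻¹ ^ D := by
    refine pow_le_pow_left₀ (inv_nonneg.2 (Real.sqrt_nonneg _)) ?_ D
    exact inv_anti₀ hsN (Real.sqrt_le_sqrt (by linarith))
  have h3 : (t / Real.pi) ^ D = (ε / Real.pi) ^ D * (Real.sqrt N)⁻¹ ^ D := by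
    rw [← mul_pow, ht]
    refine congrArg (fun z => z ^ D) ?_
    rw [div_eq_mul_inv ε, mul_div_right_comm]
  rw [h3]
  have h4 : 0 ≤ (ε / Real.pi) ^ D := by positivity
  nlinarith [mul_le_mul_of_nonneg_left h2 h4]

end FDr
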