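import Pool.Agent.Lib.MP_e029a2_pr.FR5
import Pool.Agent.Lib.MP_e029a2_pr.FR9
import Pool.Agent.Lib.MP_e029a2_pr.FR10

/-!
# Job FR11: the local lower bound at even offsets

By `PwQd_ind` with `w = 0` the right side is `∫ Phi^N cD^l cos (dot θ v) = ∫ Phi^N cD^l - ∫ Phi^N cD^l (1 - cos)`
`≥ c ph - (C/N) ph ≥ (c/2) ph` for `N ≥ 2C/c` (`int_lower`, `int_diff`).
-/

set_option autoImplicit false
set_option linter.unusedSectionVars false

namespace FDr

open MeasureTheory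
open scoped ENNReal

private theorem FR11_bd (k D : ℕ) (hk : 1 ≤ k) (hD : k ≤ D) (N l : ℕ) (θ : Fin D → ℝ) :
    |Phi k D θ ^ N * cD D θ ^ l| ≤ 1 := by
  rw [abs_mul, abs_pow, abs_pow]
  exact mul_le_one₀ (pow_le_one₀ (abs_nonneg _) (abs_Phi_le_one k D hk hD θ)) (pow_nonneg (abs_nonneg _) _)
    (pow_le_one₀ (abs_nonneg _) (abs_cD_le_one D (hk.trans hD) θ))

private theorem FR11_cont (D : ℕ) (v : V D) : Continuous fun θ : Fin D → ℝ => Real.cos (dot θ v) := by
  unfold dot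
  exact Real.continuous_cos.comp (continuous_finsetSum _ fun c _ => (continuous_apply c).mul continuous_const)

private theorem FR11_int (k D : ℕ) (hk : 1 ≤ k) (hD : k ≤ D) (N l : ℕ) :
    Integrable (fun θ => Phi k D θ ^ N * cD D θ ^ l) (tor D) := by
  have hc : Continuous fun θ : Fin D → ℝ => Phi k D θ ^ N * cD D θ ^ l :=
    ((continuous_Phi k D).pow N).mul ((continuous_cD D).pow l)
  refine Integrable.of_bound hc.aestronglyMeasurable 1 (Filter.Eventually.of_forall fun θ => ?_)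
  rw [Real.norm_eq_abs]
  exact FR11_bd k D hk hD N l θ

private theorem FR11_int2 (k D : ℕ) (hk : 1 ≤ k) (hD : k ≤ D) (N l : ℕ) (v : V D) :
    Integrable (fun θ => Phi k D θ ^ N * cD D θ ^ l * (1 - Real.cos (dot θ v))) (tor D) := by
  have hc : Continuous fun θ : Fin D → ℝ => Phi k D θ ^ N * cD D θ ^ l * (1 - Real.cos (dot θ v)) :=
    (((continuous_Phi k D).pow N).mul ((continuous_cD D).pow l)).mul (continuous_const.sub (FR11_cont D v))
  refine Integrable.of_bound hc.aestronglyMeasurable 2 (Filter.Eventually.of_forall fun θ => ?_)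
  rw [Real.norm_eq_abs, abs_mul]
  have h1 := FR11_bd k D hk hD N l θ
  have h2 : |1 - Real.cos (dot θ v)| ≤ 2 := by
    rw [abs_le]
    constructor <;> linarith [Real.cos_le_one (dot θ v), Real.neg_one_le_cos (dot θ v)]
  calc |Phi k D θ ^ N * cD D θ ^ l| * |1 - Real.cos (dot θ v)| ≤ 1 * 2 :=
        mul_le_mul h1 h2 (abs_nonneg _) zero_le_one
    _ = 2 := by norm_num

theorem PwQd_lower (k D A : ℕ) (hk : 1 ≤ k) (hD : k ≤ D) : ∃ c : ℝ, 0 < c ∧ ∀ v : V D,
    (∀ i, (2 : ℤ) ∣ v i) → ∃ N0 : ℕ, ∀ N : ℕ, N0 ≤ N → Even N → ∀ l : ℕ, l ≤ A * N → Even l →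
      c * ph D N ≤ (Pw k D)^[N] ((Qd D)^[l] (ind 0)) v := by
  obtain ⟨c, hc, hlow⟩ := int_lower k D A hk hD
  refine ⟨c / 2, by positivity, fun v hv => ?_⟩
  obtain ⟨C, hC, hdiff⟩ := int_diff k D hk hD v hv
  refine ⟨max 1 ⌈2 * C / c⌉₊, fun N hN hNe l hl hle => ?_⟩
  have hN1 : 1 ≤ N := (le_max_left _ _).trans hN
  have hN2 : 2 * C / c ≤ N := (Nat.le_ceil _).trans (by exact_mod_cast (le_max_right _ _).trans hN)
  have hNpos : (0 : ℝ) < N := by exact_mod_cast hN1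
  have h1 := hlow N hN1 hNe l hl hle
  have h2 := hdiff N hN1 hNe l hle
  have hph : 0 ≤ ph D N := by
    unfold ph
    positivity
  have h3 : C / N ≤ c / 2 := by
    rw [div_le_iff₀ hc] at hN2
    rw [div_le_iff₀ hNpos]
    linarith
  have h4 : C / N * ph D N ≤ c / 2 * ph D N := mul_le_mul_of_nonneg_right h3 hph
  have h5 : (Pw k D)^[N] ((Qd D)^[l] (ind 0)) v = (∫ θ, Phi k D θ ^ N * cD D θ ^ l ∂(tor D)) -
      ∫ θ, Phi k D θ ^ N * cD D θ ^ l * (1 - Real.cos (dot θ v)) ∂(tor D) := by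
    rw [PwQd_ind k D hk hD, sub_zero, ← integral_sub (FR11_int k D hk hD N l) (FR11_int2 k D hk hD N l v)]
    refine integral_congr_ae (Filter.Eventually.of_forall fun θ => ?_)
    show Phi k D θ ^ N * cD D θ ^ l * Real.cos (dot θ v) =
      Phi k D θ ^ N * cD D θ ^ l - Phi k D θ ^ N * cD D θ ^ l * (1 - Real.cos (dot θ v))
    ring
  rw [h5]
  linarith

end FDr
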