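import Pool.Agent.Lib.MP_e029a2_pr.G4

/-!
# Job G5: even numbers of cells

`hz (j+1) m ≥ dispP 0 * hz j m` (`hz_succ_ge` with `k = 0`).  So the sum over the even `j < A m + 1` is at least
`max` of (the sum over the even `j < A m`) and (`dispP 0` times the sum over the odd `j < A m`), hence at least
`(dispP 0 / 2)` times the sum over all `j < A m` (`dispP 0 ≤ 1`).  Take `A' = A + 1`.
-/

set_option autoImplicit false

namespace FDr

open MeasureTheory
open scoped ENNReal

theorem hz_lower_even (w α : Set.Ioo (0 : ℝ) 1) : ∃ (A : ℕ) (c : ℝ), 0 < c ∧ ∀ m : ℕ, 1 ≤ m →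
    ENNReal.ofReal c ≤ ∑ j ∈ (Finset.range (A * m)).filter Even, hz w α j m := by
  obtain ⟨A, c, hc, h⟩ := hz_lower w α
  have hp0 := dispP_pos w α 0
  have hp1 : dispP w α 0 ≤ 1 := by
    rw [← dispP_sum w α]
    exact ENNReal.le_tsum 0
  have hpt : dispP w α 0 ≠ ∞ := ne_top_of_le_ne_top ENNReal.one_ne_top hp1
  have hpr : 0 < (dispP w α 0).toReal := ENNReal.toReal_pos hp0.ne' hpt
  refine ⟨A + 1, (dispP w α 0).toReal * c / 2, by positivity, fun m hm => ?_⟩
  have h1 := h m hm
  rw [← Finset.sum_filter_add_sum_filter_not (Finset.range (A * m)) Even] at h1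
  have hle : A * m + 1 ≤ (A + 1) * m := by
    rw [add_mul, one_mul]
    omega
  have hE : ∑ j ∈ (Finset.range (A * m)).filter Even, hz w α j m ≤
      ∑ j ∈ (Finset.range ((A + 1) * m)).filter Even, hz w α j m := by
    refine Finset.sum_le_sum_of_subset ?_
    intro j hj
    rw [Finset.mem_filter, Finset.mem_range] at hj ⊢
    exact ⟨by omega, hj.2⟩
  have hO : dispP w α 0 * ∑ j ∈ (Finset.range (A * m)).filter (fun j => ¬ Even j), hz w α j m ≤
      ∑ j ∈ (Finset.range ((A + 1) * m)).filter Even, hz w α j m := by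
    rw [Finset.mul_sum]
    have e1 : ∀ j ∈ (Finset.range (A * m)).filter (fun j => ¬ Even j),
        dispP w α 0 * hz w α j m ≤ hz w α (j + 1) m := by
      intro j _
      have h2 := hz_succ_ge w α j m 0
      rw [add_zero] at h2
      exact h2
    refine le_trans (Finset.sum_le_sum e1) ?_
    have e2 : ∑ j ∈ (Finset.range (A * m)).filter (fun j => ¬ Even j), hz w α (j + 1) m =
        ∑ j ∈ ((Finset.range (A * m)).filter (fun j => ¬ Even j)).map ⟨fun j => j + 1, add_left_injective 1⟩,
          hz w α j m := by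
      rw [Finset.sum_map]
      rfl
    rw [e2]
    refine Finset.sum_le_sum_of_subset ?_
    intro j hj
    obtain ⟨i, hi, rfl⟩ := Finset.mem_map.1 hj
    rw [Finset.mem_filter, Finset.mem_range] at hi
    rw [Finset.mem_filter, Finset.mem_range]
    show i + 1 < _ ∧ Even (i + 1)
    exact ⟨by omega, Nat.even_add_one.2 hi.2⟩
  generalize ∑ j ∈ (Finset.range ((A + 1) * m)).filter Even, hz w α j m = E' at hE hO ⊢
  generalize ∑ j ∈ (Finset.range (A * m)).filter Even, hz w α j m = E at hE h1
  generalize ∑ j ∈ (Finset.range (A * m)).filter (fun j => ¬ Even j), hz w α j m = O at hO h1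
  have h3 : dispP w α 0 * ENNReal.ofReal c ≤ E' + E' := by
    calc dispP w α 0 * ENNReal.ofReal c ≤ dispP w α 0 * (E + O) := mul_le_mul' le_rfl h1
      _ = dispP w α 0 * E + dispP w α 0 * O := mul_add _ _ _
      _ ≤ 1 * E' + E' := add_le_add (mul_le_mul' hp1 hE) hO
      _ = E' + E' := by rw [one_mul]
  have h4 : ENNReal.ofReal ((dispP w α 0).toReal * c / 2) + ENNReal.ofReal ((dispP w α 0).toReal * c / 2) =
      dispP w α 0 * ENNReal.ofReal c := by
    rw [← ENNReal.ofReal_add (by positivity) (by positivity), add_halves, ENNReal.ofReal_mul hpr.le,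
      ENNReal.ofReal_toReal hpt]
  rw [← h4] at h3
  by_contra hcon
  have h5 := not_le.1 hcon
  have h6 : E' ≠ ∞ := (lt_of_lt_of_le h5 le_top).ne
  exact absurd h3 (not_le.2 (ENNReal.add_lt_add h5 h5))

end FDr
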