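import Pool.Agent.Lib.MP_e029a2_pr.FM1
import Pool.Agent.Lib.MP_e029a2_pr.G5
import Pool.Agent.Lib.MP_e029a2_pr.FR11
import Pool.Agent.Lib.MP_e029a2_pr.CV2

/-!
# Job FM2: the first moment without avoidance

`PP D n` is additive and commutes with translations.  Let `A, c1` be from `hz_lower_even`, and
`c2` from `PwQd_lower n D (2 A H)`-like (see below).  Let `v` be given, `S = {i | v i odd}`, `o = ∑_{c∈S} Pi.single c 1`,
`v' = v - o` (all coordinates even; only `evn` is NOT needed for this).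
For `u = v + y`: `Gam m (-u)`: use `Gam_shift` in the form for `-(v+y)`: choose the set `S` and the offset `-o`:
`srw` is symmetric (`srw D j (-x) = srw D j x`: from `srw_eq` and `PwQd_ind`-free symmetry, or by induction), so
`Gam h (-x) = Gam h x` and `Gam m (-(v+y)) = Gam m (v+y) ≥ κ Gam m (v' + y)` with `κ = (dispP 0 (2D)⁻¹)^D`.
So `(PP)^[N] (u ↦ Gam m (-u)) v ≥ κ (PP)^[N] (Gam m) v'` (translation; `PP` is monotone).
`Gam m x ≥ ∑_{j even, j < A m} hz j m * srw D j x`, `srw D j = ofReal ∘ (Qd D)^[j] (ind 0)` (`srw_eq`), and by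
`PP_iter` and `PwQd_lower`: `(PP)^[N] (srw D j) v' = q^N ofReal ((Pw n D)^[N] ((Qd D)^[j] (ind 0)) v') ≥ q^N ofReal (c2 ph D N)`
for `N` even, `N ≥ N0(v')`, `j ≤ (2 A H) N` even.  Here `m = N H - h` (natural for `N ≥ N1(h)`), `1 ≤ m ≤ 2 N H` for large `N`,
so `j < A m ≤ 2 A H N`.  Summing: `≥ κ q^N ofReal (c2 ph D N) * ofReal c1` (`hz_lower_even`).
-/

set_option autoImplicit false

namespace FDr

open MeasureTheory
open scoped ENNReal

theorem FM2_dv_flip {D : ℕ} (d : Dir D) : dv (d.1, !d.2) = -dv d := by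
  obtain ⟨c, b⟩ := d
  unfold dv
  rw [← Pi.single_neg]
  congr 1
  cases b <;> simp [sg]

theorem FM2_srw_neg (D j : ℕ) : ∀ x : V D, srw D j (-x) = srw D j x := by
  induction j with
  | zero =>
    intro x
    simp only [srw, neg_eq_zero]
  | succ j ih =>
    intro x
    simp only [srw]
    refine Fintype.sum_equiv (Equiv.prodCongr (Equiv.refl (Fin D)) Equiv.boolNot) _ _ ?_
    rintro d
    have h1 : dv ((Equiv.prodCongr (Equiv.refl (Fin D)) Equiv.boolNot) d) = -dv d := FM2_dv_flip d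
    rw [h1, ← ih (x - -dv d)]
    congr 2
    abel

theorem FM2_Gam_neg (w α : Set.Ioo (0 : ℝ) 1) (D : ℕ) (h : ℤ) (x : V D) :
    Gam w α D h (-x) = Gam w α D h x := by
  unfold Gam
  refine tsum_congr fun j => ?_
  rw [FM2_srw_neg]

theorem FM2_PP_mono {D n : ℕ} {F G : V D → ℝ≥0∞} (κ : ℝ≥0∞) (o : V D) (h : ∀ u, κ * G (u - o) ≤ F u)
    (N : ℕ) : ∀ v, κ * (PP D n)^[N] G (v - o) ≤ (PP D n)^[N] F v := by
  induction N with
  | zero => exact h
  | succ N ih =>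
    intro v
    rw [Function.iterate_succ_apply', Function.iterate_succ_apply']
    unfold PP
    rw [Finset.mul_sum]
    refine Finset.sum_le_sum fun l _ => ?_
    have h1 := ih (v + sumv l)
    have h2 : v - o + sumv l = v + sumv l - o := by abel
    rw [h2]
    calc κ * (dw D n * (PP D n)^[N] G (v + sumv l - o))
        = dw D n * (κ * (PP D n)^[N] G (v + sumv l - o)) := by ring
      _ ≤ dw D n * (PP D n)^[N] F (v + sumv l) := mul_le_mul_right h1 _

theorem FM2_PP_sum {D n : ℕ} {ι : Type*} (s : Finset ι) (a : ι → ℝ≥0∞) (f : ι → V D → ℝ≥0∞) (N : ℕ) :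
    ∀ v, (PP D n)^[N] (fun u => ∑ j ∈ s, a j * f j u) v = ∑ j ∈ s, a j * (PP D n)^[N] (f j) v := by
  induction N with
  | zero =>
    intro v
    rfl
  | succ N ih =>
    intro v
    simp only [Function.iterate_succ_apply']
    unfold PP
    have h1 : ∀ l : List (Dir D), dw D n * (PP D n)^[N] (fun u => ∑ j ∈ s, a j * f j u) (v + sumv l) =
        ∑ j ∈ s, a j * (dw D n * (PP D n)^[N] (f j) (v + sumv l)) := by
      intro l
      rw [ih, Finset.mul_sum]
      refine Finset.sum_congr rfl fun j _ => ?_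
      ring
    have h2 : ∀ j : ι, a j * ∑ l ∈ inj D n, dw D n * (PP D n)^[N] (f j) (v + sumv l) =
        ∑ l ∈ inj D n, a j * (dw D n * (PP D n)^[N] (f j) (v + sumv l)) := by
      intro j
      rw [Finset.mul_sum]
    calc ∑ l ∈ inj D n, dw D n * (PP D n)^[N] (fun u => ∑ j ∈ s, a j * f j u) (v + sumv l)
        = ∑ l ∈ inj D n, ∑ j ∈ s, a j * (dw D n * (PP D n)^[N] (f j) (v + sumv l)) :=
          Finset.sum_congr rfl fun l _ => h1 l
      _ = ∑ j ∈ s, ∑ l ∈ inj D n, a j * (dw D n * (PP D n)^[N] (f j) (v + sumv l)) := Finset.sum_comm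
      _ = ∑ j ∈ s, a j * ∑ l ∈ inj D n, dw D n * (PP D n)^[N] (f j) (v + sumv l) :=
          Finset.sum_congr rfl fun j _ => (h2 j).symm

theorem FM2_even {D : ℕ} (v : V D) (i : Fin D) :
    (2 : ℤ) ∣ (v - ∑ c ∈ Finset.univ.filter (fun c => ¬ (2 : ℤ) ∣ v c), Pi.single c 1 : V D) i := by
  rw [Pi.sub_apply, Finset.sum_apply, Finset.sum_pi_single]
  split_ifs with h
  · rw [Finset.mem_filter] at h
    have h2 := h.2
    omega
  · rw [Finset.mem_filter] at h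
    have h2 : (2 : ℤ) ∣ v i := by
      by_contra h3
      exact h ⟨Finset.mem_univ i, h3⟩
    simpa using h2

theorem FM2_srw_lower (n D : ℕ) (hD1 : 1 ≤ D) (hD : n ≤ D) (j N : ℕ) (v : V D) {c : ℝ}
    (h : c ≤ (Pw n D)^[N] ((Qd D)^[j] (ind 0)) v) :
    qn D n ^ N * ENNReal.ofReal c ≤ (PP D n)^[N] (srw D j) v := by
  have h1 : srw D j = fun u => ENNReal.ofReal ((Qd D)^[j] (ind 0) u) := by
    funext u
    exact srw_eq D hD1 j u
  have h2 : ∀ u : V D, 0 ≤ (Qd D)^[j] (ind 0) u := by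
    apply Qd_nonneg
    intro u
    unfold ind
    split_ifs
    · exact zero_le_one
    · exact le_rfl
  rw [h1, PP_iter D n hD1 hD _ h2 N v]
  exact mul_le_mul_right (ENNReal.ofReal_le_ofReal h) _

theorem PP_Gam_lower (w α : Set.Ioo (0 : ℝ) 1) (n H : ℕ) (hn : 1 ≤ n) (hH : 1 ≤ H) (D : ℕ) (hD : n ≤ D) :
    ∃ c : ℝ, 0 < c ∧ ∀ v : V D, ∀ h : ℤ, ∃ N0 : ℕ, ∀ N : ℕ, N0 ≤ N → Even N →
      ENNReal.ofReal c * qn D n ^ N * ENNReal.ofReal (ph D N) ≤
        (PP D n)^[N] (fun u => Gam w α D (N * H - h) (-u)) v := by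
  obtain ⟨A, c1, hc1, hA⟩ := hz_lower_even w α
  obtain ⟨c2, hc2, hP⟩ := PwQd_lower n D (2 * A * H) hn hD
  have hD1 : 1 ≤ D := hn.trans hD
  obtain ⟨κ, hκ⟩ : ∃ κ : ℝ≥0∞, κ = (dispP w α 0 * (2 * (D : ℝ≥0∞))⁻¹) ^ D := ⟨_, rfl⟩
  have hκ0 : κ ≠ 0 := by
    rw [hκ]
    exact pow_ne_zero _ (mul_ne_zero (dispP_pos w α 0).ne'
      (ENNReal.inv_ne_zero.2 (ENNReal.mul_ne_top ENNReal.ofNat_ne_top (ENNReal.natCast_ne_top D))))
  have hκt : κ ≠ ∞ := by
    rw [hκ]
    refine ENNReal.pow_ne_top (ENNReal.mul_ne_top ?_ ?_)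
    · exact measure_ne_top _ _
    · refine ENNReal.inv_ne_top.2 (mul_ne_zero two_ne_zero ?_)
      exact_mod_cast (by omega : D ≠ 0)
  refine ⟨κ.toReal * (c1 * c2), mul_pos (ENNReal.toReal_pos hκ0 hκt) (mul_pos hc1 hc2), ?_⟩
  intro v h
  obtain ⟨o, ho⟩ : ∃ o : V D, o = ∑ c ∈ Finset.univ.filter (fun c => ¬ (2 : ℤ) ∣ v c), Pi.single c 1 :=
    ⟨_, rfl⟩
  have hev : ∀ i, (2 : ℤ) ∣ (v - o) i := by
    intro i
    rw [ho]
    exact FM2_even v i
  obtain ⟨N0, hN0⟩ := hP (v - o) hev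
  refine ⟨max N0 (h.natAbs + 1), fun N hN hNe => ?_⟩
  have hN1 : N0 ≤ N := (le_max_left _ _).trans hN
  have hN2 : h.natAbs + 1 ≤ N := (le_max_right _ _).trans hN
  have hNH : (N : ℤ) ≤ (N : ℤ) * (H : ℤ) := by
    have e1 : (1 : ℤ) ≤ (H : ℤ) := by exact_mod_cast hH
    nlinarith [Int.natCast_nonneg N]
  have hab : h ≤ (h.natAbs : ℤ) := Int.le_natAbs
  have hab' : -h ≤ (h.natAbs : ℤ) := by
    have := Int.le_natAbs (a := -h)
    rwa [Int.natAbs_neg] at this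
  have hN3 : (h.natAbs : ℤ) + 1 ≤ (N : ℤ) := by exact_mod_cast hN2
  obtain ⟨m, hm⟩ : ∃ m : ℕ, (m : ℤ) = (N : ℤ) * (H : ℤ) - h :=
    ⟨((N : ℤ) * (H : ℤ) - h).toNat, Int.toNat_of_nonneg (by linarith)⟩
  have hm1 : 1 ≤ m := by
    have : (1 : ℤ) ≤ (m : ℤ) := by
      rw [hm]
      linarith
    exact_mod_cast this
  have hm2 : m ≤ 2 * (N * H) := by
    have : (m : ℤ) ≤ 2 * ((N : ℤ) * (H : ℤ)) := by
      rw [hm]
      linarith
    exact_mod_cast this
  rw [← hm]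
  obtain ⟨s, hs⟩ : ∃ s : Finset ℕ, s = (Finset.range (A * m)).filter Even := ⟨_, rfl⟩
  have hF : ∀ u : V D, κ * (∑ j ∈ s, hz w α j m * srw D j (u - o)) ≤ Gam w α D m (-u) := by
    intro u
    rw [FM2_Gam_neg]
    have e1 := Gam_shift w α D hD1 m u (Finset.univ.filter (fun c => ¬ (2 : ℤ) ∣ v c))
    rw [← ho, ← hκ] at e1
    refine le_trans (mul_le_mul_right ?_ _) e1
    unfold Gam
    exact ENNReal.sum_le_tsum s
  have hM := FM2_PP_mono (n := n) (F := fun u => Gam w α D m (-u))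
    (G := fun u => ∑ j ∈ s, hz w α j m * srw D j u) κ o hF N v
  rw [FM2_PP_sum] at hM
  refine le_trans ?_ hM
  have hterm : ∀ j ∈ s, hz w α j m * (qn D n ^ N * ENNReal.ofReal (c2 * ph D N)) ≤
      hz w α j m * (PP D n)^[N] (srw D j) (v - o) := by
    intro j hj
    rw [hs, Finset.mem_filter, Finset.mem_range] at hj
    refine mul_le_mul_right (FM2_srw_lower n D hD1 hD j N (v - o) ?_) _
    refine hN0 N hN1 hNe j ?_ hj.2
    calc j ≤ A * m := hj.1.le
      _ ≤ A * (2 * (N * H)) := Nat.mul_le_mul_left _ hm2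
      _ = 2 * A * H * N := by ring
  have hph : 0 ≤ ph D N := by
    unfold ph
    positivity
  calc ENNReal.ofReal (κ.toReal * (c1 * c2)) * qn D n ^ N * ENNReal.ofReal (ph D N)
      = κ * (ENNReal.ofReal c1 * (qn D n ^ N * ENNReal.ofReal (c2 * ph D N))) := by
        rw [ENNReal.ofReal_mul ENNReal.toReal_nonneg, ENNReal.ofReal_toReal hκt, ENNReal.ofReal_mul hc1.le,
          ENNReal.ofReal_mul hc2.le]
        ring
    _ ≤ κ * ((∑ j ∈ s, hz w α j m) * (qn D n ^ N * ENNReal.ofReal (c2 * ph D N))) := by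
        refine mul_le_mul_right (mul_le_mul_left ?_ _) _
        rw [hs]
        exact hA m hm1
    _ = κ * ∑ j ∈ s, hz w α j m * (qn D n ^ N * ENNReal.ofReal (c2 * ph D N)) := by
        rw [Finset.sum_mul]
    _ ≤ κ * ∑ j ∈ s, hz w α j m * (PP D n)^[N] (srw D j) (v - o) :=
        mul_le_mul_right (Finset.sum_le_sum hterm) _

end FDr
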