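import Pool.Agent.Lib.MP_e029a2_pr.ADef

/-!
# Job FM3: avoidance costs at most the sum over the first visits

`gB u = ∑_{l ∈ inj, ¬ okl B u l} dw` is the weight of the words from `u` which visit `B`.  Claim (induction on `N`, for all
`v`; `f ≤ F` everywhere):
`(PP)^[N] f v ≤ av D n B f N v + ∑_{k<N} (PP)^[k] gB v * qn^(N-1-k) * F`.
Step: `(PP)^[N+1] f v = ∑_{l ∈ inj} dw (PP)^[N] f (v + sumv l)` (`Function.iterate_succ'`: `(PP)^[N+1] f = PP ((PP)^[N] f)`);
for the words with `¬ okl` use `(PP)^[N] f ≤ qn^N F` (total weight), which gives `gB v qn^N F` (the term `k = 0`);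
for the words with `okl` use the induction hypothesis at `v + sumv l`, and
`∑_{l ok} dw (PP)^[k] gB (v + sumv l) ≤ (PP)^[k+1] gB v`.
-/

set_option autoImplicit false

namespace FDr

open MeasureTheory
open scoped ENNReal

/-- the weight of the words from `u` which visit `B` -/
noncomputable def gB (D n : ℕ) (B : Finset (Fin D → ℤ)) (u : V D) : ℝ≥0∞ :=
  ∑ _l ∈ (inj D n).filter (fun l => ¬ okl B u l), dw D n

/-- iterates of `PP` on bounded functions -/
theorem PP_bdd_fm3 (D n : ℕ) (f : V D → ℝ≥0∞) (F : ℝ≥0∞) (hF : ∀ u, f u ≤ F) (N : ℕ) (v : V D) :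
    (PP D n)^[N] f v ≤ qn D n ^ N * F := by
  induction N generalizing v with
  | zero =>
    rw [pow_zero, one_mul]
    exact hF v
  | succ N ih =>
    rw [Function.iterate_succ_apply']
    calc PP D n ((PP D n)^[N] f) v ≤ ∑ _l ∈ inj D n, dw D n * (qn D n ^ N * F) := by
          unfold PP
          refine Finset.sum_le_sum fun l _ => ?_
          gcongr
          exact ih _
      _ = qn D n ^ (N + 1) * F := by
          rw [Finset.sum_const, nsmul_eq_mul, pow_succ]
          have hq : qn D n = ((inj D n).card : ℝ≥0∞) * dw D n := rfl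
          conv_rhs => rw [mul_comm (qn D n ^ N) (qn D n), hq, ← hq]
          have h2 : ((inj D n).card : ℝ≥0∞) * (dw D n * (qn D n ^ N * F)) =
              (((inj D n).card : ℝ≥0∞) * dw D n) * qn D n ^ N * F := by ring
          rw [h2, ← hq]

theorem av_ge (D n : ℕ) (B : Finset (Fin D → ℤ)) (f : V D → ℝ≥0∞) (F : ℝ≥0∞) (hF : ∀ u, f u ≤ F)
    (N : ℕ) (v : V D) :
    (PP D n)^[N] f v ≤ av D n B f N v +
      ∑ k ∈ Finset.range N, (PP D n)^[k] (gB D n B) v * qn D n ^ (N - 1 - k) * F := by
  induction N generalizing v with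
  | zero =>
    rw [Finset.range_zero, Finset.sum_empty, add_zero]
    exact le_rfl
  | succ N ih =>
    rw [Function.iterate_succ_apply']
    have h0 : PP D n ((PP D n)^[N] f) v = ∑ l ∈ inj D n, dw D n * (PP D n)^[N] f (v + sumv l) := rfl
    rw [h0, ← Finset.sum_filter_add_sum_filter_not (inj D n) (fun l => okl B v l)]
    -- the words which avoid
    have h1 : ∑ l ∈ (inj D n).filter (fun l => okl B v l), dw D n * (PP D n)^[N] f (v + sumv l) ≤
        av D n B f (N + 1) v +
          ∑ k ∈ Finset.range N, (PP D n)^[k + 1] (gB D n B) v * qn D n ^ (N - 1 - k) * F := by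
      calc ∑ l ∈ (inj D n).filter (fun l => okl B v l), dw D n * (PP D n)^[N] f (v + sumv l)
          ≤ ∑ l ∈ (inj D n).filter (fun l => okl B v l), dw D n * (av D n B f N (v + sumv l) +
              ∑ k ∈ Finset.range N, (PP D n)^[k] (gB D n B) (v + sumv l) * qn D n ^ (N - 1 - k) * F) := by
            refine Finset.sum_le_sum fun l _ => ?_
            gcongr
            exact ih _
        _ = ∑ l ∈ (inj D n).filter (fun l => okl B v l), dw D n * av D n B f N (v + sumv l) +
            ∑ k ∈ Finset.range N, ∑ l ∈ (inj D n).filter (fun l => okl B v l),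
              dw D n * ((PP D n)^[k] (gB D n B) (v + sumv l) * qn D n ^ (N - 1 - k) * F) := by
            rw [Finset.sum_comm, ← Finset.sum_add_distrib]
            refine Finset.sum_congr rfl fun l _ => ?_
            rw [mul_add, Finset.mul_sum]
        _ ≤ _ := by
            refine add_le_add (le_of_eq rfl) (Finset.sum_le_sum fun k _ => ?_)
            calc ∑ l ∈ (inj D n).filter (fun l => okl B v l),
                  dw D n * ((PP D n)^[k] (gB D n B) (v + sumv l) * qn D n ^ (N - 1 - k) * F)
                ≤ ∑ l ∈ inj D n, dw D n * ((PP D n)^[k] (gB D n B) (v + sumv l) * qn D n ^ (N - 1 - k) * F) :=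
                  Finset.sum_le_sum_of_subset (Finset.filter_subset _ _)
              _ = (∑ l ∈ inj D n, dw D n * (PP D n)^[k] (gB D n B) (v + sumv l)) *
                    qn D n ^ (N - 1 - k) * F := by
                  rw [Finset.sum_mul, Finset.sum_mul]
                  refine Finset.sum_congr rfl fun l _ => ?_
                  ring
              _ = (PP D n)^[k + 1] (gB D n B) v * qn D n ^ (N - 1 - k) * F := by
                  rw [Function.iterate_succ_apply']
                  rfl
    -- the words which visit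
    have h2 : ∑ l ∈ (inj D n).filter (fun l => ¬ okl B v l), dw D n * (PP D n)^[N] f (v + sumv l) ≤
        (PP D n)^[0] (gB D n B) v * qn D n ^ N * F := by
      calc ∑ l ∈ (inj D n).filter (fun l => ¬ okl B v l), dw D n * (PP D n)^[N] f (v + sumv l)
          ≤ ∑ _l ∈ (inj D n).filter (fun l => ¬ okl B v l), dw D n * (qn D n ^ N * F) := by
            refine Finset.sum_le_sum fun l _ => ?_
            gcongr
            exact PP_bdd_fm3 D n f F hF N _
        _ = gB D n B v * (qn D n ^ N * F) := by
            unfold gB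
            rw [Finset.sum_mul]
        _ = _ := by
            rw [Function.iterate_zero, id, mul_assoc]
    rw [Finset.sum_range_succ']
    have h3 : ∀ k ∈ Finset.range N, (PP D n)^[k + 1] (gB D n B) v * qn D n ^ (N + 1 - 1 - (k + 1)) * F =
        (PP D n)^[k + 1] (gB D n B) v * qn D n ^ (N - 1 - k) * F := by
      intro k _
      have : N + 1 - 1 - (k + 1) = N - 1 - k := by omega
      rw [this]
    rw [Finset.sum_congr rfl h3]
    have h4 : N + 1 - 1 - 0 = N := by omega
    rw [h4, ← add_assoc]
    exact add_le_add h1 h2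

end FDr
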