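import Pool.Agent.Lib.MP_e029a2_pr.ADef

/-!
# Job FR1: the uniform measure of the torus

* `circ_prob`: the volume of `Ioc (-π) π` is `2π`.
* `tor_prob`: `Measure.pi` of probability measures.
* `int_circ_exp_int`: `∫ x, exp (i m x) ∂circ = if m = 0 then 1 else 0` for `m : ℤ`
  (`integral_smul_measure`, `intervalIntegral`, `integral_exp_mul_complex` or
  `fourierCoeff`-free direct primitive).
* `int_tor_cos`: `cos (dot θ v) = re (∏_c exp (i (v c) θ_c))`; `MeasureTheory.integral_fintype_prod_eq_prod`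
  (for the complex functions `fun c x => Complex.exp (I * (v c) * x)`), `integral_re`; the product is `1` if all
  `v c = 0` and `0` otherwise.
-/

set_option autoImplicit false

namespace FDr

open MeasureTheory
open scoped ENNReal

instance circ_prob : IsProbabilityMeasure circ := by
  constructor
  have h2 : (0 : ℝ) < 2 * Real.pi := by positivity
  have h1 : (volume.restrict (Set.Ioc (-Real.pi) Real.pi)) Set.univ = ENNReal.ofReal (2 * Real.pi) := by
    rw [Measure.restrict_apply_univ, Real.volume_Ioc]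
    congr 1
    ring
  rw [circ, Measure.smul_apply, h1, smul_eq_mul]
  exact ENNReal.inv_mul_cancel (by simpa using h2) ENNReal.ofReal_ne_top

instance tor_prob (D : ℕ) : IsProbabilityMeasure (tor D) := by
  unfold tor
  infer_instance

theorem int_circ_exp_int (m : ℤ) :
    ∫ x, Complex.exp (Complex.I * (m : ℂ) * (x : ℂ)) ∂circ = if m = 0 then 1 else 0 := by
  have h2 : (0 : ℝ) < 2 * Real.pi := by positivity
  have hpi : -Real.pi ≤ Real.pi := by linarith [Real.pi_pos]
  have e1 : ∫ x, Complex.exp (Complex.I * (m : ℂ) * (x : ℂ)) ∂circ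
      = (2 * Real.pi : ℝ)⁻¹ • ∫ x in (-Real.pi)..Real.pi, Complex.exp (Complex.I * (m : ℂ) * (x : ℂ)) := by
    rw [circ, integral_smul_measure, intervalIntegral.integral_of_le hpi, ENNReal.toReal_inv,
      ENNReal.toReal_ofReal h2.le]
  rw [e1]
  split_ifs with hm
  · subst hm
    simp only [Int.cast_zero, mul_zero, zero_mul, Complex.exp_zero, intervalIntegral.integral_const, smul_smul]
    have e : (2 * Real.pi)⁻¹ * (Real.pi - -Real.pi) = 1 := by
      field_simp
      ring
    rw [e, one_smul]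
  · have hm' : (m : ℂ) ≠ 0 := by exact_mod_cast hm
    have hc : Complex.I * (m : ℂ) ≠ 0 := mul_ne_zero Complex.I_ne_zero hm'
    rw [integral_exp_mul_complex hc]
    have e2 : Complex.exp (Complex.I * (m : ℂ) * ((Real.pi : ℝ) : ℂ))
        = Complex.exp (Complex.I * (m : ℂ) * ((-Real.pi : ℝ) : ℂ)) := by
      rw [Complex.exp_eq_exp_iff_exists_int]
      refine ⟨m, ?_⟩
      push_cast
      ring
    rw [e2, sub_self, zero_div, smul_zero]

private theorem fr1_cos (D : ℕ) (v : V D) (θ : Fin D → ℝ) :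
    Real.cos (dot θ v) = (∏ c, Complex.exp (Complex.I * ((v c : ℤ) : ℂ) * ((θ c : ℝ) : ℂ))).re := by
  rw [← Complex.exp_sum]
  have e : (∑ c, Complex.I * ((v c : ℤ) : ℂ) * ((θ c : ℝ) : ℂ)) = ((dot θ v : ℝ) : ℂ) * Complex.I := by
    unfold dot
    push_cast
    rw [Finset.sum_mul]
    refine Finset.sum_congr rfl fun c _ => ?_
    ring
  rw [e, Complex.exp_ofReal_mul_I_re]

private theorem fr1_int (D : ℕ) (v : V D) :
    Integrable (fun θ : Fin D → ℝ => ∏ c, Complex.exp (Complex.I * ((v c : ℤ) : ℂ) * ((θ c : ℝ) : ℂ))) (tor D) := by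
  refine Integrable.mono' (g := fun _ => (1 : ℝ)) (integrable_const _) ?_ ?_
  · refine Continuous.aestronglyMeasurable ?_
    fun_prop
  · refine Filter.Eventually.of_forall fun θ => ?_
    rw [norm_prod]
    refine le_of_eq (Finset.prod_eq_one fun c _ => ?_)
    have e : Complex.I * ((v c : ℤ) : ℂ) * ((θ c : ℝ) : ℂ) = (((v c : ℝ) * θ c : ℝ) : ℂ) * Complex.I := by
      push_cast
      ring
    rw [e, Complex.norm_exp_ofReal_mul_I]

theorem int_tor_cos (D : ℕ) (v : V D) :
    ∫ θ, Real.cos (dot θ v) ∂(tor D) = if v = 0 then 1 else 0 := by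
  have e1 : ∫ θ, Real.cos (dot θ v) ∂(tor D)
      = (∫ θ, (∏ c, Complex.exp (Complex.I * ((v c : ℤ) : ℂ) * ((θ c : ℝ) : ℂ))) ∂(tor D)).re := by
    have h := integral_re (fr1_int D v)
    have e0 : (fun θ : Fin D → ℝ => Real.cos (dot θ v)) = fun θ : Fin D → ℝ =>
        RCLike.re (∏ c, Complex.exp (Complex.I * ((v c : ℤ) : ℂ) * ((θ c : ℝ) : ℂ))) := by
      funext θ
      exact fr1_cos D v θ
    rw [e0, h]
    rfl
  have e2 : ∫ θ, (∏ c, Complex.exp (Complex.I * ((v c : ℤ) : ℂ) * ((θ c : ℝ) : ℂ))) ∂(tor D)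
      = ∏ c : Fin D, ∫ x, Complex.exp (Complex.I * ((v c : ℤ) : ℂ) * (x : ℂ)) ∂circ := by
    unfold tor
    exact integral_fintype_prod_eq_prod (𝕜 := ℂ)
      (fun c (x : ℝ) => Complex.exp (Complex.I * ((v c : ℤ) : ℂ) * (x : ℂ)))
  rw [e1, e2]
  have e3 : (∏ c : Fin D, ∫ x, Complex.exp (Complex.I * ((v c : ℤ) : ℂ) * (x : ℂ)) ∂circ)
      = ∏ c : Fin D, (if v c = 0 then (1 : ℂ) else 0) :=
    Finset.prod_congr rfl fun c _ => int_circ_exp_int (v c)
  rw [e3]
  split_ifs with hv
  · subst hv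
    simp
  · have : ∃ c, v c ≠ 0 := by
      obtain ⟨c, hc⟩ := Function.ne_iff.mp hv
      exact ⟨c, hc⟩
    obtain ⟨c, hc⟩ := this
    rw [Finset.prod_eq_zero (Finset.mem_univ c) (if_neg hc)]
    rfl

end FDr
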