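import Pool.Agent.Lib.MP_e029a2_pr.FR1

/-!
# Job FR2: the one-dimensional integral

For `|x| ≤ π/2`: `1 - |cos x| = 1 - cos x ≥ 2 x²/π²` (`Real.cos_le_one_sub_mul_cos_sq`-like facts, or Jordan:
`1 - cos x = 2 sin²(x/2)`, `|sin (x/2)| ≥ |x|/π` for `|x| ≤ π`: `Real.mul_le_sin`; Mathlib also has
`Real.cos_le_one_sub_mul_sq`-type lemmas).  For `π/2 ≤ |x| ≤ π`: `|cos x| = cos (π - |x|)`, so
`1 - |cos x| ≥ 2 (π - |x|)²/π²`.  With `c = 2 λ/π²`, for `x ∈ (-π, π]`
`exp (-λ (1 - |cos x|)) ≤ exp (-c x²) + exp (-c (x - π)²) + exp (-c (x + π)²)`.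
The integral over the whole line of each of the three is `√(π/c)` (`integral_gaussian`, and translation
invariance), so the integral over `(-π, π]` divided by `2π` is at most
`3/(2π) √(π/c) = (3/2) √(π/(2λ)) ≤ 2/√λ` (as `(9/4) π/2 ≤ 4`, because `π < 3.15`).
-/

set_option autoImplicit false

namespace FDr

open MeasureTheory
open scoped ENNReal

private theorem fr2_pt (l : ℝ) (hl : 0 < l) (x : ℝ) (hx : x ∈ Set.Ioc (-Real.pi) Real.pi) :
    Real.exp (-(l * (1 - |Real.cos x|))) ≤ Real.exp (-(l * (2 / Real.pi ^ 2)) * x ^ 2) +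
      Real.exp (-(l * (2 / Real.pi ^ 2)) * (x - Real.pi) ^ 2) +
      Real.exp (-(l * (2 / Real.pi ^ 2)) * (x + Real.pi) ^ 2) := by
  have hpi := Real.pi_pos
  have key : ∀ y : ℝ, |y| ≤ Real.pi → |Real.cos x| = Real.cos y →
      Real.exp (-(l * (1 - |Real.cos x|))) ≤ Real.exp (-(l * (2 / Real.pi ^ 2)) * y ^ 2) := by
    intro y hy h
    apply Real.exp_le_exp.2
    have h1 := Real.cos_le_one_sub_mul_cos_sq hy
    have h2 : 2 / Real.pi ^ 2 * y ^ 2 ≤ 1 - |Real.cos x| := by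
      rw [h]
      linarith
    have h3 := mul_le_mul_of_nonneg_left h2 hl.le
    nlinarith
  have e1 := (Real.exp_pos (-(l * (2 / Real.pi ^ 2)) * x ^ 2)).le
  have e2 := (Real.exp_pos (-(l * (2 / Real.pi ^ 2)) * (x - Real.pi) ^ 2)).le
  have e3 := (Real.exp_pos (-(l * (2 / Real.pi ^ 2)) * (x + Real.pi) ^ 2)).le
  rcases le_total x (-(Real.pi / 2)) with h | h
  · have h4 : Real.cos x ≤ 0 := by
      rw [← Real.cos_neg]
      exact Real.cos_nonpos_of_pi_div_two_le_of_le (by linarith) (by linarith [hx.1])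
    have h5 := key (x + Real.pi) (abs_le.2 ⟨by linarith [hx.1], by linarith⟩)
      (by rw [Real.cos_add_pi, abs_of_nonpos h4])
    linarith
  · rcases le_total x (Real.pi / 2) with h' | h'
    · have h4 : 0 ≤ Real.cos x := Real.cos_nonneg_of_mem_Icc ⟨h, h'⟩
      have h5 := key x (abs_le.2 ⟨hx.1.le, hx.2⟩) (abs_of_nonneg h4)
      linarith
    · have h4 : Real.cos x ≤ 0 :=
        Real.cos_nonpos_of_pi_div_two_le_of_le h' (by linarith [hx.2])
      have h5 := key (x - Real.pi) (abs_le.2 ⟨by linarith, by linarith [hx.2]⟩)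
        (by rw [Real.cos_sub_pi, abs_of_nonpos h4])
      linarith

theorem int_circ_exp (l : ℝ) (hl : 0 < l) :
    ∫ x, Real.exp (-(l * (1 - |Real.cos x|))) ∂circ ≤ 2 / Real.sqrt l := by
  have hpi := Real.pi_pos
  have hc : 0 < l * (2 / Real.pi ^ 2) := by positivity
  have i1 : Integrable fun x : ℝ => Real.exp (-(l * (2 / Real.pi ^ 2)) * x ^ 2) :=
    integrable_exp_neg_mul_sq hc
  have i2 := i1.comp_sub_right Real.pi
  have i3 := i1.comp_add_right Real.pi
  have hI : Integrable fun x : ℝ => Real.exp (-(l * (2 / Real.pi ^ 2)) * x ^ 2) +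
      Real.exp (-(l * (2 / Real.pi ^ 2)) * (x - Real.pi) ^ 2) +
      Real.exp (-(l * (2 / Real.pi ^ 2)) * (x + Real.pi) ^ 2) := (i1.add i2).add i3
  have hint : ∫ x : ℝ, (Real.exp (-(l * (2 / Real.pi ^ 2)) * x ^ 2) +
      Real.exp (-(l * (2 / Real.pi ^ 2)) * (x - Real.pi) ^ 2) +
      Real.exp (-(l * (2 / Real.pi ^ 2)) * (x + Real.pi) ^ 2)) =
      3 * Real.sqrt (Real.pi / (l * (2 / Real.pi ^ 2))) := by
    have i12 : Integrable fun x : ℝ => Real.exp (-(l * (2 / Real.pi ^ 2)) * x ^ 2) +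
      Real.exp (-(l * (2 / Real.pi ^ 2)) * (x - Real.pi) ^ 2) := i1.add i2
    rw [integral_add i12 i3, integral_add i1 i2,
      integral_sub_right_eq_self (fun x : ℝ => Real.exp (-(l * (2 / Real.pi ^ 2)) * x ^ 2)) Real.pi,
      integral_add_right_eq_self (fun x : ℝ => Real.exp (-(l * (2 / Real.pi ^ 2)) * x ^ 2)) Real.pi,
      integral_gaussian]
    ring
  have hle : ∫ x in Set.Ioc (-Real.pi) Real.pi, Real.exp (-(l * (1 - |Real.cos x|))) ≤
      3 * Real.sqrt (Real.pi / (l * (2 / Real.pi ^ 2))) := by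
    rw [← hint]
    refine le_trans ?_ (setIntegral_le_integral hI (Filter.Eventually.of_forall fun x => by positivity)
      (s := Set.Ioc (-Real.pi) Real.pi))
    refine setIntegral_mono_on ?_ hI.integrableOn measurableSet_Ioc (fr2_pt l hl)
    refine ((Continuous.continuousOn ?_).integrableOn_Icc (a := -Real.pi) (b := Real.pi)).mono_set
      Set.Ioc_subset_Icc_self
    fun_prop
  have h1 : ∫ x, Real.exp (-(l * (1 - |Real.cos x|))) ∂circ = (2 * Real.pi)⁻¹ *
      ∫ x in Set.Ioc (-Real.pi) Real.pi, Real.exp (-(l * (1 - |Real.cos x|))) := by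
    rw [circ, integral_smul_measure, ENNReal.toReal_inv, ENNReal.toReal_ofReal (by positivity),
      smul_eq_mul]
  rw [h1]
  have h2 : (2 * Real.pi)⁻¹ * (3 * Real.sqrt (Real.pi / (l * (2 / Real.pi ^ 2)))) ≤
      2 / Real.sqrt l := by
    have hsl : 0 < Real.sqrt l := Real.sqrt_pos.2 hl
    have h3 : Real.pi / (l * (2 / Real.pi ^ 2)) = (Real.pi ^ 2 / l) * (Real.pi / 2) := by
      field_simp
    have h4 : Real.sqrt (Real.pi / (l * (2 / Real.pi ^ 2))) =
        Real.pi / Real.sqrt l * Real.sqrt (Real.pi / 2) := by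
      rw [h3, Real.sqrt_mul (by positivity), Real.sqrt_div (by positivity),
        Real.sqrt_sq hpi.le]
    have h5 : Real.sqrt (Real.pi / 2) ≤ 4 / 3 := by
      rw [Real.sqrt_le_left (by norm_num)]
      have := Real.pi_lt_d2
      linarith
    rw [h4]
    have h6 : (2 * Real.pi)⁻¹ * (3 * (Real.pi / Real.sqrt l * Real.sqrt (Real.pi / 2))) =
        (3 / 2 * Real.sqrt (Real.pi / 2)) / Real.sqrt l := by
      field_simp
    rw [h6]
    exact div_le_div_of_nonneg_right (by linarith) hsl.le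
  exact le_trans (mul_le_mul_of_nonneg_left hle (by positivity)) h2

end FDr
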