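import Pool.Agent.Lib.MP_e029a2_pr.FR2

/-!
# Job FR3: the product

`exp (-(l * osc θ)) = ∏_c exp (-(l * (1 - |cos (θ c)|)))`;
`MeasureTheory.integral_fintype_prod_eq_prod`, then `int_circ_exp` for each factor (`Finset.prod_le_prod`,
`Finset.prod_const`).
-/

set_option autoImplicit false

namespace FDr

open MeasureTheory
open scoped ENNReal

theorem int_tor_exp (D : ℕ) (l : ℝ) (hl : 0 < l) :
    ∫ θ, Real.exp (-(l * osc θ)) ∂(tor D) ≤ (2 / Real.sqrt l) ^ D := by
  have e : ∀ θ : Fin D → ℝ, Real.exp (-(l * osc θ)) = ∏ c, Real.exp (-(l * (1 - |Real.cos (θ c)|))) := by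
    intro θ
    rw [← Real.exp_sum]
    unfold osc
    rw [Finset.mul_sum, Finset.sum_neg_distrib]
  have e2 : ∫ θ, Real.exp (-(l * osc θ)) ∂(tor D) =
      ∏ _c : Fin D, ∫ x, Real.exp (-(l * (1 - |Real.cos x|))) ∂circ := by
    rw [integral_congr_ae (Filter.Eventually.of_forall e)]
    unfold tor
    exact integral_fintype_prod_eq_prod (fun _ : Fin D => fun x : ℝ => Real.exp (-(l * (1 - |Real.cos x|))))
  rw [e2]
  have h1 := int_circ_exp l hl
  have h0 : 0 ≤ ∫ x, Real.exp (-(l * (1 - |Real.cos x|))) ∂circ := integral_nonneg fun x => (Real.exp_pos _).le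
  rw [Finset.prod_const, Finset.card_univ, Fintype.card_fin]
  exact pow_le_pow_left₀ h0 h1 D

theorem continuous_osc (D : ℕ) : Continuous (osc : (Fin D → ℝ) → ℝ) := by
  unfold osc
  refine continuous_finsetSum _ fun c _ => ?_
  exact continuous_const.sub ((Real.continuous_cos.comp (continuous_apply c)).abs)

theorem osc_nonneg {D : ℕ} (θ : Fin D → ℝ) : 0 ≤ osc θ := by
  unfold osc
  exact Finset.sum_nonneg fun c _ => sub_nonneg.2 (Real.abs_cos_le_one _)

end FDr
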