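import Pool.Agent.Lib.MP_e029a2_pr.FR1

/-!
# Job FR4: the iterates of a convolution operator with a real symbol

Induction on `N` (`Function.iterate_succ_apply'`).  One step: if `f v = ∫ h θ * cos (dot θ (v - w))` for
all `v`, with `h` continuous and `|h| ≤ 1`, then
`convOp A c u f v = ∑_a c a * ∫ h θ * cos (dot θ (v + u a - w)) = ∫ h θ * ∑_a c a * cos (dot θ (v + u a - w))`
(`integral_finset_sum`, `integral_const_mul`; everything is a bounded continuous function on a
probability space, hence integrable) and the inner sum is `s θ * cos (dot θ (v - w))` by `hsym` with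
`x = - dot θ w` (`dot θ (v - w) = dot θ v + (- dot θ w)`).
-/

set_option autoImplicit false

namespace FDr

open MeasureTheory
open scoped ENNReal

private theorem FR4_dot_sub {D : ℕ} (θ : Fin D → ℝ) (v w : V D) :
    dot θ (v - w) = dot θ v + -dot θ w := by
  unfold dot
  rw [← sub_eq_add_neg, ← Finset.sum_sub_distrib]
  refine Finset.sum_congr rfl fun c _ => ?_
  rw [Pi.sub_apply]
  push_cast
  ring

private theorem FR4_cont {D : ℕ} (v : V D) : Continuous fun θ : Fin D → ℝ => dot θ v := by
  unfold dot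
  exact continuous_finsetSum _ fun c _ => (continuous_apply c).mul continuous_const

private theorem FR4_int {D : ℕ} {h : (Fin D → ℝ) → ℝ} (hh : Continuous h) (hh1 : ∀ θ, |h θ| ≤ 1)
    (a : ℝ) (v : V D) : Integrable (fun θ => a * (h θ * Real.cos (dot θ v))) (tor D) := by
  refine Integrable.of_bound (C := |a|) ?_ ?_
  · exact (continuous_const.mul (hh.mul (Real.continuous_cos.comp (FR4_cont v)))).aestronglyMeasurable
  · refine Filter.Eventually.of_forall fun θ => ?_
    rw [Real.norm_eq_abs, abs_mul, abs_mul]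
    have h1 := mul_le_mul (hh1 θ) (Real.abs_cos_le_one (dot θ v)) (abs_nonneg _) zero_le_one
    rw [one_mul] at h1
    exact mul_le_of_le_one_right (abs_nonneg a) h1

theorem spectral_iter {D : ℕ} {κ : Type*} (A : Finset κ) (c : κ → ℝ) (u : κ → V D)
    (s : (Fin D → ℝ) → ℝ) (hs : Continuous s) (hs1 : ∀ θ, |s θ| ≤ 1)
    (hsym : ∀ θ x v, convOp A c u (fun v => Real.cos (dot θ v + x)) v = s θ * Real.cos (dot θ v + x))
    (g : (Fin D → ℝ) → ℝ) (hg : Continuous g) (hg1 : ∀ θ, |g θ| ≤ 1) (w : V D) (f : V D → ℝ)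
    (hf : ∀ v, f v = ∫ θ, g θ * Real.cos (dot θ (v - w)) ∂(tor D)) (N : ℕ) (v : V D) :
    (convOp A c u)^[N] f v = ∫ θ, s θ ^ N * g θ * Real.cos (dot θ (v - w)) ∂(tor D) := by
  induction N generalizing v with
  | zero =>
    rw [Function.iterate_zero_apply, hf v]
    refine integral_congr_ae (Filter.Eventually.of_forall fun θ => ?_)
    simp only [pow_zero, one_mul]
  | succ N ih =>
    rw [Function.iterate_succ_apply']
    obtain ⟨h, hh⟩ : ∃ h : (Fin D → ℝ) → ℝ, h = fun θ => s θ ^ N * g θ := ⟨_, rfl⟩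
    have hcont : Continuous h := by
      rw [hh]
      exact (hs.pow N).mul hg
    have hbd : ∀ θ, |h θ| ≤ 1 := by
      intro θ
      rw [hh]
      simp only
      rw [abs_mul, abs_pow]
      have h1 := mul_le_mul (pow_le_one₀ (abs_nonneg _) (hs1 θ) : |s θ| ^ N ≤ 1) (hg1 θ)
        (abs_nonneg _) zero_le_one
      rwa [one_mul] at h1
    have ih' : ∀ v, (convOp A c u)^[N] f v = ∫ θ, h θ * Real.cos (dot θ (v - w)) ∂(tor D) := by
      intro v
      rw [ih v, hh]
    have e1 : convOp A c u ((convOp A c u)^[N] f) v =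
        ∑ a ∈ A, ∫ θ, c a * (h θ * Real.cos (dot θ (v + u a - w))) ∂(tor D) := by
      change ∑ a ∈ A, c a * (convOp A c u)^[N] f (v + u a) = _
      refine Finset.sum_congr rfl fun a _ => ?_
      rw [ih', integral_const_mul]
    rw [e1, ← integral_finsetSum _ fun a _ => FR4_int hcont hbd (c a) (v + u a - w)]
    refine integral_congr_ae (Filter.Eventually.of_forall fun θ => ?_)
    simp only
    have e2 := hsym θ (-dot θ w) v
    rw [← FR4_dot_sub] at e2
    have e3 : s θ ^ (N + 1) * g θ * Real.cos (dot θ (v - w)) =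
        h θ * (s θ * Real.cos (dot θ (v - w))) := by
      rw [hh]
      simp only
      ring
    rw [e3, ← e2]
    unfold convOp
    rw [Finset.mul_sum]
    refine Finset.sum_congr rfl fun a _ => ?_
    rw [FR4_dot_sub]
    ring

end FDr
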