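import Pool.Agent.Lib.MP_e029a2_pr.ADef

/-!
# Job W4: the symbols of the averages (sign symmetry)

* `sum_signs`: by induction on `k` (`Fin.consEquiv`/`Fin.cons` decomposition of `b : Fin (k+1) → Bool`):
  `cos (t_0 + y) + cos (- t_0 + y) = 2 cos t_0 cos y`.
* `sum_cos`: a word `σ : Fin k → Fin D × Bool` is a pair of `c : Fin k → Fin D` and `b : Fin k → Bool`
  (`Equiv.arrowProdEquivProdArrow`), being in `Wd` depends only on `c`; `dot θ (wsum σ) =
  ∑_j sg (b j) * θ (c j)` as `dot θ (dv (c, b)) = sg b * θ c`.  For fixed `c` the sum over `b` of the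
  left side is `2^k (∏ cos θ (c j)) cos x` by `sum_signs`, and the sum over `b` of
  `∏ cos θ (c j)` is `2^k ∏ cos θ (c j)`.
* `sum_cos_neg`: the same with `- dot θ (wsum σ)`; from `sum_cos` as
  `cos (-a + x) = cos (a + (-x))` and `cos (-x) = cos x`.
* `sum_cos_dir`: `∑_δ cos (dot θ (dv δ) + x) = ∑_c (cos (θ c + x) + cos (- θ c + x)) = 2 (∑_c cos θ c) cos x`.
* `Pw_cos`, `Tw_cos`, `Qd_cos`: the definitions and these sums (`dot` is additive).
-/

set_option autoImplicit false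

namespace FDr

open MeasureTheory
open scoped ENNReal

private theorem W4_two (a y : ℝ) : Real.cos (a + y) + Real.cos (-a + y) = 2 * Real.cos a * Real.cos y := by
  rw [Real.cos_add, Real.cos_add, Real.cos_neg, Real.sin_neg]
  ring

private theorem W4_add {D : ℕ} (θ : Fin D → ℝ) (u v : V D) : dot θ (u + v) = dot θ u + dot θ v := by
  unfold dot
  rw [← Finset.sum_add_distrib]
  refine Finset.sum_congr rfl fun c _ => ?_
  rw [Pi.add_apply]
  push_cast
  ring

private theorem W4_neg {D : ℕ} (θ : Fin D → ℝ) (u : V D) : dot θ (-u) = -dot θ u := by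
  unfold dot
  rw [← Finset.sum_neg_distrib]
  refine Finset.sum_congr rfl fun c _ => ?_
  rw [Pi.neg_apply]
  push_cast
  ring

private theorem W4_zero {D : ℕ} (θ : Fin D → ℝ) : dot θ (0 : V D) = 0 := by
  unfold dot
  refine Finset.sum_eq_zero fun c _ => ?_
  rw [Pi.zero_apply, Int.cast_zero, mul_zero]

private theorem W4_dv {D : ℕ} (θ : Fin D → ℝ) (d : Dir D) : dot θ (dv d) = (sg d.2 : ℝ) * θ d.1 := by
  unfold dot dv
  rw [Finset.sum_eq_single d.1]
  · rw [Pi.single_eq_same, mul_comm]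
  · intro c _ hc
    rw [Pi.single_eq_of_ne hc, Int.cast_zero, mul_zero]
  · intro h
    exact absurd (Finset.mem_univ _) h

private theorem W4_sum {D k : ℕ} (θ : Fin D → ℝ) (s : Finset (Fin k)) (σ : Fin k → Dir D) :
    dot θ (∑ j ∈ s, dv (σ j)) = ∑ j ∈ s, (sg (σ j).2 : ℝ) * θ (σ j).1 := by
  classical
  induction s using Finset.induction_on with
  | empty => rw [Finset.sum_empty, Finset.sum_empty, W4_zero]
  | insert a s ha ih => rw [Finset.sum_insert ha, Finset.sum_insert ha, W4_add, W4_dv, ih]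

private theorem W4_wsum {D k : ℕ} (θ : Fin D → ℝ) (σ : Fin k → Dir D) :
    dot θ (wsum σ) = ∑ j, (sg (σ j).2 : ℝ) * θ (σ j).1 := W4_sum θ Finset.univ σ

private theorem W4_split {D k : ℕ} (F : (Fin k → Fin D) → (Fin k → Bool) → ℝ) :
    ∑ σ ∈ Wd k D, F (fun j => (σ j).1) (fun j => (σ j).2) =
      ∑ c ∈ (Finset.univ.filter fun c : Fin k → Fin D => Function.Injective c), ∑ b : Fin k → Bool, F c b := by
  classical
  unfold Wd
  rw [Finset.sum_filter, Finset.sum_filter]
  have h1 : ∑ σ : Fin k → Dir D, (if Function.Injective fun j => (σ j).1 then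
      F (fun j => (σ j).1) (fun j => (σ j).2) else 0) =
      ∑ z : (Fin k → Fin D) × (Fin k → Bool), if Function.Injective z.1 then F z.1 z.2 else 0 :=
    Fintype.sum_equiv (Equiv.arrowProdEquivProdArrow (Fin k) (fun _ => Fin D) (fun _ => Bool)) _ _ fun σ => rfl
  rw [h1, Fintype.sum_prod_type]
  refine Finset.sum_congr rfl fun c _ => ?_
  split_ifs
  · rfl
  · exact Finset.sum_const_zero

theorem sum_signs (k : ℕ) (t : Fin k → ℝ) (x : ℝ) :
    ∑ b : Fin k → Bool, Real.cos (∑ j, (sg (b j) : ℝ) * t j + x) =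
      2 ^ k * (∏ j, Real.cos (t j)) * Real.cos x := by

  induction k generalizing x with
  | zero =>
    simp
  | succ k ih =>
    have h1 : ∑ b : Fin (k + 1) → Bool, Real.cos (∑ j, (sg (b j) : ℝ) * t j + x) =
        ∑ z : Bool × (Fin k → Bool), Real.cos ((sg z.1 : ℝ) * t 0 + ∑ j, (sg (z.2 j) : ℝ) * t j.succ + x) := by
      refine (Fintype.sum_equiv (Fin.consEquiv fun _ => Bool) _ _ fun z => ?_).symm
      rw [Fin.sum_univ_succ]
      rfl
    rw [h1, Fintype.sum_prod_type_right]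
    have h2 : ∀ b : Fin k → Bool, ∑ a : Bool, Real.cos ((sg a : ℝ) * t 0 + ∑ j, (sg (b j) : ℝ) * t j.succ + x) =
        2 * Real.cos (t 0) * Real.cos (∑ j, (sg (b j) : ℝ) * t j.succ + x) := by
      intro b
      rw [Fintype.sum_bool]
      have e1 : ((sg true : ℤ) : ℝ) = 1 := by
        unfold sg
        simp
      have e2 : ((sg false : ℤ) : ℝ) = -1 := by
        unfold sg
        simp
      rw [e1, e2, one_mul, neg_one_mul, add_assoc, add_assoc, W4_two]
    simp only [h2]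
    rw [← Finset.mul_sum, ih (fun j => t j.succ) x, Fin.prod_univ_succ, pow_succ]
    ring

theorem sum_cos (k D : ℕ) (θ : Fin D → ℝ) (x : ℝ) :
    ∑ σ ∈ Wd k D, Real.cos (dot θ (wsum σ) + x) =
      (∑ σ ∈ Wd k D, ∏ j, Real.cos (θ (σ j).1)) * Real.cos x := by

  have h1 : ∀ σ : Fin k → Dir D, Real.cos (dot θ (wsum σ) + x) =
      (fun (c : Fin k → Fin D) (b : Fin k → Bool) => Real.cos (∑ j, (sg (b j) : ℝ) * θ (c j) + x))
        (fun j => (σ j).1) (fun j => (σ j).2) := by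
    intro σ
    rw [W4_wsum]
  have h2 : ∀ σ : Fin k → Dir D, ∏ j, Real.cos (θ (σ j).1) =
      (fun (c : Fin k → Fin D) (_ : Fin k → Bool) => ∏ j, Real.cos (θ (c j)))
        (fun j => (σ j).1) (fun j => (σ j).2) := fun σ => rfl
  have h3 := W4_split (k := k) (D := D)
    (fun (c : Fin k → Fin D) (b : Fin k → Bool) => Real.cos (∑ j, (sg (b j) : ℝ) * θ (c j) + x))
  have h4 := W4_split (k := k) (D := D)
    (fun (c : Fin k → Fin D) (_ : Fin k → Bool) => ∏ j, Real.cos (θ (c j)))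
  rw [(Finset.sum_congr rfl fun σ _ => h1 σ).trans h3, (Finset.sum_congr rfl fun σ _ => h2 σ).trans h4,
    Finset.sum_mul]
  refine Finset.sum_congr rfl fun c _ => ?_
  rw [sum_signs k (fun j => θ (c j)) x, Finset.sum_const, Finset.card_univ, Fintype.card_fun, Fintype.card_bool,
    Fintype.card_fin, nsmul_eq_mul]
  push_cast
  ring

private theorem W4_cos_neg (k D : ℕ) (θ : Fin D → ℝ) (x : ℝ) :
    ∑ σ ∈ Wd k D, Real.cos (-dot θ (wsum σ) + x) =
      (∑ σ ∈ Wd k D, ∏ j, Real.cos (θ (σ j).1)) * Real.cos x := by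
  rw [← Real.cos_neg x, ← sum_cos]
  refine Finset.sum_congr rfl fun σ _ => ?_
  rw [← Real.cos_neg]
  congr 1
  ring

theorem Pw_cos (k D : ℕ) (θ : Fin D → ℝ) (x : ℝ) (v : V D) :
    Pw k D (fun u => Real.cos (dot θ u + x)) v = Phi k D θ * Real.cos (dot θ v + x) := by

  unfold Pw Phi
  have h1 : ∀ σ : Fin k → Dir D, Real.cos (dot θ (v + wsum σ) + x) =
      Real.cos (dot θ (wsum σ) + (dot θ v + x)) := by
    intro σ
    rw [W4_add]
    congr 1
    ring
  rw [Finset.sum_congr rfl fun σ _ => h1 σ, sum_cos, mul_assoc]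

theorem Tw_cos (k D : ℕ) (θ : Fin D → ℝ) (x : ℝ) (v : V D) :
    Tw k D (fun u => Real.cos (dot θ u + x)) v = Phi k D θ ^ 2 * Real.cos (dot θ v + x) := by

  unfold Tw Phi
  have h1 : ∀ σ σ' : Fin k → Dir D, Real.cos (dot θ (v + wsum σ - wsum σ') + x) =
      Real.cos (-dot θ (wsum σ') + (dot θ (wsum σ) + (dot θ v + x))) := by
    intro σ σ'
    rw [sub_eq_add_neg, W4_add, W4_add, W4_neg]
    congr 1
    ring
  have h2 : ∀ σ : Fin k → Dir D, ∑ σ' ∈ Wd k D, Real.cos (dot θ (v + wsum σ - wsum σ') + x) =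
      (∑ σ ∈ Wd k D, ∏ j, Real.cos (θ (σ j).1)) * Real.cos (dot θ (wsum σ) + (dot θ v + x)) := by
    intro σ
    rw [Finset.sum_congr rfl fun σ' _ => h1 σ σ', W4_cos_neg]
  rw [Finset.sum_congr rfl fun σ _ => h2 σ, ← Finset.mul_sum, sum_cos, mul_pow, inv_pow]
  ring

theorem Qd_cos (D : ℕ) (hD : 1 ≤ D) (θ : Fin D → ℝ) (x : ℝ) (v : V D) :
    Qd D (fun u => Real.cos (dot θ u + x)) v = cD D θ * Real.cos (dot θ v + x) := by

  unfold Qd cD
  have h1 : ∑ δ : Dir D, Real.cos (dot θ (v + dv δ) + x) =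
      2 * (∑ c, Real.cos (θ c)) * Real.cos (dot θ v + x) := by
    rw [Fintype.sum_prod_type, Finset.mul_sum, Finset.sum_mul]
    refine Finset.sum_congr rfl fun c _ => ?_
    rw [Fintype.sum_bool, W4_add, W4_add, W4_dv, W4_dv]
    have e1 : ((sg (c, true).2 : ℤ) : ℝ) = 1 := by
      unfold sg
      simp
    have e2 : ((sg (c, false).2 : ℤ) : ℝ) = -1 := by
      unfold sg
      simp
    rw [e1, e2, one_mul, neg_one_mul]
    have e3 : dot θ v + θ c + x = θ c + (dot θ v + x) := by ring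
    have e4 : dot θ v + -θ c + x = -θ c + (dot θ v + x) := by ring
    simp only []
    rw [e3, e4, W4_two]
  have hD0 : (D : ℝ) ≠ 0 := Nat.cast_ne_zero.2 (by omega)
  rw [h1, mul_inv]
  ring

end FDr
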