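import Pool.Agent.Lib.MP_e029a2_pr.W3
import Pool.Agent.Lib.MP_e029a2_pr.W4
import Pool.Agent.Lib.MP_e029a2_pr.FR3

/-!
# Job FR6: bounds for the symbols

* `Phi` is a finite sum of products of cosines: continuous; `|Phi| ≤ 1` as `card (Wd k D) = wc k D`
  (`card_Wd`, and `wc > 0` for `k ≤ D`; if you need it, for `wc = 0` the symbol is `0`).
* `abs_Phi_le`: `|Phi| ≤ wc⁻¹ ∑_σ ∏_j |cos θ (σ j).1| ≤ wc⁻¹ ∑_σ |cos θ (σ 0).1| = (1/D) ∑_c |cos θ_c|`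
  (`sum_first`) `= 1 - osc θ / D ≤ exp (-(osc θ / D))` (`Real.add_one_le_exp`).
* `abs_cD_le`: the same.
* `Phi_ge`: if all `|θ_c| ≤ t ≤ 1` then `cos θ_c ≥ 1 - θ_c²/2 ≥ 1 - t²/2 ≥ 0`
  (`Real.one_sub_sq_div_two_le_cos`), so every product is `≥ (1 - t²/2)^k`, and the average too
  (`card_Wd`, `wc_pos`).
-/

set_option autoImplicit false

namespace FDr

open MeasureTheory
open scoped ENNReal

theorem FR6_osc (D : ℕ) (hD : 1 ≤ D) (θ : Fin D → ℝ) :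
    (D : ℝ)⁻¹ * ∑ c, |Real.cos (θ c)| ≤ Real.exp (-(osc θ / D)) := by
  have hD0 : (0 : ℝ) < D := by exact_mod_cast hD
  have h1 : (D : ℝ)⁻¹ * ∑ c, |Real.cos (θ c)| = -(osc θ / D) + 1 := by
    unfold osc
    rw [Finset.sum_sub_distrib, Finset.sum_const, Finset.card_univ, Fintype.card_fin, nsmul_eq_mul, mul_one]
    field_simp
    ring
  rw [h1]
  exact Real.add_one_le_exp _

theorem FR6_exp_le_one (D : ℕ) (θ : Fin D → ℝ) : Real.exp (-(osc θ / D)) ≤ 1 := by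
  rw [Real.exp_le_one_iff]
  have h1 : 0 ≤ osc θ / D := div_nonneg (osc_nonneg θ) (Nat.cast_nonneg D)
  linarith

theorem FR6_prod_le {k : ℕ} (hk : 0 < k) (f : Fin k → ℝ) (h0 : ∀ j, 0 ≤ f j) (h1 : ∀ j, f j ≤ 1) :
    ∏ j, f j ≤ f ⟨0, hk⟩ := by
  rw [← Finset.mul_prod_erase Finset.univ f (Finset.mem_univ ⟨0, hk⟩)]
  have h2 : ∏ j ∈ Finset.univ.erase (⟨0, hk⟩ : Fin k), f j ≤ 1 :=
    Finset.prod_le_one (fun j _ => h0 j) (fun j _ => h1 j)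
  calc f ⟨0, hk⟩ * ∏ j ∈ Finset.univ.erase (⟨0, hk⟩ : Fin k), f j ≤ f ⟨0, hk⟩ * 1 :=
        mul_le_mul_of_nonneg_left h2 (h0 _)
    _ = f ⟨0, hk⟩ := mul_one _

theorem FR6_cos {t x : ℝ} (ht : 0 ≤ t) (h : |x| ≤ t) : 1 - t ^ 2 / 2 ≤ Real.cos x := by
  have h1 := Real.one_sub_sq_div_two_le_cos (x := x)
  have h2 : x ^ 2 ≤ t ^ 2 := by
    apply sq_le_sq.2
    rwa [abs_of_nonneg ht]
  linarith

theorem continuous_Phi (k D : ℕ) : Continuous (Phi k D) := by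
  have h : Continuous fun θ : Fin D → ℝ =>
      ((wc k D : ℝ))⁻¹ * ∑ σ ∈ Wd k D, ∏ j : Fin k, Real.cos (θ (σ j).1) := by
    refine continuous_const.mul (continuous_finsetSum _ fun σ _ => continuous_finsetProd _ fun j _ => ?_)
    exact Real.continuous_cos.comp (continuous_apply _)
  exact h

theorem continuous_cD (D : ℕ) : Continuous (cD D) := by
  have h : Continuous fun θ : Fin D → ℝ => (D : ℝ)⁻¹ * ∑ c, Real.cos (θ c) := by
    refine continuous_const.mul (continuous_finsetSum _ fun c _ => ?_)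
    exact Real.continuous_cos.comp (continuous_apply _)
  exact h

theorem abs_Phi_le (k D : ℕ) (hk : 1 ≤ k) (hD : k ≤ D) (θ : Fin D → ℝ) :
    |Phi k D θ| ≤ Real.exp (-(osc θ / D)) := by
  refine le_trans ?_ (FR6_osc D (hk.trans hD) θ)
  have hw : (0 : ℝ) < wc k D := by exact_mod_cast wc_pos k D hD
  have h1 := sum_first k D hk (hk.trans hD) (fun c => |Real.cos (θ c)|)
  have h2 : |∑ σ ∈ Wd k D, ∏ j : Fin k, Real.cos (θ (σ j).1)| ≤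
      ∑ σ ∈ Wd k D, |Real.cos (θ (σ ⟨0, hk⟩).1)| := by
    refine (Finset.abs_sum_le_sum_abs _ _).trans (Finset.sum_le_sum fun σ _ => ?_)
    rw [Finset.abs_prod]
    exact FR6_prod_le hk (fun j => |Real.cos (θ (σ j).1)|) (fun j => abs_nonneg _)
      (fun j => Real.abs_cos_le_one _)
  have h3 : |Phi k D θ| = ((wc k D : ℝ))⁻¹ * |∑ σ ∈ Wd k D, ∏ j : Fin k, Real.cos (θ (σ j).1)| := by
    unfold Phi
    rw [abs_mul, abs_of_pos (inv_pos.2 hw)]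
  rw [h3]
  calc ((wc k D : ℝ))⁻¹ * |∑ σ ∈ Wd k D, ∏ j : Fin k, Real.cos (θ (σ j).1)|
      ≤ ((wc k D : ℝ))⁻¹ * ((wc k D : ℝ) / D * ∑ c, |Real.cos (θ c)|) := by
        rw [← h1]
        exact mul_le_mul_of_nonneg_left h2 (inv_pos.2 hw).le
    _ = (D : ℝ)⁻¹ * ∑ c, |Real.cos (θ c)| := by
        field_simp

theorem abs_cD_le (D : ℕ) (hD : 1 ≤ D) (θ : Fin D → ℝ) : |cD D θ| ≤ Real.exp (-(osc θ / D)) := by
  refine le_trans ?_ (FR6_osc D hD θ)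
  have hD0 : (0 : ℝ) < D := by exact_mod_cast hD
  unfold cD
  rw [abs_mul, abs_of_pos (inv_pos.2 hD0)]
  exact mul_le_mul_of_nonneg_left (Finset.abs_sum_le_sum_abs _ _) (inv_pos.2 hD0).le

theorem abs_Phi_le_one (k D : ℕ) (hk : 1 ≤ k) (hD : k ≤ D) (θ : Fin D → ℝ) : |Phi k D θ| ≤ 1 := by
  exact (abs_Phi_le k D hk hD θ).trans (FR6_exp_le_one D θ)

theorem abs_cD_le_one (D : ℕ) (hD : 1 ≤ D) (θ : Fin D → ℝ) : |cD D θ| ≤ 1 := by
  exact (abs_cD_le D hD θ).trans (FR6_exp_le_one D θ)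

theorem Phi_ge (k D : ℕ) (hD : k ≤ D) (θ : Fin D → ℝ) (t : ℝ) (ht : 0 ≤ t) (ht1 : t ≤ 1)
    (h : ∀ c, |θ c| ≤ t) : (1 - t ^ 2 / 2) ^ k ≤ Phi k D θ := by
  have hw : (0 : ℝ) < wc k D := by exact_mod_cast wc_pos k D hD
  have ht2 : 0 ≤ 1 - t ^ 2 / 2 := by nlinarith
  have h1 : ∀ σ ∈ Wd k D, (1 - t ^ 2 / 2) ^ k ≤ ∏ j : Fin k, Real.cos (θ (σ j).1) := by
    intro σ _
    calc (1 - t ^ 2 / 2) ^ k = ∏ _j : Fin k, (1 - t ^ 2 / 2) := by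
          rw [Finset.prod_const, Finset.card_univ, Fintype.card_fin]
      _ ≤ ∏ j : Fin k, Real.cos (θ (σ j).1) :=
          Finset.prod_le_prod (fun j _ => ht2) (fun j _ => FR6_cos ht (h _))
  have h2 : (wc k D : ℝ) * (1 - t ^ 2 / 2) ^ k ≤ ∑ σ ∈ Wd k D, ∏ j : Fin k, Real.cos (θ (σ j).1) := by
    have h3 := Finset.sum_le_sum h1
    rw [Finset.sum_const, card_Wd, nsmul_eq_mul] at h3
    exact h3
  unfold Phi
  rw [inv_mul_eq_div, le_div_iff₀ hw]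
  linarith

theorem cD_ge (D : ℕ) (hD : 1 ≤ D) (θ : Fin D → ℝ) (t : ℝ) (ht : 0 ≤ t) (ht1 : t ≤ 1)
    (h : ∀ c, |θ c| ≤ t) : 1 - t ^ 2 / 2 ≤ cD D θ := by
  have hD0 : (0 : ℝ) < D := by exact_mod_cast hD
  have h1 : ∀ c ∈ (Finset.univ : Finset (Fin D)), 1 - t ^ 2 / 2 ≤ Real.cos (θ c) := fun c _ => FR6_cos ht (h c)
  have h2 := Finset.sum_le_sum h1
  rw [Finset.sum_const, Finset.card_univ, Fintype.card_fin, nsmul_eq_mul] at h2
  unfold cD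
  rw [inv_mul_eq_div, le_div_iff₀ hD0]
  linarith

end FDr
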