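import Pool.Agent.Lib.MP_e029a2_pr.FR4
import Pool.Agent.Lib.MP_e029a2_pr.FR6

/-!
# Job FR5: the Fourier formulas

`Pw k D = convOp (Wd k D) (fun _ => wc⁻¹) wsum`,
`Tw k D = convOp (Wd k D ×ˢ Wd k D) (fun _ => (wc^2)⁻¹) (fun p => wsum p.1 - wsum p.2)`,
`Qd D = convOp univ (fun _ => (2D)⁻¹) dv` (funext, `Finset.mul_sum`, `Finset.sum_product`; `v + a - b =
v + (a - b)`).  The symbol hypotheses are `Pw_cos`, `Tw_cos`, `Qd_cos`; continuity and bounds from FR6.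
`ind w v = ∫ 1 * cos (dot θ (v - w))` by `int_tor_cos` (`v - w = 0 ↔ v = w`).  Apply `spectral_iter` with
`g = 1`, and for `PwQd_ind` with `g = cD ^ l`, `f = (Qd D)^[l] (ind w)`.
-/

set_option autoImplicit false

namespace FDr

open MeasureTheory
open scoped ENNReal

private theorem fr5_Pw (k D : ℕ) : Pw k D = convOp (Wd k D) (fun _ => ((wc k D : ℝ))⁻¹) wsum := by
  funext f v
  unfold Pw convOp
  rw [Finset.mul_sum]

private theorem fr5_Tw (k D : ℕ) : Tw k D =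
    convOp (Wd k D ×ˢ Wd k D) (fun _ => ((wc k D : ℝ) ^ 2)⁻¹) (fun p => wsum p.1 - wsum p.2) := by
  funext f v
  unfold Tw convOp
  rw [Finset.sum_product, Finset.mul_sum]
  refine Finset.sum_congr rfl fun σ _ => ?_
  rw [Finset.mul_sum]
  refine Finset.sum_congr rfl fun σ' _ => ?_
  rw [add_sub_assoc]

private theorem fr5_Qd (D : ℕ) : Qd D = convOp Finset.univ (fun _ => (2 * (D : ℝ))⁻¹) dv := by
  funext f v
  unfold Qd convOp
  rw [Finset.mul_sum]

private theorem fr5_ind (D : ℕ) (w v : V D) :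
    ind w v = ∫ θ, (fun _ : Fin D → ℝ => (1 : ℝ)) θ * Real.cos (dot θ (v - w)) ∂(tor D) := by
  simp only [one_mul]
  rw [int_tor_cos]
  unfold ind
  by_cases h : v = w
  · rw [if_pos h, if_pos (sub_eq_zero.2 h)]
  · rw [if_neg h, if_neg (sub_ne_zero.2 h)]

theorem Pw_ind (k D : ℕ) (hk : 1 ≤ k) (hD : k ≤ D) (N : ℕ) (w v : V D) :
    (Pw k D)^[N] (ind w) v = ∫ θ, Phi k D θ ^ N * Real.cos (dot θ (v - w)) ∂(tor D) := by
  have h1 := spectral_iter (Wd k D) (fun _ => ((wc k D : ℝ))⁻¹) wsum (Phi k D) (continuous_Phi k D)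
    (abs_Phi_le_one k D hk hD) (fun θ x v => by
      rw [← fr5_Pw]
      exact Pw_cos k D θ x v) (fun _ => 1) continuous_const (fun _ => by rw [abs_one]) w (ind w) (fr5_ind D w) N v
  rw [← fr5_Pw] at h1
  rw [h1]
  simp only [mul_one]

theorem Tw_ind (k D : ℕ) (hk : 1 ≤ k) (hD : k ≤ D) (N : ℕ) (w v : V D) :
    (Tw k D)^[N] (ind w) v = ∫ θ, (Phi k D θ ^ 2) ^ N * Real.cos (dot θ (v - w)) ∂(tor D) := by
  have h1 := spectral_iter (Wd k D ×ˢ Wd k D) (fun _ => ((wc k D : ℝ) ^ 2)⁻¹) (fun p => wsum p.1 - wsum p.2)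
    (fun θ => Phi k D θ ^ 2) ((continuous_Phi k D).pow 2)
    (fun θ => by
      rw [abs_pow]
      exact pow_le_one₀ (abs_nonneg _) (abs_Phi_le_one k D hk hD θ)) (fun θ x v => by
      rw [← fr5_Tw]
      exact Tw_cos k D θ x v) (fun _ => 1) continuous_const (fun _ => by rw [abs_one]) w (ind w) (fr5_ind D w) N v
  rw [← fr5_Tw] at h1
  rw [h1]
  simp only [mul_one]

theorem Qd_ind (D : ℕ) (hD : 1 ≤ D) (N : ℕ) (w v : V D) :
    (Qd D)^[N] (ind w) v = ∫ θ, cD D θ ^ N * Real.cos (dot θ (v - w)) ∂(tor D) := by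
  have h1 := spectral_iter Finset.univ (fun _ => (2 * (D : ℝ))⁻¹) dv (cD D) (continuous_cD D)
    (abs_cD_le_one D hD) (fun θ x v => by
      rw [← fr5_Qd]
      exact Qd_cos D hD θ x v) (fun _ => 1) continuous_const (fun _ => by rw [abs_one]) w (ind w) (fr5_ind D w) N v
  rw [← fr5_Qd] at h1
  rw [h1]
  simp only [mul_one]

theorem PwQd_ind (k D : ℕ) (hk : 1 ≤ k) (hD : k ≤ D) (N l : ℕ) (w v : V D) :
    (Pw k D)^[N] ((Qd D)^[l] (ind w)) v =
      ∫ θ, Phi k D θ ^ N * cD D θ ^ l * Real.cos (dot θ (v - w)) ∂(tor D) := by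
  have h1 := spectral_iter (Wd k D) (fun _ => ((wc k D : ℝ))⁻¹) wsum (Phi k D) (continuous_Phi k D)
    (abs_Phi_le_one k D hk hD) (fun θ x v => by
      rw [← fr5_Pw]
      exact Pw_cos k D θ x v) (fun θ => cD D θ ^ l) ((continuous_cD D).pow l)
    (fun θ => by
      rw [abs_pow]
      exact pow_le_one₀ (abs_nonneg _) (abs_cD_le_one D (hk.trans hD) θ)) w ((Qd D)^[l] (ind w))
    (Qd_ind D (hk.trans hD) l w) N v
  rw [← fr5_Pw] at h1
  exact h1

end FDr
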