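import Pool.Agent.Lib.MP_e029a2_pr.FR4
import Pool.Agent.Lib.MP_e029a2_pr.FR6

/-!
# Job FR8: the local bound `C / j^3` for the difference walk, uniformly in the dimension `D`

Let `g : Fin D → Fin 6`, `g c = c % 6`, and for `v : V D` let `pr v : V 6`, `pr v i = ∑_{c, g c = i} v c`
(additive).  Let `T6 f y = (wc^2)⁻¹ ∑_σ ∑_σ' f (y + pr (wsum σ) - pr (wsum σ'))` on functions on `V 6`
(a `convOp` over `Wd ×ˢ Wd`).
1. `(Tw k D)^[j] (f ∘ pr) = (T6^[j] f) ∘ pr` (induction); `ind w ≤ ind (pr w) ∘ pr` and `Tw` is monotone, so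
   `(Tw k D)^[j] (ind w) v ≤ T6^[j] (ind (pr w)) (pr v)`.
2. `dot θ (pr v) = dot (θ ∘ g) v`; so by `Tw_cos` with `θ ∘ g` the operator `T6` has the symbol
   `Phi k D (θ ∘ g) ^ 2`, and by `spectral_iter` (`ind y` as the integral of `cos`, `int_tor_cos`)
   `T6^[j] (ind y) y' ≤ ∫_{tor 6} (Phi k D (θ ∘ g) ^ 2)^j ≤ ∫ exp (-(2 j/D) osc (θ ∘ g))` (`abs_Phi_le`).
3. `osc (θ ∘ g) = ∑_i #{c | g c = i} (1 - |cos θ_i|) ≥ (D/7) osc θ` for `D ≥ 42` (each class has at least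
   `D/6 - 1 ≥ D/7` elements).
4. So the integral is at most `(2/√(2j/7))^6 = (14)^3 / j^3` (`int_tor_exp`, `(√(2j/7))^2 = 2j/7`:
   `64 / (2j/7)^3 = 64 * 343/8 / j^3 = 2744 / j^3`).  Take `C = 2744`, `D0 = max k 42`.
-/

set_option autoImplicit false

namespace FDr

open MeasureTheory
open scoped ENNReal

private theorem FR8_prob (D : ℕ) : IsProbabilityMeasure (tor D) := by
  have h1 : IsProbabilityMeasure circ := by
    constructor
    unfold circ
    rw [Measure.smul_apply, Measure.restrict_apply MeasurableSet.univ, Set.univ_inter, Real.volume_Ioc, smul_eq_mul,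
      show Real.pi - -Real.pi = 2 * Real.pi by ring]
    apply ENNReal.inv_mul_cancel
    · rw [Ne, ENNReal.ofReal_eq_zero, not_le]
      positivity
    · exact ENNReal.ofReal_ne_top
  unfold tor
  infer_instance

private theorem FR8_int {D : ℕ} {f : (Fin D → ℝ) → ℝ} (hf : Continuous f) (hb : ∀ θ, |f θ| ≤ 1) : Integrable f (tor D) := by
  have := FR8_prob D
  exact Integrable.of_bound hf.aestronglyMeasurable 1 (Filter.Eventually.of_forall fun θ => hb θ)

/-- The classes of the coordinates modulo `6`. -/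
private def FR8_g (D : ℕ) (c : Fin D) : Fin 6 := ⟨c.1 % 6, Nat.mod_lt _ (by norm_num)⟩

/-- The projection to `ℤ^6`. -/
private def FR8_pr {D : ℕ} (v : V D) : V 6 := fun i => ∑ c, if FR8_g D c = i then v c else 0

private theorem FR8_pr_add {D : ℕ} (v w : V D) : FR8_pr (v + w) = FR8_pr v + FR8_pr w := by
  funext i
  show (∑ c, if FR8_g D c = i then v c + w c else 0) =
    (∑ c, if FR8_g D c = i then v c else 0) + ∑ c, if FR8_g D c = i then w c else 0
  rw [← Finset.sum_add_distrib]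
  refine Finset.sum_congr rfl fun c _ => ?_
  split_ifs
  · rfl
  · rfl

private theorem FR8_pr_sub {D : ℕ} (v w : V D) : FR8_pr (v - w) = FR8_pr v - FR8_pr w := by
  have h := FR8_pr_add (v - w) w
  rw [sub_add_cancel] at h
  rw [h, add_sub_cancel_right]

private theorem FR8_dot {D : ℕ} (θ : Fin 6 → ℝ) (v : V D) : dot θ (FR8_pr v) = dot (θ ∘ FR8_g D) v := by
  unfold dot FR8_pr
  have h1 : ∀ i : Fin 6, θ i * ((∑ c, if FR8_g D c = i then v c else 0 : ℤ) : ℝ) =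
      ∑ c, if FR8_g D c = i then θ (FR8_g D c) * (v c : ℝ) else 0 := by
    intro i
    rw [Int.cast_sum, Finset.mul_sum]
    refine Finset.sum_congr rfl fun c _ => ?_
    split_ifs with h
    · rw [h]
    · rw [Int.cast_zero, mul_zero]
  rw [Finset.sum_congr rfl fun i _ => h1 i, Finset.sum_comm]
  refine Finset.sum_congr rfl fun c _ => ?_
  rw [Finset.sum_ite_eq, if_pos (Finset.mem_univ _)]
  rfl

private theorem FR8_dot_add {D : ℕ} (θ : Fin D → ℝ) (v w : V D) : dot θ (v + w) = dot θ v + dot θ w := by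
  unfold dot
  rw [← Finset.sum_add_distrib]
  refine Finset.sum_congr rfl fun c _ => ?_
  rw [Pi.add_apply, Int.cast_add, mul_add]

/-- The operator on functions on `ℤ^6`. -/
private noncomputable def FR8_u {k D : ℕ} (a : (Fin k → Dir D) × (Fin k → Dir D)) : V 6 :=
  FR8_pr (wsum a.1) - FR8_pr (wsum a.2)

private theorem FR8_conv (k D : ℕ) (f : V 6 → ℝ) (y : V 6) :
    convOp (Wd k D ×ˢ Wd k D) (fun _ => ((wc k D : ℝ) ^ 2)⁻¹) FR8_u f y =
      ((wc k D : ℝ) ^ 2)⁻¹ * ∑ σ ∈ Wd k D, ∑ σ' ∈ Wd k D, f (y + (FR8_pr (wsum σ) - FR8_pr (wsum σ'))) := by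
  unfold convOp
  rw [← Finset.mul_sum, Finset.sum_product]
  rfl

private theorem FR8_step (k D : ℕ) (w : V D) (j : ℕ) (v : V D) :
    (Tw k D)^[j] (ind w) v ≤
      (convOp (Wd k D ×ˢ Wd k D) (fun _ => ((wc k D : ℝ) ^ 2)⁻¹) FR8_u)^[j] (ind (FR8_pr w)) (FR8_pr v) := by
  induction j generalizing v with
  | zero =>
    rw [Function.iterate_zero, Function.iterate_zero, id, id]
    unfold ind
    by_cases h : v = w
    · subst h
      rw [if_pos rfl, if_pos rfl]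
    · rw [if_neg h]
      split_ifs
      · exact zero_le_one
      · exact le_rfl
  | succ j ih =>
    rw [Function.iterate_succ_apply', Function.iterate_succ_apply', FR8_conv]
    unfold Tw
    apply mul_le_mul_of_nonneg_left _ (by positivity)
    refine Finset.sum_le_sum fun σ _ => Finset.sum_le_sum fun σ' _ => ?_
    have h1 : FR8_pr v + (FR8_pr (wsum σ) - FR8_pr (wsum σ')) = FR8_pr (v + wsum σ - wsum σ') := by
      rw [FR8_pr_sub, FR8_pr_add]
      abel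
    rw [h1]
    exact ih _

private theorem FR8_sym (k D : ℕ) (θ : Fin 6 → ℝ) (x : ℝ) (v : V 6) :
    convOp (Wd k D ×ˢ Wd k D) (fun _ => ((wc k D : ℝ) ^ 2)⁻¹) FR8_u (fun v => Real.cos (dot θ v + x)) v =
      Phi k D (θ ∘ FR8_g D) ^ 2 * Real.cos (dot θ v + x) := by
  have h1 := Tw_cos k D (θ ∘ FR8_g D) (dot θ v + x) 0
  have h0 : dot (θ ∘ FR8_g D) (0 : V D) = 0 := by
    unfold dot
    exact Finset.sum_eq_zero fun c _ => by rw [Pi.zero_apply, Int.cast_zero, mul_zero]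
  rw [h0, zero_add] at h1
  rw [← h1, FR8_conv]
  unfold Tw
  congr 1
  refine Finset.sum_congr rfl fun σ _ => Finset.sum_congr rfl fun σ' _ => ?_
  congr 1
  rw [← FR8_pr_sub, FR8_dot_add, FR8_dot, zero_add]
  ring

/-- The classes modulo `6` have at least `D / 7` elements. -/
private theorem FR8_osc (D : ℕ) (hD : 42 ≤ D) (θ : Fin 6 → ℝ) : (D : ℝ) / 7 * osc θ ≤ osc (θ ∘ FR8_g D) := by
  unfold osc
  set F : Fin D → ℝ := fun c => 1 - |Real.cos ((θ ∘ FR8_g D) c)| with hF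
  have hF0 : ∀ c, 0 ≤ F c := fun c => sub_nonneg.2 (Real.abs_cos_le_one _)
  have hlt : ∀ x : Fin (D / 6) × Fin 6, 6 * x.1.1 + x.2.1 < D := by
    intro x
    have h1 := x.1.2
    have h2 := x.2.2
    omega
  set e : Fin (D / 6) × Fin 6 → Fin D := fun x => ⟨6 * x.1.1 + x.2.1, hlt x⟩ with he
  have hinj : Function.Injective e := by
    rintro ⟨a, i⟩ ⟨b, j⟩ h
    have h1 : 6 * a.1 + i.1 = 6 * b.1 + j.1 := congrArg Fin.val h
    have h2 := i.2
    have h3 := j.2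
    have h4 : a.1 = b.1 := by omega
    have h5 : i.1 = j.1 := by omega
    exact Prod.ext (Fin.ext h4) (Fin.ext h5)
  have h1 : ∑ x : Fin (D / 6) × Fin 6, F (e x) ≤ ∑ c, F c := by
    have h2 : ∑ x : Fin (D / 6) × Fin 6, F (e x) = ∑ c ∈ Finset.univ.map ⟨e, hinj⟩, F c :=
      (Finset.sum_map Finset.univ ⟨e, hinj⟩ F).symm
    rw [h2]
    exact Finset.sum_le_univ_sum_of_nonneg hF0
  have h2 : ∑ x : Fin (D / 6) × Fin 6, F (e x) = ((D / 6 : ℕ) : ℝ) * ∑ i, (1 - |Real.cos (θ i)|) := by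
    rw [Fintype.sum_prod_type]
    have h3 : ∀ a : Fin (D / 6), ∑ i : Fin 6, F (e (a, i)) = ∑ i, (1 - |Real.cos (θ i)|) := by
      intro a
      refine Finset.sum_congr rfl fun i _ => ?_
      have h4 : FR8_g D (e (a, i)) = i := by
        apply Fin.ext
        show (6 * a.1 + i.1) % 6 = i.1
        have := i.2
        omega
      show 1 - |Real.cos (θ (FR8_g D (e (a, i))))| = _
      rw [h4]
    rw [Finset.sum_congr rfl fun a _ => h3 a, Finset.sum_const, Finset.card_univ, Fintype.card_fin, nsmul_eq_mul]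
  have h3 : (D : ℝ) / 7 ≤ ((D / 6 : ℕ) : ℝ) := by
    have h4 : D ≤ 7 * (D / 6) := by omega
    have h5 : (D : ℝ) ≤ 7 * ((D / 6 : ℕ) : ℝ) := by exact_mod_cast h4
    linarith
  have h4 : 0 ≤ ∑ i, (1 - |Real.cos (θ i)|) := Finset.sum_nonneg fun i _ => sub_nonneg.2 (Real.abs_cos_le_one _)
  calc (D : ℝ) / 7 * ∑ i, (1 - |Real.cos (θ i)|) ≤ ((D / 6 : ℕ) : ℝ) * ∑ i, (1 - |Real.cos (θ i)|) :=
        mul_le_mul_of_nonneg_right h3 h4
    _ ≤ ∑ c, F c := h2 ▸ h1

theorem Tw_unif (k : ℕ) (hk : 1 ≤ k) : ∃ D0 : ℕ, ∀ D : ℕ, D0 ≤ D → ∀ j : ℕ, 1 ≤ j → ∀ w v : V D,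
    (Tw k D)^[j] (ind w) v ≤ 2744 / (j : ℝ) ^ 3 := by
  refine ⟨k + 42, fun D hD j hj w v => ?_⟩
  have hjR : (0 : ℝ) < j := by exact_mod_cast hj
  have hkD : k ≤ D := by omega
  have hD42 : 42 ≤ D := by omega
  have hDR : (0 : ℝ) < D := by exact_mod_cast (by omega : 0 < D)
  have hg : Continuous fun θ : Fin 6 → ℝ => θ ∘ FR8_g D :=
    continuous_pi fun c => continuous_apply (FR8_g D c)
  have hs : Continuous fun θ : Fin 6 → ℝ => Phi k D (θ ∘ FR8_g D) ^ 2 := ((continuous_Phi k D).comp hg).pow 2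
  have hs1 : ∀ θ : Fin 6 → ℝ, |Phi k D (θ ∘ FR8_g D) ^ 2| ≤ 1 := by
    intro θ
    rw [abs_pow]
    exact pow_le_one₀ (abs_nonneg _) (abs_Phi_le_one k D hk hkD _)
  have hind : ∀ y : V 6, ind (FR8_pr w) y = ∫ θ, (1 : ℝ) * Real.cos (dot θ (y - FR8_pr w)) ∂(tor 6) := by
    intro y
    have h1 : ∫ θ, (1 : ℝ) * Real.cos (dot θ (y - FR8_pr w)) ∂(tor 6) = if y - FR8_pr w = 0 then 1 else 0 := by
      rw [← int_tor_cos]
      simp only [one_mul]
    rw [h1]
    unfold ind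
    simp only [sub_eq_zero]
  have h1 := FR8_step k D w j v
  rw [spectral_iter (Wd k D ×ˢ Wd k D) (fun _ => ((wc k D : ℝ) ^ 2)⁻¹) FR8_u (fun θ => Phi k D (θ ∘ FR8_g D) ^ 2) hs hs1
    (FR8_sym k D) (fun _ => 1) continuous_const (fun _ => by rw [abs_one]) (FR8_pr w) (ind (FR8_pr w)) hind j (FR8_pr v)] at h1
  refine h1.trans ?_
  -- the comparison with the exponential function
  have hl : 0 < 2 * (j : ℝ) / 7 := by positivity
  have h2 := int_tor_exp 6 (2 * (j : ℝ) / 7) hl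
  have hpt : ∀ θ : Fin 6 → ℝ, (Phi k D (θ ∘ FR8_g D) ^ 2) ^ j * 1 * Real.cos (dot θ (FR8_pr v - FR8_pr w)) ≤
      Real.exp (-(2 * (j : ℝ) / 7 * osc θ)) := by
    intro θ
    have h3 : (Phi k D (θ ∘ FR8_g D) ^ 2) ^ j * 1 * Real.cos (dot θ (FR8_pr v - FR8_pr w)) ≤ (Phi k D (θ ∘ FR8_g D) ^ 2) ^ j := by
      rw [mul_one]
      exact mul_le_of_le_one_right (by positivity) (Real.cos_le_one _)
    have h4 : (Phi k D (θ ∘ FR8_g D) ^ 2) ^ j ≤ (Real.exp (-(osc (θ ∘ FR8_g D) / D)) ^ 2) ^ j := by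
      rw [← sq_abs (Phi k D (θ ∘ FR8_g D))]
      exact pow_le_pow_left₀ (by positivity) (pow_le_pow_left₀ (abs_nonneg _) (abs_Phi_le k D hk hkD _) 2) j
    have h5 : (Real.exp (-(osc (θ ∘ FR8_g D) / D)) ^ 2) ^ j = Real.exp (-(2 * (j : ℝ) / D * osc (θ ∘ FR8_g D))) := by
      rw [← pow_mul, ← Real.exp_nat_mul]
      congr 1
      push_cast
      field_simp
    have h6 : Real.exp (-(2 * (j : ℝ) / D * osc (θ ∘ FR8_g D))) ≤ Real.exp (-(2 * (j : ℝ) / 7 * osc θ)) := by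
      rw [Real.exp_le_exp, neg_le_neg_iff]
      have h7 := mul_le_mul_of_nonneg_left (FR8_osc D hD42 θ) (by positivity : 0 ≤ 2 * (j : ℝ) / D)
      have h8 : 2 * (j : ℝ) / D * ((D : ℝ) / 7 * osc θ) = 2 * (j : ℝ) / 7 * osc θ := by
        field_simp
      linarith
    linarith
  have hint1 : Integrable (fun θ : Fin 6 → ℝ => (Phi k D (θ ∘ FR8_g D) ^ 2) ^ j * 1 * Real.cos (dot θ (FR8_pr v - FR8_pr w))) (tor 6) := by
    apply FR8_int
    · refine ((hs.pow j).mul continuous_const).mul (Real.continuous_cos.comp ?_)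
      unfold dot
      exact continuous_finsetSum _ fun c _ => (continuous_apply c).mul continuous_const
    · intro θ
      rw [mul_one, abs_mul, abs_pow]
      exact mul_le_one₀ (pow_le_one₀ (abs_nonneg _) (hs1 θ)) (abs_nonneg _) (Real.abs_cos_le_one _)
  have hint2 : Integrable (fun θ : Fin 6 → ℝ => Real.exp (-(2 * (j : ℝ) / 7 * osc θ))) (tor 6) := by
    apply FR8_int
    · exact Real.continuous_exp.comp ((continuous_const.mul (continuous_osc 6)).neg)
    · intro θ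
      rw [abs_of_pos (Real.exp_pos _), Real.exp_le_one_iff, neg_nonpos]
      exact mul_nonneg hl.le (osc_nonneg θ)
  have h3 := integral_mono hint1 hint2 hpt
  refine h3.trans (h2.trans (le_of_eq ?_))
  have h4 : Real.sqrt (2 * (j : ℝ) / 7) ^ 6 = (2 * (j : ℝ) / 7) ^ 3 := by
    calc Real.sqrt (2 * (j : ℝ) / 7) ^ 6 = (Real.sqrt (2 * (j : ℝ) / 7) ^ 2) ^ 3 := by ring
      _ = (2 * (j : ℝ) / 7) ^ 3 := by rw [Real.sq_sqrt hl.le]
  rw [div_pow, h4]
  field_simp
  norm_num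

end FDr
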