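import Pool.Agent.Lib.MP_e029a2_pr.GDef

/-!
# A point with polynomial weight
-/

set_option autoImplicit false

namespace FDr

private theorem sum_lst_r {A : Type*} [DecidableEq A] (S : Finset A) (n : ℕ) (f : List A → ℝ) :
    ∑ l ∈ lst S (n + 1), f l = ∑ a ∈ S, ∑ l ∈ lst S n, f (a :: l) := by
  show ∑ l ∈ (S ×ˢ lst S n).image (fun p => p.1 :: p.2), f l = _
  rw [Finset.sum_image, Finset.sum_product]
  rintro ⟨a, l⟩ _ ⟨a', l'⟩ _ h
  have h1 : a :: l = a' :: l' := h
  rw [List.cons.injEq] at h1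
  exact Prod.ext h1.1 h1.2

private theorem mem_lst_r {A : Type*} [DecidableEq A] (S : Finset A) (n : ℕ) (l : List A) (h : l ∈ lst S n) :
    ∀ a ∈ l, a ∈ S := by
  induction n generalizing l with
  | zero =>
    have h1 : l = [] := Finset.mem_singleton.1 h
    rw [h1]
    exact fun a ha => absurd ha List.not_mem_nil
  | succ n ih =>
    have h1 : l ∈ (S ×ˢ lst S n).image (fun p => p.1 :: p.2) := h
    rw [Finset.mem_image] at h1
    obtain ⟨⟨a, l'⟩, h2, rfl⟩ := h1
    rw [Finset.mem_product] at h2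
    intro b hb
    rcases List.mem_cons.1 hb with rfl | hb
    · exact h2.1
    · exact ih l' h2.2 b hb

private theorem moments {A : Type*} [DecidableEq A] (K : Finset A) (k : A → ℤ) (p : A → ℝ) (L : ℕ)
    (hp : ∀ a ∈ K, 0 ≤ p a) (hp1 : ∑ a ∈ K, p a = 1) (hp0 : ∑ a ∈ K, p a * k a = 0) (hk : ∀ a ∈ K, |k a| ≤ L) (n : ℕ) :
    ∑ l ∈ lst K n, (l.map p).prod = 1 ∧ ∑ l ∈ lst K n, (l.map p).prod * ((l.map k).sum : ℝ) = 0 ∧
      ∑ l ∈ lst K n, (l.map p).prod * ((l.map k).sum : ℝ) ^ 2 ≤ n * (L : ℝ) ^ 2 := by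
  induction n with
  | zero =>
    have h1 : lst K 0 = {[]} := rfl
    rw [h1, Finset.sum_singleton, Finset.sum_singleton, Finset.sum_singleton]
    simp
  | succ n ih =>
    obtain ⟨i0, i1, i2⟩ := ih
    rw [sum_lst_r, sum_lst_r, sum_lst_r]
    have hsq : ∑ a ∈ K, p a * (k a : ℝ) ^ 2 ≤ (L : ℝ) ^ 2 := by
      calc ∑ a ∈ K, p a * (k a : ℝ) ^ 2 ≤ ∑ a ∈ K, p a * (L : ℝ) ^ 2 := by
            refine Finset.sum_le_sum fun a ha => mul_le_mul_of_nonneg_left ?_ (hp a ha)
            have h1 := hk a ha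
            have h2 : |(k a : ℝ)| ≤ (L : ℝ) := by exact_mod_cast h1
            rw [← sq_abs]
            exact pow_le_pow_left₀ (abs_nonneg _) h2 2
        _ = (L : ℝ) ^ 2 := by rw [← Finset.sum_mul, hp1, one_mul]
    have e0 : ∀ a, ∑ l ∈ lst K n, ((a :: l).map p).prod = p a := by
      intro a
      rw [Finset.sum_congr rfl fun l _ => by rw [List.map_cons, List.prod_cons], ← Finset.mul_sum, i0, mul_one]
    have e1 : ∀ a, ∑ l ∈ lst K n, ((a :: l).map p).prod * (((a :: l).map k).sum : ℝ) = p a * k a := by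
      intro a
      have : ∀ l ∈ lst K n, ((a :: l).map p).prod * (((a :: l).map k).sum : ℝ) =
          p a * k a * (l.map p).prod + p a * ((l.map p).prod * ((l.map k).sum : ℝ)) := by
        intro l _
        rw [List.map_cons, List.prod_cons, List.map_cons, List.sum_cons]
        push_cast
        ring
      rw [Finset.sum_congr rfl this, Finset.sum_add_distrib, ← Finset.mul_sum, ← Finset.mul_sum, i0, i1]
      ring
    have e2 : ∀ a, ∑ l ∈ lst K n, ((a :: l).map p).prod * (((a :: l).map k).sum : ℝ) ^ 2 =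
        p a * (k a : ℝ) ^ 2 + p a * ∑ l ∈ lst K n, (l.map p).prod * ((l.map k).sum : ℝ) ^ 2 := by
      intro a
      have : ∀ l ∈ lst K n, ((a :: l).map p).prod * (((a :: l).map k).sum : ℝ) ^ 2 =
          p a * (k a : ℝ) ^ 2 * (l.map p).prod + (2 * p a * k a * ((l.map p).prod * ((l.map k).sum : ℝ)) +
            p a * ((l.map p).prod * ((l.map k).sum : ℝ) ^ 2)) := by
        intro l _
        rw [List.map_cons, List.prod_cons, List.map_cons, List.sum_cons]
        push_cast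
        ring
      rw [Finset.sum_congr rfl this, Finset.sum_add_distrib, Finset.sum_add_distrib, ← Finset.mul_sum,
        ← Finset.mul_sum, ← Finset.mul_sum, i0, i1]
      ring
    refine ⟨?_, ?_, ?_⟩
    · rw [Finset.sum_congr rfl fun a _ => e0 a, hp1]
    · rw [Finset.sum_congr rfl fun a _ => e1 a, hp0]
    · rw [Finset.sum_congr rfl fun a _ => e2 a, Finset.sum_add_distrib, ← Finset.sum_mul, hp1, one_mul, Nat.cast_succ]
      linarith

theorem exists_z {A : Type*} [DecidableEq A] (K : Finset A) (k : A → ℤ) (p : A → ℝ) (L : ℕ) (hL : 1 ≤ L)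
    (hp : ∀ a ∈ K, 0 ≤ p a) (hp1 : ∑ a ∈ K, p a = 1) (hp0 : ∑ a ∈ K, p a * k a = 0) (hk : ∀ a ∈ K, |k a| ≤ L) (n : ℕ) :
    ∃ z : ℤ, |(z : ℝ)| ≤ 2 * L * (Real.sqrt n + 1) ∧ 1 / (16 * L * (Real.sqrt n + 1)) ≤ Zn K k p n z := by
  obtain ⟨m0, m1, m2⟩ := moments K k p L hp hp1 hp0 hk n
  have hL' : (1 : ℝ) ≤ L := by exact_mod_cast hL
  have hs := Real.sqrt_nonneg (n : ℝ)
  set q : ℝ := L * (Real.sqrt n + 1) with hq
  have hq1 : 1 ≤ q := by nlinarith
  have hprod : ∀ l ∈ lst K n, 0 ≤ (l.map p).prod := by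
    intro l hl
    refine List.prod_nonneg fun x hx => ?_
    obtain ⟨a, ha, rfl⟩ := List.mem_map.1 hx
    exact hp a (mem_lst_r K n l hl a ha)
  -- Chebyshev
  set near := (lst K n).filter fun l => |((l.map k).sum : ℝ)| ≤ 2 * q with hnear
  have hfar : ∑ l ∈ (lst K n).filter (fun l => ¬ |((l.map k).sum : ℝ)| ≤ 2 * q), (l.map p).prod ≤ 1 / 4 := by
    have h1 : (2 * q) ^ 2 * ∑ l ∈ (lst K n).filter (fun l => ¬ |((l.map k).sum : ℝ)| ≤ 2 * q), (l.map p).prod ≤
        n * (L : ℝ) ^ 2 := by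
      rw [Finset.mul_sum]
      calc ∑ l ∈ (lst K n).filter (fun l => ¬ |((l.map k).sum : ℝ)| ≤ 2 * q), (2 * q) ^ 2 * (l.map p).prod
          ≤ ∑ l ∈ (lst K n).filter (fun l => ¬ |((l.map k).sum : ℝ)| ≤ 2 * q),
            (l.map p).prod * ((l.map k).sum : ℝ) ^ 2 := by
            refine Finset.sum_le_sum fun l hl => ?_
            rw [Finset.mem_filter] at hl
            have h2 : 2 * q ≤ |((l.map k).sum : ℝ)| := (not_le.1 hl.2).le
            have h3 : (2 * q) ^ 2 ≤ ((l.map k).sum : ℝ) ^ 2 := by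
              rw [← sq_abs ((l.map k).sum : ℝ)]
              exact pow_le_pow_left₀ (by linarith) h2 2
            have h4 := mul_le_mul_of_nonneg_left h3 (hprod l hl.1)
            linarith
        _ ≤ ∑ l ∈ lst K n, (l.map p).prod * ((l.map k).sum : ℝ) ^ 2 :=
            Finset.sum_le_sum_of_subset_of_nonneg (Finset.filter_subset _ _) fun l hl _ =>
              mul_nonneg (hprod l hl) (sq_nonneg _)
        _ ≤ _ := m2
    have h2 : (n : ℝ) * (L : ℝ) ^ 2 ≤ q ^ 2 := by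
      have h3 : (n : ℝ) = Real.sqrt n ^ 2 := (Real.sq_sqrt (Nat.cast_nonneg n)).symm
      rw [hq, mul_pow]
      nlinarith [sq_nonneg (L : ℝ)]
    have h3 : 0 < q ^ 2 := by positivity
    have h4 : (2 * q) ^ 2 = 4 * q ^ 2 := by ring
    rw [h4] at h1
    by_contra h5
    have h6 := not_le.1 h5
    nlinarith
  have hnear1 : 3 / 4 ≤ ∑ l ∈ near, (l.map p).prod := by
    have h1 := Finset.sum_filter_add_sum_filter_not (lst K n) (fun l => |((l.map k).sum : ℝ)| ≤ 2 * q)
      (fun l => (l.map p).prod)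
    rw [m0] at h1
    linarith
  -- the values of the sum
  set R : ℤ := ⌊2 * q⌋ with hR
  have hR0 : 0 ≤ R := by
    rw [hR]
    exact Int.floor_nonneg.2 (by linarith)
  have hsplit : ∑ l ∈ near, (l.map p).prod ≤ ∑ z ∈ Finset.Icc (-R) R, Zn K k p n z := by
    have h1 : ∀ l ∈ near, (l.map k).sum ∈ Finset.Icc (-R) R := by
      intro l hl
      rw [hnear, Finset.mem_filter] at hl
      have h2 := abs_le.1 hl.2
      rw [Finset.mem_Icc]
      constructor
      · have h3 : -((l.map k).sum : ℝ) ≤ 2 * q := by linarith [h2.1]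
        have h4 : -(l.map k).sum ≤ R := Int.le_floor.2 (by rw [Int.cast_neg]; exact h3)
        linarith
      · exact Int.le_floor.2 h2.2
    rw [← Finset.sum_fiberwise_of_maps_to h1]
    refine Finset.sum_le_sum fun z _ => ?_
    unfold Zn
    refine Finset.sum_le_sum_of_subset_of_nonneg ?_ fun l hl _ => hprod l (Finset.mem_filter.1 hl).1
    intro l hl
    rw [Finset.mem_filter] at hl ⊢
    exact ⟨(Finset.mem_filter.1 hl.1).1, hl.2⟩
  by_contra hcon
  push Not at hcon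
  have hq16 : 16 * (L : ℝ) * (Real.sqrt n + 1) = 16 * q := by
    rw [hq]
    ring
  have hq2 : 2 * (L : ℝ) * (Real.sqrt n + 1) = 2 * q := by
    rw [hq]
    ring
  have h1 : ∑ z ∈ Finset.Icc (-R) R, Zn K k p n z ≤ ∑ z ∈ Finset.Icc (-R) R, 1 / (16 * q) := by
    refine Finset.sum_le_sum fun z hz => ?_
    rw [Finset.mem_Icc] at hz
    have h2 : |(z : ℝ)| ≤ 2 * q := by
      have h3 : (R : ℝ) ≤ 2 * q := Int.floor_le _
      rw [abs_le]
      have h4 : (-(R : ℝ)) ≤ z := by exact_mod_cast hz.1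
      have h5 : (z : ℝ) ≤ R := by exact_mod_cast hz.2
      exact ⟨by linarith, by linarith⟩
    have h3 := hcon z (by rw [hq2]; exact h2)
    rw [hq16] at h3
    exact h3.le
  rw [Finset.sum_const, Int.card_Icc, nsmul_eq_mul] at h1
  have h2 : (((R + 1 - -R).toNat : ℕ) : ℝ) = 2 * R + 1 := by
    have h3 : (((R + 1 - -R).toNat : ℕ) : ℤ) = 2 * R + 1 := by
      rw [Int.toNat_of_nonneg (by linarith)]
      ring
    exact_mod_cast h3
  rw [h2] at h1
  have h3 : (R : ℝ) ≤ 2 * q := Int.floor_le _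
  have h4 : (2 * (R : ℝ) + 1) * (1 / (16 * q)) ≤ 5 / 16 := by
    rw [mul_one_div, div_le_div_iff₀ (by positivity) (by norm_num)]
    nlinarith
  linarith

end FDr
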