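import Pool.Agent.Lib.MP_e029a2_pr.GMin
import Pool.Agent.Lib.MP_e029a2_pr.GChb

/-!
# The weight of the returns to zero exceeds one (job GRet)

Assume `∑ a ∈ K, W a * s ^ k a > 1` for all `s > 0`, `|k a| ≤ L`, and `a₁, a₂ ∈ K` with `k = 1, -1` and positive weights.
Let `s` be as in `exists_min`, `θ = ∑ W a s^(k a) > 1`, `p a = W a * s ^ k a / θ`: a probability with mean 0.
(1) `Zn K k p n z = θ^(-n) * s^z * Zn K k W n z` (termwise).
(2) `Zn K k p (n + 1) z ≥ p a * Zn K k p n (z - k a)` for `a ∈ K` (the lists which start with `a`), so with `ε = min (p a₁)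
(p a₂) > 0`: `Zn K k p (n + j) 0 ≥ ε ^ j * Zn K k p n z` for `j = |z|` (take `j` times `a₂` if `z > 0`, `a₁` if `z < 0`).
(3) With `exists_z`: `Zn K k W (n + j) 0 = θ^(n+j) * Zn K k p (n + j) 0 ≥ θ^n * ε^j / (16 L (√n + 1))`, `j ≤ 2 L (√n + 1)`;
the logarithm is `≥ n log θ - 2 L (√n + 1) log (1/ε) - log (16 L (√n + 1)) → ∞`; so it is `> 1` for some `n ≥ 1`
(take `n = m^2` for a clean computation: `θ^(m^2) ≥ ...`).
-/

set_option autoImplicit false

namespace FDr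

private theorem GRet_len {A : Type*} [DecidableEq A] (K : Finset A) (n : ℕ) :
    ∀ l ∈ lst K n, l.length = n := by
  induction n with
  | zero =>
    intro l hl
    rw [lst, Finset.mem_singleton] at hl
    rw [hl, List.length_nil]
  | succ n ih =>
    intro l hl
    rw [lst, Finset.mem_image] at hl
    obtain ⟨p, hp, rfl⟩ := hl
    rw [Finset.mem_product] at hp
    rw [List.length_cons, ih _ hp.2]

private theorem GRet_succ {A : Type*} [DecidableEq A] (K : Finset A) (k : A → ℤ) (W : A → ℝ) (n : ℕ) (z : ℤ) :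
    Zn K k W (n + 1) z = ∑ a ∈ K, W a * Zn K k W n (z - k a) := by
  unfold Zn
  have hinj : Set.InjOn (fun p : A × List A => p.1 :: p.2) (K ×ˢ lst K n : Finset (A × List A)) := by
    intro p _ q _ h
    simp only [List.cons.injEq] at h
    exact Prod.ext h.1 h.2
  rw [Finset.sum_filter, lst, Finset.sum_image hinj, Finset.sum_product]
  refine Finset.sum_congr rfl fun a _ => ?_
  rw [Finset.sum_filter, Finset.mul_sum]
  refine Finset.sum_congr rfl fun l _ => ?_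
  have h1 : (((a :: l).map k).sum = z) ↔ ((l.map k).sum = z - k a) := by
    rw [List.map_cons, List.sum_cons]
    constructor <;> intro h <;> linarith
  by_cases h : (l.map k).sum = z - k a
  · rw [if_pos h, if_pos (h1.2 h), List.map_cons, List.prod_cons]
  · rw [if_neg h, if_neg (fun h' => h (h1.1 h')), mul_zero]

private theorem GRet_nonneg {A : Type*} [DecidableEq A] (K : Finset A) (k : A → ℤ) (W : A → ℝ)
    (hW : ∀ a ∈ K, 0 ≤ W a) (n : ℕ) : ∀ z : ℤ, 0 ≤ Zn K k W n z := by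
  induction n with
  | zero =>
    intro z
    unfold Zn
    rw [Finset.sum_filter, lst, Finset.sum_singleton]
    split_ifs <;> simp
  | succ n ih =>
    intro z
    rw [GRet_succ]
    exact Finset.sum_nonneg fun a ha => mul_nonneg (hW a ha) (ih _)

private theorem GRet_step {A : Type*} [DecidableEq A] (K : Finset A) (k : A → ℤ) (W : A → ℝ)
    (hW : ∀ a ∈ K, 0 ≤ W a) (n : ℕ) (z : ℤ) (a : A) (ha : a ∈ K) :
    W a * Zn K k W n (z - k a) ≤ Zn K k W (n + 1) z := by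
  rw [GRet_succ]
  exact Finset.single_le_sum (f := fun a => W a * Zn K k W n (z - k a))
    (fun b hb => mul_nonneg (hW b hb) (GRet_nonneg K k W hW n _)) ha

private theorem GRet_steps {A : Type*} [DecidableEq A] (K : Finset A) (k : A → ℤ) (W : A → ℝ)
    (hW : ∀ a ∈ K, 0 ≤ W a) (n : ℕ) (a : A) (ha : a ∈ K) (j : ℕ) :
    ∀ z : ℤ, W a ^ j * Zn K k W n (z - j * k a) ≤ Zn K k W (n + j) z := by
  induction j with
  | zero =>
    intro z
    simp
  | succ j ih =>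
    intro z
    have h1 := ih (z - k a)
    have h2 := GRet_step K k W hW (n + j) z a ha
    have h3 : z - k a - j * k a = z - ((j + 1 : ℕ) : ℤ) * k a := by push_cast; ring
    rw [h3] at h1
    calc W a ^ (j + 1) * Zn K k W n (z - ((j + 1 : ℕ) : ℤ) * k a)
        = W a * (W a ^ j * Zn K k W n (z - ((j + 1 : ℕ) : ℤ) * k a)) := by ring
      _ ≤ W a * Zn K k W (n + j) (z - k a) := mul_le_mul_of_nonneg_left h1 (hW a ha)
      _ ≤ Zn K k W (n + j + 1) z := h2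

private theorem GRet_tilt {A : Type*} [DecidableEq A] (K : Finset A) (k : A → ℤ) (W : A → ℝ) (s θ : ℝ)
    (hs : 0 < s) (hθ : 0 < θ) (n : ℕ) (z : ℤ) :
    Zn K k (fun a => W a * s ^ k a / θ) n z = s ^ z / θ ^ n * Zn K k W n z := by
  unfold Zn
  rw [Finset.mul_sum]
  refine Finset.sum_congr rfl fun l hl => ?_
  rw [Finset.mem_filter] at hl
  have key : ∀ l : List A, (l.map (fun a => W a * s ^ k a / θ)).prod
      = s ^ (l.map k).sum / θ ^ l.length * (l.map W).prod := by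
    intro l
    induction l with
    | nil => simp
    | cons a l ih =>
      rw [List.map_cons, List.prod_cons, ih, List.map_cons, List.sum_cons, List.length_cons, List.map_cons,
        List.prod_cons, zpow_add₀ hs.ne', pow_succ]
      field_simp
  rw [key, hl.2, GRet_len K n l hl.1]

theorem exists_ret {A : Type*} [DecidableEq A] (K : Finset A) (k : A → ℤ) (W : A → ℝ) (L : ℕ) (hL : 1 ≤ L)
    (hW : ∀ a ∈ K, 0 ≤ W a) (hk : ∀ a ∈ K, |k a| ≤ L) (a₁ a₂ : A) (h1 : a₁ ∈ K) (h2 : a₂ ∈ K) (hk1 : k a₁ = 1)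
    (hk2 : k a₂ = -1) (hW1 : 0 < W a₁) (hW2 : 0 < W a₂) (hs : ∀ s : ℝ, 0 < s → 1 < ∑ a ∈ K, W a * s ^ k a) :
    ∃ n : ℕ, 1 ≤ n ∧ 1 < Zn K k W n 0 := by
  obtain ⟨s, hs0, hmin⟩ := exists_min K k W hW a₁ a₂ h1 h2 hk1 hk2 hW1 hW2
  have hθ := hs s hs0
  generalize hθd : ∑ a ∈ K, W a * s ^ k a = θ at hθ
  have hθ0 : 0 < θ := by linarith
  have hspos : ∀ a, 0 < s ^ k a := fun a => zpow_pos hs0 _
  have hp : ∀ a ∈ K, 0 ≤ W a * s ^ k a / θ := fun a ha =>
    div_nonneg (mul_nonneg (hW a ha) (hspos a).le) hθ0.le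
  have hp1 : ∑ a ∈ K, W a * s ^ k a / θ = 1 := by
    rw [← Finset.sum_div, hθd, div_self hθ0.ne']
  have hp0 : ∑ a ∈ K, W a * s ^ k a / θ * (k a : ℝ) = 0 := by
    have : ∀ a ∈ K, W a * s ^ k a / θ * (k a : ℝ) = W a * (k a : ℝ) * s ^ k a / θ := fun a _ => by ring
    rw [Finset.sum_congr rfl this, ← Finset.sum_div, hmin, zero_div]
  have hple : ∀ a ∈ K, W a * s ^ k a / θ ≤ 1 := fun a ha => by
    rw [← hp1]
    exact Finset.single_le_sum (f := fun a => W a * s ^ k a / θ) hp ha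
  -- the constants
  have hP1 : 0 < W a₁ * s ^ k a₁ / θ := div_pos (mul_pos hW1 (hspos _)) hθ0
  have hP2 : 0 < W a₂ * s ^ k a₂ / θ := div_pos (mul_pos hW2 (hspos _)) hθ0
  obtain ⟨ε, hε0, hε1, hεa, hεb⟩ : ∃ ε : ℝ, 0 < ε ∧ ε ≤ 1 ∧ ε ≤ W a₁ * s ^ k a₁ / θ ∧ ε ≤ W a₂ * s ^ k a₂ / θ :=
    ⟨min (W a₁ * s ^ k a₁ / θ) (W a₂ * s ^ k a₂ / θ), lt_min hP1 hP2,
      (min_le_left _ _).trans (hple a₁ h1), min_le_left _ _, min_le_right _ _⟩
  have hL0 : (0 : ℝ) < L := by exact_mod_cast hL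
  have hεc : 0 < ε ^ (2 * L) := pow_pos hε0 _
  have hεc1 : ε ^ (2 * L) ≤ 1 := pow_le_one₀ hε0.le hε1
  obtain ⟨m, hm⟩ := pow_unbounded_of_one_lt ((1 + 32 * L / ε ^ (2 * L)) / ε ^ (2 * L)) hθ
  have hA : 1 + 32 * L / ε ^ (2 * L) < θ ^ m * ε ^ (2 * L) := by
    rw [div_lt_iff₀ hεc] at hm
    exact hm
  have hB0 : 0 < 32 * L / ε ^ (2 * L) := by positivity
  have hm1 : 1 ≤ m := by
    rcases Nat.eq_zero_or_pos m with h0 | h0
    · exfalso
      rw [h0, pow_zero, one_mul] at hA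
      linarith
    · exact h0
  have hm1' : (1 : ℝ) ≤ m := by exact_mod_cast hm1
  obtain ⟨z, hz, hZ⟩ := exists_z K k (fun a => W a * s ^ k a / θ) L hL hp hp1 hp0 hk (m ^ 2)
  have hsqrt : Real.sqrt ((m ^ 2 : ℕ) : ℝ) = m := by
    push_cast
    exact Real.sqrt_sq (by positivity)
  rw [hsqrt] at hz hZ
  -- steps to zero
  have hz0 : 0 ≤ Zn K k (fun a => W a * s ^ k a / θ) (m ^ 2) z :=
    GRet_nonneg K k _ hp _ _
  have hstep : ε ^ z.natAbs * Zn K k (fun a => W a * s ^ k a / θ) (m ^ 2) z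
      ≤ Zn K k (fun a => W a * s ^ k a / θ) (m ^ 2 + z.natAbs) 0 := by
    rcases Int.natAbs_eq z with hzz | hzz
    · have h := GRet_steps K k (fun a => W a * s ^ k a / θ) hp (m ^ 2) a₂ h2 z.natAbs 0
      have h3 : (0 : ℤ) - (z.natAbs : ℤ) * k a₂ = z := by rw [hk2]; omega
      rw [h3] at h
      exact (mul_le_mul_of_nonneg_right (pow_le_pow_left₀ hε0.le hεb _) hz0).trans h
    · have h := GRet_steps K k (fun a => W a * s ^ k a / θ) hp (m ^ 2) a₁ h1 z.natAbs 0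
      have h3 : (0 : ℤ) - (z.natAbs : ℤ) * k a₁ = z := by rw [hk1]; omega
      rw [h3] at h
      exact (mul_le_mul_of_nonneg_right (pow_le_pow_left₀ hε0.le hεa _) hz0).trans h
  have hj : z.natAbs ≤ 2 * L * (m + 1) := by
    have h3 : ((z.natAbs : ℕ) : ℝ) = |(z : ℝ)| := by
      rw [← Int.cast_abs, ← Int.natCast_natAbs, Int.cast_natCast]
    rw [← h3] at hz
    exact_mod_cast hz
  have hεj : ε ^ (2 * L * (m + 1)) ≤ ε ^ z.natAbs := pow_le_pow_of_le_one hε0.le hε1 hj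
  refine ⟨m ^ 2 + z.natAbs, ?_, ?_⟩
  · have : 1 ≤ m ^ 2 := Nat.one_le_pow _ _ hm1
    omega
  rw [GRet_tilt K k W s θ hs0 hθ0, GRet_tilt K k W s θ hs0 hθ0] at hstep
  rw [GRet_tilt K k W s θ hs0 hθ0] at hZ
  rw [zpow_zero] at hstep
  -- lower bound
  have hθn : 0 < θ ^ (m ^ 2 + z.natAbs) := pow_pos hθ0 _
  have h16 : 0 < 16 * (L : ℝ) * (m + 1) := by positivity
  have hfin : θ ^ (m ^ 2 + z.natAbs) * (ε ^ z.natAbs * (1 / (16 * L * (m + 1)))) ≤ Zn K k W (m ^ 2 + z.natAbs) 0 := by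
    have h3 := (mul_le_mul_of_nonneg_left hZ (pow_nonneg hε0.le z.natAbs)).trans hstep
    rw [div_mul_eq_mul_div, one_mul, le_div_iff₀ hθn] at h3
    linarith
  refine lt_of_lt_of_le ?_ hfin
  have hlow : 16 * (L : ℝ) * (m + 1) < θ ^ (m ^ 2 + z.natAbs) * ε ^ z.natAbs := by
    have e1 : (1 : ℝ) + m * (32 * L / ε ^ (2 * L)) ≤ (1 + 32 * L / ε ^ (2 * L)) ^ m :=
      one_add_mul_le_pow (by linarith) m
    have e2 : (1 + 32 * L / ε ^ (2 * L)) ^ m ≤ (θ ^ m * ε ^ (2 * L)) ^ m :=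
      pow_le_pow_left₀ (by linarith) hA.le m
    have e3 : (θ ^ m * ε ^ (2 * L)) ^ m * ε ^ (2 * L) = θ ^ (m ^ 2) * ε ^ (2 * L * (m + 1)) := by
      rw [mul_pow, ← pow_mul, ← pow_mul, mul_assoc, ← pow_add]
      congr 2 <;> ring
    have e4 : θ ^ (m ^ 2) * ε ^ (2 * L * (m + 1)) ≤ θ ^ (m ^ 2 + z.natAbs) * ε ^ z.natAbs := by
      refine mul_le_mul ?_ hεj (pow_nonneg hε0.le _) hθn.le
      exact pow_le_pow_right₀ hθ.le (Nat.le_add_right _ _)
    have e5 : (1 + m * (32 * L / ε ^ (2 * L))) * ε ^ (2 * L) = ε ^ (2 * L) + 32 * L * m := by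
      field_simp
    have e6 : (1 + m * (32 * L / ε ^ (2 * L))) * ε ^ (2 * L) ≤ (θ ^ m * ε ^ (2 * L)) ^ m * ε ^ (2 * L) :=
      mul_le_mul_of_nonneg_right (e1.trans e2) hεc.le
    rw [e5, e3] at e6
    have e7 : (L : ℝ) * 1 ≤ L * m := mul_le_mul_of_nonneg_left hm1' hL0.le
    nlinarith [e6.trans e4]
  rw [← mul_assoc, mul_one_div, lt_div_iff₀ h16, one_mul]
  exact hlow

end FDr
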