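import Pool.Agent.Lib.MP_e029a2_pr.GCpt
import Pool.Agent.Lib.MP_e029a2_pr.GRet

/-!
# The data of the long step exist (job GMac)

Let `L` be as in `exists_L`. Apply `exists_ret` with `A = Option ℤ × ℤ`, `K = KL L`, `k = Prod.snd`,
`W a = (hW w α L a).toReal`, `a₁ = (none, 1)`, `a₂ = (none, -1)` (`gdispP_pos`, `hW_ne_top`; `phiL` as a real sum):
`n₁ ≥ 1` with `θ := Zn (KL L) Prod.snd W n₁ 0 > 1`. Let `Z₀` be the finite set of the lists of length `n₁` over `KL L` with
sum 0, `R = n₁ * L + L + 1`, `H = 2 R`, `N = 2 N'` with `N' ≥ 1` large, `n = N n₁ + 2`, and `F` the set of the lists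
`(none, -R) :: (b₁ ++ ... ++ b_N) ++ [(none, -R)]`, `b_i ∈ Z₀` (image of `lst Z₀ N` under `bs ↦ (none, -R) :: bs.flatten ++
[(none, -R)]`, which is injective because all the blocks have the same length). The total weight is
`(dispP (-R))^2 * (∑_{b ∈ Z₀} ∏ hW)^N = (dispP (-R))^2 θ^N > 4` for `N` large. Fields: `first`, `last`: kind `none`;
`rL`: `KL L`; `tot`: `-R + 0 - R`; `mid`: for `1 ≤ i < n` the partial sum is `-R + t`, where `t` is the sum of complete blocks
(0) and of at most `n₁` entries of a block, so `|t| ≤ n₁ L`, and `-2 R + L < -R - n₁ L`, `-R + n₁ L < -L`.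
-/

set_option autoImplicit false

namespace FDr

open MeasureTheory ProbabilityTheory
open scoped ENNReal

private theorem GMac_mem {A : Type*} [DecidableEq A] (S : Finset A) (n : ℕ) :
    ∀ l ∈ lst S n, l.length = n ∧ ∀ a ∈ l, a ∈ S := by
  induction n with
  | zero =>
    intro l hl
    rw [lst, Finset.mem_singleton] at hl
    subst hl
    simp
  | succ n ih =>
    intro l hl
    rw [lst, Finset.mem_image] at hl
    obtain ⟨p, hp, rfl⟩ := hl
    rw [Finset.mem_product] at hp
    obtain ⟨h1, h2⟩ := ih _ hp.2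
    refine ⟨by rw [List.length_cons, h1], ?_⟩
    intro a ha
    rcases List.mem_cons.1 ha with h | h
    · rw [h]
      exact hp.1
    · exact h2 a h

private theorem GMac_sum_succ {A : Type*} [DecidableEq A] (S : Finset A) (n : ℕ) (f : List A → ℝ≥0∞) :
    ∑ l ∈ lst S (n + 1), f l = ∑ a ∈ S, ∑ l ∈ lst S n, f (a :: l) := by
  have hinj : Set.InjOn (fun p : A × List A => p.1 :: p.2) (S ×ˢ lst S n : Finset (A × List A)) := by
    intro p _ q _ h
    simp only [List.cons.injEq] at h
    exact Prod.ext h.1 h.2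
  rw [lst, Finset.sum_image hinj, Finset.sum_product]

private theorem GMac_pow {A : Type*} [DecidableEq A] (S : Finset A) (f : A → ℝ≥0∞) (N : ℕ) :
    ∑ l ∈ lst S N, (l.map f).prod = (∑ a ∈ S, f a) ^ N := by
  induction N with
  | zero => rw [lst, Finset.sum_singleton]; simp
  | succ N ih =>
    rw [GMac_sum_succ, pow_succ', Finset.sum_mul]
    refine Finset.sum_congr rfl fun a _ => ?_
    rw [← ih, Finset.mul_sum]
    refine Finset.sum_congr rfl fun l _ => ?_
    rw [List.map_cons, List.prod_cons]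

private theorem GMac_flat_inj {A : Type*} (m : ℕ) : ∀ bs bs' : List (List A), bs.length = bs'.length →
    (∀ b ∈ bs, b.length = m) → (∀ b ∈ bs', b.length = m) → bs.flatten = bs'.flatten → bs = bs' := by
  intro bs
  induction bs with
  | nil =>
    intro bs' hlen _ _ _
    rw [List.length_nil] at hlen
    exact (List.length_eq_zero_iff.1 hlen.symm).symm
  | cons b bs ih =>
    intro bs' hlen h1 h2 h3
    cases bs' with
    | nil => simp at hlen
    | cons b' bs' =>
      rw [List.flatten_cons, List.flatten_cons] at h3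
      have hl : b.length = b'.length := by
        rw [h1 b (List.mem_cons_self), h2 b' (List.mem_cons_self)]
      obtain ⟨e1, e2⟩ := List.append_inj h3 hl
      rw [List.length_cons, List.length_cons] at hlen
      rw [e1, ih bs' (by omega) (fun c hc => h1 c (List.mem_cons_of_mem _ hc))
        (fun c hc => h2 c (List.mem_cons_of_mem _ hc)) e2]

private theorem GMac_abs (L : ℕ) (l : List (Option ℤ × ℤ)) (h : ∀ a ∈ l, |a.2| ≤ L) :
    |(l.map Prod.snd).sum| ≤ l.length * L := by
  induction l with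
  | nil => simp
  | cons a l ih =>
    rw [List.map_cons, List.sum_cons, List.length_cons]
    have h1 := h a List.mem_cons_self
    have h2 := ih fun b hb => h b (List.mem_cons_of_mem _ hb)
    have h3 := abs_add_le a.2 (l.map Prod.snd).sum
    push_cast
    linarith

private theorem GMac_take (L m : ℕ) (bs : List (List (Option ℤ × ℤ)))
    (h : ∀ b ∈ bs, b.length = m ∧ (b.map Prod.snd).sum = 0 ∧ ∀ a ∈ b, |a.2| ≤ L) :
    ∀ j : ℕ, |((bs.flatten.take j).map Prod.snd).sum| ≤ m * L := by
  induction bs with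
  | nil =>
    intro j
    simp
    positivity
  | cons b bs ih =>
    intro j
    obtain ⟨h1, h2, h3⟩ := h b List.mem_cons_self
    have ih' := ih fun c hc => h c (List.mem_cons_of_mem _ hc)
    rw [List.flatten_cons, List.take_append, List.map_append, List.sum_append]
    by_cases hj : j ≤ b.length
    · have e1 : j - b.length = 0 := by omega
      rw [e1, List.take_zero, List.map_nil, List.sum_nil, add_zero]
      have h4 := GMac_abs L (b.take j) fun a ha => h3 a (List.mem_of_mem_take ha)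
      have h5 : (b.take j).length ≤ m := by
        rw [List.length_take, h1]
        exact min_le_right _ _
      have h6 : ((b.take j).length : ℤ) * L ≤ m * L := by
        have : ((b.take j).length : ℤ) ≤ m := by exact_mod_cast h5
        exact mul_le_mul_of_nonneg_right this (by positivity)
      exact h4.trans h6
    · rw [List.take_of_length_le (by omega), h2, zero_add]
      exact ih' _

private theorem GMac_flat_sum (bs : List (List (Option ℤ × ℤ))) (h : ∀ b ∈ bs, (b.map Prod.snd).sum = 0) :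
    (bs.flatten.map Prod.snd).sum = 0 := by
  induction bs with
  | nil => simp
  | cons b bs ih =>
    rw [List.flatten_cons, List.map_append, List.sum_append, h b List.mem_cons_self,
      ih fun c hc => h c (List.mem_cons_of_mem _ hc), add_zero]

private theorem GMac_flat_len {A : Type*} (m : ℕ) (bs : List (List A)) (h : ∀ b ∈ bs, b.length = m) :
    bs.flatten.length = bs.length * m := by
  induction bs with
  | nil => simp
  | cons b bs ih =>
    rw [List.flatten_cons, List.length_append, h b List.mem_cons_self,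
      ih fun c hc => h c (List.mem_cons_of_mem _ hc), List.length_cons]
    ring

private theorem GMac_flat_prod {A : Type*} (f : A → ℝ≥0∞) (bs : List (List A)) :
    (bs.flatten.map f).prod = (bs.map fun b => (b.map f).prod).prod := by
  induction bs with
  | nil => simp
  | cons b bs ih => rw [List.flatten_cons, List.map_append, List.prod_append, ih, List.map_cons, List.prod_cons]

private theorem GMac_prod_top {A : Type*} (f : A → ℝ≥0∞) (hf : ∀ a, f a ≠ ⊤) (l : List A) :
    (l.map f).prod ≠ ⊤ ∧ ((l.map f).prod).toReal = (l.map fun a => (f a).toReal).prod := by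
  induction l with
  | nil => simp
  | cons a l ih =>
    rw [List.map_cons, List.prod_cons, List.map_cons, List.prod_cons, ENNReal.toReal_mul, ih.2]
    exact ⟨ENNReal.mul_ne_top (hf a) ih.1, rfl⟩

theorem exists_mac (w α : Set.Ioo (0 : ℝ) 1) (h : 1 < Lam w α) : Nonempty (Mac w α) := by
  obtain ⟨L, hL, hphi⟩ := exists_L w α h
  have htop : ∀ a, hW w α L a ≠ ⊤ := hW_ne_top w α L
  have hLi : (1 : ℤ) ≤ L := by exact_mod_cast hL
  have hKL : ∀ a ∈ KL L, |a.2| ≤ (L : ℤ) ∧ ∀ r, a.1 = some r → |r| ≤ (L : ℤ) := by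
    intro a ha
    unfold KL at ha
    rw [Finset.mem_product, Finset.mem_Icc, Finset.mem_insert, Finset.mem_image] at ha
    refine ⟨abs_le.2 ha.2, ?_⟩
    intro r hr
    rcases ha.1 with h1 | ⟨r', h1, h2⟩
    · rw [h1] at hr
      exact absurd hr (by simp)
    · rw [← h2, Option.some.injEq] at hr
      rw [← hr]
      exact abs_le.2 (Finset.mem_Icc.1 h1)
  have hmem : ∀ z : ℤ, |z| ≤ L → ((none, z) : Option ℤ × ℤ) ∈ KL L := by
    intro z hz
    unfold KL
    rw [Finset.mem_product, Finset.mem_Icc]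
    exact ⟨Finset.mem_insert_self _ _, abs_le.1 hz⟩
  have hpos : ∀ z : ℤ, 0 < (hW w α L (none, z)).toReal := fun z =>
    ENNReal.toReal_pos (gdispP_pos w α z).ne' (htop _)
  obtain ⟨m, hm, hZ⟩ := exists_ret (KL L) Prod.snd (fun a => (hW w α L a).toReal) L hL
    (fun a _ => ENNReal.toReal_nonneg) (fun a ha => (hKL a ha).1) (none, 1) (none, -1)
    (hmem 1 (by rw [abs_one]; exact hLi)) (hmem (-1) (by rw [abs_neg, abs_one]; exact hLi)) rfl rfl (hpos 1) (hpos (-1))
    (by
      intro s hs
      have h1 := hphi s hs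
      have h2 : (phiL w α L s).toReal = ∑ a ∈ KL L, (hW w α L a).toReal * s ^ a.2 := by
        unfold phiL
        rw [ENNReal.toReal_sum fun a _ => ENNReal.mul_ne_top (htop a) ENNReal.ofReal_ne_top]
        refine Finset.sum_congr rfl fun a _ => ?_
        rw [ENNReal.toReal_mul, ENNReal.toReal_ofReal (zpow_pos hs _).le]
      have h3 : phiL w α L s ≠ ⊤ := by
        unfold phiL
        exact ENNReal.sum_ne_top.2 fun a _ => ENNReal.mul_ne_top (htop a) ENNReal.ofReal_ne_top
      rw [← h2]
      have h4 := (ENNReal.toReal_lt_toReal ENNReal.one_ne_top h3).2 h1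
      rwa [ENNReal.toReal_one] at h4)
  -- the blocks
  obtain ⟨Z₀, hZ₀⟩ : ∃ Z₀, Z₀ = (lst (KL L) m).filter (fun l => (l.map Prod.snd).sum = 0) := ⟨_, rfl⟩
  have hZmem : ∀ b ∈ Z₀, b.length = m ∧ (b.map Prod.snd).sum = 0 ∧ ∀ a ∈ b, a ∈ KL L := by
    intro b hb
    rw [hZ₀, Finset.mem_filter] at hb
    obtain ⟨h1, h2⟩ := GMac_mem _ _ b hb.1
    exact ⟨h1, hb.2, h2⟩
  have hΘ : 1 < ∑ b ∈ Z₀, (b.map (hW w α L)).prod := by
    by_contra hle
    push Not at hle
    have h1 := ENNReal.toReal_mono ENNReal.one_ne_top hle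
    rw [ENNReal.toReal_one, ENNReal.toReal_sum fun b _ => (GMac_prod_top _ htop b).1] at h1
    unfold Zn at hZ
    rw [← hZ₀] at hZ
    rw [Finset.sum_congr rfl fun b _ => (GMac_prod_top _ htop b).2] at h1
    linarith
  generalize hΘd : ∑ b ∈ Z₀, (b.map (hW w α L)).prod = Θ at hΘ
  -- the constants
  obtain ⟨R, hR⟩ : ∃ R : ℕ, R = m * L + L + 1 := ⟨_, rfl⟩
  have hc0 : dispP w α (-(R : ℤ)) ^ 2 ≠ 0 := pow_ne_zero _ (gdispP_pos w α _).ne'
  have hct : dispP w α (-(R : ℤ)) ^ 2 ≠ ⊤ :=
    ENNReal.pow_ne_top (ne_top_of_le_ne_top ENNReal.one_ne_top (gdispP_le w α _))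
  have hlim := ENNReal.tendsto_pow_atTop_nhds_top_iff.2 hΘ
  have h4c : 4 / dispP w α (-(R : ℤ)) ^ 2 < ⊤ := ENNReal.div_lt_top (by simp) hc0
  have hev := hlim.eventually (lt_mem_nhds h4c)
  obtain ⟨N0, hN0⟩ := Filter.eventually_atTop.1 hev
  have hbig := hN0 (2 * (N0 + 1)) (by omega)
  rw [ENNReal.div_lt_iff (Or.inl hc0) (Or.inl hct)] at hbig
  obtain ⟨N, hN⟩ : ∃ N : ℕ, N = 2 * (N0 + 1) := ⟨_, rfl⟩
  rw [← hN] at hbig
  have hbs : ∀ bs ∈ lst Z₀ N, bs.length = N ∧ (∀ b ∈ bs, b.length = m) ∧ (∀ b ∈ bs, (b.map Prod.snd).sum = 0) ∧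
      (∀ a ∈ bs.flatten, a ∈ KL L) ∧
      (∀ b ∈ bs, b.length = m ∧ (b.map Prod.snd).sum = 0 ∧ ∀ a ∈ b, |a.2| ≤ (L : ℤ)) := by
    intro bs hbs
    obtain ⟨h1, h2⟩ := GMac_mem _ _ bs hbs
    refine ⟨h1, fun b hb => (hZmem b (h2 b hb)).1, fun b hb => (hZmem b (h2 b hb)).2.1, ?_, ?_⟩
    · intro a ha
      obtain ⟨b, hb, hab⟩ := List.mem_flatten.1 ha
      exact (hZmem b (h2 b hb)).2.2 a hab
    · intro b hb
      obtain ⟨e1, e2, e3⟩ := hZmem b (h2 b hb)
      exact ⟨e1, e2, fun a ha => (hKL a (e3 a ha)).1⟩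
  -- the lists
  let g : List (List (Option ℤ × ℤ)) → List (Option ℤ × ℤ) := fun bs =>
    (none, -(R : ℤ)) :: (bs.flatten ++ [(none, -(R : ℤ))])
  have hg : ∀ bs, g bs = (none, -(R : ℤ)) :: (bs.flatten ++ [(none, -(R : ℤ))]) := fun bs => rfl
  have hginj : Set.InjOn g (lst Z₀ N : Finset (List (List (Option ℤ × ℤ)))) := by
    intro bs hb bs' hb' heq
    obtain ⟨e1, e2, -, -, -⟩ := hbs bs hb
    obtain ⟨e1', e2', -, -, -⟩ := hbs bs' hb'
    rw [hg, hg, List.cons.injEq] at heq
    have h1 := List.append_cancel_right heq.2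
    exact GMac_flat_inj m bs bs' (e1.trans e1'.symm) e2 e2' h1
  have hmN : 2 ≤ N * m := by
    have h1 : 2 * 1 ≤ N * m := Nat.mul_le_mul (by omega) hm
    omega
  have hn4 : 4 ≤ N * m + 2 := by omega
  have hH1 : 1 ≤ 2 * R := by omega
  refine ⟨{ L := L, n := N * m + 2, H := 2 * R, F := (lst Z₀ N).image g, n4 := hn4, nev := ?_, H1 := hH1, len := ?_,
            first := ?_, last := ?_, rL := ?_, tot := ?_, mid := ?_, big := ?_ }⟩
  · rw [hN]
    exact ⟨(N0 + 1) * m + 1, by ring⟩
  · intro κ hκ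
    obtain ⟨bs, hb, rfl⟩ := Finset.mem_image.1 hκ
    obtain ⟨e1, e2, -, -, -⟩ := hbs bs hb
    rw [hg, List.length_cons, List.length_append, GMac_flat_len m bs e2, e1, List.length_singleton]
  · intro κ hκ a ha
    obtain ⟨bs, hb, rfl⟩ := Finset.mem_image.1 hκ
    rw [hg, List.head?_cons, Option.mem_some_iff] at ha
    rw [← ha]
  · intro κ hκ a ha
    obtain ⟨bs, hb, rfl⟩ := Finset.mem_image.1 hκ
    rw [hg, ← List.cons_append, List.getLast?_append] at ha
    simp only [List.getLast?_singleton, Option.mem_some_iff, Option.some_or] at ha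
    rw [← ha]
  · intro κ hκ a ha r hr
    obtain ⟨bs, hb, rfl⟩ := Finset.mem_image.1 hκ
    obtain ⟨-, -, -, e4, -⟩ := hbs bs hb
    rw [hg, List.mem_cons, List.mem_append, List.mem_singleton] at ha
    rcases ha with h1 | h1 | h1
    · rw [h1] at hr
      exact absurd hr (by simp)
    · exact (hKL a (e4 a h1)).2 r hr
    · rw [h1] at hr
      exact absurd hr (by simp)
  · intro κ hκ
    obtain ⟨bs, hb, rfl⟩ := Finset.mem_image.1 hκ
    obtain ⟨-, -, e3, -, -⟩ := hbs bs hb
    rw [hg, List.map_cons, List.sum_cons, List.map_append, List.sum_append, GMac_flat_sum bs e3]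
    simp only [List.map_cons, List.map_nil, List.sum_cons, List.sum_nil]
    push_cast
    ring
  · intro κ hκ i hi1 hi2
    obtain ⟨bs, hb, rfl⟩ := Finset.mem_image.1 hκ
    obtain ⟨e1, e2, -, -, e5⟩ := hbs bs hb
    obtain ⟨j, rfl⟩ : ∃ j, i = j + 1 := ⟨i - 1, by omega⟩
    have hflen := GMac_flat_len m bs e2
    rw [e1] at hflen
    have ht := GMac_take L m bs e5 j
    have e6 : (g bs).take (j + 1) = (none, -(R : ℤ)) :: bs.flatten.take j := by
      rw [hg, List.take_succ_cons, List.take_append_of_le_length (by omega)]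
    rw [e6, List.map_cons, List.sum_cons]
    have h7 := abs_le.1 ht
    have hRi : (R : ℤ) = m * L + L + 1 := by exact_mod_cast hR
    dsimp only
    push_cast
    constructor
    · linarith [h7.1]
    · linarith [h7.2]
  · rw [Finset.sum_image hginj]
    have h1 : ∀ bs ∈ lst Z₀ N, ((g bs).map (hW w α L)).prod
        = dispP w α (-(R : ℤ)) ^ 2 * (bs.map fun b => (b.map (hW w α L)).prod).prod := by
      intro bs _
      rw [hg, List.map_cons, List.prod_cons, List.map_append, List.prod_append, GMac_flat_prod]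
      simp only [List.map_cons, List.map_nil, List.prod_cons, List.prod_nil, mul_one]
      have h2 : hW w α L (none, -(R : ℤ)) = dispP w α (-(R : ℤ)) := rfl
      rw [h2]
      ring
    rw [Finset.sum_congr rfl h1, ← Finset.mul_sum, GMac_pow, hΘd, mul_comm]
    exact hbig

end FDr
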