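import Pool.Agent.Lib.MP_e029a2_pr.ZInf
import Pool.Agent.Lib.MP_e029a2_pr.ZLim
import Pool.Agent.Lib.MP_e029a2_pr.ZFar

/-!
# Cylinder events (job ZCyl)

`hc` is the second moment bound: the number of chains is nonzero with probability `≥ c₀`, uniformly.
Proof. Let `Z` depend on the finite set `S` of cells, `B = insert 0 (S.image (fun p => p.1.2))`, `ρ` from `hc B`, `ε > 0`,
`j` even with `j > p.2` for all `p ∈ S`, `j ≥ 1` and `j ≥ j0` of `far`. For a point `z` let `σ = ((0, j), z)`: `Inv B σ`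
(`(0 : Site D).2 = 0 ∈ B`). If `z.2` is even and far from `B`: for even `N ≥ N0(z)`, the event `{X m B c N σ ≠ 0}` depends
on `Fut B σ` (`X_dep`), and the event `Z ∩ {ent c 0 j = z}` depends on `S ∪ {(0, i) | i < j}`, which is disjoint from
`Fut B σ` (cells of `S` have home line in `B`, and phase `< j` if the home is 0). So (`prob_and_dep`)
`Q (Z ∩ {ent = z} ∩ {X_N ≠ 0}) = Q (Z ∩ {ent = z}) * Q {X_N ≠ 0} ≥ c₀ * Q (Z ∩ {ent = z})`. By `io_meas` with
`E N = Z ∩ {ent = z} ∩ {X_N ≠ 0}`: `c₀ * Q (Z ∩ {ent = z}) ≤ Q (Z ∩ {ent = z} ∩ R)`, because on the event the state is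
valid (`ActC.start`, `Val`) and `visC_infinite` applies. Sum over the countably many `z` with `z.2` even and far
(`lint_part` with `V c = ent c 0 j`, or `measure_iUnion`): `Q (Z ∩ R) ≥ c₀ * Q (Z ∩ {(ent c 0 j).2 far})`
(even is automatic: `ent_even`) `≥ c₀ * (Q Z - ε)` (`far`). Let `ε → 0` (`c₀ ≤ 1`).
-/

set_option autoImplicit false

namespace FDr

open MeasureTheory ProbabilityTheory
open scoped ENNReal

theorem cyl {w α : Set.Ioo (0 : ℝ) 1} (m : Mac w α) (D : ℕ) [NeZero D] (c₀ : ℝ≥0∞) (hc1 : c₀ ≤ 1)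
    (hc : ∀ B : Finset (Fin D → ℤ), ∃ ρ : ℕ, ∀ σ : St D, Inv B σ → evn σ.2.2 →
      (∀ b ∈ B, (ρ : ℤ) ≤ ∑ i, |σ.2.2 i - b i|) → ∃ N0 : ℕ, ∀ N, N0 ≤ N → Even N →
        c₀ ≤ Q w α D {c | X m B c N σ ≠ 0})
    (S : Finset (Site D × ℕ)) (Z : Set (Conf D)) (hZ : Dep (S : Set (Site D × ℕ)) (fun c => c ∈ Z)) :
    c₀ * Q w α D Z ≤ Q w α D (Z ∩ {c | (visC c).Infinite}) := by
  classical
  set B : Finset (Fin D → ℤ) := insert 0 (S.image (fun p => p.1.2)) with hB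
  obtain ⟨ρ, hρ⟩ := hc B
  refine ENNReal.le_of_forall_pos_le_add fun ε hε _ => ?_
  obtain ⟨j0, hj0⟩ := far w α D B ρ (ε : ℝ≥0∞) (by exact_mod_cast hε)
  obtain ⟨j, hj1, hj2, hj3, hj4⟩ : ∃ j : ℕ, Even j ∧ 1 ≤ j ∧ j0 ≤ j ∧ ∀ p ∈ S, p.2 < j := by
    refine ⟨2 * (j0 + 1 + S.sup (fun p => p.2)), even_two_mul _, by omega, by omega,
      fun p hp => ?_⟩
    have h1 : p.2 ≤ S.sup (fun p => p.2) := Finset.le_sup (f := fun p : Site D × ℕ => p.2) hp
    omega
  -- the state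
  let σ : Site D → St D := fun z => ((0, j), z)
  have hInv : ∀ z, Inv B (σ z) := fun z => ⟨hj2, Or.inl (Finset.mem_insert_self _ _)⟩
  let T0 : Set (Site D × ℕ) := (fun i => ((0 : Site D), i)) '' Set.Iio j
  have hT0 : T0.Finite := (Set.finite_Iio j).image _
  have hVd : Dep T0 (fun c : Conf D => ent c 0 j) := by
    intro c c' h
    show (0 : Site D) + ∑ i ∈ Finset.range j, cvec (c (0, i)) =
      0 + ∑ i ∈ Finset.range j, cvec (c' (0, i))
    congr 1
    refine Finset.sum_congr rfl fun i hi => ?_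
    rw [h _ ⟨i, Finset.mem_range.1 hi, rfl⟩]
  have hVm : Measurable (fun c : Conf D => ent c 0 j) := Dep.measurable hT0 hVd
  let T : Set (Site D × ℕ) := (S : Set (Site D × ℕ)) ∪ T0
  have hT : T.Finite := S.finite_toSet.union hT0
  have hPd : ∀ z : Site D, Dep T (fun c : Conf D => c ∈ Z ∧ ent c 0 j = z) := fun z =>
    Dep.comp₂ (hZ.mono Set.subset_union_left) (hVd.mono Set.subset_union_right)
      (fun (p : Prop) (v : Site D) => p ∧ v = z)
  have hPm : ∀ z : Site D, MeasurableSet {c : Conf D | c ∈ Z ∧ ent c 0 j = z} := fun z =>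
    Dep.measurableSet hT (hPd z)
  have hdisj : ∀ z : Site D, Disjoint T (Fut B (σ z)) := by
    intro z
    rw [Set.disjoint_left]
    rintro p (h1 | ⟨i, h1, rfl⟩) (⟨h2, h3⟩ | ⟨h2, _⟩)
    · have h4 := hj4 p h1
      have h5 : j ≤ p.2 := h3
      omega
    · exact h2 (Finset.mem_insert_of_mem (Finset.mem_image_of_mem _ h1))
    · have h4 : i < j := h1
      have h5 : j ≤ i := h3
      omega
    · exact h2 (Finset.mem_insert_self _ _)
  -- the events
  let En : Site D → ℕ → Set (Conf D) := fun z n =>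
    {c | (c ∈ Z ∧ ent c 0 j = z) ∧ X m B c n (σ z) ≠ 0}
  have hXm : ∀ (z : Site D) (n : ℕ), MeasurableSet {c : Conf D | X m B c n (σ z) ≠ 0} := by
    intro z n
    have h1 := X_meas m B n (σ z) (hInv z)
    have h2 : {c : Conf D | X m B c n (σ z) ≠ 0} =
        ((fun c : Conf D => X m B c n (σ z)) ⁻¹' {0})ᶜ := rfl
    rw [h2]
    exact (h1 (measurableSet_singleton 0)).compl
  have hEnm : ∀ z n, MeasurableSet (En z n) := fun z n => (hPm z).inter (hXm z n)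
  have hEnq : ∀ z n, Q w α D (En z n) = Q w α D {c | c ∈ Z ∧ ent c 0 j = z} *
      Q w α D {c | X m B c n (σ z) ≠ 0} := by
    intro z n
    exact prob_and_dep (cellLaw w α D) (hdisj z) (hPm z) (hXm z n) (hPd z)
      ((X_dep m B n (σ z) (hInv z)).comp fun v => v ≠ 0)
  let E' : Site D → Set (Conf D) := fun z => {c | ∀ k : ℕ, ∃ n, k ≤ n ∧ c ∈ En z n}
  have hE'm : ∀ z, MeasurableSet (E' z) := by
    intro z
    have h1 : E' z = ⋂ k : ℕ, ⋃ n : ℕ, ⋃ (_ : k ≤ n), En z n := by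
      ext c
      simp only [Set.mem_iInter, Set.mem_iUnion]
      exact forall_congr' fun k => exists_congr fun n =>
        ⟨fun h => ⟨h.1, h.2⟩, fun ⟨h, h'⟩ => ⟨h, h'⟩⟩
    rw [h1]
    exact MeasurableSet.iInter fun k => MeasurableSet.iUnion fun n =>
      MeasurableSet.iUnion fun _ => hEnm z n
  have hE'd : Pairwise (Function.onFun Disjoint E') := by
    intro a b hab
    show Disjoint (E' a) (E' b)
    rw [Set.disjoint_left]
    intro c h1 h2
    obtain ⟨n, _, h3⟩ := h1 0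
    obtain ⟨n', _, h4⟩ := h2 0
    exact hab (h3.1.2.symm.trans h4.1.2)
  have hE's : (⋃ z, E' z) ⊆ Z ∩ {c | (visC c).Infinite} := by
    intro c hcU
    rw [Set.mem_iUnion] at hcU
    obtain ⟨z, hz⟩ := hcU
    obtain ⟨n, _, h3⟩ := hz 0
    refine ⟨h3.1.1, ?_⟩
    refine visC_infinite m B c (σ z) ⟨ActC.start, h3.1.2.symm⟩ fun N0 => ?_
    obtain ⟨N, hN, h4⟩ := hz N0
    exact ⟨N, hN, h4.2⟩
  -- the good points
  let gd : Site D → Prop := fun z => ∀ b ∈ B, (ρ : ℤ) ≤ ∑ i, |z.2 i - b i|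
  have hkey : ∀ a : Site D, c₀ * Q w α D {c | (c ∈ Z ∧ gd (ent c 0 j)) ∧ ent c 0 j = a} ≤
      Q w α D (E' a) := by
    intro a
    by_cases hg : gd a ∧ evn a.2
    · have h1 : {c : Conf D | (c ∈ Z ∧ gd (ent c 0 j)) ∧ ent c 0 j = a} =
          {c | c ∈ Z ∧ ent c 0 j = a} := by
        ext c
        constructor
        · rintro ⟨⟨h2, _⟩, h3⟩
          exact ⟨h2, h3⟩
        · rintro ⟨h2, h3⟩
          exact ⟨⟨h2, by rw [h3]; exact hg.1⟩, h3⟩
      rw [h1]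
      obtain ⟨N0, hN0⟩ := hρ (σ a) (hInv a) hg.2 hg.1
      refine io_meas (Q w α D) (En a) (hEnm a) _ fun k => ?_
      refine ⟨2 * (k + N0), by omega, ?_⟩
      rw [hEnq, mul_comm]
      exact mul_le_mul_right (hN0 (2 * (k + N0)) (by omega) (even_two_mul _)) _
    · have h1 : {c : Conf D | (c ∈ Z ∧ gd (ent c 0 j)) ∧ ent c 0 j = a} = ∅ := by
        rw [Set.eq_empty_iff_forall_notMem]
        rintro c ⟨⟨_, h2⟩, h3⟩
        refine hg ⟨h3 ▸ h2, ?_⟩
        rw [← h3]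
        exact ent_even c j hj1
      rw [h1, measure_empty, mul_zero]
      exact zero_le
  have hgm : MeasurableSet {c : Conf D | c ∈ Z ∧ gd (ent c 0 j)} :=
    Dep.measurableSet hT (Dep.comp₂ (hZ.mono Set.subset_union_left)
      (hVd.mono Set.subset_union_right) (fun (p : Prop) (v : Site D) => p ∧ gd v))
  have hmain : c₀ * Q w α D {c | c ∈ Z ∧ gd (ent c 0 j)} ≤
      Q w α D (Z ∩ {c | (visC c).Infinite}) := by
    rw [lint_part (Q w α D) (fun c : Conf D => ent c 0 j) hVm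
      (fun c => c ∈ Z ∧ gd (ent c 0 j)) hgm, ← ENNReal.tsum_mul_left]
    calc ∑' a : Site D, c₀ * Q w α D {c | (c ∈ Z ∧ gd (ent c 0 j)) ∧ ent c 0 j = a}
        ≤ ∑' a : Site D, Q w α D (E' a) := ENNReal.tsum_le_tsum hkey
      _ = Q w α D (⋃ a, E' a) := (measure_iUnion hE'd hE'm).symm
      _ ≤ _ := measure_mono hE's
  have hsub : Q w α D Z ≤ Q w α D {c | c ∈ Z ∧ gd (ent c 0 j)} + ε := by
    refine (measure_mono (t := {c | c ∈ Z ∧ gd (ent c 0 j)} ∪
      {c | ∃ b ∈ B, ∑ i, |(ent c 0 j).2 i - b i| < (ρ : ℤ)}) ?_).trans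
      ((measure_union_le _ _).trans (add_le_add le_rfl (hj0 j hj3)))
    intro c hcZ
    by_cases hg : gd (ent c 0 j)
    · exact Or.inl ⟨hcZ, hg⟩
    · right
      show ∃ b ∈ B, ∑ i, |(ent c 0 j).2 i - b i| < (ρ : ℤ)
      by_contra hno
      apply hg
      intro b hb
      by_contra hlt
      exact hno ⟨b, hb, not_le.1 hlt⟩
  calc c₀ * Q w α D Z ≤ c₀ * (Q w α D {c | c ∈ Z ∧ gd (ent c 0 j)} + ε) :=
        mul_le_mul_right hsub _
    _ = c₀ * Q w α D {c | c ∈ Z ∧ gd (ent c 0 j)} + c₀ * ε := mul_add _ _ _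
    _ ≤ Q w α D (Z ∩ {c | (visC c).Infinite}) + ε := by
      refine add_le_add hmain ?_
      calc c₀ * (ε : ℝ≥0∞) ≤ 1 * ε := mul_le_mul_left hc1 _
        _ = ε := one_mul _

end FDr
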