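import Pool.Agent.Lib.MP_e029a2_pr.ZSec
import Pool.Agent.Lib.MP_e029a2_pr.ZCyl
import Pool.Agent.Lib.MP_e029a2_pr.GMac
import Pool.Agent.Lib.MP_e029a2_pr.MTra

/-!
# Recurrence (job Fin1)

`exists_mac`, `second`, `cyl`, `levy` (with `R = {c | (visC c).Infinite}`, measurable by `visC_meas`), `transfer_inf`.
-/

set_option autoImplicit false

namespace FDr

open MeasureTheory ProbabilityTheory
open scoped ENNReal

theorem recurrent (w α : Set.Ioo (0 : ℝ) 1) (h : 1 < Lam w α) : ∃ D0 : ℕ, ∀ (D : ℕ) [NeZero D], D0 ≤ D →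
    ∀ {Ω : Type*} [MeasurableSpace Ω] (P : Measure Ω) (ξ : Site D → ℕ → Ω → Stp D), IsFrog D w α P ξ →
      Recurrent P ξ := by
  obtain ⟨m⟩ := exists_mac w α h
  obtain ⟨D0, hD0⟩ := second m
  refine ⟨D0, fun D _ hD Ω _ P ξ hξ => ?_⟩
  obtain ⟨c₀, h1, h2, h3⟩ := hD0 D hD
  refine transfer_inf w α D P ξ hξ ?_
  have h4 := levy (cellLaw w α D) {c : Conf D | (visC c).Infinite} (visC_meas D) c₀ h1
    (ne_top_of_le_ne_top ENNReal.one_ne_top h2) (fun S Z hZ => cyl m D c₀ h2 h3 S Z hZ)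
  rw [ae_iff]
  exact h4

end FDr
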