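import Pool.Agent.Lib.MP_e029a2_pr.Fin1
import Pool.Agent.Lib.MP_e029a2_pr.TG

/-!
# Transience and recurrence of the frog model with drift
-/

set_option autoImplicit false

namespace FDr

open MeasureTheory ProbabilityTheory
open scoped ENNReal

theorem transient (w α : Set.Ioo (0 : ℝ) 1) (h : Lam w α < 1) (D : ℕ) [NeZero D] {Ω : Type*} [MeasurableSpace Ω]
    (P : Measure Ω) (ξ : Site D → ℕ → Ω → Stp D) (hξ : IsFrog D w α P ξ) :
    ∀ᵐ ω ∂P, (visits fun x n => ξ x n ω).Finite :=
  transfer_fin w α D P ξ hξ (trans w α h D)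

end FDr
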