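import Pool.Agent.Lib.MP_e029a2_pr.GDef

/-!
# The activation probability as a limit (job GAct)

`Clus S e c h` is monotone in `S` (induction). `Clus univ e c h ↔ ∃ L : ℕ, Clus (Icc (-L) L) e c h` (induction: in the step
`next` take the maximum of the two bounds). The sets `{c | Clus (Icc (-L) L) (c none) (fun z => c (some z)) r}` increase with
`L`, their union is the set for `univ`; the measure of an increasing union is the supremum
(`Directed.measure_iUnion` / `Monotone.measure_iUnion`, no measurability needed).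
`gactP_zero`: if `r ∉ S` then `actP S r = 0` (`Clus.mem`). `gactP_le`: at most 1 (probability measure).
-/

set_option autoImplicit false

namespace FDr

open MeasureTheory ProbabilityTheory
open scoped ENNReal

variable (w α : Set.Ioo (0 : ℝ) 1)

theorem Clus.mono {S S' : Set ℤ} (hS : S ⊆ S') {e : Run} {c : ℤ → Run} {h : ℤ} (hh : Clus S e c h) : Clus S' e c h := by
  induction hh with
  | enter h h1 h2 => exact Clus.enter h h1 (hS h2)
  | next h h' _ h2 h3 ih => exact Clus.next h h' ih h2 (hS h3)

private theorem GAct_sub {L L' : ℕ} (h : L ≤ L') : Set.Icc (-(L : ℤ)) L ⊆ Set.Icc (-(L' : ℤ)) L' := by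
  refine Set.Icc_subset_Icc ?_ ?_ <;> omega

theorem clus_iff (e : Run) (c : ℤ → Run) (h : ℤ) :
    Clus Set.univ e c h ↔ ∃ L : ℕ, Clus (Set.Icc (-(L : ℤ)) L) e c h := by
  constructor
  · intro hh
    induction hh with
    | enter h h1 _ =>
      refine ⟨h.natAbs, Clus.enter h h1 ?_⟩
      rw [Set.mem_Icc]
      omega
    | next h h' _ h2 _ ih =>
      obtain ⟨L, hL⟩ := ih
      refine ⟨max L h'.natAbs, Clus.next h h' (Clus.mono (GAct_sub (le_max_left _ _)) hL) h2 ?_⟩
      rw [Set.mem_Icc]
      omega
  · rintro ⟨L, hL⟩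
    exact Clus.mono (Set.subset_univ _) hL

theorem gactP_le (S : Set ℤ) (r : ℤ) : actP w α S r ≤ 1 := by
  unfold actP
  exact prob_le_one

theorem gactP_zero (S : Set ℤ) (r : ℤ) (h : r ∉ S) : actP w α S r = 0 := by
  unfold actP
  have h1 : {c : Option ℤ → Run | Clus S (c none) (fun z => c (some z)) r} = ∅ := by
    rw [Set.eq_empty_iff_forall_notMem]
    intro c hc
    exact h (Clus.mem hc)
  rw [h1, measure_empty]

theorem gactP_mono {S S' : Set ℤ} (hS : S ⊆ S') (r : ℤ) : actP w α S r ≤ actP w α S' r := by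
  unfold actP
  exact measure_mono fun c hc => Clus.mono hS hc

theorem gactP_iSup (r : ℤ) : ⨆ L : ℕ, actP w α (Set.Icc (-(L : ℤ)) L) r = actP w α Set.univ r := by
  unfold actP
  have h1 : Monotone fun L : ℕ => {c : Option ℤ → Run | Clus (Set.Icc (-(L : ℤ)) L) (c none) (fun z => c (some z)) r} :=
    fun L L' hL c hc => Clus.mono (GAct_sub hL) hc
  rw [← h1.measure_iUnion]
  congr 1
  ext c
  simp only [Set.mem_iUnion, Set.mem_setOf_eq]
  exact (clus_iff _ _ _).symm

end FDr
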