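import Pool.Agent.Lib.MP_e029a2_pr.GPhi

/-!
# Uniformity in `s` (job GCpt)

If `1 < Lam w α`, then `1 < mfun w α s` for all `s > 0`, so for every `s > 0` there is `L` with `1 < phiL w α L s`
(`phiL_sup`, `lt_iSup_iff`), and for larger `L` too (`phiL_mono`).
Small `s`: for `L ≥ 1` the term `a = (none, -1)` of `phiL` is `dispP (-1) * ofReal (s⁻¹)`, which is `> 1` for
`0 < s < δ := (dispP (-1)).toReal` (`gdispP_pos`, `gdispP_le`). Large `s`: the term `(none, 1)` is `dispP 1 * ofReal s > 1` for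
`s > 1 / (dispP 1).toReal`. On the compact interval in between: the sets `{s | 1 < phiL w α L s}` are open relative to
`s > 0` (`phiL` is a finite sum of functions `const * ofReal (s ^ k)` with finite constants, continuous at `s ≠ 0`), they
increase with `L` and cover the interval; finite subcover (`IsCompact.elim_directed_cover`). Take the maximum with 1.
-/

set_option autoImplicit false

namespace FDr

open MeasureTheory ProbabilityTheory
open scoped ENNReal

variable (w α : Set.Ioo (0 : ℝ) 1)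

private theorem GCpt_hW_le (L : ℕ) (a : Option ℤ × ℤ) : hW w α L a ≤ 1 := by
  obtain ⟨κ, k⟩ := a
  cases κ with
  | none => exact gdispP_le w α k
  | some r =>
    show actP w α (Set.Icc (-(L : ℤ)) L) r * dispP w α (k - r) ≤ 1
    exact mul_le_one' (gactP_le w α _ r) (gdispP_le w α _)

theorem hW_ne_top (L : ℕ) (a : Option ℤ × ℤ) : hW w α L a ≠ ⊤ :=
  ne_top_of_le_ne_top ENNReal.one_ne_top (GCpt_hW_le w α L a)

private theorem GCpt_term (L : ℕ) (s : ℝ) (k : ℤ) (h1 : -(L : ℤ) ≤ k) (h2 : k ≤ L) :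
    dispP w α k * ENNReal.ofReal (s ^ k) ≤ phiL w α L s := by
  unfold phiL
  have hmem : ((none, k) : Option ℤ × ℤ) ∈ KL L := by
    unfold KL
    rw [Finset.mem_product]
    exact ⟨Finset.mem_insert_self _ _, Finset.mem_Icc.2 ⟨h1, h2⟩⟩
  exact Finset.single_le_sum (f := fun a : Option ℤ × ℤ => hW w α L a * ENNReal.ofReal (s ^ a.2))
    (fun _ _ => bot_le) hmem

private theorem GCpt_cont (L : ℕ) : ContinuousOn (fun s : ℝ => phiL w α L s) (Set.Ioi 0) := by
  unfold phiL
  refine continuousOn_finsetSum _ fun a _ => ?_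
  have h1 : ContinuousOn (fun s : ℝ => s ^ a.2) (Set.Ioi 0) := by
    intro s hs
    exact (continuousAt_zpow₀ s a.2 (Or.inl (ne_of_gt hs))).continuousWithinAt
  exact (ENNReal.continuous_const_mul (hW_ne_top w α L a)).comp_continuousOn
    (ENNReal.continuous_ofReal.comp_continuousOn h1)

private theorem GCpt_big (k : ℤ) {t : ℝ} (ht : ((dispP w α k).toReal)⁻¹ < t) :
    1 < dispP w α k * ENNReal.ofReal t := by
  have h1 : dispP w α k ≠ ⊤ := ne_top_of_le_ne_top ENNReal.one_ne_top (gdispP_le w α k)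
  have h2 : 0 < (dispP w α k).toReal := ENNReal.toReal_pos (gdispP_pos w α k).ne' h1
  have h3 : 1 < (dispP w α k).toReal * t := by
    have h4 := mul_lt_mul_of_pos_left ht h2
    rwa [mul_inv_cancel₀ h2.ne'] at h4
  have h5 : dispP w α k * ENNReal.ofReal t = ENNReal.ofReal ((dispP w α k).toReal * t) := by
    rw [ENNReal.ofReal_mul h2.le, ENNReal.ofReal_toReal h1]
  rw [h5]
  exact ENNReal.one_lt_ofReal.2 h3

theorem exists_L (h : 1 < Lam w α) : ∃ L : ℕ, 1 ≤ L ∧ ∀ s : ℝ, 0 < s → 1 < phiL w α L s := by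
  have hpt : ∀ s : ℝ, 0 < s → ∃ L : ℕ, 1 < phiL w α L s := by
    intro s hs
    have h1 : 1 < mfun w α s := by
      refine lt_of_lt_of_le h ?_
      unfold Lam
      exact iInf₂_le s hs
    exact lt_iSup_iff.1 (lt_of_lt_of_le h1 (phiL_sup w α s hs))
  have hdm : 0 < (dispP w α (-1)).toReal := ENNReal.toReal_pos (gdispP_pos w α _).ne'
    (ne_top_of_le_ne_top ENNReal.one_ne_top (gdispP_le w α _))
  set a : ℝ := (dispP w α (-1)).toReal with ha
  set b : ℝ := ((dispP w α 1).toReal)⁻¹ with hb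
  obtain ⟨L0, hL0⟩ := (isCompact_Icc : IsCompact (Set.Icc a b)).elim_directed_cover
    (fun L : ℕ => Set.Ioi (0 : ℝ) ∩ (fun s : ℝ => phiL w α L s) ⁻¹' Set.Ioi 1)
    (fun L => (GCpt_cont w α L).isOpen_inter_preimage isOpen_Ioi isOpen_Ioi)
    (by
      intro s hs
      have hs0 : 0 < s := lt_of_lt_of_le hdm hs.1
      obtain ⟨L, hL⟩ := hpt s hs0
      exact Set.mem_iUnion.2 ⟨L, hs0, hL⟩)
    (by
      refine directed_of_isDirected_le ?_
      intro L L' hLL s hs
      exact ⟨hs.1, lt_of_lt_of_le hs.2 (phiL_mono w α hLL s)⟩)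
  refine ⟨max L0 1, le_max_right _ _, fun s hs => ?_⟩
  rcases lt_or_ge s a with h1 | h1
  · have h2 : (1 : ℤ) ≤ ((max L0 1 : ℕ) : ℤ) := by exact_mod_cast le_max_right L0 1
    have h3 := GCpt_term w α (max L0 1) s (-1) (by omega) (by omega)
    refine lt_of_lt_of_le (GCpt_big w α (-1) ?_) h3
    rw [zpow_neg_one]
    exact (inv_lt_inv₀ hdm hs).2 h1
  · rcases lt_or_ge b s with h4 | h4
    · have h2 : (1 : ℤ) ≤ ((max L0 1 : ℕ) : ℤ) := by exact_mod_cast le_max_right L0 1
      have h3 := GCpt_term w α (max L0 1) s 1 (by omega) (by omega)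
      refine lt_of_lt_of_le (GCpt_big w α 1 ?_) h3
      rw [zpow_one]
      exact h4
    · have h5 := (hL0 ⟨h1, h4⟩).2
      exact lt_of_lt_of_le h5 (phiL_mono w α (le_max_left L0 1) s)

end FDr
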