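import Pool.Agent.Lib.MP_e029a2_pr.SEv

/-!
# Growth in one dimension: definitions
-/

set_option autoImplicit false

namespace FDr

open MeasureTheory ProbabilityTheory
open scoped ENNReal NNReal

/-- the kinds and displacements in the window -/
noncomputable def KL (L : ℕ) : Finset (Option ℤ × ℤ) :=
  (insert none ((Finset.Icc (-(L : ℤ)) L).image some)) ×ˢ Finset.Icc (-(L : ℤ)) L

/-- the truncated mean -/
noncomputable def phiL (w α : Set.Ioo (0 : ℝ) 1) (L : ℕ) (s : ℝ) : ℝ≥0∞ :=
  ∑ a ∈ KL L, hW w α L a * ENNReal.ofReal (s ^ a.2)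

/-- the sum of the weights of the lists of length `n` over `K` with the sum of the displacements equal to `z` -/
noncomputable def Zn {A : Type*} [DecidableEq A] (K : Finset A) (k : A → ℤ) (W : A → ℝ) (n : ℕ) (z : ℤ) : ℝ :=
  ∑ l ∈ (lst K n).filter (fun l => (l.map k).sum = z), (l.map W).prod

end FDr
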