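import Pool.Agent.Lib.MP_e029a2_pr.GDef

/-!
# The law of the displacement (job GDisp)

`dispP w α k = runLaw {l | dsp l = k}`. (1) `gdispP_pos`: the run `List.replicate k.natAbs b` (b = true if `k ≥ 0`, false
otherwise) has the displacement `k` and positive weight `runW` (`runW_pos`); the measure of a set is at least the measure of
a point of it (`Measure.le_sum_apply` or `Measure.sum_apply` and `ENNReal.le_tsum`).
(2) `gdispP_sum`: the sum over `k` is `runLaw univ = 1` (`lint_part`-like: the sets `{dsp = k}` partition `Run`;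
`MeasureTheory.measure_iUnion` / `tsum_measure_preimage_singleton`). (3) `gdispP_le`: at most 1. (4) `gkap_eq`: `lintegral`
over the partition: `∫⁻ l, ofReal (s ^ dsp l) = ∑' k, ofReal (s ^ k) * runLaw {dsp = k}` (`lintegral_map` with the map
`dsp` and `lintegral_countable'`).
-/

set_option autoImplicit false

namespace FDr

open MeasureTheory ProbabilityTheory
open scoped ENNReal

variable (w α : Set.Ioo (0 : ℝ) 1)

private theorem GDisp_replicate (n : ℕ) (b : Bool) : dsp (List.replicate n b) = (n : ℤ) * sg b := by
  unfold dsp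
  rw [List.map_replicate, List.sum_replicate, nsmul_eq_mul]

private theorem GDisp_meas (f : Run → ℤ) : Measurable f := fun _ _ => trivial

theorem gdispP_pos (k : ℤ) : 0 < dispP w α k := by
  have h1 : dsp (List.replicate k.natAbs (decide (0 ≤ k))) = k := by
    rw [GDisp_replicate]
    rcases le_or_gt 0 k with h | h
    · have h2 : decide (0 ≤ k) = true := decide_eq_true h
      rw [h2]
      simp only [sg, if_true, mul_one]
      exact Int.natAbs_of_nonneg h
    · have h2 : decide (0 ≤ k) = false := decide_eq_false (not_le.2 h)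
      rw [h2]
      simp only [sg, Bool.false_eq_true, if_false]
      omega
  set l0 : Run := List.replicate k.natAbs (decide (0 ≤ k)) with hl0
  unfold dispP runLaw
  refine lt_of_lt_of_le ?_ (Measure.le_sum_apply _ _)
  refine lt_of_lt_of_le ?_ (ENNReal.le_tsum l0)
  rw [Measure.smul_apply, Measure.dirac_apply_of_mem (show l0 ∈ {l | dsp l = k} from h1), smul_eq_mul, mul_one]
  exact ENNReal.ofReal_pos.2 (runW_pos w.2 α.2 l0)

theorem gdispP_le (k : ℤ) : dispP w α k ≤ 1 := prob_le_one

theorem gdispP_sum : ∑' k : ℤ, dispP w α k = 1 := by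
  have h1 : (Set.univ : Set Run) = ⋃ k : ℤ, {l | dsp l = k} := by
    ext l
    rw [Set.mem_iUnion]
    exact ⟨fun _ => ⟨dsp l, rfl⟩, fun _ => Set.mem_univ _⟩
  have h2 : Pairwise (Function.onFun Disjoint fun k : ℤ => {l : Run | dsp l = k}) := by
    intro a b hab
    show Disjoint _ _
    rw [Set.disjoint_left]
    intro l h3 h4
    exact hab (h3.symm.trans h4)
  have h3 : ∀ k : ℤ, MeasurableSet {l : Run | dsp l = k} := fun _ => trivial
  have h4 := measure_iUnion (μ := runLaw w α) h2 h3
  rw [← h1, measure_univ] at h4
  exact h4.symm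

theorem gkap_eq (s : ℝ) : kap w α s = ∑' k : ℤ, dispP w α k * ENNReal.ofReal (s ^ k) := by
  have h1 : Measurable (fun k : ℤ => ENNReal.ofReal (s ^ k)) := measurable_of_countable _
  have h2 := lintegral_map (μ := runLaw w α) h1 (GDisp_meas dsp)
  unfold kap
  rw [← h2, lintegral_countable']
  refine tsum_congr fun k => ?_
  rw [Measure.map_apply (GDisp_meas dsp) (measurableSet_singleton k), mul_comm]
  rfl

end FDr
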