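import Pool.Agent.Lib.MP_e029a2_pr.GDef

/-!
# The minimum of a Laurent polynomial (job GMin; only Mathlib)

`φ s = ∑ a ∈ K, W a * s ^ k a` with `W ≥ 0` and positive coefficients for some `a₊, a₋ ∈ K` with `k = 1, -1`. Then `φ` has a
minimum on `(0, ∞)`: `φ s ≥ W a₋ / s` and `φ s ≥ W a₊ * s`, so outside of a compact interval `[δ, M]` containing `1` the
values are `> φ 1`; the minimum over the compact interval (`IsCompact.exists_isMinOn`) is a global one. At an interior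
minimum the derivative is zero (`IsLocalMin.hasDerivAt_eq_zero`): `∑ W a * k a * s ^ (k a - 1) = 0`; multiply by `s`.
-/

set_option autoImplicit false

namespace FDr

theorem exists_min {A : Type*} (K : Finset A) (k : A → ℤ) (W : A → ℝ) (hW : ∀ a ∈ K, 0 ≤ W a)
    (a₁ a₂ : A) (h1 : a₁ ∈ K) (h2 : a₂ ∈ K) (hk1 : k a₁ = 1) (hk2 : k a₂ = -1) (hW1 : 0 < W a₁) (hW2 : 0 < W a₂) :
    ∃ s : ℝ, 0 < s ∧ ∑ a ∈ K, W a * (k a : ℝ) * s ^ k a = 0 := by
  have hpos : ∀ s : ℝ, 0 < s → ∀ a ∈ K, 0 ≤ W a * s ^ k a := fun s hs a ha =>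
    mul_nonneg (hW a ha) (zpow_pos hs _).le
  have lb1 : ∀ s : ℝ, 0 < s → W a₁ * s ≤ ∑ a ∈ K, W a * s ^ k a := by
    intro s hs
    have := Finset.single_le_sum (f := fun a => W a * s ^ k a) (hpos s hs) h1
    rw [hk1, zpow_one] at this
    exact this
  have lb2 : ∀ s : ℝ, 0 < s → W a₂ * s⁻¹ ≤ ∑ a ∈ K, W a * s ^ k a := by
    intro s hs
    have := Finset.single_le_sum (f := fun a => W a * s ^ k a) (hpos s hs) h2
    rw [hk2, zpow_neg_one] at this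
    exact this
  have hder : ∀ s : ℝ, 0 < s → HasDerivAt (fun s : ℝ => ∑ a ∈ K, W a * s ^ k a)
      (∑ a ∈ K, W a * ((k a : ℝ) * s ^ (k a - 1))) s := by
    intro s hs
    exact HasDerivAt.fun_sum fun a _ => (hasDerivAt_zpow (k a) s (Or.inl hs.ne')).const_mul (W a)
  obtain ⟨C, hC⟩ : ∃ C, C = ∑ a ∈ K, W a * (1 : ℝ) ^ k a := ⟨_, rfl⟩
  have hC0 : 0 ≤ C := by
    rw [hC]
    exact Finset.sum_nonneg (hpos 1 one_pos)
  have hCW : 0 < C + W a₂ := by linarith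
  have hδ0 : 0 < W a₂ / (C + W a₂) := div_pos hW2 hCW
  have hδ1 : W a₂ / (C + W a₂) ≤ 1 := (div_le_one hCW).2 (by linarith)
  have hM1 : 1 ≤ C / W a₁ + 1 := by
    have : 0 ≤ C / W a₁ := div_nonneg hC0 hW1.le
    linarith
  have hcont : ContinuousOn (fun s : ℝ => ∑ a ∈ K, W a * s ^ k a) (Set.Icc (W a₂ / (C + W a₂)) (C / W a₁ + 1)) := by
    intro s hs
    exact (hder s (lt_of_lt_of_le hδ0 hs.1)).continuousAt.continuousWithinAt
  obtain ⟨s₀, hs₀, hmin⟩ := isCompact_Icc.exists_isMinOn ⟨1, hδ1, hM1⟩ hcont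
  have hs₀0 : 0 < s₀ := lt_of_lt_of_le hδ0 hs₀.1
  have hle1 : ∑ a ∈ K, W a * s₀ ^ k a ≤ C := by
    rw [hC]
    exact hmin ⟨hδ1, hM1⟩
  have hglob : ∀ s : ℝ, 0 < s → ∑ a ∈ K, W a * s₀ ^ k a ≤ ∑ a ∈ K, W a * s ^ k a := by
    intro s hs
    by_cases hsδ : W a₂ / (C + W a₂) ≤ s
    · by_cases hsM : s ≤ C / W a₁ + 1
      · exact hmin ⟨hsδ, hsM⟩
      · have h3 : C / W a₁ + 1 < s := not_le.1 hsM
        refine le_trans hle1 (le_trans ?_ (lb1 s hs))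
        have h4 : W a₁ * (C / W a₁ + 1) ≤ W a₁ * s := mul_le_mul_of_nonneg_left h3.le hW1.le
        have h5 : W a₁ * (C / W a₁ + 1) = C + W a₁ := by field_simp
        linarith
    · have h3 : s < W a₂ / (C + W a₂) := not_le.1 hsδ
      refine le_trans hle1 (le_trans ?_ (lb2 s hs))
      rw [lt_div_iff₀ hCW] at h3
      rw [← div_eq_mul_inv, le_div_iff₀ hs]
      nlinarith
  have hloc : IsLocalMin (fun s : ℝ => ∑ a ∈ K, W a * s ^ k a) s₀ := by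
    filter_upwards [lt_mem_nhds hs₀0] with s hs
    exact hglob s hs
  have hz := hloc.hasDerivAt_eq_zero (hder s₀ hs₀0)
  refine ⟨s₀, hs₀0, ?_⟩
  have h6 : ∑ a ∈ K, W a * (k a : ℝ) * s₀ ^ k a = s₀ * ∑ a ∈ K, W a * ((k a : ℝ) * s₀ ^ (k a - 1)) := by
    rw [Finset.mul_sum]
    refine Finset.sum_congr rfl fun a _ => ?_
    have h7 : s₀ ^ k a = s₀ ^ (k a - 1) * s₀ := by
      rw [← zpow_add_one₀ hs₀0.ne', sub_add_cancel]
    rw [h7]
    ring
  rw [h6, hz, mul_zero]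

end FDr
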