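import Pool.Agent.Lib.MP_e029a2_pr.GDisp
import Pool.Agent.Lib.MP_e029a2_pr.GAct

/-!
# The truncated mean increases to the mean (job GPhi)

`phiL_mono`: `KL L ⊆ KL L'` for `L ≤ L'` and `hW w α L a ≤ hW w α L' a` (`gactP_mono`).
`phiL_sup`: `mfun w α s ≤ ⨆ L, phiL w α L s`. Here `mfun = kap * (1 + ∑' h, actP univ h * s^h)`, with `gkap_eq`:
`= ∑' k, dispP k * s^k + ∑' r, ∑' k, actP univ r * dispP (k - r) * s^k` (substitution `k ↦ k - r`, `s ^ k = s ^ r * s ^ (k - r)`
for `s > 0`, `Equiv.tsum_eq`). Every finite sum (`ENNReal.tsum_eq_iSup_sum` over `Finset (Option ℤ × ℤ)`) of the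
function `(none, k) ↦ dispP k * s^k`, `(some r, k) ↦ actP univ r * dispP (k-r) * s^k` is `≤ ⨆ L, phiL L s`: replace
`actP univ r` by the supremum over `L` (`gactP_iSup`), finite sums of monotone sequences: the sum of the suprema is the
supremum of the sums (`ENNReal.finsetSum_iSup_of_monotone` or by the limits), and the finite set is contained in `KL L` for
large `L`.
-/

set_option autoImplicit false

namespace FDr

open MeasureTheory ProbabilityTheory
open scoped ENNReal

variable (w α : Set.Ioo (0 : ℝ) 1)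

private theorem GPhi_KL {L L' : ℕ} (h : L ≤ L') : KL L ⊆ KL L' := by
  have h1 : Finset.Icc (-(L : ℤ)) L ⊆ Finset.Icc (-(L' : ℤ)) L' := by
    apply Finset.Icc_subset_Icc
    · omega
    · omega
  exact Finset.product_subset_product (Finset.insert_subset_insert _ (Finset.image_subset_image h1)) h1

private theorem GPhi_hW {L L' : ℕ} (h : L ≤ L') (a : Option ℤ × ℤ) : hW w α L a ≤ hW w α L' a := by
  obtain ⟨o, k⟩ := a
  cases o with
  | none => exact le_rfl
  | some r =>
    refine mul_le_mul_left (gactP_mono w α ?_ r) _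
    apply Set.Icc_subset_Icc
    · omega
    · omega

private theorem GPhi_mem (p : Option ℤ × ℤ) : ∃ L : ℕ, p ∈ KL L := by
  obtain ⟨o, k⟩ := p
  cases o with
  | none =>
    refine ⟨k.natAbs, ?_⟩
    unfold KL
    rw [Finset.mem_product]
    refine ⟨Finset.mem_insert_self _ _, ?_⟩
    rw [Finset.mem_Icc]
    constructor
    · simp only [Int.natCast_natAbs]
      exact neg_abs_le k
    · simp only [Int.natCast_natAbs]
      exact le_abs_self k
  | some r =>
    refine ⟨k.natAbs + r.natAbs, ?_⟩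
    unfold KL
    rw [Finset.mem_product]
    refine ⟨Finset.mem_insert_of_mem (Finset.mem_image_of_mem _ ?_), ?_⟩
    · simp only [Finset.mem_Icc]
      omega
    · simp only [Finset.mem_Icc]
      omega

private theorem GPhi_sub (T : Finset (Option ℤ × ℤ)) : ∃ L : ℕ, T ⊆ KL L := by
  classical
  induction T using Finset.induction_on with
  | empty => exact ⟨0, Finset.empty_subset _⟩
  | insert p T _ ih =>
    obtain ⟨L, hL⟩ := ih
    obtain ⟨L', hL'⟩ := GPhi_mem p
    refine ⟨max L L', ?_⟩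
    rw [Finset.insert_subset_iff]
    exact ⟨GPhi_KL (le_max_right _ _) hL', hL.trans (GPhi_KL (le_max_left _ _))⟩

theorem phiL_mono {L L' : ℕ} (h : L ≤ L') (s : ℝ) : phiL w α L s ≤ phiL w α L' s := by
  unfold phiL
  refine (Finset.sum_le_sum_of_subset (GPhi_KL h)).trans (Finset.sum_le_sum fun a _ => ?_)
  exact mul_le_mul_left (GPhi_hW w α h a) _

/-- the limit of the summands -/
private noncomputable def GPhi_F (s : ℝ) : Option ℤ → ℤ → ℝ≥0∞
  | none, k => dispP w α k * ENNReal.ofReal (s ^ k)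
  | some r, k => actP w α Set.univ r * dispP w α (k - r) * ENNReal.ofReal (s ^ k)

private theorem GPhi_F_eq (s : ℝ) (o : Option ℤ) (k : ℤ) :
    GPhi_F w α s o k = ⨆ L : ℕ, hW w α L (o, k) * ENNReal.ofReal (s ^ k) := by
  cases o with
  | none =>
    show dispP w α k * ENNReal.ofReal (s ^ k) = ⨆ L : ℕ, dispP w α k * ENNReal.ofReal (s ^ k)
    rw [ciSup_const]
  | some r =>
    show actP w α Set.univ r * dispP w α (k - r) * ENNReal.ofReal (s ^ k) =
      ⨆ L : ℕ, actP w α (Set.Icc (-(L : ℤ)) L) r * dispP w α (k - r) * ENNReal.ofReal (s ^ k)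
    rw [← ENNReal.iSup_mul, ← ENNReal.iSup_mul, gactP_iSup]

private theorem GPhi_opt (g : Option ℤ → ℝ≥0∞) : ∑' o : Option ℤ, g o = g none + ∑' r : ℤ, g (some r) := by
  rw [← (Equiv.optionEquivSumPUnit.{0} ℤ).symm.tsum_eq, ENNReal.summable.tsum_sum ENNReal.summable]
  rw [add_comm]
  congr 1
  rw [tsum_fintype]
  simp

private theorem GPhi_mfun (s : ℝ) (hs : 0 < s) :
    mfun w α s = ∑' p : Option ℤ × ℤ, GPhi_F w α s p.1 p.2 := by
  rw [ENNReal.tsum_prod (f := GPhi_F w α s), GPhi_opt]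
  unfold mfun
  rw [mul_add, mul_one, ← ENNReal.tsum_mul_left]
  congr 1
  · exact gkap_eq w α s
  · refine tsum_congr fun r => ?_
    rw [gkap_eq, ← ENNReal.tsum_mul_right, ← (Equiv.subRight r).tsum_eq]
    refine tsum_congr fun k => ?_
    show dispP w α (k - r) * ENNReal.ofReal (s ^ (k - r)) * (actP w α Set.univ r * ENNReal.ofReal (s ^ r)) =
      actP w α Set.univ r * dispP w α (k - r) * ENNReal.ofReal (s ^ k)
    have h1 : ENNReal.ofReal (s ^ k) = ENNReal.ofReal (s ^ (k - r)) * ENNReal.ofReal (s ^ r) := by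
      rw [← ENNReal.ofReal_mul (zpow_nonneg hs.le _), ← zpow_add₀ hs.ne']
      congr 2
      ring
    rw [h1]
    ring

theorem phiL_sup (s : ℝ) (hs : 0 < s) : mfun w α s ≤ ⨆ L : ℕ, phiL w α L s := by
  rw [GPhi_mfun w α s hs, ENNReal.tsum_eq_iSup_sum]
  refine iSup_le fun T => ?_
  have h1 : ∑ p ∈ T, GPhi_F w α s p.1 p.2 =
      ⨆ L : ℕ, ∑ p ∈ T, hW w α L p * ENNReal.ofReal (s ^ p.2) := by
    rw [← ENNReal.finsetSum_iSup_of_monotone]
    · exact Finset.sum_congr rfl fun p _ => GPhi_F_eq w α s p.1 p.2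
    · intro p L L' h
      exact mul_le_mul_left (GPhi_hW w α h p) _
  rw [h1]
  refine iSup_le fun L => ?_
  obtain ⟨L', hL'⟩ := GPhi_sub T
  refine le_trans ?_ (le_iSup (fun L : ℕ => phiL w α L s) (max L L'))
  unfold phiL
  refine (Finset.sum_le_sum fun p _ => ?_).trans
    (Finset.sum_le_sum_of_subset (hL'.trans (GPhi_KL (le_max_right L L'))))
  exact mul_le_mul_left (GPhi_hW w α (le_max_left L L') p) _

end FDr
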