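import Pool.Agent.Lib.MP_e029a2_pr.LFDef

/-!
# The wake times and the reachability
-/

set_option autoImplicit false

open MeasureTheory

namespace FrogModel

/-- the frogs which are reached from the frog of the origin -/
inductive Reached {d : ℕ} (ω : Env d) : Site d → Prop
  | start : Reached ω 0
  | visit (x : Site d) (k : ℕ) : Reached ω x → Reached ω (pos ω x k)

theorem wake_succ {d : ℕ} (ω : Env d) (t : ℕ) (y : Site d) : y ∈ wake ω (t + 1) ↔
    (∀ s ≤ t, y ∉ wake ω s) ∧ ∃ s ≤ t, ∃ x ∈ wake ω s, pos ω x (t + 1 - s) = y := by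
  rw [wake]
  constructor
  · rintro ⟨h1, s, x, hx, h2⟩
    exact ⟨fun s hs => h1 ⟨s, by omega⟩, s.1, by omega, x, hx, h2⟩
  · rintro ⟨h1, s, hs, x, hx, h2⟩
    exact ⟨fun s => h1 s.1 (by omega), ⟨s, by omega⟩, x, hx, h2⟩

theorem wake_unique {d : ℕ} (ω : Env d) (s t : ℕ) (x : Site d) (hs : x ∈ wake ω s) (ht : x ∈ wake ω t) :
    s = t := by
  rcases lt_trichotomy s t with h | h | h
  · cases t with
    | zero => omega
    | succ t => exact absurd hs (((wake_succ ω t x).1 ht).1 s (by omega))
  · exact h
  · cases s with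
    | zero => omega
    | succ s => exact absurd ht (((wake_succ ω s x).1 hs).1 t (by omega))

theorem pos_zero {d : ℕ} (ω : Env d) (x : Site d) : pos ω x 0 = x := by simp [pos]

/-- a site visited at time `t` by an active frog has been waked up at some time `≤ t` -/
theorem exists_wake_le {d : ℕ} (ω : Env d) (s k : ℕ) (x : Site d) (hx : x ∈ wake ω s) :
    ∃ t ≤ s + k, pos ω x k ∈ wake ω t := by
  by_cases h : ∃ t ≤ s + k, pos ω x k ∈ wake ω t
  · exact h
  · exfalso
    push Not at h
    rcases Nat.eq_zero_or_pos (s + k) with h0 | h0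
    · have hs : s = 0 := by omega
      have hk : k = 0 := by omega
      subst hs hk
      exact h 0 (by omega) (by rw [pos_zero]; exact hx)
    · obtain ⟨t, ht⟩ : ∃ t, s + k = t + 1 := ⟨s + k - 1, by omega⟩
      rcases Nat.eq_zero_or_pos k with hk | hk
      · subst hk
        exact h s (by omega) (by rw [pos_zero]; exact hx)
      · refine h (t + 1) (by omega) ((wake_succ ω t _).2 ⟨fun r hr => h r (by omega), s, by omega, x, hx, ?_⟩)
        congr 1
        omega

theorem reached_of_wake {d : ℕ} (ω : Env d) (t : ℕ) : ∀ x ∈ wake ω t, Reached ω x := by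
  induction t using Nat.strong_induction_on with
  | _ t ih =>
    intro x hx
    cases t with
    | zero =>
      rw [wake] at hx
      rw [Set.mem_singleton_iff] at hx
      subst hx
      exact Reached.start
    | succ t =>
      obtain ⟨-, s, hs, y, hy, rfl⟩ := (wake_succ ω t x).1 hx
      exact Reached.visit y _ (ih s (by omega) y hy)

theorem exists_wake_iff {d : ℕ} (ω : Env d) (x : Site d) : (∃ t, x ∈ wake ω t) ↔ Reached ω x := by
  constructor
  · rintro ⟨t, ht⟩
    exact reached_of_wake ω t x ht
  · intro h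
    induction h with
    | start => exact ⟨0, by rw [wake]; rfl⟩
    | visit x k _ ih =>
      obtain ⟨s, hs⟩ := ih
      obtain ⟨t, -, ht⟩ := exists_wake_le ω s k x hs
      exact ⟨t, ht⟩

theorem wake_finite {d : ℕ} (ω : Env d) (t : ℕ) : (wake ω t).Finite := by
  induction t using Nat.strong_induction_on with
  | _ t ih =>
    cases t with
    | zero => rw [wake]; exact Set.finite_singleton 0
    | succ t =>
      have h1 : wake ω (t + 1) ⊆ ⋃ s ∈ Finset.range (t + 1), (fun x => pos ω x (t + 1 - s)) '' wake ω s := by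
        intro y hy
        obtain ⟨-, s, hs, x, hx, rfl⟩ := (wake_succ ω t y).1 hy
        simp only [Set.mem_iUnion]
        exact ⟨s, Finset.mem_range.2 (by omega), x, hx, rfl⟩
      refine Set.Finite.subset ?_ h1
      refine Set.Finite.biUnion (Finset.finite_toSet _) fun s hs => ?_
      exact (ih s (by simpa using hs)).image _

/-- the visits: a frog and a number of its own steps -/
def visitPairs {d : ℕ} (ω : Env d) : Set (Site d × ℕ) := {p | Reached ω p.1 ∧ pos ω p.1 p.2 = 0}

/-- infinitely many times with a visit to the origin iff infinitely many visits -/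
theorem infinite_iff {d : ℕ} (ω : Env d) :
    {t | originVisited ω t}.Infinite ↔ (visitPairs ω).Infinite := by
  constructor
  · intro h hf
    refine h ?_
    -- the map from the visits to the times is onto
    have h1 : ∀ t, originVisited ω t → ∃ p ∈ visitPairs ω, ∃ s, p.1 ∈ wake ω s ∧ t = s + p.2 := by
      rintro t ⟨s, hs, x, hx, h2⟩
      exact ⟨(x, t - s), ⟨reached_of_wake ω s x hx, h2⟩, s, hx, by simp only; omega⟩
    classical
    let g : Site d × ℕ → ℕ := fun p => (if h : ∃ s, p.1 ∈ wake ω s then h.choose else 0) + p.2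
    refine (hf.image g).subset ?_
    intro t ht
    obtain ⟨p, hp, s, hs, rfl⟩ := h1 t ht
    refine ⟨p, hp, ?_⟩
    have h3 : ∃ s, p.1 ∈ wake ω s := ⟨s, hs⟩
    simp only [g, h3, dif_pos]
    rw [wake_unique ω _ _ _ h3.choose_spec hs]
  · intro h hf
    refine h ?_
    -- finitely many times, finitely many frogs at each time
    have h2 : visitPairs ω ⊆ ⋃ t ∈ {t | originVisited ω t}, ⋃ s ∈ Finset.range (t + 1),
        (fun x => (x, t - s)) '' wake ω s := by
      rintro ⟨x, k⟩ ⟨h3, h4⟩
      obtain ⟨s, hs⟩ := (exists_wake_iff ω x).2 h3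
      simp only [Set.mem_iUnion]
      refine ⟨s + k, ⟨s, by omega, x, hs, ?_⟩, s, Finset.mem_range.2 (by omega), x, hs, ?_⟩
      · rw [Nat.add_sub_cancel_left]
        exact h4
      · simp
    refine Set.Finite.subset ?_ h2
    refine Set.Finite.biUnion hf fun t _ => ?_
    refine Set.Finite.biUnion (Finset.finite_toSet _) fun s _ => ?_
    exact (wake_finite ω s).image _

end FrogModel
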