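import Pool.Agent.Lib.MP_e029a2_pr.Defs

/-!
# The laws of runs and cells, the constant `Lam`

A cell is a run (the steps along `e_1` before the next step in another direction) and the direction of that step.
-/

set_option autoImplicit false

namespace FDr

open MeasureTheory ProbabilityTheory
open scoped ENNReal

/-- the weight of a step of the killed walk -/
noncomputable def bw (w α : ℝ) (b : Bool) : ℝ := if b then w * (1 + α) / 2 else w * (1 - α) / 2

theorem bw_pos {w α : ℝ} (hw : w ∈ Set.Ioo (0 : ℝ) 1) (ha : α ∈ Set.Ioo (0 : ℝ) 1) (b : Bool) : 0 < bw w α b := by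
  have h1 := hw.1
  have h2 := ha.2
  have h3 := ha.1
  unfold bw
  cases b
  · have : 0 < 1 - α := by linarith
    simp only [Bool.false_eq_true, if_false]
    positivity
  · have : 0 < 1 + α := by linarith
    simp only [if_true]
    positivity

theorem bw_sum (w α : ℝ) : bw w α true + bw w α false = w := by
  unfold bw
  simp only [if_true, Bool.false_eq_true, if_false]
  ring

theorem runW_eq (w α : ℝ) (l : Run) : runW w α l = (1 - w) * (l.map (bw w α)).prod := rfl

theorem runW_pos {w α : ℝ} (hw : w ∈ Set.Ioo (0 : ℝ) 1) (ha : α ∈ Set.Ioo (0 : ℝ) 1) (l : Run) : 0 < runW w α l := by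
  rw [runW_eq]
  have h1 := hw.2
  refine mul_pos (by linarith) (List.prod_pos fun x hx => ?_)
  obtain ⟨b, -, rfl⟩ := List.mem_map.1 hx
  exact bw_pos hw ha b

/-- sums over runs by length -/
theorem tsum_run (a : Bool → ℝ≥0∞) : ∑' l : Run, (l.map a).prod = ∑' n : ℕ, (a true + a false) ^ n := by
  rw [← (List.equivSigmaTuple (α := Bool)).symm.tsum_eq]
  rw [ENNReal.tsum_sigma']
  refine tsum_congr fun n => ?_
  rw [tsum_fintype]
  have h1 : ∀ v : Fin n → Bool, (((List.equivSigmaTuple (α := Bool)).symm ⟨n, v⟩).map a).prod = ∏ i, a (v i) := by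
    intro v
    simp only [List.equivSigmaTuple, Equiv.coe_fn_symm_mk]
    rw [List.map_ofFn, List.prod_ofFn]
    rfl
  rw [Finset.sum_congr rfl fun v _ => h1 v]
  have h2 := (Finset.prod_univ_sum (fun _ : Fin n => (Finset.univ : Finset Bool)) (fun _ b => a b)).symm
  rw [Fintype.piFinset_univ] at h2
  rw [h2, Finset.prod_const, Finset.card_univ, Fintype.card_fin]
  congr 1
  rw [Fintype.sum_bool]

instance runLaw_prob (w α : Set.Ioo (0 : ℝ) 1) : IsProbabilityMeasure (runLaw w α) := by
  constructor
  unfold runLaw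
  rw [Measure.sum_apply _ MeasurableSet.univ]
  have h1 : ∀ l : Run, (ENNReal.ofReal (runW w α l) • Measure.dirac l : Measure Run) Set.univ =
      ENNReal.ofReal (1 - w) * (l.map fun b => ENNReal.ofReal (bw w α b)).prod := by
    intro l
    rw [Measure.smul_apply, Measure.dirac_apply_of_mem (Set.mem_univ _), smul_eq_mul, mul_one, runW_eq,
      ENNReal.ofReal_mul (by linarith [w.2.2])]
    congr 1
    induction l with
    | nil => simp
    | cons b l ih =>
      rw [List.map_cons, List.prod_cons, List.map_cons, List.prod_cons, ENNReal.ofReal_mul (bw_pos w.2 α.2 b).le, ih]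
  rw [tsum_congr h1, ENNReal.tsum_mul_left, tsum_run, ← ENNReal.ofReal_add (bw_pos w.2 α.2 _).le (bw_pos w.2 α.2 _).le,
    bw_sum, ENNReal.tsum_geometric, ENNReal.ofReal_sub _ w.2.1.le, ENNReal.ofReal_one]
  refine ENNReal.mul_inv_cancel ?_ ?_
  · rw [← ENNReal.ofReal_one, ← ENNReal.ofReal_sub _ w.2.1.le]
    exact (ENNReal.ofReal_pos.2 (by linarith [w.2.2])).ne'
  · exact ENNReal.sub_ne_top ENNReal.one_ne_top

/-- The probability that the site `h` is activated in the one-dimensional process with killing: a frog starts at `0`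
(the run `none`), and there is one sleeping frog at every site of `S` (so two frogs start at `0` if `0 ∈ S`). -/
noncomputable def actP (w α : Set.Ioo (0 : ℝ) 1) (S : Set ℤ) (h : ℤ) : ℝ≥0∞ :=
  Measure.infinitePi (fun _ : Option ℤ => runLaw w α) {c | Clus S (c none) (fun z => c (some z)) h}

/-- The mean of `s ^ displacement`. -/
noncomputable def kap (w α : Set.Ioo (0 : ℝ) 1) (s : ℝ) : ℝ≥0∞ := ∫⁻ l, ENNReal.ofReal (s ^ dsp l) ∂runLaw w α

/-- The mean of the sum of `s ^ (place of death)` over all the frogs of the one-dimensional process. -/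
noncomputable def mfun (w α : Set.Ioo (0 : ℝ) 1) (s : ℝ) : ℝ≥0∞ :=
  kap w α s * (1 + ∑' h : ℤ, actP w α Set.univ h * ENNReal.ofReal (s ^ h))

/-- The constant `Λ(w,α)`. -/
noncomputable def Lam (w α : Set.Ioo (0 : ℝ) 1) : ℝ≥0∞ := ⨅ (s : ℝ) (_ : 0 < s), mfun w α s

/-! ### Cells -/

/-- The directions different from `± e_1`. -/
abbrev Dir (D : ℕ) : Type := Fin D × Bool

/-- The vector of a direction. -/
def dv {D : ℕ} (d : Dir D) : Fin D → ℤ := Pi.single d.1 (sg d.2)

/-- The uniform law of the directions. -/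
noncomputable def dirLaw (D : ℕ) : Measure (Dir D) := (2 * (D : ℝ≥0∞))⁻¹ • Measure.count

instance dirLaw_prob (D : ℕ) [NeZero D] : IsProbabilityMeasure (dirLaw D) := by
  constructor
  unfold dirLaw
  rw [Measure.smul_apply, Measure.count_univ, smul_eq_mul, ENat.card_eq_coe_fintype_card, Fintype.card_prod,
    Fintype.card_fin, Fintype.card_bool]
  have h1 : (((D * 2 : ℕ) : ℕ∞) : ℝ≥0∞) = 2 * (D : ℝ≥0∞) := by
    push_cast
    ring
  rw [h1]
  refine ENNReal.inv_mul_cancel ?_ ?_
  · refine mul_ne_zero two_ne_zero ?_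
    exact_mod_cast NeZero.ne D
  · exact ENNReal.mul_ne_top ENNReal.ofNat_ne_top (ENNReal.natCast_ne_top D)

/-- A cell: a run and the direction of the step after it. -/
abbrev Cell (D : ℕ) : Type := Run × Dir D

/-- The law of a cell. -/
noncomputable def cellLaw (w α : Set.Ioo (0 : ℝ) 1) (D : ℕ) : Measure (Cell D) := (runLaw w α).prod (dirLaw D)

instance cellLaw_prob (w α : Set.Ioo (0 : ℝ) 1) (D : ℕ) [NeZero D] : IsProbabilityMeasure (cellLaw w α D) := by
  unfold cellLaw
  infer_instance

/-- Configurations: `c (x, j)` is the `j`-th cell of the frog `x`. -/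
abbrev Conf (D : ℕ) : Type := Site D × ℕ → Cell D

/-- The law of the configurations: independent cells. -/
noncomputable def Q (w α : Set.Ioo (0 : ℝ) 1) (D : ℕ) [NeZero D] : Measure (Conf D) :=
  Measure.infinitePi fun _ => cellLaw w α D

instance Q_prob (w α : Set.Ioo (0 : ℝ) 1) (D : ℕ) [NeZero D] : IsProbabilityMeasure (Q w α D) := by
  unfold Q
  infer_instance

/-- The vector of a cell. -/
def cvec {D : ℕ} (a : Cell D) : Site D := (dsp a.1, dv a.2)

/-- The point where the frog `x` enters its `j`-th line. -/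
def ent {D : ℕ} (c : Conf D) (x : Site D) (j : ℕ) : Site D := x + ∑ i ∈ Finset.range j, cvec (c (x, i))

/-- The frogs which are activated, in the language of cells. -/
inductive ActC {D : ℕ} (c : Conf D) : Site D → Prop
  | start : ActC c 0
  | visit (x : Site D) (j : ℕ) (h : ℤ) : ActC c x → h ∈ vis (c (x, j)).1 → ActC c (ent c x j + (h, 0))

/-- The visits to the origin, in the language of cells: `(x, j, i)`: frog, line, number of steps on the line. -/
def visC {D : ℕ} (c : Conf D) : Set (Site D × ℕ × ℕ) :=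
  {p | ActC c p.1 ∧ p.2.2 ≤ (c (p.1, p.2.1)).1.length ∧
    ent c p.1 p.2.1 + (dsp ((c (p.1, p.2.1)).1.take p.2.2), 0) = 0}

/-- The word of a cell. -/
def word {D : ℕ} (a : Cell D) : List (Stp D) := a.1.map Sum.inl ++ [Sum.inr a.2]

/-- The steps of a frog from its cells. -/
def stp {D : ℕ} (a : ℕ → Cell D) (n : ℕ) : Stp D :=
  (((List.range (n + 1)).flatMap fun j => word (a j))[n]?).getD (Sum.inl true)

end FDr
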