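import Pool.Agent.Lib.MP_e029a2_pr.LF1
import Pool.Agent.Lib.MP_e029a2_pr.Law

/-!
# The literal model is a model in the sense of `IsFrog`
-/

set_option autoImplicit false

open MeasureTheory ProbabilityTheory

namespace FrogModel

theorem stepWeight_nonneg (D : ℕ) (w α : Set.Ioo (0 : ℝ) 1) (δ : Dir (D + 1)) :
    0 ≤ stepWeight (D + 1) w α δ := by
  have h1 := w.2.1
  have h2 := w.2.2
  have h3 := α.2.1
  have h4 := α.2.2
  unfold stepWeight
  split_ifs
  · have : 0 < 1 + (α : ℝ) := by linarith
    positivity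
  · have : 0 < 1 - (α : ℝ) := by linarith
    positivity
  · have h5 : (0 : ℝ) ≤ ((D + 1 : ℕ) : ℝ) - 1 := by push_cast; linarith [(Nat.cast_nonneg D : (0 : ℝ) ≤ D)]
    have h6 : (0 : ℝ) ≤ 1 - w := by linarith
    positivity

/-- the translation of the steps -/
def toStp {D : ℕ} (δ : Dir (D + 1)) : FDr.Stp D :=
  if h : δ.1 = 0 then Sum.inl δ.2 else Sum.inr (δ.1.pred h, δ.2)

/-- the translation of the sites -/
def toSite {D : ℕ} (x : Site (D + 1)) : FDr.Site D := (x 0, fun i => x i.succ)

/-- the translation of the sites, backwards -/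
def ofSite {D : ℕ} (x : FDr.Site D) : Site (D + 1) := Fin.cons x.1 x.2

theorem toSite_ofSite {D : ℕ} (x : FDr.Site D) : toSite (ofSite x) = x := by
  ext i
  · rfl
  · rfl

theorem ofSite_toSite {D : ℕ} (x : Site (D + 1)) : ofSite (toSite x) = x := by
  ext i
  refine Fin.cases ?_ (fun j => ?_) i
  · rfl
  · rfl

theorem toSite_add {D : ℕ} (x y : Site (D + 1)) : toSite (x + y) = toSite x + toSite y := by
  ext i
  · rfl
  · rfl

theorem toSite_zero {D : ℕ} : toSite (0 : Site (D + 1)) = 0 := by
  ext i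
  · rfl
  · rfl

theorem toSite_inj {D : ℕ} {x y : Site (D + 1)} (h : toSite x = toSite y) : x = y := by
  rw [← ofSite_toSite x, h, ofSite_toSite]

theorem toSite_vec {D : ℕ} (δ : Dir (D + 1)) : toSite (vec δ) = FDr.vec (toStp δ) := by
  obtain ⟨i, b⟩ := δ
  refine Fin.cases ?_ (fun j => ?_) i
  · ext k
    · simp [toSite, vec, toStp, FDr.vec, FDr.sg]
    · simp [toSite, vec, toStp, FDr.vec, FDr.sg]
  · ext k
    · simp [toSite, vec, toStp, FDr.vec, FDr.sg]
    · simp only [toSite, vec, toStp, Fin.succ_ne_zero, dite_false, FDr.vec, FDr.sg, Fin.pred_succ]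
      by_cases hk : k = j
      · subst hk
        simp
      · rw [Pi.single_eq_of_ne (by simpa using hk), Pi.single_eq_of_ne hk]

theorem toSite_sum {D : ℕ} (s : Finset ℕ) (f : ℕ → Site (D + 1)) :
    toSite (∑ i ∈ s, f i) = ∑ i ∈ s, toSite (f i) := by
  classical
  induction s using Finset.induction_on with
  | empty => simp [toSite_zero]
  | insert a s ha ih => rw [Finset.sum_insert ha, Finset.sum_insert ha, toSite_add, ih]

/-- the steps of the model on `ℤ × ℤ^D` -/
def xi {D : ℕ} (x : FDr.Site D) (n : ℕ) (ω : Env (D + 1)) : FDr.Stp D := toStp (ω (ofSite x, n))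

theorem pos_toSite {D : ℕ} (ω : Env (D + 1)) (x : Site (D + 1)) (k : ℕ) :
    toSite (pos ω x k) = FDr.pos (fun n => xi (toSite x) n ω) (toSite x) k := by
  unfold pos FDr.pos
  rw [toSite_add, toSite_sum]
  congr 1
  refine Finset.sum_congr rfl fun i _ => ?_
  rw [toSite_vec]
  show _ = FDr.vec (toStp (ω (ofSite (toSite x), i)))
  rw [ofSite_toSite]

theorem reached_iff {D : ℕ} (ω : Env (D + 1)) (x : Site (D + 1)) :
    Reached ω x ↔ FDr.Active (fun x n => xi x n ω) (toSite x) := by
  constructor
  · intro h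
    induction h with
    | start => rw [toSite_zero]; exact FDr.Active.start
    | visit x k _ ih =>
      rw [pos_toSite]
      exact FDr.Active.visit _ k ih
  · intro h
    have h1 : ∀ y, FDr.Active (fun x n => xi x n ω) y → Reached ω (ofSite y) := by
      intro y hy
      induction hy with
      | start =>
        have : ofSite (0 : FDr.Site D) = 0 := toSite_inj (by rw [toSite_ofSite, toSite_zero])
        rw [this]
        exact Reached.start
      | visit y k _ ih =>
        have : ofSite (FDr.pos (fun n => xi y n ω) y k) = pos ω (ofSite y) k := by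
          apply toSite_inj
          rw [toSite_ofSite, pos_toSite, toSite_ofSite]
        rw [this]
        exact Reached.visit _ k ih
    have h2 := h1 _ h
    rwa [ofSite_toSite] at h2

theorem visits_iff {D : ℕ} (ω : Env (D + 1)) :
    (visitPairs ω).Infinite ↔ (FDr.visits fun x n => xi x n ω).Infinite := by
  have h1 : FDr.visits (fun x n => xi x n ω) = (fun p : Site (D + 1) × ℕ => (toSite p.1, p.2)) '' visitPairs ω := by
    ext ⟨x, k⟩
    constructor
    · rintro ⟨h2, h3⟩
      refine ⟨(ofSite x, k), ⟨?_, ?_⟩, ?_⟩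
      · rw [reached_iff, toSite_ofSite]
        exact h2
      · apply toSite_inj
        rw [pos_toSite, toSite_ofSite, toSite_zero]
        exact h3
      · simp [toSite_ofSite]
    · rintro ⟨⟨y, j⟩, ⟨h2, h3⟩, h4⟩
      rw [Prod.mk.injEq] at h4
      obtain ⟨rfl, rfl⟩ := h4
      refine ⟨(reached_iff ω y).1 h2, ?_⟩
      rw [← toSite_zero, ← h3, pos_toSite]
  rw [h1, Set.infinite_image_iff]
  rintro ⟨x, i⟩ _ ⟨y, j⟩ _ h
  rw [Prod.mk.injEq] at h
  exact Prod.ext (toSite_inj h.1) h.2

end FrogModel
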