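import Pool.Agent.Lib.MP_e029a2_pr.LF2

/-!
# The law of the literal model
-/

set_option autoImplicit false

open MeasureTheory ProbabilityTheory

namespace FrogModel

theorem stepWeight_toStp (D : ℕ) (w α : ℝ) (δ : Dir (D + 1)) :
    stepWeight (D + 1) w α δ = FDr.wt w α D (toStp δ) := by
  obtain ⟨i, b⟩ := δ
  refine Fin.cases ?_ (fun j => ?_) i
  · cases b <;> simp [stepWeight, toStp, FDr.wt]
  · simp [stepWeight, toStp, FDr.wt]

theorem toStp_injective (D : ℕ) : Function.Injective (toStp : Dir (D + 1) → FDr.Stp D) := by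
  rintro ⟨i, b⟩ ⟨j, c⟩ h
  by_cases hi : i = 0
  · by_cases hj : j = 0
    · subst hi hj
      simpa [toStp] using h
    · simp [toStp, hi, hj] at h
  · by_cases hj : j = 0
    · simp [toStp, hi, hj] at h
    · simp only [toStp, hi, hj, dite_false, Sum.inr.injEq, Prod.mk.injEq, Fin.pred_inj] at h
      exact Prod.ext h.1 h.2

theorem stepWeight_sum (D : ℕ) (hD : 1 ≤ D) (w α : ℝ) : ∑ δ : Dir (D + 1), stepWeight (D + 1) w α δ = 1 := by
  rw [Fintype.sum_prod_type, Fin.sum_univ_succ]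
  have hD' : (D : ℝ) ≠ 0 := by exact_mod_cast (by omega : D ≠ 0)
  simp only [Fintype.sum_bool, stepWeight, Fin.val_zero, if_true, Fin.val_succ, Nat.succ_ne_zero,
    if_false, Bool.false_eq_true, Finset.sum_const, Finset.card_univ, Fintype.card_fin, Fintype.card_bool,
    nsmul_eq_mul]
  push_cast
  have h1 : ((D : ℝ) + 1 - 1) = D := by ring
  rw [h1]
  field_simp
  ring

theorem stepLaw_apply_singleton (d : ℕ) (w α : ℝ) (δ : Dir d) :
    stepLaw d w α {δ} = ENNReal.ofReal (stepWeight d w α δ) := by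
  unfold stepLaw
  rw [Measure.finsetSum_apply]
  rw [Finset.sum_eq_single δ]
  · rw [Measure.smul_apply, Measure.dirac_apply_of_mem (Set.mem_singleton δ), smul_eq_mul, mul_one]
  · intro δ' _ h
    rw [Measure.smul_apply, Measure.dirac_apply' _ (measurableSet_singleton δ)]
    simp [h]
  · intro h
    exact absurd (Finset.mem_univ δ) h

theorem stepLaw_prob (D : ℕ) (hD : 1 ≤ D) (w α : Set.Ioo (0 : ℝ) 1) :
    IsProbabilityMeasure (stepLaw (D + 1) (w : ℝ) (α : ℝ)) := by
  constructor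
  unfold stepLaw
  rw [Measure.finsetSum_apply]
  have h1 : ∀ δ : Dir (D + 1), (ENNReal.ofReal (stepWeight (D + 1) w α δ) • Measure.dirac δ : Measure (Dir (D + 1)))
      Set.univ = ENNReal.ofReal (stepWeight (D + 1) w α δ) := by
    intro δ
    rw [Measure.smul_apply, Measure.dirac_apply_of_mem (Set.mem_univ _), smul_eq_mul, mul_one]
  rw [Finset.sum_congr rfl fun δ _ => h1 δ, ← ENNReal.ofReal_sum_of_nonneg fun δ _ => stepWeight_nonneg D w α δ,
    stepWeight_sum D hD, ENNReal.ofReal_one]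

theorem frogLaw_prob (D : ℕ) (hD : 1 ≤ D) (w α : Set.Ioo (0 : ℝ) 1) :
    IsProbabilityMeasure (frogLaw (D + 1) (w : ℝ) (α : ℝ)) := by
  have := stepLaw_prob D hD w α
  unfold frogLaw
  infer_instance

theorem isFrog (D : ℕ) (hD : 1 ≤ D) (w α : Set.Ioo (0 : ℝ) 1) :
    FDr.IsFrog D (w : ℝ) (α : ℝ) (frogLaw (D + 1) (w : ℝ) (α : ℝ)) (fun x n ω => xi x n ω) := by
  have hp := stepLaw_prob D hD w α
  have hm : Measurable (toStp : Dir (D + 1) → FDr.Stp D) := measurable_of_finite _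
  have hmx : ∀ p : FDr.Site D × ℕ, Measurable (fun ω : Env (D + 1) => ω (ofSite p.1, p.2)) :=
    fun p => measurable_pi_apply _
  refine ⟨fun x n => hm.comp (hmx (x, n)), ?_, ?_⟩
  · have h1 : iIndepFun (fun (p : Site (D + 1) × ℕ) (ω : Env (D + 1)) => toStp (ω p))
        (frogLaw (D + 1) (w : ℝ) (α : ℝ)) := by
      unfold frogLaw
      exact iIndepFun_infinitePi (X := fun _ => toStp) fun _ => hm
    have h2 : Function.Injective (fun p : FDr.Site D × ℕ => ((ofSite p.1, p.2) : Site (D + 1) × ℕ)) := by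
      rintro ⟨x, i⟩ ⟨y, j⟩ h
      rw [Prod.mk.injEq] at h
      have h3 := congrArg toSite h.1
      simp only [toSite_ofSite] at h3
      exact Prod.ext h3 h.2
    exact h1.precomp h2
  · intro x n s
    have h1 : MeasurePreserving (fun ω : Env (D + 1) => ω (ofSite x, n)) (frogLaw (D + 1) (w : ℝ) (α : ℝ))
        (stepLaw (D + 1) (w : ℝ) (α : ℝ)) := by
      unfold frogLaw
      exact measurePreserving_eval_infinitePi (μ := fun _ : Site (D + 1) × ℕ => stepLaw (D + 1) (w : ℝ) (α : ℝ)) (ofSite x, n)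
    have h2 : {ω : Env (D + 1) | xi x n ω = s} = (fun ω : Env (D + 1) => ω (ofSite x, n)) ⁻¹' (toStp ⁻¹' {s}) := rfl
    rw [h2, h1.measure_preimage (MeasurableSet.of_discrete).nullMeasurableSet]
    have h3 : ∃ δ : Dir (D + 1), toStp δ = s := by
      rcases s with b | ⟨i, b⟩
      · exact ⟨(0, b), by simp [toStp]⟩
      · exact ⟨(i.succ, b), by simp [toStp]⟩
    obtain ⟨δ, rfl⟩ := h3
    have h4 : (toStp ⁻¹' {toStp δ} : Set (Dir (D + 1))) = {δ} := by
      ext δ'
      simp only [Set.mem_preimage, Set.mem_singleton_iff]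
      exact (toStp_injective D).eq_iff
    rw [h4, stepLaw_apply_singleton, stepWeight_toStp]

theorem prob_infinite (D : ℕ) (w α : Set.Ioo (0 : ℝ) 1)
    (h : FDr.Recurrent (frogLaw (D + 1) (w : ℝ) (α : ℝ)) (fun x n ω => xi (D := D) x n ω)) :
    ∀ᵐ ω ∂(frogLaw (D + 1) (w : ℝ) (α : ℝ)), {t | originVisited ω t}.Infinite := by
  filter_upwards [h] with ω hω
  rw [infinite_iff, visits_iff]
  exact hω

theorem prob_finite (D : ℕ) (w α : Set.Ioo (0 : ℝ) 1)
    (h : ∀ᵐ ω ∂(frogLaw (D + 1) (w : ℝ) (α : ℝ)), (FDr.visits fun x n => xi (D := D) x n ω).Finite) :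
    ∀ᵐ ω ∂(frogLaw (D + 1) (w : ℝ) (α : ℝ)), {t | originVisited ω t}.Finite := by
  filter_upwards [h] with ω hω
  by_contra h1
  have h2 : {t | originVisited ω t}.Infinite := h1
  rw [infinite_iff, visits_iff] at h2
  exact h2 hω

end FrogModel
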