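import Pool.Agent.Lib.MP_e029a2_pr.LFDef

/-!
# The frog model with death on `Z^m`

Every frog is a symmetric simple random walk on `Z^m` which dies before every step with the probability `w`.
`ω (x, k)` is the step number `k + 1` of the frog which starts at the site `x`; the value `none` is its death.
-/

set_option autoImplicit false

open MeasureTheory

namespace FrogModel

/-- Environments with deaths. -/
abbrev KEnv (m : ℕ) := Site m × ℕ → Option (Dir m)

instance (m : ℕ) : MeasurableSpace (Option (Dir m)) := ⊤

/-- The law of a step: the death has the probability `w`, every signed unit vector has the probability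
`(1 - w) / (2 m)`. -/
noncomputable def killLaw (m : ℕ) (w : ℝ) : Measure (Option (Dir m)) :=
  ENNReal.ofReal w • Measure.dirac none + ∑ δ : Dir m, ENNReal.ofReal ((1 - w) / (2 * m)) • Measure.dirac (some δ)

/-- All the steps of all the frogs are independent with the law `killLaw`. -/
noncomputable def killFrogLaw (m : ℕ) (w : ℝ) : Measure (KEnv m) :=
  Measure.infinitePi fun _ : Site m × ℕ => killLaw m w

/-- The position of the frog `x` after `k` steps of its own (before its death). -/
def killPos {m : ℕ} (ω : KEnv m) (x : Site m) (k : ℕ) : Site m :=
  x + ∑ i ∈ Finset.range k, (ω (x, i)).elim 0 vec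

/-- The frogs which are activated: the frog of the origin, and the frogs of all the sites which are visited by an
activated frog before its death. -/
inductive Awoken {m : ℕ} (ω : KEnv m) : Site m → Prop
  | origin : Awoken ω 0
  | hit (x : Site m) (k : ℕ) : Awoken ω x → (∀ i < k, ω (x, i) ≠ none) → Awoken ω (killPos ω x k)

/-- The critical death probability: the supremum of the death probabilities for which infinitely many frogs are
activated with a positive probability. -/
noncomputable def wCrit (m : ℕ) : ℝ :=
  sSup {w : ℝ | 0 < w ∧ w < 1 ∧ 0 < killFrogLaw m w {ω | {x | Awoken ω x}.Infinite}}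

end FrogModel
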