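import Mathlib

/-!
# The frog model with drift on `Z^d`, as in the problem

`Env d` is the space of all the steps: `ω (x, k)` is the step number `k + 1` of the frog which starts at
the site `x`.  A step is a signed coordinate `(i, b) : Fin d × Bool`, that is `± e_{i+1}`.
-/

set_option autoImplicit false

open MeasureTheory

namespace FrogModel

/-- The sites of `Z^d`. -/
abbrev Site (d : ℕ) := Fin d → ℤ

/-- The signed unit vectors. -/
abbrev Dir (d : ℕ) := Fin d × Bool

/-- The vector of a signed direction: `e_i` for `(i, true)` and `- e_i` for `(i, false)`. -/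
def vec {d : ℕ} (δ : Dir d) : Site d := Pi.single δ.1 (if δ.2 then 1 else -1)

/-- The step law `π_{w,α}`: `w (1 + α) / 2` for `e_1`, `w (1 - α) / 2` for `- e_1` and
`(1 - w) / (2 (d - 1))` for each of the other signed unit vectors (the first element of
`Fin d` is `0`). -/
noncomputable def stepWeight (d : ℕ) (w α : ℝ) (δ : Dir d) : ℝ :=
  if (δ.1 : ℕ) = 0 then (if δ.2 then w * (1 + α) / 2 else w * (1 - α) / 2)
  else (1 - w) / (2 * ((d : ℝ) - 1))

/-- The step law as a measure on the finite set of the signed directions. -/
noncomputable def stepLaw (d : ℕ) (w α : ℝ) : Measure (Dir d) :=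
  ∑ δ : Dir d, ENNReal.ofReal (stepWeight d w α δ) • Measure.dirac δ

/-- Environments: all the steps of all the frogs. -/
abbrev Env (d : ℕ) := Site d × ℕ → Dir d

/-- The law of `FM(d, π_{w,α})`: all the steps of all the frogs are independent with the law
`stepLaw`. -/
noncomputable def frogLaw (d : ℕ) (w α : ℝ) : Measure (Env d) :=
  Measure.infinitePi fun _ : Site d × ℕ => stepLaw d w α

/-- The position of the frog `x` after `k` steps of its own. -/
def pos {d : ℕ} (ω : Env d) (x : Site d) (k : ℕ) : Site d :=
  x + ∑ i ∈ Finset.range k, vec (ω (x, i))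

/-- `wake ω t` is the set of the frogs which are activated exactly at time `t`: the frog of the
origin at time `0`; a frog `y` at time `t + 1` if it was not activated before and some frog `x`
activated at a time `s ≤ t` is at the site `y` at time `t + 1`. -/
def wake {d : ℕ} (ω : Env d) : ℕ → Set (Site d)
  | 0 => {0}
  | t + 1 => {y | (∀ s : Fin (t + 1), y ∉ wake ω s.1) ∧
      ∃ s : Fin (t + 1), ∃ x ∈ wake ω s.1, pos ω x (t + 1 - s.1) = y}

/-- Some active frog is at the origin at time `t`. -/
def originVisited {d : ℕ} (ω : Env d) (t : ℕ) : Prop :=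
  ∃ s ≤ t, ∃ x ∈ wake ω s, pos ω x (t - s) = 0

end FrogModel
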