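import Pool.Agent.Lib.MP_e029a2_pr.Law

/-!
# The threshold of `Lam` in `w`
-/

set_option autoImplicit false

namespace FDr

open scoped ENNReal

/-- a function with values in `[0, ∞]` of `w ∈ (0,1)` which is `< 1` after every point where it is `≤ 1` has a
threshold -/
theorem exists_threshold (g : Set.Ioo (0 : ℝ) 1 → ℝ≥0∞)
    (hg : ∀ w' w : Set.Ioo (0 : ℝ) 1, w' < w → g w' ≤ 1 → g w < 1) (lo up : ℝ) (hlo : 0 < lo) (hlo1 : lo ≤ 1)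
    (h1 : ∀ w : Set.Ioo (0 : ℝ) 1, (w : ℝ) < lo → 1 < g w)
    (h2 : ∀ w : Set.Ioo (0 : ℝ) 1, 1 < (w : ℝ) * up → g w < 1) :
    ∃ f : ℝ, lo ≤ f ∧ f ≤ 1 ∧ f * up ≤ 1 ∧
      ∀ w : Set.Ioo (0 : ℝ) 1, ((w : ℝ) < f → 1 < g w) ∧ (f < (w : ℝ) → g w < 1) := by
  set S : Set ℝ := {x | ∃ w : Set.Ioo (0 : ℝ) 1, (w : ℝ) = x ∧ 1 < g w} with hS
  have hne : S.Nonempty := by
    have hm : lo / 2 ∈ Set.Ioo (0 : ℝ) 1 := ⟨by linarith, by linarith⟩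
    exact ⟨lo / 2, ⟨lo / 2, hm⟩, rfl, h1 ⟨lo / 2, hm⟩ (by show lo / 2 < lo; linarith)⟩
  have hbd : ∀ x ∈ S, x ≤ 1 := by
    rintro x ⟨w, rfl, -⟩
    exact w.2.2.le
  have hB : BddAbove S := ⟨1, fun x hx => hbd x hx⟩
  have hlow : ∀ w : Set.Ioo (0 : ℝ) 1, (w : ℝ) < sSup S → 1 < g w := by
    intro w hw
    obtain ⟨x, ⟨w', rfl, hw'⟩, hx⟩ := exists_lt_of_lt_csSup hne hw
    by_contra hc
    exact absurd hw' (not_lt.2 (hg w w' hx (not_lt.1 hc)).le)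
  have hupp : ∀ w : Set.Ioo (0 : ℝ) 1, sSup S < (w : ℝ) → g w < 1 := by
    intro w hw
    have hpos : 0 < sSup S := by
      obtain ⟨x, hx⟩ := hne
      obtain ⟨w', rfl, -⟩ := id hx
      exact lt_of_lt_of_le w'.2.1 (le_csSup hB hx)
    have hm : (sSup S + w) / 2 ∈ Set.Ioo (0 : ℝ) 1 := ⟨by linarith, by linarith [w.2.2]⟩
    refine hg ⟨(sSup S + w) / 2, hm⟩ w (by show (sSup S + w) / 2 < (w : ℝ); linarith) ?_
    by_contra hc
    have h3 : (sSup S + w) / 2 ≤ sSup S := le_csSup hB ⟨⟨(sSup S + w) / 2, hm⟩, rfl, not_le.1 hc⟩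
    linarith
  refine ⟨sSup S, ?_, csSup_le hne hbd, ?_, fun w => ⟨hlow w, hupp w⟩⟩
  · by_contra hc
    have hc := not_le.1 hc
    have hpos : 0 < sSup S := by
      obtain ⟨x, hx⟩ := hne
      obtain ⟨w', rfl, -⟩ := id hx
      exact lt_of_lt_of_le w'.2.1 (le_csSup hB hx)
    have hm : (sSup S + lo) / 2 ∈ Set.Ioo (0 : ℝ) 1 := ⟨by linarith, by linarith⟩
    have h3 : 1 < g ⟨(sSup S + lo) / 2, hm⟩ := h1 _ (by show (sSup S + lo) / 2 < lo; linarith)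
    have h4 : (sSup S + lo) / 2 ≤ sSup S := le_csSup hB ⟨⟨(sSup S + lo) / 2, hm⟩, rfl, h3⟩
    linarith
  · by_contra hc
    have hc := not_le.1 hc
    have hpos : 0 < sSup S := by
      obtain ⟨x, hx⟩ := hne
      obtain ⟨w', rfl, -⟩ := id hx
      exact lt_of_lt_of_le w'.2.1 (le_csSup hB hx)
    have hup : 0 < up := by
      by_contra h5
      nlinarith [not_lt.1 h5]
    have h6 : 1 / up < sSup S := by
      rw [div_lt_iff₀ hup]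
      exact hc
    obtain ⟨x, ⟨w', rfl, hw'⟩, hx⟩ := exists_lt_of_lt_csSup hne h6
    rw [div_lt_iff₀ hup] at hx
    exact absurd hw' (not_lt.2 (h2 w' hx).le)

end FDr
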