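import Pool.Agent.Lib.MP_e029a2_pr.TA

/-!
# Transience, part B: indicators, independence, measurability
-/

set_option autoImplicit false

namespace FDr.TR

open MeasureTheory ProbabilityTheory
open scoped ENNReal

/-! ### Indicators -/

open Classical in
/-- The indicator of a proposition. -/
noncomputable def ind (p : Prop) : ℝ≥0∞ := if p then 1 else 0

theorem ind_true {p : Prop} (h : p) : ind p = 1 := by simp [ind, h]

theorem ind_false {p : Prop} (h : ¬p) : ind p = 0 := by simp [ind, h]

theorem ind_mono {p q : Prop} (h : p → q) : ind p ≤ ind q := by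
  by_cases hp : p
  · rw [ind_true hp, ind_true (h hp)]
  · rw [ind_false hp]
    exact zero_le

theorem ind_and (p q : Prop) : ind (p ∧ q) = ind p * ind q := by
  by_cases hp : p
  · by_cases hq : q
    · rw [ind_true ⟨hp, hq⟩, ind_true hp, ind_true hq, mul_one]
    · rw [ind_false fun h => hq h.2, ind_false hq, mul_zero]
  · rw [ind_false fun h => hp h.1, ind_false hp, zero_mul]

theorem ind_congr {p q : Prop} (h : p ↔ q) : ind p = ind q := by
  rw [propext h]

theorem measurable_ind {α : Type*} [MeasurableSpace α] {p : α → Prop} (hp : Measurable p) :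
    Measurable fun a => ind (p a) := by
  classical
  unfold ind
  exact Measurable.ite (measurableSet_setOfPred.2 hp) measurable_const measurable_const

theorem lintegral_ind {α : Type*} [MeasurableSpace α] (μ : Measure α) {p : α → Prop} (hp : Measurable p) :
    ∫⁻ a, ind (p a) ∂μ = μ {a | p a} := by
  classical
  rw [← lintegral_indicator_one (measurableSet_setOfPred.2 hp)]
  refine lintegral_congr fun a => ?_
  unfold ind Set.indicator
  rfl

theorem tsum_ind_and {α : Type*} (a : α) (p : Prop) : ∑' e, ind (e = a ∧ p) = ind p := by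
  rw [tsum_eq_single a]
  · exact ind_congr ⟨fun h => h.2, fun h => ⟨rfl, h⟩⟩
  · intro e he
    exact ind_false fun h => he h.1

theorem tsum_opt {α : Type*} (f : Option α → ℝ≥0∞) : ∑' o, f o = f none + ∑' a, f (some a) := by
  classical
  rw [ENNReal.tsum_eq_add_tsum_ite none]
  congr 1
  refine ((Function.Injective.tsum_eq (Option.some_injective α) ?_).symm.trans ?_)
  · intro o ho
    cases o with
    | none => simp at ho
    | some a => exact ⟨a, rfl⟩
  · simp

/-! ### Product measures -/

section prod

variable {ι X : Type*} [MeasurableSpace X] (μ : Measure X) [IsProbabilityMeasure μ]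

open Classical in
/-- Two independent configurations may be merged. -/
theorem map_merge (S : Set ι) :
    Measure.map (fun (p : (ι → X) × (ι → X)) i => if i ∈ S then p.1 i else p.2 i)
      ((Measure.infinitePi fun _ : ι => μ).prod (Measure.infinitePi fun _ : ι => μ)) =
      Measure.infinitePi fun _ : ι => μ := by
  refine Measure.eq_infinitePi _ fun s t ht => ?_
  have hm : Measurable fun (p : (ι → X) × (ι → X)) i => if i ∈ S then p.1 i else p.2 i := by
    refine measurable_pi_lambda _ fun i => ?_
    by_cases hi : i ∈ S
    · simp only [hi, if_true]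
      exact (measurable_pi_apply i).comp measurable_fst
    · simp only [hi, if_false]
      exact (measurable_pi_apply i).comp measurable_snd
  rw [Measure.map_apply hm (MeasurableSet.pi s.countable_toSet fun i _ => ht i)]
  have h1 : (fun (p : (ι → X) × (ι → X)) i => if i ∈ S then p.1 i else p.2 i) ⁻¹' (Set.pi s t) =
      (Set.pi (s.filter fun i => i ∈ S) t) ×ˢ (Set.pi (s.filter fun i => i ∉ S) t) := by
    ext p
    simp only [Set.mem_preimage, Set.mem_pi, Set.mem_prod, Finset.coe_filter, Set.mem_ofPred_eq, Finset.mem_coe]
    constructor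
    · intro h
      refine ⟨fun i hi => ?_, fun i hi => ?_⟩
      · have := h i hi.1
        rwa [if_pos hi.2] at this
      · have := h i hi.1
        rwa [if_neg hi.2] at this
    · intro h i hi
      by_cases hS : i ∈ S
      · rw [if_pos hS]
        exact h.1 i ⟨hi, hS⟩
      · rw [if_neg hS]
        exact h.2 i ⟨hi, hS⟩
  rw [h1, Measure.prod_prod, Measure.infinitePi_pi _ fun i _ => ht i, Measure.infinitePi_pi _ fun i _ => ht i]
  exact Finset.prod_filter_mul_prod_filter_not s _ _

/-- Functions of disjoint sets of coordinates are independent. -/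
theorem lintegral_mul_of_disj (S : Set ι) {f g : (ι → X) → ℝ≥0∞} (hf : Measurable f) (hg : Measurable g)
    (hfS : ∀ c c' : ι → X, (∀ i ∈ S, c i = c' i) → f c = f c')
    (hgS : ∀ c c' : ι → X, (∀ i, i ∉ S → c i = c' i) → g c = g c') :
    ∫⁻ c, f c * g c ∂(Measure.infinitePi fun _ : ι => μ) =
      (∫⁻ c, f c ∂(Measure.infinitePi fun _ : ι => μ)) * ∫⁻ c, g c ∂(Measure.infinitePi fun _ : ι => μ) := by
  classical
  have hm : Measurable fun (p : (ι → X) × (ι → X)) i => if i ∈ S then p.1 i else p.2 i := by
    refine measurable_pi_lambda _ fun i => ?_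
    by_cases hi : i ∈ S
    · simp only [hi, if_true]
      exact (measurable_pi_apply i).comp measurable_fst
    · simp only [hi, if_false]
      exact (measurable_pi_apply i).comp measurable_snd
  calc ∫⁻ c, f c * g c ∂(Measure.infinitePi fun _ : ι => μ)
      = ∫⁻ c, f c * g c ∂(Measure.map (fun (p : (ι → X) × (ι → X)) i => if i ∈ S then p.1 i else p.2 i)
      ((Measure.infinitePi fun _ : ι => μ).prod (Measure.infinitePi fun _ : ι => μ))) := by rw [map_merge μ S]
    _ = ∫⁻ p, f p.1 * g p.2 ∂((Measure.infinitePi fun _ : ι => μ).prod (Measure.infinitePi fun _ : ι => μ)) := by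
        have hfg : Measurable fun c => f c * g c := hf.mul hg
        rw [lintegral_map hfg hm]
        refine lintegral_congr fun p => ?_
        congr 1
        · exact hfS _ _ fun i hi => if_pos hi
        · exact hgS _ _ fun i hi => if_neg hi
    _ = _ := lintegral_prod_mul hf.aemeasurable hg.aemeasurable

/-- Reindexing. -/
theorem lintegral_reindex {ι' : Type*} {ψ : ι' → ι} (hψ : Function.Injective ψ) {g : (ι' → X) → ℝ≥0∞}
    (hg : Measurable g) :
    ∫⁻ c, g (fun i => c (ψ i)) ∂(Measure.infinitePi fun _ : ι => μ) = ∫⁻ c, g c ∂(Measure.infinitePi fun _ : ι' => μ) := by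
  rw [← Measure.map_infinitePi_infinitePi_of_inj (P := fun _ : ι => μ) hψ, lintegral_map hg]
  exact measurable_pi_lambda _ fun i => measurable_pi_apply _

/-- One coordinate. -/
theorem lintegral_coord (i : ι) {g : X → ℝ≥0∞} (hg : Measurable g) :
    ∫⁻ c, g (c i) ∂(Measure.infinitePi fun _ : ι => μ) = ∫⁻ a, g a ∂μ := by
  rw [← lintegral_map hg (measurable_pi_apply i), Measure.infinitePi_map_eval]

end prod

/-! ### Measurability -/

variable {D : ℕ}

theorem measurable_oent (z : Site D) (o : Option (Site D)) (j : ℕ) :
    Measurable fun c : OConf D => oent z c o j := by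
  unfold oent
  refine Measurable.add measurable_const (Finset.measurable_sum _ fun i _ => ?_)
  exact (measurable_of_countable cvec).comp (measurable_pi_apply _)

theorem measurable_ovis (z : Site D) (e : Ix D) (y : Site D) : Measurable fun c : OConf D => OVis z c e y := by
  have h1 : ∀ c : OConf D, OVis z c e y ↔ ∃ h : ℤ, h ∈ vis (c e).1 ∧ oent z c e.1 e.2 + (h, 0) = y := fun c => Iff.rfl
  rw [funext fun c => propext (h1 c)]
  refine Measurable.exists fun h => Measurable.and ?_ ?_
  · exact (measurable_of_countable fun a : Cell D => h ∈ vis a.1).comp (measurable_pi_apply e)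
  · exact (measurable_of_countable fun x : Site D => x + (h, 0) = y).comp (measurable_oent z e.1 e.2)

/-- The cells which are used after at most `k` steps of the construction. -/
def EK (F : Set (Site D)) (z : Site D) (c : OConf D) : ℕ → ℕ → Ix D → Prop
  | 0, _, e => e = (none, 0)
  | k + 1, n, e => EK F z c k n e ∨ (∃ (m : ℕ) (o : Option (Site D)) (j : ℕ), EK F z c k m (o, j) ∧ n = m + 1 ∧
      e = (o, j + 1)) ∨ ∃ (e' : Ix D) (y : Site D), EK F z c k n e' ∧ y ∈ F ∧ OVis z c e' y ∧ e = (some y, 0)

theorem ent_iff_ek {F : Set (Site D)} {z : Site D} {c : OConf D} {n : ℕ} {e : Ix D} :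
    Ent F z c n e ↔ ∃ k, EK F z c k n e := by
  constructor
  · intro h
    induction h with
    | src n => exact ⟨0, rfl⟩
    | cont n o j _ ih =>
      obtain ⟨k, hk⟩ := ih
      exact ⟨k + 1, Or.inr (Or.inl ⟨n, o, j, hk, rfl, rfl⟩)⟩
    | wake n e y _ hy hv ih =>
      obtain ⟨k, hk⟩ := ih
      exact ⟨k + 1, Or.inr (Or.inr ⟨e, y, hk, hy, hv, rfl⟩)⟩
  · rintro ⟨k, hk⟩
    induction k generalizing n e with
    | zero =>
      obtain rfl : e = (none, 0) := hk
      exact Ent.src _
    | succ k ih =>
      rcases hk with h | ⟨m, o, j, h, rfl, rfl⟩ | ⟨e', y, h, hy, hv, rfl⟩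
      · exact ih h
      · exact Ent.cont _ _ _ (ih h)
      · exact Ent.wake _ _ _ (ih h) hy hv

theorem measurable_ent (F : Set (Site D)) (z : Site D) (n : ℕ) (e : Ix D) :
    Measurable fun c : OConf D => Ent F z c n e := by
  rw [funext fun c : OConf D => propext (ent_iff_ek (F := F) (z := z) (c := c) (n := n) (e := e))]
  refine Measurable.exists fun k => ?_
  induction k generalizing n e with
  | zero => exact measurable_const
  | succ k ih =>
    refine Measurable.or (ih n e) (Measurable.or ?_ ?_)
    · refine Measurable.exists fun m => Measurable.exists fun o => Measurable.exists fun j => ?_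
      exact (ih m (o, j)).and measurable_const
    · refine Measurable.exists fun e' => Measurable.exists fun y => ?_
      exact (ih n e').and (measurable_const.and ((measurable_ovis z e' y).and measurable_const))

theorem measurable_clu (F C : Set (Site D)) (z : Site D) : Measurable fun c : OConf D => clu F z c = C := by
  have h1 : ∀ c : OConf D, clu F z c = C ↔ ∀ y, Ent F z c 0 (some y, 0) ↔ y ∈ C := fun c => Set.ext_iff
  rw [funext fun c => propext (h1 c)]
  exact Measurable.forall fun y => (measurable_ent F z 0 (some y, 0)).iff measurable_const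

end FDr.TR
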