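import Pool.Agent.Lib.MP_e029a2_pr.MA1

/-!
# The monotonicity in `α`, part 2: the cluster if the run of one frog is continued
-/

set_option autoImplicit false

namespace FDr.MA

open MeasureTheory ProbabilityTheory
open scoped ENNReal

open FDr.TH (CL cS fr pl fr_none cS_next cS_subset cS_congr CL_congr CL_congr_iff CL_decomp CL_nil end_notMem vis_append
  dsp_append zero_mem_vis)

open FDr.TR (ind_true ind_false ind_mono ind_congr)

/-- The part of the activated frogs of `S` in the sum of `s ^ (place of death)`. -/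
noncomputable def vl (s : ℝ) (S : Finset ℤ) (h : ℤ) (r : Run) (c : ℤ → Run) : ℝ≥0∞ :=
  ∑ x ∈ S, TR.ind (CL (↑S : Set ℤ) h r c x) * ENNReal.ofReal (s ^ (x + dsp (c x)))

/-- The sum of `s ^ (place of death)` over the arriving frog and the activated frogs. -/
noncomputable def V (s : ℝ) (S : Finset ℤ) (h : ℤ) (r : Run) (c : ℤ → Run) : ℝ≥0∞ :=
  ENNReal.ofReal (s ^ (h + dsp r)) + vl s S h r c

theorem V_eq_sum (s : ℝ) {S C : Finset ℤ} {h : ℤ} {c : Option ℤ → Run} (hC : cS (↑S : Set ℤ) h c = ↑C) :
    V s S h (c none) (fun x => c (some x)) =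
      ∑ f ∈ Finset.insertNone C, ENNReal.ofReal (s ^ (pl h f + dsp (c f))) := by
  classical
  have hCS : C ⊆ S := by
    rw [← Finset.coe_subset, ← hC]
    exact cS_subset _ _ _
  have hm : ∀ x, CL (↑S : Set ℤ) h (c none) (fun x => c (some x)) x ↔ x ∈ C := by
    intro x
    have h1 : x ∈ cS (↑S : Set ℤ) h c ↔ x ∈ (↑C : Set ℤ) := by rw [hC]
    exact h1.trans Finset.mem_coe
  unfold V vl
  have h2 : ∑ f ∈ Finset.insertNone C, ENNReal.ofReal (s ^ (pl h f + dsp (c f))) =
      ENNReal.ofReal (s ^ (pl h none + dsp (c none))) + ∑ x ∈ C, ENNReal.ofReal (s ^ (pl h (some x) + dsp (c (some x)))) :=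
    Finset.sum_insertNone _ _
  rw [h2]
  congr 1
  rw [← Finset.sum_subset hCS]
  · refine Finset.sum_congr rfl fun x hx => ?_
    rw [ind_true ((hm x).2 hx), one_mul]
    rfl
  · intro x _ hx
    rw [ind_false fun h => hx ((hm x).1 h), zero_mul]

theorem vis_mono_append (l t : Run) : vis l ⊆ vis (l ++ t) := by
  rintro x ⟨i, hi, rfl⟩
  refine ⟨i, ?_, ?_⟩
  · rw [List.length_append]
    omega
  · rw [List.take_append_of_le_length hi]

theorem vis_append_right {l t : Run} {x : ℤ} (hx : x ∈ vis t) : dsp l + x ∈ vis (l ++ t) := by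
  obtain ⟨i, hi, rfl⟩ := hx
  refine ⟨l.length + i, ?_, ?_⟩
  · rw [List.length_append]
    omega
  · rw [List.take_append, List.take_of_length_le (by omega), dsp_append, Nat.add_sub_cancel_left]

theorem CL_mono_run {S : Set ℤ} {h : ℤ} {c c' : Option ℤ → Run} (hc : ∀ f, vis (c f) ⊆ vis (c' f)) {z : ℤ}
    (H : z ∈ cS S h c) : z ∈ cS S h c' := by
  have H' : CL S h (c none) (fun x => c (some x)) z := H
  induction H' with
  | enter z hz hS => exact CL.enter z (hc none hz) hS
  | next z z' H1 hv hS ih => exact CL.next z z' (ih H1) (hc (some z) hv) hS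

open Classical in
/-- The cluster if the run of a frog of the cluster is continued. -/
theorem cS_split {S C : Set ℤ} {h : ℤ} {c : Option ℤ → Run} {f₀ : Option ℤ} {l t : Run}
    (hC : cS S h (Function.update c f₀ l) = C) (hf : fr C f₀) (z : ℤ) :
    z ∈ cS S h (Function.update c f₀ (l ++ t)) ↔
      z ∈ C ∨ CL (S \ C) (pl h f₀ + dsp l) t (fun x => c (some x)) z := by
  obtain ⟨c0, hc0⟩ : ∃ c0, c0 = Function.update c f₀ l := ⟨_, rfl⟩
  obtain ⟨c1, hc1⟩ : ∃ c1, c1 = Function.update c f₀ (l ++ t) := ⟨_, rfl⟩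
  rw [← hc0] at hC
  rw [← hc1]
  have e0 : c0 f₀ = l := by rw [hc0, Function.update_self]
  have e1 : c1 f₀ = l ++ t := by rw [hc1, Function.update_self]
  have n0 : ∀ f, f ≠ f₀ → c0 f = c f := fun f hf => by rw [hc0, Function.update_of_ne hf]
  have n1 : ∀ f, f ≠ f₀ → c1 f = c f := fun f hf => by rw [hc1, Function.update_of_ne hf]
  have hne : ∀ x ∈ S \ C, some x ≠ f₀ := fun x hx hxf => hx.2 (hf x hxf.symm)
  constructor
  · intro hz
    have hz1 : CL S h (c0 none ++ (Function.update (fun _ => []) f₀ t) none)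
        (fun x => c0 (some x) ++ (Function.update (fun _ => []) f₀ t) (some x)) z := by
      have h1 : ∀ f, c1 f = c0 f ++ (Function.update (fun _ => []) f₀ t) f := by
        intro f
        by_cases hff : f = f₀
        · rw [hff, e1, e0, Function.update_self]
        · rw [n1 f hff, n0 f hff, Function.update_of_ne hff, List.append_nil]
      have h2 : CL S h (c1 none) (fun x => c1 (some x)) z := hz
      simp only [h1] at h2
      exact h2
    rcases CL_decomp (l := c0) (r := Function.update (fun _ => []) f₀ t) hz1 with h2 | ⟨f, hff, h2⟩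
    · left
      rw [← hC]
      exact h2
    · rw [hC] at hff h2
      by_cases hfe : f = f₀
      · right
        subst hfe
        rw [Function.update_self, e0] at h2
        refine CL_congr (fun x hx => ?_) h2
        have h3 := hne x hx
        rw [n0 _ h3, Function.update_of_ne h3, List.append_nil]
      · exfalso
        rw [Function.update_of_ne hfe] at h2
        refine CL_nil ?_ h2
        have h4 := end_notMem (l := c0) (S := S) (h := h) (f := f) (by rw [hC]; exact hff)
        rw [hC] at h4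
        exact h4
  · have hCsub : ∀ z ∈ C, z ∈ cS S h c1 := by
      intro z hz
      rw [← hC] at hz
      refine CL_mono_run (fun f => ?_) hz
      by_cases hff : f = f₀
      · rw [hff, e1, e0]
        exact vis_mono_append _ _
      · rw [n1 f hff, n0 f hff]
    have hfr : fr (cS S h c1) f₀ := fun x hx => hCsub x (hf x hx)
    rintro (hz | hz)
    · exact hCsub z hz
    · induction hz with
      | enter z hz hS =>
        refine cS_next hfr ?_ hS.1
        rw [e1]
        have h5 := vis_append_right (l := l) hz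
        have h6 : dsp l + (z - (pl h f₀ + dsp l)) = z - pl h f₀ := by ring
        rwa [h6] at h5
      | next z z' H hv hS ih =>
        refine cS_next (f := some z) (fun x hx => ?_) ?_ hS.1
        · obtain rfl : z = x := by simpa using hx
          exact ih
        · rw [n1 _ (hne z H.mem)]
          exact hv

/-- The other frogs of the first cluster. -/
noncomputable def RC (s : ℝ) (C : Finset ℤ) (h : ℤ) (f₀ : Option ℤ) (c : Option ℤ → Run) : ℝ≥0∞ :=
  ∑ f ∈ (Finset.insertNone C).erase f₀, ENNReal.ofReal (s ^ (pl h f + dsp (c f)))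

open Classical in
theorem V_split (s : ℝ) {S C : Finset ℤ} {h : ℤ} {c : Option ℤ → Run} {f₀ : Option ℤ} {l t : Run}
    (hC : cS (↑S : Set ℤ) h (Function.update c f₀ l) = ↑C) (hf : fr (↑C : Set ℤ) f₀) :
    V s S h (Function.update c f₀ (l ++ t) none) (fun x => Function.update c f₀ (l ++ t) (some x)) =
      RC s C h f₀ c + V s (S \ C) (pl h f₀ + dsp l) t (fun x => c (some x)) := by
  obtain ⟨c1, hc1⟩ : ∃ c1, c1 = Function.update c f₀ (l ++ t) := ⟨_, rfl⟩
  have e1 : c1 f₀ = l ++ t := by rw [hc1, Function.update_self]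
  have n1 : ∀ f, f ≠ f₀ → c1 f = c f := fun f hf => by rw [hc1, Function.update_of_ne hf]
  obtain ⟨C', hC'⟩ : ∃ C' : Finset ℤ, C' = (S \ C).filter fun z =>
      CL ((↑S : Set ℤ) \ ↑C) (pl h f₀ + dsp l) t (fun x => c (some x)) z := ⟨_, rfl⟩
  have hsp : cS (↑S : Set ℤ) h c1 = ↑(C ∪ C') := by
    ext z
    rw [hc1, cS_split hC hf z, Finset.coe_union, Set.mem_union, Finset.mem_coe, Finset.mem_coe, hC', Finset.mem_filter]
    refine or_congr_right ⟨fun h => ⟨?_, h⟩, fun h => h.2⟩
    have h1 := h.mem
    rw [Finset.mem_sdiff]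
    exact ⟨Finset.mem_coe.1 h1.1, fun h2 => h1.2 (Finset.mem_coe.2 h2)⟩
  have hdis : Disjoint C C' := by
    rw [Finset.disjoint_left]
    intro z hz hz'
    rw [hC', Finset.mem_filter, Finset.mem_sdiff] at hz'
    exact hz'.1.2 hz
  rw [← hc1, V_eq_sum s hsp, Finset.sum_insertNone, Finset.sum_union hdis, ← add_assoc]
  have h1 : ∑ f ∈ Finset.insertNone C, ENNReal.ofReal (s ^ (pl h f + dsp (c1 f))) =
      RC s C h f₀ c + ENNReal.ofReal (s ^ (pl h f₀ + dsp l + dsp t)) := by
    have hmem : f₀ ∈ Finset.insertNone C := by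
      rw [Finset.mem_insertNone]
      exact fun x hx => Finset.mem_coe.1 (hf x hx)
    rw [← Finset.sum_erase_add _ _ hmem, e1, dsp_append, ← add_assoc]
    congr 1
    unfold RC
    refine Finset.sum_congr rfl fun f hff => ?_
    rw [n1 f (Finset.ne_of_mem_erase hff)]
  rw [Finset.sum_insertNone] at h1
  rw [h1, add_assoc]
  congr 1
  unfold V vl
  congr 1
  rw [hC', Finset.sum_filter, Finset.coe_sdiff]
  refine Finset.sum_congr rfl fun x hx => ?_
  have hx2 : x ∉ C := (Finset.mem_sdiff.1 hx).2
  have hne : some x ≠ f₀ := fun hxf => hx2 (Finset.mem_coe.1 (hf x hxf.symm))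
  split_ifs with h2
  · rw [ind_true h2, one_mul, n1 _ hne]
    rfl
  · rw [ind_false h2, zero_mul]

open Classical in
theorem V_not (s : ℝ) {S C : Finset ℤ} {h : ℤ} {c : Option ℤ → Run} {f₀ : Option ℤ} {l t : Run}
    (hC : cS (↑S : Set ℤ) h (Function.update c f₀ l) = ↑C) (hf : ¬fr (↑C : Set ℤ) f₀) :
    V s S h (Function.update c f₀ t none) (fun x => Function.update c f₀ t (some x)) =
      V s S h (Function.update c f₀ l none) (fun x => Function.update c f₀ l (some x)) := by
  have hne : ∀ f, fr (↑C : Set ℤ) f → f ≠ f₀ := fun f h1 h2 => hf (h2 ▸ h1)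
  have h1 : cS (↑S : Set ℤ) h (Function.update c f₀ t) = ↑C := by
    refine cS_congr (fun f hff => ?_) hC
    rw [Function.update_of_ne (hne f hff), Function.update_of_ne (hne f hff)]
  rw [V_eq_sum s h1, V_eq_sum s hC]
  refine Finset.sum_congr rfl fun f hff => ?_
  have h2 : f ≠ f₀ := hne f fun x hx => by
    rw [Finset.mem_insertNone] at hff
    exact Finset.mem_coe.2 (hff x hx)
  rw [Function.update_of_ne h2, Function.update_of_ne h2]

/-! ### The first step of the arriving frog -/

theorem vis_cons {b : Bool} {r : Run} {x : ℤ} : x ∈ vis (b :: r) ↔ x = 0 ∨ x - sg b ∈ vis r := by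
  constructor
  · rintro ⟨i, hi, rfl⟩
    cases i with
    | zero =>
      left
      simp [dsp]
    | succ i =>
      right
      refine ⟨i, by rw [List.length_cons] at hi; omega, ?_⟩
      rw [List.take_succ_cons]
      unfold dsp
      rw [List.map_cons, List.sum_cons]
      ring
  · rintro (rfl | ⟨i, hi, h1⟩)
    · exact zero_mem_vis _
    · refine ⟨i + 1, by rw [List.length_cons]; omega, ?_⟩
      rw [List.take_succ_cons]
      unfold dsp at h1 ⊢
      rw [List.map_cons, List.sum_cons, h1]
      ring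

theorem dsp_cons (b : Bool) (r : Run) : dsp (b :: r) = sg b + dsp r := by
  unfold dsp
  rw [List.map_cons, List.sum_cons]

theorem CL_cons_of {T : Set ℤ} {e : ℤ} {b : Bool} {r : Run} {c : ℤ → Run} {z : ℤ}
    (H : CL T (e + sg b) r c z) : CL T e (b :: r) c z := by
  induction H with
  | enter z hz hS =>
    refine CL.enter z (vis_cons.2 (Or.inr ?_)) hS
    rwa [sub_sub]
  | next z z' _ hv hS ih => exact CL.next z z' ih hv hS

theorem CL_cons {T : Set ℤ} {e : ℤ} (he : e ∉ T) {b : Bool} {r : Run} {c : ℤ → Run} {z : ℤ} :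
    CL T e (b :: r) c z ↔ CL T (e + sg b) r c z := by
  refine ⟨fun H => ?_, CL_cons_of⟩
  induction H with
  | enter z hz hS =>
    rcases vis_cons.1 hz with h1 | h1
    · have h2 : z = e := by omega
      rw [h2] at hS
      exact absurd hS he
    · refine CL.enter z ?_ hS
      rwa [← sub_sub]
  | next z z' _ hv hS ih => exact CL.next z z' ih hv hS

theorem V_cons (s : ℝ) {T : Finset ℤ} {e : ℤ} (he : e ∉ T) (b : Bool) (r : Run) (c : ℤ → Run) :
    V s T e (b :: r) c = V s T (e + sg b) r c := by
  unfold V vl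
  rw [dsp_cons, ← add_assoc]
  congr 1
  refine Finset.sum_congr rfl fun x _ => ?_
  rw [ind_congr (CL_cons (by rwa [Finset.mem_coe]))]

open Classical in
/-- **The decomposition.** -/
theorem V_dec (s : ℝ) {S C : Finset ℤ} {h : ℤ} {c : Option ℤ → Run} {f₀ : Option ℤ} {l : Run}
    (hC : cS (↑S : Set ℤ) h (Function.update c f₀ l) = ↑C) (hf : fr (↑C : Set ℤ) f₀) (b : Bool) (r : Run) :
    V s S h (Function.update c f₀ (l ++ b :: r) none) (fun x => Function.update c f₀ (l ++ b :: r) (some x)) =
      RC s C h f₀ c + V s (S \ C) (pl h f₀ + dsp l + sg b) r (fun x => c (some x)) := by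
  have he : pl h f₀ + dsp l ∉ S \ C := by
    have h1 := end_notMem (l := Function.update c f₀ l) (S := (↑S : Set ℤ)) (h := h) (f := f₀) (by rw [hC]; exact hf)
    rw [hC, Function.update_self, ← Finset.coe_sdiff, Finset.mem_coe] at h1
    exact h1
  rw [V_split s hC hf, V_cons s he]

end FDr.MA
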