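import Pool.Agent.Lib.MP_e029a2_pr.MA2

/-!
# The monotonicity in `α`, part 3: the law of one frog is replaced
-/

set_option autoImplicit false

namespace FDr.MA

open MeasureTheory ProbabilityTheory
open scoped ENNReal

open FDr.TH (CL cS fr pl fr_none cS_subset cS_congr CL_congr CL_congr_iff measurable_CL measurable_cS lintegral_cond
  lintegral_mul_of_disj)

open FDr.TR (ind_true ind_false ind_mono ind_congr ind_and measurable_ind lintegral_ind)

variable (w α α' : Set.Ioo (0 : ℝ) 1)

/-- Every frog has a run with the parameter `α` and a run with the parameter `α'`. -/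
noncomputable def μm (p : Option ℤ × Bool) : Measure Run := runLaw w (if p.2 then α' else α)

instance μm_prob (p : Option ℤ × Bool) : IsProbabilityMeasure (μm w α α' p) := by
  unfold μm
  infer_instance

/-- The law of all the runs. -/
noncomputable def PM : Measure (Option ℤ × Bool → Run) := Measure.infinitePi (μm w α α')

instance PM_prob : IsProbabilityMeasure (PM w α α') := by
  unfold PM
  infer_instance

/-- The frog `f` uses its run number `K f`. -/
def cK (K : Option ℤ → Bool) (ω : Option ℤ × Bool → Run) (f : Option ℤ) : Run := ω (f, K f)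

theorem measurable_cK (K : Option ℤ → Bool) (f : Option ℤ) : Measurable fun ω => cK K ω f := measurable_pi_apply _

theorem measurable_V {Ω : Type*} [MeasurableSpace Ω] (s : ℝ) (S : Finset ℤ) (h : ℤ) {e : Ω → Run} {c : Ω → ℤ → Run}
    (he : Measurable e) (hc : ∀ x, Measurable fun ω => c ω x) : Measurable fun ω => V s S h (e ω) (c ω) := by
  unfold V vl
  refine Measurable.add ((measurable_of_countable fun l : Run => ENNReal.ofReal (s ^ (h + dsp l))).comp he)
    (Finset.measurable_sum _ fun x _ => Measurable.mul ?_ ?_)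
  · exact measurable_ind (measurable_CL _ _ he hc x)
  · exact (measurable_of_countable fun l : Run => ENNReal.ofReal (s ^ (x + dsp l))).comp (hc x)

/-- The mean of the sum of `s ^ (place of death)`. -/
noncomputable def JJ (s : ℝ) (K : Option ℤ → Bool) (S : Finset ℤ) (h : ℤ) : ℝ≥0∞ :=
  ∫⁻ ω, V s S h (cK K ω none) (fun x => cK K ω (some x)) ∂PM w α α'

/-- The same if the arriving frog makes a run with the parameter `α`. -/
noncomputable def JA (s : ℝ) (K : Option ℤ → Bool) (S : Finset ℤ) (h : ℤ) : ℝ≥0∞ :=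
  ∫⁻ r, ∫⁻ ω, V s S h r (fun x => cK K ω (some x)) ∂PM w α α' ∂runLaw w α

/-- The run `r` for the frog `f₀`. -/
def up (K : Option ℤ → Bool) (f₀ : Option ℤ) (r : Run) (ω : Option ℤ × Bool → Run) : Option ℤ → Run :=
  Function.update (cK K ω) f₀ r

theorem measurable_up (K : Option ℤ → Bool) (f₀ : Option ℤ) (r : Run) (f : Option ℤ) :
    Measurable fun ω => up K f₀ r ω f := by
  unfold up
  by_cases h : f = f₀
  · subst h
    simp only [Function.update_self]
    exact measurable_const
  · simp only [Function.update_of_ne h]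
    exact measurable_cK K f

theorem JJ_cond (s : ℝ) (K : Option ℤ → Bool) (f₀ : Option ℤ) (S : Finset ℤ) (h : ℤ) :
    JJ w α α' s K S h = ∫⁻ r, ∫⁻ ω, V s S h (up K f₀ r ω none) (fun x => up K f₀ r ω (some x)) ∂PM w α α'
      ∂runLaw w (if K f₀ then α' else α) := by
  have h1 := lintegral_cond (μm w α α') (f₀, K f₀)
    (g := fun r ω => V s S h (up K f₀ r ω none) (fun x => up K f₀ r ω (some x)))
    (fun r => measurable_V s S h (measurable_up K f₀ r none) fun x => measurable_up K f₀ r (some x))
    (fun r ω ω' hω => by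
      have h2 : up K f₀ r ω = up K f₀ r ω' := by
        funext f
        unfold up
        by_cases hf : f = f₀
        · subst hf
          rw [Function.update_self, Function.update_self]
        · rw [Function.update_of_ne hf, Function.update_of_ne hf]
          exact hω _ fun h3 => hf (congrArg Prod.fst h3)
      rw [h2])
  have h3 : JJ w α α' s K S h = ∫⁻ ω, V s S h (up K f₀ (ω (f₀, K f₀)) ω none)
      (fun x => up K f₀ (ω (f₀, K f₀)) ω (some x)) ∂PM w α α' := by
    refine lintegral_congr fun ω => ?_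
    have h4 : up K f₀ (ω (f₀, K f₀)) ω = cK K ω := Function.update_eq_self f₀ _
    rw [h4]
  rw [h3]
  exact h1

theorem JJ_false (s : ℝ) {K : Option ℤ → Bool} (hK : K none = false) (S : Finset ℤ) (h : ℤ) :
    JJ w α α' s K S h = JA w α α' s K S h := by
  rw [JJ_cond w α α' s K none S h, hK]
  rfl

theorem JA_congr (s : ℝ) {K K' : Option ℤ → Bool} (hK : ∀ x, K (some x) = K' (some x)) (S : Finset ℤ) (h : ℤ) :
    JA w α α' s K S h = JA w α α' s K' S h := by
  unfold JA cK
  simp only [hK]

/-- The cluster is `C` if the run of `f₀` is `l`, and `f₀` is in the cluster. -/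
def AC (K : Option ℤ → Bool) (f₀ : Option ℤ) (S : Finset ℤ) (h : ℤ) (l : Run) (C : Finset ℤ)
    (ω : Option ℤ × Bool → Run) : Prop :=
  cS (↑S : Set ℤ) h (up K f₀ l ω) = ↑C ∧ fr (↑C : Set ℤ) f₀

theorem measurable_AC1 (K : Option ℤ → Bool) (f₀ : Option ℤ) (S : Finset ℤ) (h : ℤ) (l : Run) (C : Finset ℤ) :
    Measurable fun ω => cS (↑S : Set ℤ) h (up K f₀ l ω) = (↑C : Set ℤ) :=
  (measurable_cS (↑S : Set ℤ) (↑C : Set ℤ) h).comp (measurable_pi_lambda _ fun f => measurable_up K f₀ l f)

theorem measurable_AC (K : Option ℤ → Bool) (f₀ : Option ℤ) (S : Finset ℤ) (h : ℤ) (l : Run) (C : Finset ℤ) :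
    Measurable (AC K f₀ S h l C) := (measurable_AC1 K f₀ S h l C).and measurable_const

open Classical in
/-- The part which does not depend on the rest of the run. -/
noncomputable def Y (s : ℝ) (K : Option ℤ → Bool) (f₀ : Option ℤ) (S : Finset ℤ) (h : ℤ) (l : Run) (C : Finset ℤ)
    (ω : Option ℤ × Bool → Run) : ℝ≥0∞ :=
  TR.ind (cS (↑S : Set ℤ) h (up K f₀ l ω) = (↑C : Set ℤ)) * (if fr (↑C : Set ℤ) f₀ then RC s C h f₀ (cK K ω)
    else V s S h (up K f₀ l ω none) fun x => up K f₀ l ω (some x))

theorem measurable_Y (s : ℝ) (K : Option ℤ → Bool) (f₀ : Option ℤ) (S : Finset ℤ) (h : ℤ) (l : Run) (C : Finset ℤ) :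
    Measurable (Y s K f₀ S h l C) := by
  unfold Y
  refine (measurable_ind (measurable_AC1 K f₀ S h l C)).mul ?_
  split_ifs
  · unfold RC
    refine Finset.measurable_sum _ fun f _ => ?_
    exact (measurable_of_countable fun l : Run => ENNReal.ofReal (s ^ (pl h f + dsp l))).comp (measurable_cK K f)
  · exact measurable_V s S h (measurable_up K f₀ l none) fun x => measurable_up K f₀ l (some x)

theorem V_tsum (s : ℝ) (K : Option ℤ → Bool) (f₀ : Option ℤ) (S : Finset ℤ) (h : ℤ) (l : Run) (b : Bool) (r : Run)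
    (ω : Option ℤ × Bool → Run) :
    V s S h (up K f₀ (l ++ b :: r) ω none) (fun x => up K f₀ (l ++ b :: r) ω (some x)) =
      ∑' C : Finset ℤ, Y s K f₀ S h l C ω + ∑' C : Finset ℤ, TR.ind (AC K f₀ S h l C ω) *
        V s (S \ C) (pl h f₀ + dsp l + sg b) r (fun x => cK K ω (some x)) := by
  classical
  have hfin : (cS (↑S : Set ℤ) h (up K f₀ l ω)).Finite := S.finite_toSet.subset (cS_subset _ _ _)
  obtain ⟨C, hC⟩ : ∃ C, C = hfin.toFinset := ⟨_, rfl⟩
  have hC1 : cS (↑S : Set ℤ) h (up K f₀ l ω) = ↑C := by rw [hC, hfin.coe_toFinset]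
  have hne : ∀ C' : Finset ℤ, C' ≠ C → ¬cS (↑S : Set ℤ) h (up K f₀ l ω) = ↑C' := by
    intro C' h1 h2
    rw [hC1, Finset.coe_inj] at h2
    exact h1 h2.symm
  rw [tsum_eq_single C, tsum_eq_single C]
  · by_cases hf : fr (↑C : Set ℤ) f₀
    · unfold Y
      rw [ind_true hC1, one_mul, if_pos hf, ind_true (show AC K f₀ S h l C ω from ⟨hC1, hf⟩), one_mul]
      exact V_dec s hC1 hf b r
    · unfold Y
      rw [ind_true hC1, one_mul, if_neg hf, ind_false (fun h1 : AC K f₀ S h l C ω => hf h1.2), zero_mul, add_zero]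
      exact V_not s hC1 hf
  · intro C' h1
    rw [ind_false fun h2 : AC K f₀ S h l C' ω => hne C' h1 h2.1, zero_mul]
  · intro C' h1
    unfold Y
    rw [ind_false (hne C' h1), zero_mul]

theorem int_prod (s : ℝ) (K : Option ℤ → Bool) (f₀ : Option ℤ) (S : Finset ℤ) (h : ℤ) (l : Run) (C : Finset ℤ)
    (e : ℤ) (r : Run) :
    ∫⁻ ω, TR.ind (AC K f₀ S h l C ω) * V s (S \ C) e r (fun x => cK K ω (some x)) ∂PM w α α' =
      PM w α α' {ω | AC K f₀ S h l C ω} * ∫⁻ ω, V s (S \ C) e r (fun x => cK K ω (some x)) ∂PM w α α' := by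
  rw [← lintegral_ind _ (measurable_AC K f₀ S h l C)]
  unfold PM
  refine lintegral_mul_of_disj (μm w α α') {p | fr (↑C : Set ℤ) p.1 ∧ p.2 = K p.1}
    (measurable_ind (measurable_AC K f₀ S h l C)) (measurable_V s _ e measurable_const fun x => measurable_cK K _) ?_ ?_
  · have key : ∀ ω ω' : Option ℤ × Bool → Run, (∀ i ∈ {p : Option ℤ × Bool | fr (↑C : Set ℤ) p.1 ∧ p.2 = K p.1},
        ω i = ω' i) → AC K f₀ S h l C ω → AC K f₀ S h l C ω' := by
      rintro ω ω' hω ⟨h1, h2⟩
      refine ⟨cS_congr (fun f hf => ?_) h1, h2⟩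
      unfold up
      by_cases hff : f = f₀
      · subst hff
        rw [Function.update_self, Function.update_self]
      · rw [Function.update_of_ne hff, Function.update_of_ne hff]
        exact hω _ ⟨hf, rfl⟩
    intro ω ω' hω
    exact ind_congr ⟨key ω ω' hω, key ω' ω fun i hi => (hω i hi).symm⟩
  · intro ω ω' hω
    have h1 : ∀ x ∈ (↑(S \ C) : Set ℤ), cK K ω (some x) = cK K ω' (some x) := by
      intro x hx
      refine hω _ fun h2 => ?_
      exact (Finset.mem_sdiff.1 (Finset.mem_coe.1 hx)).2 (Finset.mem_coe.1 (h2.1 x rfl))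
    unfold V vl
    congr 1
    refine Finset.sum_congr rfl fun x hx => ?_
    simp only
    rw [ind_congr (CL_congr_iff h1 x), h1 x (Finset.mem_coe.2 hx)]

/-- The mean if the run of `f₀` begins with `l` and a step `b`. -/
theorem int_dec (s : ℝ) (K : Option ℤ → Bool) (f₀ : Option ℤ) (S : Finset ℤ) (h : ℤ) (l : Run) (b : Bool) :
    ∫⁻ r, ∫⁻ ω, V s S h (up K f₀ (l ++ b :: r) ω none) (fun x => up K f₀ (l ++ b :: r) ω (some x)) ∂PM w α α'
      ∂runLaw w α = (∑' C : Finset ℤ, ∫⁻ ω, Y s K f₀ S h l C ω ∂PM w α α') +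
        ∑' C : Finset ℤ, PM w α α' {ω | AC K f₀ S h l C ω} * JA w α α' s K (S \ C) (pl h f₀ + dsp l + sg b) := by
  have h1 : ∀ r : Run, ∫⁻ ω, V s S h (up K f₀ (l ++ b :: r) ω none) (fun x => up K f₀ (l ++ b :: r) ω (some x))
      ∂PM w α α' = (∑' C : Finset ℤ, ∫⁻ ω, Y s K f₀ S h l C ω ∂PM w α α') +
        ∑' C : Finset ℤ, PM w α α' {ω | AC K f₀ S h l C ω} *
          ∫⁻ ω, V s (S \ C) (pl h f₀ + dsp l + sg b) r (fun x => cK K ω (some x)) ∂PM w α α' := by
    intro r
    have hm : ∀ C : Finset ℤ, Measurable fun ω => TR.ind (AC K f₀ S h l C ω) *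
        V s (S \ C) (pl h f₀ + dsp l + sg b) r (fun x => cK K ω (some x)) := fun C =>
      (measurable_ind (measurable_AC K f₀ S h l C)).mul
        (measurable_V s _ _ measurable_const fun x => measurable_cK K _)
    rw [lintegral_congr fun ω => V_tsum s K f₀ S h l b r ω,
      lintegral_add_left (Measurable.tsum fun C => measurable_Y s K f₀ S h l C),
      lintegral_tsum fun C => (measurable_Y s K f₀ S h l C).aemeasurable,
      lintegral_tsum fun C => (hm C).aemeasurable]
    congr 1
    exact tsum_congr fun C => int_prod w α α' s K f₀ S h l C _ r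
  rw [lintegral_congr h1, lintegral_add_left measurable_const, lintegral_const, measure_univ, mul_one,
    lintegral_tsum fun C => (measurable_of_countable _).aemeasurable]
  congr 1
  refine tsum_congr fun C => ?_
  rw [lintegral_const_mul _ (measurable_of_countable _)]
  rfl

variable {α α'}

/-- **The law of one frog is replaced.** -/
theorem replace (hα : α ≤ α') (s : ℝ) (K : Option ℤ → Bool) {f₀ : Option ℤ} (hK : K f₀ = false)
    (hyp : ∀ (T : Finset ℤ) (e : ℤ), JA w α α' s K T (e + 1) ≤ JA w α α' s K T (e - 1)) (S : Finset ℤ) (h : ℤ) :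
    JJ w α α' s (Function.update K f₀ true) S h ≤ JJ w α α' s K S h := by
  rw [JJ_cond w α α' s K f₀ S h, JJ_cond w α α' s (Function.update K f₀ true) f₀ S h, hK, Function.update_self]
  have h1 : ∀ (r : Run) (ω : Option ℤ × Bool → Run), up (Function.update K f₀ true) f₀ r ω = up K f₀ r ω := by
    intro r ω
    funext f
    unfold up
    by_cases hf : f = f₀
    · subst hf
      rw [Function.update_self, Function.update_self]
    · rw [Function.update_of_ne hf, Function.update_of_ne hf]
      unfold cK
      rw [Function.update_of_ne hf]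
  simp only [h1, if_true, Bool.false_eq_true, if_false]
  refine run_mono w hα _ fun l => ?_
  rw [int_dec w α α' s K f₀ S h l true, int_dec w α α' s K f₀ S h l false]
  refine add_le_add le_rfl (ENNReal.tsum_le_tsum fun C => mul_le_mul_right ?_ _)
  exact hyp (S \ C) (pl h f₀ + dsp l)

/-- The law of the arriving frog is replaced, with the gain of the first step. -/
theorem replace_gain (hα : α ≤ α') (s : ℝ) (K : Option ℤ → Bool) (hK : K none = false) {g : ℤ → ℝ≥0∞}
    (hyp : ∀ (T : Finset ℤ) (e : ℤ), JA w α α' s K T (e + 1) + g e ≤ JA w α α' s K T (e - 1)) (S : Finset ℤ) (h : ℤ) :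
    JJ w α α' s (Function.update K none true) S h + ENNReal.ofReal (w * (α' - α) / 2) * g h ≤ JJ w α α' s K S h := by
  rw [JJ_cond w α α' s K none S h, JJ_cond w α α' s (Function.update K none true) none S h, hK, Function.update_self]
  have h1 : ∀ (r : Run) (ω : Option ℤ × Bool → Run), up (Function.update K none true) none r ω = up K none r ω := by
    intro r ω
    funext f
    unfold up
    by_cases hf : f = none
    · subst hf
      rw [Function.update_self, Function.update_self]
    · rw [Function.update_of_ne hf, Function.update_of_ne hf]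
      unfold cK
      rw [Function.update_of_ne hf]
  simp only [h1, if_true, Bool.false_eq_true, if_false]
  have hl : ∀ (l : Run), ∫⁻ r, ∫⁻ ω, V s S h (up K none (l ++ true :: r) ω none)
      (fun x => up K none (l ++ true :: r) ω (some x)) ∂PM w α α' ∂runLaw w α ≤
      ∫⁻ r, ∫⁻ ω, V s S h (up K none (l ++ false :: r) ω none)
      (fun x => up K none (l ++ false :: r) ω (some x)) ∂PM w α α' ∂runLaw w α := by
    intro l
    rw [int_dec w α α' s K none S h l true, int_dec w α α' s K none S h l false]
    refine add_le_add le_rfl (ENNReal.tsum_le_tsum fun C => mul_le_mul_right ?_ _)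
    exact le_self_add.trans (hyp (S \ C) (pl h none + dsp l))
  refine run_mono_gain w hα _ hl ?_
  have h2 := int_dec w α α' s K none S h [] true
  have h3 := int_dec w α α' s K none S h [] false
  simp only [List.nil_append] at h2 h3
  rw [h2, h3, add_assoc]
  refine add_le_add le_rfl ?_
  have h4 : ∑' C : Finset ℤ, PM w α α' {ω | AC K none S h [] C ω} = 1 := by
    have h5 : ∀ ω : Option ℤ × Bool → Run, ∑' C : Finset ℤ, TR.ind (AC K none S h [] C ω) = 1 := by
      intro ω
      have hfin : (cS (↑S : Set ℤ) h (up K none [] ω)).Finite := S.finite_toSet.subset (cS_subset _ _ _)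
      rw [tsum_eq_single hfin.toFinset, ind_true]
      · exact ⟨by rw [hfin.coe_toFinset], fr_none _⟩
      · intro C hC
        refine ind_false fun h6 => hC ?_
        rw [← Finset.coe_inj, hfin.coe_toFinset]
        exact h6.1.symm
    calc ∑' C : Finset ℤ, PM w α α' {ω | AC K none S h [] C ω}
        = ∑' C : Finset ℤ, ∫⁻ ω, TR.ind (AC K none S h [] C ω) ∂PM w α α' :=
          tsum_congr fun C => (lintegral_ind _ (measurable_AC K none S h [] C)).symm
      _ = ∫⁻ ω, ∑' C : Finset ℤ, TR.ind (AC K none S h [] C ω) ∂PM w α α' :=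
          (lintegral_tsum fun C => (measurable_ind (measurable_AC K none S h [] C)).aemeasurable).symm
      _ = 1 := by rw [lintegral_congr h5, lintegral_const, measure_univ, mul_one]
  calc (∑' C : Finset ℤ, PM w α α' {ω | AC K none S h [] C ω} * JA w α α' s K (S \ C) (pl h none + dsp [] + sg true)) + g h
      = ∑' C : Finset ℤ, PM w α α' {ω | AC K none S h [] C ω} * (JA w α α' s K (S \ C) (pl h none + dsp [] + sg true) + g h) := by
        simp only [mul_add]
        rw [ENNReal.tsum_add, ENNReal.tsum_mul_right, h4, one_mul]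
    _ ≤ _ := by
        refine ENNReal.tsum_le_tsum fun C => mul_le_mul_right ?_ _
        have h7 : pl h none + dsp [] = h := by simp [pl, dsp]
        rw [h7]
        exact hyp (S \ C) h

end FDr.MA
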