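import Pool.Agent.Lib.MP_e029a2_pr.MA3

/-!
# The monotonicity in `α`, part 4: the key inequality

The value of an arrival at `y + 1` is not larger than the value of an arrival at `y - 1`.
-/

set_option autoImplicit false

namespace FDr.MA

open MeasureTheory ProbabilityTheory
open scoped ENNReal

open FDr.TH (CL kap_geom)

open FDr.TR (ind_mono ofReal_zpow_add)

/-! ### Real numbers -/

/-- A nonnegative superharmonic function of the killed walk. -/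
theorem harm {p q : ℝ} (hp : 0 < p) (hq : 0 < q) (hpq : p + q < 1) (f : ℤ → ℝ) (hf : ∀ y, 0 ≤ f y)
    (hs : ∀ y, p * f (y + 1) + q * f (y - 1) ≤ f y) :
    ∃ ρ : ℝ, 0 ≤ ρ ∧ ρ ≤ 1 ∧ p + q * ρ ^ 2 ≤ ρ ∧ ∀ y, ρ * f y ≤ f (y - 1) := by
  obtain ⟨A, hA⟩ : ∃ A : Set ℝ, A = {r | 0 ≤ r ∧ r ≤ 1 ∧ ∀ y, r * f y ≤ f (y - 1)} := ⟨_, rfl⟩
  have h0 : (0 : ℝ) ∈ A := by
    rw [hA]
    exact ⟨le_rfl, zero_le_one, fun y => by rw [zero_mul]; exact hf _⟩
  have hbd : BddAbove A := ⟨1, fun r hr => by rw [hA] at hr; exact hr.2.1⟩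
  obtain ⟨ρ, hρ⟩ : ∃ ρ, ρ = sSup A := ⟨_, rfl⟩
  have hρ0 : 0 ≤ ρ := by rw [hρ]; exact le_csSup hbd h0
  have hρ1 : ρ ≤ 1 := by rw [hρ]; exact csSup_le ⟨0, h0⟩ fun r hr => by rw [hA] at hr; exact hr.2.1
  have hρf : ∀ y, ρ * f y ≤ f (y - 1) := by
    intro y
    rcases (hf y).eq_or_lt with h1 | h1
    · rw [← h1, mul_zero]
      exact hf _
    · rw [← le_div_iff₀ h1, hρ]
      refine csSup_le ⟨0, h0⟩ fun r hr => ?_
      rw [hA] at hr
      rw [le_div_iff₀ h1]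
      exact hr.2.2 y
  refine ⟨ρ, hρ0, hρ1, ?_, hρf⟩
  have h2 : p + q * ρ ^ 2 ∈ A := by
    rw [hA]
    refine ⟨by positivity, ?_, fun y => ?_⟩
    · have : ρ ^ 2 ≤ 1 := by nlinarith
      nlinarith
    · have h3 := hs (y - 1)
      rw [sub_add_cancel] at h3
      have h4 := hρf (y - 1)
      have h5 := hρf y
      have h6 : ρ ^ 2 * f y ≤ f (y - 1 - 1) := by
        calc ρ ^ 2 * f y = ρ * (ρ * f y) := by ring
          _ ≤ ρ * f (y - 1) := mul_le_mul_of_nonneg_left h5 hρ0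
          _ ≤ _ := h4
      have h7 : q * (ρ ^ 2 * f y) ≤ q * f (y - 1 - 1) := mul_le_mul_of_nonneg_left h6 hq.le
      calc (p + q * ρ ^ 2) * f y = p * f y + q * (ρ ^ 2 * f y) := by ring
        _ ≤ p * f y + q * f (y - 1 - 1) := by linarith
        _ ≤ _ := h3
  rw [hρ] at h2 ⊢
  exact le_csSup hbd h2

theorem alg0 {p q ρ : ℝ} (hq : 0 < q) (hqp : q ≤ p) (hpq : p + q < 1) (hρ0 : 0 ≤ ρ) (hρ1 : ρ ≤ 1)
    (hρ : p + q * ρ ^ 2 ≤ ρ) : (1 - ρ ^ 2) * (p - q) ≤ 2 * (1 - (p + q)) := by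
  have h1 : 0 ≤ 1 - ρ ^ 2 := by nlinarith
  have hq2 : q * (1 + ρ) ≤ 1 := by nlinarith
  have h2 : (1 - ρ ^ 2) * (p - q) ≤ (1 - ρ ^ 2) * (ρ - q * ρ ^ 2 - q) := mul_le_mul_of_nonneg_left (by linarith) h1
  have h3 : 2 * ((1 - ρ) * (1 - q * (1 + ρ))) ≤ 2 * (1 - (p + q)) := by nlinarith
  have h4 : 2 * ((1 - ρ) * (1 - q * (1 + ρ))) - (1 - ρ ^ 2) * (ρ - q * ρ ^ 2 - q) =
      (1 - ρ) * ((1 - ρ) * ((2 + ρ) - q * (1 + ρ) * (1 + ρ))) := by ring
  have h5 : 0 ≤ (2 + ρ) - q * (1 + ρ) * (1 + ρ) := by nlinarith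
  have h6 : 0 ≤ (1 - ρ) * ((1 - ρ) * ((2 + ρ) - q * (1 + ρ) * (1 + ρ))) :=
    mul_nonneg (by linarith) (mul_nonneg (by linarith) h5)
  linarith

theorem alg1 {p q s κ ρ : ℝ} (hp : 0 < p) (hq : 0 < q) (hqp : q ≤ p) (hpq : p + q < 1) (hs0 : 0 < s) (hs1 : s < 1)
    (hy : p * s + q * s⁻¹ < 1) (hκ : κ = (1 - (p + q)) / (1 - (p * s + q * s⁻¹))) (hρ0 : 0 ≤ ρ) (hρ1 : ρ ≤ 1)
    (hρ : p + q * ρ ^ 2 ≤ ρ) : (1 - ρ ^ 2) * (1 - κ) * s ≤ 2 * (1 - s) * κ := by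
  have h0 := alg0 hq hqp hpq hρ0 hρ1 hρ
  have hy' : 0 < 1 - (p * s + q * s⁻¹) := by linarith
  have h1 : 1 - κ = (1 - s) * (p - q * s⁻¹) / (1 - (p * s + q * s⁻¹)) := by
    have hss : s * s⁻¹ = 1 := mul_inv_cancel₀ hs0.ne'
    rw [hκ, eq_div_iff hy'.ne', sub_mul, div_mul_cancel₀ _ hy'.ne']
    linear_combination -q * hss
  have h2 : (1 - ρ ^ 2) * (p * s - q) ≤ 2 * (1 - (p + q)) := by
    have h3 : 0 ≤ 1 - ρ ^ 2 := by nlinarith
    refine le_trans (mul_le_mul_of_nonneg_left ?_ h3) h0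
    nlinarith
  have h4 : (p - q * s⁻¹) * s = p * s - q := by
    field_simp
  rw [h1, hκ, mul_div_assoc', div_mul_eq_mul_div, mul_div_assoc', div_le_div_iff_of_pos_right hy']
  calc (1 - ρ ^ 2) * ((1 - s) * (p - q * s⁻¹)) * s = (1 - s) * ((1 - ρ ^ 2) * ((p - q * s⁻¹) * s)) := by ring
    _ = (1 - s) * ((1 - ρ ^ 2) * (p * s - q)) := by rw [h4]
    _ ≤ (1 - s) * (2 * (1 - (p + q))) := mul_le_mul_of_nonneg_left h2 (by linarith)
    _ = _ := by ring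

theorem alg2 {p q s κ ρ m η : ℝ} (hp : 0 < p) (hq : 0 < q) (hqp : q ≤ p) (hpq : p + q < 1) (hs0 : 0 < s) (hs1 : s < 1)
    (hy : p * s + q * s⁻¹ < 1) (hκ : κ = (1 - (p + q)) / (1 - (p * s + q * s⁻¹))) (hρ0 : 0 ≤ ρ) (hρ1 : ρ ≤ 1)
    (hρ : p + q * ρ ^ 2 ≤ ρ) (hη : 0 ≤ η) (hm : m ≤ 1 + η) :
    (1 - ρ ^ 2) * (m - κ) * s ^ 2 + ((1 - s) ^ 2 * κ - η * s ^ 2) ≤ κ * (1 - s ^ 2) := by
  have h1 := alg1 hp hq hqp hpq hs0 hs1 hy hκ hρ0 hρ1 hρ
  have h2 : (1 - ρ ^ 2) * (m - κ) ≤ (1 - ρ ^ 2) * (1 - κ) + η := by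
    have h3 : 0 ≤ 1 - ρ ^ 2 := by nlinarith
    have h4 : 0 ≤ ρ ^ 2 := sq_nonneg ρ
    nlinarith
  have h5 : (1 - ρ ^ 2) * (m - κ) * s ^ 2 ≤ ((1 - ρ ^ 2) * (1 - κ) + η) * s ^ 2 :=
    mul_le_mul_of_nonneg_right h2 (sq_nonneg s)
  have h6 : (1 - ρ ^ 2) * (1 - κ) * s * s ≤ 2 * (1 - s) * κ * s := mul_le_mul_of_nonneg_right h1 hs0.le
  nlinarith

/-! ### The generating function of the displacement -/

theorem kap_val (w α : Set.Ioo (0 : ℝ) 1) {s : ℝ} (hs : 0 < s) (hy : bw w α true * s + bw w α false * s⁻¹ < 1) :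
    kap w α s = ENNReal.ofReal ((1 - w) / (1 - (bw w α true * s + bw w α false * s⁻¹))) := by
  have hbt := bw_pos w.2 α.2 true
  have hbf := bw_pos w.2 α.2 false
  have hw : 0 < 1 - (w : ℝ) := by linarith [w.2.2]
  have hy0 : 0 ≤ bw w α true * s + bw w α false * s⁻¹ := by positivity
  rw [kap_geom w α hs, ENNReal.tsum_geometric, ← ENNReal.ofReal_one, ← ENNReal.ofReal_sub _ hy0,
    ← ENNReal.ofReal_inv_of_pos (by linarith), ← ENNReal.ofReal_mul hw.le]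
  rfl

theorem kap_lt (w α : Set.Ioo (0 : ℝ) 1) {s : ℝ} (hs : 0 < s) (hk : kap w α s ≠ ⊤) :
    bw w α true * s + bw w α false * s⁻¹ < 1 := by
  by_contra hcon
  push Not at hcon
  apply hk
  have hw : 0 < 1 - (w : ℝ) := by linarith [w.2.2]
  rw [kap_geom w α hs]
  have h1 : ∑' n : ℕ, ENNReal.ofReal (bw w α true * s + bw w α false * s⁻¹) ^ n = ⊤ := by
    rw [eq_top_iff]
    calc (⊤ : ℝ≥0∞) = ∑' _ : ℕ, (1 : ℝ≥0∞) := (ENNReal.tsum_const_eq_top_of_ne_zero one_ne_zero).symm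
      _ ≤ _ := ENNReal.tsum_le_tsum fun n => one_le_pow₀ (by
        rw [← ENNReal.ofReal_one]
        exact ENNReal.ofReal_le_ofReal hcon)
  rw [h1]
  exact ENNReal.mul_top (ENNReal.ofReal_pos.2 hw).ne'

/-! ### The activated frogs -/

variable (w α α' : Set.Ioo (0 : ℝ) 1)

/-- The part of the activated frogs. -/
noncomputable def vv (s : ℝ) (K : Option ℤ → Bool) (T : Finset ℤ) (y : ℤ) : ℝ≥0∞ :=
  ∫⁻ r, ∫⁻ ω, vl s T y r (fun x => cK K ω (some x)) ∂PM w α α' ∂runLaw w α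

theorem JA_eq {s : ℝ} (hs : 0 < s) (K : Option ℤ → Bool) (T : Finset ℤ) (y : ℤ) :
    JA w α α' s K T y = ENNReal.ofReal (s ^ y) * kap w α s + vv w α α' s K T y := by
  unfold JA V vv kap
  have h1 : ∀ r : Run, ∫⁻ ω, (ENNReal.ofReal (s ^ (y + dsp r)) + vl s T y r fun x => cK K ω (some x)) ∂PM w α α' =
      ENNReal.ofReal (s ^ y) * ENNReal.ofReal (s ^ dsp r) + ∫⁻ ω, vl s T y r (fun x => cK K ω (some x)) ∂PM w α α' := by
    intro r
    rw [lintegral_add_left measurable_const, lintegral_const, measure_univ, mul_one, ofReal_zpow_add hs]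
  rw [lintegral_congr h1, lintegral_add_left (measurable_of_countable _), lintegral_const_mul _ (measurable_of_countable _)]

theorem vv_super (s : ℝ) (K : Option ℤ → Bool) (T : Finset ℤ) (y : ℤ) :
    ENNReal.ofReal (bw w α true) * vv w α α' s K T (y + 1) + ENNReal.ofReal (bw w α false) * vv w α α' s K T (y - 1) ≤
      vv w α α' s K T y := by
  have h1 : ∀ b : Bool, vv w α α' s K T (y + sg b) ≤
      ∫⁻ r, ∫⁻ ω, vl s T y (b :: r) (fun x => cK K ω (some x)) ∂PM w α α' ∂runLaw w α := by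
    intro b
    unfold vv
    refine lintegral_mono fun r => lintegral_mono fun ω => ?_
    unfold vl
    refine Finset.sum_le_sum fun x _ => mul_le_mul_left (ind_mono fun H => CL_cons_of H) _
  have h2 := h1 true
  have h3 := h1 false
  have e2 : y + sg true = y + 1 := by simp [sg]
  have e3 : y + sg false = y - 1 := by
    simp only [sg, Bool.false_eq_true, if_false]
    ring
  rw [e2] at h2
  rw [e3] at h3
  have h4 := lintegral_cons w α fun r => ∫⁻ ω, vl s T y r (fun x => cK K ω (some x)) ∂PM w α α'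
  calc ENNReal.ofReal (bw w α true) * vv w α α' s K T (y + 1) + ENNReal.ofReal (bw w α false) * vv w α α' s K T (y - 1)
      ≤ ENNReal.ofReal (bw w α true) * (∫⁻ r, ∫⁻ ω, vl s T y (true :: r) (fun x => cK K ω (some x)) ∂PM w α α'
        ∂runLaw w α) + ENNReal.ofReal (bw w α false) *
        (∫⁻ r, ∫⁻ ω, vl s T y (false :: r) (fun x => cK K ω (some x)) ∂PM w α α' ∂runLaw w α) := by gcongr
    _ ≤ _ := le_add_self
    _ = vv w α α' s K T y := h4.symm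

/-- **The key inequality.** -/
theorem key {s : ℝ} (hs0 : 0 < s) (hs1 : s < 1) (K : Option ℤ → Bool) {m η κ : ℝ} (hη : 0 ≤ η) (hm0 : 0 ≤ m)
    (hm : m ≤ 1 + η) (hκ : kap w α s = ENNReal.ofReal κ) (hκ0 : 0 ≤ κ) (hc : η * s ^ 2 ≤ (1 - s) ^ 2 * κ)
    (hP : ∀ (T : Finset ℤ) (y : ℤ), JA w α α' s K T y ≤ ENNReal.ofReal (s ^ y * m)) (T : Finset ℤ) (y : ℤ) :
    JA w α α' s K T (y + 1) + ENNReal.ofReal (s ^ (y - 1) * ((1 - s) ^ 2 * κ - η * s ^ 2)) ≤ JA w α α' s K T (y - 1) := by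
  have hbt := bw_pos w.2 α.2 true
  have hbf := bw_pos w.2 α.2 false
  have hsum : bw w α true + bw w α false = w := bw_sum w α
  have hw : (w : ℝ) < 1 := w.2.2
  have hqp : bw w α false ≤ bw w α true := by
    have h1 := w.2.1
    have h2 := α.2.1
    unfold bw
    simp only [Bool.false_eq_true, if_false, if_true]
    nlinarith
  have hy := kap_lt w α hs0 (by rw [hκ]; exact ENNReal.ofReal_ne_top)
  have hκ' : κ = (1 - (bw w α true + bw w α false)) / (1 - (bw w α true * s + bw w α false * s⁻¹)) := by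
    rw [hsum]
    have h1 := kap_val w α hs0 hy
    rw [hκ] at h1
    exact (ENNReal.ofReal_eq_ofReal_iff hκ0 (div_nonneg (by linarith) (by linarith))).1 h1
  have hJ := JA_eq w α α' hs0 K T
  have hfin : ∀ y, vv w α α' s K T y ≠ ⊤ := by
    intro y h1
    have h2 := hP T y
    rw [hJ, h1, add_top, top_le_iff] at h2
    exact ENNReal.ofReal_ne_top h2
  obtain ⟨f, hf⟩ : ∃ f : ℤ → ℝ, ∀ y, f y = (vv w α α' s K T y).toReal := ⟨_, fun _ => rfl⟩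
  have hf0 : ∀ y, 0 ≤ f y := fun y => by rw [hf]; exact ENNReal.toReal_nonneg
  have hfE : ∀ y, vv w α α' s K T y = ENNReal.ofReal (f y) := fun y => by rw [hf, ENNReal.ofReal_toReal (hfin y)]
  have hsz : ∀ z : ℤ, 0 < s ^ z := fun z => zpow_pos hs0 z
  have hJE : ∀ y, JA w α α' s K T y = ENNReal.ofReal (s ^ y * κ + f y) := by
    intro y
    rw [hJ, hκ, hfE, ← ENNReal.ofReal_mul (hsz y).le, ← ENNReal.ofReal_add (mul_nonneg (hsz y).le hκ0) (hf0 y)]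
  have hfm : ∀ y, f y ≤ s ^ y * (m - κ) := by
    intro y
    have h1 := hP T y
    rw [hJE] at h1
    have h2 := (ENNReal.ofReal_le_ofReal_iff (mul_nonneg (hsz y).le hm0)).1 h1
    linarith
  have hsup : ∀ y, bw w α true * f (y + 1) + bw w α false * f (y - 1) ≤ f y := by
    intro y
    have h1 := vv_super w α α' s K T y
    rw [hfE, hfE, hfE, ← ENNReal.ofReal_mul hbt.le, ← ENNReal.ofReal_mul hbf.le,
      ← ENNReal.ofReal_add (mul_nonneg hbt.le (hf0 _)) (mul_nonneg hbf.le (hf0 _))] at h1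
    exact (ENNReal.ofReal_le_ofReal_iff (hf0 y)).1 h1
  obtain ⟨ρ, hρ0, hρ1, hρ, hρf⟩ := harm hbt hbf (by rw [hsum]; exact hw) f hf0 hsup
  have hA := alg2 hbt hbf hqp (by rw [hsum]; exact hw) hs0 hs1 hy hκ' hρ0 hρ1 hρ hη hm
  rw [hJE, hJE, ← ENNReal.ofReal_add (add_nonneg (mul_nonneg (hsz _).le hκ0) (hf0 _))
    (mul_nonneg (hsz _).le (by linarith))]
  refine ENNReal.ofReal_le_ofReal ?_
  have h1 : ρ ^ 2 * f (y + 1) ≤ f (y - 1) := by
    have h2 := hρf (y + 1)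
    rw [add_sub_cancel_right] at h2
    calc ρ ^ 2 * f (y + 1) = ρ * (ρ * f (y + 1)) := by ring
      _ ≤ ρ * f y := mul_le_mul_of_nonneg_left h2 hρ0
      _ ≤ _ := hρf y
  have h3 : s ^ (y + 1) = s ^ (y - 1) * s ^ 2 := by
    rw [← zpow_natCast, ← zpow_add₀ hs0.ne']
    congr 1
    push_cast
    ring
  have h4 : (1 - ρ ^ 2) * f (y + 1) ≤ (1 - ρ ^ 2) * (s ^ (y + 1) * (m - κ)) :=
    mul_le_mul_of_nonneg_left (hfm _) (by nlinarith)
  rw [h3] at h4 ⊢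
  have h5 := mul_le_mul_of_nonneg_left hA (hsz (y - 1)).le
  nlinarith

end FDr.MA
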