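import Pool.Agent.Lib.MP_e029a2_pr.TH6

/-!
# The threshold in `w`, part 7: the theorem
-/

set_option autoImplicit false

namespace FDr.TH

open MeasureTheory ProbabilityTheory
open scoped ENNReal

open FDr.TR (ofReal_zpow_add Ug mfun_eq kap_ne_zero)

/-- the best constant -/
noncomputable def VV (w α : Set.Ioo (0 : ℝ) 1) (s : ℝ) (S : Finset ℤ) : ℝ≥0∞ :=
  ⨆ (T : Finset ℤ) (_ : T ⊆ S) (h : ℤ) (_ : h ∉ T), Xi w α s T h * ENNReal.ofReal (s ^ (-h))

theorem le_VV (w α : Set.Ioo (0 : ℝ) 1) {s : ℝ} (hs : 0 < s) {S T : Finset ℤ} (hT : T ⊆ S) {h : ℤ} (hh : h ∉ T) :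
    Xi w α s T h ≤ VV w α s S * ENNReal.ofReal (s ^ h) := by
  have h1 : Xi w α s T h * ENNReal.ofReal (s ^ (-h)) ≤ VV w α s S := by
    unfold VV
    exact le_iSup₂_of_le T hT (le_iSup₂_of_le h hh le_rfl)
  have h2 : ENNReal.ofReal (s ^ (-h)) * ENNReal.ofReal (s ^ h) = 1 := by
    rw [← ofReal_zpow_add hs, neg_add_cancel, zpow_zero, ENNReal.ofReal_one]
  calc Xi w α s T h = Xi w α s T h * ENNReal.ofReal (s ^ (-h)) * ENNReal.ofReal (s ^ h) := by rw [mul_assoc, h2, mul_one]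
    _ ≤ _ := mul_le_mul_left h1 _

theorem Xi_le_VV {w' w : Set.Ioo (0 : ℝ) 1} (α : Set.Ioo (0 : ℝ) 1) (hw : w' < w) {s : ℝ} (hs : 0 < s)
    {S T : Finset ℤ} (hT : T ⊆ S) (h : ℤ) : Xi w α s T h ≤ Xi w' α s T h + ENNReal.ofReal (1 - rr w' w) *
      (VV w α s S * (kap w' α s * (ENNReal.ofReal (s ^ h) + Xi w' α s T h))) := by
  refine (Xi_le α hw s T h).trans ?_
  refine add_le_add le_rfl (mul_le_mul_right ?_ _)
  refine le_trans ?_ (mul_le_mul_right (ends_le w' α hs T h) _)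
  rw [← ENNReal.tsum_mul_left]
  refine ENNReal.tsum_le_tsum fun p => ?_
  by_cases hp : ∃ c, EA (↑T : Set ℤ) h ↑p.1 p.2.1 p.2.2 c
  · obtain ⟨c, h1, h2, h3⟩ := hp
    have h4 : p.2.2 ∉ T \ p.1 := by
      have h5 : pl h p.2.1 + dsp (c p.2.1) ∉ (↑T : Set ℤ) \ cS ↑T h c := end_notMem (by rw [h1]; exact h2)
      rw [h1, h3] at h5
      intro h6
      apply h5
      rw [← Finset.coe_sdiff]
      exact Finset.mem_coe.2 h6
    refine (mul_le_mul_right (le_VV w α hs (Finset.sdiff_subset.trans hT) h4) _).trans (le_of_eq ?_)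
    ring
  · have h1 : {c | EA (↑T : Set ℤ) h ↑p.1 p.2.1 p.2.2 c} = ∅ :=
      Set.eq_empty_of_forall_notMem fun c hc => hp ⟨c, hc⟩
    rw [h1, measure_empty, zero_mul]
    exact zero_le

theorem VV_ne_top (w α : Set.Ioo (0 : ℝ) 1) {s : ℝ} (hs : 0 < s) (hb : bw w α true * s + bw w α false * s⁻¹ < 1)
    (S : Finset ℤ) : VV w α s S ≠ ⊤ := by
  obtain ⟨M, hM, h1⟩ := Xi_finite w α hs hb S
  refine ne_top_of_le_ne_top hM ?_
  unfold VV
  exact iSup₂_le fun T hT => iSup₂_le fun h _ => h1 T hT h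

theorem VV_rec {w' w : Set.Ioo (0 : ℝ) 1} (α : Set.Ioo (0 : ℝ) 1) (hw : w' < w) {s : ℝ} (hs : 0 < s)
    (S : Finset ℤ) : VV w α s S + 1 ≤ Ug w' α s + ENNReal.ofReal (1 - rr w' w) *
      (VV w α s S * (kap w' α s * Ug w' α s)) := by
  have h0 : ∀ T ⊆ S, ∀ h ∉ T, Xi w α s T h * ENNReal.ofReal (s ^ (-h)) + 1 ≤
      Ug w' α s + ENNReal.ofReal (1 - rr w' w) * (VV w α s S * (kap w' α s * Ug w' α s)) := by
    intro T hT h hh
    have h2 : ENNReal.ofReal (s ^ h) * ENNReal.ofReal (s ^ (-h)) = 1 := by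
      rw [← ofReal_zpow_add hs, add_neg_cancel, zpow_zero, ENNReal.ofReal_one]
    have h3 : Xi w' α s T h * ENNReal.ofReal (s ^ (-h)) + 1 ≤ Ug w' α s := by
      calc Xi w' α s T h * ENNReal.ofReal (s ^ (-h)) + 1
          = (Xi w' α s T h + ENNReal.ofReal (s ^ h)) * ENNReal.ofReal (s ^ (-h)) := by rw [add_mul, h2]
        _ ≤ ENNReal.ofReal (s ^ h) * Ug w' α s * ENNReal.ofReal (s ^ (-h)) :=
            mul_le_mul_left (Xi_add_le_Ug w' α hs hh) _
        _ = ENNReal.ofReal (s ^ h) * ENNReal.ofReal (s ^ (-h)) * Ug w' α s := by ring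
        _ = _ := by rw [h2, one_mul]
    calc Xi w α s T h * ENNReal.ofReal (s ^ (-h)) + 1
        ≤ (Xi w' α s T h + ENNReal.ofReal (1 - rr w' w) *
          (VV w α s S * (kap w' α s * (ENNReal.ofReal (s ^ h) + Xi w' α s T h)))) * ENNReal.ofReal (s ^ (-h)) + 1 := by
          gcongr
          exact Xi_le_VV α hw hs hT h
      _ = (Xi w' α s T h * ENNReal.ofReal (s ^ (-h)) + 1) + ENNReal.ofReal (1 - rr w' w) *
          (VV w α s S * (kap w' α s * (ENNReal.ofReal (s ^ h) * ENNReal.ofReal (s ^ (-h)) +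
            Xi w' α s T h * ENNReal.ofReal (s ^ (-h))))) := by ring
      _ ≤ _ := by
          rw [h2, add_comm 1 (Xi w' α s T h * ENNReal.ofReal (s ^ (-h)))]
          gcongr
  have h1 : 1 ≤ Ug w' α s + ENNReal.ofReal (1 - rr w' w) * (VV w α s S * (kap w' α s * Ug w' α s)) :=
    (one_le_Ug w' α s).trans le_self_add
  have h2 : VV w α s S ≤ Ug w' α s + ENNReal.ofReal (1 - rr w' w) * (VV w α s S * (kap w' α s * Ug w' α s)) - 1 := by
    conv_lhs => unfold VV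
    exact iSup₂_le fun T hT => iSup₂_le fun h hh => ENNReal.le_sub_of_add_le_right ENNReal.one_ne_top (h0 T hT h hh)
  calc VV w α s S + 1 ≤ _ - 1 + 1 := add_le_add h2 le_rfl
    _ = _ := tsub_add_cancel_of_le h1

/-- The generating function of the cluster. -/
theorem Ug_le (w α : Set.Ioo (0 : ℝ) 1) (s : ℝ) {Y : ℝ≥0∞} (hY : ∀ S : Finset ℤ, Xi w α s S 0 ≤ Y) : Ug w α s ≤ Y := by
  have hC : ∀ (S : Set ℤ) (h : ℤ), actP w α S h = pC w α S 0 h := by
    intro S h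
    unfold actP pC PR
    congr 1
    ext c
    constructor
    · intro H
      simp only [Set.mem_ofPred_eq] at H ⊢
      induction H with
      | enter h h1 h2 => exact CL.enter h (by rwa [sub_zero]) h2
      | next h h' _ h2 h3 ih => exact CL.next h h' ih h2 h3
    · intro H
      simp only [Set.mem_ofPred_eq] at H ⊢
      induction H with
      | enter h h1 h2 => exact Clus.enter h (by rwa [sub_zero] at h1) h2
      | next h h' _ h2 h3 ih => exact Clus.next h h' ih h2 h3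
  unfold Ug
  rw [ENNReal.tsum_eq_iSup_sum]
  refine iSup_le fun F => ?_
  have h1 : ∑ h ∈ F, actP w α Set.univ h * ENNReal.ofReal (s ^ h) =
      ⨆ L : ℕ, ∑ h ∈ F, actP w α ((Finset.Icc (-(L : ℤ)) L : Finset ℤ) : Set ℤ) h * ENNReal.ofReal (s ^ h) := by
    rw [← ENNReal.finsetSum_iSup_of_monotone]
    · refine Finset.sum_congr rfl fun h _ => ?_
      rw [actP_iSup, ENNReal.iSup_mul]
    · intro h L L' hL
      refine mul_le_mul_left (D2_actP_mono w α ?_ h) _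
      rw [Finset.coe_subset]
      exact Finset.Icc_subset_Icc (by omega) (by omega)
  rw [h1]
  refine iSup_le fun L => ?_
  refine le_trans ?_ (hY (Finset.Icc (-(L : ℤ)) L))
  have h2 : ∑ h ∈ F, actP w α ((Finset.Icc (-(L : ℤ)) L : Finset ℤ) : Set ℤ) h * ENNReal.ofReal (s ^ h) ≤
      ∑' h : ℤ, actP w α ((Finset.Icc (-(L : ℤ)) L : Finset ℤ) : Set ℤ) h * ENNReal.ofReal (s ^ h) :=
    ENNReal.sum_le_tsum F
  refine h2.trans (le_of_eq ?_)
  unfold Xi
  rw [tsum_eq_sum (s := Finset.Icc (-(L : ℤ)) L) fun h hh => by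
    rw [D2_actP_zero w α (by rwa [Finset.mem_coe]), zero_mul]]
  exact Finset.sum_congr rfl fun h _ => by rw [hC]

theorem main_bound {w' w : Set.Ioo (0 : ℝ) 1} (α : Set.Ioo (0 : ℝ) 1) (hw : w' < w) {s : ℝ} (hs : 0 < s)
    (hm : mfun w' α s < ENNReal.ofReal (1 + (1 - rr w' w) * (1 - w'))) : mfun w α s < 1 := by
  have hρ0 : 0 < rr (w' : ℝ) w := rr_pos
  have hρ1 : rr (w' : ℝ) w < 1 := rr_lt hw
  have hw'0 := w'.2.1
  have hw'1 := w'.2.2
  obtain ⟨ρ, hρ⟩ : ∃ ρ : ℝ, ρ = rr w' w := ⟨_, rfl⟩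
  rw [← hρ] at hm hρ0 hρ1
  have hK0 := kap_ne_zero w' α hs
  have hmt : mfun w' α s ≠ ⊤ := hm.ne_top
  rw [mfun_eq] at hmt hm
  have hUt : Ug w' α s ≠ ⊤ := by
    intro h
    rw [h, add_top, ENNReal.mul_top hK0] at hmt
    exact hmt rfl
  have hKt : kap w' α s ≠ ⊤ := by
    intro h
    rw [h, ENNReal.top_mul (by simp)] at hmt
    exact hmt rfl
  -- real numbers
  obtain ⟨K, hK⟩ : ∃ K : ℝ, K = (kap w' α s).toReal := ⟨_, rfl⟩
  obtain ⟨U, hU⟩ : ∃ U : ℝ, U = (Ug w' α s).toReal := ⟨_, rfl⟩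
  have hKE : kap w' α s = ENNReal.ofReal K := by rw [hK, ENNReal.ofReal_toReal hKt]
  have hUE : Ug w' α s = ENNReal.ofReal U := by rw [hU, ENNReal.ofReal_toReal hUt]
  have hKn : 0 ≤ K := by rw [hK]; exact ENNReal.toReal_nonneg
  have hUn : 0 ≤ U := by rw [hU]; exact ENNReal.toReal_nonneg
  have hU1 : 1 ≤ U := by
    have h1 := one_le_Ug w' α s
    rw [hUE, ← ENNReal.ofReal_one] at h1
    exact (ENNReal.ofReal_le_ofReal_iff hUn).1 h1
  have hKw : 1 - (w' : ℝ) ≤ K := by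
    have h1 := kap_geom w' α hs
    rw [hKE] at h1
    have h2 : ENNReal.ofReal (1 - w') ≤ ENNReal.ofReal K := by
      rw [h1]
      calc ENNReal.ofReal (1 - w') = ENNReal.ofReal (1 - w') * 1 := (mul_one _).symm
        _ ≤ _ := mul_le_mul_right (by
          refine le_trans (le_of_eq ?_) (ENNReal.le_tsum 0)
          rw [pow_zero]) _
    exact (ENNReal.ofReal_le_ofReal_iff hKn).1 h2
  have hm2 : K * (1 + U) < 1 + (1 - ρ) * (1 - w') := by
    rw [hKE, hUE, ← ENNReal.ofReal_one, ← ENNReal.ofReal_add zero_le_one hUn, ← ENNReal.ofReal_mul hKn] at hm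
    exact (ENNReal.ofReal_lt_ofReal_iff (by nlinarith)).1 hm
  have hm3 : K * (1 + U) < 1 + (1 - ρ) * K := by nlinarith
  have hK1 : K < 1 := by nlinarith
  have hb : bw w α true * s + bw w α false * s⁻¹ < w := by
    refine bw_lt w' w α hs ?_
    rw [hKE, ← ENNReal.ofReal_one]
    exact (ENNReal.ofReal_lt_ofReal_iff one_pos).2 hK1
  have hb1 : bw w α true * s + bw w α false * s⁻¹ < 1 := hb.trans w.2.2
  -- the generating function of the displacement for `w`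
  have hΔ1 : 0 < 1 - (1 - ρ) * K := by nlinarith
  have hΔ : 0 < 1 - (1 - ρ) * (K * U) := by nlinarith [mul_nonneg hKn hUn]
  have hkt : kap w α s ≠ ⊤ := by
    rw [kap_geom w α hs, ENNReal.tsum_geometric]
    refine ENNReal.mul_ne_top ENNReal.ofReal_ne_top ?_
    rw [Ne, ENNReal.inv_eq_top, tsub_eq_zero_iff_le, not_le, ← ENNReal.ofReal_one]
    exact (ENNReal.ofReal_lt_ofReal_iff one_pos).2 hb1
  obtain ⟨k, hk⟩ : ∃ k : ℝ, k = (kap w α s).toReal := ⟨_, rfl⟩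
  have hkE : kap w α s = ENNReal.ofReal k := by rw [hk, ENNReal.ofReal_toReal hkt]
  have hkn : 0 ≤ k := by rw [hk]; exact ENNReal.toReal_nonneg
  have hkr : k = K * (ρ + (1 - ρ) * k) := by
    have h1 := kap_rel α hw hs
    rw [← hρ, hkE, hKE, ← ENNReal.ofReal_mul (by linarith), ← ENNReal.ofReal_add hρ0.le (by
      have := mul_nonneg (by linarith : 0 ≤ 1 - ρ) hkn
      linarith), ← ENNReal.ofReal_mul hKn] at h1
    refine (ENNReal.ofReal_eq_ofReal_iff hkn ?_).1 h1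
    have := mul_nonneg (by linarith : 0 ≤ 1 - ρ) hkn
    positivity
  have hk2 : k * (1 - (1 - ρ) * K) = K * ρ := by linarith
  -- the clusters
  have hY : ∀ S : Finset ℤ, Xi w α s S 0 ≤
      ENNReal.ofReal (U + (1 - ρ) * ((U - 1) / (1 - (1 - ρ) * (K * U)) * (K * (1 + U)))) := by
    intro S
    have hVt := VV_ne_top w α hs hb1 S
    obtain ⟨V, hV⟩ : ∃ V : ℝ, V = (VV w α s S).toReal := ⟨_, rfl⟩
    have hVE : VV w α s S = ENNReal.ofReal V := by rw [hV, ENNReal.ofReal_toReal hVt]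
    have hVn : 0 ≤ V := by rw [hV]; exact ENNReal.toReal_nonneg
    have h1 := VV_rec α hw hs S
    have hρn : 0 ≤ 1 - ρ := by linarith
    rw [← hρ, hVE, hUE, hKE, ← ENNReal.ofReal_one, ← ENNReal.ofReal_add hVn zero_le_one, ← ENNReal.ofReal_mul hKn,
      ← ENNReal.ofReal_mul hVn, ← ENNReal.ofReal_mul hρn,
      ← ENNReal.ofReal_add hUn (by positivity)] at h1
    have h2 := (ENNReal.ofReal_le_ofReal_iff (by positivity)).1 h1
    have h3 : V ≤ (U - 1) / (1 - (1 - ρ) * (K * U)) := by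
      rw [le_div_iff₀ hΔ]
      linarith
    have h4 := Xi_le_VV α hw hs (Finset.Subset.refl S) 0
    have h5 : Xi w' α s S 0 ≤ ENNReal.ofReal U := by
      have h6 := Xi_le_Ug w' α hs S 0
      rwa [zpow_zero, ENNReal.ofReal_one, one_mul, hUE] at h6
    refine h4.trans ?_
    rw [zpow_zero, ← hρ, hVE, hKE]
    calc Xi w' α s S 0 + ENNReal.ofReal (1 - ρ) * (ENNReal.ofReal V * (ENNReal.ofReal K * (ENNReal.ofReal 1 + Xi w' α s S 0)))
        ≤ ENNReal.ofReal U + ENNReal.ofReal (1 - ρ) * (ENNReal.ofReal V * (ENNReal.ofReal K *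
          (ENNReal.ofReal 1 + ENNReal.ofReal U))) := by gcongr
      _ = ENNReal.ofReal (U + (1 - ρ) * (V * (K * (1 + U)))) := by
          rw [← ENNReal.ofReal_add zero_le_one hUn, ← ENNReal.ofReal_mul hKn, ← ENNReal.ofReal_mul hVn,
            ← ENNReal.ofReal_mul hρn, ← ENNReal.ofReal_add hUn (by positivity)]
      _ ≤ _ := by
          refine ENNReal.ofReal_le_ofReal ?_
          gcongr
  have hUg := Ug_le w α s hY
  have hYn : 0 ≤ U + (1 - ρ) * ((U - 1) / (1 - (1 - ρ) * (K * U)) * (K * (1 + U))) := by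
    have h1 : 0 ≤ (U - 1) / (1 - (1 - ρ) * (K * U)) := div_nonneg (by linarith) hΔ.le
    have h2 : 0 ≤ 1 - ρ := by linarith
    positivity
  rw [mfun_eq, hkE]
  calc ENNReal.ofReal k * (1 + Ug w α s)
      ≤ ENNReal.ofReal k * (1 + ENNReal.ofReal (U + (1 - ρ) * ((U - 1) / (1 - (1 - ρ) * (K * U)) * (K * (1 + U))))) := by
        gcongr
    _ = ENNReal.ofReal (k * (1 + (U + (1 - ρ) * ((U - 1) / (1 - (1 - ρ) * (K * U)) * (K * (1 + U)))))) := by
        rw [ENNReal.ofReal_mul hkn, ENNReal.ofReal_add zero_le_one hYn, ENNReal.ofReal_one]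
    _ < 1 := by
        rw [← ENNReal.ofReal_one]
        refine (ENNReal.ofReal_lt_ofReal_iff one_pos).2 ?_
        have h1 : 1 + (U + (1 - ρ) * ((U - 1) / (1 - (1 - ρ) * (K * U)) * (K * (1 + U)))) =
            (1 + U) * (1 - (1 - ρ) * K) / (1 - (1 - ρ) * (K * U)) := by
          have hq : (U - 1) / (1 - (1 - ρ) * (K * U)) * (1 - (1 - ρ) * (K * U)) = U - 1 := div_mul_cancel₀ _ hΔ.ne'
          rw [eq_div_iff hΔ.ne']
          linear_combination ((1 - ρ) * K * (1 + U)) * hq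
        rw [h1, mul_div_assoc', div_lt_one hΔ]
        calc k * ((1 + U) * (1 - (1 - ρ) * K)) = (1 + U) * (k * (1 - (1 - ρ) * K)) := by ring
          _ = (1 + U) * (K * ρ) := by rw [hk2]
          _ < _ := by nlinarith

end FDr.TH

namespace FDr

open scoped ENNReal

/-- **The strict monotonicity in `w` at the threshold.** -/
theorem Lam_lt_of_lt (w' w α : Set.Ioo (0 : ℝ) 1) (h : w' < w) (hl : Lam w' α ≤ 1) : Lam w α < 1 := by
  have h1 : Lam w' α < ENNReal.ofReal (1 + (1 - TH.rr w' w) * (1 - w')) := by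
    refine lt_of_le_of_lt hl ?_
    rw [← ENNReal.ofReal_one]
    refine (ENNReal.ofReal_lt_ofReal_iff ?_).2 ?_
    · have := mul_pos (sub_pos.2 (TH.rr_lt h)) (sub_pos.2 w'.2.2)
      linarith
    · have := mul_pos (sub_pos.2 (TH.rr_lt h)) (sub_pos.2 w'.2.2)
      linarith
  unfold Lam at h1
  obtain ⟨s, hs⟩ := iInf_lt_iff.1 h1
  obtain ⟨hs0, hs1⟩ := iInf_lt_iff.1 hs
  exact (iInf₂_le s hs0).trans_lt (TH.main_bound α h hs0 hs1)

end FDr
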