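import Pool.Agent.Lib.MP_e029a2_pr.MA4
import Pool.Agent.Lib.MP_e029a2_pr.TH7

/-!
# The monotonicity in `α`, part 5: all the frogs are replaced
-/

set_option autoImplicit false

namespace FDr.MA

open MeasureTheory ProbabilityTheory
open scoped ENNReal

open FDr.TH (CL CL_congr_iff CL_indep PR Xi pC run_lintegral measurable_CLc lintegral_mul_of_disj Xi_le_Ug Ug_le kap_geom)

open FDr.TR (ind_congr measurable_ind lintegral_ind ofReal_zpow_add Ug mfun_eq kap_ne_zero)

variable (w α α' : Set.Ioo (0 : ℝ) 1)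

/-! ### Equal laws -/

theorem V_int {s : ℝ} (hs : 0 < s) (S : Finset ℤ) (h : ℤ) :
    ∫⁻ c, V s S h (c none) (fun x => c (some x)) ∂PR w α = kap w α s * (ENNReal.ofReal (s ^ h) + Xi w α s S h) := by
  have hm3 : Measurable fun c : Option ℤ → Run => ENNReal.ofReal (s ^ (h + dsp (c none))) :=
    (measurable_of_countable fun l : Run => ENNReal.ofReal (s ^ (h + dsp l))).comp (measurable_pi_apply _)
  have hm4 : ∀ x : ℤ, Measurable fun c : Option ℤ → Run => ENNReal.ofReal (s ^ (x + dsp (c (some x)))) := fun x =>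
    (measurable_of_countable fun l : Run => ENNReal.ofReal (s ^ (x + dsp l))).comp (measurable_pi_apply _)
  have hm5 : ∀ x : ℤ, Measurable fun c : Option ℤ → Run => TR.ind (CL (↑S : Set ℤ) h (c none) (fun x => c (some x)) x) *
      ENNReal.ofReal (s ^ (x + dsp (c (some x)))) := fun x => (measurable_ind (measurable_CLc _ _ _)).mul (hm4 x)
  unfold V vl
  rw [lintegral_add_left hm3, lintegral_finsetSum _ fun x _ => hm5 x]
  have h5 : ∀ (f : Option ℤ) (y : ℤ), ∫⁻ c, ENNReal.ofReal (s ^ (y + dsp (c f))) ∂PR w α =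
      ENNReal.ofReal (s ^ y) * kap w α s := by
    intro f y
    rw [run_lintegral w α f fun l => ENNReal.ofReal (s ^ (y + dsp l))]
    simp only [ofReal_zpow_add hs]
    rw [lintegral_const_mul _ (measurable_of_countable _)]
    rfl
  rw [h5, mul_add, mul_comm (kap w α s) (ENNReal.ofReal (s ^ h))]
  congr 1
  unfold Xi
  rw [Finset.mul_sum]
  refine Finset.sum_congr rfl fun x _ => ?_
  have h6 : ∫⁻ c, TR.ind (CL ↑S h (c none) (fun x => c (some x)) x) * ENNReal.ofReal (s ^ (x + dsp (c (some x)))) ∂PR w α =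
      ∫⁻ c, ENNReal.ofReal (s ^ (x + dsp (c (some x)))) * TR.ind (CL ↑S h (c none) (fun x => c (some x)) x) ∂PR w α :=
    lintegral_congr fun c => mul_comm _ _
  rw [h6]
  have h7 : ∫⁻ c, ENNReal.ofReal (s ^ (x + dsp (c (some x)))) * TR.ind (CL ↑S h (c none) (fun x => c (some x)) x) ∂PR w α =
      (∫⁻ c, ENNReal.ofReal (s ^ (x + dsp (c (some x)))) ∂PR w α) *
        ∫⁻ c, TR.ind (CL ↑S h (c none) (fun x => c (some x)) x) ∂PR w α := by
    unfold PR
    refine lintegral_mul_of_disj (fun _ => runLaw w α) {some x} (hm4 x) (measurable_ind (measurable_CLc _ _ _)) ?_ ?_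
    · intro c c' hc
      rw [hc _ rfl]
    · intro c c' hc
      have h8 : c none = c' none := hc none (by simp)
      refine ind_congr ?_
      rw [h8]
      refine CL_indep fun y hy => hc (some y) ?_
      simpa using hy
  rw [h7, h5, lintegral_ind _ (measurable_CLc _ _ _)]
  show _ * kap w α s * pC w α ↑S h x = _
  ring

theorem map_PM (b : Bool) : Measure.map (fun (ω : Option ℤ × Bool → Run) (f : Option ℤ) => ω (f, b)) (PM w α α') =
    PR w (if b then α' else α) := by
  have hinj : Function.Injective fun f : Option ℤ => (f, b) := fun f g hfg => by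
    simpa using hfg
  have h1 := Measure.map_infinitePi_infinitePi_of_inj (P := μm w α α') hinj
  unfold PM PR
  exact h1

theorem JJ_const {s : ℝ} (hs : 0 < s) (b : Bool) (S : Finset ℤ) (h : ℤ) :
    JJ w α α' s (fun _ => b) S h = kap w (if b then α' else α) s *
      (ENNReal.ofReal (s ^ h) + Xi w (if b then α' else α) s S h) := by
  rw [← V_int w (if b then α' else α) hs S h, ← map_PM w α α' b, lintegral_map]
  · rfl
  · exact measurable_V s S h (measurable_pi_apply _) fun x => measurable_pi_apply _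
  · exact measurable_pi_lambda _ fun _ => measurable_pi_apply _

theorem JJ_congr (s : ℝ) {K K' : Option ℤ → Bool} (S : Finset ℤ) (h : ℤ) (h0 : K none = K' none)
    (hK : ∀ x ∈ S, K (some x) = K' (some x)) : JJ w α α' s K S h = JJ w α α' s K' S h := by
  refine lintegral_congr fun ω => ?_
  have h1 : ∀ x ∈ (↑S : Set ℤ), cK K ω (some x) = cK K' ω (some x) := by
    intro x hx
    unfold cK
    rw [hK x (Finset.mem_coe.1 hx)]
  have h2 : cK K ω none = cK K' ω none := by
    unfold cK
    rw [h0]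
  rw [h2]
  unfold V vl
  congr 1
  refine Finset.sum_congr rfl fun x hx => ?_
  simp only
  rw [ind_congr (CL_congr_iff h1 x), h1 x (Finset.mem_coe.2 hx)]

/-! ### The induction -/

/-- The frogs of `A` have the parameter `α'`. -/
def KA (A : Finset ℤ) (f : Option ℤ) : Bool := match f with
  | none => false
  | some x => decide (x ∈ A)

theorem KA_none (A : Finset ℤ) : KA A none = false := rfl

theorem KA_insert (A : Finset ℤ) (x : ℤ) : KA (insert x A) = Function.update (KA A) (some x) true := by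
  funext f
  cases f with
  | none =>
    rw [Function.update_of_ne (by simp)]
    rfl
  | some y =>
    by_cases hyx : y = x
    · subst hyx
      rw [Function.update_self]
      simp [KA]
    · rw [Function.update_of_ne (by simpa using hyx)]
      simp [KA, hyx]

variable {α α'}

theorem PK (hα : α ≤ α') {s : ℝ} (hs0 : 0 < s) (hs1 : s < 1) {m η κ : ℝ} (hη : 0 ≤ η) (hm0 : 0 ≤ m)
    (hm : m ≤ 1 + η) (hmm : mfun w α s = ENNReal.ofReal m) (hκ : kap w α s = ENNReal.ofReal κ) (hκ0 : 0 ≤ κ)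
    (hc : η * s ^ 2 ≤ (1 - s) ^ 2 * κ) (A : Finset ℤ) (T : Finset ℤ) (y : ℤ) :
    JA w α α' s (KA A) T y ≤ ENNReal.ofReal (s ^ y * m) := by
  induction A using Finset.induction_on generalizing T y with
  | empty =>
    have h1 : JA w α α' s (KA ∅) T y = JJ w α α' s (fun _ => false) T y := by
      rw [JJ_false w α α' s rfl]
      exact JA_congr w α α' s (fun x => by simp [KA]) T y
    rw [h1, JJ_const w α α' hs0 false T y]
    simp only [Bool.false_eq_true, if_false]
    rw [ENNReal.ofReal_mul (zpow_pos hs0 y).le, ← hmm, mfun_eq]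
    calc kap w α s * (ENNReal.ofReal (s ^ y) + Xi w α s T y)
        ≤ kap w α s * (ENNReal.ofReal (s ^ y) + ENNReal.ofReal (s ^ y) * Ug w α s) := by
          gcongr
          exact Xi_le_Ug w α hs0 T y
      _ = _ := by ring
  | insert x A hxA ih =>
    have h1 : KA A (some x) = false := by simp [KA, hxA]
    have hyp : ∀ (T : Finset ℤ) (e : ℤ), JA w α α' s (KA A) T (e + 1) ≤ JA w α α' s (KA A) T (e - 1) := fun T e =>
      le_self_add.trans (key w α α' hs0 hs1 (KA A) hη hm0 hm hκ hκ0 hc ih T e)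
    rw [← JJ_false w α α' s (KA_none _), KA_insert]
    refine (replace w hα s (KA A) h1 hyp T y).trans ?_
    rw [JJ_false w α α' s (KA_none _)]
    exact ih T y

/-- **The comparison at one `s`.** -/
theorem mfun_add_le (hα : α ≤ α') {s : ℝ} (hs0 : 0 < s) (hs1 : s < 1) {m η κ : ℝ} (hη : 0 ≤ η) (hm0 : 0 ≤ m)
    (hm : m ≤ 1 + η) (hmm : mfun w α s = ENNReal.ofReal m) (hκ : kap w α s = ENNReal.ofReal κ) (hκ0 : 0 ≤ κ)
    (hc : η * s ^ 2 ≤ (1 - s) ^ 2 * κ) :
    mfun w α' s + ENNReal.ofReal (w * (α' - α) / 2 * (s⁻¹ * ((1 - s) ^ 2 * κ - η * s ^ 2))) ≤ ENNReal.ofReal m := by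
  obtain ⟨G, hG⟩ : ∃ G, G = ENNReal.ofReal (w * (α' - α) / 2 * (s⁻¹ * ((1 - s) ^ 2 * κ - η * s ^ 2))) := ⟨_, rfl⟩
  have hδ : 0 ≤ (w : ℝ) * (α' - α) / 2 := by
    have h1 : (α : ℝ) ≤ α' := hα
    have h2 := w.2.1
    have : 0 ≤ (α' : ℝ) - α := by linarith
    positivity
  have h0 : ∀ S : Finset ℤ, kap w α' s * (1 + Xi w α' s S 0) + G ≤ ENNReal.ofReal m := by
    intro S
    have hyp : ∀ (T : Finset ℤ) (e : ℤ), JA w α α' s (KA S) T (e + 1) +
        ENNReal.ofReal (s ^ (e - 1) * ((1 - s) ^ 2 * κ - η * s ^ 2)) ≤ JA w α α' s (KA S) T (e - 1) := fun T e =>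
      key w α α' hs0 hs1 (KA S) hη hm0 hm hκ hκ0 hc (PK w hα hs0 hs1 hη hm0 hm hmm hκ hκ0 hc S) T e
    have h1 := replace_gain w hα s (KA S) (KA_none S) hyp S 0
    have h2 : JJ w α α' s (Function.update (KA S) none true) S 0 = kap w α' s * (1 + Xi w α' s S 0) := by
      rw [JJ_congr w α α' s (K' := fun _ => true) S 0 (by rw [Function.update_self])]
      · rw [JJ_const w α α' hs0 true S 0]
        simp only [if_true, zpow_zero, ENNReal.ofReal_one]
      · intro x hx
        rw [Function.update_of_ne (by simp)]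
        simp [KA, hx]
    have h3 : JJ w α α' s (KA S) S 0 ≤ ENNReal.ofReal m := by
      rw [JJ_false w α α' s (KA_none S)]
      have h4 := PK w hα hs0 hs1 hη hm0 hm hmm hκ hκ0 hc S S 0
      rwa [zpow_zero, one_mul] at h4
    rw [h2, zero_sub, zpow_neg_one, ← ENNReal.ofReal_mul hδ, ← hG] at h1
    exact h1.trans h3
  rw [← hG]
  have hGt : G ≠ ⊤ := by rw [hG]; exact ENNReal.ofReal_ne_top
  have hk0 := kap_ne_zero w α' hs0
  have hkt : kap w α' s ≠ ⊤ := by
    intro h1
    have h2 := h0 ∅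
    rw [h1, ENNReal.top_mul (by simp), top_add, top_le_iff] at h2
    exact ENNReal.ofReal_ne_top h2
  have h1 : ∀ S : Finset ℤ, 1 + Xi w α' s S 0 ≤ (ENNReal.ofReal m - G) / kap w α' s := by
    intro S
    rw [ENNReal.le_div_iff_mul_le (Or.inl hk0) (Or.inl hkt), mul_comm]
    exact ENNReal.le_sub_of_add_le_right hGt (h0 S)
  have h2 : Ug w α' s ≤ (ENNReal.ofReal m - G) / kap w α' s - 1 :=
    Ug_le w α' s fun S => ENNReal.le_sub_of_add_le_left ENNReal.one_ne_top (h1 S)
  have h3 : 1 ≤ (ENNReal.ofReal m - G) / kap w α' s := le_self_add.trans (h1 ∅)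
  have h4 : 1 + Ug w α' s ≤ (ENNReal.ofReal m - G) / kap w α' s := by
    calc 1 + Ug w α' s ≤ 1 + ((ENNReal.ofReal m - G) / kap w α' s - 1) := add_le_add le_rfl h2
      _ = _ := add_tsub_cancel_of_le h3
  rw [ENNReal.le_div_iff_mul_le (Or.inl hk0) (Or.inl hkt), mul_comm, ← mfun_eq] at h4
  have h5 : G ≤ ENNReal.ofReal m := le_add_self.trans (h0 ∅)
  calc mfun w α' s + G ≤ ENNReal.ofReal m - G + G := add_le_add h4 le_rfl
    _ = _ := tsub_add_cancel_of_le h5

end FDr.MA
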