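import Pool.Agent.Lib.MP_e029a2_pr.MA5

/-!
# The monotonicity in `α`, part 6: the theorem
-/

set_option autoImplicit false

namespace FDr.MA

open MeasureTheory ProbabilityTheory
open scoped ENNReal

open FDr.TH (kap_geom one_le_Ug)

open FDr.TR (Ug mfun_eq kap_ne_zero)

/-- bounds for `s` and `κ` if the mean is not much larger than `1` -/
theorem s_bounds (w α : Set.Ioo (0 : ℝ) 1) {s : ℝ} (hs : 0 < s) {m : ℝ} (hm : m ≤ 4 / 3)
    (hmm : mfun w α s = ENNReal.ofReal m) :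
    ∃ κ : ℝ, kap w α s = ENNReal.ofReal κ ∧ 1 - (w : ℝ) ≤ κ ∧ (1 - (w : ℝ)) / 2 ≤ 1 - s := by
  have hw0 := w.2.1
  have hw1 := w.2.2
  have hw : 0 < 1 - (w : ℝ) := by linarith
  have hbt := bw_pos w.2 α.2 true
  have hbf := bw_pos w.2 α.2 false
  have hsum : bw w α true + bw w α false = w := bw_sum w α
  have hqp : bw w α false ≤ bw w α true := by
    have h1 := w.2.1
    have h2 := α.2.1
    unfold bw
    simp only [Bool.false_eq_true, if_false, if_true]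
    nlinarith
  have hkt : kap w α s ≠ ⊤ := by
    intro h1
    rw [mfun_eq, h1, ENNReal.top_mul (by simp)] at hmm
    exact ENNReal.ofReal_ne_top hmm.symm
  have hy := kap_lt w α hs hkt
  obtain ⟨y, hyd⟩ : ∃ y, y = bw w α true * s + bw w α false * s⁻¹ := ⟨_, rfl⟩
  have hk := kap_val w α hs hy
  rw [← hyd] at hy hk
  have hy0 : 0 ≤ y := by
    rw [hyd]
    positivity
  have h2k : 2 * ((1 - (w : ℝ)) / (1 - y)) ≤ 4 / 3 := by
    have h1 : ENNReal.ofReal (2 * ((1 - (w : ℝ)) / (1 - y))) ≤ ENNReal.ofReal m := by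
      rw [← hmm, mfun_eq, hk, mul_comm (2 : ℝ), ENNReal.ofReal_mul (div_nonneg hw.le (by linarith))]
      refine mul_le_mul_right ?_ _
      calc ENNReal.ofReal 2 = 1 + 1 := by rw [ENNReal.ofReal_ofNat]; norm_num
        _ ≤ _ := add_le_add le_rfl (one_le_Ug w α s)
    by_contra hcon
    push Not at hcon
    exact absurd h1 (not_le.2 ((ENNReal.ofReal_lt_ofReal_iff (by linarith)).2 (by linarith)))
  refine ⟨(1 - w) / (1 - y), hk, ?_, ?_⟩
  · rw [le_div_iff₀ (by linarith)]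
    nlinarith
  · have h1 : 3 / 2 * (1 - (w : ℝ)) ≤ 1 - y := by
      rw [mul_div_assoc', div_le_iff₀ (by linarith)] at h2k
      linarith
    have h2 : (w : ℝ) - y = (1 - s) * (bw w α true - bw w α false * s⁻¹) := by
      have hss : s * s⁻¹ = 1 := mul_inv_cancel₀ hs.ne'
      rw [hyd]
      linear_combination (-1 : ℝ) * hsum - (bw w α false) * hss
    have h3 : (1 - (w : ℝ)) / 2 ≤ (1 - s) * (bw w α true - bw w α false * s⁻¹) := by
      rw [← h2]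
      linarith
    rcases le_or_gt 1 s with h4 | h4
    · exfalso
      have h5 : s⁻¹ ≤ 1 := inv_le_one_of_one_le₀ h4
      have h6 : bw w α false * s⁻¹ ≤ bw w α true := by nlinarith
      nlinarith
    · have h7 : 0 < bw w α false * s⁻¹ := by positivity
      have h8 : bw w α true - bw w α false * s⁻¹ ≤ 1 := by linarith
      nlinarith

/-- **The comparison at one `s`**, with an explicit gain. -/
theorem mfun_gain (w : Set.Ioo (0 : ℝ) 1) {α α' : Set.Ioo (0 : ℝ) 1} (hα : α ≤ α') {s : ℝ} (hs : 0 < s)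
    (hm : mfun w α s < ENNReal.ofReal (1 + (1 - w) ^ 3 / 8)) :
    mfun w α' s + ENNReal.ofReal (w * (α' - α) / 2 * ((1 - w) ^ 3 / 8)) ≤ mfun w α s := by
  have hw0 := w.2.1
  have hw1 := w.2.2
  have hw : 0 < 1 - (w : ℝ) := by linarith
  obtain ⟨η, hη⟩ : ∃ η : ℝ, η = (1 - (w : ℝ)) ^ 3 / 8 := ⟨_, rfl⟩
  have hη0 : 0 ≤ η := by rw [hη]; positivity
  have hη1 : η ≤ 1 / 8 := by
    rw [hη]
    have : (1 - (w : ℝ)) ^ 3 ≤ 1 := pow_le_one₀ hw.le (by linarith)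
    linarith
  obtain ⟨m, hmd⟩ : ∃ m : ℝ, m = (mfun w α s).toReal := ⟨_, rfl⟩
  have hmm : mfun w α s = ENNReal.ofReal m := by rw [hmd, ENNReal.ofReal_toReal hm.ne_top]
  have hm0 : 0 ≤ m := by rw [hmd]; exact ENNReal.toReal_nonneg
  have hm1 : m ≤ 1 + η := by
    rw [hmm, ← hη] at hm
    exact ((ENNReal.ofReal_lt_ofReal_iff (by linarith)).1 hm).le
  obtain ⟨κ, hκ, hκ1, hs1⟩ := s_bounds w α hs (by linarith) hmm
  have hs1' : s < 1 := by linarith
  have h1 : (1 - (w : ℝ)) ^ 3 / 4 ≤ (1 - s) ^ 2 * κ := by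
    have h2 : ((1 - (w : ℝ)) / 2) ^ 2 ≤ (1 - s) ^ 2 := pow_le_pow_left₀ (by linarith) hs1 2
    calc (1 - (w : ℝ)) ^ 3 / 4 = ((1 - (w : ℝ)) / 2) ^ 2 * (1 - w) := by ring
      _ ≤ (1 - s) ^ 2 * κ := mul_le_mul h2 hκ1 hw.le (sq_nonneg _)
  have h2 : η * s ^ 2 ≤ η := by
    have : s ^ 2 ≤ 1 := pow_le_one₀ hs.le hs1'.le
    nlinarith
  have hc : η * s ^ 2 ≤ (1 - s) ^ 2 * κ := by
    rw [hη] at h2 ⊢
    have : 0 ≤ (1 - (w : ℝ)) ^ 3 := by positivity
    linarith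
  have h3 := mfun_add_le w hα hs hs1' hη0 hm0 hm1 hmm hκ (by linarith) hc
  rw [← hmm] at h3
  refine le_trans (add_le_add le_rfl (ENNReal.ofReal_le_ofReal ?_)) h3
  have hδ : 0 ≤ (w : ℝ) * (α' - α) / 2 := by
    have h4 : (α : ℝ) ≤ α' := hα
    have : 0 ≤ (α' : ℝ) - α := by linarith
    positivity
  refine mul_le_mul_of_nonneg_left ?_ hδ
  have h5 : (1 - (w : ℝ)) ^ 3 / 8 ≤ (1 - s) ^ 2 * κ - η * s ^ 2 := by
    rw [hη] at h2 ⊢
    linarith
  have h6 : 1 ≤ s⁻¹ := (one_le_inv₀ hs).2 hs1'.le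
  have h7 : 0 ≤ (1 - (w : ℝ)) ^ 3 / 8 := by positivity
  calc (1 - (w : ℝ)) ^ 3 / 8 = 1 * ((1 - (w : ℝ)) ^ 3 / 8) := (one_mul _).symm
    _ ≤ s⁻¹ * ((1 - s) ^ 2 * κ - η * s ^ 2) := mul_le_mul h6 h5 h7 (by linarith)

end FDr.MA

namespace FDr

open scoped ENNReal

/-- **`Lam` is strictly decreasing in `α` where it is not much larger than `1`.** -/
theorem Lam_gain (w α α' : Set.Ioo (0 : ℝ) 1) (h : α ≤ α') (hl : Lam w α < ENNReal.ofReal (1 + (1 - w) ^ 3 / 8)) :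
    Lam w α' + ENNReal.ofReal (w * (α' - α) / 2 * ((1 - w) ^ 3 / 8)) ≤ Lam w α := by
  have h1 : ∀ s : ℝ, 0 < s → mfun w α s < ENNReal.ofReal (1 + (1 - w) ^ 3 / 8) →
      Lam w α' + ENNReal.ofReal (w * (α' - α) / 2 * ((1 - w) ^ 3 / 8)) ≤ mfun w α s := by
    intro s hs hm
    refine le_trans (add_le_add ?_ le_rfl) (MA.mfun_gain w h hs hm)
    unfold Lam
    exact iInf₂_le s hs
  obtain ⟨s₀, hs₀⟩ := iInf_lt_iff.1 (show (⨅ (s : ℝ) (_ : 0 < s), mfun w α s) < _ from hl)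
  obtain ⟨hs0, hs1⟩ := iInf_lt_iff.1 hs₀
  conv_rhs => unfold Lam
  refine le_iInf₂ fun s hs => ?_
  rcases lt_or_ge (mfun w α s) (ENNReal.ofReal (1 + (1 - w) ^ 3 / 8)) with h2 | h2
  · exact h1 s hs h2
  · exact (h1 s₀ hs0 hs1).trans (hs1.le.trans h2)

/-- **The strict monotonicity in `α` at the threshold.** -/
theorem Lam_lt_of_lt_right (w α α' : Set.Ioo (0 : ℝ) 1) (h : α < α') (hl : Lam w α ≤ 1) : Lam w α' < 1 := by
  have hw0 := w.2.1
  have hw1 := w.2.2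
  have hw : 0 < 1 - (w : ℝ) := by linarith
  have h0 : (α : ℝ) < α' := h
  have hG : 0 < (w : ℝ) * (α' - α) / 2 * ((1 - w) ^ 3 / 8) := by
    have : 0 < (α' : ℝ) - α := by linarith
    positivity
  have h1 : Lam w α < ENNReal.ofReal (1 + (1 - w) ^ 3 / 8) := by
    refine lt_of_le_of_lt hl ?_
    rw [← ENNReal.ofReal_one]
    refine (ENNReal.ofReal_lt_ofReal_iff (by positivity)).2 ?_
    have : 0 < (1 - (w : ℝ)) ^ 3 := by positivity
    linarith
  have h2 := (Lam_gain w α α' h.le h1).trans hl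
  have h3 : Lam w α' ≠ ⊤ := ne_top_of_le_ne_top ENNReal.one_ne_top (le_self_add.trans h2)
  exact lt_of_lt_of_le (ENNReal.lt_add_right h3 (ENNReal.ofReal_pos.2 hG).ne') h2

end FDr
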