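import Pool.Agent.Lib.MP_e029a2_pr.MA6

/-!
# `Lam w α < 1` for `w` near `1`, part 1: the left range

Let `λ = (1 - α) / (1 + α)`.  A run visits `-k` with probability at most `λ ^ k`, for all `w`.
-/

set_option autoImplicit false

namespace FDr.MB

open MeasureTheory ProbabilityTheory
open scoped ENNReal

open FDr.TH (CL zero_mem_vis lintegral_runLaw)

open FDr.MA (vis_cons tr le_tr)

/-- The quotient of the probabilities of a left and a right step. -/
noncomputable def lam (α : ℝ) : ℝ := (1 - α) / (1 + α)

theorem lam_pos (α : Set.Ioo (0 : ℝ) 1) : 0 < lam α := by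
  have h1 := α.2.1
  have h2 := α.2.2
  unfold lam
  have : 0 < 1 - (α : ℝ) := by linarith
  positivity

theorem lam_lt (α : Set.Ioo (0 : ℝ) 1) : lam α < 1 := by
  have h1 := α.2.1
  have h2 := α.2.2
  unfold lam
  rw [div_lt_one (by linarith)]
  linarith

theorem bw_lam (w α : Set.Ioo (0 : ℝ) 1) : bw w α false = lam α * bw w α true := by
  have h1 := α.2.1
  unfold bw lam
  simp only [Bool.false_eq_true, if_false, if_true]
  have : (1 : ℝ) + α ≠ 0 := by positivity
  field_simp

/-- a run which visits `z ≤ a ≤ 0` visits `a` -/
theorem vis_conv (l : Run) : ∀ {z a : ℤ}, z ∈ vis l → z ≤ a → a ≤ 0 → a ∈ vis l := by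
  induction l with
  | nil =>
    rintro z a ⟨i, _, hi⟩ h1 h2
    have h3 : z = 0 := by
      rw [← hi]
      simp [dsp]
    have h4 : a = 0 := by omega
    rw [h4]
    exact zero_mem_vis _
  | cons b r ih =>
    intro z a hz h1 h2
    rcases vis_cons.1 hz with h3 | h3
    · have h4 : a = 0 := by omega
      rw [h4]
      exact zero_mem_vis _
    · by_cases h4 : a = 0
      · rw [h4]
        exact zero_mem_vis _
      · refine vis_cons.2 (Or.inr (ih h3 (by omega) ?_))
        cases b
        · simp only [sg, Bool.false_eq_true, if_false]
          omega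
        · simp only [sg, if_true]
          omega

/-- The probability to go `k` sites to the left. -/
theorem visP_le (w α : Set.Ioo (0 : ℝ) 1) (k : ℕ) : visP w α (-(k : ℤ)) ≤ ENNReal.ofReal (lam α ^ k) := by
  have h0 := (lam_pos α).le
  have hbt := bw_pos w.2 α.2 true
  have hbf := bw_pos w.2 α.2 false
  have hw1 := w.2.2
  have hw0 := w.2.1
  have key : ∀ (n : ℕ) (k : ℕ), tr w α n (fun l => TR.ind (-(k : ℤ) ∈ vis l)) ≤ ENNReal.ofReal (lam α ^ k) := by
    intro n
    induction n with
    | zero => intro k; exact zero_le
    | succ n ih =>
      intro k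
      cases k with
      | zero =>
        rw [pow_zero, ENNReal.ofReal_one]
        calc tr w α (n + 1) (fun l => TR.ind (-((0 : ℕ) : ℤ) ∈ vis l))
            ≤ ∑' l : Run, ENNReal.ofReal (runW w α l) * 1 := by
              rw [MA.tr_eq]
              refine ENNReal.tsum_le_tsum fun l => ?_
              split_ifs
              · refine mul_le_mul_right ?_ _
                unfold TR.ind
                split_ifs
                · exact le_rfl
                · exact zero_le
              · exact zero_le
          _ = 1 := by
              rw [← lintegral_runLaw w α (fun _ => 1), lintegral_const, measure_univ, mul_one]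
      | succ k =>
        have e1 : (fun r : Run => TR.ind (-((k + 1 : ℕ) : ℤ) ∈ vis (true :: r))) =
            fun r : Run => TR.ind (-((k + 2 : ℕ) : ℤ) ∈ vis r) := by
          funext r
          refine TR.ind_congr ?_
          rw [vis_cons]
          constructor
          · rintro (h | h)
            · omega
            · have h2 : -((k + 1 : ℕ) : ℤ) - sg true = -((k + 2 : ℕ) : ℤ) := by
                simp only [sg, if_true]
                push_cast
                ring
              rwa [h2] at h
          · intro h
            right
            have h2 : -((k + 1 : ℕ) : ℤ) - sg true = -((k + 2 : ℕ) : ℤ) := by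
              simp only [sg, if_true]
              push_cast
              ring
            rwa [h2]
        have e2 : (fun r : Run => TR.ind (-((k + 1 : ℕ) : ℤ) ∈ vis (false :: r))) =
            fun r : Run => TR.ind (-(k : ℤ) ∈ vis r) := by
          funext r
          refine TR.ind_congr ?_
          rw [vis_cons]
          have h2 : -((k + 1 : ℕ) : ℤ) - sg false = -(k : ℤ) := by
            simp only [sg, Bool.false_eq_true, if_false]
            push_cast
            ring
          constructor
          · rintro (h | h)
            · omega
            · rwa [h2] at h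
          · intro h
            right
            rwa [h2]
        have e3 : TR.ind (-((k + 1 : ℕ) : ℤ) ∈ vis ([] : Run)) = 0 := by
          refine TR.ind_false ?_
          rintro ⟨i, _, hi⟩
          have h2 : dsp (([] : Run).take i) = 0 := by simp [dsp]
          rw [h2] at hi
          omega
        rw [tr, e1, e2, e3, mul_zero, zero_add]
        refine (add_le_add (mul_le_mul_right (ih (k + 2)) _) (mul_le_mul_right (ih k) _)).trans ?_
        rw [← ENNReal.ofReal_mul hbt.le, ← ENNReal.ofReal_mul hbf.le, ← ENNReal.ofReal_add (by positivity) (by positivity)]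
        refine ENNReal.ofReal_le_ofReal ?_
        have h3 : bw w α true * lam α ^ (k + 2) + bw w α false * lam α ^ k =
            (bw w α true + bw w α false) * lam α ^ (k + 1) := by
          rw [bw_lam w α]
          ring
        rw [h3, bw_sum]
        have h4 : 0 ≤ lam α ^ (k + 1) := by positivity
        nlinarith
  have h1 : visP w α (-(k : ℤ)) = ∫⁻ l, TR.ind (-(k : ℤ) ∈ vis l) ∂runLaw w α :=
    (TR.lintegral_ind _ (measurable_of_countable _)).symm
  rw [h1]
  exact le_tr w α _ fun n => key n k

/-- **The ways to activate `-m`.** -/
theorem act_split {e : Run} {c : ℤ → Run} {m n : ℤ} (hn : 0 ≤ n) (hm : n < m) (H : CL Set.univ 0 e c (-m)) :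
    (∃ z : ℤ, -m + n < z ∧ CL Set.univ 0 e c z ∧ -m - z ∈ vis (c z)) ∨ -m ∈ vis e ∨
      ((∃ k : ℤ, 1 ≤ k ∧ k ≤ n ∧ -k ∈ vis (c (-m + k))) ∧ CL {x | -m + n ≤ x} 0 e c (-m + n)) := by
  by_contra hcon
  push Not at hcon
  obtain ⟨h1, h2, h3⟩ := hcon
  by_cases hB : ∃ k : ℤ, 1 ≤ k ∧ k ≤ n ∧ -k ∈ vis (c (-m + k))
  · have h4 := h3 hB
    have key : ∀ z, CL Set.univ 0 e c z → -m + n < z ∧ CL {x | -m + n ≤ x} 0 e c z := by
      intro z Hz
      induction Hz with
      | enter z hz _ =>
        have h5 : -m + n < z := by
          by_contra h6
          push Not at h6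
          exact h4 (CL.enter _ (vis_conv e hz (by omega) (by omega)) (show -m + n ≤ -m + n from le_rfl))
        exact ⟨h5, CL.enter z hz (show -m + n ≤ z from h5.le)⟩
      | next z z' _ hv _ ih =>
        have h5 : -m + n < z' := by
          by_contra h6
          push Not at h6
          exact h4 (CL.next z _ ih.2 (vis_conv (c z) hv (by omega) (by have := ih.1; omega))
            (show -m + n ≤ -m + n from le_rfl))
        exact ⟨h5, CL.next z z' ih.2 hv (show -m + n ≤ z' from h5.le)⟩
    have h6 := (key _ H).1
    omega
  · push Not at hB
    have key : ∀ z, CL Set.univ 0 e c z → -m < z := by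
      intro z Hz
      induction Hz with
      | enter z hz _ =>
        by_contra h6
        push Not at h6
        exact h2 (vis_conv e hz (by omega) (by omega))
      | next z z' Hz hv _ ih =>
        by_contra h6
        push Not at h6
        have h7 : -m - z ∈ vis (c z) := vis_conv (c z) hv (by omega) (by omega)
        rcases lt_or_ge (-m + n) z with h8 | h8
        · exact h1 z h8 Hz h7
        · have h9 := hB (z + m) (by omega) (by omega)
          have h10 : -m + (z + m) = z := by ring
          have h11 : -(z + m) = -m - z := by ring
          rw [h10, h11] at h9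
          exact h9 h7
    have h6 := key _ H
    omega

end FDr.MB
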