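import Pool.Agent.Lib.MP_e029a2_pr.MB1

/-!
# `Lam w α < 1` for `w` near `1`, part 2: the recursive inequality for the left range
-/

set_option autoImplicit false

namespace FDr.MB

open MeasureTheory ProbabilityTheory
open scoped ENNReal

open FDr.TH (CL CL_indep CL_congr_iff CL_mono PR pC measurable_CLc measurable_CL lintegral_mul_of_disj run_lintegral)

open FDr.TR (ind_congr ind_and measurable_ind lintegral_ind)

variable (w α : Set.Ioo (0 : ℝ) 1)

/-- A frog is activated independently of its own run. -/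
theorem act_vis (S : Set ℤ) (z : ℤ) (p : Run → Prop) :
    PR w α {c | CL S 0 (c none) (fun x => c (some x)) z ∧ p (c (some z))} = pC w α S 0 z * runLaw w α {l | p l} := by
  have hm1 : Measurable fun c : Option ℤ → Run => CL S 0 (c none) (fun x => c (some x)) z := measurable_CLc S 0 z
  have hm2 : Measurable fun c : Option ℤ → Run => p (c (some z)) :=
    (measurable_of_countable p).comp (measurable_pi_apply _)
  rw [← lintegral_ind _ (hm1.and hm2)]
  simp only [ind_and]
  unfold PR
  rw [lintegral_mul_of_disj (fun _ : Option ℤ => runLaw w α) {i | i ≠ some z} (measurable_ind hm1) (measurable_ind hm2)]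
  · rw [lintegral_ind _ hm1, lintegral_ind _ hm2]
    congr 1
    have h1 := run_lintegral w α (some z) fun l => TR.ind (p l)
    unfold PR at h1
    rw [lintegral_ind _ (measurable_of_countable p), lintegral_ind _ hm2] at h1
    exact h1
  · intro c c' hc
    have h8 : c none = c' none := hc none (by simp)
    refine ind_congr ?_
    rw [h8]
    refine CL_indep fun y hy => hc (some y) ?_
    simpa using hy
  · intro c c' hc
    rw [hc (some z) (by simp)]

theorem run_set (f : Option ℤ) (p : Run → Prop) : PR w α {c | p (c f)} = runLaw w α {l | p l} := by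
  have hm2 : Measurable fun c : Option ℤ → Run => p (c f) := (measurable_of_countable p).comp (measurable_pi_apply _)
  have h1 := run_lintegral w α f fun l => TR.ind (p l)
  rw [lintegral_ind _ (measurable_of_countable p), lintegral_ind _ hm2] at h1
  exact h1

/-- The lower bound for the probability that no frog of a block visits the next site. -/
noncomputable def ph (α : ℝ) (n : ℕ) : ℝ := ∏ k ∈ Finset.range n, (1 - lam α ^ (k + 1))

theorem lam_pow_lt (k : ℕ) : lam α ^ (k + 1) < 1 := pow_lt_one₀ (lam_pos α).le (lam_lt α) (Nat.succ_ne_zero k)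

theorem ph_pos (n : ℕ) : 0 < ph α n := by
  unfold ph
  exact Finset.prod_pos fun k _ => by
    have := lam_pow_lt α k
    linarith

theorem ph_le (n : ℕ) : ph α n ≤ 1 := by
  unfold ph
  refine Finset.prod_le_one (fun k _ => ?_) fun k _ => ?_
  · have := lam_pow_lt α k
    linarith
  · have := pow_pos (lam_pos α) (k + 1)
    linarith

/-- A frog of the block of `n` sites to the right of `-m` visits `-m`. -/
def BB (m n : ℤ) (c : Option ℤ → Run) : Prop := ∃ k : ℤ, 1 ≤ k ∧ k ≤ n ∧ -k ∈ vis (c (some (-m + k)))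

theorem measurable_BB (m n : ℤ) : Measurable (BB m n) := by
  refine Measurable.exists fun k => measurable_const.and (measurable_const.and ?_)
  exact (measurable_of_countable fun l : Run => -k ∈ vis l).comp (measurable_pi_apply _)

theorem BB_le (m : ℤ) (n : ℕ) : PR w α {c | BB m n c} ≤ ENNReal.ofReal (1 - ph α n) := by
  classical
  obtain ⟨g, hg⟩ : ∃ g : ℕ → Option ℤ, g = fun k : ℕ => some (-m + ((k : ℤ) + 1)) := ⟨_, rfl⟩
  have hinj : Function.Injective g := by
    intro a b hab
    rw [hg] at hab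
    simp only [Option.some.injEq] at hab
    omega
  obtain ⟨t, ht⟩ : ∃ t : Option ℤ → Set Run, t = fun f => {l | ∀ k : ℕ, f = g k → -((k + 1 : ℕ) : ℤ) ∉ vis l} := ⟨_, rfl⟩
  have h1 : {c | ¬BB m n c} = Set.pi ((Finset.range n).image g : Finset (Option ℤ)) t := by
    ext c
    simp only [Set.mem_pi, Finset.coe_image, Finset.coe_range, Set.mem_image, Set.mem_Iio,
      forall_exists_index, and_imp, forall_apply_eq_imp_iff₂]
    constructor
    · intro h k hk
      rw [ht]
      intro k' hk' h2
      have hkk : k = k' := hinj hk'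
      subst hkk
      refine h ⟨(k : ℤ) + 1, by omega, by omega, ?_⟩
      rw [hg] at h2
      push_cast at h2
      exact h2
    · rintro h ⟨k, hk1, hk2, hk3⟩
      obtain ⟨j, rfl⟩ : ∃ j : ℕ, k = (j : ℤ) + 1 := ⟨(k - 1).toNat, by omega⟩
      have h2 := h j (by omega)
      rw [ht] at h2
      have h3 := h2 j rfl
      rw [hg] at h3
      apply h3
      push_cast
      exact hk3
  have h2 : PR w α {c | ¬BB m n c} = ∏ k ∈ Finset.range n, (1 - visP w α (-((k + 1 : ℕ) : ℤ))) := by
    rw [h1]
    unfold PR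
    rw [Measure.infinitePi_pi _ fun i _ => (show MeasurableSet (t i) from trivial),
      Finset.prod_image fun a _ b _ hab => hinj hab]
    refine Finset.prod_congr rfl fun k _ => ?_
    have h3 : t (g k) = {l | -((k + 1 : ℕ) : ℤ) ∈ vis l}ᶜ := by
      ext l
      rw [ht]
      constructor
      · intro h
        exact h k rfl
      · intro h k' hk'
        have hkk : k = k' := hinj hk'
        subst hkk
        exact h
    rw [h3, prob_compl_eq_one_sub (show MeasurableSet {l : Run | -((k + 1 : ℕ) : ℤ) ∈ vis l} from trivial)]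
    rfl
  have h3 : ENNReal.ofReal (ph α n) ≤ PR w α {c | ¬BB m n c} := by
    rw [h2]
    unfold ph
    rw [ENNReal.ofReal_prod_of_nonneg fun k _ => by
      have := lam_pow_lt α k
      linarith]
    refine Finset.prod_le_prod' fun k _ => ?_
    rw [ENNReal.ofReal_sub _ (pow_nonneg (lam_pos α).le _), ENNReal.ofReal_one]
    exact tsub_le_tsub_left (visP_le w α (k + 1)) 1
  have h4 : MeasurableSet {c | BB m n c} := measurableSet_setOfPred.2 (measurable_BB m n)
  have h5 : PR w α {c | ¬BB m n c} = 1 - PR w α {c | BB m n c} := prob_compl_eq_one_sub h4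
  have h6 : PR w α {c | BB m n c} = 1 - PR w α {c | ¬BB m n c} := by
    rw [h5]
    exact (ENNReal.sub_sub_cancel ENNReal.one_ne_top prob_le_one).symm
  rw [h6, ENNReal.ofReal_sub _ (ph_pos α n).le, ENNReal.ofReal_one]
  exact tsub_le_tsub_left h3 1

/-- The activation probability of `-m`. -/
noncomputable def uu (m : ℕ) : ℝ≥0∞ := pC w α Set.univ 0 (-(m : ℤ))

theorem pC_mono {S T : Set ℤ} (h : S ⊆ T) (z : ℤ) : pC w α S 0 z ≤ pC w α T 0 z :=
  measure_mono fun _ hc => CL_mono h hc

theorem third_le (m n : ℕ) (hm : n < m) :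
    PR w α {c | BB m n c ∧ CL {x | -(m : ℤ) + n ≤ x} 0 (c none) (fun x => c (some x)) (-(m : ℤ) + n)} ≤
      ENNReal.ofReal (1 - ph α n) * uu w α (m - n) := by
  have hm1 := measurable_BB (m : ℤ) (n : ℤ)
  have hm2 : Measurable fun c : Option ℤ → Run =>
      CL {x | -(m : ℤ) + n ≤ x} 0 (c none) (fun x => c (some x)) (-(m : ℤ) + n) := measurable_CLc _ 0 _
  rw [← lintegral_ind _ (hm1.and hm2)]
  simp only [ind_and]
  have h1 : ∫⁻ c, TR.ind (BB m n c) * TR.ind (CL {x | -(m : ℤ) + n ≤ x} 0 (c none) (fun x => c (some x)) (-(m : ℤ) + n))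
      ∂PR w α = PR w α {c | BB m n c} * pC w α {x | -(m : ℤ) + n ≤ x} 0 (-(m : ℤ) + n) := by
    unfold PR pC
    rw [lintegral_mul_of_disj (fun _ : Option ℤ => runLaw w α)
      {i | ∃ k : ℤ, 1 ≤ k ∧ k ≤ n ∧ i = some (-(m : ℤ) + k)} (measurable_ind hm1) (measurable_ind hm2)]
    · rw [lintegral_ind _ hm1, lintegral_ind _ hm2]
      rfl
    · intro c c' hc
      refine ind_congr ?_
      refine exists_congr fun k => and_congr_right fun h1 => and_congr_right fun h2 => ?_
      rw [hc _ ⟨k, h1, h2, rfl⟩]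
    · intro c c' hc
      refine ind_congr ?_
      have h8 : c none = c' none := hc none (by rintro ⟨k, _, _, h⟩; simp at h)
      rw [h8]
      have h9 : CL {x | -(m : ℤ) + n ≤ x} 0 (c' none) (fun x => c (some x)) (-(m : ℤ) + n) ↔
          CL {x | -(m : ℤ) + n ≤ x} 0 (c' none)
            (fun x => if x = -(m : ℤ) + n then c' (some x) else c (some x)) (-(m : ℤ) + n) :=
        CL_indep fun y hy => by simp [hy]
      rw [h9]
      refine CL_congr_iff (fun x hx => ?_) _
      split_ifs with h10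
      · rfl
      · refine hc (some x) ?_
        rintro ⟨k, hk1, hk2, hk3⟩
        have h11 : x = -(m : ℤ) + k := by simpa using hk3
        have h12 : -(m : ℤ) + n ≤ x := hx
        omega
  rw [h1]
  refine mul_le_mul' (BB_le w α m n) ?_
  unfold uu
  have h2 : (-((m - n : ℕ) : ℤ)) = -(m : ℤ) + n := by omega
  rw [h2]
  exact pC_mono w α (Set.subset_univ _) _

/-- **The recursive inequality.** -/
theorem uu_rec (m n : ℕ) (hm : n < m) :
    uu w α m ≤ ∑ j ∈ Finset.range (m - n), uu w α j * ENNReal.ofReal (lam α ^ (m - j)) +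
      ∑' z : ℕ, ENNReal.ofReal (lam α ^ (m + z + 1)) + ENNReal.ofReal (lam α ^ m) +
        ENNReal.ofReal (1 - ph α n) * uu w α (m - n) := by
  obtain ⟨A, hA⟩ : ∃ A : ℕ → Set (Option ℤ → Run), A = fun j : ℕ => {c : Option ℤ → Run | CL Set.univ 0 (c none) (fun x => c (some x)) (-(j : ℤ)) ∧
    -((m - j : ℕ) : ℤ) ∈ vis (c (some (-(j : ℤ))))} := ⟨_, rfl⟩
  obtain ⟨B, hB⟩ : ∃ B : ℕ → Set (Option ℤ → Run), B = fun z : ℕ => {c : Option ℤ → Run | -((m + z + 1 : ℕ) : ℤ) ∈ vis (c (some ((z : ℤ) + 1)))} :=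
    ⟨_, rfl⟩
  obtain ⟨E, hE⟩ : ∃ E : Set (Option ℤ → Run), E = {c | -(m : ℤ) ∈ vis (c none)} := ⟨_, rfl⟩
  obtain ⟨F, hF⟩ : ∃ F : Set (Option ℤ → Run), F = {c | BB m n c ∧
    CL {x | -(m : ℤ) + n ≤ x} 0 (c none) (fun x => c (some x)) (-(m : ℤ) + n)} := ⟨_, rfl⟩
  have h1 : {c | CL Set.univ 0 (c none) (fun x => c (some x)) (-(m : ℤ))} ⊆
      (⋃ j ∈ Finset.range (m - n), A j) ∪ (⋃ z : ℕ, B z) ∪ E ∪ F := by
    intro c hc
    have hc' : CL Set.univ 0 (c none) (fun x => c (some x)) (-(m : ℤ)) := hc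
    rcases act_split (by omega) (by omega : (n : ℤ) < m) hc' with ⟨z, hz1, hz2, hz3⟩ | h2 | h2
    · left
      left
      rcases le_or_gt z 0 with hz | hz
      · left
        obtain ⟨j, rfl⟩ : ∃ j : ℕ, z = -(j : ℤ) := ⟨z.natAbs, by omega⟩
        simp only [Set.mem_iUnion, Finset.mem_range, exists_prop]
        refine ⟨j, by omega, ?_⟩
        rw [hA]
        refine ⟨hz2, ?_⟩
        have h3 : -((m - j : ℕ) : ℤ) = -(m : ℤ) - -(j : ℤ) := by omega
        rw [h3]
        exact hz3
      · right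
        obtain ⟨j, rfl⟩ : ∃ j : ℕ, z = (j : ℤ) + 1 := ⟨(z - 1).toNat, by omega⟩
        rw [Set.mem_iUnion]
        refine ⟨j, ?_⟩
        rw [hB]
        have h3 : -((m + j + 1 : ℕ) : ℤ) = -(m : ℤ) - ((j : ℤ) + 1) := by omega
        show -((m + j + 1 : ℕ) : ℤ) ∈ vis (c (some ((j : ℤ) + 1)))
        rw [h3]
        exact hz3
    · left
      right
      rw [hE]
      exact h2
    · right
      rw [hF]
      exact h2
  have h2 : uu w α m ≤ PR w α ((⋃ j ∈ Finset.range (m - n), A j) ∪ (⋃ z : ℕ, B z) ∪ E ∪ F) := measure_mono h1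
  refine h2.trans ((measure_union_le _ _).trans (add_le_add ((measure_union_le _ _).trans (add_le_add
    ((measure_union_le _ _).trans (add_le_add ?_ ?_)) ?_)) ?_))
  · refine (measure_biUnion_finset_le _ _).trans (Finset.sum_le_sum fun j hj => ?_)
    rw [hA]
    have h3 := act_vis w α Set.univ (-(j : ℤ)) fun l => -((m - j : ℕ) : ℤ) ∈ vis l
    simp only at h3 ⊢
    rw [h3]
    exact mul_le_mul_right (visP_le w α (m - j)) _
  · refine (measure_iUnion_le _).trans (ENNReal.tsum_le_tsum fun z => ?_)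
    rw [hB]
    have h3 := run_set w α (some ((z : ℤ) + 1)) fun l => -((m + z + 1 : ℕ) : ℤ) ∈ vis l
    simp only at h3 ⊢
    rw [h3]
    exact visP_le w α (m + z + 1)
  · rw [hE]
    have h3 := run_set w α none fun l => -(m : ℤ) ∈ vis l
    rw [h3]
    exact visP_le w α m
  · rw [hF]
    exact third_le w α m n hm

end FDr.MB
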