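import Pool.Agent.Lib.MP_e029a2_pr.MB2

/-!
# `Lam w α < 1` for `w` near `1`, part 3: the exponential bound for the left range and the theorem
-/

set_option autoImplicit false

namespace FDr.MB

open MeasureTheory ProbabilityTheory Filter Topology
open scoped ENNReal

open FDr.TH (CL PR pC)

open FDr.TR (Ug mfun_eq)

/-! ### Real numbers -/

theorem exists_n (α : Set.Ioo (0 : ℝ) 1) : ∃ n : ℕ, lam α ^ (n + 1) / (1 - lam α) < ph α n := by
  have h0 := lam_pos α
  have h1 := lam_lt α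
  obtain ⟨n₀, hn₀⟩ := exists_pow_lt_of_lt_one (show 0 < (1 - lam α) / 2 by linarith) h1
  have hb : ∀ k : ℕ, (1 + lam α) / 2 ≤ 1 - lam α ^ (n₀ + k + 1) := by
    intro k
    have h2 : lam α ^ (n₀ + k + 1) ≤ lam α ^ n₀ := pow_le_pow_of_le_one h0.le h1.le (by omega)
    linarith
  have hph : ∀ k : ℕ, ph α n₀ * ((1 + lam α) / 2) ^ k ≤ ph α (n₀ + k) := by
    intro k
    induction k with
    | zero => simp
    | succ k ih =>
      have h3 : ph α (n₀ + (k + 1)) = ph α (n₀ + k) * (1 - lam α ^ (n₀ + k + 1)) := by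
        unfold ph
        rw [← add_assoc, Finset.prod_range_succ]
      rw [h3, pow_succ, ← mul_assoc]
      exact mul_le_mul ih (hb k) (by linarith) (ph_pos α _).le
  have hr : lam α / ((1 + lam α) / 2) < 1 := by
    rw [div_lt_one (by linarith)]
    linarith
  obtain ⟨k, hk⟩ := exists_pow_lt_of_lt_one (show 0 < ph α n₀ * (1 - lam α) by
    have := ph_pos α n₀
    have : 0 < 1 - lam α := by linarith
    positivity) hr
  refine ⟨n₀ + k, lt_of_lt_of_le ?_ (hph k)⟩
  rw [div_lt_iff₀ (by linarith)]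
  rw [div_pow, div_lt_iff₀ (by positivity)] at hk
  have h4 : lam α ^ (n₀ + k + 1) ≤ lam α ^ k := pow_le_pow_of_le_one h0.le h1.le (by omega)
  calc lam α ^ (n₀ + k + 1) ≤ lam α ^ k := h4
    _ < ph α n₀ * (1 - lam α) * ((1 + lam α) / 2) ^ k := hk
    _ = _ := by ring

theorem exists_mu {l φ : ℝ} (h1 : l < 1) (n : ℕ) (h : l ^ (n + 1) / (1 - l) < φ) :
    ∃ μ : ℝ, l < μ ∧ μ < 1 ∧ (l / μ) ^ (n + 1) / (1 - l / μ) + (1 - φ) * (μ⁻¹) ^ n < 1 := by
  have hc1 : ContinuousAt (fun μ : ℝ => l / μ) 1 := continuousAt_const.div continuousAt_id one_ne_zero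
  have hc : ContinuousAt (fun μ : ℝ => (l / μ) ^ (n + 1) / (1 - l / μ) + (1 - φ) * (μ⁻¹) ^ n) 1 := by
    refine ((hc1.pow (n + 1)).div (continuousAt_const.sub hc1) ?_).add
      (continuousAt_const.mul ((continuousAt_inv₀ one_ne_zero).pow n))
    show (1 : ℝ) - l / 1 ≠ 0
    rw [div_one]
    linarith
  have hlt : (l / 1) ^ (n + 1) / (1 - l / 1) + (1 - φ) * ((1 : ℝ)⁻¹) ^ n < 1 := by
    rw [div_one, inv_one, one_pow]
    linarith
  have h2 : ∀ᶠ μ in 𝓝 (1 : ℝ), (l / μ) ^ (n + 1) / (1 - l / μ) + (1 - φ) * (μ⁻¹) ^ n < 1 :=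
    hc.tendsto.eventually_lt_const hlt
  have h3 : ∀ᶠ μ in 𝓝 (1 : ℝ), l < μ := lt_mem_nhds h1
  have h4 : ∀ᶠ μ in 𝓝[<] (1 : ℝ), (l / μ) ^ (n + 1) / (1 - l / μ) + (1 - φ) * (μ⁻¹) ^ n < 1 ∧ l < μ ∧ μ < 1 := by
    filter_upwards [nhdsWithin_le_nhds h2, nhdsWithin_le_nhds h3, self_mem_nhdsWithin] with μ a b c
    exact ⟨a, b, c⟩
  obtain ⟨μ, a, b, c⟩ := h4.exists
  exact ⟨μ, b, c, a⟩

theorem geom_le {x : ℝ} (h0 : 0 ≤ x) (h1 : x < 1) {m n : ℕ} (hmn : n < m) :
    ∑ j ∈ Finset.range (m - n), x ^ (m - j) ≤ x ^ (n + 1) / (1 - x) := by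
  have e1 : ∑ j ∈ Finset.range (m - n), x ^ (m - j) = ∑ i ∈ Finset.range (m - n), x ^ (n + 1) * x ^ i := by
    rw [← Finset.sum_range_reflect]
    refine Finset.sum_congr rfl fun i hi => ?_
    rw [← pow_add]
    congr 1
    have := Finset.mem_range.1 hi
    omega
  rw [e1, ← Finset.mul_sum, div_eq_mul_inv]
  refine mul_le_mul_of_nonneg_left ?_ (by positivity)
  have h2 := (hasSum_geometric_of_lt_one h0 h1)
  exact sum_le_hasSum _ (fun i _ => by positivity) h2

/-- The exponential bound. -/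
theorem exp_bound {l φ μ : ℝ} (h0 : 0 < l) (hμ0 : l < μ) (hμ1 : μ < 1) (hφ : φ ≤ 1) {n : ℕ}
    (hθ : (l / μ) ^ (n + 1) / (1 - l / μ) + (1 - φ) * (μ⁻¹) ^ n < 1) :
    ∃ C : ℝ, 0 ≤ C ∧ ∀ u : ℕ → ℝ, (∀ m, 0 ≤ u m) → (∀ m, u m ≤ 1) → (∀ m, n < m → u m ≤
      ∑ j ∈ Finset.range (m - n), u j * l ^ (m - j) + l ^ m / (1 - l) + (1 - φ) * u (m - n)) →
      ∀ m, u m ≤ C * μ ^ m := by
  have hμ : 0 < μ := h0.trans hμ0
  have hl1 : l < 1 := hμ0.trans hμ1
  obtain ⟨θ, hθd⟩ : ∃ θ, θ = (l / μ) ^ (n + 1) / (1 - l / μ) + (1 - φ) * (μ⁻¹) ^ n := ⟨_, rfl⟩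
  rw [← hθd] at hθ
  have hx0 : 0 ≤ l / μ := by positivity
  have hx1 : l / μ < 1 := (div_lt_one hμ).2 hμ0
  obtain ⟨C, hC⟩ : ∃ C, C = (μ⁻¹) ^ n + 1 / ((1 - l) * (1 - θ)) := ⟨_, rfl⟩
  have hl : 0 < 1 - l := by linarith
  have ht : 0 < 1 - θ := by linarith
  have hC0 : 0 ≤ C := by rw [hC]; positivity
  refine ⟨C, hC0, fun u hu0 hu1 hrec m => ?_⟩
  induction m using Nat.strong_induction_on with
  | _ m ih =>
    rcases le_or_gt m n with hmn | hmn
    · have h2 : (1 : ℝ) ≤ (μ⁻¹) ^ n * μ ^ m := by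
        calc (1 : ℝ) = (μ⁻¹) ^ n * μ ^ n := by rw [← mul_pow, inv_mul_cancel₀ hμ.ne', one_pow]
          _ ≤ (μ⁻¹) ^ n * μ ^ m := by
            refine mul_le_mul_of_nonneg_left ?_ (by positivity)
            exact pow_le_pow_of_le_one hμ.le hμ1.le hmn
      refine (hu1 m).trans (h2.trans ?_)
      refine mul_le_mul_of_nonneg_right ?_ (by positivity)
      rw [hC]
      have : 0 ≤ 1 / ((1 - l) * (1 - θ)) := by positivity
      linarith
    · refine (hrec m hmn).trans ?_
      have h3 : ∑ j ∈ Finset.range (m - n), u j * l ^ (m - j) ≤ C * μ ^ m * ((l / μ) ^ (n + 1) / (1 - l / μ)) := by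
        calc ∑ j ∈ Finset.range (m - n), u j * l ^ (m - j)
            ≤ ∑ j ∈ Finset.range (m - n), C * μ ^ m * (l / μ) ^ (m - j) := by
              refine Finset.sum_le_sum fun j hj => ?_
              have hj' := Finset.mem_range.1 hj
              have h4 : μ ^ m = μ ^ j * μ ^ (m - j) := by
                rw [← pow_add]
                congr 1
                omega
              calc u j * l ^ (m - j) ≤ C * μ ^ j * l ^ (m - j) :=
                    mul_le_mul_of_nonneg_right (ih j (by omega)) (by positivity)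
                _ = _ := by
                    rw [h4, div_pow]
                    field_simp
          _ = C * μ ^ m * ∑ j ∈ Finset.range (m - n), (l / μ) ^ (m - j) := by rw [Finset.mul_sum]
          _ ≤ _ := mul_le_mul_of_nonneg_left (geom_le hx0 hx1 hmn) (by positivity)
      have h5 : l ^ m / (1 - l) ≤ μ ^ m * (1 / (1 - l)) := by
        rw [div_eq_mul_one_div]
        refine mul_le_mul_of_nonneg_right ?_ (by positivity)
        exact pow_le_pow_left₀ h0.le hμ0.le m
      have h6 : (1 - φ) * u (m - n) ≤ C * μ ^ m * ((1 - φ) * (μ⁻¹) ^ n) := by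
        rcases Nat.eq_zero_or_pos n with hn | hn
        · subst hn
          have h7 : (1 - φ) * u m ≤ (1 - φ) * 1 := mul_le_mul_of_nonneg_left (hu1 m) (by linarith)
          have h8 : u (m - 0) = u m := by rw [Nat.sub_zero]
          rw [h8, pow_zero, mul_one]
          -- use the recursive inequality itself: `u m ≤ ... + (1 - φ) u m`
          by_contra hcon
          push Not at hcon
          have h9 : C * μ ^ m < u m := by
            by_contra h10
            push Not at h10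
            have h11 : (1 - φ) * u m ≤ (1 - φ) * (C * μ ^ m) := mul_le_mul_of_nonneg_left h10 (by linarith)
            linarith
          have h12 := hrec m hmn
          rw [h8] at h12
          have h13 : C * (1 - θ) ≥ 1 / (1 - l) := by
            rw [hC, add_mul]
            have h14 : 1 / ((1 - l) * (1 - θ)) * (1 - θ) = 1 / (1 - l) := by
              field_simp
            rw [h14]
            have : 0 ≤ (μ⁻¹) ^ 0 * (1 - θ) := by positivity
            linarith
          have h15 : θ = (l / μ) ^ (0 + 1) / (1 - l / μ) + (1 - φ) := by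
            rw [hθd, pow_zero, mul_one]
          have h16 : φ * u m ≤ C * μ ^ m * ((l / μ) ^ (0 + 1) / (1 - l / μ)) + μ ^ m * (1 / (1 - l)) := by linarith
          have h17 : C * μ ^ m * ((l / μ) ^ (0 + 1) / (1 - l / μ)) + μ ^ m * (1 / (1 - l)) ≤ φ * (C * μ ^ m) := by
            have h18 : (l / μ) ^ (0 + 1) / (1 - l / μ) = θ - (1 - φ) := by linarith
            rw [h18]
            have h19 : μ ^ m * (1 / (1 - l)) ≤ μ ^ m * (C * (1 - θ)) := mul_le_mul_of_nonneg_left h13 (by positivity)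
            have h20 : C * μ ^ m * (θ - (1 - φ)) + μ ^ m * (C * (1 - θ)) = φ * (C * μ ^ m) := by ring
            linarith
          have h21 : φ * u m ≤ φ * (C * μ ^ m) := h16.trans h17
          have hφ0 : 0 < φ := by
            by_contra hneg
            push Not at hneg
            have h22 : 0 ≤ (l / μ) ^ (0 + 1) / (1 - l / μ) := div_nonneg (by positivity) (by linarith)
            linarith
          exact absurd (le_of_mul_le_mul_left h21 hφ0) (not_le.2 h9)
        · have h7 := ih (m - n) (by omega)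
          have h8 : μ ^ (m - n) = μ ^ m * (μ⁻¹) ^ n := by
            have h9 : μ ^ m = μ ^ (m - n) * μ ^ n := by
              rw [← pow_add]
              congr 1
              omega
            rw [h9, mul_assoc, ← mul_pow, mul_inv_cancel₀ hμ.ne', one_pow, mul_one]
          calc (1 - φ) * u (m - n) ≤ (1 - φ) * (C * μ ^ (m - n)) := mul_le_mul_of_nonneg_left h7 (by linarith)
            _ = _ := by rw [h8]; ring
      have h13 : 1 / (1 - l) ≤ C * (1 - θ) := by
        rw [hC, add_mul]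
        have h14 : 1 / ((1 - l) * (1 - θ)) * (1 - θ) = 1 / (1 - l) := by
          field_simp
        rw [h14]
        have : 0 ≤ (μ⁻¹) ^ n * (1 - θ) := by positivity
        linarith
      have h19 : μ ^ m * (1 / (1 - l)) ≤ μ ^ m * (C * (1 - θ)) := mul_le_mul_of_nonneg_left h13 (by positivity)
      calc ∑ j ∈ Finset.range (m - n), u j * l ^ (m - j) + l ^ m / (1 - l) + (1 - φ) * u (m - n)
          ≤ C * μ ^ m * ((l / μ) ^ (n + 1) / (1 - l / μ)) + μ ^ m * (C * (1 - θ)) + C * μ ^ m * ((1 - φ) * (μ⁻¹) ^ n) := by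
            linarith
        _ = C * μ ^ m * ((l / μ) ^ (n + 1) / (1 - l / μ) + (1 - φ) * (μ⁻¹) ^ n) + μ ^ m * (C * (1 - θ)) := by ring
        _ = C * μ ^ m := by rw [← hθd]; ring

end FDr.MB
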