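import Pool.Agent.Lib.MP_e029a2_pr.MB3

/-!
# `Lam w α < 1` for `w` near `1`, part 4: the theorem
-/

set_option autoImplicit false

namespace FDr.MB

open MeasureTheory ProbabilityTheory Filter Topology
open scoped ENNReal

open FDr.TH (CL PR pC)

open FDr.TR (Ug mfun_eq)

theorem actP_eq (w α : Set.Ioo (0 : ℝ) 1) (S : Set ℤ) (h : ℤ) : actP w α S h = pC w α S 0 h := by
  unfold actP pC PR
  congr 1
  ext c
  constructor
  · intro H
    simp only [Set.mem_ofPred_eq] at H ⊢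
    induction H with
    | enter h h1 h2 => exact CL.enter h (by rwa [sub_zero]) h2
    | next h h' _ h2 h3 ih => exact CL.next h h' ih h2 h3
  · intro H
    simp only [Set.mem_ofPred_eq] at H ⊢
    induction H with
    | enter h h1 h2 => exact Clus.enter h (by rwa [sub_zero] at h1) h2
    | next h h' _ h2 h3 ih => exact Clus.next h h' ih h2 h3

theorem uu_le_one (w α : Set.Ioo (0 : ℝ) 1) (m : ℕ) : uu w α m ≤ 1 := prob_le_one

/-- **The exponential bound for the left range**, uniform in `w`. -/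
theorem left_bound (α : Set.Ioo (0 : ℝ) 1) : ∃ μ C : ℝ, lam α < μ ∧ μ < 1 ∧ 0 ≤ C ∧
    ∀ (w : Set.Ioo (0 : ℝ) 1) (m : ℕ), uu w α m ≤ ENNReal.ofReal (C * μ ^ m) := by
  have h0 := lam_pos α
  have h1 := lam_lt α
  obtain ⟨n, hn⟩ := exists_n α
  obtain ⟨μ, hμ0, hμ1, hθ⟩ := exists_mu h1 n hn
  obtain ⟨C, hC0, hC⟩ := exp_bound h0 hμ0 hμ1 (ph_le α n) hθ
  refine ⟨μ, C, hμ0, hμ1, hC0, fun w m => ?_⟩
  have hμ : 0 < μ := h0.trans hμ0
  have hfin : ∀ m, uu w α m ≠ ⊤ := fun m => ne_top_of_le_ne_top ENNReal.one_ne_top (uu_le_one w α m)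
  obtain ⟨u, hu⟩ : ∃ u : ℕ → ℝ, ∀ m, u m = (uu w α m).toReal := ⟨_, fun _ => rfl⟩
  have hu0 : ∀ m, 0 ≤ u m := fun m => by rw [hu]; exact ENNReal.toReal_nonneg
  have huE : ∀ m, uu w α m = ENNReal.ofReal (u m) := fun m => by rw [hu, ENNReal.ofReal_toReal (hfin m)]
  have hu1 : ∀ m, u m ≤ 1 := by
    intro m
    have h2 := uu_le_one w α m
    rw [huE, ← ENNReal.ofReal_one] at h2
    exact (ENNReal.ofReal_le_ofReal_iff zero_le_one).1 h2
  rw [huE]
  refine ENNReal.ofReal_le_ofReal (hC u hu0 hu1 (fun m hm => ?_) m)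
  have h2 := uu_rec w α m n hm
  have hφ : 0 ≤ 1 - ph α n := by linarith [ph_le α n]
  have h3 : ∑ j ∈ Finset.range (m - n), uu w α j * ENNReal.ofReal (lam α ^ (m - j)) =
      ENNReal.ofReal (∑ j ∈ Finset.range (m - n), u j * lam α ^ (m - j)) := by
    rw [ENNReal.ofReal_sum_of_nonneg fun j _ => mul_nonneg (hu0 j) (pow_nonneg h0.le _)]
    refine Finset.sum_congr rfl fun j _ => ?_
    rw [huE, ← ENNReal.ofReal_mul (hu0 j)]
  have h4 : ∑' z : ℕ, ENNReal.ofReal (lam α ^ (m + z + 1)) = ENNReal.ofReal (lam α ^ (m + 1) / (1 - lam α)) := by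
    have h5 : ∀ z : ℕ, lam α ^ (m + z + 1) = lam α ^ (m + 1) * lam α ^ z := fun z => by rw [← pow_add]; congr 1; omega
    simp only [h5]
    have hg := (hasSum_geometric_of_lt_one h0.le h1).mul_left (lam α ^ (m + 1))
    rw [← ENNReal.ofReal_tsum_of_nonneg (fun z => by positivity) hg.summable, hg.tsum_eq, div_eq_mul_inv]
  rw [h3, h4, huE, huE, ← ENNReal.ofReal_mul hφ, ← ENNReal.ofReal_add, ← ENNReal.ofReal_add, ← ENNReal.ofReal_add] at h2
  · have h6 := (ENNReal.ofReal_le_ofReal_iff ?_).1 h2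
    · have h7 : lam α ^ m / (1 - lam α) = lam α ^ (m + 1) / (1 - lam α) + lam α ^ m := by
        have h8 : (1 : ℝ) - lam α ≠ 0 := by linarith
        field_simp
        ring
      rw [h7]
      linarith
    · have h9 : 0 ≤ ∑ j ∈ Finset.range (m - n), u j * lam α ^ (m - j) :=
        Finset.sum_nonneg fun j _ => mul_nonneg (hu0 j) (pow_nonneg h0.le _)
      have h10 : 0 ≤ lam α ^ (m + 1) / (1 - lam α) := div_nonneg (by positivity) (by linarith)
      have h11 := mul_nonneg hφ (hu0 (m - n))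
      have h12 : 0 ≤ lam α ^ m := by positivity
      linarith
  · have h9 : 0 ≤ ∑ j ∈ Finset.range (m - n), u j * lam α ^ (m - j) :=
      Finset.sum_nonneg fun j _ => mul_nonneg (hu0 j) (pow_nonneg h0.le _)
    have h10 : 0 ≤ lam α ^ (m + 1) / (1 - lam α) := div_nonneg (by positivity) (by linarith)
    have h12 : 0 ≤ lam α ^ m := by positivity
    linarith
  · exact mul_nonneg hφ (hu0 (m - n))
  · have h9 : 0 ≤ ∑ j ∈ Finset.range (m - n), u j * lam α ^ (m - j) :=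
      Finset.sum_nonneg fun j _ => mul_nonneg (hu0 j) (pow_nonneg h0.le _)
    have h10 : 0 ≤ lam α ^ (m + 1) / (1 - lam α) := div_nonneg (by positivity) (by linarith)
    linarith
  · positivity
  · exact Finset.sum_nonneg fun j _ => mul_nonneg (hu0 j) (pow_nonneg h0.le _)
  · exact div_nonneg (by positivity) (by linarith)

theorem tsum_int_le (f : ℤ → ℝ≥0∞) : ∑' h : ℤ, f h ≤ ∑' n : ℕ, f n + ∑' n : ℕ, f (-(n : ℤ)) := by
  classical
  obtain ⟨σ, hσ⟩ : ∃ σ : ℤ → ℕ × Bool, σ = fun h => (h.natAbs, decide (0 ≤ h)) := ⟨_, rfl⟩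
  obtain ⟨g, hg⟩ : ∃ g : ℕ × Bool → ℤ, g = fun p => if p.2 then (p.1 : ℤ) else -(p.1 : ℤ) := ⟨_, rfl⟩
  have hgσ : ∀ h, g (σ h) = h := by
    intro h
    rw [hg, hσ]
    simp only [decide_eq_true_eq]
    split_ifs with h1
    · exact Int.natAbs_of_nonneg h1
    · have h2 := Int.ofNat_natAbs_of_nonpos (not_le.1 h1).le
      rw [h2, neg_neg]
  have hinj : Function.Injective σ := fun a b hab => by rw [← hgσ a, ← hgσ b, hab]
  calc ∑' h : ℤ, f h = ∑' h : ℤ, (f ∘ g) (σ h) := tsum_congr fun h => by rw [Function.comp_apply, hgσ]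
    _ ≤ ∑' p : ℕ × Bool, (f ∘ g) p := ENNReal.tsum_comp_le_tsum_of_injective hinj _
    _ = ∑' n : ℕ, ∑' b : Bool, (f ∘ g) (n, b) := ENNReal.tsum_prod'
    _ = ∑' n : ℕ, (f n + f (-(n : ℤ))) := by
        refine tsum_congr fun n => ?_
        rw [tsum_fintype, Fintype.sum_bool, hg]
        simp
    _ = _ := ENNReal.tsum_add

theorem ofReal_geom {x : ℝ} (h0 : 0 ≤ x) (h1 : x < 1) : ∑' n : ℕ, ENNReal.ofReal (x ^ n) = ENNReal.ofReal ((1 - x)⁻¹) := by
  have hg := hasSum_geometric_of_lt_one h0 h1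
  rw [← ENNReal.ofReal_tsum_of_nonneg (fun z => by positivity) hg.summable, hg.tsum_eq]

/-- **The generating function is bounded uniformly in `w`.** -/
theorem Ug_bound (α : Set.Ioo (0 : ℝ) 1) : ∃ s B : ℝ, lam α < s ∧ s < 1 ∧ 0 ≤ B ∧
    ∀ w : Set.Ioo (0 : ℝ) 1, Ug w α s ≤ ENNReal.ofReal B := by
  obtain ⟨μ, C, hμ0, hμ1, hC0, hb⟩ := left_bound α
  have h0 := lam_pos α
  have hμ : 0 < μ := h0.trans hμ0
  obtain ⟨s, hs⟩ : ∃ s : ℝ, s = (1 + μ) / 2 := ⟨_, rfl⟩
  have hs1 : s < 1 := by rw [hs]; linarith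
  have hsμ : μ < s := by rw [hs]; linarith
  have hs0 : 0 < s := hμ.trans hsμ
  have hx : μ / s < 1 := (div_lt_one hs0).2 hsμ
  have hx0 : 0 ≤ μ / s := by positivity
  refine ⟨s, (1 - s)⁻¹ + C * (1 - μ / s)⁻¹, hμ0.trans hsμ, hs1, ?_, fun w => ?_⟩
  · have h1 : 0 < 1 - s := by linarith
    have h2 : 0 < 1 - μ / s := by linarith
    positivity
  · have h1 : 0 < 1 - s := by linarith
    have h2 : 0 < 1 - μ / s := by linarith
    unfold Ug
    refine (tsum_int_le _).trans ?_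
    rw [ENNReal.ofReal_add (by positivity) (by positivity)]
    refine add_le_add ?_ ?_
    · rw [← ofReal_geom hs0.le hs1]
      refine ENNReal.tsum_le_tsum fun n => ?_
      calc actP w α Set.univ n * ENNReal.ofReal (s ^ (n : ℤ)) ≤ 1 * ENNReal.ofReal (s ^ (n : ℤ)) :=
            mul_le_mul_left prob_le_one _
        _ = _ := by rw [one_mul, zpow_natCast]
    · rw [ENNReal.ofReal_mul hC0, ← ofReal_geom hx0 hx, ← ENNReal.tsum_mul_left]
      refine ENNReal.tsum_le_tsum fun n => ?_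
      calc actP w α Set.univ (-(n : ℤ)) * ENNReal.ofReal (s ^ (-(n : ℤ)))
          ≤ ENNReal.ofReal (C * μ ^ n) * ENNReal.ofReal (s ^ (-(n : ℤ))) := by
            refine mul_le_mul_left ?_ _
            rw [actP_eq]
            exact hb w n
        _ = _ := by
            rw [← ENNReal.ofReal_mul (by positivity), ← ENNReal.ofReal_mul hC0]
            congr 1
            rw [zpow_neg, zpow_natCast, div_pow]
            ring

end FDr.MB

namespace FDr

open scoped ENNReal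

/-- **For every `α` there is `w` with `Lam w α < 1`.** -/
theorem exists_Lam_lt_one (α : Set.Ioo (0 : ℝ) 1) : ∃ w : Set.Ioo (0 : ℝ) 1, Lam w α < 1 := by
  obtain ⟨s, B, hs0, hs1, hB0, hb⟩ := MB.Ug_bound α
  have hl := MB.lam_pos α
  have hs : 0 < s := hl.trans hs0
  have ha0 := α.2.1
  have ha1 := α.2.2
  obtain ⟨y, hy⟩ : ∃ y : ℝ, y = (1 + (α : ℝ)) / 2 * s + (1 - (α : ℝ)) / 2 * s⁻¹ := ⟨_, rfl⟩
  have hy1 : y < 1 := by
    have h1 : 1 - y = (1 - s) * ((1 + (α : ℝ)) / 2 - (1 - (α : ℝ)) / 2 * s⁻¹) := by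
      have hss : s * s⁻¹ = 1 := mul_inv_cancel₀ hs.ne'
      rw [hy]
      linear_combination (-(1 - (α : ℝ)) / 2) * hss
    have h2 : 0 < (1 + (α : ℝ)) / 2 - (1 - (α : ℝ)) / 2 * s⁻¹ := by
      have h3 : (1 - (α : ℝ)) / (1 + (α : ℝ)) < s := hs0
      rw [div_lt_iff₀ (by linarith)] at h3
      have h4 : (1 - (α : ℝ)) * s⁻¹ < 1 + α := by
        rw [← div_eq_mul_inv, div_lt_iff₀ hs]
        linarith
      linarith
    have h3 : 0 < 1 - y := by
      rw [h1]
      exact mul_pos (by linarith) h2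
    linarith
  have hy0 : 0 < y := by
    rw [hy]
    have h1 : 0 < 1 - (α : ℝ) := by linarith
    positivity
  obtain ⟨ε, hε⟩ : ∃ ε : ℝ, ε = min (1 / 2) ((1 - y) / (2 * (1 + B))) := ⟨_, rfl⟩
  have hε0 : 0 < ε := by
    rw [hε]
    refine lt_min (by norm_num) ?_
    have : 0 < 1 - y := by linarith
    positivity
  have hε1 : ε ≤ 1 / 2 := by rw [hε]; exact min_le_left _ _
  have hε2 : ε * (1 + B) ≤ (1 - y) / 2 := by
    have h1 : ε ≤ (1 - y) / (2 * (1 + B)) := by rw [hε]; exact min_le_right _ _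
    rw [le_div_iff₀ (by positivity)] at h1
    linarith
  have hw : 1 - ε ∈ Set.Ioo (0 : ℝ) 1 := ⟨by linarith, by linarith⟩
  obtain ⟨w, hwd⟩ : ∃ w : Set.Ioo (0 : ℝ) 1, (w : ℝ) = 1 - ε := ⟨⟨1 - ε, hw⟩, rfl⟩
  refine ⟨w, ?_⟩
  have hyw : bw w α true * s + bw w α false * s⁻¹ = w * y := by
    rw [hy]
    unfold bw
    simp only [if_true, Bool.false_eq_true, if_false]
    ring
  have hwy : (w : ℝ) * y ≤ y := by
    have := w.2.2
    nlinarith
  have hlt : bw w α true * s + bw w α false * s⁻¹ < 1 := by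
    rw [hyw]
    linarith
  unfold Lam
  refine (iInf₂_le s hs).trans_lt ?_
  rw [TR.mfun_eq, MA.kap_val w α hs hlt, hyw, hwd]
  have h1 : (1 - (1 - ε)) / (1 - (1 - ε) * y) ≤ ε / (1 - y) := by
    rw [sub_sub_cancel]
    rw [hwd] at hwy
    exact div_le_div_of_nonneg_left hε0.le (by linarith) (by linarith)
  calc ENNReal.ofReal ((1 - (1 - ε)) / (1 - (1 - ε) * y)) * (1 + TR.Ug w α s)
      ≤ ENNReal.ofReal (ε / (1 - y)) * (1 + ENNReal.ofReal B) := by
        refine mul_le_mul' (ENNReal.ofReal_le_ofReal h1) (add_le_add le_rfl (hb w))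
    _ = ENNReal.ofReal (ε / (1 - y) * (1 + B)) := by
        rw [ENNReal.ofReal_mul (div_nonneg hε0.le (by linarith)), ENNReal.ofReal_add zero_le_one hB0, ENNReal.ofReal_one]
    _ ≤ ENNReal.ofReal (1 / 2) := by
        refine ENNReal.ofReal_le_ofReal ?_
        rw [div_mul_eq_mul_div, div_le_iff₀ (by linarith)]
        linarith
    _ < 1 := by
        rw [← ENNReal.ofReal_one]
        exact (ENNReal.ofReal_lt_ofReal_iff one_pos).2 (by norm_num)

end FDr
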