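import Pool.Agent.Lib.MP_e029a2_pr.MA6

/-!
# Comparison of two sets of parameters, part 1

If both steps of the killed walk have at least the weights of another killed walk, then every increasing event is at
least as probable.
-/

set_option autoImplicit false

namespace FDr.MC

open MeasureTheory ProbabilityTheory
open scoped ENNReal

open FDr.TH (lintegral_runLaw CL cS pC PR lintegral_cond measurable_CLc CL_congr_iff)
open FDr.MA (lintegral_cons tr le_tr CL_mono_run vis_mono_append)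
open FDr.TR (ind_true ind_false ind_mono measurable_ind lintegral_ind)

/-! ### One run -/

theorem sum_bw (w α w₀ α₀ : Set.Ioo (0 : ℝ) 1) :
    (1 - (w₀ : ℝ)) = (1 - w) + ((bw w α true - bw w₀ α₀ true) + (bw w α false - bw w₀ α₀ false)) := by
  have h1 := bw_sum (w : ℝ) α
  have h2 := bw_sum (w₀ : ℝ) α₀
  linarith

/-- **One run**, a function which increases if the run is continued. -/
theorem run_comp {w₀ α₀ w α : Set.Ioo (0 : ℝ) 1} (hb : ∀ b, bw w₀ α₀ b ≤ bw w α b) (F : Run → ℝ≥0∞)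
    (hF : ∀ l t, F l ≤ F (l ++ t)) : ∫⁻ r, F r ∂runLaw w₀ α₀ ≤ ∫⁻ r, F r ∂runLaw w α := by
  refine le_tr w₀ α₀ F fun n => ?_
  induction n generalizing F with
  | zero => exact zero_le
  | succ n ih =>
    have h1 : ∀ b : Bool, tr w₀ α₀ n (fun r => F (b :: r)) ≤ ∫⁻ r, F (b :: r) ∂runLaw w α := fun b =>
      ih (fun r => F (b :: r)) fun l t => hF (b :: l) t
    have h2 : ∀ b : Bool, F [] ≤ ∫⁻ r, F (b :: r) ∂runLaw w α := by
      intro b
      calc F [] = ∫⁻ _, F [] ∂runLaw w α := by rw [lintegral_const, measure_univ, mul_one]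
        _ ≤ _ := lintegral_mono fun r => hF [] (b :: r)
    have hbt : 0 ≤ bw w α true - bw w₀ α₀ true := by linarith [hb true]
    have hbf : 0 ≤ bw w α false - bw w₀ α₀ false := by linarith [hb false]
    have hw : 0 ≤ 1 - (w : ℝ) := by linarith [w.2.2]
    have hA := h1 true
    have hB := h1 false
    have hA' := h2 true
    have hB' := h2 false
    obtain ⟨A, hAd⟩ : ∃ A, A = ∫⁻ r, F (true :: r) ∂runLaw w α := ⟨_, rfl⟩
    obtain ⟨B, hBd⟩ : ∃ B, B = ∫⁻ r, F (false :: r) ∂runLaw w α := ⟨_, rfl⟩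
    rw [tr, lintegral_cons w α F]
    rw [← hAd] at hA hA' ⊢
    rw [← hBd] at hB hB' ⊢
    have e1 : ENNReal.ofReal (1 - (w₀ : ℝ)) = ENNReal.ofReal (1 - w) +
        (ENNReal.ofReal (bw w α true - bw w₀ α₀ true) + ENNReal.ofReal (bw w α false - bw w₀ α₀ false)) := by
      rw [sum_bw w α w₀ α₀, ENNReal.ofReal_add hw (add_nonneg hbt hbf), ENNReal.ofReal_add hbt hbf]
    have e2 : ∀ b : Bool, ENNReal.ofReal (bw w α b) = ENNReal.ofReal (bw w α b - bw w₀ α₀ b) +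
        ENNReal.ofReal (bw w₀ α₀ b) := by
      intro b
      rw [← ENNReal.ofReal_add (by linarith [hb b]) (bw_pos w₀.2 α₀.2 b).le, sub_add_cancel]
    rw [e1, e2 true, e2 false]
    calc (ENNReal.ofReal (1 - w) + (ENNReal.ofReal (bw w α true - bw w₀ α₀ true) +
          ENNReal.ofReal (bw w α false - bw w₀ α₀ false))) * F [] +
          (ENNReal.ofReal (bw w₀ α₀ true) * tr w₀ α₀ n (fun r => F (true :: r)) +
            ENNReal.ofReal (bw w₀ α₀ false) * tr w₀ α₀ n (fun r => F (false :: r)))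
        = ENNReal.ofReal (1 - w) * F [] + ((ENNReal.ofReal (bw w α true - bw w₀ α₀ true) * F [] +
            ENNReal.ofReal (bw w₀ α₀ true) * tr w₀ α₀ n (fun r => F (true :: r))) +
            (ENNReal.ofReal (bw w α false - bw w₀ α₀ false) * F [] +
            ENNReal.ofReal (bw w₀ α₀ false) * tr w₀ α₀ n (fun r => F (false :: r)))) := by ring
      _ ≤ ENNReal.ofReal (1 - w) * F [] + ((ENNReal.ofReal (bw w α true - bw w₀ α₀ true) * A +
            ENNReal.ofReal (bw w₀ α₀ true) * A) +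
            (ENNReal.ofReal (bw w α false - bw w₀ α₀ false) * B + ENNReal.ofReal (bw w₀ α₀ false) * B)) := by
          gcongr
      _ = _ := by ring

/-- The law with the larger weights is at least a multiple of the other law. -/
theorem run_dom {w₀ α₀ w α : Set.Ioo (0 : ℝ) 1} (hb : ∀ b, bw w₀ α₀ b ≤ bw w α b) (F : Run → ℝ≥0∞) :
    ENNReal.ofReal ((1 - w) / (1 - w₀)) * ∫⁻ r, F r ∂runLaw w₀ α₀ ≤ ∫⁻ r, F r ∂runLaw w α := by
  have hw0 : 0 < 1 - (w₀ : ℝ) := by linarith [w₀.2.2]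
  have hw : 0 < 1 - (w : ℝ) := by linarith [w.2.2]
  rw [lintegral_runLaw, lintegral_runLaw, ← ENNReal.tsum_mul_left]
  refine ENNReal.tsum_le_tsum fun l => ?_
  rw [← mul_assoc, ← ENNReal.ofReal_mul (div_nonneg hw.le hw0.le)]
  refine mul_le_mul' (ENNReal.ofReal_le_ofReal ?_) le_rfl
  rw [runW_eq, runW_eq, ← mul_assoc, div_mul_cancel₀ _ hw0.ne']
  refine mul_le_mul_of_nonneg_left ?_ hw.le
  induction l with
  | nil => simp
  | cons b l ih =>
    rw [List.map_cons, List.prod_cons, List.map_cons, List.prod_cons]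
    refine mul_le_mul (hb b) ih (List.prod_nonneg fun x hx => ?_) (bw_pos w.2 α.2 b).le
    obtain ⟨b, -, rfl⟩ := List.mem_map.1 hx
    exact (bw_pos w₀.2 α₀.2 b).le

theorem div_mem {w₀ α₀ w α : Set.Ioo (0 : ℝ) 1} (hb : ∀ b, bw w₀ α₀ b ≤ bw w α b) :
    0 ≤ (1 - (w : ℝ)) / (1 - w₀) ∧ (1 - (w : ℝ)) / (1 - w₀) ≤ 1 := by
  have hw0 : 0 < 1 - (w₀ : ℝ) := by linarith [w₀.2.2]
  have hw : 0 < 1 - (w : ℝ) := by linarith [w.2.2]
  refine ⟨div_nonneg hw.le hw0.le, ?_⟩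
  rw [div_le_one hw0]
  have h1 := bw_sum (w : ℝ) α
  have h2 := bw_sum (w₀ : ℝ) α₀
  linarith [hb true, hb false]

/-- **One run**, a function with values in `[0, 1]`. -/
theorem run_delta {w₀ α₀ w α : Set.Ioo (0 : ℝ) 1} (hb : ∀ b, bw w₀ α₀ b ≤ bw w α b) (F : Run → ℝ≥0∞)
    (hF : ∀ l, F l ≤ 1) :
    ∫⁻ r, F r ∂runLaw w α ≤ ∫⁻ r, F r ∂runLaw w₀ α₀ + ENNReal.ofReal (1 - (1 - w) / (1 - w₀)) := by
  obtain ⟨hc0, hc1⟩ := div_mem hb
  obtain ⟨c, hc⟩ : ∃ c : ℝ, c = (1 - (w : ℝ)) / (1 - w₀) := ⟨_, rfl⟩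
  have h1 := run_dom hb fun l => 1 - F l
  rw [← hc] at hc0 hc1 h1 ⊢
  have h2 : ∀ w α : Set.Ioo (0 : ℝ) 1, ∫⁻ r, F r ∂runLaw w α + ∫⁻ r, (1 - F r) ∂runLaw w α = 1 := by
    intro w α
    rw [← lintegral_add_left (measurable_of_countable _)]
    have h3 : ∀ r, F r + (1 - F r) = 1 := fun r => add_tsub_cancel_of_le (hF r)
    rw [lintegral_congr h3, lintegral_const, measure_univ, mul_one]
  have h3 := h2 w α
  have h4 := h2 w₀ α₀
  have h5 : (∫⁻ r, (1 - F r) ∂runLaw w α) ≠ ⊤ := by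
    intro h
    rw [h, add_top] at h3
    exact ENNReal.one_ne_top h3.symm
  have h6 : ∫⁻ r, F r ∂runLaw w α + ∫⁻ r, (1 - F r) ∂runLaw w α ≤
      (∫⁻ r, F r ∂runLaw w₀ α₀ + ENNReal.ofReal (1 - c)) + ∫⁻ r, (1 - F r) ∂runLaw w α := by
    rw [h3]
    calc (1 : ℝ≥0∞) = ENNReal.ofReal (1 - c) + ENNReal.ofReal c := by
          rw [← ENNReal.ofReal_add (by linarith) hc0, sub_add_cancel, ENNReal.ofReal_one]
      _ = ENNReal.ofReal (1 - c) + ENNReal.ofReal c * (∫⁻ r, F r ∂runLaw w₀ α₀ + ∫⁻ r, (1 - F r) ∂runLaw w₀ α₀) := by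
          rw [h4, mul_one]
      _ ≤ ENNReal.ofReal (1 - c) + (1 * ∫⁻ r, F r ∂runLaw w₀ α₀ + ∫⁻ r, (1 - F r) ∂runLaw w α) := by
          rw [mul_add]
          refine add_le_add le_rfl (add_le_add (mul_le_mul' ?_ le_rfl) h1)
          rw [← ENNReal.ofReal_one]
          exact ENNReal.ofReal_le_ofReal hc1
      _ = _ := by rw [one_mul]; ring
  exact (ENNReal.add_le_add_iff_right h5).1 h6

end FDr.MC
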