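import Pool.Agent.Lib.MP_e029a2_pr.MC1

/-!
# Comparison of two sets of parameters, part 2: all the runs
-/

set_option autoImplicit false

namespace FDr.MC

open MeasureTheory ProbabilityTheory
open scoped ENNReal

open FDr.TH (lintegral_runLaw CL cS pC PR lintegral_cond measurable_CLc CL_congr_iff pC_le_actP Xi Ug_le kap_geom)
open FDr.MA (CL_mono_run vis_mono_append)
open FDr.TR (ind_true ind_false ind_mono ind_congr measurable_ind lintegral_ind Ug mfun_eq)

variable (μ ν : Measure Run) [IsProbabilityMeasure μ] [IsProbabilityMeasure ν]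

/-- Every frog has a run with the law `μ` and a run with the law `ν`. -/
noncomputable def mm (p : Option ℤ × Bool) : Measure Run := if p.2 then ν else μ

instance mm_prob (p : Option ℤ × Bool) : IsProbabilityMeasure (mm μ ν p) := by
  unfold mm
  split_ifs <;> infer_instance

/-- The law of all the runs. -/
noncomputable def PP : Measure (Option ℤ × Bool → Run) := Measure.infinitePi (mm μ ν)

instance PP_prob : IsProbabilityMeasure (PP μ ν) := by
  unfold PP
  infer_instance

/-- The frog `f` uses its run number `K f`. -/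
def cf (K : Option ℤ → Bool) (ω : Option ℤ × Bool → Run) (f : Option ℤ) : Run := ω (f, K f)

theorem measurable_cf (K : Option ℤ → Bool) : Measurable fun ω => cf K ω :=
  measurable_pi_lambda _ fun _ => measurable_pi_apply _

/-- the mean -/
noncomputable def JG (G : (Option ℤ → Run) → ℝ≥0∞) (K : Option ℤ → Bool) : ℝ≥0∞ := ∫⁻ ω, G (cf K ω) ∂PP μ ν

theorem measurable_upd (K : Option ℤ → Bool) (f₀ : Option ℤ) (r : Run) :
    Measurable fun ω => Function.update (cf K ω) f₀ r := by
  refine measurable_pi_lambda _ fun f => ?_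
  by_cases h : f = f₀
  · subst h
    simp only [Function.update_self]
    exact measurable_const
  · simp only [Function.update_of_ne h]
    exact measurable_pi_apply _

theorem JG_cond {G : (Option ℤ → Run) → ℝ≥0∞} (hG : Measurable G) (K : Option ℤ → Bool) (f₀ : Option ℤ) :
    JG μ ν G K = ∫⁻ r, ∫⁻ ω, G (Function.update (cf K ω) f₀ r) ∂PP μ ν ∂(if K f₀ then ν else μ) := by
  have h1 := lintegral_cond (mm μ ν) (f₀, K f₀)
    (g := fun r ω => G (Function.update (cf K ω) f₀ r))
    (fun r => hG.comp (measurable_upd K f₀ r))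
    (fun r ω ω' hω => by
      have h2 : Function.update (cf K ω) f₀ r = Function.update (cf K ω') f₀ r := by
        funext f
        by_cases hf : f = f₀
        · subst hf
          rw [Function.update_self, Function.update_self]
        · rw [Function.update_of_ne hf, Function.update_of_ne hf]
          exact hω _ fun h3 => hf (congrArg Prod.fst h3)
      rw [h2])
  have h3 : JG μ ν G K = ∫⁻ ω, G (Function.update (cf K ω) f₀ (ω (f₀, K f₀))) ∂PP μ ν := by
    refine lintegral_congr fun ω => ?_
    have h4 : Function.update (cf K ω) f₀ (ω (f₀, K f₀)) = cf K ω := Function.update_eq_self f₀ _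
    rw [h4]
  rw [h3]
  exact h1

/-- The law of one frog is replaced. -/
theorem JG_step {G : (Option ℤ → Run) → ℝ≥0∞} (hG : Measurable G) {δ : ℝ≥0∞}
    (h : ∀ (c : Option ℤ → Run) (f : Option ℤ),
      ∫⁻ r, G (Function.update c f r) ∂μ ≤ ∫⁻ r, G (Function.update c f r) ∂ν + δ)
    (K : Option ℤ → Bool) {f₀ : Option ℤ} (hK : K f₀ = false) :
    JG μ ν G K ≤ JG μ ν G (Function.update K f₀ true) + δ := by
  have hjm : ∀ ρ : Measure Run, [IsProbabilityMeasure ρ] → ∫⁻ r, ∫⁻ ω, G (Function.update (cf K ω) f₀ r) ∂PP μ ν ∂ρ =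
      ∫⁻ ω, ∫⁻ r, G (Function.update (cf K ω) f₀ r) ∂ρ ∂PP μ ν := by
    intro ρ _
    refine lintegral_lintegral_swap (Measurable.aemeasurable ?_)
    refine measurable_from_prod_countable_right fun r => ?_
    exact hG.comp (measurable_upd K f₀ r)
  rw [JG_cond μ ν hG K f₀, JG_cond μ ν hG (Function.update K f₀ true) f₀, hK, Function.update_self]
  have h1 : ∀ (r : Run) (ω : Option ℤ × Bool → Run), Function.update (cf (Function.update K f₀ true) ω) f₀ r =
      Function.update (cf K ω) f₀ r := by
    intro r ω
    funext f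
    by_cases hf : f = f₀
    · subst hf
      rw [Function.update_self, Function.update_self]
    · rw [Function.update_of_ne hf, Function.update_of_ne hf]
      unfold cf
      rw [Function.update_of_ne hf]
  simp only [h1, if_true, Bool.false_eq_true, if_false]
  rw [hjm μ, hjm ν]
  calc ∫⁻ ω, ∫⁻ r, G (Function.update (cf K ω) f₀ r) ∂μ ∂PP μ ν
      ≤ ∫⁻ ω, (∫⁻ r, G (Function.update (cf K ω) f₀ r) ∂ν + δ) ∂PP μ ν := lintegral_mono fun ω => h _ _
    _ = _ := by rw [lintegral_add_right _ measurable_const, lintegral_const, measure_univ, mul_one]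

open Classical in
/-- The frogs of `A` have the law `ν`. -/
noncomputable def KB (A : Finset (Option ℤ)) (f : Option ℤ) : Bool := decide (f ∈ A)

open Classical in
theorem KB_insert (A : Finset (Option ℤ)) (x : Option ℤ) : KB (insert x A) = Function.update (KB A) x true := by
  funext f
  by_cases hfx : f = x
  · subst hfx
    rw [Function.update_self]
    simp [KB]
  · rw [Function.update_of_ne hfx]
    simp [KB, hfx]

theorem JG_all {G : (Option ℤ → Run) → ℝ≥0∞} (hG : Measurable G) {δ : ℝ≥0∞}
    (h : ∀ (c : Option ℤ → Run) (f : Option ℤ),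
      ∫⁻ r, G (Function.update c f r) ∂μ ≤ ∫⁻ r, G (Function.update c f r) ∂ν + δ) (A : Finset (Option ℤ)) :
    JG μ ν G (KB ∅) ≤ JG μ ν G (KB A) + A.card * δ := by
  classical
  induction A using Finset.induction_on with
  | empty => simp
  | insert x A hxA ih =>
    have h1 : KB A x = false := by simp [KB, hxA]
    rw [KB_insert, Finset.card_insert_of_notMem hxA]
    refine ih.trans ?_
    calc JG μ ν G (KB A) + A.card * δ ≤ JG μ ν G (Function.update (KB A) x true) + δ + A.card * δ :=
          add_le_add (JG_step μ ν hG h (KB A) h1) le_rfl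
      _ = _ := by
          push_cast
          ring

theorem map_PP (b : Bool) : Measure.map (fun (ω : Option ℤ × Bool → Run) (f : Option ℤ) => ω (f, b)) (PP μ ν) =
    Measure.infinitePi fun _ : Option ℤ => (if b then ν else μ) := by
  have hinj : Function.Injective fun f : Option ℤ => (f, b) := fun f g hfg => by
    simpa using hfg
  have h1 := Measure.map_infinitePi_infinitePi_of_inj (P := mm μ ν) hinj
  unfold PP
  exact h1

theorem JG_const {G : (Option ℤ → Run) → ℝ≥0∞} (hG : Measurable G) (b : Bool) :
    JG μ ν G (fun _ => b) = ∫⁻ c, G c ∂(Measure.infinitePi fun _ : Option ℤ => (if b then ν else μ)) := by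
  rw [← map_PP μ ν b, lintegral_map hG]
  · rfl
  · exact measurable_pi_lambda _ fun _ => measurable_pi_apply _

/-- **The laws of all the frogs are replaced**, for a function which depends on finitely many runs. -/
theorem hybrid {G : (Option ℤ → Run) → ℝ≥0∞} (hG : Measurable G) {δ : ℝ≥0∞}
    (h : ∀ (c : Option ℤ → Run) (f : Option ℤ),
      ∫⁻ r, G (Function.update c f r) ∂μ ≤ ∫⁻ r, G (Function.update c f r) ∂ν + δ) (A : Finset (Option ℤ))
    (hA : ∀ c c' : Option ℤ → Run, (∀ f ∈ A, c f = c' f) → G c = G c') :
    ∫⁻ c, G c ∂(Measure.infinitePi fun _ : Option ℤ => μ) ≤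
      ∫⁻ c, G c ∂(Measure.infinitePi fun _ : Option ℤ => ν) + A.card * δ := by
  have h1 := JG_all μ ν hG h A
  have h2 : JG μ ν G (KB ∅) = JG μ ν G (fun _ => false) := by
    have h3 : KB ∅ = fun _ => false := by
      funext f
      simp [KB]
    rw [h3]
  have h3 : JG μ ν G (KB A) = JG μ ν G (fun _ => true) := by
    refine lintegral_congr fun ω => hA _ _ fun f hf => ?_
    unfold cf
    have h4 : KB A f = true := by simp [KB, hf]
    rw [h4]
  rw [h2, h3, JG_const μ ν hG, JG_const μ ν hG] at h1
  simpa using h1

end FDr.MC
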