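import Pool.Agent.Lib.MP_e029a2_pr.MC2

/-!
# Comparison of two sets of parameters, part 3: the clusters and the constant `Lam`
-/

set_option autoImplicit false

namespace FDr.MC

open MeasureTheory ProbabilityTheory
open scoped ENNReal

open FDr.TH (lintegral_runLaw CL cS pC PR lintegral_cond measurable_CLc CL_congr_iff pC_le_actP Xi Ug_le kap_geom)
open FDr.MA (CL_mono_run vis_mono_append)
open FDr.TR (ind_true ind_false ind_mono ind_congr measurable_ind lintegral_ind Ug mfun_eq)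

/-- The event that `z` is activated. -/
noncomputable def GI (S : Set ℤ) (h z : ℤ) (c : Option ℤ → Run) : ℝ≥0∞ :=
  TR.ind (CL S h (c none) (fun x => c (some x)) z)

theorem measurable_GI (S : Set ℤ) (h z : ℤ) : Measurable (GI S h z) := measurable_ind (measurable_CLc _ _ _)

theorem GI_le_one (S : Set ℤ) (h z : ℤ) (c : Option ℤ → Run) : GI S h z c ≤ 1 := by
  unfold GI
  by_cases H : CL S h (c none) (fun x => c (some x)) z
  · rw [ind_true H]
  · rw [ind_false H]
    exact zero_le_one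

theorem GI_dep (S : Finset ℤ) (h z : ℤ) (c c' : Option ℤ → Run) (hc : ∀ f ∈ Finset.insertNone S, c f = c' f) :
    GI ↑S h z c = GI ↑S h z c' := by
  have h0 : c none = c' none := hc none (by simp)
  unfold GI
  rw [h0]
  refine ind_congr (CL_congr_iff (fun x hx => hc (some x) ?_) z)
  rw [Finset.mem_insertNone]
  intro y hy
  obtain rfl : x = y := by simpa using hy
  exact Finset.mem_coe.1 hx

theorem pC_GI (w α : Set.Ioo (0 : ℝ) 1) (S : Set ℤ) (h z : ℤ) :
    pC w α S h z = ∫⁻ c, GI S h z c ∂(Measure.infinitePi fun _ : Option ℤ => runLaw w α) :=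
  (lintegral_ind _ (measurable_CLc _ _ _)).symm

theorem GI_mono (S : Set ℤ) (h z : ℤ) (c : Option ℤ → Run) (f : Option ℤ) (l t : Run) :
    GI S h z (Function.update c f l) ≤ GI S h z (Function.update c f (l ++ t)) := by
  refine ind_mono fun H => ?_
  have H' : z ∈ cS S h (Function.update c f l) := H
  exact CL_mono_run (c := Function.update c f l) (c' := Function.update c f (l ++ t)) (fun g => by
    by_cases hg : g = f
    · subst hg
      rw [Function.update_self, Function.update_self]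
      exact vis_mono_append _ _
    · rw [Function.update_of_ne hg, Function.update_of_ne hg]) H'

/-- **The clusters are larger.** -/
theorem pC_comp {w₀ α₀ w α : Set.Ioo (0 : ℝ) 1} (hb : ∀ b, bw w₀ α₀ b ≤ bw w α b) (S : Finset ℤ) (h z : ℤ) :
    pC w₀ α₀ ↑S h z ≤ pC w α ↑S h z := by
  have h1 := hybrid (runLaw w₀ α₀) (runLaw w α) (measurable_GI ↑S h z) (δ := 0) (fun c f => by
    rw [add_zero]
    exact run_comp hb _ fun l t => GI_mono _ h z c f l t) (Finset.insertNone S) (GI_dep S h z)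
  rw [mul_zero, add_zero] at h1
  rw [pC_GI, pC_GI]
  exact h1

/-- **The clusters are not much larger.** -/
theorem pC_delta {w₀ α₀ w α : Set.Ioo (0 : ℝ) 1} (hb : ∀ b, bw w₀ α₀ b ≤ bw w α b) (S : Finset ℤ) (h z : ℤ) :
    pC w α ↑S h z ≤ pC w₀ α₀ ↑S h z + (S.card + 1 : ℕ) * ENNReal.ofReal (1 - (1 - w) / (1 - w₀)) := by
  have h1 := hybrid (runLaw w α) (runLaw w₀ α₀) (measurable_GI ↑S h z) (fun c f =>
    run_delta hb _ fun l => GI_le_one _ _ _ _) (Finset.insertNone S) (GI_dep S h z)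
  rw [Finset.card_insertNone] at h1
  rw [pC_GI, pC_GI]
  exact h1

theorem actP_eq_pC (w α : Set.Ioo (0 : ℝ) 1) (S : Set ℤ) (h : ℤ) : actP w α S h = pC w α S 0 h := by
  unfold actP pC PR
  congr 1
  ext c
  constructor
  · intro H
    simp only [Set.mem_ofPred_eq] at H ⊢
    induction H with
    | enter h h1 h2 => exact CL.enter h (by rwa [sub_zero]) h2
    | next h h' _ h2 h3 ih => exact CL.next h h' ih h2 h3
  · intro H
    simp only [Set.mem_ofPred_eq] at H ⊢
    induction H with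
    | enter h h1 h2 => exact Clus.enter h (by rwa [sub_zero] at h1) h2
    | next h h' _ h2 h3 ih => exact Clus.next h h' ih h2 h3

theorem Ug_comp {w₀ α₀ w α : Set.Ioo (0 : ℝ) 1} (hb : ∀ b, bw w₀ α₀ b ≤ bw w α b) (s : ℝ) :
    Ug w₀ α₀ s ≤ Ug w α s := by
  refine Ug_le w₀ α₀ s fun S => ?_
  unfold Xi
  calc ∑ z ∈ S, pC w₀ α₀ ↑S 0 z * ENNReal.ofReal (s ^ z) ≤
        ∑ z ∈ S, actP w α Set.univ z * ENNReal.ofReal (s ^ z) := by
        refine Finset.sum_le_sum fun z _ => mul_le_mul_left ?_ _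
        refine (pC_comp hb _ _ _).trans ?_
        have h1 := pC_le_actP w α (↑S : Set ℤ) 0 z
        rwa [sub_zero] at h1
    _ ≤ _ := by
        unfold Ug
        exact ENNReal.sum_le_tsum S

theorem kap_comp {w₀ α₀ w α : Set.Ioo (0 : ℝ) 1} (hb : ∀ b, bw w₀ α₀ b ≤ bw w α b) (s : ℝ) :
    ENNReal.ofReal ((1 - w) / (1 - w₀)) * kap w₀ α₀ s ≤ kap w α s := run_dom hb _

theorem mfun_comp {w₀ α₀ w α : Set.Ioo (0 : ℝ) 1} (hb : ∀ b, bw w₀ α₀ b ≤ bw w α b) (s : ℝ) :
    ENNReal.ofReal ((1 - w) / (1 - w₀)) * mfun w₀ α₀ s ≤ mfun w α s := by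
  rw [mfun_eq, mfun_eq, ← mul_assoc]
  exact mul_le_mul' (kap_comp hb s) (add_le_add le_rfl (Ug_comp hb s))

end FDr.MC

namespace FDr

open scoped ENNReal

/-- **Comparison of the constants.** -/
theorem Lam_comp {w₀ α₀ w α : Set.Ioo (0 : ℝ) 1} (hb : ∀ b, bw w₀ α₀ b ≤ bw w α b) :
    ENNReal.ofReal ((1 - w) / (1 - w₀)) * Lam w₀ α₀ ≤ Lam w α := by
  conv_rhs => unfold Lam
  refine le_iInf₂ fun s hs => ?_
  refine le_trans (mul_le_mul' le_rfl ?_) (MC.mfun_comp hb s)
  unfold Lam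
  exact iInf₂_le s hs

end FDr
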