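import Pool.Agent.Lib.MP_e029a2_pr.MC3

/-!
# The threshold is a continuous function of `α`
-/

set_option autoImplicit false

namespace FDr.MC

open MeasureTheory ProbabilityTheory
open scoped ENNReal NNReal

theorem bw_t (w α : ℝ) : bw w α true = w * (1 + α) / 2 := by
  unfold bw
  simp only [if_true]

theorem bw_f (w α : ℝ) : bw w α false = w * (1 - α) / 2 := by
  unfold bw
  simp only [Bool.false_eq_true, if_false]

theorem ratio_cont (F : ℝ → ℝ → ℝ) (hF : Continuous fun p : ℝ × ℝ => F p.1 p.2) (w₁ : ℝ) (α₀ : Set.Ioo (0 : ℝ) 1) :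
    Continuous fun α : Set.Ioo (0 : ℝ) 1 => w₁ * F ((1 + α₀) / (1 + α)) ((1 - α₀) / (1 - α)) := by
  have h1 : Continuous fun α : Set.Ioo (0 : ℝ) 1 => (1 + (α₀ : ℝ)) / (1 + α) :=
    continuous_const.div (continuous_const.add continuous_subtype_val) fun α => by
      have := α.2.1
      positivity
  have h2 : Continuous fun α : Set.Ioo (0 : ℝ) 1 => (1 - (α₀ : ℝ)) / (1 - α) :=
    continuous_const.div (continuous_const.sub continuous_subtype_val) fun α => by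
      have := α.2.2
      intro h
      linarith
  exact continuous_const.mul (hF.comp (h1.prodMk h2))

theorem lower {f : Set.Ioo (0 : ℝ) 1 → ℝ} (hf1 : ∀ α, f α ≤ 1)
    (hf : ∀ w α : Set.Ioo (0 : ℝ) 1, ((w : ℝ) < f α → 1 < Lam w α) ∧ (f α < (w : ℝ) → Lam w α < 1))
    (hf0 : ∀ α, 0 < f α) (α₀ : Set.Ioo (0 : ℝ) 1) (a : ℝ) (ha : a < f α₀) : ∀ᶠ α in nhds α₀, a < f α := by
  obtain ⟨w₁, hw1, hw2⟩ := exists_between (max_lt ha (hf0 α₀))
  have hwa : a < w₁ := (le_max_left _ _).trans_lt hw1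
  have hw0 : 0 < w₁ := (le_max_right _ _).trans_lt hw1
  have hw3 : w₁ < 1 := hw2.trans_le (hf1 α₀)
  obtain ⟨W₁, hW⟩ : ∃ W₁ : Set.Ioo (0 : ℝ) 1, (W₁ : ℝ) = w₁ := ⟨⟨w₁, hw0, hw3⟩, rfl⟩
  have hL := (hf W₁ α₀).1 (by rw [hW]; exact hw2)
  obtain ⟨q, hq1, hq2⟩ := ENNReal.lt_iff_exists_nnreal_btwn.1 hL
  have hq : (1 : ℝ) < q := by exact_mod_cast hq1
  have hg := ratio_cont (fun x y => max x y) continuous_max w₁ α₀
  have e0 : w₁ * max ((1 + (α₀ : ℝ)) / (1 + α₀)) ((1 - α₀) / (1 - α₀)) = w₁ := by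
    rw [div_self (by have := α₀.2.1; positivity), div_self (by have := α₀.2.2; intro h; linarith), max_self, mul_one]
  have h1 : ∀ᶠ α : Set.Ioo (0 : ℝ) 1 in nhds α₀,
      w₁ * max ((1 + (α₀ : ℝ)) / (1 + α)) ((1 - α₀) / (1 - α)) < 1 - (1 - w₁) / q := by
    refine hg.continuousAt.eventually_lt_const ?_
    show w₁ * max ((1 + (α₀ : ℝ)) / (1 + α₀)) ((1 - α₀) / (1 - α₀)) < 1 - (1 - w₁) / q
    rw [e0]
    have h2 : (1 - w₁) / q < 1 - w₁ := div_lt_self (by linarith) hq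
    linarith
  filter_upwards [h1] with α hα
  obtain ⟨g, hgd⟩ : ∃ g, g = w₁ * max ((1 + (α₀ : ℝ)) / (1 + α)) ((1 - α₀) / (1 - α)) := ⟨_, rfl⟩
  rw [← hgd] at hα
  have hα0 := α.2.1
  have hα1 := α.2.2
  have hb0 := α₀.2.1
  have hb1 := α₀.2.2
  have hd1 : 0 < 1 + (α : ℝ) := by linarith
  have hd2 : 0 < 1 - (α : ℝ) := by linarith
  have hgw : w₁ ≤ g := by
    have h2 : 1 ≤ max ((1 + (α₀ : ℝ)) / (1 + α)) ((1 - α₀) / (1 - α)) := by
      rcases le_total (α : ℝ) α₀ with h | h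
      · refine le_trans ?_ (le_max_left _ _)
        rw [one_le_div hd1]
        linarith
      · refine le_trans ?_ (le_max_right _ _)
        rw [one_le_div hd2]
        linarith
    rw [hgd]
    exact le_mul_of_one_le_right hw0.le h2
  have hg1 : g < 1 := by
    have h3 : 0 ≤ (1 - w₁) / q := div_nonneg (by linarith) (by linarith)
    linarith
  obtain ⟨G, hG⟩ : ∃ G : Set.Ioo (0 : ℝ) 1, (G : ℝ) = g := ⟨⟨g, by linarith, hg1⟩, rfl⟩
  have hb : ∀ b, bw W₁ α₀ b ≤ bw G α b := by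
    intro b
    rw [hW, hG]
    cases b
    · rw [bw_f, bw_f]
      have h4 : w₁ * ((1 - (α₀ : ℝ)) / (1 - α)) ≤ g := by
        rw [hgd]
        exact mul_le_mul_of_nonneg_left (le_max_right _ _) hw0.le
      have h5 : w₁ * (1 - (α₀ : ℝ)) ≤ g * (1 - α) := by
        rw [mul_div_assoc', div_le_iff₀ hd2] at h4
        exact h4
      linarith
    · rw [bw_t, bw_t]
      have h4 : w₁ * ((1 + (α₀ : ℝ)) / (1 + α)) ≤ g := by
        rw [hgd]
        exact mul_le_mul_of_nonneg_left (le_max_left _ _) hw0.le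
      have h5 : w₁ * (1 + (α₀ : ℝ)) ≤ g * (1 + α) := by
        rw [mul_div_assoc', div_le_iff₀ hd1] at h4
        exact h4
      linarith
  have h6 := Lam_comp hb
  have h7 : 1 < ENNReal.ofReal ((1 - (G : ℝ)) / (1 - (W₁ : ℝ))) * Lam W₁ α₀ := by
    have h8 : (1 : ℝ) < (1 - (G : ℝ)) / (1 - (W₁ : ℝ)) * q := by
      rw [hG, hW, div_mul_eq_mul_div, one_lt_div (by linarith)]
      have h9 : (1 - w₁) / q < 1 - g := by linarith
      rwa [div_lt_iff₀ (by linarith)] at h9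
    calc (1 : ℝ≥0∞) = ENNReal.ofReal 1 := ENNReal.ofReal_one.symm
      _ < ENNReal.ofReal ((1 - (G : ℝ)) / (1 - (W₁ : ℝ)) * q) :=
          (ENNReal.ofReal_lt_ofReal_iff (by linarith)).2 h8
      _ = ENNReal.ofReal ((1 - (G : ℝ)) / (1 - (W₁ : ℝ))) * q := by
          rw [ENNReal.ofReal_mul (by rw [hG, hW]; exact div_nonneg (by linarith) (by linarith)),
            ENNReal.ofReal_coe_nnreal]
      _ ≤ _ := mul_le_mul' le_rfl hq2.le
  have h8 : ¬f α < (G : ℝ) := fun h9 => absurd ((hf G α).2 h9) (not_lt.2 (h7.trans_le h6).le)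
  rw [hG] at h8
  linarith [not_lt.1 h8]

theorem upper {f : Set.Ioo (0 : ℝ) 1 → ℝ} (hf1 : ∀ α, f α < 1)
    (hf : ∀ w α : Set.Ioo (0 : ℝ) 1, ((w : ℝ) < f α → 1 < Lam w α) ∧ (f α < (w : ℝ) → Lam w α < 1))
    (hf0 : ∀ α, 0 < f α) (α₀ : Set.Ioo (0 : ℝ) 1) (a : ℝ) (ha : f α₀ < a) : ∀ᶠ α in nhds α₀, f α < a := by
  obtain ⟨w₁, hw1, hw2⟩ := exists_between (lt_min ha (hf1 α₀))
  have hwa : w₁ < a := hw2.trans_le (min_le_left _ _)
  have hw3 : w₁ < 1 := hw2.trans_le (min_le_right _ _)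
  have hw0 : 0 < w₁ := (hf0 α₀).trans hw1
  obtain ⟨W₁, hW⟩ : ∃ W₁ : Set.Ioo (0 : ℝ) 1, (W₁ : ℝ) = w₁ := ⟨⟨w₁, hw0, hw3⟩, rfl⟩
  have hL := (hf W₁ α₀).2 (by rw [hW]; exact hw1)
  obtain ⟨q, hq1, hq2⟩ := ENNReal.lt_iff_exists_nnreal_btwn.1 hL
  have hq : (q : ℝ) < 1 := by exact_mod_cast hq2
  have hg := ratio_cont (fun x y => min x y) continuous_min w₁ α₀
  have e0 : w₁ * min ((1 + (α₀ : ℝ)) / (1 + α₀)) ((1 - α₀) / (1 - α₀)) = w₁ := by
    rw [div_self (by have := α₀.2.1; positivity), div_self (by have := α₀.2.2; intro h; linarith), min_self, mul_one]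
  have h1 : ∀ᶠ α : Set.Ioo (0 : ℝ) 1 in nhds α₀,
      w₁ - (1 - q) * (1 - w₁) < w₁ * min ((1 + (α₀ : ℝ)) / (1 + α)) ((1 - α₀) / (1 - α)) := by
    refine hg.continuousAt.eventually_const_lt ?_
    show w₁ - (1 - q) * (1 - w₁) < w₁ * min ((1 + (α₀ : ℝ)) / (1 + α₀)) ((1 - α₀) / (1 - α₀))
    rw [e0]
    have h2 : 0 < (1 - (q : ℝ)) * (1 - w₁) := mul_pos (by linarith) (by linarith)
    linarith
  filter_upwards [h1] with α hα
  obtain ⟨g, hgd⟩ : ∃ g, g = w₁ * min ((1 + (α₀ : ℝ)) / (1 + α)) ((1 - α₀) / (1 - α)) := ⟨_, rfl⟩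
  rw [← hgd] at hα
  have hα0 := α.2.1
  have hα1 := α.2.2
  have hb0 := α₀.2.1
  have hb1 := α₀.2.2
  have hd1 : 0 < 1 + (α : ℝ) := by linarith
  have hd2 : 0 < 1 - (α : ℝ) := by linarith
  have hn1 : 0 < 1 + (α₀ : ℝ) := by linarith
  have hn2 : 0 < 1 - (α₀ : ℝ) := by linarith
  have hgw : g ≤ w₁ := by
    have h2 : min ((1 + (α₀ : ℝ)) / (1 + α)) ((1 - α₀) / (1 - α)) ≤ 1 := by
      rcases le_total (α : ℝ) α₀ with h | h
      · refine (min_le_right _ _).trans ?_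
        rw [div_le_one hd2]
        linarith
      · refine (min_le_left _ _).trans ?_
        rw [div_le_one hd1]
        linarith
    rw [hgd]
    exact mul_le_of_le_one_right hw0.le h2
  have hg0 : 0 < g := by
    rw [hgd]
    exact mul_pos hw0 (lt_min (div_pos hn1 hd1) (div_pos hn2 hd2))
  obtain ⟨G, hG⟩ : ∃ G : Set.Ioo (0 : ℝ) 1, (G : ℝ) = g := ⟨⟨g, hg0, by linarith⟩, rfl⟩
  have hb : ∀ b, bw G α b ≤ bw W₁ α₀ b := by
    intro b
    rw [hW, hG]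
    cases b
    · rw [bw_f, bw_f]
      have h4 : g ≤ w₁ * ((1 - (α₀ : ℝ)) / (1 - α)) := by
        rw [hgd]
        exact mul_le_mul_of_nonneg_left (min_le_right _ _) hw0.le
      have h5 : g * (1 - (α : ℝ)) ≤ w₁ * (1 - α₀) := by
        rw [mul_div_assoc', le_div_iff₀ hd2] at h4
        exact h4
      linarith
    · rw [bw_t, bw_t]
      have h4 : g ≤ w₁ * ((1 + (α₀ : ℝ)) / (1 + α)) := by
        rw [hgd]
        exact mul_le_mul_of_nonneg_left (min_le_left _ _) hw0.le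
      have h5 : g * (1 + (α : ℝ)) ≤ w₁ * (1 + α₀) := by
        rw [mul_div_assoc', le_div_iff₀ hd1] at h4
        exact h4
      linarith
  have h6 := Lam_comp hb
  have h8 : ¬(G : ℝ) < f α := by
    intro h9
    have h10 := (hf G α).1 h9
    have h11 : (q : ℝ≥0∞) ≤ Lam W₁ α₀ := by
      refine le_trans ?_ h6
      calc (q : ℝ≥0∞) = ENNReal.ofReal q := (ENNReal.ofReal_coe_nnreal).symm
        _ ≤ ENNReal.ofReal ((1 - (W₁ : ℝ)) / (1 - (G : ℝ))) := by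
            refine ENNReal.ofReal_le_ofReal ?_
            rw [hW, hG, le_div_iff₀ (by linarith)]
            nlinarith
        _ = ENNReal.ofReal ((1 - (W₁ : ℝ)) / (1 - (G : ℝ))) * 1 := (mul_one _).symm
        _ ≤ _ := mul_le_mul' le_rfl h10.le
    exact absurd hq1 (not_lt.2 h11)
  rw [hG] at h8
  linarith [not_lt.1 h8]

/-- **The threshold is continuous.** -/
theorem continuous_threshold {f : Set.Ioo (0 : ℝ) 1 → ℝ} (hf0 : ∀ α, 0 < f α) (hf1 : ∀ α, f α < 1)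
    (hf : ∀ w α : Set.Ioo (0 : ℝ) 1, ((w : ℝ) < f α → 1 < Lam w α) ∧ (f α < (w : ℝ) → Lam w α < 1)) :
    Continuous f := by
  rw [continuous_iff_continuousAt]
  intro α₀
  exact tendsto_order.2 ⟨fun a ha => lower (fun α => (hf1 α).le) hf hf0 α₀ a ha, fun a ha => upper hf1 hf hf0 α₀ a ha⟩

end FDr.MC
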