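import Pool.Agent.Lib.MP_e029a2_pr.MC4

/-!
# The range of the threshold
-/

set_option autoImplicit false

namespace FDr.MC

theorem exists_sqrt {c : ℝ} (h0 : 0 < c) (h1 : c < 1) :
    ∃ α : Set.Ioo (0 : ℝ) 1, Real.sqrt (1 - (α : ℝ) ^ 2) = c := by
  have h2 : 0 < 1 - c ^ 2 := by nlinarith
  have h3 : 1 - c ^ 2 < 1 := by nlinarith [sq_nonneg c]
  refine ⟨⟨Real.sqrt (1 - c ^ 2), Real.sqrt_pos.2 h2, ?_⟩, ?_⟩
  · rw [Real.sqrt_lt' one_pos]
    linarith
  · show Real.sqrt (1 - Real.sqrt (1 - c ^ 2) ^ 2) = c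
    rw [Real.sq_sqrt h2.le, sub_sub_cancel, Real.sqrt_sq h0.le]

/-- **The range.** -/
theorem range_threshold {f : Set.Ioo (0 : ℝ) 1 → ℝ} (hc : Continuous f) (hf1 : ∀ α, f α < 1)
    (hlo : ∀ α : Set.Ioo (0 : ℝ) 1, 1 / (2 - Real.sqrt (1 - (α : ℝ) ^ 2)) ≤ f α)
    (hup : ∀ α : Set.Ioo (0 : ℝ) 1, f α * (2 - 2 * Real.sqrt (1 - (α : ℝ) ^ 2)) ≤ 1) :
    Set.range f = Set.Ioo (1 / 2 : ℝ) 1 := by
  ext y
  constructor
  · rintro ⟨α, rfl⟩
    refine ⟨lt_of_lt_of_le ?_ (hlo α), hf1 α⟩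
    have hα0 := α.2.1
    have hα1 := α.2.2
    have h1 : 0 < Real.sqrt (1 - (α : ℝ) ^ 2) := Real.sqrt_pos.2 (by nlinarith)
    have h2 : Real.sqrt (1 - (α : ℝ) ^ 2) ≤ 1 := by
      rw [Real.sqrt_le_one]
      nlinarith
    exact one_div_lt_one_div_of_lt (by linarith) (by linarith)
  · rintro ⟨hy1, hy2⟩
    have hy0 : 0 < y := by linarith
    have : PreconnectedSpace (Set.Ioo (0 : ℝ) 1) := Subtype.preconnectedSpace isPreconnected_Ioo
    refine mem_range_of_exists_le_of_exists_ge hc ?_ ?_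
    · have h1 : 1 / (2 * y) < 1 := by
        rw [div_lt_one (by linarith)]
        linarith
      have h2 : 0 < 1 / (2 * y) := by positivity
      obtain ⟨α, hα⟩ := exists_sqrt (c := 1 - 1 / (2 * y)) (by linarith) (by linarith)
      refine ⟨α, ?_⟩
      have h3 := hup α
      rw [hα] at h3
      have h4 : 2 - 2 * (1 - 1 / (2 * y)) = 1 / y := by
        field_simp
        ring
      rw [h4, mul_one_div, div_le_one hy0] at h3
      exact h3
    · have h1 : 1 / y < 2 := by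
        rw [div_lt_iff₀ hy0]
        linarith
      have h2 : 1 < 1 / y := by
        rw [lt_div_iff₀ hy0]
        linarith
      obtain ⟨α, hα⟩ := exists_sqrt (c := 2 - 1 / y) (by linarith) (by linarith)
      refine ⟨α, ?_⟩
      have h3 := hlo α
      rw [hα] at h3
      have h4 : 1 / (2 - (2 - 1 / y)) = y := by
        rw [sub_sub_cancel, one_div_one_div]
      rwa [h4] at h3

end FDr.MC
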