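import Pool.Agent.Lib.MP_e029a2_pr.SInd

/-!
# The law of the steps; configurations of steps and of cells
-/

set_option autoImplicit false

namespace FDr

open MeasureTheory ProbabilityTheory
open scoped ENNReal

/-- the law of a step -/
noncomputable def stepLaw (w α : Set.Ioo (0 : ℝ) 1) (D : ℕ) : Measure (Stp D) :=
  Measure.sum fun s => ENNReal.ofReal (wt w α D s) • Measure.dirac s

/-- configurations of steps -/
abbrev SConf (D : ℕ) : Type := Site D × ℕ → Stp D

/-- the steps of all the frogs from their cells -/
def allStp {D : ℕ} (c : Conf D) : SConf D := fun p => stp (fun j => c (p.1, j)) p.2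

/-- the frogs which are activated within `n` generations -/
def ActN {D : ℕ} (η : SConf D) : ℕ → Site D → Prop
  | 0 => fun x => x = 0
  | n + 1 => fun x => ActN η n x ∨ ∃ (y : Site D) (i : ℕ), ActN η n y ∧ pos (fun k => η (y, k)) y i = x

/-- the number of steps before the `j`-th cell -/
def off {D : ℕ} (a : ℕ → Cell D) (j : ℕ) : ℕ := ∑ t ∈ Finset.range j, ((a t).1.length + 1)

end FDr
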