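import Pool.Agent.Lib.MP_e029a2_pr.MDef

/-!
# The law of a step is a probability measure (job MLaw)

`stepLaw_prob`: `∑ s, wt w α D s = 1` for `D ≥ 1`: `w (1 + α) / 2 + w (1 - α) / 2 + 2 D (1 - w) / (2 D) = 1`, all the
weights are positive; the measure of `univ` under `Measure.sum` is the sum over the finite type `Stp D`.
`stepLaw_single`: the measure of `{s}` is `ofReal (wt s)`.
`isFrog_law`: for an `IsFrog` model the law of the family of all steps is the product measure: `P` is a probability
measure because `P univ = ∑ s, P {ξ = s} = 1` (or `iIndepFun.isProbabilityMeasure`), then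
`iIndepFun.map_fun_eq_infinitePi_map` (Mathlib, `Probability/Independence/InfinitePi.lean`) and
`P.map (ξ x n) = stepLaw` (`Measure.ext` on a countable discrete space: `Measure.ext_of_singleton` or similar).
-/

set_option autoImplicit false

namespace FDr

open MeasureTheory ProbabilityTheory
open scoped ENNReal

private theorem MLaw_pos (w α : Set.Ioo (0 : ℝ) 1) (D : ℕ) (s : Stp D) : 0 ≤ wt w α D s := by
  have h1 := w.2.1
  have h2 := w.2.2
  have h3 := α.2.1
  have h4 := α.2.2
  have h5 : (0 : ℝ) ≤ 1 - α := by linarith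
  have h6 : (0 : ℝ) ≤ 1 + α := by linarith
  have h7 : (0 : ℝ) ≤ 1 - w := by linarith
  rcases s with b | p
  · cases b
    · show (0 : ℝ) ≤ w * (1 - α) / 2
      positivity
    · show (0 : ℝ) ≤ w * (1 + α) / 2
      positivity
  · show (0 : ℝ) ≤ (1 - w) / (2 * D)
    positivity

private theorem MLaw_sum (w α : Set.Ioo (0 : ℝ) 1) (D : ℕ) [NeZero D] : ∑ s : Stp D, wt w α D s = 1 := by
  rw [Fintype.sum_sum_type, Fintype.sum_bool]
  have h1 : ∀ p : Fin D × Bool, wt w α D (Sum.inr p) = (1 - w) / (2 * D) := fun _ => rfl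
  have h2 : wt w α D (Sum.inl true) = w * (1 + α) / 2 := rfl
  have h3 : wt w α D (Sum.inl false) = w * (1 - α) / 2 := rfl
  rw [h2, h3, Finset.sum_congr rfl fun p _ => h1 p, Finset.sum_const, Finset.card_univ, Fintype.card_prod,
    Fintype.card_fin, Fintype.card_bool, nsmul_eq_mul]
  have hD : (D : ℝ) ≠ 0 := Nat.cast_ne_zero.2 (NeZero.ne D)
  push_cast
  field_simp
  ring

instance stepLaw_prob (w α : Set.Ioo (0 : ℝ) 1) (D : ℕ) [NeZero D] : IsProbabilityMeasure (stepLaw w α D) := by
  constructor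
  unfold stepLaw
  rw [Measure.sum_apply _ MeasurableSet.univ, tsum_fintype]
  have h1 : ∀ s : Stp D, (ENNReal.ofReal (wt w α D s) • Measure.dirac s : Measure (Stp D)) Set.univ =
      ENNReal.ofReal (wt w α D s) := by
    intro s
    rw [Measure.smul_apply, Measure.dirac_apply_of_mem (Set.mem_univ _), smul_eq_mul, mul_one]
  rw [Finset.sum_congr rfl fun s _ => h1 s, ← ENNReal.ofReal_sum_of_nonneg fun s _ => MLaw_pos w α D s,
    MLaw_sum, ENNReal.ofReal_one]

private theorem MLaw_meas {D : ℕ} (S : Set (Stp D)) : MeasurableSet S :=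
  measurableSet_sum_iff.2 ⟨MeasurableSet.of_discrete, MeasurableSet.of_discrete⟩

theorem stepLaw_single (w α : Set.Ioo (0 : ℝ) 1) (D : ℕ) (s : Stp D) :
    stepLaw w α D {s} = ENNReal.ofReal (wt w α D s) := by
  classical
  unfold stepLaw
  rw [Measure.sum_apply _ (MLaw_meas {s}), tsum_fintype, Finset.sum_eq_single s]
  · rw [Measure.smul_apply, Measure.dirac_apply_of_mem (Set.mem_singleton s), smul_eq_mul, mul_one]
  · intro b _ hb
    rw [Measure.smul_apply, Measure.dirac_apply' _ (MLaw_meas {s}), Set.indicator_of_notMem (by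
      rw [Set.mem_singleton_iff]
      exact hb), smul_zero]
  · intro h
    exact absurd (Finset.mem_univ s) h

theorem isFrog_law {Ω : Type*} [MeasurableSpace Ω] (w α : Set.Ioo (0 : ℝ) 1) (D : ℕ) [NeZero D] (P : Measure Ω)
    (ξ : Site D → ℕ → Ω → Stp D) (h : IsFrog D w α P ξ) :
    P.map (fun ω (p : Site D × ℕ) => ξ p.1 p.2 ω) = Measure.infinitePi (fun _ : Site D × ℕ => stepLaw w α D) := by
  have h1 := iIndepFun.map_fun_eq_infinitePi_map (X := fun p : Site D × ℕ => ξ p.1 p.2) (P := P)
    (fun p => h.meas p.1 p.2) h.indep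
  rw [h1]
  have h2 : (fun p : Site D × ℕ => P.map (ξ p.1 p.2)) = fun _ => stepLaw w α D := by
    funext p
    refine Measure.ext_of_singleton fun s => ?_
    rw [Measure.map_apply (h.meas p.1 p.2) (MLaw_meas {s}), stepLaw_single]
    exact h.law p.1 p.2 s
  rw [h2]

end FDr
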