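import Pool.Agent.Lib.MP_e029a2_pr.MDef

/-!
# The steps from the cells: recursion (job MRec)

`stp a n` is the `n`-th entry of the concatenation of the words `word (a 0), word (a 1), ...`.
(a) `stp_nil`: if the first cell has the empty run and the direction `d`, then the steps are `inr d` followed by the steps
of the shifted sequence of cells.
(b) `stp_cons`: if the first cell is `(b :: l, d)`, then the steps are `inl b` followed by the steps of the sequence of cells
with the first cell replaced by `(l, d)`.
(c) `stp_off`: the step with the number `off a j + i` is the `i`-th entry of the word of the cell `j`, for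
`i < (word (a j)).length = (a j).1.length + 1`.
Proof of (c): `((List.range (n + 1)).flatMap f)` for `n + 1 ≥ j + 1` is
`(List.range j).flatMap f ++ f j ++ rest`, the first part has the length `off a j`; every word has length `≥ 1`, so
`off a j + i ≥ j`. Prove first: for all `m, m' > k` (numbers of words) the `k`-th entry of the flatMap over `List.range m`
and over `List.range m'` agree (the flatMap over `range m` has length `≥ m`, and is an initial segment of the one over `range m'`).
(a), (b) follow from (c) or directly from this remark and `List.range_succ_eq_map`, `List.flatMap_cons`.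
-/

set_option autoImplicit false

namespace FDr

/-- the concatenation of the first `m` words -/
private def mrecW {D : ℕ} (a : ℕ → Cell D) (m : ℕ) : List (Stp D) :=
  (List.range m).flatMap fun j => word (a j)

private theorem mrecW_succ {D : ℕ} (a : ℕ → Cell D) (m : ℕ) : mrecW a (m + 1) = mrecW a m ++ word (a m) := by
  unfold mrecW
  rw [List.range_succ, List.flatMap_append, List.flatMap_singleton]

private theorem mrecW_succ' {D : ℕ} (a : ℕ → Cell D) (m : ℕ) :
    mrecW a (m + 1) = word (a 0) ++ mrecW (fun j => a (j + 1)) m := by
  unfold mrecW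
  rw [List.range_succ_eq_map, List.flatMap_cons, List.flatMap_map]

private theorem mrec_len {D : ℕ} (c : Cell D) : (word c).length = c.1.length + 1 := by
  unfold word
  rw [List.length_append, List.length_map, List.length_singleton]

private theorem mrecW_len {D : ℕ} (a : ℕ → Cell D) (m : ℕ) : m ≤ (mrecW a m).length := by
  induction m with
  | zero => exact Nat.zero_le _
  | succ m ih =>
    rw [mrecW_succ, List.length_append, mrec_len]
    omega

private theorem mrecW_get' {D : ℕ} (a : ℕ → Cell D) (k m m' : ℕ) (h : k < (mrecW a m).length)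
    (h' : m ≤ m') : k < (mrecW a m').length ∧ (mrecW a m')[k]? = (mrecW a m)[k]? := by
  induction m', h' using Nat.le_induction with
  | base => exact ⟨h, rfl⟩
  | succ m' hm ih =>
    rw [mrecW_succ, List.getElem?_append_left ih.1, ih.2, List.length_append]
    exact ⟨by have := ih.1; omega, rfl⟩

private theorem mrecW_get {D : ℕ} (a : ℕ → Cell D) (k m m' : ℕ) (h : k < m) (h' : m ≤ m') :
    (mrecW a m')[k]? = (mrecW a m)[k]? :=
  (mrecW_get' a k m m' (lt_of_lt_of_le h (mrecW_len a m)) h').2

private theorem stp_eq {D : ℕ} (a : ℕ → Cell D) (n m : ℕ) (h : n < m) :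
    stp a n = ((mrecW a m)[n]?).getD (Sum.inl true) := by
  rw [mrecW_get a n (n + 1) m (Nat.lt_succ_self n) h]
  rfl

theorem stp_nil {D : ℕ} (a : ℕ → Cell D) (d : Dir D) (h : a 0 = ([], d)) :
    stp a 0 = Sum.inr d ∧ ∀ n, stp a (n + 1) = stp (fun j => a (j + 1)) n := by
  have hw : word (a 0) = [Sum.inr d] := by
    rw [h]
    rfl
  refine ⟨?_, fun n => ?_⟩
  · rw [stp_eq a 0 1 Nat.one_pos, mrecW_succ', hw]
    rfl
  · rw [stp_eq a (n + 1) (n + 1 + 1) (Nat.lt_succ_self _), mrecW_succ', hw,
      stp_eq (fun j => a (j + 1)) n (n + 1) (Nat.lt_succ_self _)]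
    rfl

theorem stp_cons {D : ℕ} (a : ℕ → Cell D) (b : Bool) (l : Run) (d : Dir D) (h : a 0 = (b :: l, d)) :
    stp a 0 = Sum.inl b ∧ ∀ n, stp a (n + 1) = stp (Function.update a 0 (l, d)) n := by
  have hw : word (a 0) = Sum.inl b :: word ((l, d) : Cell D) := by
    rw [h]
    rfl
  refine ⟨?_, fun n => ?_⟩
  · rw [stp_eq a 0 1 Nat.one_pos, mrecW_succ', hw]
    rfl
  · have h1 : (fun j => Function.update a 0 ((l, d) : Cell D) (j + 1)) = fun j => a (j + 1) := by
      funext j
      exact Function.update_of_ne (Nat.succ_ne_zero j) _ _
    rw [stp_eq a (n + 1) (n + 1 + 1) (Nat.lt_succ_self _), mrecW_succ' a (n + 1), hw,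
      stp_eq (Function.update a 0 ((l, d) : Cell D)) n (n + 1 + 1) (by omega),
      mrecW_succ' (Function.update a 0 ((l, d) : Cell D)) (n + 1), h1, Function.update_self]
    rfl

theorem stp_off {D : ℕ} (a : ℕ → Cell D) (j i : ℕ) (hi : i < (a j).1.length + 1) :
    stp a (off a j + i) = (word (a j))[i]'(by unfold word; rw [List.length_append, List.length_map]; exact hi) := by
  have hoff : ∀ m, off a m = (mrecW a m).length := by
    intro m
    induction m with
    | zero => rfl
    | succ m ih =>
      rw [mrecW_succ, List.length_append, ← ih, mrec_len]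
      exact Finset.sum_range_succ _ m
  have h1 : off a j + i < (mrecW a (j + 1)).length := by
    rw [mrecW_succ, List.length_append, ← hoff, mrec_len]
    omega
  have h2 : j ≤ off a j := by
    rw [hoff]
    exact mrecW_len a j
  have h3 : i < (word (a j)).length := by
    rw [mrec_len]
    exact hi
  rw [stp_eq a (off a j + i) (off a j + i + 1) (Nat.lt_succ_self _),
    (mrecW_get' a (off a j + i) (j + 1) (off a j + i + 1) h1 (by omega)).2, mrecW_succ,
    List.getElem?_append_right (by rw [← hoff]; omega), ← hoff, Nat.add_sub_cancel_left,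
    List.getElem?_eq_getElem h3]
  rfl

end FDr
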