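import Pool.Agent.Lib.MP_e029a2_pr.MLaw
import Pool.Agent.Lib.MP_e029a2_pr.MRec

/-!
# The law of the steps of one frog (job MOne)

The cells `a j`, `j : ℕ`, are independent with the law `cellLaw`; then the steps `stp a n` are independent with the law
`stepLaw`.

Proof. (1) `a ↦ (n ↦ stp a n)` is measurable: `stp a n` depends only on `a 0, ..., a n` (`Dep.measurable`).
(2) For a list `u` of steps let `f u` be the probability that the first `u.length` steps are `u` (`∀ i < u.length,
stp a i = u[i]`). Then `f [] = 1`, `f (inr d :: u) = ofReal (1 - w) * (2D)⁻¹ * f u` (by `stp_nil`: the first step is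
`inr d` iff the first cell is `([], d)`; independence of the first cell and the shifted sequence, whose law is the same:
`map_inj` with `Nat.succ`, `prob_and_dep`), and `f (inl b :: u) = ofReal (bw b) * f u` (by `stp_cons`: the first step is
`inl b` iff the run of the first cell is `b :: l`; sum over `l` and `d`, the weight of `b :: l` is `bw b` times the weight
of `l`; more precisely, with `T a = Function.update a 0 (b :: (a 0).1, (a 0).2)` the event is the image of the event of `u`
under `T`; use `∫⁻` over the first cell and the rest: the law of `(a 0, shifted a)` is a product measure, or write the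
probability as `∑' c : Cell D, cellLaw {c} * P (...)`). So `f u` is the product of `stepLaw {u_i}`.
(3) Conclude by `Measure.eq_infinitePi`, or: the map to `Π i : Finset.range N` is the finite product for all `N`
(countable discrete spaces: compare singletons).
-/

set_option autoImplicit false

namespace FDr

open MeasureTheory ProbabilityTheory
open scoped ENNReal

private theorem mOne_dep {D : ℕ} (n : ℕ) : Dep (Set.Iic n) (fun a : ℕ → Cell D => stp a n) := by
  intro a a' h
  have h1 : (List.range (n + 1)).map (fun j => word (a j)) = (List.range (n + 1)).map (fun j => word (a' j)) :=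
    List.map_congr_left fun j hj => by
      rw [h j (Nat.lt_succ_iff.1 (List.mem_range.1 hj))]
  show stp a n = stp a' n
  unfold stp
  rw [List.flatMap_def, List.flatMap_def, h1]

/-- the steps `η` start with the list -/
private def mOneE {D : ℕ} : List (Stp D) → (ℕ → Stp D) → Prop
  | [] => fun _ => True
  | s :: u => fun η => η 0 = s ∧ mOneE u (fun n => η (n + 1))

private theorem mOneE_congr {D : ℕ} (u : List (Stp D)) : ∀ (η η' : ℕ → Stp D), (∀ i < u.length, η i = η' i) →
    (mOneE u η = mOneE u η') := by
  induction u with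
  | nil => intro η η' _; rfl
  | cons s u ih =>
    intro η η' h
    show (η 0 = s ∧ mOneE u (fun n => η (n + 1))) = (η' 0 = s ∧ mOneE u (fun n => η' (n + 1)))
    rw [h 0 (by simp), ih (fun n => η (n + 1)) (fun n => η' (n + 1)) fun i hi => h (i + 1) (by simpa using hi)]

private theorem mOneE_dep {D : ℕ} (u : List (Stp D)) : Dep (Set.Iio u.length) (fun a : ℕ → Cell D => mOneE u (stp a)) := by
  intro a a' h
  exact mOneE_congr u _ _ fun i hi => mOne_dep i a a' fun p hp => h p (lt_of_le_of_lt hp hi)

private theorem mOneE_ofFn {D : ℕ} : ∀ (N : ℕ) (v : Fin N → Stp D) (η : ℕ → Stp D),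
    mOneE (List.ofFn v) η ↔ ∀ i : Fin N, η i = v i := by
  intro N
  induction N with
  | zero =>
    intro v η
    rw [List.ofFn_zero]
    exact ⟨fun _ i => i.elim0, fun _ => trivial⟩
  | succ N ih =>
    intro v η
    rw [List.ofFn_succ]
    show (η 0 = v 0 ∧ mOneE (List.ofFn fun i => v i.succ) (fun n => η (n + 1))) ↔ _
    rw [ih, Fin.forall_fin_succ]
    rfl

theorem stp_meas (D : ℕ) [NeZero D] : Measurable (fun (a : ℕ → Cell D) (n : ℕ) => stp a n) := by
  refine measurable_pi_lambda _ fun n => ?_
  exact Dep.measurable (Set.finite_Iic n) (mOne_dep n)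

private theorem mOne_cell {D : ℕ} [NeZero D] (w α : Set.Ioo (0 : ℝ) 1) (c : Cell D) :
    cellLaw w α D {c} = ENNReal.ofReal (runW w α c.1) * (2 * (D : ℝ≥0∞))⁻¹ := by
  have h1 : ({c} : Set (Cell D)) = {c.1} ×ˢ {c.2} := by
    rw [Set.singleton_prod_singleton]
  rw [cellLaw, h1, Measure.prod_prod]
  congr 1
  · rw [runLaw, Measure.sum_apply _ (measurableSet_singleton _), tsum_eq_single c.1]
    · rw [Measure.smul_apply, Measure.dirac_apply_of_mem (Set.mem_singleton _), smul_eq_mul, mul_one]
    · intro l hl
      rw [Measure.smul_apply, Measure.dirac_apply' _ (measurableSet_singleton _), Set.indicator_of_notMem, smul_zero]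
      exact fun h => hl (Set.mem_singleton_iff.1 h)
  · rw [dirLaw, Measure.smul_apply, Measure.count_singleton, smul_eq_mul, mul_one]

private theorem mOne_cons {D : ℕ} [NeZero D] (w α : Set.Ioo (0 : ℝ) 1) (b : Bool) (c : Cell D) :
    cellLaw w α D {(b :: c.1, c.2)} = ENNReal.ofReal (bw w α b) * cellLaw w α D {c} := by
  rw [mOne_cell, mOne_cell]
  show ENNReal.ofReal (runW w α (b :: c.1)) * _ = _
  have h1 : runW w α (b :: c.1) = bw w α b * runW w α c.1 := by
    rw [runW_eq, runW_eq, List.map_cons, List.prod_cons]
    ring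
  rw [h1, ENNReal.ofReal_mul (bw_pos w.2 α.2 b).le, mul_assoc]

private theorem mOne_head {D : ℕ} [NeZero D] (w α : Set.Ioo (0 : ℝ) 1) (c : Cell D) {Q' : (ℕ → Cell D) → Prop}
    (hQ : MeasurableSet {a | Q' a}) (hd : Dep ({0}ᶜ) Q') :
    Measure.infinitePi (fun _ : ℕ => cellLaw w α D) {a | a 0 = c ∧ Q' a} =
      cellLaw w α D {c} * Measure.infinitePi (fun _ : ℕ => cellLaw w α D) {a | Q' a} := by
  have hm : MeasurableSet ((fun a : ℕ → Cell D => a 0) ⁻¹' {c}) :=
    (measurable_pi_apply (0 : ℕ)) (measurableSet_singleton c)
  have h1 := prob_and_dep (cellLaw w α D) (S := {0}) (T := {0}ᶜ) disjoint_compl_right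
    (P := fun a : ℕ → Cell D => a 0 = c) (P' := Q') hm hQ (fun a a' h => by
      show (a 0 = c) = (a' 0 = c)
      rw [h 0 (Set.mem_singleton _)]) hd
  have h2 : Measure.infinitePi (fun _ : ℕ => cellLaw w α D) {a | a 0 = c} = cellLaw w α D {c} := by
    have h3 := map_eval (ι := ℕ) (cellLaw w α D) 0
    have h4 : ((Measure.infinitePi fun _ : ℕ => cellLaw w α D).map fun a => a 0) {c} = cellLaw w α D {c} :=
      congrArg (fun ν : Measure (Cell D) => ν {c}) h3
    rw [Measure.map_apply (measurable_pi_apply (0 : ℕ)) (measurableSet_singleton c)] at h4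
    exact h4
  rw [h1, h2]

private theorem mOne_upd {D : ℕ} (u : List (Stp D)) (c : Cell D) :
    Dep ({0}ᶜ) (fun a : ℕ → Cell D => mOneE u (stp (Function.update a 0 c))) := by
  intro a a' h
  have h1 : Function.update a 0 c = Function.update a' 0 c := by
    funext j
    rcases eq_or_ne j 0 with hj | hj
    · rw [hj, Function.update_self, Function.update_self]
    · rw [Function.update_of_ne hj, Function.update_of_ne hj, h j hj]
  show mOneE u (stp (Function.update a 0 c)) = mOneE u (stp (Function.update a' 0 c))
  rw [h1]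

private theorem mOne_updm {D : ℕ} [NeZero D] (u : List (Stp D)) (c : Cell D) :
    MeasurableSet {a : ℕ → Cell D | mOneE u (stp (Function.update a 0 c))} := by
  refine Dep.measurableSet (S := Set.Iio u.length) (Set.finite_Iio _) ?_
  intro a a' h
  refine mOneE_dep u _ _ fun p hp => ?_
  rcases eq_or_ne p 0 with hj | hj
  · rw [hj, Function.update_self, Function.update_self]
  · rw [Function.update_of_ne hj, Function.update_of_ne hj, h p hp]

private theorem mOne_sum {D : ℕ} [NeZero D] (μ : Measure (ℕ → Cell D)) (g : Cell D → Cell D) (hg : Function.Injective g)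
    (A : Cell D → (ℕ → Cell D) → Prop) (hA : ∀ c, MeasurableSet {a | A c a}) :
    μ {a | ∃ c, a 0 = g c ∧ A c a} = ∑' c, μ {a | a 0 = g c ∧ A c a} := by
  have h1 : {a : ℕ → Cell D | ∃ c, a 0 = g c ∧ A c a} = ⋃ c, {a | a 0 = g c ∧ A c a} := by
    ext a
    simp
  rw [h1, measure_iUnion]
  · intro c c' hcc
    refine Set.disjoint_left.2 ?_
    rintro a ⟨h2, -⟩ ⟨h3, -⟩
    exact hcc (hg (h2.symm.trans h3))
  · intro c
    exact ((measurable_pi_apply 0) (measurableSet_singleton (g c))).inter (hA c)

private theorem mOne_f {D : ℕ} [NeZero D] (w α : Set.Ioo (0 : ℝ) 1) (u : List (Stp D)) :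
    Measure.infinitePi (fun _ : ℕ => cellLaw w α D) {a | mOneE u (stp a)} =
      (u.map fun s => ENNReal.ofReal (wt w α D s)).prod := by
  induction u with
  | nil =>
    have h1 : {a : ℕ → Cell D | mOneE [] (stp a)} = Set.univ := Set.eq_univ_of_forall fun _ => trivial
    rw [h1, measure_univ]
    rfl
  | cons s u ih =>
    rw [List.map_cons, List.prod_cons, ← ih]
    have hD0 : (D : ℝ) ≠ 0 := Nat.cast_ne_zero.2 (NeZero.ne D)
    rcases s with b | d
    · have hE : {a : ℕ → Cell D | mOneE (Sum.inl b :: u) (stp a)} =
          {a | ∃ c : Cell D, a 0 = (b :: c.1, c.2) ∧ mOneE u (stp (Function.update a 0 c))} := by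
        ext a
        show (stp a 0 = Sum.inl b ∧ mOneE u (fun n => stp a (n + 1))) ↔ _
        rcases ha : a 0 with ⟨l, d⟩
        rcases l with _ | ⟨b', l⟩
        · obtain ⟨h1, -⟩ := stp_nil a d ha
          refine ⟨fun h => ?_, ?_⟩
          · rw [h1] at h
            exact absurd h.1 (by simp)
          · rintro ⟨c, hc, -⟩
            rw [ha] at hc
            exact absurd hc (by simp)
        · obtain ⟨h1, h2⟩ := stp_cons a b' l d ha
          have h3 : (fun n => stp a (n + 1)) = stp (Function.update a 0 (l, d)) := funext h2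
          rw [h1, h3]
          constructor
          · rintro ⟨h4, h5⟩
            refine ⟨(l, d), ?_, h5⟩
            rw [ha, Sum.inl.inj h4]
          · rintro ⟨c, hc, h5⟩
            rw [ha] at hc
            have h6 : b' = b ∧ l = c.1 ∧ d = c.2 := by
              have h7 := congrArg Prod.fst hc
              have h8 := congrArg Prod.snd hc
              simp only [List.cons.injEq] at h7 h8
              exact ⟨h7.1, h7.2, h8⟩
            obtain ⟨rfl, rfl, rfl⟩ := h6
            exact ⟨rfl, h5⟩
      have hE' : {a : ℕ → Cell D | mOneE u (stp a)} =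
          {a | ∃ c : Cell D, a 0 = id c ∧ mOneE u (stp (Function.update a 0 c))} := by
        ext a
        constructor
        · intro h
          refine ⟨a 0, rfl, ?_⟩
          rw [Function.update_eq_self]
          exact h
        · rintro ⟨c, hc, h⟩
          have h9 : Function.update a 0 c = a := by
            have : c = a 0 := hc.symm
            rw [this, Function.update_eq_self]
          rw [h9] at h
          exact h
      rw [hE, hE', mOne_sum _ (fun c : Cell D => (b :: c.1, c.2)) (fun c c' h => by
          have h7 := congrArg Prod.fst h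
          have h8 := congrArg Prod.snd h
          simp only [List.cons.injEq, true_and] at h7 h8
          exact Prod.ext h7 h8) (fun c a => mOneE u (stp (Function.update a 0 c))) (fun c => mOne_updm u c),
        mOne_sum _ id Function.injective_id (fun c a => mOneE u (stp (Function.update a 0 c))) (fun c => mOne_updm u c),
        ← ENNReal.tsum_mul_left]
      refine tsum_congr fun c => ?_
      rw [mOne_head w α _ (mOne_updm u c) (mOne_upd u c), mOne_head w α _ (mOne_updm u c) (mOne_upd u c), mOne_cons,
        id, mul_assoc]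
      congr 1
      cases b <;> rfl
    · have hE : {a : ℕ → Cell D | mOneE (Sum.inr d :: u) (stp a)} =
          {a | a 0 = ([], d) ∧ mOneE u (stp fun j => a (j + 1))} := by
        ext a
        show (stp a 0 = Sum.inr d ∧ mOneE u (fun n => stp a (n + 1))) ↔ _
        rcases ha : a 0 with ⟨l, d'⟩
        rcases l with _ | ⟨b', l⟩
        · obtain ⟨h1, h2⟩ := stp_nil a d' ha
          have h3 : (fun n => stp a (n + 1)) = stp (fun j => a (j + 1)) := funext h2
          rw [h1, h3]
          constructor
          · rintro ⟨h4, h5⟩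
            refine ⟨?_, h5⟩
            rw [ha, Sum.inr.inj h4]
          · rintro ⟨h4, h5⟩
            rw [ha] at h4
            have h6 : d' = d := congrArg Prod.snd h4
            exact ⟨by rw [h6], h5⟩
        · obtain ⟨h1, -⟩ := stp_cons a b' l d' ha
          refine ⟨fun h => ?_, ?_⟩
          · rw [h1] at h
            exact absurd h.1 (by simp)
          · rintro ⟨hc, -⟩
            rw [ha] at hc
            exact absurd hc (by simp)
      have hm : MeasurableSet {a : ℕ → Cell D | mOneE u (stp a)} :=
        Dep.measurableSet (S := Set.Iio u.length) (Set.finite_Iio _) (mOneE_dep u)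
      have hsh : Measurable (fun (a : ℕ → Cell D) (j : ℕ) => a (j + 1)) :=
        measurable_pi_lambda _ fun j => measurable_pi_apply _
      rw [hE, mOne_head w α ([], d) (Q' := fun a => mOneE u (stp fun j => a (j + 1))) (hsh hm) (fun a a' h => by
        show mOneE u (stp fun j => a (j + 1)) = mOneE u (stp fun j => a' (j + 1))
        have h1 : (fun j => a (j + 1)) = fun j => a' (j + 1) := funext fun j => h (j + 1) (Nat.succ_ne_zero j)
        rw [h1])]
      have h2 : Measure.infinitePi (fun _ : ℕ => cellLaw w α D) {a | mOneE u (stp fun j => a (j + 1))} =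
          Measure.infinitePi (fun _ : ℕ => cellLaw w α D) {a | mOneE u (stp a)} := by
        have h3 := map_inj (cellLaw w α D) (fun j : ℕ => j + 1) (fun i j h => Nat.succ.inj h)
        rw [← h3, Measure.map_apply hsh hm, h3]
        rfl
      rw [h2, mOne_cell]
      congr 1
      show ENNReal.ofReal (runW w α []) * (2 * (D : ℝ≥0∞))⁻¹ = ENNReal.ofReal ((1 - w) / (2 * D))
      have h4 : runW w α [] = 1 - w := by
        rw [runW_eq, List.map_nil, List.prod_nil, mul_one]
      have hD : (0 : ℝ) < 2 * D := by
        have : (0 : ℝ) < D := Nat.cast_pos.2 (Nat.pos_of_ne_zero (NeZero.ne D))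
        linarith
      rw [h4, ENNReal.ofReal_div_of_pos hD, ENNReal.ofReal_mul (by norm_num : (0 : ℝ) ≤ 2), ENNReal.ofReal_natCast,
        ENNReal.ofReal_ofNat]
      rfl

theorem stp_law (w α : Set.Ioo (0 : ℝ) 1) (D : ℕ) [NeZero D] :
    (Measure.infinitePi (fun _ : ℕ => cellLaw w α D)).map (fun a n => stp a n) =
      Measure.infinitePi (fun _ : ℕ => stepLaw w α D) := by
  classical
  have hdisc : DiscreteMeasurableSpace (Stp D) := ⟨fun s =>
    measurableSet_sum_iff.2 ⟨MeasurableSet.of_discrete, MeasurableSet.of_discrete⟩⟩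
  refine Measure.eq_infinitePi _ fun s t ht => ?_
  obtain ⟨N, hN⟩ : ∃ N : ℕ, s ⊆ Finset.range N := by
    refine ⟨s.sup id + 1, fun i hi => ?_⟩
    rw [Finset.mem_range]
    exact Nat.lt_succ_of_le (Finset.le_sup (f := id) hi)
  have hr : Measurable (fun (η : ℕ → Stp D) (i : Fin N) => η i) :=
    measurable_pi_lambda _ fun i => measurable_pi_apply _
  have hfin : ((Measure.infinitePi (fun _ : ℕ => cellLaw w α D)).map (fun a n => stp a n)).map
      (fun (η : ℕ → Stp D) (i : Fin N) => η i) = Measure.pi (fun _ : Fin N => stepLaw w α D) := by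
    refine Measure.ext_of_singleton fun v => ?_
    rw [Measure.map_apply hr (measurableSet_singleton v), Measure.map_apply (stp_meas D) (hr (measurableSet_singleton v)),
      Measure.pi_singleton]
    have h1 : (fun (a : ℕ → Cell D) (n : ℕ) => stp a n) ⁻¹'
        ((fun (η : ℕ → Stp D) (i : Fin N) => η i) ⁻¹' {v}) = {a | mOneE (List.ofFn v) (stp a)} := by
      ext a
      show ((fun i : Fin N => stp a i) = v) ↔ mOneE (List.ofFn v) (stp a)
      rw [mOneE_ofFn]
      exact funext_iff
    rw [h1, mOne_f, List.map_ofFn, List.prod_ofFn]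
    refine Finset.prod_congr rfl fun i _ => ?_
    rw [stepLaw_single]
    rfl
  have hset : Set.pi (s : Set ℕ) t = (fun (η : ℕ → Stp D) (i : Fin N) => η i) ⁻¹'
      Set.pi Set.univ (fun i : Fin N => if (i : ℕ) ∈ s then t i else Set.univ) := by
    ext η
    constructor
    · intro h i _
      show η i ∈ (if (i : ℕ) ∈ s then t i else Set.univ)
      by_cases hi : (i : ℕ) ∈ s
      · rw [if_pos hi]
        exact h i hi
      · rw [if_neg hi]
        trivial
    · intro h i hi
      have h2 := h ⟨i, Finset.mem_range.1 (hN hi)⟩ (Set.mem_univ _)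
      change η i ∈ (if i ∈ s then t i else Set.univ) at h2
      rw [if_pos (Finset.mem_coe.1 hi)] at h2
      exact h2
  have hms : MeasurableSet (Set.pi Set.univ (fun i : Fin N => if (i : ℕ) ∈ s then t i else (Set.univ : Set (Stp D)))) :=
    MeasurableSet.univ_pi fun i => by
      by_cases hi : (i : ℕ) ∈ s
      · rw [if_pos hi]
        exact ht i
      · rw [if_neg hi]
        exact MeasurableSet.univ
  rw [hset, ← Measure.map_apply hr hms, hfin, Measure.pi_pi]
  have h5 : ∀ i : ℕ, stepLaw w α D (if i ∈ s then t i else Set.univ) = if i ∈ s then stepLaw w α D (t i) else 1 := by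
    intro i
    by_cases hi : i ∈ s
    · rw [if_pos hi, if_pos hi]
    · rw [if_neg hi, if_neg hi, measure_univ]
  rw [Fin.prod_univ_eq_prod_range (fun i : ℕ => stepLaw w α D (if i ∈ s then t i else Set.univ)) N,
    Finset.prod_congr rfl fun i _ => h5 i, ← Finset.prod_filter]
  refine Finset.prod_congr ?_ fun _ _ => rfl
  ext i
  rw [Finset.mem_filter]
  exact ⟨fun h => h.2, fun h => ⟨hN h, h⟩⟩

end FDr
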