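import Pool.Agent.Lib.MP_e029a2_pr.ZSec
import Pool.Agent.Lib.MP_e029a2_pr.Fin2
import Pool.Agent.Lib.MP_e029a2_pr.MU1

/-!
# The second moment bound and recurrence: the dimension depends only on two numbers of the data

The same proof as in `ZSec` and `Fin1`.
-/

set_option autoImplicit false

namespace FDr

open MeasureTheory ProbabilityTheory
open scoped ENNReal NNReal

private theorem MU2_ph_pos (D N : ℕ) : 0 < ph D N := by
  unfold ph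
  have h1 : (0 : ℝ) < Real.sqrt ((N : ℝ) + 1) := Real.sqrt_pos.2 (by positivity)
  positivity

private theorem MU2_ph_le (D : ℕ) {N M : ℕ} (h : N + 1 ≤ 4 * (M + 1)) :
    ph D M ≤ 2 ^ D * ph D N := by
  unfold ph
  rw [← mul_pow]
  have h0 : ((N : ℝ) + 1) ≤ 4 * ((M : ℝ) + 1) := by exact_mod_cast h
  have h1 : (0 : ℝ) < Real.sqrt ((N : ℝ) + 1) := Real.sqrt_pos.2 (by positivity)
  have h2 : (0 : ℝ) < Real.sqrt ((M : ℝ) + 1) := Real.sqrt_pos.2 (by positivity)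
  have h3 : Real.sqrt ((N : ℝ) + 1) ≤ 2 * Real.sqrt ((M : ℝ) + 1) := by
    have h4 : Real.sqrt (4 * ((M : ℝ) + 1)) = 2 * Real.sqrt ((M : ℝ) + 1) := by
      rw [Real.sqrt_mul (by norm_num)]
      congr 1
      rw [show (4 : ℝ) = 2 ^ 2 by norm_num]
      exact Real.sqrt_sq (by norm_num)
    rw [← h4]
    exact Real.sqrt_le_sqrt h0
  refine pow_le_pow_left₀ (by positivity) ?_ D
  rw [inv_le_iff_one_le_mul₀ h2, mul_assoc, mul_comm (Real.sqrt ((N : ℝ) + 1))⁻¹, ← mul_assoc,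
    ← div_eq_mul_inv, le_div_iff₀ h1, one_mul]
  exact h3

private theorem MU2_disp (w α : Set.Ioo (0 : ℝ) 1) (k : ℤ) : dispP w α k ≤ 1 := by
  unfold dispP
  exact prob_le_one

private theorem MU2_act (w α : Set.Ioo (0 : ℝ) 1) (S : Set ℤ) (r : ℤ) : actP w α S r ≤ 1 := by
  unfold actP
  exact prob_le_one

private theorem MU2_hW (w α : Set.Ioo (0 : ℝ) 1) (L : ℕ) (a : Option ℤ × ℤ) : hW w α L a ≤ 1 := by
  rcases a with ⟨_ | r, k⟩
  · exact MU2_disp w α k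
  · calc actP w α (Set.Icc (-(L : ℤ)) L) r * dispP w α (k - r) ≤ 1 * 1 :=
        mul_le_mul' (MU2_act w α _ r) (MU2_disp w α _)
      _ = 1 := one_mul 1

private theorem MU2_W {w α : Set.Ioo (0 : ℝ) 1} (m : Mac w α) : m.W ≠ ⊤ := by
  unfold Mac.W
  refine ENNReal.sum_ne_top.2 fun κ _ => ?_
  have h1 : ∀ l : List (Option ℤ × ℤ), (l.map (hW w α m.L)).prod ≤ 1 := by
    intro l
    induction l with
    | nil => simp
    | cons a l ih =>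
      rw [List.map_cons, List.prod_cons]
      calc hW w α m.L a * (l.map (hW w α m.L)).prod ≤ 1 * 1 :=
            mul_le_mul' (MU2_hW w α m.L a) ih
        _ = 1 := one_mul 1
  exact ((h1 κ).trans_lt ENNReal.one_lt_top).ne

private theorem MU2_qn {D n : ℕ} (hn : 1 ≤ n) (h : n ≤ D) : qn D n ≠ 0 ∧ qn D n ≠ ⊤ := by
  have hD : D ≠ 0 := by omega
  have h2 : (2 * (D : ℝ≥0∞)) ^ n ≠ 0 := pow_ne_zero _ (mul_ne_zero two_ne_zero (by exact_mod_cast hD))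
  have h3 : (2 * (D : ℝ≥0∞)) ^ n ≠ ⊤ :=
    ENNReal.pow_ne_top (ENNReal.mul_ne_top ENNReal.ofNat_ne_top (ENNReal.natCast_ne_top D))
  unfold qn dw
  refine ⟨mul_ne_zero ?_ (ENNReal.inv_ne_zero.2 h3), ENNReal.mul_ne_top (ENNReal.natCast_ne_top _)
    (ENNReal.inv_ne_top.2 h2)⟩
  have h4 : (inj D n).Nonempty := by
    refine ⟨(List.finRange n).map fun i => (Fin.castLE h i, true), (mem_inj _).2 ⟨?_, ?_⟩⟩
    · rw [List.length_map, List.length_finRange]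
    · rw [List.map_map]
      exact (List.nodup_finRange n).map fun a b hab => Fin.castLE_injective h hab
  have h5 : (inj D n).card ≠ 0 := (Finset.card_pos.2 h4).ne'
  exact_mod_cast h5

theorem second_unif (n L : ℕ) : ∃ D0 : ℕ, ∀ {w α : Set.Ioo (0 : ℝ) 1} (m : Mac w α), m.n = n → m.L = L →
    ∀ (D : ℕ) [NeZero D], D0 ≤ D →
    ∃ c₀ : ℝ≥0∞, 0 < c₀ ∧ c₀ ≤ 1 ∧ ∀ B : Finset (Fin D → ℤ), ∃ ρ : ℕ, ∀ σ : St D, Inv B σ → evn σ.2.2 →
      (∀ b ∈ B, (ρ : ℤ) ≤ ∑ i, |σ.2.2 i - b i|) → ∃ N0 : ℕ, ∀ N, N0 ≤ N → Even N →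
        c₀ ≤ Q w α D {c | X m B c N σ ≠ 0} := by
  by_cases hn4 : 4 ≤ n
  swap
  · refine ⟨0, fun m hmn _ => ?_⟩
    exact absurd (hmn ▸ m.n4) hn4
  obtain ⟨D1, hD1⟩ := an1_unif n hn4 (2 * ((n : ℝ≥0) ^ 2 * (2 * L + 2) ^ (2 * n)))
  refine ⟨max D1 (max n 3), fun {w α} m hmn hmL D _ hD => ?_⟩
  subst hmn
  subst hmL
  obtain ⟨W, hW⟩ : ∃ W : ℝ≥0, (W : ℝ≥0∞) = m.W := ⟨m.W.toNNReal, ENNReal.coe_toNNReal (MU2_W m)⟩
  have hW4 : 4 < W := by
    have h1 : (4 : ℝ≥0∞) < m.W := m.big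
    rw [← hW] at h1
    exact_mod_cast h1
  have hDa : D1 ≤ D := (le_max_left _ _).trans hD
  have hDb : m.n ≤ D := (le_max_left _ _).trans ((le_max_right _ _).trans hD)
  have hDc : 3 ≤ D := (le_max_right _ _).trans ((le_max_right _ _).trans hD)
  obtain ⟨C, hC, hT⟩ := hD1 W hW4 D hDa
  obtain ⟨C', hC', hG, hG'⟩ := an2 w α D hDc
  obtain ⟨c, hc, h3⟩ := an3 w α m.n m.H m.n4 m.nev m.H1 D hDb
  obtain ⟨hq0, hq1⟩ := MU2_qn (D := D) (n := m.n) (by have := m.n4; omega) hDb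
  set C₂ : ℝ := C * ((C' * 2 ^ D) ^ 2 + 2 * (C' * 2 ^ D * C')) with hC₂
  have hC₂0 : 0 < C₂ := by positivity
  refine ⟨min 1 (ENNReal.ofReal (c ^ 2 / C₂)), lt_min zero_lt_one
    (ENNReal.ofReal_pos.2 (by positivity)), min_le_left _ _, fun B => ?_⟩
  obtain ⟨ρ, hρ⟩ := h3 B
  refine ⟨ρ, fun σ hσ hev hfar => ?_⟩
  obtain ⟨N1, hN1⟩ := hρ σ.2.2 hev hfar σ.2.1
  refine ⟨max N1 (2 * σ.2.1.natAbs), fun N hN hNe => ?_⟩
  have hNa : N1 ≤ N := (le_max_left _ _).trans hN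
  have hNb : 2 * σ.2.1.natAbs ≤ N := (le_max_right _ _).trans hN
  refine (min_le_right _ _).trans ?_
  -- the height at the end
  have hH : (N : ℤ) ≤ N * m.H := by
    have h4 : (1 : ℤ) ≤ m.H := by exact_mod_cast m.H1
    have h5 : (0 : ℤ) ≤ N := Int.natCast_nonneg _
    nlinarith
  obtain ⟨M, hM⟩ : ∃ M : ℕ, (M : ℤ) = N * m.H - σ.2.1 :=
    ⟨(N * m.H - σ.2.1).toNat, Int.toNat_of_nonneg (by omega)⟩
  have hMN : N + 1 ≤ 4 * (M + 1) := by omega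
  set h0 : ℤ := σ.2.1 - N * m.H with hh0
  have hMh : -h0 = (M : ℤ) := by rw [hM, hh0]; ring
  set P : ℝ := ph D N with hP
  have hP0 : 0 < P := MU2_ph_pos D N
  have hga : ∀ v : Fin D → ℤ, Gam w α D (-h0) v ≤ ENNReal.ofReal (C' * 2 ^ D * P) := by
    intro v
    rw [hMh]
    refine (hG' M v).trans (ENNReal.ofReal_le_ofReal ?_)
    rw [mul_assoc]
    exact mul_le_mul_of_nonneg_left (MU2_ph_le D hMN) hC'.le
  have hT0 : Tk m B h0 0 ≤ ENNReal.ofReal (2 * (C' * 2 ^ D * P * C')) := by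
    refine (term_T m D B h0 _ hga).trans ?_
    have e1 : ENNReal.ofReal (2 * (C' * 2 ^ D * P * C')) =
        2 * (ENNReal.ofReal (C' * 2 ^ D * P) * ENNReal.ofReal C') := by
      rw [ENNReal.ofReal_mul (by norm_num : (0 : ℝ) ≤ 2),
        ENNReal.ofReal_mul (by positivity : (0 : ℝ) ≤ C' * 2 ^ D * P), ENNReal.ofReal_ofNat]
    rw [e1]
    exact mul_le_mul' le_rfl (mul_le_mul' le_rfl (hG 0 0))
  have hA0 : ∀ u, Ak m B h0 0 u ≤ ENNReal.ofReal ((C' * 2 ^ D * P) ^ 2) := by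
    intro u
    refine (term_A m D B h0 _ hga u).trans ?_
    rw [pow_two, ENNReal.ofReal_mul (by positivity : (0 : ℝ) ≤ C' * 2 ^ D * P)]
  have hkern := kern m D B h0
  rw [← hW] at hkern
  have hTN := hT (Tk m B h0) (Ak m B h0) (2 * (C' * 2 ^ D * P * C')) ((C' * 2 ^ D * P) ^ 2)
    (by positivity) (by positivity) hkern hT0 hA0 N
  have hCe : C * ((C' * 2 ^ D * P) ^ 2 + 2 * (C' * 2 ^ D * P * C') * ph D N) = C₂ * P ^ 2 := by
    rw [hC₂, ← hP]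
    ring
  rw [hCe] at hTN
  -- the second moment
  have hsec : ∫⁻ c, X m B c N σ * X m B c N σ ∂Q w α D ≤
      ((W : ℝ≥0∞) * qn D m.n) ^ (2 * N) * ENNReal.ofReal (C₂ * P ^ 2) := by
    refine le_trans ?_ hTN
    unfold Tk
    refine le_iSup₂_of_le σ ⟨hσ, ?_⟩ le_rfl
    rw [hh0]
    ring
  -- the first moment
  have hfirst : ((W : ℝ≥0∞) * qn D m.n) ^ N * ENNReal.ofReal (c * P) ≤
      ∫⁻ c, X m B c N σ ∂Q w α D := by
    rw [X_first m B N σ hσ, ← hW]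
    calc ((W : ℝ≥0∞) * qn D m.n) ^ N * ENNReal.ofReal (c * P) =
          (W : ℝ≥0∞) ^ N * (ENNReal.ofReal c * qn D m.n ^ N * ENNReal.ofReal (ph D N)) := by
          rw [mul_pow, ENNReal.ofReal_mul hc.le]
          ring
      _ ≤ _ := mul_le_mul' le_rfl (hN1 N hNa hNe)
  have hcs := cs (Q w α D) (fun c => X m B c N σ) (X_meas m B N σ hσ)
  set μ := Q w α D {c | X m B c N σ ≠ 0} with hμ
  set R : ℝ≥0∞ := ((W : ℝ≥0∞) * qn D m.n) ^ (2 * N) with hR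
  have hR0 : R ≠ 0 := by
    refine pow_ne_zero _ (mul_ne_zero ?_ hq0)
    have h5 : W ≠ 0 := (lt_trans (by norm_num) hW4).ne'
    exact_mod_cast h5
  have hR1 : R ≠ ⊤ := ENNReal.pow_ne_top (ENNReal.mul_ne_top ENNReal.coe_ne_top hq1)
  have h6 : R * ENNReal.ofReal ((c * P) ^ 2) ≤ R * (ENNReal.ofReal (C₂ * P ^ 2) * μ) := by
    calc R * ENNReal.ofReal ((c * P) ^ 2) =
          (((W : ℝ≥0∞) * qn D m.n) ^ N * ENNReal.ofReal (c * P)) ^ 2 := by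
          rw [mul_pow (((W : ℝ≥0∞) * qn D m.n) ^ N) (ENNReal.ofReal (c * P)) 2, ← pow_mul,
            mul_comm N 2, ENNReal.ofReal_pow (by positivity)]
      _ ≤ (∫⁻ c, X m B c N σ ∂Q w α D) ^ 2 := pow_le_pow_left' hfirst 2
      _ ≤ (∫⁻ c, X m B c N σ * X m B c N σ ∂Q w α D) * μ := hcs
      _ ≤ R * ENNReal.ofReal (C₂ * P ^ 2) * μ := mul_le_mul' hsec le_rfl
      _ = R * (ENNReal.ofReal (C₂ * P ^ 2) * μ) := by ring
  have h7 : ENNReal.ofReal ((c * P) ^ 2) ≤ ENNReal.ofReal (C₂ * P ^ 2) * μ :=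
    (ENNReal.mul_le_mul_iff_right hR0 hR1).1 h6
  have h8 : ENNReal.ofReal ((c * P) ^ 2) = ENNReal.ofReal (C₂ * P ^ 2) * ENNReal.ofReal (c ^ 2 / C₂) := by
    rw [← ENNReal.ofReal_mul (by positivity)]
    congr 1
    field_simp
  rw [h8] at h7
  refine (ENNReal.mul_le_mul_iff_right ?_ ENNReal.ofReal_ne_top).1 h7
  exact (ENNReal.ofReal_pos.2 (by positivity)).ne'

theorem recurrent_unif (n L : ℕ) : ∃ D0 : ℕ, ∀ {w α : Set.Ioo (0 : ℝ) 1} (m : Mac w α), m.n = n → m.L = L →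
    ∀ (D : ℕ) [NeZero D], D0 ≤ D →
    ∀ {Ω : Type*} [MeasurableSpace Ω] (P : Measure Ω) (ξ : Site D → ℕ → Ω → Stp D), IsFrog D w α P ξ →
      Recurrent P ξ := by
  obtain ⟨D0, hD0⟩ := second_unif n L
  refine ⟨D0, fun {w α} m hn hL D _ hD Ω _ P ξ hξ => ?_⟩
  obtain ⟨c₀, h1, h2, h3⟩ := hD0 m hn hL D hD
  refine transfer_inf w α D P ξ hξ ?_
  have h4 := levy (cellLaw w α D) {c : Conf D | (visC c).Infinite} (visC_meas D) c₀ h1
    (ne_top_of_le_ne_top ENNReal.one_ne_top h2) (fun S Z hZ => cyl m D c₀ h2 h3 S Z hZ)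
  rw [ae_iff]
  exact h4

end FDr
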