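import Pool.Agent.Lib.MP_e029a2_pr.MU2
import Pool.Agent.Lib.MP_e029a2_pr.MC4

/-!
# The data of the long step are stable
-/

set_option autoImplicit false

namespace FDr.MC

open MeasureTheory ProbabilityTheory
open scoped ENNReal NNReal

open FDr.TR (ind_true ind_false ind_mono ind_congr measurable_ind lintegral_ind)

theorem bw_cont (b : Bool) : Continuous fun p : Set.Ioo (0 : ℝ) 1 × Set.Ioo (0 : ℝ) 1 => bw (p.1 : ℝ) p.2 b := by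
  have h1 : Continuous fun p : Set.Ioo (0 : ℝ) 1 × Set.Ioo (0 : ℝ) 1 => (p.1 : ℝ) :=
    continuous_subtype_val.comp continuous_fst
  have h2 : Continuous fun p : Set.Ioo (0 : ℝ) 1 × Set.Ioo (0 : ℝ) 1 => (p.2 : ℝ) :=
    continuous_subtype_val.comp continuous_snd
  cases b
  · simp only [bw_f]
    exact (h1.mul (continuous_const.sub h2)).div_const 2
  · simp only [bw_t]
    exact (h1.mul (continuous_const.add h2)).div_const 2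

/-- **Lower semicontinuity.** -/
theorem stable {φ : Set.Ioo (0 : ℝ) 1 → Set.Ioo (0 : ℝ) 1 → ℝ≥0∞} {N : ℕ} (hφ : ∀ w α, φ w α ≤ 1)
    (h1 : ∀ w₀ α₀ w α : Set.Ioo (0 : ℝ) 1, (∀ b, bw w₀ α₀ b ≤ bw w α b) →
      ENNReal.ofReal ((1 - w) / (1 - w₀)) * φ w₀ α₀ ≤ φ w α)
    (h2 : ∀ w₀ α₀ w α : Set.Ioo (0 : ℝ) 1, (∀ b, bw w₀ α₀ b ≤ bw w α b) →
      φ w α ≤ φ w₀ α₀ + N * ENNReal.ofReal (1 - (1 - w) / (1 - w₀)))
    (w₁ α₁ : Set.Ioo (0 : ℝ) 1) {θ : ℝ} (hθ0 : 0 < θ) (hθ1 : θ < 1) :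
    ∀ᶠ p : Set.Ioo (0 : ℝ) 1 × Set.Ioo (0 : ℝ) 1 in nhds (w₁, α₁), ENNReal.ofReal θ * φ w₁ α₁ ≤ φ p.1 p.2 := by
  rcases eq_or_ne (φ w₁ α₁) 0 with h0 | h0
  · rw [h0, mul_zero]
    exact Filter.Eventually.of_forall fun _ => zero_le
  obtain ⟨x, hx⟩ : ∃ x : ℝ, x = (φ w₁ α₁).toReal := ⟨_, rfl⟩
  have hxt : φ w₁ α₁ ≠ ⊤ := ne_top_of_le_ne_top ENNReal.one_ne_top (hφ _ _)
  have hx0 : 0 < x := by rw [hx]; exact ENNReal.toReal_pos h0 hxt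
  have hx1 : x ≤ 1 := by
    rw [hx]
    exact ENNReal.toReal_le_of_le_ofReal zero_le_one (by rw [ENNReal.ofReal_one]; exact hφ _ _)
  have hxE : φ w₁ α₁ = ENNReal.ofReal x := by rw [hx, ENNReal.ofReal_toReal hxt]
  obtain ⟨τ, hτ⟩ : ∃ τ : ℝ, τ = (1 + θ) / 2 := ⟨_, rfl⟩
  have hτ1 : τ < 1 := by rw [hτ]; linarith
  have hτ0 : 0 < τ := by rw [hτ]; linarith
  have hττ : θ ≤ τ * τ := by rw [hτ]; nlinarith [sq_nonneg (1 - θ)]
  have hw0 := w₁.2.1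
  have hw1 := w₁.2.2
  have hw : 0 < 1 - (w₁ : ℝ) := by linarith
  obtain ⟨t, ht⟩ : ∃ t : ℝ, t = min (1 / 2) ((1 - τ) * x * (1 - w₁) / (N + 1)) := ⟨_, rfl⟩
  have hN : (0 : ℝ) < N + 1 := by positivity
  have hA : 0 < (1 - τ) * x * (1 - w₁) / (N + 1) := by
    have : 0 < 1 - τ := by linarith
    positivity
  have ht0 : 0 < t := by rw [ht]; exact lt_min (by norm_num) hA
  have ht1 : t ≤ 1 / 2 := by rw [ht]; exact min_le_left _ _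
  have ht2 : t ≤ (1 - τ) * x * (1 - w₁) / (N + 1) := by rw [ht]; exact min_le_right _ _
  have hd : 0 < 1 - (1 - t) * (w₁ : ℝ) := by nlinarith
  obtain ⟨δ, hδ⟩ : ∃ δ : ℝ, δ = 1 - (1 - (w₁ : ℝ)) / (1 - (1 - t) * w₁) := ⟨_, rfl⟩
  have hδ1 : (N + 1) * δ < (1 - τ) * x := by
    have e1 : δ = t * w₁ / (1 - (1 - t) * w₁) := by
      rw [hδ, eq_div_iff hd.ne', sub_mul, div_mul_cancel₀ _ hd.ne']
      ring
    rw [e1, mul_div_assoc', div_lt_iff₀ hd]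
    rw [le_div_iff₀ hN] at ht2
    have e2 : 0 < (1 - τ) * x := mul_pos (by linarith) hx0
    have e3 : 1 - (w₁ : ℝ) ≤ 1 - (1 - t) * w₁ := by nlinarith
    have e5 : t * (N + 1) * w₁ < t * (N + 1) * 1 := mul_lt_mul_of_pos_left hw1 (by positivity)
    have e6 : (1 - τ) * x * (1 - w₁) ≤ (1 - τ) * x * (1 - (1 - t) * w₁) := mul_le_mul_of_nonneg_left e3 e2.le
    linarith
  have hδ0 : 0 ≤ δ := by
    rw [hδ, sub_nonneg, div_le_one hd]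
    nlinarith
  have hδ2 : δ < 1 - τ := by
    have e1 : 0 ≤ (N : ℝ) * δ := by positivity
    have e2 : (1 - τ) * x ≤ (1 - τ) * 1 := mul_le_mul_of_nonneg_left hx1 (by linarith)
    linarith
  obtain ⟨w₂, hw₂⟩ : ∃ w₂ : Set.Ioo (0 : ℝ) 1, (w₂ : ℝ) = (1 - t) * w₁ :=
    ⟨⟨(1 - t) * w₁, mul_pos (by linarith) hw0, by nlinarith⟩, rfl⟩
  have hbb : ∀ b, bw w₂ α₁ b < bw w₁ α₁ b := by
    intro b
    have e1 : bw w₂ α₁ b = (1 - t) * bw w₁ α₁ b := by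
      rw [hw₂]
      cases b
      · rw [bw_f, bw_f]
        ring
      · rw [bw_t, bw_t]
        ring
    rw [e1]
    have e2 := bw_pos w₁.2 α₁.2 b
    nlinarith
  have hτw : τ < (1 - (w₁ : ℝ)) / (1 - w₂) := by
    rw [hw₂]
    linarith
  -- the neighbourhood
  have n1 : ∀ b, ∀ᶠ p : Set.Ioo (0 : ℝ) 1 × Set.Ioo (0 : ℝ) 1 in nhds (w₁, α₁), bw w₂ α₁ b < bw p.1 p.2 b := fun b =>
    (bw_cont b).continuousAt.eventually_const_lt (hbb b)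
  have n2 : ∀ᶠ p : Set.Ioo (0 : ℝ) 1 × Set.Ioo (0 : ℝ) 1 in nhds (w₁, α₁), τ < (1 - (p.1 : ℝ)) / (1 - w₂) := by
    have hc : Continuous fun p : Set.Ioo (0 : ℝ) 1 × Set.Ioo (0 : ℝ) 1 => (1 - (p.1 : ℝ)) / (1 - w₂) :=
      (continuous_const.sub (continuous_subtype_val.comp continuous_fst)).div_const _
    exact hc.continuousAt.eventually_const_lt hτw
  filter_upwards [n1 true, n1 false, n2] with p p1 p2 p3
  have hb : ∀ b, bw w₂ α₁ b ≤ bw p.1 p.2 b := by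
    intro b
    cases b
    · exact p2.le
    · exact p1.le
  have h3 := h1 w₂ α₁ p.1 p.2 hb
  have h4 := h2 w₂ α₁ w₁ α₁ fun b => (hbb b).le
  have h5 : ENNReal.ofReal τ * φ w₁ α₁ ≤ φ w₂ α₁ := by
    have e1 : (N : ℝ≥0∞) * ENNReal.ofReal (1 - (1 - w₁) / (1 - w₂)) ≤ ENNReal.ofReal (1 - τ) * φ w₁ α₁ := by
      rw [hxE, ← ENNReal.ofReal_mul (by linarith), hw₂, ← hδ, ← ENNReal.ofReal_natCast, ← ENNReal.ofReal_mul (by positivity)]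
      refine ENNReal.ofReal_le_ofReal ?_
      linarith
    have e2 : ENNReal.ofReal τ * φ w₁ α₁ + ENNReal.ofReal (1 - τ) * φ w₁ α₁ ≤
        φ w₂ α₁ + ENNReal.ofReal (1 - τ) * φ w₁ α₁ := by
      rw [← add_mul, ← ENNReal.ofReal_add hτ0.le (by linarith), add_sub_cancel, ENNReal.ofReal_one, one_mul]
      exact h4.trans (add_le_add le_rfl e1)
    exact (ENNReal.add_le_add_iff_right (ENNReal.mul_ne_top ENNReal.ofReal_ne_top hxt)).1 e2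
  calc ENNReal.ofReal θ * φ w₁ α₁ ≤ ENNReal.ofReal (τ * τ) * φ w₁ α₁ :=
        mul_le_mul' (ENNReal.ofReal_le_ofReal hττ) le_rfl
    _ = ENNReal.ofReal τ * (ENNReal.ofReal τ * φ w₁ α₁) := by rw [ENNReal.ofReal_mul hτ0.le, mul_assoc]
    _ ≤ ENNReal.ofReal ((1 - p.1) / (1 - w₂)) * φ w₂ α₁ := mul_le_mul' (ENNReal.ofReal_le_ofReal p3.le) h5
    _ ≤ _ := h3

theorem one_ge_div {w₀ α₀ w α : Set.Ioo (0 : ℝ) 1} (hb : ∀ b, bw w₀ α₀ b ≤ bw w α b) :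
    ENNReal.ofReal ((1 - w) / (1 - w₀)) ≤ 1 := by
  rw [← ENNReal.ofReal_one]
  exact ENNReal.ofReal_le_ofReal (div_mem hb).2

theorem stable_act (S : Finset ℤ) (r : ℤ) (w₁ α₁ : Set.Ioo (0 : ℝ) 1) {θ : ℝ} (hθ0 : 0 < θ) (hθ1 : θ < 1) :
    ∀ᶠ p : Set.Ioo (0 : ℝ) 1 × Set.Ioo (0 : ℝ) 1 in nhds (w₁, α₁),
      ENNReal.ofReal θ * actP w₁ α₁ ↑S r ≤ actP p.1 p.2 ↑S r := by
  refine stable (φ := fun w α => actP w α ↑S r) (N := S.card + 1) (fun w α => ?_) (fun w₀ α₀ w α hb => ?_)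
    (fun w₀ α₀ w α hb => ?_) w₁ α₁ hθ0 hθ1
  · show actP w α ↑S r ≤ 1
    unfold actP
    exact prob_le_one
  · show _ * actP w₀ α₀ ↑S r ≤ actP w α ↑S r
    rw [actP_eq_pC, actP_eq_pC]
    exact (mul_le_mul' (one_ge_div hb) le_rfl).trans (by rw [one_mul]; exact pC_comp hb S 0 r)
  · show actP w α ↑S r ≤ actP w₀ α₀ ↑S r + _
    rw [actP_eq_pC, actP_eq_pC]
    exact pC_delta hb S 0 r

theorem dispP_int (w α : Set.Ioo (0 : ℝ) 1) (k : ℤ) : dispP w α k = ∫⁻ l, TR.ind (dsp l = k) ∂runLaw w α :=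
  (lintegral_ind _ (measurable_of_countable _)).symm

theorem stable_disp (k : ℤ) (w₁ α₁ : Set.Ioo (0 : ℝ) 1) {θ : ℝ} (hθ0 : 0 < θ) (hθ1 : θ < 1) :
    ∀ᶠ p : Set.Ioo (0 : ℝ) 1 × Set.Ioo (0 : ℝ) 1 in nhds (w₁, α₁),
      ENNReal.ofReal θ * dispP w₁ α₁ k ≤ dispP p.1 p.2 k := by
  refine stable (φ := fun w α => dispP w α k) (N := 1) (fun w α => ?_) (fun w₀ α₀ w α hb => ?_)
    (fun w₀ α₀ w α hb => ?_) w₁ α₁ hθ0 hθ1
  · show dispP w α k ≤ 1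
    unfold dispP
    exact prob_le_one
  · show _ * dispP w₀ α₀ k ≤ dispP w α k
    rw [dispP_int, dispP_int]
    exact run_dom hb _
  · show dispP w α k ≤ dispP w₀ α₀ k + _
    rw [dispP_int, dispP_int, Nat.cast_one, one_mul]
    refine run_delta hb _ fun l => ?_
    by_cases H : dsp l = k
    · rw [ind_true H]
    · rw [ind_false H]
      exact zero_le_one

theorem stable_hW (L : ℕ) (a : Option ℤ × ℤ) (w₁ α₁ : Set.Ioo (0 : ℝ) 1) {θ : ℝ} (hθ0 : 0 < θ) (hθ1 : θ < 1) :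
    ∀ᶠ p : Set.Ioo (0 : ℝ) 1 × Set.Ioo (0 : ℝ) 1 in nhds (w₁, α₁),
      ENNReal.ofReal θ * hW w₁ α₁ L a ≤ hW p.1 p.2 L a := by
  rcases a with ⟨_ | r, k⟩
  · exact stable_disp k w₁ α₁ hθ0 hθ1
  · obtain ⟨τ, hτ⟩ : ∃ τ : ℝ, τ = (1 + θ) / 2 := ⟨_, rfl⟩
    have hτ1 : τ < 1 := by rw [hτ]; linarith
    have hτ0 : 0 < τ := by rw [hτ]; linarith
    have hττ : θ ≤ τ * τ := by rw [hτ]; nlinarith [sq_nonneg (1 - θ)]
    have h1 := stable_act (Finset.Icc (-(L : ℤ)) L) r w₁ α₁ hτ0 hτ1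
    have h2 := stable_disp (k - r) w₁ α₁ hτ0 hτ1
    filter_upwards [h1, h2] with p p1 p2
    rw [Finset.coe_Icc] at p1
    show ENNReal.ofReal θ * (actP w₁ α₁ (Set.Icc (-(L : ℤ)) L) r * dispP w₁ α₁ (k - r)) ≤
      actP p.1 p.2 (Set.Icc (-(L : ℤ)) L) r * dispP p.1 p.2 (k - r)
    calc ENNReal.ofReal θ * (actP w₁ α₁ (Set.Icc (-(L : ℤ)) L) r * dispP w₁ α₁ (k - r))
        ≤ ENNReal.ofReal (τ * τ) * (actP w₁ α₁ (Set.Icc (-(L : ℤ)) L) r * dispP w₁ α₁ (k - r)) :=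
          mul_le_mul' (ENNReal.ofReal_le_ofReal hττ) le_rfl
      _ = (ENNReal.ofReal τ * actP w₁ α₁ (Set.Icc (-(L : ℤ)) L) r) * (ENNReal.ofReal τ * dispP w₁ α₁ (k - r)) := by
          rw [ENNReal.ofReal_mul hτ0.le]
          ring
      _ ≤ _ := mul_le_mul' p1 p2

/-- **The data are stable.** -/
theorem Mac_stable {w₁ α₁ : Set.Ioo (0 : ℝ) 1} (m : Mac w₁ α₁) :
    ∀ᶠ p : Set.Ioo (0 : ℝ) 1 × Set.Ioo (0 : ℝ) 1 in nhds (w₁, α₁), ∃ m' : Mac p.1 p.2, m'.n = m.n ∧ m'.L = m.L := by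
  classical
  have hbig := m.big
  obtain ⟨q, hq1, hq2⟩ := ENNReal.lt_iff_exists_nnreal_btwn.1 hbig
  have hq : (4 : ℝ) < q := by exact_mod_cast hq1
  obtain ⟨θ, hθ0, hθ1, hθ⟩ : ∃ θ : ℝ, 0 < θ ∧ θ < 1 ∧ 4 < θ ^ m.n * q := by
    have hc : Continuous fun θ : ℝ => θ ^ m.n * (q : ℝ) := (continuous_pow m.n).mul continuous_const
    have h1 : ∀ᶠ θ : ℝ in nhds 1, 4 < θ ^ m.n * q := by
      refine hc.continuousAt.eventually_const_lt ?_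
      show (4 : ℝ) < 1 ^ m.n * q
      rw [one_pow, one_mul]
      exact hq
    have h2 : ∀ᶠ θ : ℝ in nhds 1, 0 < θ := eventually_gt_nhds one_pos
    obtain ⟨ε, hε, hball⟩ := Metric.eventually_nhds_iff.1 (h1.and h2)
    have h3 : dist (1 - ε / 2) 1 < ε := by
      rw [Real.dist_eq, sub_sub_cancel_left, abs_neg, abs_of_pos (by linarith)]
      linarith
    exact ⟨1 - ε / 2, (hball h3).2, by linarith, (hball h3).1⟩
  have h1 : ∀ᶠ p : Set.Ioo (0 : ℝ) 1 × Set.Ioo (0 : ℝ) 1 in nhds (w₁, α₁), ∀ a ∈ m.K,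
      ENNReal.ofReal θ * hW w₁ α₁ m.L a ≤ hW p.1 p.2 m.L a := by
    rw [Filter.eventually_all_finset]
    exact fun a _ => stable_hW m.L a w₁ α₁ hθ0 hθ1
  filter_upwards [h1] with p hp
  have h2 : ∀ κ ∈ m.F, ENNReal.ofReal θ ^ m.n * (κ.map (hW w₁ α₁ m.L)).prod ≤ (κ.map (hW p.1 p.2 m.L)).prod := by
    intro κ hκ
    have h3 : ∀ a ∈ κ, ENNReal.ofReal θ * hW w₁ α₁ m.L a ≤ hW p.1 p.2 m.L a := fun a ha =>
      hp a (Finset.mem_biUnion.2 ⟨κ, hκ, List.mem_toFinset.2 ha⟩)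
    have h4 : ∀ l : List (Option ℤ × ℤ), (∀ a ∈ l, ENNReal.ofReal θ * hW w₁ α₁ m.L a ≤ hW p.1 p.2 m.L a) →
        ENNReal.ofReal θ ^ l.length * (l.map (hW w₁ α₁ m.L)).prod ≤ (l.map (hW p.1 p.2 m.L)).prod := by
      intro l
      induction l with
      | nil => simp
      | cons a l ih =>
        intro h5
        rw [List.map_cons, List.prod_cons, List.map_cons, List.prod_cons, List.length_cons, pow_succ]
        calc ENNReal.ofReal θ ^ l.length * ENNReal.ofReal θ * (hW w₁ α₁ m.L a * (l.map (hW w₁ α₁ m.L)).prod)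
            = (ENNReal.ofReal θ * hW w₁ α₁ m.L a) * (ENNReal.ofReal θ ^ l.length * (l.map (hW w₁ α₁ m.L)).prod) := by
              ring
          _ ≤ _ := mul_le_mul' (h5 a (List.mem_cons_self ..)) (ih fun b hb => h5 b (List.mem_cons_of_mem _ hb))
    have h5 := h4 κ h3
    rwa [m.len κ hκ] at h5
  have h3 : 4 < ∑ κ ∈ m.F, (κ.map (hW p.1 p.2 m.L)).prod := by
    calc (4 : ℝ≥0∞) = ENNReal.ofReal 4 := by rw [ENNReal.ofReal_ofNat]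
      _ < ENNReal.ofReal (θ ^ m.n * q) := (ENNReal.ofReal_lt_ofReal_iff (by linarith)).2 hθ
      _ = ENNReal.ofReal θ ^ m.n * q := by
          rw [ENNReal.ofReal_mul (by positivity), ENNReal.ofReal_pow hθ0.le, ENNReal.ofReal_coe_nnreal]
      _ ≤ ENNReal.ofReal θ ^ m.n * ∑ κ ∈ m.F, (κ.map (hW w₁ α₁ m.L)).prod := mul_le_mul' le_rfl hq2.le
      _ = ∑ κ ∈ m.F, ENNReal.ofReal θ ^ m.n * (κ.map (hW w₁ α₁ m.L)).prod := Finset.mul_sum _ _ _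
      _ ≤ _ := Finset.sum_le_sum h2
  exact ⟨Mac.mk m.L m.n m.H m.F m.n4 m.nev m.H1 m.len m.first m.last m.rL m.tot m.mid h3, rfl, rfl⟩

end FDr.MC
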