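import Pool.Agent.Lib.MP_e029a2_pr.MU3

/-!
# Recurrence, uniformly on compact sets of parameters
-/

set_option autoImplicit false

namespace FDr

open MeasureTheory ProbabilityTheory
open scoped ENNReal NNReal

/-- **Recurrence, uniformly on compact sets of parameters.** -/
theorem recurrent_compact {K : Set (Set.Ioo (0 : ℝ) 1 × Set.Ioo (0 : ℝ) 1)} (hK : IsCompact K)
    (h : ∀ p ∈ K, 1 < Lam p.1 p.2) : ∃ D0 : ℕ, ∀ (D : ℕ) [NeZero D], D0 ≤ D → ∀ p ∈ K,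
    ∀ {Ω : Type*} [MeasurableSpace Ω] (P : Measure Ω) (ξ : Site D → ℕ → Ω → Stp D), IsFrog D p.1 p.2 P ξ →
      Recurrent P ξ := by
  refine hK.induction_on (p := fun S => ∃ D0 : ℕ, ∀ (D : ℕ) [NeZero D], D0 ≤ D → ∀ p ∈ S,
    ∀ {Ω : Type _} [MeasurableSpace Ω] (P : Measure Ω) (ξ : Site D → ℕ → Ω → Stp D), IsFrog D p.1 p.2 P ξ →
      Recurrent P ξ) ?_ ?_ ?_ ?_
  · exact ⟨0, fun D _ _ p hp => absurd hp (Set.notMem_empty p)⟩
  · rintro S T hST ⟨D0, hD0⟩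
    exact ⟨D0, fun D _ hD p hp => hD0 D hD p (hST hp)⟩
  · rintro S T ⟨D1, hD1⟩ ⟨D2, hD2⟩
    refine ⟨max D1 D2, fun D _ hD p hp Ω _ P ξ hξ => ?_⟩
    rcases hp with hp | hp
    · exact hD1 D ((le_max_left _ _).trans hD) p hp P ξ hξ
    · exact hD2 D ((le_max_right _ _).trans hD) p hp P ξ hξ
  · rintro ⟨w, α⟩ hp
    obtain ⟨m⟩ := exists_mac w α (h (w, α) hp)
    obtain ⟨D0, hD0⟩ := recurrent_unif m.n m.L
    refine ⟨_, mem_nhdsWithin_of_mem_nhds (MC.Mac_stable m), D0, fun D _ hD p hp Ω _ P ξ hξ => ?_⟩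
    obtain ⟨m', h1, h2⟩ := hp
    exact hD0 m' h1 h2 D hD P ξ hξ

end FDr
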