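import Pool.Agent.Lib.MP_e029a2_pr.ADef

/-!
# Job R1: the bounded renewal inequality

Strong induction: `y N ≤ a + ∑_{j<N} b j * (8 a) ≤ a + (7/8) 8 a = 8 a`.
-/

set_option autoImplicit false

namespace FDr

open MeasureTheory
open scoped ENNReal

theorem renewal_bdd (b : ℕ → ℝ) (hb : ∀ j, 0 ≤ b j) (hs : ∀ N, ∑ j ∈ Finset.range N, b j ≤ 7 / 8)
    (a : ℝ) (ha : 0 ≤ a) (y : ℕ → ℝ)
    (hy : ∀ N, y N ≤ a + ∑ j ∈ Finset.range N, b j * y (N - 1 - j)) (N : ℕ) : y N ≤ 8 * a := by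
  induction N using Nat.strong_induction_on with
  | _ N ih =>
    have h1 : ∑ j ∈ Finset.range N, b j * y (N - 1 - j) ≤ ∑ j ∈ Finset.range N, b j * (8 * a) := by
      refine Finset.sum_le_sum fun j hj => ?_
      rw [Finset.mem_range] at hj
      exact mul_le_mul_of_nonneg_left (ih (N - 1 - j) (by omega)) (hb j)
    rw [← Finset.sum_mul] at h1
    have h2 : (∑ j ∈ Finset.range N, b j) * (8 * a) ≤ 7 / 8 * (8 * a) :=
      mul_le_mul_of_nonneg_right (hs N) (by linarith)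
    linarith [hy N]

end FDr
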