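import Pool.Agent.Lib.MP_e029a2_pr.ADef

/-!
# Job R2: the renewal inequality with polynomial decay

`ph s N = ((√(N+1))⁻¹)^s`, `s ≥ 3`.  It is enough to prove it for `t = 1` or to carry `t` along.
1. The total mass: `S_N = ∑_{n<N} y n ≤ t + (7/8) S_N` (exchange the sums: `∑_{n<N} ∑_{j<n} b j y (n-1-j)
   ≤ (∑_{j<N} b j) (∑_{m<N} y m)`), so `S_N ≤ 8 t`.
2. Choose `δ ∈ (0, 1/2)` with `(7/8) (1-2δ)^(-s/2) ≤ 15/16`, i.e. `((√(1-2δ))⁻¹)^s ≤ 15/14` (continuity at
   `δ = 0`), and `N1` with `δ N1 ≥ 1`.  For `N ≥ N1` and `j < δ N` we have `N - j ≥ (1-δ) N ≥ (1-2δ)(N+1)`,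
   so `ph s (N-1-j) ≤ ((√(1-2δ))⁻¹)^s ph s N`.  For `δ N ≤ j < N`: `b j ≤ B ph s j ≤ B (√δ)^(-s) ph s N`
   (as `j + 1 ≥ δ (N+1)`).
3. Claim `y N ≤ C t ph s N` with `C ≥ 1` large: for `N < N1` it follows from `y N ≤ 8 t` (step 1) if
   `C ph s N1 ≥ 8`; for `N ≥ N1`, by strong induction
   `y N ≤ ∑_{j<δN} b j C t ph s (N-1-j) + ∑_{δN≤j<N} b j y (N-1-j) ≤ (15/16) C t ph s N + B (√δ)^(-s) ph s N 8 t`,
   which is `≤ C t ph s N` if `C ≥ 128 B (√δ)^(-s)`.
(The hypothesis `3 ≤ s` is not used by this proof.)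
-/

set_option autoImplicit false

namespace FDr

open MeasureTheory
open scoped ENNReal

private theorem R2_ph_pos (s N : ℕ) : 0 < ph s N := by
  unfold ph
  positivity

private theorem R2_scale (s : ℕ) (c : ℝ) (hc : 0 < c) (M N : ℕ) (h : c * ((N : ℝ) + 1) ≤ (M : ℝ) + 1) :
    ph s M ≤ ((Real.sqrt c)⁻¹) ^ s * ph s N := by
  unfold ph
  rw [← mul_pow]
  apply pow_le_pow_left₀ (by positivity)
  rw [← mul_inv, ← Real.sqrt_mul hc.le]
  exact inv_anti₀ (Real.sqrt_pos.2 (by positivity)) (Real.sqrt_le_sqrt h)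

private theorem R2_anti (s : ℕ) {M N : ℕ} (h : N ≤ M) : ph s M ≤ ph s N := by
  have h1 := R2_scale s 1 one_pos M N (by
    rw [one_mul]
    have : (N : ℝ) ≤ M := by exact_mod_cast h
    linarith)
  rw [Real.sqrt_one, inv_one, one_pow, one_mul] at h1
  exact h1

private theorem R2_exch (b y : ℕ → ℝ) (hb : ∀ j, 0 ≤ b j) (hy : ∀ j, 0 ≤ y j) (N : ℕ) :
    ∑ n ∈ Finset.range N, ∑ j ∈ Finset.range n, b j * y (n - 1 - j) ≤
      (∑ j ∈ Finset.range N, b j) * ∑ m ∈ Finset.range N, y m := by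
  have h1 : ∀ n ∈ Finset.range N, ∑ j ∈ Finset.range n, b j * y (n - 1 - j) =
      ∑ j ∈ Finset.range N, if j < n then b j * y (n - 1 - j) else 0 := by
    intro n hn
    rw [Finset.mem_range] at hn
    rw [← Finset.sum_filter]
    refine Finset.sum_congr ?_ fun _ _ => rfl
    ext j
    simp only [Finset.mem_range, Finset.mem_filter]
    omega
  rw [Finset.sum_congr rfl h1, Finset.sum_comm, Finset.sum_mul]
  refine Finset.sum_le_sum fun j _ => ?_
  have h2 : ∑ n ∈ Finset.range N, (if j < n then b j * y (n - 1 - j) else 0) =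
      b j * ∑ n ∈ (Finset.range N).filter (fun n => j < n), y (n - 1 - j) := by
    rw [Finset.mul_sum, Finset.sum_filter]
  rw [h2]
  refine mul_le_mul_of_nonneg_left ?_ (hb j)
  have hinj : Set.InjOn (fun n => n - 1 - j) (((Finset.range N).filter (fun n => j < n) : Finset ℕ) : Set ℕ) := by
    intro a ha c hc hac
    rw [Finset.mem_coe, Finset.mem_filter] at ha hc
    simp only at hac
    have h3 := ha.2
    have h4 := hc.2
    omega
  have h3 := Finset.sum_image (f := y) hinj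
  rw [← h3]
  refine Finset.sum_le_sum_of_subset_of_nonneg ?_ fun m _ _ => hy m
  intro m hm
  rw [Finset.mem_image] at hm
  obtain ⟨n, hn, rfl⟩ := hm
  rw [Finset.mem_filter, Finset.mem_range] at hn
  rw [Finset.mem_range]
  omega

private theorem R2_mass (b y : ℕ → ℝ) (hb : ∀ j, 0 ≤ b j) (hs : ∀ N, ∑ j ∈ Finset.range N, b j ≤ 7 / 8) (t : ℝ)
    (ht : 0 ≤ t) (hy : ∀ j, 0 ≤ y j)
    (h : ∀ N, y N ≤ (if N = 0 then t else 0) + ∑ j ∈ Finset.range N, b j * y (N - 1 - j)) (N : ℕ) :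
    ∑ n ∈ Finset.range N, y n ≤ 8 * t := by
  have h1 : ∑ n ∈ Finset.range N, y n ≤ ∑ n ∈ Finset.range N, (if n = 0 then t else 0) +
      ∑ n ∈ Finset.range N, ∑ j ∈ Finset.range n, b j * y (n - 1 - j) := by
    rw [← Finset.sum_add_distrib]
    exact Finset.sum_le_sum fun n _ => h n
  have h2 : ∑ n ∈ Finset.range N, (if n = 0 then t else 0) ≤ t := by
    rw [Finset.sum_ite_eq']
    split_ifs
    · exact le_refl t
    · exact ht
  have h3 := R2_exch b y hb hy N
  have h4 : 0 ≤ ∑ m ∈ Finset.range N, y m := Finset.sum_nonneg fun m _ => hy m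
  have h5 := mul_le_mul_of_nonneg_right (hs N) h4
  linarith

private theorem R2_delta (s : ℕ) : ∃ δ : ℝ, 0 < δ ∧ δ < 1 / 4 ∧ ((Real.sqrt (1 - 2 * δ))⁻¹) ^ s ≤ 15 / 14 := by
  have hc : ContinuousAt (fun δ : ℝ => ((Real.sqrt (1 - 2 * δ))⁻¹) ^ s) 0 := by
    refine ContinuousAt.pow (ContinuousAt.inv₀ ?_ ?_) s
    · fun_prop
    · norm_num
  have h0 : (fun δ : ℝ => ((Real.sqrt (1 - 2 * δ))⁻¹) ^ s) 0 < 15 / 14 := by
    norm_num
  have h1 := hc.eventually_lt_const h0
  have h2 := (h1.filter_mono (nhdsWithin_le_nhds (s := Set.Ioi (0 : ℝ)))).and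
    ((Ioo_mem_nhdsGT (show (0 : ℝ) < 1 / 4 by norm_num)))
  obtain ⟨δ, hδ1, hδ2⟩ := h2.exists
  exact ⟨δ, hδ2.1, hδ2.2, hδ1.le⟩

theorem renewal_decay (s : ℕ) (B : ℝ) (hB : 0 ≤ B) (b : ℕ → ℝ) (hb : ∀ j, 0 ≤ b j)
    (hbB : ∀ j, b j ≤ B * ph s j) (hs : ∀ N, ∑ j ∈ Finset.range N, b j ≤ 7 / 8) :
    ∃ C : ℝ, 0 < C ∧ ∀ t : ℝ, 0 ≤ t → ∀ y : ℕ → ℝ, (∀ N, 0 ≤ y N) →
      (∀ N, y N ≤ (if N = 0 then t else 0) + ∑ j ∈ Finset.range N, b j * y (N - 1 - j)) →
      ∀ N, y N ≤ C * t * ph s N := by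
  obtain ⟨δ, hδ0, hδ4, hr⟩ := R2_delta s
  obtain ⟨N1, hN1⟩ := exists_nat_gt (1 / δ)
  have hN1' : 1 ≤ δ * N1 := by
    rw [div_lt_iff₀ hδ0] at hN1
    linarith
  set r : ℝ := ((Real.sqrt (1 - 2 * δ))⁻¹) ^ s with hrdef
  set ρ : ℝ := ((Real.sqrt δ)⁻¹) ^ s with hρdef
  have hr0 : 0 ≤ r := by rw [hrdef]; positivity
  have hρ0 : 0 ≤ ρ := by rw [hρdef]; positivity
  have hphN1 := R2_ph_pos s N1
  set C : ℝ := 8 / ph s N1 + 128 * B * ρ + 1 with hCdef
  have hC0 : 0 < C := by rw [hCdef]; positivity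
  have hC1 : 8 ≤ C * ph s N1 := by
    have h1 : 8 / ph s N1 ≤ C := by
      rw [hCdef]
      have : 0 ≤ 128 * B * ρ := by positivity
      linarith
    rwa [div_le_iff₀ hphN1] at h1
  have hC2 : 128 * B * ρ ≤ C := by
    rw [hCdef]
    have : 0 < 8 / ph s N1 := by positivity
    linarith
  refine ⟨C, hC0, fun t ht y hy h N => ?_⟩
  have hmass := R2_mass b y hb hs t ht hy h
  have hy8 : ∀ n, y n ≤ 8 * t := by
    intro n
    refine le_trans ?_ (hmass (n + 1))
    exact Finset.single_le_sum (f := y) (fun i _ => hy i) (Finset.mem_range.2 (Nat.lt_succ_self n))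
  induction N using Nat.strong_induction_on with
  | _ N ih =>
    rcases Nat.lt_or_ge N N1 with hlt | hge
    · have h1 := R2_anti s hlt.le
      have h2 : C * t * ph s N1 ≤ C * t * ph s N := mul_le_mul_of_nonneg_left h1 (by positivity)
      have h3 : 8 * t ≤ C * ph s N1 * t := mul_le_mul_of_nonneg_right hC1 ht
      have h4 := hy8 N
      have h5 : C * t * ph s N1 = C * ph s N1 * t := by ring
      linarith
    · have hNr : (N1 : ℝ) ≤ N := by exact_mod_cast hge
      have hδN : 1 ≤ δ * N := by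
        have := mul_le_mul_of_nonneg_left hNr hδ0.le
        linarith
      have hN0 : N ≠ 0 := by
        intro h0
        rw [h0, Nat.cast_zero, mul_zero] at hδN
        linarith
      have hphN := R2_ph_pos s N
      have hmain := h N
      rw [if_neg hN0, zero_add] at hmain
      have hterm : ∀ j ∈ Finset.range N, b j * y (N - 1 - j) ≤
          b j * (C * t * (r * ph s N)) + B * (ρ * ph s N) * y (N - 1 - j) := by
        intro j hj
        rw [Finset.mem_range] at hj
        have hjr : (j : ℝ) + 1 ≤ N := by exact_mod_cast hj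
        rcases lt_or_ge (j : ℝ) (δ * N) with hl | hg
        · have h1 := ih (N - 1 - j) (by omega)
          have hcast : (((N - 1 - j : ℕ)) : ℝ) + 1 = (N : ℝ) - j := by
            have : N - 1 - j + 1 + j = N := by omega
            have h2 : (((N - 1 - j : ℕ)) : ℝ) + 1 + j = N := by exact_mod_cast this
            linarith
          have h2 : ph s (N - 1 - j) ≤ r * ph s N := by
            refine R2_scale s (1 - 2 * δ) (by linarith) _ _ ?_
            rw [hcast]
            nlinarith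
          have h3 : C * t * ph s (N - 1 - j) ≤ C * t * (r * ph s N) :=
            mul_le_mul_of_nonneg_left h2 (by positivity)
          have h4 : b j * y (N - 1 - j) ≤ b j * (C * t * (r * ph s N)) :=
            mul_le_mul_of_nonneg_left (h1.trans h3) (hb j)
          have h5 : 0 ≤ B * (ρ * ph s N) * y (N - 1 - j) := by
            have := hy (N - 1 - j)
            positivity
          linarith
        · have h1 : ph s j ≤ ρ * ph s N := by
            refine R2_scale s δ hδ0 _ _ ?_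
            nlinarith
          have h2 : b j ≤ B * (ρ * ph s N) := (hbB j).trans (mul_le_mul_of_nonneg_left h1 hB)
          have h3 := mul_le_mul_of_nonneg_right h2 (hy (N - 1 - j))
          have h4 : 0 ≤ b j * (C * t * (r * ph s N)) := by
            have := hb j
            positivity
          linarith
      have hsum := Finset.sum_le_sum hterm
      rw [Finset.sum_add_distrib, ← Finset.sum_mul, ← Finset.mul_sum, Finset.sum_range_reflect y N] at hsum
      have g1 : (∑ j ∈ Finset.range N, b j) * (C * t * (r * ph s N)) ≤ 7 / 8 * (C * t * (r * ph s N)) :=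
        mul_le_mul_of_nonneg_right (hs N) (by positivity)
      have g2 : C * t * (r * ph s N) ≤ 15 / 14 * (C * t * ph s N) := by
        have : C * t * (r * ph s N) = r * (C * t * ph s N) := by ring
        rw [this]
        exact mul_le_mul_of_nonneg_right hr (by positivity)
      have g3 : B * (ρ * ph s N) * ∑ m ∈ Finset.range N, y m ≤ B * (ρ * ph s N) * (8 * t) :=
        mul_le_mul_of_nonneg_left (hmass N) (by positivity)
      have g4 : B * (ρ * ph s N) * (8 * t) ≤ 1 / 16 * (C * t * ph s N) := by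
        have : B * (ρ * ph s N) * (8 * t) = 1 / 16 * ((128 * B * ρ) * (t * ph s N)) := by ring
        rw [this]
        have h6 : (128 * B * ρ) * (t * ph s N) ≤ C * (t * ph s N) := mul_le_mul_of_nonneg_right hC2 (by positivity)
        linarith [h6]
      have g5 : 0 ≤ C * t * ph s N := by positivity
      linarith

end FDr
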