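import Pool.Agent.Lib.MP_e029a2_pr.CV2
import Pool.Agent.Lib.MP_e029a2_pr.FR7
import Pool.Agent.Lib.MP_e029a2_pr.FR8

/-!
# Job R3: the meeting terms are small and decay

Let `m ≥ 1`.  (i) `srw D m u ≤ ofReal (1/(2D))` for `m ≥ 1` (one step: every value is an average over the
`2D` directions of `srw D (m-1)`, whose total sum over the lattice is `1`; or: `srw D m u =
∑_d (2D)⁻¹ srw D (m-1) (u - dv d) ≤ (2D)⁻¹ ∑'_x srw D (m-1) x = (2D)⁻¹`, as `d ↦ u - dv d` is injective).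
(ii) for every `f : V D → ℝ≥0∞` with `∑' x, f x ≤ 1`: `(TT D n)^[j] f u ≤ sup_w (TT D n)^[j] (ofReal ∘ ind w) u`
(`f = ∑'_w f w * 1_w`, and `TT` commutes with countable sums in `ℝ≥0∞`), which by `TT_iter` is at most
`qn^(2j) ofReal (sup_w (Tw n D)^[j] (ind w) u)`.
(iii) `(TT D n)^[j] (const c) u = qn^(2j) c`.
`sfun` is the sum of `n²` terms `srw D (a+b)`, `a + b ≥ 2`.  So with
`e j = n² min (1/(2D)) (min (2744/j³) (C_D ph D j))` for `j ≥ 1` (`Tw_unif`, `Tw_exact`), and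
`e 0 = n² min (1/(2D)) (C_D)`, the last claim holds; `B = n² C_D`.
Sum: given `ε`, choose `J` with `n² ∑_{j>J} 2744/j³ ≤ ε/2` (`n² 2744 / J² ≤ ε/2`, as
`∑_{j>J} 1/j³ ≤ 1/J²`) and then `D0` with `n² (J+1)/(2 D0) ≤ ε/2`.
-/

set_option autoImplicit false

namespace FDr

open MeasureTheory
open scoped ENNReal

theorem dv_inj_r3 {D : ℕ} : Function.Injective (dv : Dir D → V D) := by
  rintro ⟨c, b⟩ ⟨c', b'⟩ h
  have hs : ∀ x : Bool, sg x ≠ 0 := by intro x; cases x <;> simp [sg]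
  have hc : c = c' := by
    by_contra hne
    have h1 := congrFun h c
    simp only [dv] at h1
    rw [Pi.single_eq_same, Pi.single_eq_of_ne hne] at h1
    exact hs b h1
  subst hc
  have h1 := congrFun h c
  simp only [dv] at h1
  rw [Pi.single_eq_same, Pi.single_eq_same] at h1
  have hb : b = b' := by
    cases b <;> cases b' <;> simp [sg] at h1 ⊢
  rw [hb]

theorem two_D_inv_mul_r3 (D : ℕ) : 2 * (D : ℝ≥0∞) * (2 * (D : ℝ≥0∞))⁻¹ ≤ 1 := ENNReal.mul_inv_le_one _

/-- the total mass -/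
theorem srw_tsum_r3 (D m : ℕ) : ∑' x : V D, srw D m x ≤ 1 := by
  induction m with
  | zero =>
    have : ∀ x : V D, srw D 0 x = if x = 0 then 1 else 0 := fun x => rfl
    rw [tsum_congr this, tsum_ite_eq]
  | succ m ih =>
    have h1 : ∀ x : V D, srw D (m + 1) x = ∑ d : Dir D, (2 * (D : ℝ≥0∞))⁻¹ * srw D m (x - dv d) := fun x => rfl
    rw [tsum_congr h1, Summable.tsum_finsetSum fun _ _ => ENNReal.summable]
    have h2 : ∀ d : Dir D, ∑' x : V D, (2 * (D : ℝ≥0∞))⁻¹ * srw D m (x - dv d) ≤ (2 * (D : ℝ≥0∞))⁻¹ := by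
      intro d
      rw [ENNReal.tsum_mul_left]
      have h3 : ∑' x : V D, srw D m (x - dv d) = ∑' x : V D, srw D m x :=
        (Equiv.subRight (dv d)).tsum_eq (srw D m)
      rw [h3]
      calc (2 * (D : ℝ≥0∞))⁻¹ * ∑' x : V D, srw D m x ≤ (2 * (D : ℝ≥0∞))⁻¹ * 1 := by gcongr
        _ = _ := mul_one _
    calc ∑ d : Dir D, ∑' x : V D, (2 * (D : ℝ≥0∞))⁻¹ * srw D m (x - dv d)
        ≤ ∑ _d : Dir D, (2 * (D : ℝ≥0∞))⁻¹ := Finset.sum_le_sum fun d _ => h2 d
      _ = 2 * (D : ℝ≥0∞) * (2 * (D : ℝ≥0∞))⁻¹ := by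
        rw [Finset.sum_const, Finset.card_univ, Fintype.card_prod, Fintype.card_fin, Fintype.card_bool,
          nsmul_eq_mul]
        push_cast
        ring
      _ ≤ 1 := two_D_inv_mul_r3 D

theorem srw_le_r3 (D m : ℕ) (u : V D) : srw D (m + 1) u ≤ (2 * (D : ℝ≥0∞))⁻¹ := by
  have h1 : srw D (m + 1) u = ∑ d : Dir D, (2 * (D : ℝ≥0∞))⁻¹ * srw D m (u - dv d) := rfl
  rw [h1, ← Finset.mul_sum]
  have h2 : ∑ d : Dir D, srw D m (u - dv d) ≤ 1 := by
    rw [← tsum_fintype (L := .unconditional _)]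
    have hinj : Function.Injective fun d : Dir D => u - dv d := by
      intro a b hab
      exact dv_inj_r3 (sub_right_injective hab)
    exact (ENNReal.tsum_comp_le_tsum_of_injective hinj (srw D m)).trans (srw_tsum_r3 D m)
  calc (2 * (D : ℝ≥0∞))⁻¹ * ∑ d : Dir D, srw D m (u - dv d) ≤ (2 * (D : ℝ≥0∞))⁻¹ * 1 := by gcongr
    _ = _ := mul_one _

theorem sfun_tsum_r3 (D n : ℕ) : ∑' x : V D, sfun D n x ≤ (n : ℝ≥0∞) ^ 2 := by
  have h1 : ∀ x : V D, sfun D n x = ∑ a ∈ Finset.Icc 1 n, ∑ b ∈ Finset.Icc 1 n, srw D (a + b) x := fun x => rfl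
  rw [tsum_congr h1, Summable.tsum_finsetSum fun _ _ => ENNReal.summable]
  have h2 : ∀ a ∈ Finset.Icc 1 n, ∑' x : V D, ∑ b ∈ Finset.Icc 1 n, srw D (a + b) x ≤ (n : ℝ≥0∞) := by
    intro a _
    rw [Summable.tsum_finsetSum fun _ _ => ENNReal.summable]
    calc ∑ b ∈ Finset.Icc 1 n, ∑' x : V D, srw D (a + b) x ≤ ∑ _b ∈ Finset.Icc 1 n, (1 : ℝ≥0∞) :=
          Finset.sum_le_sum fun b _ => srw_tsum_r3 D (a + b)
      _ = (n : ℝ≥0∞) := by simp
  calc ∑ a ∈ Finset.Icc 1 n, ∑' x : V D, ∑ b ∈ Finset.Icc 1 n, srw D (a + b) x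
      ≤ ∑ _a ∈ Finset.Icc 1 n, (n : ℝ≥0∞) := Finset.sum_le_sum h2
    _ = (n : ℝ≥0∞) ^ 2 := by
      rw [Finset.sum_const, Nat.card_Icc, nsmul_eq_mul, Nat.add_sub_cancel, sq]

theorem sfun_le_r3 (D n : ℕ) (u : V D) : sfun D n u ≤ (n : ℝ≥0∞) ^ 2 * (2 * (D : ℝ≥0∞))⁻¹ := by
  have h1 : sfun D n u = ∑ a ∈ Finset.Icc 1 n, ∑ b ∈ Finset.Icc 1 n, srw D (a + b) u := rfl
  rw [h1]
  calc ∑ a ∈ Finset.Icc 1 n, ∑ b ∈ Finset.Icc 1 n, srw D (a + b) u
      ≤ ∑ _a ∈ Finset.Icc 1 n, ∑ _b ∈ Finset.Icc 1 n, (2 * (D : ℝ≥0∞))⁻¹ := by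
        refine Finset.sum_le_sum fun a ha => Finset.sum_le_sum fun b _ => ?_
        obtain ⟨ha1, _⟩ := Finset.mem_Icc.1 ha
        obtain ⟨m, hm⟩ : ∃ m, a + b = m + 1 := ⟨a + b - 1, by omega⟩
        rw [hm]
        exact srw_le_r3 D m u
    _ = (n : ℝ≥0∞) ^ 2 * (2 * (D : ℝ≥0∞))⁻¹ := by
      rw [Finset.sum_const, Finset.sum_const, Nat.card_Icc, nsmul_eq_mul, nsmul_eq_mul, Nat.add_sub_cancel, sq,
        mul_assoc]

/-- `TT` commutes with countable combinations -/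
theorem TT_tsum_r3 (D n : ℕ) (c : V D → ℝ≥0∞) (g : V D → V D → ℝ≥0∞) (j : ℕ) (u : V D) :
    (TT D n)^[j] (fun x => ∑' w, c w * g w x) u = ∑' w, c w * (TT D n)^[j] (g w) u := by
  induction j generalizing u with
  | zero => rfl
  | succ j ih =>
    rw [Function.iterate_succ_apply']
    have h1 : (TT D n)^[j] (fun x => ∑' w, c w * g w x) = fun x => ∑' w, c w * (TT D n)^[j] (g w) x :=
      funext ih
    rw [h1]
    have h2 : ∀ w, (TT D n)^[j + 1] (g w) u =
        ∑ l ∈ inj D n, ∑ l' ∈ inj D n, dw D n ^ 2 * (TT D n)^[j] (g w) (u + sumv l - sumv l') := by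
      intro w
      rw [Function.iterate_succ_apply']
      rfl
    have h3 : ∀ w, c w * (TT D n)^[j + 1] (g w) u =
        ∑ l ∈ inj D n, ∑ l' ∈ inj D n, dw D n ^ 2 * (c w * (TT D n)^[j] (g w) (u + sumv l - sumv l')) := by
      intro w
      rw [h2 w, Finset.mul_sum]
      refine Finset.sum_congr rfl fun l _ => ?_
      rw [Finset.mul_sum]
      refine Finset.sum_congr rfl fun l' _ => ?_
      rw [mul_left_comm]
    rw [tsum_congr h3, Summable.tsum_finsetSum fun _ _ => ENNReal.summable]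
    unfold TT
    refine Finset.sum_congr rfl fun l _ => ?_
    rw [Summable.tsum_finsetSum fun _ _ => ENNReal.summable]
    refine Finset.sum_congr rfl fun l' _ => ?_
    rw [ENNReal.tsum_mul_left]

/-- a bound of `TT` on functions of a finite total mass -/
theorem TT_mass_r3 (D n : ℕ) (hD : 1 ≤ D) (hn : n ≤ D) (f : V D → ℝ≥0∞) (S : ℝ≥0∞) (hS : ∑' x, f x ≤ S) (j : ℕ)
    (M : ℝ) (hM : ∀ w v : V D, (Tw n D)^[j] (ind w) v ≤ M) (u : V D) :
    (TT D n)^[j] f u ≤ qn D n ^ (2 * j) * (S * ENNReal.ofReal M) := by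
  have h1 : f = fun x => ∑' w, f w * ENNReal.ofReal (ind w x) := by
    funext x
    have : ∀ w, f w * ENNReal.ofReal (ind w x) = if w = x then f x else 0 := by
      intro w
      unfold ind
      by_cases h : w = x
      · subst h
        simp
      · have h' : ¬ x = w := fun h2 => h h2.symm
        rw [if_neg h', if_neg h, ENNReal.ofReal_zero, mul_zero]
    rw [tsum_congr this, tsum_ite_eq]
  have h2 : (TT D n)^[j] f u = ∑' w, f w * (TT D n)^[j] (fun x => ENNReal.ofReal (ind w x)) u := by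
    conv_lhs => rw [h1]
    exact TT_tsum_r3 D n f (fun w x => ENNReal.ofReal (ind w x)) j u
  rw [h2]
  have h3 : ∀ w, f w * (TT D n)^[j] (fun x => ENNReal.ofReal (ind w x)) u ≤
      f w * (qn D n ^ (2 * j) * ENNReal.ofReal M) := by
    intro w
    have h4 : ∀ v, 0 ≤ ind w v := by
      intro v
      unfold ind
      split_ifs <;> norm_num
    rw [TT_iter D n hD hn (ind w) h4 j u]
    gcongr
    exact hM w u
  calc ∑' w, f w * (TT D n)^[j] (fun x => ENNReal.ofReal (ind w x)) u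
      ≤ ∑' w, f w * (qn D n ^ (2 * j) * ENNReal.ofReal M) := ENNReal.tsum_le_tsum h3
    _ = (∑' w, f w) * (qn D n ^ (2 * j) * ENNReal.ofReal M) := ENNReal.tsum_mul_right
    _ ≤ S * (qn D n ^ (2 * j) * ENNReal.ofReal M) := by gcongr
    _ = _ := by rw [mul_left_comm]

/-- a bound of `TT` on bounded functions -/
theorem TT_bdd_r3 (D n : ℕ) (f : V D → ℝ≥0∞) (c : ℝ≥0∞) (hc : ∀ x, f x ≤ c) (j : ℕ) (u : V D) :
    (TT D n)^[j] f u ≤ qn D n ^ (2 * j) * c := by
  induction j generalizing u with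
  | zero =>
    rw [Nat.mul_zero, pow_zero, one_mul]
    exact hc u
  | succ j ih =>
    rw [Function.iterate_succ_apply']
    calc TT D n ((TT D n)^[j] f) u
        ≤ ∑ _l ∈ inj D n, ∑ _l' ∈ inj D n, dw D n ^ 2 * (qn D n ^ (2 * j) * c) := by
          unfold TT
          refine Finset.sum_le_sum fun l _ => Finset.sum_le_sum fun l' _ => ?_
          gcongr
          exact ih _
      _ = qn D n ^ (2 * (j + 1)) * c := by
          rw [Finset.sum_const, Finset.sum_const, nsmul_eq_mul, nsmul_eq_mul]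
          have : qn D n ^ (2 * (j + 1)) = ((inj D n).card : ℝ≥0∞) * (((inj D n).card : ℝ≥0∞) * (dw D n ^ 2 *
              qn D n ^ (2 * j))) := by
            have hq : qn D n ^ 2 = ((inj D n).card : ℝ≥0∞) * (((inj D n).card : ℝ≥0∞) * dw D n ^ 2) := by
              unfold qn
              ring
            rw [Nat.mul_succ, pow_add, hq]
            ring
          rw [this]
          ring

theorem sfun_decay (n : ℕ) (hn : 1 ≤ n) (ε : ℝ) (hε : 0 < ε) : ∃ D0 : ℕ, ∀ D : ℕ, D0 ≤ D →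
    ∃ (e : ℕ → ℝ) (B : ℝ), 0 ≤ B ∧ (∀ j, 0 ≤ e j) ∧ (∀ j, e j ≤ B * ph D j) ∧
      (∀ N, ∑ j ∈ Finset.range N, e j ≤ ε) ∧
      ∀ (j : ℕ) (u : V D), (TT D n)^[j] (sfun D n) u ≤ qn D n ^ (2 * j) * ENNReal.ofReal (e j) := by
  obtain ⟨D1, hD1⟩ := Tw_unif n hn
  -- the tail
  set g : ℕ → ℝ := fun j => (n : ℝ) ^ 2 * (2744 / (j : ℝ) ^ 3) with hg
  have hg0 : ∀ j, 0 ≤ g j := fun j => by simp only [hg]; positivity
  have hgs : Summable g := by
    have h1 : Summable fun j : ℕ => 1 / (j : ℝ) ^ 3 := Real.summable_one_div_nat_pow.2 (by norm_num)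
    have h2 : g = fun j : ℕ => ((n : ℝ) ^ 2 * 2744) * (1 / (j : ℝ) ^ 3) := by
      funext j
      simp only [hg]
      ring
    rw [h2]
    exact h1.mul_left _
  have htail : ∃ J : ℕ, 1 ≤ J ∧ ∑' i, g (i + J) ≤ ε / 2 := by
    have h1 := tendsto_sum_nat_add g
    have h2 : ∀ᶠ J in Filter.atTop, ∑' i, g (i + J) < ε / 2 := h1.eventually_lt_const (by linarith)
    obtain ⟨J, hJ1, hJ2⟩ := ((Filter.eventually_ge_atTop 1).and h2).exists
    exact ⟨J, hJ1, hJ2.le⟩
  obtain ⟨J, hJ1, hJ2⟩ := htail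
  obtain ⟨D2, hD2⟩ := exists_nat_ge ((J : ℝ) * (n : ℝ) ^ 2 / ε)
  refine ⟨max (max D1 D2) (max n 1), fun D hD => ?_⟩
  have hDD1 : D1 ≤ D := le_trans (le_trans (le_max_left _ _) (le_max_left _ _)) hD
  have hDD2 : D2 ≤ D := le_trans (le_trans (le_max_right _ _) (le_max_left _ _)) hD
  have hDn : n ≤ D := le_trans (le_trans (le_max_left _ _) (le_max_right _ _)) hD
  have hD1' : 1 ≤ D := le_trans (le_trans (le_max_right _ _) (le_max_right _ _)) hD
  obtain ⟨C, hC0, hC⟩ := Tw_exact n D hn hDn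
  have hDpos : (0 : ℝ) < D := by exact_mod_cast hD1'
  have hph : ∀ j, 0 ≤ ph D j := fun j => by unfold ph; positivity
  set M : ℕ → ℝ := fun j => if j = 0 then C * ph D 0 else min (2744 / (j : ℝ) ^ 3) (C * ph D j) with hM
  have hM0 : ∀ j, 0 ≤ M j := by
    intro j
    simp only [hM]
    split_ifs
    · exact mul_nonneg hC0.le (hph 0)
    · exact le_min (by positivity) (mul_nonneg hC0.le (hph j))
  have hMph : ∀ j, M j ≤ C * ph D j := by
    intro j
    simp only [hM]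
    split_ifs with h
    · rw [h]
    · exact min_le_right _ _
  have hMT : ∀ j, ∀ w v : V D, (Tw n D)^[j] (ind w) v ≤ M j := by
    intro j w v
    simp only [hM]
    split_ifs with h
    · rw [h]
      exact hC 0 w v
    · exact le_min (hD1 D hDD1 j (Nat.one_le_iff_ne_zero.2 h) w v) (hC j w v)
  have hMg : ∀ j, 1 ≤ j → (n : ℝ) ^ 2 * M j ≤ g j := by
    intro j hj
    have h1 : M j ≤ 2744 / (j : ℝ) ^ 3 := by
      simp only [hM]
      rw [if_neg (by omega)]
      exact min_le_left _ _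
    simp only [hg]
    gcongr
  set e : ℕ → ℝ := fun j => (n : ℝ) ^ 2 * min (1 / (2 * (D : ℝ))) (M j) with he
  have he0 : ∀ j, 0 ≤ e j := fun j => by
    simp only [he]
    exact mul_nonneg (by positivity) (le_min (by positivity) (hM0 j))
  refine ⟨e, (n : ℝ) ^ 2 * C, by positivity, he0, ?_, ?_, ?_⟩
  · intro j
    simp only [he]
    rw [mul_assoc]
    exact mul_le_mul_of_nonneg_left ((min_le_right _ _).trans (hMph j)) (by positivity)
  · intro N
    have h1 : ∑ j ∈ Finset.range N, e j ≤ ∑ j ∈ Finset.range (J + N), e j :=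
      Finset.sum_le_sum_of_subset_of_nonneg (Finset.range_mono (by omega)) fun j _ _ => he0 j
    have h2 : ∑ j ∈ Finset.range (J + N), e j = ∑ j ∈ Finset.range J, e j + ∑ i ∈ Finset.range N, e (J + i) :=
      Finset.sum_range_add e J N
    have h3 : ∑ j ∈ Finset.range J, e j ≤ ε / 2 := by
      calc ∑ j ∈ Finset.range J, e j ≤ ∑ _j ∈ Finset.range J, (n : ℝ) ^ 2 * (1 / (2 * (D : ℝ))) := by
            refine Finset.sum_le_sum fun j _ => ?_
            simp only [he]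
            exact mul_le_mul_of_nonneg_left (min_le_left _ _) (by positivity)
        _ = (J : ℝ) * (n : ℝ) ^ 2 / (2 * D) := by
            rw [Finset.sum_const, Finset.card_range, nsmul_eq_mul]
            ring
        _ ≤ ε / 2 := by
            have h4 : (J : ℝ) * (n : ℝ) ^ 2 / ε ≤ D := hD2.trans (by exact_mod_cast hDD2)
            rw [div_le_iff₀ hε] at h4
            rw [div_le_iff₀ (by positivity)]
            linarith
    have h5 : ∑ i ∈ Finset.range N, e (J + i) ≤ ε / 2 := by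
      calc ∑ i ∈ Finset.range N, e (J + i) ≤ ∑ i ∈ Finset.range N, g (i + J) := by
            refine Finset.sum_le_sum fun i _ => ?_
            have h6 : e (J + i) ≤ (n : ℝ) ^ 2 * M (J + i) := by
              simp only [he]
              exact mul_le_mul_of_nonneg_left (min_le_right _ _) (by positivity)
            rw [Nat.add_comm i J]
            exact h6.trans (hMg (J + i) (by omega))
        _ ≤ ∑' i, g (i + J) :=
            Summable.sum_le_tsum _ (fun i _ => hg0 _) ((summable_nat_add_iff J).2 hgs)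
        _ ≤ ε / 2 := hJ2
    linarith
  · intro j u
    rcases min_choice (1 / (2 * (D : ℝ))) (M j) with hmin | hmin
    · have h1 : e j = (n : ℝ) ^ 2 * (1 / (2 * (D : ℝ))) := by simp only [he]; rw [hmin]
      have h2 := TT_bdd_r3 D n (sfun D n) _ (sfun_le_r3 D n) j u
      have h3 : ENNReal.ofReal (e j) = (n : ℝ≥0∞) ^ 2 * (2 * (D : ℝ≥0∞))⁻¹ := by
        rw [h1, ENNReal.ofReal_mul (by positivity), ENNReal.ofReal_pow (by positivity), ENNReal.ofReal_natCast,
          one_div, ENNReal.ofReal_inv_of_pos (by positivity), ENNReal.ofReal_mul (by norm_num),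
          ENNReal.ofReal_natCast, ENNReal.ofReal_ofNat]
      rw [h3]
      exact h2
    · have h1 : e j = (n : ℝ) ^ 2 * M j := by simp only [he]; rw [hmin]
      have h2 := TT_mass_r3 D n hD1' hDn (sfun D n) _ (sfun_tsum_r3 D n) j (M j) (hMT j) u
      have h3 : ENNReal.ofReal (e j) = (n : ℝ≥0∞) ^ 2 * ENNReal.ofReal (M j) := by
        rw [h1, ENNReal.ofReal_mul (by positivity), ENNReal.ofReal_pow (by positivity), ENNReal.ofReal_natCast]
      rw [h3]
      exact h2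

end FDr
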