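import Pool.Agent.Lib.MP_e029a2_pr.CV2

/-!
# Job R4: the unrolled kernel inequality

Write `TT = TT D n`, `q = qn D n`.  `TT` is additive, monotone, commutes with constants (`TT (c • f) = c • TT f`),
and `kA` says `A (k+1) ≤ W² TT (A k) + C1 (T k + ⨆ A k) sfun`.  Induction on `k`:
`A k u ≤ W^(2k) TT^[k] (A 0) u + ∑_{j<k} W^(2j) C1 (T (k-1-j) + ⨆ v, A (k-1-j) v) TT^[j] (sfun) u`.
Then `TT^[k] (A 0) ≤ q^(2k) a` if `A 0 ≤ a`, and `TT^[j] sfun u ≤ q^(2j) e j` by hypothesis.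
-/

set_option autoImplicit false

namespace FDr

open MeasureTheory
open scoped ENNReal

private theorem r4_add (D n : ℕ) (f g : V D → ℝ≥0∞) (u : V D) :
    TT D n (fun v => f v + g v) u = TT D n f u + TT D n g u := by
  unfold TT
  rw [← Finset.sum_add_distrib]
  refine Finset.sum_congr rfl fun l _ => ?_
  rw [← Finset.sum_add_distrib]
  refine Finset.sum_congr rfl fun l' _ => ?_
  rw [mul_add]

private theorem r4_smul (D n : ℕ) (c : ℝ≥0∞) (f : V D → ℝ≥0∞) (u : V D) :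
    TT D n (fun v => c * f v) u = c * TT D n f u := by
  unfold TT
  rw [Finset.mul_sum]
  refine Finset.sum_congr rfl fun l _ => ?_
  rw [Finset.mul_sum]
  refine Finset.sum_congr rfl fun l' _ => ?_
  ring

private theorem r4_zero (D n : ℕ) (u : V D) : TT D n (fun _ => 0) u = 0 := by
  unfold TT
  refine Finset.sum_eq_zero fun l _ => Finset.sum_eq_zero fun l' _ => ?_
  rw [mul_zero]

private theorem r4_sum (D n : ℕ) (k : ℕ) (g : ℕ → V D → ℝ≥0∞) (u : V D) :
    TT D n (fun v => ∑ j ∈ Finset.range k, g j v) u = ∑ j ∈ Finset.range k, TT D n (g j) u := by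
  induction k with
  | zero =>
    simp only [Finset.range_zero, Finset.sum_empty]
    exact r4_zero D n u
  | succ k ih =>
    simp only [Finset.sum_range_succ]
    rw [r4_add, ih]

private theorem r4_mono (D n : ℕ) {f g : V D → ℝ≥0∞} (h : ∀ v, f v ≤ g v) (u : V D) :
    TT D n f u ≤ TT D n g u := by
  unfold TT
  refine Finset.sum_le_sum fun l _ => Finset.sum_le_sum fun l' _ => ?_
  exact mul_le_mul_right (h _) _

private theorem r4_const (D n : ℕ) (c : ℝ≥0∞) {f : V D → ℝ≥0∞} (h : ∀ v, f v ≤ c) (u : V D) :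
    TT D n f u ≤ qn D n ^ 2 * c := by
  refine le_trans (r4_mono D n (g := fun _ => c) h u) (le_of_eq ?_)
  unfold TT qn
  simp only [Finset.sum_const, nsmul_eq_mul]
  ring

private theorem r4_iter (D n : ℕ) (c : ℝ≥0∞) {f : V D → ℝ≥0∞} (h : ∀ v, f v ≤ c) (k : ℕ) (u : V D) :
    (TT D n)^[k] f u ≤ qn D n ^ (2 * k) * c := by
  induction k generalizing u with
  | zero =>
    rw [mul_zero, pow_zero, one_mul]
    exact h u
  | succ k ih =>
    rw [Function.iterate_succ_apply']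
    refine le_trans (r4_const D n _ ih u) (le_of_eq ?_)
    ring

private theorem r4_main (D n : ℕ) (W C1 : ℝ≥0∞) (T : ℕ → ℝ≥0∞)
    (A : ℕ → (Fin D → ℤ) → ℝ≥0∞) (hK : Kern D n W C1 T A) (k : ℕ) (u : V D) :
    A k u ≤ W ^ (2 * k) * (TT D n)^[k] (A 0) u + ∑ j ∈ Finset.range k,
      W ^ (2 * j) * (C1 * (T (k - 1 - j) + ⨆ v, A (k - 1 - j) v)) * (TT D n)^[j] (sfun D n) u := by
  induction k generalizing u with
  | zero => simp
  | succ k ih =>
    refine le_trans (hK.kA k u) ?_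
    have h1 : (∑ l ∈ inj D n, ∑ l' ∈ inj D n, dw D n ^ 2 * A k (u + sumv l - sumv l'))
        ≤ W ^ (2 * k) * (TT D n)^[k + 1] (A 0) u + ∑ j ∈ Finset.range k,
          W ^ (2 * j) * (C1 * (T (k - 1 - j) + ⨆ v, A (k - 1 - j) v)) * (TT D n)^[j + 1] (sfun D n) u := by
      change TT D n (A k) u ≤ _
      refine le_trans (r4_mono D n ih u) (le_of_eq ?_)
      rw [r4_add, r4_smul, r4_sum, Function.iterate_succ_apply']
      refine congrArg _ (Finset.sum_congr rfl fun j _ => ?_)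
      rw [r4_smul, Function.iterate_succ_apply']
    refine le_trans (add_le_add (mul_le_mul_right h1 _) le_rfl) (le_of_eq ?_)
    rw [Finset.sum_range_succ', mul_add, Finset.mul_sum, add_assoc]
    refine congrArg₂ _ (by ring) (congrArg₂ _ (Finset.sum_congr rfl fun j _ => ?_) ?_)
    · have e : k + 1 - 1 - (j + 1) = k - 1 - j := by omega
      rw [e]
      ring
    · simp only [Function.iterate_zero, id_eq, mul_zero, pow_zero, one_mul, Nat.add_sub_cancel, Nat.sub_zero]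
      ring

theorem kern_unroll (D n : ℕ) (hD : 1 ≤ D) (hn : n ≤ D) (W C1 : ℝ≥0∞) (T : ℕ → ℝ≥0∞)
    (A : ℕ → (Fin D → ℤ) → ℝ≥0∞) (hK : Kern D n W C1 T A) (a : ℝ≥0∞) (ha : ∀ u, A 0 u ≤ a)
    (e : ℕ → ℝ≥0∞) (he : ∀ (j : ℕ) (u : V D), (TT D n)^[j] (sfun D n) u ≤ qn D n ^ (2 * j) * e j)
    (k : ℕ) (u : V D) :
    A k u ≤ (W * qn D n) ^ (2 * k) * a + ∑ j ∈ Finset.range k,
      (W * qn D n) ^ (2 * j) * (C1 * e j * (T (k - 1 - j) + ⨆ v, A (k - 1 - j) v)) := by
  refine le_trans (r4_main D n W C1 T A hK k u) (add_le_add ?_ (Finset.sum_le_sum fun j _ => ?_))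
  · refine le_trans (mul_le_mul_right (r4_iter D n a ha k u) _) (le_of_eq ?_)
    rw [mul_pow]
    ring
  · refine le_trans (mul_le_mul_right (he j u) _) (le_of_eq ?_)
    rw [mul_pow]
    ring

end FDr
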