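import Pool.Agent.Lib.MP_e029a2_pr.R1
import Pool.Agent.Lib.MP_e029a2_pr.R2
import Pool.Agent.Lib.MP_e029a2_pr.R3
import Pool.Agent.Lib.MP_e029a2_pr.R4
import Pool.Agent.Lib.MP_e029a2_pr.W2

/-!
# Job R5: (AN1)

Let `c1 = C1` (real), `W > 4` (real).  `Q = c1 + 1`, `ε = 1/(64 (c1+1) Q)`.
Choose `D0` such that for `D ≥ D0`: `q = qn D n ≥ 9/10` (`wc_ge`, `qn_eq`), `D ≥ n`, `c1/D ≤ 1/10`,
and the sequence `e` of `sfun_decay` for `ε`.  Let `z = W q ≥ 3.6 > 1`.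
Normalise: `t_k = T k / z^(2k)`, `a_k = (⨆ u, A k u)/z^(2k)`.  From `kT`:
`t_{k+1} ≤ (z + c1/D)/z² t_k + (c1/z²) a_k ≤ (1/2) t_k + Q a_k`.
From `kern_unroll`: `a_k ≤ a_0 + ∑_{j<k} (c1/z²) e_j (t_{k-1-j} + a_{k-1-j})`.
Let `y_k = max (a_k) (t_k/(4Q))` (or carry a majorant sequence).  Then `t_k ≤ 4Q y_k`, `a_k ≤ y_k`,
`t_{k+1}/(4Q) ≤ (1/2) y_k + (1/4) y_k = (3/4) y_k` and
`a_k ≤ a_0 + ∑ c1 e_j (4Q+1) y_{k-1-j}`; so `y_k ≤ p_k + ∑_{j<k} b_j y_{k-1-j}` with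
`b_j = c1 (4Q+1) e_j + (if j = 0 then 3/4 else 0)`, `∑ b_j ≤ 3/4 + c1 (4Q+1) ε ≤ 7/8`,
`p_k = a0` for `k ≥ 1` and `p_0 = max a0 (t0/(4Q)) ≤ a0 + t0`.
By linearity: let `Y¹` solve `Y¹_k = a0 + ∑ b_j Y¹_{k-1-j}` and `Y²` solve `Y²_k = t0 1_{k=0} + ∑ b_j Y²_{k-1-j}`
(recursive definitions), then `y_k ≤ Y¹_k + Y²_k` (strong induction), `Y¹ ≤ 8 a0` (`renewal_bdd`),
`Y² ≤ C t0 ph D k` (`renewal_decay`, `b_j ≤ B' ph D j`, with `b_0 ≤ B' = B' ph D 0`).
So `T k ≤ z^(2k) 4Q (8 a0 + C t0 ph D k)`.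
It is best to prove by strong induction directly in `ℝ≥0∞`:
`T k ≤ z^(2k) ofReal (4Q (Y¹_k + Y²_k))` and `∀ u, A k u ≤ z^(2k) ofReal (Y¹_k + Y²_k)`.
-/

set_option autoImplicit false

namespace FDr

open MeasureTheory
open scoped ENNReal

open scoped NNReal

/-- The solution of the renewal equation. -/
private noncomputable def R5_Y (p b : ℕ → ℝ) : ℕ → ℝ
  | N => p N + ∑ j : Fin N, b j * R5_Y p b (N - 1 - j)
termination_by N => N
decreasing_by
  have := j.2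
  omega

private theorem R5_Y_eq (p b : ℕ → ℝ) (N : ℕ) :
    R5_Y p b N = p N + ∑ j ∈ Finset.range N, b j * R5_Y p b (N - 1 - j) := by
  rw [R5_Y, Finset.sum_range (fun j => b j * R5_Y p b (N - 1 - j))]

private theorem R5_Y_nonneg (p b : ℕ → ℝ) (hp : ∀ j, 0 ≤ p j) (hb : ∀ j, 0 ≤ b j) (N : ℕ) : 0 ≤ R5_Y p b N := by
  induction N using Nat.strong_induction_on with
  | _ N ih =>
    rw [R5_Y_eq]
    refine add_nonneg (hp N) (Finset.sum_nonneg fun j hj => mul_nonneg (hb j) (ih _ ?_))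
    have := Finset.mem_range.1 hj
    omega

/-- The estimate of the step for `T`. -/
private theorem R5_num {z Q c1 x y y' : ℝ} (hz : 18 / 5 ≤ z) (hQ : Q = c1 + 1) (hc : 0 ≤ c1) (hx : x ≤ 1 / 10)
    (hy : 0 ≤ y) (hy' : 3 / 4 * y ≤ y') : (z + x) * (4 * Q * y) + c1 * y ≤ z ^ 2 * (4 * Q * y') := by
  have hQ1 : 1 ≤ Q := by linarith
  have h1 : (z + x) * (4 * Q * y) ≤ (z + 1 / 10) * (4 * Q * y) := by
    apply mul_le_mul_of_nonneg_right (by linarith)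
    positivity
  have h2 : c1 * y ≤ Q * y := mul_le_mul_of_nonneg_right (by linarith) hy
  have h3 : z ^ 2 * (4 * Q * (3 / 4 * y)) ≤ z ^ 2 * (4 * Q * y') := by
    apply mul_le_mul_of_nonneg_left _ (by positivity)
    apply mul_le_mul_of_nonneg_left hy' (by positivity)
  have h4 : 0 ≤ Q * y := by positivity
  have h5 : 0 ≤ 3 * z ^ 2 - 4 * z - 7 / 5 := by nlinarith
  have h6 : 0 ≤ (3 * z ^ 2 - 4 * z - 7 / 5) * (Q * y) := mul_nonneg h5 h4
  have h7 : z ^ 2 * (4 * Q * (3 / 4 * y)) - ((z + 1 / 10) * (4 * Q * y) + Q * y) = (3 * z ^ 2 - 4 * z - 7 / 5) * (Q * y) := by ring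
  linarith

/-- Induction in the real numbers for the two kernels. -/
private theorem R5_ind {D n : ℕ} (hD : 1 ≤ D) (hnD : n ≤ D) {W C1 : ℝ≥0} {T : ℕ → ℝ≥0∞} {A : ℕ → (Fin D → ℤ) → ℝ≥0∞}
    {z c1 Q t0 a0 : ℝ} (hz : 18 / 5 ≤ z) (hc1 : 0 ≤ c1) (hC1 : (C1 : ℝ≥0∞) = ENNReal.ofReal c1) (hQ : Q = c1 + 1)
    (hWz : (W : ℝ≥0∞) * qn D n = ENNReal.ofReal z) (hcD : c1 / D ≤ 1 / 10) (ht0 : 0 ≤ t0) (ha0 : 0 ≤ a0)
    (hK : Kern D n W C1 T A) (hT0 : T 0 ≤ ENNReal.ofReal t0) (hA0 : ∀ u, A 0 u ≤ ENNReal.ofReal a0)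
    {e b : ℕ → ℝ} (he0 : ∀ j, 0 ≤ e j)
    (he : ∀ (j : ℕ) (u : V D), (TT D n)^[j] (sfun D n) u ≤ qn D n ^ (2 * j) * ENNReal.ofReal (e j))
    (hb0 : ∀ j, c1 * (4 * Q + 1) * e j ≤ b j) (hb1 : 3 / 4 ≤ b 0) {Y : ℕ → ℝ} (hY0 : ∀ k, 0 ≤ Y k)
    (hY : ∀ k, a0 + ∑ j ∈ Finset.range k, b j * Y (k - 1 - j) ≤ Y k) (hYt : a0 + t0 ≤ Y 0) (k : ℕ) :
    T k ≤ ENNReal.ofReal (z ^ (2 * k) * (4 * Q * Y k)) ∧ ∀ u, A k u ≤ ENNReal.ofReal (z ^ (2 * k) * Y k) := by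
  have hz0 : 0 ≤ z := by linarith
  have hz1 : 1 ≤ z := by linarith
  have hQ1 : 1 ≤ Q := by linarith
  have hbn : ∀ j, 0 ≤ b j := fun j => le_trans (mul_nonneg (by positivity) (he0 j)) (hb0 j)
  induction k using Nat.strong_induction_on with
  | _ k ih =>
    constructor
    · -- the bound for `T`
      rcases Nat.eq_zero_or_pos k with rfl | hk
      · refine hT0.trans (ENNReal.ofReal_le_ofReal ?_)
        rw [Nat.mul_zero, pow_zero, one_mul]
        have h1 : Y 0 ≤ 4 * Q * Y 0 := by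
          have := hY0 0
          nlinarith
        linarith
      · obtain ⟨k, rfl⟩ : ∃ k', k = k' + 1 := ⟨k - 1, by omega⟩
        obtain ⟨h1, h2⟩ := ih k (Nat.lt_succ_self k)
        have h3 : (⨆ u, A k u) ≤ ENNReal.ofReal (z ^ (2 * k) * Y k) := iSup_le h2
        have h4 : (C1 : ℝ≥0∞) / D = ENNReal.ofReal (c1 / D) := by
          rw [hC1, ENNReal.ofReal_div_of_pos (by exact_mod_cast hD), ENNReal.ofReal_natCast]
        have hzk : 0 ≤ z ^ (2 * k) := pow_nonneg hz0 _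
        have hx0 : 0 ≤ c1 / D := by positivity
        have hYk := hY0 k
        have hy1 : 0 ≤ z ^ (2 * k) * (4 * Q * Y k) := by positivity
        have hy2 : 0 ≤ z ^ (2 * k) * Y k := by positivity
        refine (hK.kT k).trans ?_
        rw [hWz, h4]
        refine (add_le_add (mul_le_mul_right h1 _) (mul_le_mul_right h3 _)).trans ?_
        rw [hC1, ← ENNReal.ofReal_add hz0 hx0, ← ENNReal.ofReal_mul (by linarith), ← ENNReal.ofReal_mul hc1,
          ← ENNReal.ofReal_add (by positivity) (by positivity)]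
        apply ENNReal.ofReal_le_ofReal
        have h5 : 3 / 4 * Y k ≤ Y (k + 1) := by
          have h6 := hY (k + 1)
          have h7 : b 0 * Y (k + 1 - 1 - 0) ≤ ∑ j ∈ Finset.range (k + 1), b j * Y (k + 1 - 1 - j) :=
            Finset.single_le_sum (f := fun j => b j * Y (k + 1 - 1 - j)) (fun j _ => mul_nonneg (hbn j) (hY0 _))
              (Finset.mem_range.2 (Nat.succ_pos k))
          have h8 : k + 1 - 1 - 0 = k := by omega
          rw [h8] at h7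
          have h9 : 3 / 4 * Y k ≤ b 0 * Y k := mul_le_mul_of_nonneg_right hb1 hYk
          linarith
        have h6 := R5_num hz hQ hc1 hcD hYk h5
        calc (z + c1 / D) * (z ^ (2 * k) * (4 * Q * Y k)) + c1 * (z ^ (2 * k) * Y k)
            = z ^ (2 * k) * ((z + c1 / D) * (4 * Q * Y k) + c1 * Y k) := by ring
          _ ≤ z ^ (2 * k) * (z ^ 2 * (4 * Q * Y (k + 1))) := mul_le_mul_of_nonneg_left h6 hzk
          _ = z ^ (2 * (k + 1)) * (4 * Q * Y (k + 1)) := by ring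
    · -- the bound for `A`
      intro u
      refine (kern_unroll D n hD hnD W C1 T A hK _ hA0 (fun j => ENNReal.ofReal (e j)) he k u).trans ?_
      rw [hWz, hC1]
      have h1 : ∀ j ∈ Finset.range k, ENNReal.ofReal z ^ (2 * j) *
          (ENNReal.ofReal c1 * ENNReal.ofReal (e j) * (T (k - 1 - j) + ⨆ v, A (k - 1 - j) v)) ≤
          ENNReal.ofReal (z ^ (2 * k) * (b j * Y (k - 1 - j))) := by
        intro j hj
        have hj' := Finset.mem_range.1 hj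
        obtain ⟨h2, h3⟩ := ih (k - 1 - j) (by omega)
        have h4 : (⨆ u, A (k - 1 - j) u) ≤ ENNReal.ofReal (z ^ (2 * (k - 1 - j)) * Y (k - 1 - j)) := iSup_le h3
        have hYk := hY0 (k - 1 - j)
        have hej := he0 j
        refine (mul_le_mul_right (mul_le_mul_right (add_le_add h2 h4) _) _).trans ?_
        rw [← ENNReal.ofReal_add (by positivity) (by positivity), ← ENNReal.ofReal_mul hc1, ← ENNReal.ofReal_mul (by positivity),
          ← ENNReal.ofReal_pow hz0, ← ENNReal.ofReal_mul (by positivity)]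
        apply ENNReal.ofReal_le_ofReal
        have h5 : z ^ (2 * j) * (c1 * e j * (z ^ (2 * (k - 1 - j)) * (4 * Q * Y (k - 1 - j)) + z ^ (2 * (k - 1 - j)) * Y (k - 1 - j))) =
            z ^ (2 * j + 2 * (k - 1 - j)) * ((c1 * (4 * Q + 1) * e j) * Y (k - 1 - j)) := by
          rw [pow_add]
          ring
        rw [h5]
        have h6 : (c1 * (4 * Q + 1) * e j) * Y (k - 1 - j) ≤ b j * Y (k - 1 - j) := mul_le_mul_of_nonneg_right (hb0 j) hYk
        have h7 : z ^ (2 * j + 2 * (k - 1 - j)) ≤ z ^ (2 * k) := pow_le_pow_right₀ hz1 (by omega)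
        exact mul_le_mul h7 h6 (by positivity) (by positivity)
      refine (add_le_add le_rfl (Finset.sum_le_sum h1)).trans ?_
      rw [← ENNReal.ofReal_sum_of_nonneg (fun j _ => mul_nonneg (pow_nonneg hz0 _) (mul_nonneg (hbn j) (hY0 _))),
        ← ENNReal.ofReal_pow hz0, ← ENNReal.ofReal_mul (pow_nonneg hz0 _),
        ← ENNReal.ofReal_add (mul_nonneg (pow_nonneg hz0 _) ha0)
          (Finset.sum_nonneg fun j _ => mul_nonneg (pow_nonneg hz0 _) (mul_nonneg (hbn j) (hY0 _)))]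
      apply ENNReal.ofReal_le_ofReal
      rw [← Finset.mul_sum, ← mul_add]
      exact mul_le_mul_of_nonneg_left (hY k) (pow_nonneg hz0 _)

theorem an1' (n : ℕ) (hn : 4 ≤ n) (W C1 : ℝ≥0) (hW : 4 < W) : ∃ D0 : ℕ, ∀ D : ℕ, D0 ≤ D → ∃ C : ℝ, 0 < C ∧
    ∀ (T : ℕ → ℝ≥0∞) (A : ℕ → (Fin D → ℤ) → ℝ≥0∞) (t0 a0 : ℝ), 0 ≤ t0 → 0 ≤ a0 → Kern D n W C1 T A →
      T 0 ≤ ENNReal.ofReal t0 → (∀ u, A 0 u ≤ ENNReal.ofReal a0) →
      ∀ k, T k ≤ ((W : ℝ≥0∞) * qn D n) ^ (2 * k) * ENNReal.ofReal (C * (a0 + t0 * ph D k)) := by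
  set c1 : ℝ := (C1 : ℝ) with hc1def
  have hc1 : 0 ≤ c1 := C1.2
  set Q : ℝ := c1 + 1 with hQdef
  have hQ1 : 1 ≤ Q := by linarith
  have hQ0 : 0 < Q := by linarith
  set ε : ℝ := 1 / (64 * (c1 + 1) * Q) with hεdef
  have hε : 0 < ε := by positivity
  obtain ⟨Da, hDa⟩ := sfun_decay n (by omega) ε hε
  obtain ⟨Db, hDb⟩ := wc_ge n (1 / 10) (by norm_num)
  obtain ⟨Dc, hDc⟩ := exists_nat_ge (10 * c1)
  refine ⟨Da + Db + Dc + n + 1, fun D hD => ?_⟩
  obtain ⟨e, B, hB, he0, heB, hes, heT⟩ := hDa D (by omega)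
  have hD1 : 1 ≤ D := by omega
  have hDR : (0 : ℝ) < D := by exact_mod_cast hD1
  have hnD : n ≤ D := by omega
  have hcD : c1 / D ≤ 1 / 10 := by
    rw [div_le_iff₀ hDR]
    have h1 : (Dc : ℝ) ≤ D := by exact_mod_cast (by omega : Dc ≤ D)
    linarith
  -- the number `z`
  set z : ℝ := (W : ℝ) * ((wc n D : ℝ) / (2 * (D : ℝ)) ^ n) with hzdef
  have hW' : (4 : ℝ) < W := by exact_mod_cast hW
  have hz : 18 / 5 ≤ z := by
    have h1 := hDb D (by omega)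
    have h2 : 0 < (2 * (D : ℝ)) ^ n := by positivity
    have h3 : 9 / 10 ≤ (wc n D : ℝ) / (2 * (D : ℝ)) ^ n := by
      rw [le_div_iff₀ h2]
      linarith
    rw [hzdef]
    nlinarith
  have hz0 : 0 ≤ z := by linarith
  have hWz : (W : ℝ≥0∞) * qn D n = ENNReal.ofReal z := by
    rw [qn_eq D n hD1, hzdef, ENNReal.ofReal_mul (NNReal.coe_nonneg W), ENNReal.ofReal_coe_nnreal]
  -- the sequence `b`
  set b : ℕ → ℝ := fun j => c1 * (4 * Q + 1) * e j + (if j = 0 then 3 / 4 else 0) with hbdef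
  have hb : ∀ j, 0 ≤ b j := by
    intro j
    have h1 : 0 ≤ c1 * (4 * Q + 1) * e j := mul_nonneg (by positivity) (he0 j)
    rw [hbdef]
    show 0 ≤ c1 * (4 * Q + 1) * e j + (if j = 0 then 3 / 4 else 0)
    split_ifs <;> linarith
  have hbs : ∀ N, ∑ j ∈ Finset.range N, b j ≤ 7 / 8 := by
    intro N
    have h1 : ∑ j ∈ Finset.range N, b j = c1 * (4 * Q + 1) * (∑ j ∈ Finset.range N, e j) +
        ∑ j ∈ Finset.range N, (if j = 0 then (3 / 4 : ℝ) else 0) := by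
      rw [hbdef, Finset.sum_add_distrib, ← Finset.mul_sum]
    have h2 : ∑ j ∈ Finset.range N, (if j = 0 then (3 / 4 : ℝ) else 0) ≤ 3 / 4 := by
      rw [Finset.sum_ite_eq']
      split_ifs <;> norm_num
    have h3 : c1 * (4 * Q + 1) * (∑ j ∈ Finset.range N, e j) ≤ c1 * (4 * Q + 1) * ε :=
      mul_le_mul_of_nonneg_left (hes N) (by positivity)
    have h4 : c1 * (4 * Q + 1) * ε ≤ 1 / 8 := by
      rw [hεdef, mul_one_div, div_le_iff₀ (by positivity)]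
      nlinarith
    linarith
  have hbB : ∀ j, b j ≤ (c1 * (4 * Q + 1) * B + 3 / 4) * ph D j := by
    intro j
    have h0 : 0 ≤ ph D j := by
      unfold ph
      positivity
    have h1 : c1 * (4 * Q + 1) * e j ≤ c1 * (4 * Q + 1) * (B * ph D j) := mul_le_mul_of_nonneg_left (heB j) (by positivity)
    have h2 : (if j = 0 then (3 / 4 : ℝ) else 0) ≤ 3 / 4 * ph D j := by
      split_ifs with h
      · subst h
        have h3 : ph D 0 = 1 := by
          unfold ph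
          simp
        rw [h3, mul_one]
      · positivity
    rw [hbdef]
    show c1 * (4 * Q + 1) * e j + (if j = 0 then 3 / 4 else 0) ≤ _
    linarith
  obtain ⟨C2, hC2, hdec⟩ := renewal_decay D (c1 * (4 * Q + 1) * B + 3 / 4) (by positivity) b hb hbB hbs
  refine ⟨4 * Q * (8 + C2), by positivity, ?_⟩
  intro T A t0 a0 ht0 ha0 hK hT0 hA0 k
  -- the majorants
  set Y1 : ℕ → ℝ := R5_Y (fun _ => a0) b with hY1
  set Y2 : ℕ → ℝ := R5_Y (fun N => if N = 0 then t0 else 0) b with hY2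
  have hY1n : ∀ k, 0 ≤ Y1 k := R5_Y_nonneg _ _ (fun _ => ha0) hb
  have hY2n : ∀ k, 0 ≤ Y2 k := R5_Y_nonneg _ _ (fun j => by
    show 0 ≤ (if j = 0 then t0 else 0)
    split_ifs
    · exact ht0
    · exact le_rfl) hb
  have hY1e : ∀ N, Y1 N = a0 + ∑ j ∈ Finset.range N, b j * Y1 (N - 1 - j) := fun N => R5_Y_eq _ _ N
  have hY2e : ∀ N, Y2 N = (if N = 0 then t0 else 0) + ∑ j ∈ Finset.range N, b j * Y2 (N - 1 - j) := fun N => R5_Y_eq _ _ N
  have h1 := (R5_ind hD1 hnD hz hc1 (ENNReal.ofReal_coe_nnreal (p := C1)).symm hQdef hWz hcD ht0 ha0 hK hT0 hA0 he0 heT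
    (b := b) (Y := fun N => Y1 N + Y2 N)
    (fun j => by
      show c1 * (4 * Q + 1) * e j ≤ c1 * (4 * Q + 1) * e j + (if j = 0 then 3 / 4 else 0)
      split_ifs <;> linarith)
    (by
      have h2 : 0 ≤ c1 * (4 * Q + 1) * e 0 := mul_nonneg (by positivity) (he0 0)
      show 3 / 4 ≤ c1 * (4 * Q + 1) * e 0 + (if 0 = 0 then 3 / 4 else 0)
      rw [if_pos rfl]
      linarith)
    (fun k => add_nonneg (hY1n k) (hY2n k))
    (fun N => by
      have h2 : ∑ j ∈ Finset.range N, b j * (Y1 (N - 1 - j) + Y2 (N - 1 - j)) =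
          ∑ j ∈ Finset.range N, b j * Y1 (N - 1 - j) + ∑ j ∈ Finset.range N, b j * Y2 (N - 1 - j) := by
        rw [← Finset.sum_add_distrib]
        exact Finset.sum_congr rfl fun j _ => mul_add _ _ _
      show a0 + ∑ j ∈ Finset.range N, b j * (Y1 (N - 1 - j) + Y2 (N - 1 - j)) ≤ Y1 N + Y2 N
      rw [h2, hY1e N, hY2e N]
      have h3 : (0 : ℝ) ≤ if N = 0 then t0 else 0 := by
        split_ifs
        · exact ht0
        · exact le_rfl
      linarith)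
    (by
      show a0 + t0 ≤ Y1 0 + Y2 0
      rw [hY1e 0, hY2e 0]
      simp)
    k).1
  have h2 : Y1 k ≤ 8 * a0 := renewal_bdd b hb hbs a0 ha0 Y1 (fun N => (hY1e N).le) k
  have h3 : Y2 k ≤ C2 * t0 * ph D k := hdec t0 ht0 Y2 hY2n (fun N => (hY2e N).le) k
  refine h1.trans ?_
  rw [hWz, ← ENNReal.ofReal_pow hz0, ← ENNReal.ofReal_mul (pow_nonneg hz0 _)]
  apply ENNReal.ofReal_le_ofReal
  apply mul_le_mul_of_nonneg_left _ (pow_nonneg hz0 _)
  have h0 : 0 ≤ ph D k := by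
    unfold ph
    positivity
  show 4 * Q * (Y1 k + Y2 k) ≤ _
  have h4 : 4 * Q * (Y1 k + Y2 k) ≤ 4 * Q * (8 * a0 + C2 * t0 * ph D k) := mul_le_mul_of_nonneg_left (add_le_add h2 h3) (by positivity)
  refine h4.trans ?_
  have h5 : 0 ≤ t0 * ph D k := mul_nonneg ht0 h0
  have h6 : 4 * Q * (8 + C2) * (a0 + t0 * ph D k) - 4 * Q * (8 * a0 + C2 * t0 * ph D k) = 4 * Q * (C2 * a0 + 8 * (t0 * ph D k)) := by ring
  have h7 : 0 ≤ 4 * Q * (C2 * a0 + 8 * (t0 * ph D k)) := by positivity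
  linarith

end FDr
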