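import Pool.Agent.Lib.MP_e029a2_pr.SFut

/-!
# The first common line of two chains with distinct first frogs
-/

set_option autoImplicit false

namespace FDr

variable {D : ℕ} {w α : Set.Ioo (0 : ℝ) 1} {m : Mac w α} {B : Finset (Fin D → ℤ)} {σ σ' : St D} {l l' : List (Mic D)}

theorem cho_mem_U1 (h : Chn m B σ l) {t : ℕ} : cho (st σ l t) (kd l t) ∈ U1 m.L (st σ l t) (kd l t) := by
  cases hk : kd l t with
  | none => exact Or.inl rfl
  | some r =>
    refine Or.inr ⟨Option.some_ne_none r, rfl, rfl, ?_⟩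
    show |(st σ l t).2.1 + r - (st σ l t).2.1| ≤ (m.L : ℤ)
    rw [add_sub_cancel_left]
    exact ml_rL h.ml hk

theorem mem_cc_take (h : Chn m B σ l) (a : ℕ) (ha : a ≤ m.n) (p : Site D × ℕ) :
    p ∈ cc σ (l.take a) ↔ ∃ t, t < a ∧ p = cho (st σ l t) (kd l t) := by
  have hln := ml_len m h.ml
  rw [mem_cc]
  constructor
  · rintro ⟨t, h1, h2⟩
    have h3 : t < a := by
      rw [List.length_take] at h1
      omega
    refine ⟨t, h3, ?_⟩
    rw [kd_get l t (by omega)]
    rw [List.getElem_take] at h2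
    unfold st at h2 ⊢
    rw [List.take_take, min_eq_left h3.le] at h2
    exact h2
  · rintro ⟨t, h1, h2⟩
    have h3 : t < (l.take a).length := by
      rw [List.length_take]
      omega
    refine ⟨t, h3, ?_⟩
    rw [kd_get l t (by omega)] at h2
    rw [List.getElem_take]
    unfold st at h2 ⊢
    rw [List.take_take, min_eq_left h1.le]
    exact h2

/-- the chosen cells of a long step are distinct -/
theorem cho_ne (h : Chn m B σ l) {s t : ℕ} (hs : s < m.n) (ht : t < m.n) (hst : s ≠ t) :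
    cho (st σ l s) (kd l s) ≠ cho (st σ l t) (kd l t) := by
  intro he
  have h1 := cho_mem_U1 h (t := s)
  rw [he] at h1
  exact Set.disjoint_left.1 (h.U1_disj hs ht hst) h1 (cho_mem_U1 h)

/-- the chosen cells of a long step are distinct -/
theorem cc_nodup (h : Chn m B σ l) (a : ℕ) (ha : a ≤ m.n) : (cc σ (l.take a)).Nodup := by
  have hln := ml_len m h.ml
  induction a with
  | zero =>
    rw [List.take_zero]
    exact List.nodup_nil
  | succ a ih =>
    rw [List.take_succ_eq_append_getElem (by omega), cc_append]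
    have h1 : cc (endS σ (l.take a)) [l[a]] = [cho (st σ l a) (kd l a)] := by
      rw [kd_get l a (by omega)]
      rfl
    rw [h1, List.nodup_append]
    refine ⟨ih (by omega), List.nodup_singleton _, ?_⟩
    intro p hp q hq
    rw [List.mem_singleton] at hq
    obtain ⟨t, h2, h3⟩ := (mem_cc_take h a (by omega) p).1 hp
    rw [hq, h3]
    exact cho_ne h (by omega) (by omega) (by omega)

/-- chosen cells of two chains with distinct first frogs and without a common line before -/
theorem cho_ne' (h : Chn m B σ l) (h' : Chn m B σ' l') (he : σ.2.1 = σ'.2.1) (hp : σ.1.1 ≠ σ'.1.1) {a : ℕ}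
    (ha : ∀ t s, 1 ≤ t → t < a → 1 ≤ s → s < m.n → (st σ l t).2.2 ≠ (st σ' l' s).2.2) {t s : ℕ} (ht : t < a)
    (han : a ≤ m.n) (hs : s < m.n) : cho (st σ l t) (kd l t) ≠ cho (st σ' l' s) (kd l' s) := by
  intro h0
  cases hk : kd l t with
  | none =>
    rw [hk] at h0
    cases hk' : kd l' s with
    | none =>
      rw [hk'] at h0
      have h1 : (st σ l t).1 = (st σ' l' s).1 := h0
      rcases h.own (show t ≤ m.n by omega) with ⟨h2, h3⟩ | ⟨h2, h2', h2'', a1, r, h3, h4, h5, h6, h7⟩
      · rcases h'.own hs.le with ⟨g2, g3⟩ | ⟨g2, g2', g2'', _⟩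
        · rw [h3, g3] at h1
          exact hp (Prod.mk.inj h1).1
        · rw [← he] at g2'
          refine h.ne_init g2' g2'' ?_
          rw [← h1, h3]
      · rcases h'.own hs.le with ⟨g2, g3⟩ | ⟨g2, g2', g2'', b1, r', g3, g4, g5, g6, g7⟩
        · rw [he] at h2'
          refine h'.ne_init h2' h2'' ?_
          rw [h1, g3]
        · rw [h7, g7] at h1
          exact ha a1 b1 h3 (by omega) g3 (by omega) (congrArg (fun q : Site D × ℕ => q.1.2) h1)
    | some r' =>
      rw [hk'] at h0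
      have h1 := h.own_phase (show t ≤ m.n by omega)
      have h2 : (st σ l t).1.2 = 0 := congrArg Prod.snd h0
      omega
  | some r =>
    rw [hk] at h0
    cases hk' : kd l' s with
    | none =>
      rw [hk'] at h0
      have h1 := h'.own_phase hs.le
      have h2 : 0 = (st σ' l' s).1.2 := congrArg Prod.snd h0
      omega
    | some r' =>
      rw [hk'] at h0
      have h1 := h.kd_range (show kd l t ≠ none by rw [hk]; exact Option.some_ne_none r)
      have h2 := h'.kd_range (show kd l' s ≠ none by rw [hk']; exact Option.some_ne_none r')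
      exact ha t s h1.1 ht h2.1 hs (congrArg (fun q : Site D × ℕ => q.1.2) h0)

theorem first_meet (h : Chn m B σ l) (h' : Chn m B σ' l') (he : σ.2.1 = σ'.2.1) (hp : σ.1.1 ≠ σ'.1.1)
    (hm : ∃ a b, 1 ≤ a ∧ a < m.n ∧ 1 ≤ b ∧ b < m.n ∧ (st σ l a).2.2 = (st σ' l' b).2.2) :
    ∃ a b, 1 ≤ a ∧ a ≤ m.n ∧ 1 ≤ b ∧ b ≤ m.n ∧ σ.2.2 + vsum (l.take a) = σ'.2.2 + vsum (l'.take b) ∧
      (cc σ (l.take a) ++ cc σ' (l'.take b)).Nodup := by
  classical
  have h1 := Nat.find_spec hm
  obtain ⟨b, h2, h3, h4, h5, h6⟩ := h1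
  refine ⟨Nat.find hm, b, h2, h3.le, h4, h5.le, ?_, ?_⟩
  · rw [← st_line, ← st_line]
    exact h6
  · rw [List.nodup_append]
    refine ⟨cc_nodup h _ h3.le, cc_nodup h' b h5.le, ?_⟩
    intro p hpp q hq
    obtain ⟨t, h7, h8⟩ := (mem_cc_take h _ h3.le p).1 hpp
    obtain ⟨s, h9, h10⟩ := (mem_cc_take h' b h5.le q).1 hq
    rw [h8, h10]
    refine cho_ne' h h' he hp (a := Nat.find hm) (fun t s ht1 ht2 hs1 hs2 h11 => ?_) h7 h3.le (by omega)
    exact Nat.find_min hm ht2 ⟨s, ht1, ht2.trans h3, hs1, hs2, h11⟩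

end FDr
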