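import Pool.Agent.Lib.MP_e029a2_pr.SCA

/-!
# The first common line after the separation of two chains from one state
-/

set_option autoImplicit false

namespace FDr

variable {D : ℕ} {w α : Set.Ioo (0 : ℝ) 1} {m : Mac w α} {B : Finset (Fin D → ℤ)} {σ : St D} {l l' : List (Mic D)}

/-- the chosen cells after the separation are distinct -/
theorem cho_ne_sep (h : Chn m B σ l) (h' : Chn m B σ l') {i a : ℕ} (hia : i < a) (han : a ≤ m.n)
    (hti : l.take i = l'.take i) (hk : kd l i ≠ kd l' i)
    (hmin : ∀ t, i < t → t < a → (st σ l t).2.2 ≠ (st σ l' t).2.2) {t s : ℕ} (ht : t < a) (his : i ≤ s) (hs : s < a) :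
    cho (st σ l t) (kd l t) ≠ cho (st σ l' s) (kd l' s) := by
  have hln := ml_len m h.ml
  have hln' := ml_len m h'.ml
  have hst : ∀ t, t ≤ i → st σ l t = st σ l' t := by
    intro t ht
    have h1 : l.take t = l'.take t := by
      have h2 := congrArg (List.take t) hti
      rw [List.take_take, List.take_take, min_eq_left ht] at h2
      exact h2
    unfold st
    rw [h1]
  have hkd : ∀ t, t < i → kd l t = kd l' t := by
    intro t ht
    have h1 : (l.take i)[t]? = (l'.take i)[t]? := by rw [hti]
    rw [List.getElem?_take_of_lt ht, List.getElem?_take_of_lt ht] at h1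
    unfold kd
    rw [h1]
  have hline : ∀ t s, t ≤ m.n → s ≤ m.n → (st σ l t).2.2 = (st σ l' s).2.2 → t = s := by
    intro t s ht hs h1
    rw [st_line, st_line] at h1
    exact ml_line m h.ml h'.ml t s ht hs (add_left_cancel h1)
  intro h0
  by_cases hts : t = s
  · rw [hts] at h0 ht
    rcases eq_or_lt_of_le his with h1 | h1
    · -- both at the separation
      rw [← h1, ← hst i le_rfl] at h0
      cases h2 : kd l i with
      | none =>
        cases h3 : kd l' i with
        | none => exact hk (h2.trans h3.symm)
        | some r' =>
          rw [h2, h3] at h0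
          have h4 := h.own_phase (show i ≤ m.n by omega)
          have h5 : (st σ l i).1.2 = 0 := congrArg Prod.snd h0
          omega
      | some r =>
        cases h3 : kd l' i with
        | none =>
          rw [h2, h3] at h0
          have h4 := h.own_phase (show i ≤ m.n by omega)
          have h5 : 0 = (st σ l i).1.2 := congrArg Prod.snd h0
          omega
        | some r' =>
          rw [h2, h3] at h0
          have h4 : (st σ l i).2.1 + r = (st σ l i).2.1 + r' := congrArg (fun q : Site D × ℕ => q.1.1) h0
          refine hk ?_
          rw [h2, h3, add_left_cancel h4]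
    · -- the same index after the separation
      cases h2 : kd l s with
      | none =>
        cases h3 : kd l' s with
        | none =>
          rw [h2, h3] at h0
          have h4 : (st σ l s).1 = (st σ l' s).1 := h0
          rcases h.own (show s ≤ m.n by omega) with ⟨h5, h6⟩ | ⟨h5, h5', h5'', a1, r, h6, h7, h8, h9, h10⟩
          · rcases h'.own (show s ≤ m.n by omega) with ⟨g5, g6⟩ | ⟨g5, g5', g5'', _⟩
            · exact hk ((h5 i h1).trans (g5 i h1).symm)
            · refine h.ne_init g5' g5'' ?_
              rw [← h4, h6]
          · rcases h'.own (show s ≤ m.n by omega) with ⟨g5, g6⟩ | ⟨g5, g5', g5'', b1, r', g6, g7, g8, g9, g10⟩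
            · refine h'.ne_init h5' h5'' ?_
              rw [h4, g6]
            · rw [h10, g10] at h4
              have h11 := congrArg (fun q : Site D × ℕ => q.1.2) h4
              have h12 := hline a1 b1 (by omega) (by omega) h11
              subst h12
              rcases lt_trichotomy a1 i with h13 | h13 | h13
              · exact hk ((h9 i h13 h1).trans (g9 i h13 h1).symm)
              · rw [h13, ← hst i le_rfl] at h4
                have h14 : (st σ l i).2.1 + r = (st σ l i).2.1 + r' := congrArg (fun q : Site D × ℕ => q.1.1) h4
                refine hk ?_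
                rw [← h13, h8, g8, add_left_cancel h14]
              · exact hmin a1 h13 (by omega) h11
        | some r' =>
          rw [h2, h3] at h0
          have h4 := h.own_phase (show s ≤ m.n by omega)
          have h5 : (st σ l s).1.2 = 0 := congrArg Prod.snd h0
          omega
      | some r =>
        cases h3 : kd l' s with
        | none =>
          rw [h2, h3] at h0
          have h4 := h'.own_phase (show s ≤ m.n by omega)
          have h5 : 0 = (st σ l' s).1.2 := congrArg Prod.snd h0
          omega
        | some r' =>
          rw [h2, h3] at h0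
          exact hmin s h1 hs (congrArg (fun q : Site D × ℕ => q.1.2) h0)
  · rcases lt_or_ge t i with hti' | hti'
    · rw [hst t hti'.le, hkd t hti'] at h0
      exact cho_ne h' (by omega) (by omega) hts h0
    · cases h2 : kd l t with
      | none =>
        cases h3 : kd l' s with
        | none =>
          rw [h2, h3] at h0
          have h4 : (st σ l t).1 = (st σ l' s).1 := h0
          rcases h.own (show t ≤ m.n by omega) with ⟨h5, h6⟩ | ⟨h5, h5', h5'', a1, r, h6, h7, h8, h9, h10⟩
          · rcases h'.own (show s ≤ m.n by omega) with ⟨g5, g6⟩ | ⟨g5, g5', g5'', _⟩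
            · rw [h6, g6] at h4
              have h7 : σ.1.2 + t = σ.1.2 + s := (Prod.mk.inj h4).2
              omega
            · refine h.ne_init g5' g5'' ?_
              rw [← h4, h6]
          · rcases h'.own (show s ≤ m.n by omega) with ⟨g5, g6⟩ | ⟨g5, g5', g5'', b1, r', g6, g7, g8, g9, g10⟩
            · refine h'.ne_init h5' h5'' ?_
              rw [h4, g6]
            · rw [h10, g10] at h4
              have h11 := congrArg (fun q : Site D × ℕ => q.1.2) h4
              have h12 := hline a1 b1 (by omega) (by omega) h11
              have h13 : t - a1 = s - b1 := (Prod.mk.inj h4).2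
              omega
        | some r' =>
          rw [h2, h3] at h0
          have h4 := h.own_phase (show t ≤ m.n by omega)
          have h5 : (st σ l t).1.2 = 0 := congrArg Prod.snd h0
          omega
      | some r =>
        cases h3 : kd l' s with
        | none =>
          rw [h2, h3] at h0
          have h4 := h'.own_phase (show s ≤ m.n by omega)
          have h5 : 0 = (st σ l' s).1.2 := congrArg Prod.snd h0
          omega
        | some r' =>
          rw [h2, h3] at h0
          exact hts (hline t s (by omega) (by omega) (congrArg (fun q : Site D × ℕ => q.1.2) h0))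

theorem first_meet' (h : Chn m B σ l) (h' : Chn m B σ l') (hll : l ≠ l') (c : Conf D) (hc : Mt c σ l) (hc' : Mt c σ l')
    (he : endS σ l = endS σ l') : ∃ i a, i < a ∧ a ≤ m.n ∧ l.take i = l'.take i ∧
      vsum (l.take a) = vsum (l'.take a) ∧ (cc σ (l.take a) ++ cc (st σ l i) ((l'.take a).drop i)).Nodup := by
  classical
  have hln := ml_len m h.ml
  have hln' := ml_len m h'.ml
  -- the first difference
  have h1 : ∃ i, i < m.n ∧ l[i]? ≠ l'[i]? := by
    by_contra h2
    push Not at h2
    refine hll (List.ext_getElem? fun i => ?_)
    rcases lt_or_ge i m.n with h3 | h3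
    · exact h2 i h3
    · rw [List.getElem?_eq_none (by omega), List.getElem?_eq_none (by omega)]
  obtain ⟨h2, h3⟩ := Nat.find_spec h1
  set i := Nat.find h1 with hi
  have hti : l.take i = l'.take i := by
    refine List.ext_getElem? fun t => ?_
    rcases lt_or_ge t i with h4 | h4
    · rw [List.getElem?_take_of_lt h4, List.getElem?_take_of_lt h4]
      by_contra h5
      exact Nat.find_min h1 h4 ⟨h4.trans h2, h5⟩
    · rw [List.getElem?_eq_none (by rw [List.length_take]; omega), List.getElem?_eq_none (by rw [List.length_take]; omega)]
  have hst : st σ l i = st σ l' i := by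
    unfold st
    rw [hti]
  have hk : kd l i ≠ kd l' i := by
    intro h4
    have h5 := (Mt_iff c σ l).1 hc i (by omega)
    have h6 := (Mt_iff c σ l').1 hc' i (by omega)
    rw [kd_get l i (by omega), kd_get l' i (by omega)] at h4
    refine h3 ?_
    rw [List.getElem?_eq_getElem (show i < l.length by omega), List.getElem?_eq_getElem (show i < l'.length by omega)]
    congr 1
    unfold Mt1 at h5 h6
    rw [hst, h4] at h5
    refine Prod.ext (Prod.ext h4 ?_) ?_
    · rw [← h5.1, ← h6.1]
    · rw [← h5.2, ← h6.2]
  -- the first common line after the separation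
  have h4 : ∃ a, i < a ∧ a ≤ m.n ∧ (st σ l a).2.2 = (st σ l' a).2.2 := by
    refine ⟨m.n, h2, le_rfl, ?_⟩
    rw [h.st_n, h'.st_n, he]
  obtain ⟨h5, h6, h7⟩ := Nat.find_spec h4
  set a := Nat.find h4 with ha
  have hmin : ∀ t, i < t → t < a → (st σ l t).2.2 ≠ (st σ l' t).2.2 := by
    intro t ht1 ht2 ht3
    exact Nat.find_min h4 ht2 ⟨ht1, by omega, ht3⟩
  refine ⟨i, a, h5, h6, hti, ?_, ?_⟩
  · rw [st_line, st_line] at h7
    exact add_left_cancel h7
  · have h8 : l'.take a = l'.take i ++ (l'.take a).drop i := by
      have h9 : (l'.take a).take i = l'.take i := by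
        rw [List.take_take, min_eq_left h5.le]
      rw [← h9]
      exact (List.take_append_drop i (l'.take a)).symm
    have h10 : cc σ (l'.take a) = cc σ (l'.take i) ++ cc (st σ l i) ((l'.take a).drop i) := by
      have h11 := congrArg (cc σ) h8
      rw [cc_append] at h11
      rw [hst]
      exact h11
    have h12 : ∀ p, p ∈ cc (st σ l i) ((l'.take a).drop i) → ∃ s, i ≤ s ∧ s < a ∧ p = cho (st σ l' s) (kd l' s) := by
      intro p hp
      have h13 : p ∈ cc σ (l'.take a) := by
        rw [h10]
        exact List.mem_append_right _ hp
      obtain ⟨s, h14, h15⟩ := (mem_cc_take h' a h6 p).1 h13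
      refine ⟨s, ?_, h14, h15⟩
      by_contra h16
      have h17 : p ∈ cc σ (l'.take i) := (mem_cc_take h' i h2.le p).2 ⟨s, by omega, h15⟩
      have h18 := cc_nodup h' a h6
      rw [h10, List.nodup_append] at h18
      exact h18.2.2 p h17 p hp rfl
    rw [List.nodup_append]
    refine ⟨cc_nodup h a h6, ?_, ?_⟩
    · have h18 := cc_nodup h' a h6
      rw [h10, List.nodup_append] at h18
      exact h18.2.1
    · intro p hp q hq
      obtain ⟨t, h13, h14⟩ := (mem_cc_take h a h6 p).1 hp
      obtain ⟨s, h15, h16, h17⟩ := h12 q hq
      rw [h14, h17]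
      exact cho_ne_sep h h' h5 h6 hti hk hmin h13 h15 h16

end FDr
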