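import Pool.Agent.Lib.MP_e029a2_pr.SRz

/-!
# Lists; the number of realised lists (job SCnt)

(1) `sum_lst_succ`: sums over `lst A (n + 1)` are sums over `a ∈ A` and `l ∈ lst A n` (`Finset.sum_image`, cons is
injective, `Finset.sum_product`). `mem_lst`: `l ∈ lst A n ↔ l.length = n ∧ ∀ a ∈ l, a ∈ A` (induction on `n`).
`sum_lst_add`: sums over `lst A (a + b)` are sums over `p ∈ lst A a` and `s ∈ lst A b` of `f (p ++ s)` (induction on `a`).
(2) `ML_sub`: a long step is in `lst m.MK n`: entries of `κ.zip δ` have the first component in `m.K`.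
(3) `cnt`: by induction on `j`: the number of realised lists of length `j` is at most `(2L+2)^j`. Step: for fixed `c, σ` the
map `μ ↦ μ.1.1` is injective on the realised micro steps (`Mt1` determines displacement and direction) and its values are
`none` or `some r` with `r ∈ Icc (-L) L` (`Clus.mem`), so the number of the realised `μ ∈ m.MK` is `≤ 2L + 2`.
-/

set_option autoImplicit false

namespace FDr

open scoped ENNReal

theorem mem_lst {A : Type*} [DecidableEq A] (S : Finset A) (n : ℕ) (l : List A) :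
    l ∈ lst S n ↔ l.length = n ∧ ∀ a ∈ l, a ∈ S := by
  induction n generalizing l with
  | zero =>
    show l ∈ ({[]} : Finset (List A)) ↔ _
    rw [Finset.mem_singleton, List.length_eq_zero_iff]
    constructor
    · rintro rfl
      exact ⟨rfl, fun a ha => absurd ha List.not_mem_nil⟩
    · exact fun h => h.1
  | succ n ih =>
    show l ∈ (S ×ˢ lst S n).image (fun p => p.1 :: p.2) ↔ _
    rw [Finset.mem_image]
    constructor
    · rintro ⟨⟨a, l'⟩, h, rfl⟩
      rw [Finset.mem_product] at h
      have h2 := (ih l').1 h.2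
      refine ⟨?_, ?_⟩
      · show (a :: l').length = n + 1
        rw [List.length_cons, h2.1]
      · intro b hb
        rcases List.mem_cons.1 hb with rfl | hb
        · exact h.1
        · exact h2.2 b hb
    · rintro ⟨h1, h2⟩
      cases l with
      | nil => exact absurd h1 (Nat.succ_ne_zero n).symm
      | cons a l' =>
        rw [List.length_cons, Nat.add_right_cancel_iff] at h1
        refine ⟨(a, l'), ?_, rfl⟩
        rw [Finset.mem_product]
        exact ⟨h2 a List.mem_cons_self, (ih l').2 ⟨h1, fun b hb => h2 b (List.mem_cons_of_mem _ hb)⟩⟩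

theorem sum_lst_succ {A : Type*} [DecidableEq A] (S : Finset A) (n : ℕ) (f : List A → ℝ≥0∞) :
    ∑ l ∈ lst S (n + 1), f l = ∑ a ∈ S, ∑ l ∈ lst S n, f (a :: l) := by
  show ∑ l ∈ (S ×ˢ lst S n).image (fun p => p.1 :: p.2), f l = _
  rw [Finset.sum_image, Finset.sum_product]
  rintro ⟨a, l⟩ _ ⟨a', l'⟩ _ h
  have h1 : a :: l = a' :: l' := h
  rw [List.cons.injEq] at h1
  rw [h1.1, h1.2]

theorem sum_lst_add {A : Type*} [DecidableEq A] (S : Finset A) (a b : ℕ) (f : List A → ℝ≥0∞) :
    ∑ l ∈ lst S (a + b), f l = ∑ p ∈ lst S a, ∑ s ∈ lst S b, f (p ++ s) := by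
  induction a generalizing f with
  | zero =>
    show _ = ∑ p ∈ ({[]} : Finset (List A)), ∑ s ∈ lst S b, f (p ++ s)
    rw [Finset.sum_singleton, Nat.zero_add]
    rfl
  | succ a ih =>
    rw [show a + 1 + b = (a + b) + 1 by omega, sum_lst_succ, sum_lst_succ]
    refine Finset.sum_congr rfl fun x _ => ?_
    rw [ih]
    rfl

/-- the micro steps which occur in long steps -/
def Mac.MK {w α : Set.Ioo (0 : ℝ) 1} (m : Mac w α) (D : ℕ) : Finset (Mic D) := m.K ×ˢ Finset.univ

theorem ML_sub {D : ℕ} {w α : Set.Ioo (0 : ℝ) 1} (m : Mac w α) : m.ML D ⊆ lst (m.MK D) m.n := by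
  intro l hl
  rw [mem_lst]
  refine ⟨ml_len m hl, fun μ hμ => ?_⟩
  obtain ⟨κ, hκ, δ, hδ, rfl⟩ := (mem_ML m l).1 hl
  unfold Mac.MK Mac.K
  rw [Finset.mem_product]
  refine ⟨?_, Finset.mem_univ _⟩
  rw [Finset.mem_biUnion]
  refine ⟨κ, hκ, ?_⟩
  rw [List.mem_toFinset]
  exact (List.of_mem_zip (a := μ.1) (b := μ.2) hμ).1

private theorem SCnt_mem {S : Set ℤ} {e : Run} {c : ℤ → Run} {h : ℤ} (hc : Clus S e c h) : h ∈ S := by
  cases hc with
  | enter _ _ h2 => exact h2
  | next _ _ _ _ h3 => exact h3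

open Classical in
private theorem SCnt_one {D : ℕ} (S : Finset (Mic D)) (L : ℕ) (c : Conf D) (σ : St D) :
    (S.filter (fun μ => Ev L c σ μ)).card ≤ 2 * L + 2 := by
  have h1 : (S.filter (fun μ => Ev L c σ μ)).card ≤
      (insert none ((Finset.Icc (-(L : ℤ)) L).image some) : Finset (Option ℤ)).card := by
    refine Finset.card_le_card_of_injOn (fun μ => μ.1.1) ?_ ?_
    · intro μ hμ
      rw [Finset.mem_coe, Finset.mem_filter] at hμ
      rw [Finset.mem_coe, Finset.mem_insert, Finset.mem_image]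
      rcases hk : μ.1.1 with _ | r
      · exact Or.inl hk
      · right
        have h2 := SCnt_mem (hμ.2.1 r hk)
        exact ⟨r, Finset.mem_Icc.2 h2, hk.symm⟩
    · intro μ hμ μ' hμ' h
      rw [Finset.mem_coe, Finset.mem_filter] at hμ hμ'
      obtain ⟨⟨κ, k⟩, d⟩ := μ
      obtain ⟨⟨κ', k'⟩, d'⟩ := μ'
      have h0 : κ = κ' := h
      subst h0
      obtain ⟨a1, a2⟩ := hμ.2.2
      obtain ⟨b1, b2⟩ := hμ'.2.2
      have e1 : k = k' := a1.symm.trans b1
      have e2 : d = d' := a2.symm.trans b2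
      rw [e1, e2]
  refine h1.trans ((Finset.card_insert_le _ _).trans ?_)
  have h2 : ((Finset.Icc (-(L : ℤ)) L).image some).card ≤ (Finset.Icc (-(L : ℤ)) L).card := Finset.card_image_le
  rw [Int.card_Icc] at h2
  omega

open Classical in
theorem cnt {D : ℕ} (S : Finset (Mic D)) (L : ℕ) (c : Conf D) (j : ℕ) (σ : St D) :
    ∑ l ∈ lst S j, (if Rz L c σ l then (1 : ℝ≥0∞) else 0) ≤ (2 * L + 2) ^ j := by
  induction j generalizing σ with
  | zero =>
    show ∑ l ∈ ({[]} : Finset (List (Mic D))), (if Rz L c σ l then (1 : ℝ≥0∞) else 0) ≤ _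
    rw [Finset.sum_singleton, pow_zero]
    split_ifs
    · exact le_rfl
    · exact zero_le_one
  | succ j ih =>
    rw [sum_lst_succ]
    have h1 : ∀ μ ∈ S, ∑ l ∈ lst S j, (if Rz L c σ (μ :: l) then (1 : ℝ≥0∞) else 0) ≤
        (if Ev L c σ μ then 1 else 0) * (2 * L + 2) ^ j := by
      intro μ _
      by_cases h2 : Ev L c σ μ
      · rw [if_pos h2, one_mul]
        refine le_trans (Finset.sum_le_sum fun l _ => ?_) (ih (nxt σ μ))
        by_cases h3 : Rz L c (nxt σ μ) l
        · rw [if_pos h3]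
          split_ifs
          · exact le_rfl
          · exact zero_le_one
        · rw [if_neg h3, if_neg]
          exact fun h4 => h3 h4.2
      · rw [if_neg h2, zero_mul]
        refine le_of_eq (Finset.sum_eq_zero fun l _ => ?_)
        rw [if_neg]
        exact fun h4 => h2 h4.1
    refine (Finset.sum_le_sum h1).trans ?_
    rw [← Finset.sum_mul, pow_succ, mul_comm]
    refine mul_le_mul' le_rfl ?_
    rw [Finset.sum_boole]
    exact_mod_cast SCnt_one S L c σ

end FDr
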