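import Pool.Agent.Lib.MP_e029a2_pr.An

/-!
# The long step: definitions

A state `σ = ((x, j), z)`: the frog `x` enters its `j`-th line at the point `z`. A micro step `μ = ((κ, k), d)`: the kind
`κ` (`none`: the frog itself goes on; `some r`: the resident at the relative height `r` of the line is taken), the
displacement `k` of the height and the direction `d`.
-/

set_option autoImplicit false

namespace FDr

open MeasureTheory ProbabilityTheory
open scoped ENNReal

/-! ### Dependence on a set of coordinates -/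

/-- `f` depends only on the coordinates in `S` -/
def Dep {ι β γ : Type*} (S : Set ι) (f : (ι → β) → γ) : Prop := ∀ c c' : ι → β, (∀ p ∈ S, c p = c' p) → f c = f c'

/-- all the lists of length `m` with entries in `A` -/
def lst {β : Type*} [DecidableEq β] (A : Finset β) : ℕ → Finset (List β)
  | 0 => {[]}
  | m + 1 => (A ×ˢ lst A m).image fun p => p.1 :: p.2

/-! ### Micro steps -/

/-- micro steps -/
abbrev Mic (D : ℕ) : Type := (Option ℤ × ℤ) × Dir D

/-- states -/
abbrev St (D : ℕ) : Type := (Site D × ℕ) × Site D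

/-- the relative height of a kind -/
def rel : Option ℤ → ℤ
  | none => 0
  | some r => r

/-- the chosen cell -/
def cho {D : ℕ} (σ : St D) : Option ℤ → Site D × ℕ
  | none => σ.1
  | some r => ((σ.2.1 + r, σ.2.2), 0)

/-- the next state -/
def nxt {D : ℕ} (σ : St D) (μ : Mic D) : St D :=
  (((cho σ μ.1.1).1, (cho σ μ.1.1).2 + 1), σ.2 + (μ.1.2, dv μ.2))

/-- the chosen cell has the displacement and the direction of the micro step -/
def Mt1 {D : ℕ} (c : Conf D) (σ : St D) (μ : Mic D) : Prop :=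
  rel μ.1.1 + dsp (c (cho σ μ.1.1)).1 = μ.1.2 ∧ (c (cho σ μ.1.1)).2 = μ.2

/-- the resident `r` of the line of the state `σ` is activated by the frog of the state, in the window `[-L, L]` -/
def Act1 {D : ℕ} (L : ℕ) (c : Conf D) (σ : St D) (r : ℤ) : Prop :=
  Clus (Set.Icc (-(L : ℤ)) L) (c σ.1).1 (fun h => (c ((σ.2.1 + h, σ.2.2), 0)).1) r

/-- the micro step is realised -/
def Ev {D : ℕ} (L : ℕ) (c : Conf D) (σ : St D) (μ : Mic D) : Prop :=
  (∀ r, μ.1.1 = some r → Act1 L c σ r) ∧ Mt1 c σ μ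

/-- the micro steps of the list are realised, starting from the state `σ` -/
def Rz {D : ℕ} (L : ℕ) (c : Conf D) : St D → List (Mic D) → Prop
  | _, [] => True
  | σ, μ :: l => Ev L c σ μ ∧ Rz L c (nxt σ μ) l

/-- the chosen cells match -/
def Mt {D : ℕ} (c : Conf D) : St D → List (Mic D) → Prop
  | _, [] => True
  | σ, μ :: l => Mt1 c σ μ ∧ Mt c (nxt σ μ) l

/-- the state at the end -/
def endS {D : ℕ} : St D → List (Mic D) → St D
  | σ, [] => σ
  | σ, μ :: l => endS (nxt σ μ) l

/-- the list of the chosen cells -/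
def cc {D : ℕ} : St D → List (Mic D) → List (Site D × ℕ)
  | _, [] => []
  | σ, μ :: l => cho σ μ.1.1 :: cc (nxt σ μ) l

/-- the state after `i` micro steps -/
def st {D : ℕ} (σ : St D) (l : List (Mic D)) (i : ℕ) : St D := endS σ (l.take i)

/-- the sum of the height displacements -/
def hsum {D : ℕ} (l : List (Mic D)) : ℤ := (l.map fun μ => μ.1.2).sum

/-- the sum of the directions -/
def vsum {D : ℕ} (l : List (Mic D)) : Fin D → ℤ := (l.map fun μ => dv μ.2).sum

/-- the cells of the window of the line of a state -/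
def win {D : ℕ} (L : ℕ) (σ : St D) : Set (Site D × ℕ) := {p | p.2 = 0 ∧ p.1.2 = σ.2.2 ∧ |p.1.1 - σ.2.1| ≤ L}

/-- the cells which are used by a micro step -/
def U1 {D : ℕ} (L : ℕ) (σ : St D) (κ : Option ℤ) : Set (Site D × ℕ) := {p | p = σ.1 ∨ (κ ≠ none ∧ p ∈ win L σ)}

/-- the cells which are used by a list of micro steps -/
def Us {D : ℕ} (L : ℕ) : St D → List (Mic D) → Set (Site D × ℕ)
  | _, [] => ∅
  | σ, μ :: l => U1 L σ μ.1.1 ∪ Us L (nxt σ μ) l

/-- the invariant of the states: the home of the frog is on an avoided line or not below the present height -/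
def Inv {D : ℕ} (B : Finset (Fin D → ℤ)) (σ : St D) : Prop := 1 ≤ σ.1.2 ∧ (σ.1.1.2 ∈ B ∨ σ.2.1 ≤ σ.1.1.1)

/-- the cells of the future of a state -/
def Fut {D : ℕ} (B : Finset (Fin D → ℤ)) (σ : St D) : Set (Site D × ℕ) :=
  {p | (p.1 = σ.1.1 ∧ σ.1.2 ≤ p.2) ∨ (p.1.2 ∉ B ∧ p.1.1 < σ.2.1)}

/-- the weight of a pair (kind, displacement) -/
noncomputable def hW (w α : Set.Ioo (0 : ℝ) 1) (L : ℕ) : Option ℤ × ℤ → ℝ≥0∞
  | (none, k) => dispP w α k
  | (some r, k) => actP w α (Set.Icc (-(L : ℤ)) L) r * dispP w α (k - r)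

/-- the data of the long step -/
structure Mac (w α : Set.Ioo (0 : ℝ) 1) where
  /-- the size of the windows -/
  L : ℕ
  /-- the number of micro steps -/
  n : ℕ
  /-- the height of a slab -/
  H : ℕ
  /-- the lists of pairs (kind, displacement) -/
  F : Finset (List (Option ℤ × ℤ))
  n4 : 4 ≤ n
  nev : Even n
  H1 : 1 ≤ H
  len : ∀ κ ∈ F, κ.length = n
  first : ∀ κ ∈ F, ∀ a ∈ κ.head?, a.1 = none
  last : ∀ κ ∈ F, ∀ a ∈ κ.getLast?, a.1 = none
  rL : ∀ κ ∈ F, ∀ a ∈ κ, ∀ r, a.1 = some r → |r| ≤ L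
  tot : ∀ κ ∈ F, (κ.map Prod.snd).sum = -(H : ℤ)
  mid : ∀ κ ∈ F, ∀ i, 1 ≤ i → i < n →
    -(H : ℤ) + L < ((κ.take i).map Prod.snd).sum ∧ ((κ.take i).map Prod.snd).sum < -(L : ℤ)
  big : 4 < ∑ κ ∈ F, (κ.map (hW w α L)).prod

/-- the total weight -/
noncomputable def Mac.W {w α : Set.Ioo (0 : ℝ) 1} (m : Mac w α) : ℝ≥0∞ := ∑ κ ∈ m.F, (κ.map (hW w α m.L)).prod

/-- the pairs (kind, displacement) which occur -/
def Mac.K {w α : Set.Ioo (0 : ℝ) 1} (m : Mac w α) : Finset (Option ℤ × ℤ) := m.F.biUnion fun κ => κ.toFinset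

/-- the long steps -/
def Mac.ML {w α : Set.Ioo (0 : ℝ) 1} (m : Mac w α) (D : ℕ) : Finset (List (Mic D)) :=
  (m.F ×ˢ inj D m.n).image fun p => p.1.zip p.2

/-- the entered lines of the long step `l` from a state on the line `v` are not in `B` -/
def okm {D : ℕ} (B : Finset (Fin D → ℤ)) (v : Fin D → ℤ) (l : List (Mic D)) : Prop := okl B v (l.map Prod.snd)

noncomputable instance {D : ℕ} (B : Finset (Fin D → ℤ)) (v : Fin D → ℤ) (l : List (Mic D)) : Decidable (okm B v l) :=
  Classical.propDecidable _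

/-- a long step `l` which starts in the state `σ` -/
structure Chn {w α : Set.Ioo (0 : ℝ) 1} (m : Mac w α) {D : ℕ} (B : Finset (Fin D → ℤ)) (σ : St D) (l : List (Mic D)) :
    Prop where
  inv : Inv B σ
  ml : l ∈ m.ML D
  ok : okm B σ.2.2 l

open Classical in
/-- the number of entries at the origin of the frog of the state, from now on -/
noncomputable def N0 {D : ℕ} (c : Conf D) (σ : St D) : ℝ≥0∞ :=
  ∑' i : ℕ, if σ.2 + ∑ t ∈ Finset.range i, cvec (c (σ.1.1, σ.1.2 + t)) = 0 then 1 else 0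

open Classical in
/-- the number of the realised chains of `k` long steps, each counted with the entries of its last frog at the origin -/
noncomputable def X {w α : Set.Ioo (0 : ℝ) 1} (m : Mac w α) {D : ℕ} (B : Finset (Fin D → ℤ)) (c : Conf D) :
    ℕ → St D → ℝ≥0∞
  | 0 => fun σ => N0 c σ
  | k + 1 => fun σ => ∑ l ∈ (m.ML D).filter (fun l => okm B σ.2.2 l), if Rz m.L c σ l then X m B c k (endS σ l) else 0

end FDr
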