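import Pool.Agent.Lib.MP_e029a2_pr.SMl

/-!
# The cells which are used by the micro steps of a long step are distinct
-/

set_option autoImplicit false

namespace FDr

open scoped ENNReal

variable {D : ℕ} {w α : Set.Ioo (0 : ℝ) 1} {m : Mac w α} {B : Finset (Fin D → ℤ)} {σ : St D} {l : List (Mic D)}

theorem kd_lt {a : ℕ} {r : ℤ} (h : kd l a = some r) : a < l.length := by
  by_contra h1
  unfold kd at h
  rw [List.getElem?_eq_none (not_lt.1 h1)] at h
  exact absurd h (by simp)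

theorem ml_rL (hl : l ∈ m.ML D) {a : ℕ} {r : ℤ} (h : kd l a = some r) : |r| ≤ m.L := by
  have h1 := kd_lt h
  rw [kd_get l a h1] at h
  obtain ⟨κ, hκ, δ, hδ, rfl⟩ := (mem_ML m l).1 hl
  rw [List.getElem_zip] at h
  exact m.rL κ hκ _ (List.getElem_mem _) r h

theorem st_line (σ : St D) (l : List (Mic D)) (i : ℕ) : (st σ l i).2.2 = σ.2.2 + vsum (l.take i) := by
  rw [st_pos]
  rfl

theorem st_hgt (σ : St D) (l : List (Mic D)) (i : ℕ) : (st σ l i).2.1 = σ.2.1 + hsum (l.take i) := by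
  rw [st_pos]
  rfl

theorem Chn.line_nB (h : Chn m B σ l) {a : ℕ} (h1 : 1 ≤ a) (h2 : a ≤ m.n) : (st σ l a).2.2 ∉ B := by
  rw [st_line]
  refine (okm_iff B σ.2.2 l).1 h.ok a h1 ?_
  rw [ml_len m h.ml]
  exact h2

theorem Chn.line_ne (h : Chn m B σ l) {a b : ℕ} (ha : a ≤ m.n) (hb : b ≤ m.n) (hab : a ≠ b) :
    (st σ l a).2.2 ≠ (st σ l b).2.2 := by
  rw [st_line, st_line]
  intro h1
  exact hab (ml_line m h.ml h.ml a b ha hb (add_left_cancel h1))

theorem Chn.kd_range (h : Chn m B σ l) {a : ℕ} (ha : kd l a ≠ none) : 1 ≤ a ∧ a + 1 < m.n := by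
  obtain ⟨r, hr⟩ := Option.ne_none_iff_exists'.1 ha
  have h1 := kd_lt hr
  rw [ml_len m h.ml] at h1
  have h2 := ml_first m h.ml
  have h3 := ml_last m h.ml
  constructor
  · rcases Nat.eq_zero_or_pos a with h4 | h4
    · rw [h4] at ha
      exact absurd h2 ha
    · exact h4
  · by_contra h4
    have h5 : a = m.n - 1 := by omega
    rw [h5] at ha
    exact ha h3

theorem Chn.res_home (h : Chn m B σ l) {a : ℕ} {r : ℤ} (ha : kd l a = some r) :
    σ.2.1 - m.H < (st σ l a).2.1 + r ∧ (st σ l a).2.1 + r < σ.2.1 := by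
  have h1 := h.kd_range (show kd l a ≠ none by rw [ha]; exact Option.some_ne_none r)
  have h2 := ml_mid m h.ml a h1.1 (by omega)
  have h3 := abs_le.1 (ml_rL h.ml ha)
  rw [st_hgt]
  constructor <;> linarith [h2.1, h2.2, h3.1, h3.2]

theorem Chn.win_home (h : Chn m B σ l) {a : ℕ} (h1 : 1 ≤ a) (h2 : a < m.n) {p : Site D × ℕ}
    (hp : p ∈ win m.L (st σ l a)) : σ.2.1 - m.H < p.1.1 ∧ p.1.1 < σ.2.1 ∧ p.1.2 ∉ B := by
  have h3 := ml_mid m h.ml a h1 h2
  have h4 := abs_le.1 hp.2.2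
  rw [st_hgt] at h4
  refine ⟨by linarith [h3.1, h4.1], by linarith [h3.2, h4.2], ?_⟩
  rw [hp.2.1]
  exact h.line_nB h1 h2.le

/-- the frogs of the states -/
theorem Chn.own (h : Chn m B σ l) {i : ℕ} (hi : i ≤ m.n) :
    ((∀ t, t < i → kd l t = none) ∧ (st σ l i).1 = (σ.1.1, σ.1.2 + i)) ∨
      (σ.2.1 - m.H < (st σ l i).1.1.1 ∧ (st σ l i).1.1.1 < σ.2.1 ∧ (st σ l i).1.1.2 ∉ B ∧
        ∃ a r, 1 ≤ a ∧ a < i ∧ kd l a = some r ∧ (∀ t, a < t → t < i → kd l t = none) ∧
          (st σ l i).1 = (((st σ l a).2.1 + r, (st σ l a).2.2), i - a)) := by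
  rcases loc σ l i (by rw [ml_len m h.ml]; exact hi) with h1 | ⟨a, r, h1, h2, h3, h4⟩
  · exact Or.inl h1
  · right
    have h5 := h.kd_range (show kd l a ≠ none by rw [h2]; exact Option.some_ne_none r)
    have h6 := h.res_home h2
    have h7 := h.line_nB h5.1 (by omega)
    refine ⟨?_, ?_, ?_, a, r, h5.1, h1, h2, h3, h4⟩
    · rw [h4]
      exact h6.1
    · rw [h4]
      exact h6.2
    · rw [h4]
      exact h7

theorem Chn.own_phase (h : Chn m B σ l) {i : ℕ} (hi : i ≤ m.n) : 1 ≤ (st σ l i).1.2 := by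
  rcases h.own hi with h1 | ⟨_, _, _, a, r, h1, h2, h3, h4, h5⟩
  · rw [h1.2]
    have := h.inv.1
    show 1 ≤ σ.1.2 + i
    omega
  · rw [h5]
    show 1 ≤ i - a
    omega

/-- a resident which is not below the slab and not on a line of `B` is not the first frog -/
theorem Chn.ne_init (h : Chn m B σ l) {x : Site D} (h1 : x.1 < σ.2.1) (h2 : x.2 ∉ B) : x ≠ σ.1.1 := by
  intro h3
  rcases h.inv.2 with h4 | h4
  · rw [← h3] at h4
    exact h2 h4
  · rw [← h3] at h4
    exact absurd h1 (not_lt.2 h4)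

theorem Chn.own_ne (h : Chn m B σ l) {i j : ℕ} (hij : i < j) (hj : j ≤ m.n) : (st σ l i).1 ≠ (st σ l j).1 := by
  intro h0
  rcases h.own (hij.le.trans hj) with h1 | ⟨h1, h1', h1'', a, r, h2, h3, h4, h5, h6⟩
  · rcases h.own hj with h7 | ⟨h7, h7', h7'', _⟩
    · rw [h1.2, h7.2] at h0
      have := congrArg Prod.snd h0
      simp only at this
      omega
    · refine h.ne_init h7' h7'' ?_
      rw [← h0, h1.2]
  · rcases h.own hj with h7 | ⟨h7, h7', h7'', b, r', h8, h9, h10, h11, h12⟩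
    · refine h.ne_init h1' h1'' ?_
      rw [h0, h7.2]
    · rw [h6, h12] at h0
      have h13 : (st σ l a).2.2 = (st σ l b).2.2 := congrArg (fun p : Site D × ℕ => p.1.2) h0
      have h14 : i - a = j - b := congrArg (fun p : Site D × ℕ => p.2) h0
      rcases eq_or_ne a b with h15 | h15
      · omega
      · exact h.line_ne (by omega) (by omega) h15 h13

theorem Chn.own_not_win (h : Chn m B σ l) {i : ℕ} (hi : i ≤ m.n) (τ : St D) : (st σ l i).1 ∉ win m.L τ := by
  intro h1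
  have h2 := h.own_phase hi
  have h3 : (st σ l i).1.2 = 0 := h1.1
  omega

theorem Chn.U1_disj (h : Chn m B σ l) {i j : ℕ} (hi : i < m.n) (hj : j < m.n) (hij : i ≠ j) :
    Disjoint (U1 m.L (st σ l i) (kd l i)) (U1 m.L (st σ l j) (kd l j)) := by
  rw [Set.disjoint_left]
  rintro p (h1 | ⟨h1, h2⟩) (h3 | ⟨h3, h4⟩)
  · rcases lt_or_gt_of_ne hij with h5 | h5
    · exact h.own_ne h5 hj.le (h1.symm.trans h3)
    · exact h.own_ne h5 hi.le (h3.symm.trans h1)
  · rw [h1] at h4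
    exact h.own_not_win hi.le _ h4
  · rw [h3] at h2
    exact h.own_not_win hj.le _ h2
  · exact h.line_ne hi.le hj.le hij (h2.2.1.symm.trans h4.2.1)

theorem mem_Us_take (L : ℕ) (σ : St D) (l : List (Mic D)) (i : ℕ) (p : Site D × ℕ) (hi : i ≤ l.length) :
    p ∈ Us L σ (l.take i) ↔ ∃ t, t < i ∧ p ∈ U1 L (st σ l t) (kd l t) := by
  rw [mem_Us]
  constructor
  · rintro ⟨t, h1, h2⟩
    have h3 : t < i := by
      rw [List.length_take] at h1
      omega
    refine ⟨t, h3, ?_⟩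
    rw [kd_get l t (by omega)]
    rw [List.getElem_take] at h2
    unfold st at h2 ⊢
    rw [List.take_take, min_eq_left h3.le] at h2
    exact h2
  · rintro ⟨t, h1, h2⟩
    have h3 : t < (l.take i).length := by
      rw [List.length_take]
      omega
    refine ⟨t, h3, ?_⟩
    rw [kd_get l t (by omega)] at h2
    rw [List.getElem_take]
    unfold st at h2 ⊢
    rw [List.take_take, min_eq_left h1.le]
    exact h2

theorem mem_Us' (L : ℕ) (σ : St D) (l : List (Mic D)) (p : Site D × ℕ) :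
    p ∈ Us L σ l ↔ ∃ t, t < l.length ∧ p ∈ U1 L (st σ l t) (kd l t) := by
  have h := mem_Us_take L σ l l.length p le_rfl
  rw [List.take_length] at h
  exact h

theorem Chn.Us_take_disj (h : Chn m B σ l) {i : ℕ} (hi : i < m.n) :
    Disjoint (Us m.L σ (l.take i)) (U1 m.L (st σ l i) (kd l i)) := by
  rw [Set.disjoint_left]
  intro p h1 h2
  obtain ⟨t, h3, h4⟩ := (mem_Us_take m.L σ l i p (by rw [ml_len m h.ml]; exact hi.le)).1 h1
  exact Set.disjoint_left.1 (h.U1_disj (h3.trans hi) hi (Nat.ne_of_lt h3)) h4 h2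

end FDr
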