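import Pool.Agent.Lib.MP_e029a2_pr.SInd

/-!
# The probability of a micro step
-/

set_option autoImplicit false

namespace FDr

open MeasureTheory ProbabilityTheory
open scoped ENNReal

/-! ### The cluster of a line -/

theorem Clus.mem {S : Set ℤ} {e : Run} {c : ℤ → Run} {h : ℤ} (hh : Clus S e c h) : h ∈ S := by
  cases hh with
  | enter _ _ h2 => exact h2
  | next _ _ _ _ h2 => exact h2

/-- the cluster depends only on the runs in `S` -/
theorem Clus.congr {S : Set ℤ} {e : Run} {c c' : ℤ → Run} (hc : ∀ h ∈ S, c h = c' h) {h : ℤ} (hh : Clus S e c h) :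
    Clus S e c' h := by
  induction hh with
  | enter h h1 h2 => exact Clus.enter h h1 h2
  | next h h' h1 h2 h3 ih =>
    refine Clus.next h h' ih ?_ h3
    rw [← hc h h1.mem]
    exact h2

/-- the activation of a site does not depend on the run of its own frog -/
theorem Clus.own {S : Set ℤ} {e : Run} {c c' : ℤ → Run} {r : ℤ} (hc : ∀ h ∈ S, h ≠ r → c h = c' h)
    (hh : Clus S e c r) : Clus S e c' r := by
  have key : ∀ h, Clus S e c h → Clus S e c' h ∨ Clus S e c' r := by
    intro h hh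
    induction hh with
    | enter h h1 h2 => exact Or.inl (Clus.enter h h1 h2)
    | next h h' h1 h2 h3 ih =>
      rcases ih with ih | ih
      · by_cases h4 : h = r
        · rw [h4] at ih
          exact Or.inr ih
        · refine Or.inl (Clus.next h h' ih ?_ h3)
          rw [← hc h h1.mem h4]
          exact h2
      · exact Or.inr ih
  rcases key r hh with h1 | h1 <;> exact h1

/-! ### Cells -/

instance : DiscreteMeasurableSpace Run := ⟨fun _ => trivial⟩

theorem iD_eq (D : ℕ) (d : Dir D) : dirLaw D {d} = (2 * (D : ℝ≥0∞))⁻¹ := by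
  unfold dirLaw
  rw [Measure.smul_apply, Measure.count_singleton, smul_eq_mul, mul_one]

variable {D : ℕ} [NeZero D] (w α : Set.Ioo (0 : ℝ) 1)

theorem Q_cell (p : Site D × ℕ) (s k : ℤ) (d : Dir D) :
    Q w α D {c | s + dsp (c p).1 = k ∧ (c p).2 = d} = dispP w α (k - s) * (2 * (D : ℝ≥0∞))⁻¹ := by
  have h1 : {c : Conf D | s + dsp (c p).1 = k ∧ (c p).2 = d} =
      (fun c : Conf D => c p) ⁻¹' ({l : Run | dsp l = k - s} ×ˢ {d}) := by
    ext c
    rw [Set.mem_preimage, Set.mem_prod]
    show (s + dsp (c p).1 = k ∧ (c p).2 = d) ↔ (dsp (c p).1 = k - s ∧ (c p).2 = d)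
    constructor
    · rintro ⟨h1, h2⟩
      exact ⟨by linarith, h2⟩
    · rintro ⟨h1, h2⟩
      exact ⟨by linarith, h2⟩
  have h2 : MeasurableSet (({l : Run | dsp l = k - s} ×ˢ {d} : Set (Cell D))) := MeasurableSet.of_discrete
  rw [h1, ← Measure.map_apply (measurable_pi_apply p) h2]
  unfold Q
  rw [map_eval (cellLaw w α D) p]
  unfold cellLaw dispP
  rw [Measure.prod_prod, iD_eq]

omit [NeZero D] in
theorem Mt1_dep (σ : St D) (μ : Mic D) : Dep {cho σ μ.1.1} (fun c : Conf D => Mt1 c σ μ) := by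
  intro c c' hc
  have h1 := hc _ (Set.mem_singleton _)
  show Mt1 c σ μ = Mt1 c' σ μ
  unfold Mt1
  rw [h1]

theorem Q_Mt1 (σ : St D) (μ : Mic D) :
    Q w α D {c | Mt1 c σ μ} = dispP w α (μ.1.2 - rel μ.1.1) * (2 * (D : ℝ≥0∞))⁻¹ :=
  Q_cell w α (cho σ μ.1.1) (rel μ.1.1) μ.1.2 μ.2

omit [NeZero D] in
/-- the activation of a resident depends on the own cell and the window, but not on the cell of the resident -/
theorem Act1_dep (L : ℕ) (σ : St D) (r : ℤ) :
    Dep (({σ.1} ∪ win L σ) \ {p | p = ((σ.2.1 + r, σ.2.2), 0) ∧ p ≠ σ.1}) (fun c : Conf D => Act1 L c σ r) := by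
  have key : ∀ c c' : Conf D, (∀ p ∈ ({σ.1} ∪ win L σ) \ {p | p = ((σ.2.1 + r, σ.2.2), 0) ∧ p ≠ σ.1}, c p = c' p) →
      Act1 L c σ r → Act1 L c' σ r := by
    intro c c' hc h
    unfold Act1 at h ⊢
    have h1 : c σ.1 = c' σ.1 := hc _ ⟨Or.inl rfl, fun h => h.2 rfl⟩
    rw [← h1]
    refine Clus.own (fun h hh hr => ?_) h
    have h2 : c ((σ.2.1 + h, σ.2.2), 0) = c' ((σ.2.1 + h, σ.2.2), 0) := by
      refine hc _ ⟨Or.inr ⟨rfl, rfl, ?_⟩, ?_⟩
      · show |σ.2.1 + h - σ.2.1| ≤ (L : ℤ)
        rw [add_sub_cancel_left]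
        exact abs_le.2 hh
      · rintro ⟨h3, _⟩
        refine hr ?_
        have h4 : σ.2.1 + h = σ.2.1 + r := congrArg (fun q : Site D × ℕ => q.1.1) h3
        exact add_left_cancel h4
    show (c ((σ.2.1 + h, σ.2.2), 0)).1 = (c' ((σ.2.1 + h, σ.2.2), 0)).1
    rw [h2]
  intro c c' hc
  exact propext ⟨key c c' hc, key c' c fun p hp => (hc p hp).symm⟩

omit [NeZero D] in
theorem win_finite (L : ℕ) (σ : St D) : (win L σ).Finite := by
  have h1 : win L σ ⊆ (fun h : ℤ => (((h, σ.2.2), 0) : Site D × ℕ)) '' Set.Icc (σ.2.1 - L) (σ.2.1 + L) := by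
    rintro ⟨⟨h, v⟩, i⟩ ⟨h1, h2, h3⟩
    have h4 := abs_le.1 h3
    simp only at h1 h2 h4
    refine ⟨h, ⟨by linarith [h4.1], by linarith [h4.2]⟩, ?_⟩
    rw [h1, h2]
  exact ((Set.finite_Icc _ _).image _).subset h1

omit [NeZero D] in
theorem Act1_dep' (L : ℕ) (σ : St D) (r : ℤ) : Dep ({σ.1} ∪ win L σ) (fun c : Conf D => Act1 L c σ r) :=
  (Act1_dep L σ r).mono Set.sdiff_subset

/-- the probability of the activation -/
theorem Q_Act1 (L : ℕ) (σ : St D) (r : ℤ) (hσ : 1 ≤ σ.1.2) :
    Q w α D {c | Act1 L c σ r} = actP w α (Set.Icc (-(L : ℤ)) L) r := by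
  let e : Option ℤ → Site D × ℕ := fun o => match o with
    | none => σ.1
    | some h => ((σ.2.1 + h, σ.2.2), 0)
  have he : Function.Injective e := by
    intro o o' h
    cases o with
    | none =>
      cases o' with
      | none => rfl
      | some h' =>
        exfalso
        have h1 : σ.1 = ((σ.2.1 + h', σ.2.2), 0) := h
        have h2 : σ.1.2 = 0 := congrArg Prod.snd h1
        omega
    | some k =>
      cases o' with
      | none =>
        exfalso
        have h1 : ((σ.2.1 + k, σ.2.2), 0) = σ.1 := h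
        have h2 : 0 = σ.1.2 := congrArg Prod.snd h1
        omega
      | some h' =>
        have h1 : (((σ.2.1 + k, σ.2.2), 0) : Site D × ℕ) = ((σ.2.1 + h', σ.2.2), 0) := h
        have h2 : σ.2.1 + k = σ.2.1 + h' := congrArg (fun q : Site D × ℕ => q.1.1) h1
        rw [add_left_cancel h2]
  have h1 : (Q w α D).map (fun (c : Conf D) (o : Option ℤ) => (c (e o)).1) =
      Measure.infinitePi (fun _ : Option ℤ => runLaw w α) := by
    have h2 : (fun (c : Conf D) (o : Option ℤ) => (c (e o)).1) =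
        (fun (a : Option ℤ → Cell D) (o : Option ℤ) => (a o).1) ∘ (fun (c : Conf D) (o : Option ℤ) => c (e o)) := rfl
    rw [h2, ← Measure.map_map]
    · unfold Q
      rw [map_inj (cellLaw w α D) e he]
      rw [Measure.infinitePi_map_pi (fun _ : Option ℤ => cellLaw w α D) (f := fun _ (a : Cell D) => a.1)
        (fun _ => measurable_fst)]
      have h3 : (cellLaw w α D).map (fun a : Cell D => a.1) = runLaw w α := by
        unfold cellLaw
        have h4 := Measure.map_fst_prod (μ := runLaw w α) (ν := dirLaw D)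
        rw [measure_univ, one_smul] at h4
        exact h4
      rw [h3]
    · exact measurable_pi_lambda _ fun o => measurable_fst.comp (measurable_pi_apply o)
    · exact measurable_pi_lambda _ fun o => measurable_pi_apply _
  have h5 : Dep ({none} ∪ some '' Set.Icc (-(L : ℤ)) L)
      (fun c : Option ℤ → Run => Clus (Set.Icc (-(L : ℤ)) L) (c none) (fun z => c (some z)) r) := by
    have key : ∀ c c' : Option ℤ → Run, (∀ p ∈ ({none} ∪ some '' Set.Icc (-(L : ℤ)) L : Set (Option ℤ)), c p = c' p) →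
        Clus (Set.Icc (-(L : ℤ)) L) (c none) (fun z => c (some z)) r →
        Clus (Set.Icc (-(L : ℤ)) L) (c' none) (fun z => c' (some z)) r := by
      intro c c' hc h
      rw [← hc none (Or.inl rfl)]
      exact Clus.congr (fun h hh => hc (some h) (Or.inr ⟨h, hh, rfl⟩)) h
    intro c c' hc
    exact propext ⟨key c c' hc, key c' c fun p hp => (hc p hp).symm⟩
  have h6 : MeasurableSet {c : Option ℤ → Run | Clus (Set.Icc (-(L : ℤ)) L) (c none) (fun z => c (some z)) r} :=
    Dep.measurableSet ((Set.finite_singleton _).union ((Set.finite_Icc _ _).image _)) h5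
  unfold actP
  rw [← h1, Measure.map_apply ?_ h6]
  · rfl
  · exact measurable_pi_lambda _ fun o => measurable_fst.comp (measurable_pi_apply _)

omit [NeZero D] in
theorem Ev_dep (L : ℕ) (σ : St D) (μ : Mic D) (hμ : ∀ r, μ.1.1 = some r → |r| ≤ L) :
    Dep (U1 L σ μ.1.1) (fun c : Conf D => Ev L c σ μ) := by
  have key : ∀ c c' : Conf D, (∀ p ∈ U1 L σ μ.1.1, c p = c' p) → Ev L c σ μ → Ev L c' σ μ := by
    intro c c' hc h
    refine ⟨fun r hr => ?_, ?_⟩
    · have h1 : Act1 L c σ r = Act1 L c' σ r := Act1_dep' L σ r c c' (fun p hp => ?_)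
      · have h2 := h.1 r hr
        rw [h1] at h2
        exact h2
      · rcases hp with hp | hp
        · exact hc p (Or.inl hp)
        · refine hc p (Or.inr ⟨?_, hp⟩)
          rw [hr]
          exact Option.some_ne_none r
    · have h1 : c (cho σ μ.1.1) = c' (cho σ μ.1.1) := by
        refine hc _ ?_
        cases hk : μ.1.1 with
        | none => exact Or.inl rfl
        | some r =>
          refine Or.inr ⟨Option.some_ne_none r, rfl, rfl, ?_⟩
          show |σ.2.1 + r - σ.2.1| ≤ (L : ℤ)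
          rw [add_sub_cancel_left]
          exact hμ r hk
      have h2 := h.2
      unfold Mt1 at h2 ⊢
      rw [← h1]
      exact h2
  intro c c' hc
  exact propext ⟨key c c' hc, key c' c fun p hp => (hc p hp).symm⟩

omit [NeZero D] in
theorem U1_finite (L : ℕ) (σ : St D) (κ : Option ℤ) : (U1 L σ κ).Finite := by
  refine ((Set.finite_singleton σ.1).union (win_finite L σ)).subset ?_
  rintro p (h | ⟨_, h⟩)
  · exact Or.inl h
  · exact Or.inr h

theorem Q_Ev (L : ℕ) (σ : St D) (μ : Mic D) (hσ : 1 ≤ σ.1.2) :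
    Q w α D {c | Ev L c σ μ} = hW w α L μ.1 * (2 * (D : ℝ≥0∞))⁻¹ := by
  obtain ⟨⟨κ, k⟩, d⟩ := μ
  cases κ with
  | none =>
    have h1 : {c : Conf D | Ev L c σ ((none, k), d)} = {c | Mt1 c σ ((none, k), d)} := by
      ext c
      exact ⟨fun h => h.2, fun h => ⟨fun r hr => absurd hr (by simp), h⟩⟩
    rw [h1, Q_Mt1]
    show dispP w α (k - 0) * _ = dispP w α k * _
    rw [sub_zero]
  | some r =>
    have h1 : {c : Conf D | Ev L c σ ((some r, k), d)} = {c | Act1 L c σ r ∧ Mt1 c σ ((some r, k), d)} := by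
      ext c
      constructor
      · exact fun h => ⟨h.1 r rfl, h.2⟩
      · rintro ⟨h1, h2⟩
        refine ⟨fun r' hr' => ?_, h2⟩
        have h3 : r = r' := Option.some.inj hr'
        rw [← h3]
        exact h1
    rw [h1]
    unfold Q
    rw [prob_and_dep (cellLaw w α D) (S := ({σ.1} ∪ win L σ) \ {p | p = ((σ.2.1 + r, σ.2.2), 0) ∧ p ≠ σ.1})
      (T := {((σ.2.1 + r, σ.2.2), 0)})]
    · have h2 := Q_Act1 w α L σ r hσ
      have h3 := Q_Mt1 w α σ ((some r, k), d)
      unfold Q at h2 h3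
      rw [h2, h3, ← mul_assoc]
      rfl
    · rw [Set.disjoint_singleton_right]
      rintro ⟨_, h3⟩
      refine h3 ⟨rfl, ?_⟩
      intro h4
      have h5 : 0 = σ.1.2 := congrArg Prod.snd h4
      omega
    · exact Dep.measurableSet ((Set.finite_singleton σ.1).union (win_finite L σ)) (Act1_dep' L σ r)
    · exact Dep.measurableSet (Set.finite_singleton _) (Mt1_dep σ ((some r, k), d))
    · exact Act1_dep L σ r
    · exact Mt1_dep σ ((some r, k), d)

end FDr
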