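import Pool.Agent.Lib.MP_e029a2_pr.SDis

/-!
# The future of a state; two chains
-/

set_option autoImplicit false

namespace FDr

open scoped ENNReal

variable {D : ℕ} {w α : Set.Ioo (0 : ℝ) 1} {m : Mac w α} {B : Finset (Fin D → ℤ)} {σ σ' : St D} {l l' : List (Mic D)}

theorem Chn.st_n (h : Chn m B σ l) : st σ l m.n = endS σ l := by
  rw [← ml_len m h.ml]
  exact st_len σ l

theorem Chn.end_hgt (h : Chn m B σ l) : (endS σ l).2.1 = σ.2.1 - m.H := by
  rw [endS_pos]
  show σ.2.1 + hsum l = _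
  rw [ml_hsum m h.ml]
  ring

theorem Chn.end_line (_ : Chn m B σ l) : (endS σ l).2.2 = σ.2.2 + vsum l := by
  rw [endS_pos]
  rfl

theorem Chn.mid_hgt (h : Chn m B σ l) {i : ℕ} (hi : i < m.n) : σ.2.1 - m.H < (st σ l i).2.1 := by
  rcases Nat.eq_zero_or_pos i with h1 | h1
  · rw [h1, st_zero]
    have := m.H1
    have h2 : (1 : ℤ) ≤ m.H := by exact_mod_cast this
    linarith
  · have h2 := ml_mid m h.ml i h1 hi
    have h3 : (0 : ℤ) ≤ m.L := Int.natCast_nonneg _
    rw [st_hgt]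
    linarith [h2.1]

theorem Chn.inv_end (h : Chn m B σ l) : Inv B (endS σ l) := by
  constructor
  · rw [← h.st_n]
    exact h.own_phase le_rfl
  · rw [h.end_hgt, ← h.st_n]
    rcases h.own (le_refl m.n) with h1 | ⟨h1, _⟩
    · rw [h1.2]
      rcases h.inv.2 with h2 | h2
      · exact Or.inl h2
      · right
        show σ.2.1 - m.H ≤ σ.1.1.1
        have h3 : (0 : ℤ) ≤ m.H := Int.natCast_nonneg _
        linarith
    · exact Or.inr h1.le

/-- the cells which are used: the height is in the slab and the line is not in `B`, or it is a cell of the first frog -/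
theorem Chn.U1_home (h : Chn m B σ l) {i : ℕ} (hi : i < m.n) {p : Site D × ℕ} (hp : p ∈ U1 m.L (st σ l i) (kd l i)) :
    (p = (σ.1.1, σ.1.2 + i)) ∨ (σ.2.1 - m.H < p.1.1 ∧ p.1.1 < σ.2.1 ∧ p.1.2 ∉ B) := by
  rcases hp with h1 | ⟨h1, h2⟩
  · rcases h.own hi.le with h3 | ⟨h3, h4, h5, _⟩
    · exact Or.inl (h1.trans h3.2)
    · right
      rw [h1]
      exact ⟨h3, h4, h5⟩
  · right
    have h3 := h.kd_range h1
    exact h.win_home h3.1 hi h2

theorem Chn.Us_sub (h : Chn m B σ l) : Us m.L σ l ⊆ Fut B σ := by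
  intro p hp
  obtain ⟨t, h1, h2⟩ := (mem_Us' m.L σ l p).1 hp
  rw [ml_len m h.ml] at h1
  rcases h.U1_home h1 h2 with h3 | h3
  · left
    rw [h3]
    exact ⟨rfl, Nat.le_add_right _ _⟩
  · exact Or.inr ⟨h3.2.2, h3.2.1⟩

theorem Chn.Fut_end_sub (h : Chn m B σ l) : Fut B (endS σ l) ⊆ Fut B σ := by
  have h0 : (1 : ℤ) ≤ m.H := by exact_mod_cast m.H1
  intro p hp
  rcases hp with ⟨h1, h2⟩ | ⟨h1, h2⟩
  · rw [← h.st_n] at h1 h2
    rcases h.own (le_refl m.n) with h3 | ⟨_, h4, h5, _⟩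
    · rw [h3.2] at h1 h2
      left
      exact ⟨h1, (Nat.le_add_right _ _).trans h2⟩
    · right
      rw [← h1] at h4 h5
      exact ⟨h5, h4⟩
  · right
    rw [h.end_hgt] at h2
    exact ⟨h1, by linarith⟩

/-- two chains from states of the same height, with distinct frogs or equal: if the frog of the state `i` of the first
chain is the frog of the state `i'` of the second, in a later phase, then this state is a state of the first chain -/
theorem coin (h : Chn m B σ l) (h' : Chn m B σ' l') (he : σ.2.1 = σ'.2.1) (hp : σ.1.1 ≠ σ'.1.1 ∨ σ = σ') (c : Conf D)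
    (hc : Mt c σ l) (hc' : Mt c σ' l') {i i' : ℕ} (hi : i ≤ m.n) (hi' : i' ≤ m.n)
    (hx : (st σ l i).1.1 = (st σ' l' i').1.1) (hj : (st σ' l' i').1.2 ≤ (st σ l i).1.2) :
    ∃ t, t ≤ i ∧ st σ l t = st σ' l' i' := by
  have hln := ml_len m h.ml
  have hln' := ml_len m h'.ml
  rcases h.own hi with ⟨h1, h2⟩ | ⟨h1, h1', h1'', a, r, h3, h4, h5, h6, h7⟩
  · rcases h'.own hi' with ⟨g1, g2⟩ | ⟨g1, g1', g1'', _⟩
    · rcases hp with h8 | h8
      · rw [h2, g2] at hx
        exact absurd hx h8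
      · subst h8
        rw [h2, g2] at hj
        have h9 : i' ≤ i := by
          have h10 : σ.1.2 + i' ≤ σ.1.2 + i := hj
          omega
        refine ⟨i', h9, ?_⟩
        refine Prod.ext ?_ ?_
        · rw [g2, frog_init σ l i' (by omega) fun t ht => h1 t (by omega)]
        · rw [pos_init c σ l hc i' (by omega) fun t ht => h1 t (by omega), pos_init c σ l' hc' i' (by omega) g1]
    · exfalso
      rw [h2] at hx
      rw [← he] at g1'
      exact h.ne_init g1' g1'' hx.symm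
  · rcases h'.own hi' with ⟨g1, g2⟩ | ⟨g1, g1', g1'', b, s, g3, g4, g5, g6, g7⟩
    · exfalso
      rw [g2] at hx
      rw [he] at h1'
      exact h'.ne_init h1' h1'' hx
    · rw [h7, g7] at hx hj
      have h8 : ((st σ l a).2.1 + r, (st σ l a).2.2) = ((st σ' l' b).2.1 + s, (st σ' l' b).2.2) := hx
      have h9 : i' - b ≤ i - a := hj
      refine ⟨a + (i' - b), by omega, ?_⟩
      refine Prod.ext ?_ ?_
      · rw [g7, frog_res σ l a r h5 (a + (i' - b)) (by omega) (by omega) fun t ht ht2 => h6 t ht (by omega), h8,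
          Nat.add_sub_cancel_left]
      · rw [pos_res c σ l hc a r h5 (a + (i' - b)) (by omega) (by omega) fun t ht ht2 => h6 t ht (by omega), h8,
          pos_res c σ' l' hc' b s g5 i' (by omega) g4 g6, Nat.add_sub_cancel_left]

/-- the frogs at the ends are distinct or the states at the ends are equal -/
theorem dich (h : Chn m B σ l) (h' : Chn m B σ' l') (he : σ.2.1 = σ'.2.1) (hp : σ.1.1 ≠ σ'.1.1 ∨ σ = σ') (c : Conf D)
    (hc : Mt c σ l) (hc' : Mt c σ' l') : (endS σ l).1.1 ≠ (endS σ' l').1.1 ∨ endS σ l = endS σ' l' := by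
  by_cases h0 : (endS σ l).1.1 = (endS σ' l').1.1
  · right
    rcases le_total (endS σ' l').1.2 (endS σ l).1.2 with h1 | h1
    · rw [← h.st_n, ← h'.st_n] at h0 h1
      obtain ⟨t, ht, h2⟩ := coin h h' he hp c hc hc' le_rfl le_rfl h0 h1
      rcases lt_or_eq_of_le ht with h3 | h3
      · exfalso
        have h4 := h.mid_hgt h3
        rw [h2, h'.st_n, h'.end_hgt, he] at h4
        exact lt_irrefl _ h4
      · rw [h3, h.st_n, h'.st_n] at h2
        exact h2
    · rw [← h.st_n, ← h'.st_n] at h0 h1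
      obtain ⟨t, ht, h2⟩ := coin h' h he.symm (hp.imp Ne.symm Eq.symm) c hc' hc le_rfl le_rfl h0.symm h1
      rcases lt_or_eq_of_le ht with h3 | h3
      · exfalso
        have h4 := h'.mid_hgt h3
        rw [h2, h.st_n, h.end_hgt, he] at h4
        exact lt_irrefl _ h4
      · rw [h3, h.st_n, h'.st_n] at h2
        exact h2.symm
  · exact Or.inl h0

/-- the cells which are used by a chain are not in the future of the end of the other chain -/
theorem Us_disj_Fut (h : Chn m B σ l) (h' : Chn m B σ' l') (he : σ.2.1 = σ'.2.1) (hp : σ.1.1 ≠ σ'.1.1 ∨ σ = σ')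
    (c : Conf D) (hc : Mt c σ l) (hc' : Mt c σ' l') : Disjoint (Us m.L σ l) (Fut B (endS σ' l')) := by
  have h0 : (1 : ℤ) ≤ m.H := by exact_mod_cast m.H1
  rw [Set.disjoint_left]
  intro p h1 h2
  obtain ⟨i, h3, h4⟩ := (mem_Us' m.L σ l p).1 h1
  rw [ml_len m h.ml] at h3
  rcases h2 with ⟨h5, h6⟩ | ⟨h5, h6⟩
  · rcases h4 with h7 | ⟨_, h8⟩
    · rw [h7] at h5 h6
      rw [← h'.st_n] at h5 h6
      obtain ⟨t, ht, h9⟩ := coin h h' he hp c hc hc' h3.le le_rfl h5 h6
      have h10 := h.mid_hgt (lt_of_le_of_lt ht h3)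
      rw [h9, h'.st_n, h'.end_hgt, he] at h10
      exact lt_irrefl _ h10
    · have h9 := h'.inv_end.1
      rw [h8.1] at h6
      omega
  · rw [h'.end_hgt, ← he] at h6
    rcases h.U1_home h3 h4 with h7 | h7
    · rcases h.inv.2 with h8 | h8
      · rw [h7] at h5
        exact h5 h8
      · rw [h7] at h6
        have h9 : σ.1.1.1 < σ.2.1 - m.H := h6
        linarith
    · linarith [h7.1]

/-- two chains without a common line: the used cells are distinct -/
theorem Us_disj (h : Chn m B σ l) (h' : Chn m B σ' l') (he : σ.2.1 = σ'.2.1) (hp : σ.1.1 ≠ σ'.1.1)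
    (hl : ∀ a b, 1 ≤ a → a < m.n → 1 ≤ b → b < m.n → (st σ l a).2.2 ≠ (st σ' l' b).2.2) :
    Disjoint (Us m.L σ l) (Us m.L σ' l') := by
  rw [Set.disjoint_left]
  intro p h1 h2
  obtain ⟨i, h3, h4⟩ := (mem_Us' m.L σ l p).1 h1
  obtain ⟨j, g3, g4⟩ := (mem_Us' m.L σ' l' p).1 h2
  rw [ml_len m h.ml] at h3
  rw [ml_len m h'.ml] at g3
  rcases h4 with h5 | ⟨h5, h6⟩
  · rcases g4 with g5 | ⟨g5, g6⟩
    · rw [h5] at g5
      rcases h.own h3.le with ⟨h7, h8⟩ | ⟨h7, h7', h7'', a, r, h8, h9, h10, h11, h12⟩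
      · rcases h'.own g3.le with ⟨g7, g8⟩ | ⟨g7, g7', g7'', _⟩
        · rw [h8, g8] at g5
          exact hp (Prod.mk.inj g5).1
        · rw [← he] at g7'
          refine h.ne_init g7' g7'' ?_
          rw [← g5, h8]
      · rcases h'.own g3.le with ⟨g7, g8⟩ | ⟨g7, g7', g7'', b, s, g8, g9, g10, g11, g12⟩
        · rw [he] at h7'
          refine h'.ne_init h7' h7'' ?_
          rw [g5, g8]
        · rw [h12, g12] at g5
          exact hl a b h8 (by omega) g8 (by omega) (congrArg (fun q : Site D × ℕ => q.1.2) g5)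
    · rw [h5] at g6
      exact h.own_not_win h3.le _ g6
  · have h7 := h.kd_range h5
    rcases g4 with g5 | ⟨g5, g6⟩
    · rw [g5] at h6
      exact h'.own_not_win g3.le _ h6
    · have g7 := h'.kd_range g5
      exact hl i j h7.1 h3 g7.1 g3 (h6.2.1.symm.trans g6.2.1)

end FDr
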