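import Pool.Agent.Lib.MP_e029a2_pr.SDef

/-!
# Functions of disjoint sets of independent coordinates
-/

set_option autoImplicit false

namespace FDr

open MeasureTheory ProbabilityTheory
open scoped ENNReal

section Gen

variable {ι β : Type*}

theorem Dep.mono {γ : Type*} {S T : Set ι} {f : (ι → β) → γ} (h : Dep S f) (hST : S ⊆ T) : Dep T f :=
  fun c c' hc => h c c' fun p hp => hc p (hST hp)

theorem Dep.comp {γ γ' : Type*} {S : Set ι} {f : (ι → β) → γ} (h : Dep S f) (g : γ → γ') : Dep S (fun c => g (f c)) :=
  fun c c' hc => congrArg g (h c c' hc)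

theorem Dep.comp₂ {γ γ' γ'' : Type*} {S : Set ι} {f : (ι → β) → γ} {f' : (ι → β) → γ'} (h : Dep S f) (h' : Dep S f')
    (g : γ → γ' → γ'') : Dep S (fun c => g (f c) (f' c)) := by
  intro c c' hc
  show g (f c) (f' c) = g (f c') (f' c')
  rw [h c c' hc, h' c c' hc]

open Classical in
theorem Dep.ite {γ : Type*} {S : Set ι} {P : (ι → β) → Prop} {f g : (ι → β) → γ} (hP : Dep S P) (hf : Dep S f)
    (hg : Dep S g) : Dep S (fun c => if P c then f c else g c) := by
  intro c c' hc
  show (if P c then f c else g c) = if P c' then f c' else g c'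
  rw [hf c c' hc, hg c c' hc]
  have h1 : P c = P c' := hP c c' hc
  by_cases h2 : P c
  · rw [if_pos h2, if_pos (h1 ▸ h2)]
  · rw [if_neg h2, if_neg (h1 ▸ h2)]

variable [MeasurableSpace β]

/-- a function of finitely many coordinates in a countable discrete space is measurable -/
theorem Dep.measurable [Countable β] [DiscreteMeasurableSpace β] [Nonempty β] {γ : Type*} [MeasurableSpace γ]
    {S : Set ι} (hS : S.Finite) {f : (ι → β) → γ} (h : Dep S f) : Measurable f := by
  classical
  have : Finite S := hS
  have : Countable (S → β) := inferInstance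
  let g : (S → β) → (ι → β) := fun a p => if hp : p ∈ S then a ⟨p, hp⟩ else Classical.arbitrary β
  have h1 : f = (fun a => f (g a)) ∘ fun c (p : S) => c p := by
    funext c
    refine h c _ fun p hp => ?_
    show c p = if hp : p ∈ S then c p else Classical.arbitrary β
    rw [dif_pos hp]
  rw [h1]
  refine Measurable.comp (measurable_of_countable _) ?_
  exact measurable_pi_lambda _ fun p => measurable_pi_apply _

theorem Dep.measurableSet [Countable β] [DiscreteMeasurableSpace β] [Nonempty β] {S : Set ι} (hS : S.Finite)
    {P : (ι → β) → Prop} (h : Dep S P) : MeasurableSet {c | P c} :=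
  (Dep.measurable hS h : Measurable P).setOf

/-- independence of functions of disjoint sets of coordinates -/
theorem lintegral_mul_dep [Nonempty β] (μ : Measure β) [IsProbabilityMeasure μ] {S T : Set ι} (hST : Disjoint S T)
    {f g : (ι → β) → ℝ≥0∞} (hf : Measurable f) (hg : Measurable g) (hfS : Dep S f) (hgT : Dep T g) :
    ∫⁻ c, f c * g c ∂Measure.infinitePi (fun _ : ι => μ) =
      (∫⁻ c, f c ∂Measure.infinitePi (fun _ : ι => μ)) * ∫⁻ c, g c ∂Measure.infinitePi (fun _ : ι => μ) := by
  classical
  let M : ι → MeasurableSpace (ι → β) := fun i => MeasurableSpace.comap (fun c => c i) inferInstance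
  have h0 : ∀ i, M i ≤ MeasurableSpace.pi := fun i => (measurable_pi_apply i).comap_le
  have h1 : iIndep M (Measure.infinitePi (fun _ : ι => μ)) :=
    iIndepFun_infinitePi (P := fun _ : ι => μ) (X := fun _ (x : β) => x) (fun _ => measurable_id)
  have h2 := indep_iSup_of_disjoint h0 h1 hST
  have key : ∀ (R : Set ι) (u : (ι → β) → ℝ≥0∞), Measurable u → Dep R u → Measurable[⨆ i ∈ R, M i] u := by
    intro R u hu hR
    let g : (ι → β) → (ι → β) := fun c p => if p ∈ R then c p else Classical.arbitrary β
    have h3 : u = u ∘ g := by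
      funext c
      refine hR c _ fun p hp => ?_
      show c p = if p ∈ R then c p else Classical.arbitrary β
      rw [if_pos hp]
    rw [h3]
    refine hu.comp ?_
    refine @measurable_pi_lambda _ _ _ (⨆ i ∈ R, M i) _ g fun p => ?_
    by_cases hp : p ∈ R
    · have h4 : (fun c : ι → β => g c p) = fun c => c p := by
        funext c
        exact if_pos hp
      rw [h4]
      have h5 : Measurable[M p] (fun c : ι → β => c p) := comap_measurable _
      exact h5.mono (le_iSup₂_of_le p hp le_rfl) le_rfl
    · have h4 : (fun c : ι → β => g c p) = fun _ => Classical.arbitrary β := by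
        funext c
        exact if_neg hp
      rw [h4]
      exact @measurable_const _ _ _ (⨆ i ∈ R, M i) _
  exact lintegral_mul_eq_lintegral_mul_lintegral_of_independent_measurableSpace
    (iSup₂_le fun i _ => h0 i) (iSup₂_le fun i _ => h0 i) h2 (key S f hf hfS) (key T g hg hgT)

/-- the probability of two events which depend on disjoint sets of coordinates -/
theorem prob_and_dep [Nonempty β] (μ : Measure β) [IsProbabilityMeasure μ] {S T : Set ι} (hST : Disjoint S T)
    {P P' : (ι → β) → Prop} (hP : MeasurableSet {c | P c}) (hP' : MeasurableSet {c | P' c}) (h : Dep S P)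
    (h' : Dep T P') : Measure.infinitePi (fun _ : ι => μ) {c | P c ∧ P' c} =
      Measure.infinitePi (fun _ : ι => μ) {c | P c} * Measure.infinitePi (fun _ : ι => μ) {c | P' c} := by
  classical
  have h1 := lintegral_mul_dep μ hST (f := fun c => if P c then 1 else 0) (g := fun c => if P' c then 1 else 0)
    (Measurable.ite hP measurable_const measurable_const) (Measurable.ite hP' measurable_const measurable_const)
    (h.comp fun p => if p then 1 else 0) (h'.comp fun p => if p then 1 else 0)
  have h2 : ∀ R : (ι → β) → Prop, MeasurableSet {c | R c} →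
      ∫⁻ c, (if R c then 1 else 0) ∂Measure.infinitePi (fun _ : ι => μ) =
        Measure.infinitePi (fun _ : ι => μ) {c | R c} := by
    intro R hR
    rw [← lintegral_indicator_one hR]
    refine lintegral_congr fun c => ?_
    by_cases hc : R c
    · rw [if_pos hc, Set.indicator_of_mem (show c ∈ {c | R c} from hc)]
      rfl
    · rw [if_neg hc, Set.indicator_of_notMem (show c ∉ {c | R c} from hc)]
  have h3 : MeasurableSet {c | P c ∧ P' c} := hP.inter hP'
  rw [h2 P hP, h2 P' hP'] at h1
  rw [← h1, ← h2 _ h3]
  refine lintegral_congr fun c => ?_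
  by_cases hc : P c
  · by_cases hc' : P' c
    · rw [if_pos hc, if_pos hc', if_pos ⟨hc, hc'⟩, one_mul]
    · rw [if_neg hc', if_neg fun h => hc' h.2, mul_zero]
  · rw [if_neg hc, if_neg fun h => hc h.1, zero_mul]

/-- coordinates along an injection -/
theorem map_inj {κ : Type*} (μ : Measure β) [IsProbabilityMeasure μ] (e : κ → ι) (he : Function.Injective e) :
    (Measure.infinitePi (fun _ : ι => μ)).map (fun c k => c (e k)) = Measure.infinitePi (fun _ : κ => μ) :=
  Measure.map_infinitePi_infinitePi_of_inj (P := fun _ : ι => μ) he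

/-- the law of one coordinate -/
theorem map_eval (μ : Measure β) [IsProbabilityMeasure μ] (i : ι) :
    (Measure.infinitePi (fun _ : ι => μ)).map (fun c => c i) = μ := Measure.infinitePi_map_eval (fun _ : ι => μ) i

end Gen

end FDr
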