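import Pool.Agent.Lib.MP_e029a2_pr.SPre
import Pool.Agent.Lib.MP_e029a2_pr.SCA
import Pool.Agent.Lib.MP_e029a2_pr.SFirst

/-!
# The expected number of pairs of chains with a common line, distinct frogs (job SMeetA)

For `l = p ++ s`, `l' = p' ++ s'` with `p = l.take a`, `p' = l'.take b`: `1 {Rz l} 1 {Rz l'} ≤ 1 {Mt σ p} 1 {Mt σ' p'}
1 {Rz (end p) s} 1 {Rz (end p') s'}` (`Rz_append`, `Rz_Mt`). Sum over the pairs of `m.ML D` (with `okm`) which have a common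
line: by `first_meet` every such pair has `a, b` in `[1, n]` with the two conditions, so the sum is at most the sum over `a, b`
in `Icc 1 n`, over `l, l'` in `lst (m.MK D) n` (`ML_sub`) with the two conditions for the prefixes (which only involve the
prefixes); `sum_lst_add` with `n = a + (n - a)`; integrate (`Q {P} = ∫⁻ 1 {P}`, `lint_ind`; `Rz`, `Mt` of lists with kinds
`|r| ≤ L` are measurable: `Rz_dep`, `Us_finite`, `Mt_dep`, `Dep.measurableSet`; the kinds of `m.MK D` satisfy `|r| ≤ L` by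
`m.rL`), and pointwise `∑ s, 1 {Rz (end p) s} ≤ (2L+2)^(n-a)` (`cnt`):
`≤ (2L+2)^(n-a) (2L+2)^(n-b) ∑ p p', [conditions] Q {Mt p ∧ Mt p'} ≤ (2L+2)^(2n) srw (a+b) (σ'.2.2 - σ.2.2)` (`pre`).
-/

set_option autoImplicit false

namespace FDr

open MeasureTheory ProbabilityTheory
open scoped ENNReal

variable {w α : Set.Ioo (0 : ℝ) 1} (m : Mac w α) {D : ℕ} [NeZero D] (B : Finset (Fin D → ℤ))

open Classical in
/-- the two chains have a common line with indices in `[1, n)` -/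
noncomputable def comL (σ σ' : St D) (l l' : List (Mic D)) : Prop :=
  ∃ a b, 1 ≤ a ∧ a < m.n ∧ 1 ≤ b ∧ b < m.n ∧ (st σ l a).2.2 = (st σ' l' b).2.2

omit [NeZero D] in
private theorem SMeetA_kind {μ : Mic D} (hμ : μ ∈ m.MK D) (r : ℤ) (h : μ.1.1 = some r) : |r| ≤ m.L := by
  obtain ⟨κ, hκ, h1⟩ := Finset.mem_biUnion.1 (Finset.mem_product.1 hμ).1
  exact m.rL κ hκ _ (List.mem_toFinset.1 h1) r h

open Classical in
private theorem SMeetA_core (σ σ' : St D) (a b i j : ℕ) (p p' : List (Mic D)) (hp : p ∈ lst (m.MK D) a)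
    (hp' : p' ∈ lst (m.MK D) b) :
    ∑ s ∈ lst (m.MK D) i, ∑ s' ∈ lst (m.MK D) j, Q w α D {c | Rz m.L c σ (p ++ s) ∧ Rz m.L c σ' (p' ++ s')} ≤
      (2 * m.L + 2) ^ (i + j) * Q w α D {c | Mt c σ p ∧ Mt c σ' p'} := by
  have hk : ∀ (σ : St D) (a i : ℕ) (p s : List (Mic D)), p ∈ lst (m.MK D) a → s ∈ lst (m.MK D) i →
      MeasurableSet {c : Conf D | Rz m.L c σ (p ++ s)} := by
    intro σ a i p s hp hs
    refine Dep.measurableSet (Us_finite m.L σ (p ++ s)) (Rz_dep m.L σ (p ++ s) fun μ hμ r hr => ?_)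
    rcases List.mem_append.1 hμ with h | h
    · exact SMeetA_kind m (((mem_lst _ _ _).1 hp).2 μ h) r hr
    · exact SMeetA_kind m (((mem_lst _ _ _).1 hs).2 μ h) r hr
  have hmt : MeasurableSet {c : Conf D | Mt c σ p ∧ Mt c σ' p'} :=
    (Dep.measurableSet (List.finite_toSet _) (Mt_dep σ p)).inter
      (Dep.measurableSet (List.finite_toSet _) (Mt_dep σ' p'))
  have hm : ∀ q ∈ lst (m.MK D) i ×ˢ lst (m.MK D) j,
      MeasurableSet {c : Conf D | Rz m.L c σ (p ++ q.1) ∧ Rz m.L c σ' (p' ++ q.2)} := by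
    intro q hq
    rw [Finset.mem_product] at hq
    exact (hk σ a i p q.1 hp hq.1).inter (hk σ' b j p' q.2 hp' hq.2)
  rw [← Finset.sum_product', ← lint_ind _ _ hmt]
  have e1 : ∀ q ∈ lst (m.MK D) i ×ˢ lst (m.MK D) j,
      Q w α D {c | Rz m.L c σ (p ++ q.1) ∧ Rz m.L c σ' (p' ++ q.2)} =
        ∫⁻ c, (if Rz m.L c σ (p ++ q.1) ∧ Rz m.L c σ' (p' ++ q.2) then 1 else 0) ∂Q w α D :=
    fun q hq => (lint_ind _ _ (hm q hq)).symm
  rw [Finset.sum_congr rfl e1, ← lintegral_finsetSum _ fun q hq =>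
    Measurable.ite (hm q hq) measurable_const measurable_const,
    ← lintegral_const_mul _ (Measurable.ite hmt measurable_const measurable_const)]
  refine lintegral_mono fun c => ?_
  by_cases hc : Mt c σ p ∧ Mt c σ' p'
  · rw [if_pos hc, mul_one]
    have e2 : ∀ q ∈ lst (m.MK D) i ×ˢ lst (m.MK D) j,
        (if Rz m.L c σ (p ++ q.1) ∧ Rz m.L c σ' (p' ++ q.2) then (1 : ℝ≥0∞) else 0) ≤
          (if Rz m.L c (endS σ p) q.1 then 1 else 0) * (if Rz m.L c (endS σ' p') q.2 then 1 else 0) := by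
      intro q _
      split
      · next h =>
        rw [if_pos ((Rz_append _ _ _ _ _).1 h.1).2, if_pos ((Rz_append _ _ _ _ _).1 h.2).2, mul_one]
      · exact zero_le
    refine (Finset.sum_le_sum e2).trans ?_
    rw [Finset.sum_product]
    refine le_trans (le_of_eq (Finset.sum_mul_sum (lst (m.MK D) i) (lst (m.MK D) j)
      (fun x => if Rz m.L c (endS σ p) x then (1 : ℝ≥0∞) else 0)
      (fun y => if Rz m.L c (endS σ' p') y then (1 : ℝ≥0∞) else 0)).symm) ?_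
    rw [pow_add]
    exact mul_le_mul' (cnt _ _ _ _ _) (cnt _ _ _ _ _)
  · rw [if_neg hc, mul_zero]
    refine le_of_eq (Finset.sum_eq_zero fun q _ => ?_)
    rw [if_neg]
    rintro ⟨h1, h2⟩
    exact hc ⟨Rz_Mt ((Rz_append _ _ _ _ _).1 h1).1, Rz_Mt ((Rz_append _ _ _ _ _).1 h2).1⟩

open Classical in
private theorem SMeetA_ab (σ σ' : St D) (a b : ℕ) (ha : a ≤ m.n) (hb : b ≤ m.n) :
    ∑ l ∈ lst (m.MK D) m.n, ∑ l' ∈ lst (m.MK D) m.n,
      (if (cc σ (l.take a) ++ cc σ' (l'.take b)).Nodup ∧ σ.2.2 + vsum (l.take a) = σ'.2.2 + vsum (l'.take b) then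
        Q w α D {c | Rz m.L c σ l ∧ Rz m.L c σ' l'} else 0) ≤
      (2 * m.L + 2) ^ (2 * m.n) * srw D (a + b) (σ'.2.2 - σ.2.2) := by
  have hn : m.n = a + (m.n - a) := by omega
  have hn' : m.n = b + (m.n - b) := by omega
  have e0 : ∑ l ∈ lst (m.MK D) m.n, ∑ l' ∈ lst (m.MK D) m.n,
      (if (cc σ (l.take a) ++ cc σ' (l'.take b)).Nodup ∧ σ.2.2 + vsum (l.take a) = σ'.2.2 + vsum (l'.take b) then
        Q w α D {c | Rz m.L c σ l ∧ Rz m.L c σ' l'} else 0) =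
      ∑ p ∈ lst (m.MK D) a, ∑ s ∈ lst (m.MK D) (m.n - a), ∑ p' ∈ lst (m.MK D) b, ∑ s' ∈ lst (m.MK D) (m.n - b),
        (if (cc σ p ++ cc σ' p').Nodup ∧ σ.2.2 + vsum p = σ'.2.2 + vsum p' then
          Q w α D {c | Rz m.L c σ (p ++ s) ∧ Rz m.L c σ' (p' ++ s')} else 0) := by
    have h1 := sum_lst_add (m.MK D) a (m.n - a) (fun l => ∑ l' ∈ lst (m.MK D) m.n,
      (if (cc σ (l.take a) ++ cc σ' (l'.take b)).Nodup ∧ σ.2.2 + vsum (l.take a) = σ'.2.2 + vsum (l'.take b) then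
        Q w α D {c | Rz m.L c σ l ∧ Rz m.L c σ' l'} else 0))
    rw [← hn] at h1
    rw [h1]
    refine Finset.sum_congr rfl fun p hp => Finset.sum_congr rfl fun s _ => ?_
    have h2 := sum_lst_add (m.MK D) b (m.n - b) (fun l' =>
      (if (cc σ ((p ++ s).take a) ++ cc σ' (l'.take b)).Nodup ∧
          σ.2.2 + vsum ((p ++ s).take a) = σ'.2.2 + vsum (l'.take b) then
        Q w α D {c | Rz m.L c σ (p ++ s) ∧ Rz m.L c σ' l'} else 0))
    rw [← hn'] at h2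
    rw [h2]
    refine Finset.sum_congr rfl fun p' hp' => Finset.sum_congr rfl fun s' _ => ?_
    rw [List.take_left' ((mem_lst _ _ _).1 hp).1, List.take_left' ((mem_lst _ _ _).1 hp').1]
  rw [e0]
  have e3 : ∀ p ∈ lst (m.MK D) a, ∑ s ∈ lst (m.MK D) (m.n - a), ∑ p' ∈ lst (m.MK D) b,
      ∑ s' ∈ lst (m.MK D) (m.n - b), (if (cc σ p ++ cc σ' p').Nodup ∧ σ.2.2 + vsum p = σ'.2.2 + vsum p' then
          Q w α D {c | Rz m.L c σ (p ++ s) ∧ Rz m.L c σ' (p' ++ s')} else 0) ≤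
      ∑ p' ∈ lst (m.MK D) b, (2 * m.L + 2) ^ ((m.n - a) + (m.n - b)) *
        (if (cc σ p ++ cc σ' p').Nodup ∧ σ.2.2 + vsum p = σ'.2.2 + vsum p' then
          Q w α D {c | Mt c σ p ∧ Mt c σ' p'} else 0) := by
    intro p hp
    rw [Finset.sum_comm]
    refine Finset.sum_le_sum fun p' hp' => ?_
    by_cases hc : (cc σ p ++ cc σ' p').Nodup ∧ σ.2.2 + vsum p = σ'.2.2 + vsum p'
    · simp only [if_pos hc]
      exact SMeetA_core m σ σ' a b (m.n - a) (m.n - b) p p' hp hp'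
    · simp only [if_neg hc, Finset.sum_const_zero, mul_zero, le_refl]
  refine (Finset.sum_le_sum e3).trans ?_
  simp only [← Finset.mul_sum]
  refine (mul_le_mul_right (pre w α m.L (m.MK D) (fun μ hμ r hr => SMeetA_kind m hμ r hr) a b σ σ') _).trans ?_
  rw [← mul_assoc, ← pow_add]
  have h4 : m.n - a + (m.n - b) + (a + b) = 2 * m.n := by omega
  rw [h4]

open Classical in
theorem meetA (σ σ' : St D) (hσ : Inv B σ) (hσ' : Inv B σ') (he : σ.2.1 = σ'.2.1) (hp : σ.1.1 ≠ σ'.1.1) :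
    ∑ l ∈ (m.ML D).filter (fun l => okm B σ.2.2 l), ∑ l' ∈ (m.ML D).filter (fun l => okm B σ'.2.2 l),
      (if comL m σ σ' l l' then Q w α D {c | Rz m.L c σ l ∧ Rz m.L c σ' l'} else 0) ≤
        (2 * m.L + 2) ^ (2 * m.n) * sfun D m.n (σ'.2.2 - σ.2.2) := by
  have h1 : ∀ l ∈ (m.ML D).filter (fun l => okm B σ.2.2 l), ∀ l' ∈ (m.ML D).filter (fun l => okm B σ'.2.2 l),
      (if comL m σ σ' l l' then Q w α D {c | Rz m.L c σ l ∧ Rz m.L c σ' l'} else 0) ≤
      ∑ a ∈ Finset.Icc 1 m.n, ∑ b ∈ Finset.Icc 1 m.n,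
        (if (cc σ (l.take a) ++ cc σ' (l'.take b)).Nodup ∧ σ.2.2 + vsum (l.take a) = σ'.2.2 + vsum (l'.take b) then
          Q w α D {c | Rz m.L c σ l ∧ Rz m.L c σ' l'} else 0) := by
    intro l hl l' hl'
    rw [Finset.mem_filter] at hl hl'
    split
    · next hc =>
      obtain ⟨a, b, ha1, ha2, hb1, hb2, h2, h3⟩ := first_meet ⟨hσ, hl.1, hl.2⟩ ⟨hσ', hl'.1, hl'.2⟩ he hp hc
      refine le_trans ?_ (Finset.single_le_sum (f := fun a => ∑ b ∈ Finset.Icc 1 m.n,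
        (if (cc σ (l.take a) ++ cc σ' (l'.take b)).Nodup ∧ σ.2.2 + vsum (l.take a) = σ'.2.2 + vsum (l'.take b) then
          Q w α D {c | Rz m.L c σ l ∧ Rz m.L c σ' l'} else 0)) (fun _ _ => zero_le) (Finset.mem_Icc.2 ⟨ha1, ha2⟩))
      refine le_trans ?_ (Finset.single_le_sum (f := fun b =>
        (if (cc σ (l.take a) ++ cc σ' (l'.take b)).Nodup ∧ σ.2.2 + vsum (l.take a) = σ'.2.2 + vsum (l'.take b) then
          Q w α D {c | Rz m.L c σ l ∧ Rz m.L c σ' l'} else 0)) (fun _ _ => zero_le) (Finset.mem_Icc.2 ⟨hb1, hb2⟩))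
      simp only [if_pos (And.intro h3 h2), le_refl]
    · exact zero_le
  refine (Finset.sum_le_sum fun l hl => Finset.sum_le_sum fun l' hl' => h1 l hl l' hl').trans ?_
  have hsub : ∀ v : Fin D → ℤ, (m.ML D).filter (fun l => okm B v l) ⊆ lst (m.MK D) m.n :=
    fun v => (Finset.filter_subset _ _).trans (ML_sub m)
  refine ((Finset.sum_le_sum fun l _ => Finset.sum_le_sum_of_subset (hsub σ'.2.2)).trans
    (Finset.sum_le_sum_of_subset (hsub σ.2.2))).trans ?_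
  have h2 : ∑ l ∈ lst (m.MK D) m.n, ∑ l' ∈ lst (m.MK D) m.n, ∑ a ∈ Finset.Icc 1 m.n, ∑ b ∈ Finset.Icc 1 m.n,
        (if (cc σ (l.take a) ++ cc σ' (l'.take b)).Nodup ∧ σ.2.2 + vsum (l.take a) = σ'.2.2 + vsum (l'.take b) then
          Q w α D {c | Rz m.L c σ l ∧ Rz m.L c σ' l'} else 0) =
      ∑ a ∈ Finset.Icc 1 m.n, ∑ b ∈ Finset.Icc 1 m.n, ∑ l ∈ lst (m.MK D) m.n, ∑ l' ∈ lst (m.MK D) m.n,
        (if (cc σ (l.take a) ++ cc σ' (l'.take b)).Nodup ∧ σ.2.2 + vsum (l.take a) = σ'.2.2 + vsum (l'.take b) then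
          Q w α D {c | Rz m.L c σ l ∧ Rz m.L c σ' l'} else 0) := by
    rw [Finset.sum_congr rfl fun l _ => Finset.sum_comm, Finset.sum_comm]
    refine Finset.sum_congr rfl fun a _ => ?_
    rw [Finset.sum_congr rfl fun l _ => Finset.sum_comm, Finset.sum_comm]
  rw [h2]
  unfold sfun
  rw [Finset.mul_sum]
  refine Finset.sum_le_sum fun a ha => ?_
  rw [Finset.mul_sum]
  refine Finset.sum_le_sum fun b hb => ?_
  rw [Finset.mem_Icc] at ha hb
  exact SMeetA_ab m σ σ' a b ha.2 hb.2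

end FDr
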