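import Pool.Agent.Lib.MP_e029a2_pr.SKerT
import Pool.Agent.Lib.MP_e029a2_pr.SMeetA

/-!
# The kernel inequality for distinct frogs (job SKer)

`kern`: `kT` is `kern_T`. `kA`: for a pair `(σ, σ')` as in `Ak (k+1) u`, `u = σ'.2.2 - σ.2.2`:
`X (k+1) σ * X (k+1) σ' = ∑ l, ∑ l', if Rz σ l ∧ Rz σ' l' then X k (end l) * X k (end l') else 0` (`X_succ`,
`Finset.sum_mul_sum`); integrate. The pairs without `comL`: `pair_disj`, the sum is
`≤ W^2 ∑ δ δ', dw^2 Ak k (u + sumv δ' - sumv δ)` (`sum_ML` twice, drop `okl`, `qw_zip`, `vsum_eq`), which is the sum in `Kern`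
after `Finset.sum_comm`; the pairs with `comL`: `pair_le` and `meetA`: `≤ C1 * sfun u * (Tk k + ⨆ Ak)`. The supremum over the
pairs with offset `u`: `iSup₂_le`.
-/

set_option autoImplicit false

namespace FDr

open MeasureTheory ProbabilityTheory
open scoped ENNReal NNReal

open Classical in
private theorem ker_prod {w α : Set.Ioo (0 : ℝ) 1} (m : Mac w α) {D : ℕ} (B : Finset (Fin D → ℤ)) (c : Conf D) (k : ℕ)
    (σ σ' : St D) : X m B c (k + 1) σ * X m B c (k + 1) σ' =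
      ∑ l ∈ (m.ML D).filter (fun l => okm B σ.2.2 l), ∑ l' ∈ (m.ML D).filter (fun l => okm B σ'.2.2 l),
        (if Rz m.L c σ l ∧ Rz m.L c σ' l' then X m B c k (endS σ l) * X m B c k (endS σ' l') else 0) := by
  rw [X_succ, X_succ, Finset.sum_mul_sum]
  refine Finset.sum_congr rfl fun l _ => Finset.sum_congr rfl fun l' _ => ?_
  by_cases h1 : Rz m.L c σ l
  · by_cases h2 : Rz m.L c σ' l'
    · rw [if_pos h1, if_pos h2, if_pos ⟨h1, h2⟩]
    · rw [if_neg h2, mul_zero, if_neg fun h => h2 h.2]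
  · rw [if_neg h1, zero_mul, if_neg fun h => h1 h.1]

open Classical in
private theorem ker_int {w α : Set.Ioo (0 : ℝ) 1} (m : Mac w α) {D : ℕ} [NeZero D] (B : Finset (Fin D → ℤ)) (k : ℕ)
    (σ σ' : St D) (hσ : Inv B σ) (hσ' : Inv B σ') :
    ∫⁻ c, X m B c (k + 1) σ * X m B c (k + 1) σ' ∂Q w α D =
      ∑ l ∈ (m.ML D).filter (fun l => okm B σ.2.2 l), ∑ l' ∈ (m.ML D).filter (fun l => okm B σ'.2.2 l),
        ∫⁻ c, (if Rz m.L c σ l ∧ Rz m.L c σ' l' then X m B c k (endS σ l) * X m B c k (endS σ' l') else 0) ∂Q w α D := by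
  have hm : ∀ l ∈ (m.ML D).filter (fun l => okm B σ.2.2 l), ∀ l' ∈ (m.ML D).filter (fun l => okm B σ'.2.2 l),
      Measurable (fun c : Conf D =>
        if Rz m.L c σ l ∧ Rz m.L c σ' l' then X m B c k (endS σ l) * X m B c k (endS σ' l') else 0) := by
    intro l hl l' hl'
    rw [Finset.mem_filter] at hl hl'
    have h : Chn m B σ l := ⟨hσ, hl.1, hl.2⟩
    have h' : Chn m B σ' l' := ⟨hσ', hl'.1, hl'.2⟩
    exact Measurable.ite (h.Rz_meas.inter h'.Rz_meas)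
      ((X_meas m B k (endS σ l) h.inv_end).mul (X_meas m B k (endS σ' l') h'.inv_end)) measurable_const
  simp only [ker_prod]
  rw [lintegral_finsetSum]
  · refine Finset.sum_congr rfl fun l hl => ?_
    rw [lintegral_finsetSum]
    exact fun l' hl' => hm l hl l' hl'
  · exact fun l hl => Finset.measurable_sum _ fun l' hl' => hm l hl l' hl'

private theorem ker_main {w α : Set.Ioo (0 : ℝ) 1} (m : Mac w α) {D : ℕ} (B : Finset (Fin D → ℤ))
    (σ σ' : St D) (A : (Fin D → ℤ) → ℝ≥0∞) (u : Fin D → ℤ) :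
    ∑ l ∈ (m.ML D).filter (fun l => okm B σ.2.2 l), ∑ l' ∈ (m.ML D).filter (fun l => okm B σ'.2.2 l),
        (qw w α m.L l * dw D m.n * (qw w α m.L l' * dw D m.n) * A (u + vsum l' - vsum l)) ≤
      m.W ^ 2 * (∑ l ∈ inj D m.n, ∑ l' ∈ inj D m.n, dw D m.n ^ 2 * A (u + sumv l - sumv l')) := by
  rw [sum_ML m B σ]
  have h1 : ∀ κ ∈ m.F, ∀ δ ∈ inj D m.n, κ.length = δ.length := fun κ hκ δ hδ =>
    (m.len κ hκ).trans (((mem_inj δ).1 hδ).1).symm
  have h2 : ∀ κ ∈ m.F, ∀ δ ∈ inj D m.n,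
      ∑ l' ∈ (m.ML D).filter (fun l => okm B σ'.2.2 l),
        (qw w α m.L (κ.zip δ) * dw D m.n * (qw w α m.L l' * dw D m.n) * A (u + vsum l' - vsum (κ.zip δ))) ≤
      ∑ κ' ∈ m.F, ∑ δ' ∈ inj D m.n, (κ.map (hW w α m.L)).prod * (κ'.map (hW w α m.L)).prod *
        (dw D m.n ^ 2 * A (u + sumv δ' - sumv δ)) := by
    intro κ hκ δ hδ
    rw [sum_ML m B σ']
    refine Finset.sum_le_sum fun κ' hκ' => ?_
    refine (Finset.sum_le_sum_of_subset (Finset.filter_subset _ _)).trans ?_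
    refine Finset.sum_le_sum fun δ' hδ' => ?_
    rw [qw_zip m.L κ δ (h1 κ hκ δ hδ), qw_zip m.L κ' δ' (h1 κ' hκ' δ' hδ'), vsum_eq, vsum_eq,
      List.map_snd_zip (le_of_eq (h1 κ hκ δ hδ).symm), List.map_snd_zip (le_of_eq (h1 κ' hκ' δ' hδ').symm)]
    refine le_of_eq ?_
    ring
  calc ∑ κ ∈ m.F, ∑ δ ∈ (inj D m.n).filter (fun δ => okl B σ.2.2 δ),
        ∑ l' ∈ (m.ML D).filter (fun l => okm B σ'.2.2 l),
        (qw w α m.L (κ.zip δ) * dw D m.n * (qw w α m.L l' * dw D m.n) * A (u + vsum l' - vsum (κ.zip δ)))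
      ≤ ∑ κ ∈ m.F, ∑ δ ∈ inj D m.n, ∑ κ' ∈ m.F, ∑ δ' ∈ inj D m.n,
        (κ.map (hW w α m.L)).prod * (κ'.map (hW w α m.L)).prod * (dw D m.n ^ 2 * A (u + sumv δ' - sumv δ)) := by
        refine Finset.sum_le_sum fun κ hκ => ?_
        refine (Finset.sum_le_sum_of_subset (Finset.filter_subset _ _)).trans ?_
        exact Finset.sum_le_sum fun δ hδ => h2 κ hκ δ hδ
    _ = m.W ^ 2 * (∑ δ ∈ inj D m.n, ∑ δ' ∈ inj D m.n, dw D m.n ^ 2 * A (u + sumv δ' - sumv δ)) := by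
        have h3 : ∀ κ ∈ m.F, ∀ δ ∈ inj D m.n, ∑ κ' ∈ m.F, ∑ δ' ∈ inj D m.n,
            (κ.map (hW w α m.L)).prod * (κ'.map (hW w α m.L)).prod * (dw D m.n ^ 2 * A (u + sumv δ' - sumv δ)) =
            (κ.map (hW w α m.L)).prod * (m.W * ∑ δ' ∈ inj D m.n, dw D m.n ^ 2 * A (u + sumv δ' - sumv δ)) := by
          intro κ _ δ _
          unfold Mac.W
          rw [Finset.sum_mul, Finset.mul_sum]
          refine Finset.sum_congr rfl fun κ' _ => ?_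
          rw [Finset.mul_sum, Finset.mul_sum]
          refine Finset.sum_congr rfl fun δ' _ => ?_
          ring
        rw [Finset.sum_congr rfl fun κ hκ => Finset.sum_congr rfl fun δ hδ => h3 κ hκ δ hδ]
        have h4 : ∀ κ ∈ m.F, ∑ δ ∈ inj D m.n,
            (κ.map (hW w α m.L)).prod * (m.W * ∑ δ' ∈ inj D m.n, dw D m.n ^ 2 * A (u + sumv δ' - sumv δ)) =
            (κ.map (hW w α m.L)).prod * (m.W * ∑ δ ∈ inj D m.n, ∑ δ' ∈ inj D m.n,
              dw D m.n ^ 2 * A (u + sumv δ' - sumv δ)) := by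
          intro κ _
          rw [← Finset.mul_sum, ← Finset.mul_sum]
        rw [Finset.sum_congr rfl h4, ← Finset.sum_mul]
        change m.W * _ = _
        ring
    _ = m.W ^ 2 * (∑ l ∈ inj D m.n, ∑ l' ∈ inj D m.n, dw D m.n ^ 2 * A (u + sumv l - sumv l')) := by
        rw [Finset.sum_comm]

private theorem ker_const {w α : Set.Ioo (0 : ℝ) 1} (m : Mac w α) :
    ((2 * m.L + 2) ^ (2 * m.n) : ℝ≥0∞) ≤ ((2 * C1 m : ℝ≥0) : ℝ≥0∞) := by
  have h1 : ((2 * m.L + 2) ^ (2 * m.n) : ℝ≥0) ≤ 2 * C1 m := by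
    unfold C1
    have h2 : (1 : ℝ≥0) ≤ 2 * (m.n : ℝ≥0) ^ 2 := by
      have h3 : (1 : ℝ≥0) ≤ (m.n : ℝ≥0) := by
        have := m.n4
        exact_mod_cast (show 1 ≤ m.n by omega)
      have h4 : (1 : ℝ≥0) ≤ (m.n : ℝ≥0) ^ 2 := one_le_pow₀ h3
      calc (1 : ℝ≥0) ≤ (m.n : ℝ≥0) ^ 2 := h4
        _ ≤ (m.n : ℝ≥0) ^ 2 + (m.n : ℝ≥0) ^ 2 := le_self_add
        _ = 2 * (m.n : ℝ≥0) ^ 2 := by ring
    calc ((2 * m.L + 2) ^ (2 * m.n) : ℝ≥0) = 1 * (2 * m.L + 2) ^ (2 * m.n) := by rw [one_mul]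
      _ ≤ 2 * (m.n : ℝ≥0) ^ 2 * (2 * m.L + 2) ^ (2 * m.n) := mul_le_mul_left h2 _
      _ = 2 * ((m.n : ℝ≥0) ^ 2 * (2 * m.L + 2) ^ (2 * m.n)) := by ring
  have h5 := ENNReal.coe_le_coe.2 h1
  push_cast at h5 ⊢
  exact h5

theorem kern {w α : Set.Ioo (0 : ℝ) 1} (m : Mac w α) (D : ℕ) [NeZero D] (B : Finset (Fin D → ℤ)) (h0 : ℤ) :
    Kern D m.n m.W ((2 * C1 m : ℝ≥0) : ℝ≥0∞) (Tk m B h0) (Ak m B h0) := by
  classical
  refine ⟨fun k => kern_T m D B h0 k, fun k u => ?_⟩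
  refine iSup₂_le ?_
  rintro ⟨σ, σ'⟩ ⟨hσ, hσ', e1, e2, hp, hu⟩
  dsimp only at hσ hσ' e1 e2 hp hu
  show ∫⁻ c, X m B c (k + 1) σ * X m B c (k + 1) σ' ∂Q w α D ≤ _
  rw [ker_int m B k σ σ' hσ hσ']
  have key : ∀ l ∈ (m.ML D).filter (fun l => okm B σ.2.2 l), ∀ l' ∈ (m.ML D).filter (fun l => okm B σ'.2.2 l),
      ∫⁻ c, (if Rz m.L c σ l ∧ Rz m.L c σ' l' then X m B c k (endS σ l) * X m B c k (endS σ' l') else 0) ∂Q w α D ≤
        qw w α m.L l * dw D m.n * (qw w α m.L l' * dw D m.n) * Ak m B h0 k (u + vsum l' - vsum l) +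
        (if comL m σ σ' l l' then Q w α D {c | Rz m.L c σ l ∧ Rz m.L c σ' l'} else 0) *
          (Tk m B h0 k + ⨆ v, Ak m B h0 k v) := by
    intro l hl l' hl'
    rw [Finset.mem_filter] at hl hl'
    have h : Chn m B σ l := ⟨hσ, hl.1, hl.2⟩
    have h' : Chn m B σ' l' := ⟨hσ', hl'.1, hl'.2⟩
    by_cases hc : comL m σ σ' l l'
    · rw [if_pos hc]
      exact (pair_le h h' e1 e2 (Or.inl hp)).trans le_add_self
    · rw [if_neg hc, zero_mul, add_zero]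
      have h1 := pair_disj h h' e1 e2 hp (fun a b h1 h2 h3 h4 h5 => hc ⟨a, b, h1, h2, h3, h4, h5⟩)
      rw [hu] at h1
      exact h1
  refine (Finset.sum_le_sum fun l hl => Finset.sum_le_sum fun l' hl' => key l hl l' hl').trans ?_
  simp only [Finset.sum_add_distrib, ← Finset.sum_mul]
  refine add_le_add (ker_main m B σ σ' (Ak m B h0 k) u) ?_
  refine mul_le_mul_left ?_ _
  have h2 := meetA m B σ σ' hσ hσ' (e1.trans e2.symm) hp
  rw [hu] at h2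
  exact h2.trans (mul_le_mul_left (ker_const m) _)

end FDr
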