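import Pool.Agent.Lib.MP_e029a2_pr.SMeetS
import Pool.Agent.Lib.MP_e029a2_pr.SCT
import Pool.Agent.Lib.MP_e029a2_pr.SFirst

/-!
# The expected number of pairs of chains from one state which separate and have equal ends (job SMeetT)

If `l ≠ l'`, the ends are equal and `Q {Rz l ∧ Rz l'} ≠ 0`, there is `c` in the event, so `first_meet'` gives `i < a ≤ n`
with `l.take i = l'.take i`, `vsum (l.take a) = vsum (l'.take a)` and distinct chosen cells. So the sum is at most the sum over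
`i < a ≤ n` and `l, l'` in `lst (m.MK D) n` with these conditions. Write `l = q ++ s ++ e`, `l' = q ++ s' ++ e'`, `|q| = i`,
`|s| = |s'| = a - i` (`sum_lst_add`; the condition `l.take i = l'.take i` identifies the two `q`): `Rz l ∧ Rz l'` implies
`Mt σ (q ++ s)`, `Mt (endS σ q) s'`, `Rz _ e`, `Rz _ e'`; the sum over `e, e'` is pointwise `≤ (2L+2)^(2(n-a))` (`cnt`), and
`∑ q s s', [vsum s = vsum s', Nodup] Q {Mt σ (q ++ s) ∧ Mt (endS σ q) s'} ≤ (2L+2)^i (2L+2)^(2(a-i)) srw (2(a-i)) 0`: by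
`Q_Mt2` the probability is `(∏ pw q) (∏ pw s) (∏ pw s')`, and `sum_pw` three times (with `F = 1` for `q`, `srw_sum`;
`F v = ∑ s', (∏ pw) [v = vsum s'] ≤ (2L+2)^(a-i) srw (a-i) v` for `s`; then `srw_add` with `u = 0` and `srw_neg`).
`srw_le`: `srw (2(a-i)) 0 ≤ (2D)⁻¹ ≤ D⁻¹`. There are at most `n^2` pairs `i < a ≤ n`.
(You may first prove the estimate for fixed `i, a` as a separate lemma.)
-/

set_option autoImplicit false

namespace FDr

open MeasureTheory ProbabilityTheory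
open scoped ENNReal

variable {w α : Set.Ioo (0 : ℝ) 1} (m : Mac w α) {D : ℕ} [NeZero D] (B : Finset (Fin D → ℤ))

omit [NeZero D] in
private theorem SMeetT_meas [NeZero D] (L : ℕ) (τ : St D) (t : List (Mic D)) (ht : ∀ μ ∈ t, ∀ r, μ.1.1 = some r → |r| ≤ L) :
    MeasurableSet {c : Conf D | Rz L c τ t} :=
  Dep.measurableSet (Us_finite L τ t) (Rz_dep L τ t ht)

omit [NeZero D] in
private theorem SMeetT_Mtm [NeZero D] (τ : St D) (t : List (Mic D)) : MeasurableSet {c : Conf D | Mt c τ t} :=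
  Dep.measurableSet (List.finite_toSet (cc τ t)) (Mt_dep τ t)

open Classical in
/-- The sum over the ends of the lists. -/
private theorem SMeetT_ends (L : ℕ) (S : Finset (Mic D)) (hS : ∀ μ ∈ S, ∀ r, μ.1.1 = some r → |r| ≤ L) (e : ℕ)
    (σ : St D) (p p' : List (Mic D)) (q s' : List (Mic D))
    (hpe' : p' = q ++ s') :
    ∑ t ∈ lst S e, ∑ t' ∈ lst S e, Q w α D {c | Rz L c σ (p ++ t) ∧ Rz L c σ (p' ++ t')} ≤
      (2 * L + 2) ^ (2 * e) * Q w α D {c | Mt c σ p ∧ Mt c (endS σ q) s'} := by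
  have hmem : ∀ t ∈ lst S e, ∀ μ ∈ t, ∀ r, μ.1.1 = some r → |r| ≤ L := fun t ht μ hμ =>
    hS μ (((mem_lst S e t).1 ht).2 μ hμ)
  have hM : MeasurableSet {c : Conf D | Mt c σ p ∧ Mt c (endS σ q) s'} := (SMeetT_Mtm σ p).inter (SMeetT_Mtm _ s')
  -- the bound of one probability by an integral
  have h1 : ∀ t ∈ lst S e, ∀ t' ∈ lst S e, Q w α D {c | Rz L c σ (p ++ t) ∧ Rz L c σ (p' ++ t')} ≤
      ∫⁻ c, (if Mt c σ p ∧ Mt c (endS σ q) s' then (1 : ℝ≥0∞) else 0) *
        ((if Rz L c (endS σ p) t then 1 else 0) * (if Rz L c (endS σ p') t' then 1 else 0)) ∂Q w α D := by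
    intro t ht t' ht'
    have h2 : {c : Conf D | Rz L c σ (p ++ t) ∧ Rz L c σ (p' ++ t')} ⊆
        {c | (Mt c σ p ∧ Mt c (endS σ q) s') ∧ Rz L c (endS σ p) t ∧ Rz L c (endS σ p') t'} := by
      rintro c ⟨h3, h4⟩
      rw [Rz_append] at h3 h4
      have h5 := Rz_Mt h4.1
      rw [hpe', Mt_append] at h5
      exact ⟨⟨Rz_Mt h3.1, h5.2⟩, h3.2, h4.2⟩
    have h3 : MeasurableSet {c : Conf D | (Mt c σ p ∧ Mt c (endS σ q) s') ∧ Rz L c (endS σ p) t ∧ Rz L c (endS σ p') t'} :=
      hM.inter ((SMeetT_meas L _ t (hmem t ht)).inter (SMeetT_meas L _ t' (hmem t' ht')))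
    refine (measure_mono h2).trans ?_
    rw [← lint_ind _ _ h3]
    refine lintegral_mono fun c => ?_
    show (if (Mt c σ p ∧ Mt c (endS σ q) s') ∧ Rz L c (endS σ p) t ∧ Rz L c (endS σ p') t' then (1 : ℝ≥0∞) else 0) ≤ _
    by_cases h4 : (Mt c σ p ∧ Mt c (endS σ q) s') ∧ Rz L c (endS σ p) t ∧ Rz L c (endS σ p') t'
    · rw [if_pos h4, if_pos h4.1, if_pos h4.2.1, if_pos h4.2.2, one_mul, one_mul]
    · rw [if_neg h4]
      exact zero_le
  have hmi : ∀ t ∈ lst S e, ∀ t' ∈ lst S e, Measurable fun c : Conf D =>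
      (if Mt c σ p ∧ Mt c (endS σ q) s' then (1 : ℝ≥0∞) else 0) *
        ((if Rz L c (endS σ p) t then 1 else 0) * (if Rz L c (endS σ p') t' then 1 else 0)) := by
    intro t ht t' ht'
    exact (Measurable.ite hM measurable_const measurable_const).mul
      ((Measurable.ite (SMeetT_meas L _ t (hmem t ht)) measurable_const measurable_const).mul
        (Measurable.ite (SMeetT_meas L _ t' (hmem t' ht')) measurable_const measurable_const))
  calc ∑ t ∈ lst S e, ∑ t' ∈ lst S e, Q w α D {c | Rz L c σ (p ++ t) ∧ Rz L c σ (p' ++ t')}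
      ≤ ∑ t ∈ lst S e, ∑ t' ∈ lst S e, ∫⁻ c, (if Mt c σ p ∧ Mt c (endS σ q) s' then (1 : ℝ≥0∞) else 0) *
        ((if Rz L c (endS σ p) t then 1 else 0) * (if Rz L c (endS σ p') t' then 1 else 0)) ∂Q w α D :=
        Finset.sum_le_sum fun t ht => Finset.sum_le_sum fun t' ht' => h1 t ht t' ht'
    _ = ∫⁻ c, ∑ t ∈ lst S e, ∑ t' ∈ lst S e, (if Mt c σ p ∧ Mt c (endS σ q) s' then (1 : ℝ≥0∞) else 0) *
        ((if Rz L c (endS σ p) t then 1 else 0) * (if Rz L c (endS σ p') t' then 1 else 0)) ∂Q w α D := by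
        rw [lintegral_finsetSum' _ fun t ht => (Finset.aemeasurable_fun_sum _ fun t' ht' => (hmi t ht t' ht').aemeasurable)]
        refine Finset.sum_congr rfl fun t ht => ?_
        rw [lintegral_finsetSum' _ fun t' ht' => (hmi t ht t' ht').aemeasurable]
    _ ≤ ∫⁻ c, (2 * L + 2) ^ (2 * e) * (if Mt c σ p ∧ Mt c (endS σ q) s' then (1 : ℝ≥0∞) else 0) ∂Q w α D := by
        refine lintegral_mono fun c => ?_
        show ∑ t ∈ lst S e, ∑ t' ∈ lst S e, (if Mt c σ p ∧ Mt c (endS σ q) s' then (1 : ℝ≥0∞) else 0) *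
          ((if Rz L c (endS σ p) t then 1 else 0) * (if Rz L c (endS σ p') t' then 1 else 0)) ≤ _
        have h2 : ∑ t ∈ lst S e, ∑ t' ∈ lst S e, (if Mt c σ p ∧ Mt c (endS σ q) s' then (1 : ℝ≥0∞) else 0) *
            ((if Rz L c (endS σ p) t then 1 else 0) * (if Rz L c (endS σ p') t' then 1 else 0)) =
            (if Mt c σ p ∧ Mt c (endS σ q) s' then (1 : ℝ≥0∞) else 0) *
              ((∑ t ∈ lst S e, if Rz L c (endS σ p) t then 1 else 0) * ∑ t' ∈ lst S e, if Rz L c (endS σ p') t' then 1 else 0) := by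
          rw [Finset.sum_mul_sum, Finset.mul_sum]
          refine Finset.sum_congr rfl fun t _ => ?_
          rw [Finset.mul_sum]
        have h3 : (2 * L + 2 : ℝ≥0∞) ^ (2 * e) = (2 * L + 2) ^ e * (2 * L + 2) ^ e := by
          rw [← pow_add, ← two_mul e]
        rw [h2, mul_comm, h3]
        exact mul_le_mul_left (mul_le_mul' (cnt S L c e _) (cnt S L c e _)) _
    _ = (2 * L + 2) ^ (2 * e) * Q w α D {c | Mt c σ p ∧ Mt c (endS σ q) s'} := by
        rw [lintegral_const_mul _ (Measurable.ite hM measurable_const measurable_const), lint_ind _ _ hM]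

open Classical in
/-- The estimate for a fixed place of the separation and of the meeting. -/
private theorem SMeetT_fix (L : ℕ) (S : Finset (Mic D)) (hS : ∀ μ ∈ S, ∀ r, μ.1.1 = some r → |r| ≤ L) (i b e : ℕ)
    (hb : 1 ≤ b) (σ : St D) :
    ∑ l ∈ lst S (i + (b + e)), ∑ l' ∈ lst S (i + (b + e)),
      (if l.take i = l'.take i ∧ vsum (l.take (i + b)) = vsum (l'.take (i + b)) ∧
        (cc σ (l.take (i + b)) ++ cc (st σ l i) ((l'.take (i + b)).drop i)).Nodup then
          Q w α D {c | Rz L c σ l ∧ Rz L c σ l'} else 0) ≤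
      (2 * L + 2) ^ (2 * e + i + b + b) * (2 * (D : ℝ≥0∞))⁻¹ := by
  have hD : D ≠ 0 := NeZero.ne D
  have hlen : ∀ (k : ℕ) (l : List (Mic D)), l ∈ lst S k → l.length = k := fun k l hl => ((mem_lst S k l).1 hl).1
  have hvs : ∀ l l' : List (Mic D), vsum (l ++ l') = vsum l + vsum l' := by
    intro l l'
    unfold vsum
    rw [List.map_append, List.sum_append]
  rw [sum_lst_add]
  -- the inner sum
  have h1 : ∀ q ∈ lst S i, ∀ x ∈ lst S (b + e), ∑ l' ∈ lst S (i + (b + e)),
      (if (q ++ x).take i = l'.take i ∧ vsum ((q ++ x).take (i + b)) = vsum (l'.take (i + b)) ∧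
        (cc σ ((q ++ x).take (i + b)) ++ cc (st σ (q ++ x) i) ((l'.take (i + b)).drop i)).Nodup then
          Q w α D {c | Rz L c σ (q ++ x) ∧ Rz L c σ l'} else 0) ≤
      ∑ s' ∈ lst S b, ∑ t' ∈ lst S e, (if vsum (x.take b) = vsum s' ∧ (cc σ (q ++ x.take b) ++ cc (endS σ q) s').Nodup then
          Q w α D {c | Rz L c σ (q ++ x) ∧ Rz L c σ (q ++ (s' ++ t'))} else 0) := by
    intro q hq x _
    have hql := hlen i q hq
    have e1 : (q ++ x).take i = q := by
      rw [← hql, List.take_left]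
    have e2 : (q ++ x).take (i + b) = q ++ x.take b := by
      rw [← hql, List.take_length_add_append]
    have e3 : st σ (q ++ x) i = endS σ q := by
      unfold st
      rw [e1]
    rw [sum_lst_add, Finset.sum_eq_single q]
    · rw [sum_lst_add]
      refine Finset.sum_le_sum fun s' hs' => Finset.sum_le_sum fun t' _ => ?_
      have hsl := hlen b s' hs'
      have f1 : (q ++ (s' ++ t')).take i = q := by
        rw [← hql, List.take_left]
      have f2 : (q ++ (s' ++ t')).take (i + b) = q ++ s' := by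
        rw [← hql, List.take_length_add_append, ← hsl, List.take_left]
      have f3 : (q ++ s').drop i = s' := by
        rw [← hql, List.drop_left]
      rw [e1, e2, e3, f1, f2, f3]
      by_cases hC : vsum (x.take b) = vsum s' ∧ (cc σ (q ++ x.take b) ++ cc (endS σ q) s').Nodup
      · rw [if_pos hC]
        split_ifs
        · exact le_rfl
        · exact zero_le
      · rw [if_neg hC, if_neg]
        rintro ⟨-, g1, g2⟩
        rw [hvs, hvs] at g1
        exact hC ⟨add_left_cancel g1, g2⟩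
    · intro q' hq' hne
      refine Finset.sum_eq_zero fun y _ => if_neg ?_
      rintro ⟨g1, -⟩
      rw [e1, ← hlen i q' hq', List.take_left] at g1
      exact hne g1.symm
    · intro h
      exact absurd hq h
  -- the sum over the ends
  have h2 : ∀ q ∈ lst S i, ∑ x ∈ lst S (b + e), ∑ s' ∈ lst S b, ∑ t' ∈ lst S e,
      (if vsum (x.take b) = vsum s' ∧ (cc σ (q ++ x.take b) ++ cc (endS σ q) s').Nodup then
          Q w α D {c | Rz L c σ (q ++ x) ∧ Rz L c σ (q ++ (s' ++ t'))} else 0) ≤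
      ∑ s ∈ lst S b, ∑ s' ∈ lst S b, (if vsum s = vsum s' then
        (2 * L + 2) ^ (2 * e) * ((q.map (pw w α)).prod * (s.map (pw w α)).prod * (s'.map (pw w α)).prod) else 0) := by
    intro q hq
    rw [sum_lst_add]
    refine Finset.sum_le_sum fun s hs => ?_
    have hsl := hlen b s hs
    have e1 : ∀ t : List (Mic D), (s ++ t).take b = s := by
      intro t
      rw [← hsl, List.take_left]
    rw [Finset.sum_comm]
    refine Finset.sum_le_sum fun s' hs' => ?_
    by_cases hC : vsum s = vsum s' ∧ (cc σ (q ++ s) ++ cc (endS σ q) s').Nodup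
    · rw [if_pos hC.1]
      have h3 := SMeetT_ends (w := w) (α := α) L S hS e σ (q ++ s) (q ++ s') q s' rfl
      rw [Q_Mt2 w α σ (endS σ q) (q ++ s) s' hC.2, List.map_append, List.prod_append] at h3
      refine le_trans (Finset.sum_le_sum fun t _ => Finset.sum_le_sum fun t' _ => ?_) h3
      rw [e1, if_pos hC, List.append_assoc, List.append_assoc]
    · have h3 : ∑ t ∈ lst S e, ∑ t' ∈ lst S e,
          (if vsum ((s ++ t).take b) = vsum s' ∧ (cc σ (q ++ (s ++ t).take b) ++ cc (endS σ q) s').Nodup then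
            Q w α D {c | Rz L c σ (q ++ (s ++ t)) ∧ Rz L c σ (q ++ (s' ++ t'))} else 0) = 0 := by
        refine Finset.sum_eq_zero fun t _ => Finset.sum_eq_zero fun t' _ => ?_
        rw [e1, if_neg hC]
      rw [h3]
      exact zero_le
  -- the sums over `s'`, `s`, `q`
  have h3 : ∀ s : List (Mic D), ∑ s' ∈ lst S b, (if vsum s = vsum s' then (s'.map (pw w α)).prod else 0) ≤
      (2 * L + 2) ^ b * srw D b (vsum s) := by
    intro s
    have h4 := sum_pw w α L S hS b (fun v => if vsum s = v then 1 else 0)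
    have h5 : ∑' v, srw D b v * (if vsum s = v then (1 : ℝ≥0∞) else 0) = srw D b (vsum s) := by
      rw [tsum_eq_single (vsum s)]
      · rw [if_pos rfl, mul_one]
      · intro v hv
        rw [if_neg (Ne.symm hv), mul_zero]
    rw [h5] at h4
    refine le_trans (Finset.sum_le_sum fun s' _ => ?_) h4
    by_cases h6 : vsum s = vsum s'
    · rw [if_pos h6, if_pos h6, mul_one]
    · rw [if_neg h6, if_neg h6, mul_zero]
  have h4 : ∑ s ∈ lst S b, (s.map (pw w α)).prod * srw D b (vsum s) ≤ (2 * L + 2) ^ b * (2 * (D : ℝ≥0∞))⁻¹ := by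
    refine (sum_pw w α L S hS b (fun v => srw D b v)).trans (mul_le_mul_right ?_ _)
    have h5 : ∑' v, srw D b v * srw D b v = srw D (b + b) 0 := by
      rw [← srw_add b b 0]
      refine tsum_congr fun v => ?_
      rw [zero_sub, srw_neg]
    rw [h5]
    exact srw_le hD (b + b) (by omega) 0
  have h5 : ∑ q ∈ lst S i, (q.map (pw w α)).prod ≤ (2 * L + 2) ^ i := by
    have h6 := sum_pw w α L S hS i (fun _ => 1)
    have h7 : ∑' v, srw D i v * (1 : ℝ≥0∞) = 1 := by
      calc ∑' v, srw D i v * (1 : ℝ≥0∞) = ∑' v, srw D i v := tsum_congr fun v => mul_one _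
        _ = 1 := srw_sum hD i
    rw [h7, mul_one] at h6
    refine le_trans (Finset.sum_le_sum fun q _ => ?_) h6
    rw [mul_one]
  calc _ ≤ ∑ q ∈ lst S i, ∑ s ∈ lst S b, ∑ s' ∈ lst S b, (if vsum s = vsum s' then
        (2 * L + 2) ^ (2 * e) * ((q.map (pw w α)).prod * (s.map (pw w α)).prod * (s'.map (pw w α)).prod) else 0) :=
        Finset.sum_le_sum fun q hq => (Finset.sum_le_sum fun x hx => h1 q hq x hx).trans (h2 q hq)
    _ ≤ ∑ q ∈ lst S i, (2 * L + 2) ^ (2 * e) * ((2 * L + 2) ^ b * ((2 * L + 2) ^ b * (2 * (D : ℝ≥0∞))⁻¹)) * (q.map (pw w α)).prod := by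
        refine Finset.sum_le_sum fun q _ => ?_
        have h6 : ∀ s : List (Mic D), ∑ s' ∈ lst S b, (if vsum s = vsum s' then
            (2 * L + 2 : ℝ≥0∞) ^ (2 * e) * ((q.map (pw w α)).prod * (s.map (pw w α)).prod * (s'.map (pw w α)).prod) else 0) ≤
            (2 * L + 2) ^ (2 * e) * (q.map (pw w α)).prod * (2 * L + 2) ^ b * ((s.map (pw w α)).prod * srw D b (vsum s)) := by
          intro s
          have h7 : ∑ s' ∈ lst S b, (if vsum s = vsum s' then
              (2 * L + 2 : ℝ≥0∞) ^ (2 * e) * ((q.map (pw w α)).prod * (s.map (pw w α)).prod * (s'.map (pw w α)).prod) else 0) =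
              (2 * L + 2) ^ (2 * e) * ((q.map (pw w α)).prod * (s.map (pw w α)).prod) *
                ∑ s' ∈ lst S b, (if vsum s = vsum s' then (s'.map (pw w α)).prod else 0) := by
            rw [Finset.mul_sum]
            refine Finset.sum_congr rfl fun s' _ => ?_
            by_cases h8 : vsum s = vsum s'
            · rw [if_pos h8, if_pos h8]
              ring
            · rw [if_neg h8, if_neg h8, mul_zero]
          rw [h7]
          refine (mul_le_mul_right (h3 s) _).trans (le_of_eq ?_)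
          ring
        refine (Finset.sum_le_sum fun s _ => h6 s).trans ?_
        rw [← Finset.mul_sum]
        refine (mul_le_mul_right h4 _).trans (le_of_eq ?_)
        ring
    _ = (2 * L + 2) ^ (2 * e) * ((2 * L + 2) ^ b * ((2 * L + 2) ^ b * (2 * (D : ℝ≥0∞))⁻¹)) * ∑ q ∈ lst S i, (q.map (pw w α)).prod := by
        rw [← Finset.mul_sum]
    _ ≤ (2 * L + 2) ^ (2 * e) * ((2 * L + 2) ^ b * ((2 * L + 2) ^ b * (2 * (D : ℝ≥0∞))⁻¹)) * (2 * L + 2) ^ i := mul_le_mul_right h5 _
    _ = (2 * L + 2) ^ (2 * e + i + b + b) * (2 * (D : ℝ≥0∞))⁻¹ := by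
        rw [pow_add, pow_add, pow_add]
        ring

open Classical in
theorem meetT (σ : St D) (hσ : Inv B σ) :
    ∑ l ∈ (m.ML D).filter (fun l => okm B σ.2.2 l), ∑ l' ∈ (m.ML D).filter (fun l => okm B σ.2.2 l),
      (if l ≠ l' ∧ endS σ l = endS σ l' then Q w α D {c | Rz m.L c σ l ∧ Rz m.L c σ l'} else 0) ≤
        (m.n : ℝ≥0∞) ^ 2 * (2 * m.L + 2) ^ (2 * m.n) / D := by
  have hD : D ≠ 0 := NeZero.ne D
  set S : Finset (Mic D) := m.MK D with hSdef
  have hS : ∀ μ ∈ S, ∀ r, μ.1.1 = some r → |r| ≤ m.L := by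
    intro μ hμ r hr
    rw [hSdef] at hμ
    unfold Mac.MK at hμ
    have h1 := (Finset.mem_product.1 hμ).1
    unfold Mac.K at h1
    obtain ⟨κ, hκ, h2⟩ := Finset.mem_biUnion.1 h1
    exact m.rL κ hκ _ (List.mem_toFinset.1 h2) r hr
  set A := (m.ML D).filter (fun l => okm B σ.2.2 l) with hA
  have hAsub : A ⊆ lst S m.n := (Finset.filter_subset _ _).trans (ML_sub m)
  set G : ℕ → ℕ → List (Mic D) → List (Mic D) → ℝ≥0∞ := fun i a l l' =>
    (if l.take i = l'.take i ∧ vsum (l.take a) = vsum (l'.take a) ∧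
        (cc σ (l.take a) ++ cc (st σ l i) ((l'.take a).drop i)).Nodup then
          Q w α D {c | Rz m.L c σ l ∧ Rz m.L c σ l'} else 0) with hG
  -- the first meeting
  have h1 : ∀ l ∈ A, ∀ l' ∈ A, (if l ≠ l' ∧ endS σ l = endS σ l' then Q w α D {c | Rz m.L c σ l ∧ Rz m.L c σ l'} else 0) ≤
      ∑ i ∈ Finset.range m.n, ∑ a ∈ Finset.Icc (i + 1) m.n, G i a l l' := by
    intro l hl l' hl'
    by_cases hC : l ≠ l' ∧ endS σ l = endS σ l'
    · rw [if_pos hC]
      by_cases hex : ∃ c : Conf D, Rz m.L c σ l ∧ Rz m.L c σ l'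
      · obtain ⟨c, hc⟩ := hex
        rw [hA, Finset.mem_filter] at hl hl'
        obtain ⟨i, a, hia, han, g1, g2, g3⟩ := first_meet' ⟨hσ, hl.1, hl.2⟩ ⟨hσ, hl'.1, hl'.2⟩ hC.1 c (Rz_Mt hc.1) (Rz_Mt hc.2) hC.2
        have h2 : G i a l l' = Q w α D {c | Rz m.L c σ l ∧ Rz m.L c σ l'} := if_pos ⟨g1, g2, g3⟩
        rw [← h2]
        have h3 : G i a l l' ≤ ∑ a ∈ Finset.Icc (i + 1) m.n, G i a l l' :=
          Finset.single_le_sum (f := fun a => G i a l l') (fun _ _ => zero_le) (Finset.mem_Icc.2 ⟨hia, han⟩)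
        exact h3.trans (Finset.single_le_sum (f := fun i => ∑ a ∈ Finset.Icc (i + 1) m.n, G i a l l') (fun _ _ => zero_le)
          (Finset.mem_range.2 (by omega)))
      · have h2 : {c : Conf D | Rz m.L c σ l ∧ Rz m.L c σ l'} = ∅ := by
          ext c
          exact ⟨fun hc => hex ⟨c, hc⟩, fun hc => hc.elim⟩
        rw [h2, measure_empty]
        exact zero_le
    · rw [if_neg hC]
      exact zero_le
  -- the estimate for fixed places
  have h2 : ∀ i ∈ Finset.range m.n, ∀ a ∈ Finset.Icc (i + 1) m.n, ∑ l ∈ A, ∑ l' ∈ A, G i a l l' ≤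
      (2 * m.L + 2) ^ (2 * m.n) / D := by
    intro i hi a ha
    rw [Finset.mem_range] at hi
    rw [Finset.mem_Icc] at ha
    obtain ⟨b, rfl⟩ : ∃ b, a = i + b := ⟨a - i, by omega⟩
    obtain ⟨e, he⟩ : ∃ e, m.n = i + (b + e) := ⟨m.n - (i + b), by omega⟩
    have h3 : ∑ l ∈ A, ∑ l' ∈ A, G i (i + b) l l' ≤ ∑ l ∈ lst S m.n, ∑ l' ∈ lst S m.n, G i (i + b) l l' :=
      (Finset.sum_le_sum fun l _ => Finset.sum_le_sum_of_subset hAsub).trans (Finset.sum_le_sum_of_subset hAsub)
    refine h3.trans ?_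
    rw [he]
    refine (SMeetT_fix (w := w) (α := α) m.L S hS i b e (by omega) σ).trans ?_
    rw [div_eq_mul_inv]
    refine mul_le_mul' (pow_le_pow_right' ?_ (by omega)) ?_
    · have h4 : (1 : ℝ≥0∞) ≤ 2 := by norm_num
      exact h4.trans le_add_self
    · rw [ENNReal.inv_le_inv]
      exact le_mul_of_one_le_left zero_le (by norm_num)
  calc _ ≤ ∑ l ∈ A, ∑ l' ∈ A, ∑ i ∈ Finset.range m.n, ∑ a ∈ Finset.Icc (i + 1) m.n, G i a l l' :=
        Finset.sum_le_sum fun l hl => Finset.sum_le_sum fun l' hl' => h1 l hl l' hl'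
    _ = ∑ i ∈ Finset.range m.n, ∑ a ∈ Finset.Icc (i + 1) m.n, ∑ l ∈ A, ∑ l' ∈ A, G i a l l' := by
        have e1 : ∀ l, ∑ l' ∈ A, ∑ i ∈ Finset.range m.n, ∑ a ∈ Finset.Icc (i + 1) m.n, G i a l l' =
            ∑ i ∈ Finset.range m.n, ∑ a ∈ Finset.Icc (i + 1) m.n, ∑ l' ∈ A, G i a l l' := by
          intro l
          rw [Finset.sum_comm]
          refine Finset.sum_congr rfl fun i _ => ?_
          rw [Finset.sum_comm]
        rw [Finset.sum_congr rfl fun l _ => e1 l, Finset.sum_comm]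
        refine Finset.sum_congr rfl fun i _ => ?_
        rw [Finset.sum_comm]
    _ ≤ ∑ i ∈ Finset.range m.n, ∑ _a ∈ Finset.Icc (i + 1) m.n, ((2 * m.L + 2) ^ (2 * m.n) / D : ℝ≥0∞) :=
        Finset.sum_le_sum fun i hi => Finset.sum_le_sum fun a ha => h2 i hi a ha
    _ ≤ ∑ _i ∈ Finset.range m.n, (m.n : ℝ≥0∞) * ((2 * m.L + 2) ^ (2 * m.n) / D) := by
        refine Finset.sum_le_sum fun i _ => ?_
        rw [Finset.sum_const, nsmul_eq_mul, Nat.card_Icc]
        refine mul_le_mul_left ?_ _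
        exact_mod_cast (by omega : m.n + 1 - (i + 1) ≤ m.n)
    _ = (m.n : ℝ≥0∞) ^ 2 * (2 * m.L + 2) ^ (2 * m.n) / D := by
        rw [Finset.sum_const, nsmul_eq_mul, Finset.card_range, ← mul_assoc, ← pow_two, mul_div_assoc]

end FDr
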