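import Pool.Agent.Lib.MP_e029a2_pr.SPair
import Pool.Agent.Lib.MP_e029a2_pr.SMeetT

/-!
# The kernel inequality for equal states (job SKerT)

For `σ` with `Inv B σ` and height `h0 + (k+1) H`: `X (k+1) σ * X (k+1) σ = ∑ l, ∑ l', if Rz l ∧ Rz l' then X k (end l) *
X k (end l') else 0` (`X_succ`, `Finset.sum_mul_sum`); integrate (`lintegral_finset_sum`, measurability: `X_meas`, `Rz_meas`).
The terms `l = l'`: `pair_eq`, the sum is `≤ (∑ l, qw l * dw) Tk k ≤ W * qn * Tk k` (`sum_ML`, `qw_zip`, dropping `okl`: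
`∑ κ ∈ F, ∑ δ ∈ inj, ∏ hW * dw = W * (card inj * dw)`). The terms `l ≠ l'` with equal ends: `pair_le` (with `σ = σ'`) and
`meetT`: `≤ (n^2 (2L+2)^(2n) / D) (Tk k + ⨆ Ak)`; the others: `pair_le_ne` and `all_pairs`: `≤ (2L+2)^(2n) ⨆ Ak`. The
coefficient of `Tk k` is `W qn + C1 / D`, that of `⨆ Ak` is `n^2 (2L+2)^(2n) / D + (2L+2)^(2n) ≤ 2 C1` (`C1 = n^2 (2L+2)^(2n)`,
`n ≥ 4`, `D ≥ 1`). Then `iSup₂_le` over the states.
-/

set_option autoImplicit false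

namespace FDr

open MeasureTheory ProbabilityTheory
open scoped ENNReal NNReal

open Classical in
private theorem SKerT_term {w α : Set.Ioo (0 : ℝ) 1} {m : Mac w α} {D : ℕ} [NeZero D] {B : Finset (Fin D → ℤ)} {h0 : ℤ}
    {k : ℕ} {σ : St D} {l l' : List (Mic D)} (h : Chn m B σ l) (h' : Chn m B σ l')
    (hσ : σ.2.1 = h0 + (k + 1 : ℕ) * m.H) :
    ∫⁻ c, (if Rz m.L c σ l ∧ Rz m.L c σ l' then X m B c k (endS σ l) * X m B c k (endS σ l') else 0) ∂Q w α D ≤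
      (if l = l' then qw w α m.L l * dw D m.n * Tk m B h0 k else 0) +
      (if l ≠ l' ∧ endS σ l = endS σ l' then Q w α D {c | Rz m.L c σ l ∧ Rz m.L c σ l'} else 0) *
        (Tk m B h0 k + ⨆ u, Ak m B h0 k u) +
      Q w α D {c | Rz m.L c σ l ∧ Rz m.L c σ l'} * ⨆ u, Ak m B h0 k u := by
  by_cases hll : l = l'
  · subst hll
    rw [if_pos rfl]
    exact (pair_eq h hσ).trans (le_trans le_self_add le_self_add)
  · by_cases he : endS σ l = endS σ l'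
    · rw [if_neg hll, if_pos ⟨hll, he⟩, zero_add]
      exact (pair_le h h' hσ hσ (Or.inr rfl)).trans le_self_add
    · exact (pair_le_ne h h' hσ hσ (Or.inr rfl) he).trans le_add_self

/-- the diagonal -/
private theorem SKerT_diag {w α : Set.Ioo (0 : ℝ) 1} (m : Mac w α) {D : ℕ} [NeZero D] (B : Finset (Fin D → ℤ))
    (σ : St D) : ∑ l ∈ (m.ML D).filter (fun l => okm B σ.2.2 l), qw w α m.L l * dw D m.n ≤ m.W * qn D m.n := by
  rw [sum_ML m B σ (fun l => qw w α m.L l * dw D m.n)]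
  unfold Mac.W qn
  rw [Finset.sum_mul]
  refine Finset.sum_le_sum fun κ hκ => ?_
  have h1 : ∀ δ ∈ (inj D m.n).filter (fun δ => okl B σ.2.2 δ),
      qw w α m.L (κ.zip δ) * dw D m.n = (κ.map (hW w α m.L)).prod * dw D m.n := by
    intro δ hδ
    rw [Finset.mem_filter] at hδ
    rw [qw_zip]
    exact (m.len κ hκ).trans (((mem_inj δ).1 hδ.1).1).symm
  rw [Finset.sum_congr rfl h1, Finset.sum_const, nsmul_eq_mul]
  have h2 : (((inj D m.n).filter (fun δ => okl B σ.2.2 δ)).card : ℝ≥0∞) ≤ ((inj D m.n).card : ℝ≥0∞) := by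
    exact_mod_cast Finset.card_le_card (Finset.filter_subset _ _)
  calc (((inj D m.n).filter (fun δ => okl B σ.2.2 δ)).card : ℝ≥0∞) * ((κ.map (hW w α m.L)).prod * dw D m.n)
      ≤ ((inj D m.n).card : ℝ≥0∞) * ((κ.map (hW w α m.L)).prod * dw D m.n) := by gcongr
    _ = (κ.map (hW w α m.L)).prod * (((inj D m.n).card : ℝ≥0∞) * dw D m.n) := by ring

theorem kern_T {w α : Set.Ioo (0 : ℝ) 1} (m : Mac w α) (D : ℕ) [NeZero D] (B : Finset (Fin D → ℤ)) (h0 : ℤ) (k : ℕ) :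
    Tk m B h0 (k + 1) ≤ (m.W * qn D m.n + ((2 * C1 m : ℝ≥0) : ℝ≥0∞) / D) * Tk m B h0 k +
      ((2 * C1 m : ℝ≥0) : ℝ≥0∞) * ⨆ u, Ak m B h0 k u := by
  classical
  obtain ⟨S, hS⟩ : ∃ S, S = ⨆ u, Ak m B h0 k u := ⟨_, rfl⟩
  obtain ⟨T, hT⟩ : ∃ T, T = Tk m B h0 k := ⟨_, rfl⟩
  rw [← hS, ← hT]
  obtain ⟨P, hP⟩ : ∃ P : ℝ≥0∞, P = (2 * m.L + 2) ^ (2 * m.n) := ⟨_, rfl⟩
  have hC : ((2 * C1 m : ℝ≥0) : ℝ≥0∞) = 2 * ((m.n : ℝ≥0∞) ^ 2 * P) := by
    rw [hP]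
    unfold C1
    push_cast
    rfl
  refine iSup₂_le fun σ hσ => ?_
  obtain ⟨A, hA⟩ : ∃ A, A = (m.ML D).filter (fun l => okm B σ.2.2 l) := ⟨_, rfl⟩
  have hchn : ∀ l ∈ A, Chn m B σ l := by
    intro l hl
    rw [hA, Finset.mem_filter] at hl
    exact ⟨hσ.1, hl.1, hl.2⟩
  have h1 : ∀ c : Conf D, X m B c (k + 1) σ * X m B c (k + 1) σ = ∑ l ∈ A, ∑ l' ∈ A,
      (if Rz m.L c σ l ∧ Rz m.L c σ l' then X m B c k (endS σ l) * X m B c k (endS σ l') else 0) := by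
    intro c
    rw [X_succ, ← hA, Finset.sum_mul_sum]
    refine Finset.sum_congr rfl fun l _ => Finset.sum_congr rfl fun l' _ => ?_
    by_cases h2 : Rz m.L c σ l
    · by_cases h3 : Rz m.L c σ l'
      · rw [if_pos h2, if_pos h3, if_pos ⟨h2, h3⟩]
      · rw [if_pos h2, if_neg h3, if_neg (fun h => h3 h.2), mul_zero]
    · rw [if_neg h2, zero_mul, if_neg (fun h => h2 h.1)]
  have hmeas : ∀ l ∈ A, ∀ l' ∈ A, Measurable (fun c : Conf D =>
      if Rz m.L c σ l ∧ Rz m.L c σ l' then X m B c k (endS σ l) * X m B c k (endS σ l') else 0) := by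
    intro l hl l' hl'
    exact Measurable.ite ((hchn l hl).Rz_meas.inter (hchn l' hl').Rz_meas)
      ((X_meas m B k _ (hchn l hl).inv_end).mul (X_meas m B k _ (hchn l' hl').inv_end)) measurable_const
  have h2 : ∫⁻ c, X m B c (k + 1) σ * X m B c (k + 1) σ ∂Q w α D = ∑ l ∈ A, ∑ l' ∈ A, ∫⁻ c,
      (if Rz m.L c σ l ∧ Rz m.L c σ l' then X m B c k (endS σ l) * X m B c k (endS σ l') else 0) ∂Q w α D := by
    rw [lintegral_congr h1, lintegral_finsetSum]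
    · refine Finset.sum_congr rfl fun l hl => ?_
      exact lintegral_finsetSum A fun l' hl' => hmeas l hl l' hl'
    · intro l hl
      exact Finset.measurable_sum A fun l' hl' => hmeas l hl l' hl'
  rw [h2]
  have h3 : ∀ l ∈ A, ∀ l' ∈ A, ∫⁻ c,
      (if Rz m.L c σ l ∧ Rz m.L c σ l' then X m B c k (endS σ l) * X m B c k (endS σ l') else 0) ∂Q w α D ≤
      (if l = l' then qw w α m.L l * dw D m.n * T else 0) +
      (if l ≠ l' ∧ endS σ l = endS σ l' then Q w α D {c | Rz m.L c σ l ∧ Rz m.L c σ l'} else 0) * (T + S) +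
      Q w α D {c | Rz m.L c σ l ∧ Rz m.L c σ l'} * S := by
    intro l hl l' hl'
    rw [hT, hS]
    exact SKerT_term (hchn l hl) (hchn l' hl') hσ.2
  refine (Finset.sum_le_sum fun l hl => Finset.sum_le_sum fun l' hl' => h3 l hl l' hl').trans ?_
  simp only [Finset.sum_add_distrib, ← Finset.sum_mul]
  have e1 : ∑ l ∈ A, ∑ l' ∈ A, (if l = l' then qw w α m.L l * dw D m.n * T else 0) ≤ m.W * qn D m.n * T := by
    have h4 : ∑ l ∈ A, ∑ l' ∈ A, (if l = l' then qw w α m.L l * dw D m.n * T else 0) =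
        (∑ l ∈ A, qw w α m.L l * dw D m.n) * T := by
      rw [Finset.sum_mul]
      refine Finset.sum_congr rfl fun l hl => ?_
      rw [Finset.sum_ite_eq, if_pos hl]
    rw [h4, hA]
    exact mul_le_mul_left (SKerT_diag m B σ) T
  have e2 : ∑ l ∈ A, ∑ l' ∈ A, (if l ≠ l' ∧ endS σ l = endS σ l' then
      Q w α D {c | Rz m.L c σ l ∧ Rz m.L c σ l'} else 0) ≤ (m.n : ℝ≥0∞) ^ 2 * P / D := by
    rw [hA, hP]
    exact meetT m B σ hσ.1
  have e3 : ∑ l ∈ A, ∑ l' ∈ A, Q w α D {c | Rz m.L c σ l ∧ Rz m.L c σ l'} ≤ P := by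
    rw [hA, hP]
    exact all_pairs m B σ hσ.1
  rw [hC]
  have hD1 : (1 : ℝ≥0∞) ≤ D := by
    have : 1 ≤ D := Nat.one_le_iff_ne_zero.2 (NeZero.ne D)
    exact_mod_cast this
  have hn1 : (1 : ℝ≥0∞) ≤ (m.n : ℝ≥0∞) ^ 2 := by
    have h5 : 1 ≤ m.n := by
      have := m.n4
      omega
    have h6 : (1 : ℝ≥0∞) ≤ (m.n : ℝ≥0∞) := by exact_mod_cast h5
    exact one_le_pow₀ h6
  have f1 : (m.n : ℝ≥0∞) ^ 2 * P / D ≤ (m.n : ℝ≥0∞) ^ 2 * P := by
    refine ENNReal.div_le_of_le_mul ?_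
    exact le_mul_of_one_le_right zero_le hD1
  have f2 : P ≤ (m.n : ℝ≥0∞) ^ 2 * P := le_mul_of_one_le_left zero_le hn1
  have f3 : (m.n : ℝ≥0∞) ^ 2 * P / D ≤ 2 * ((m.n : ℝ≥0∞) ^ 2 * P) / D := by
    refine ENNReal.div_le_div_right ?_ _
    exact le_mul_of_one_le_left zero_le (by norm_num)
  calc _ ≤ m.W * qn D m.n * T + (m.n : ℝ≥0∞) ^ 2 * P / D * (T + S) + P * S := by
        gcongr
    _ = (m.W * qn D m.n * T + (m.n : ℝ≥0∞) ^ 2 * P / D * T) + ((m.n : ℝ≥0∞) ^ 2 * P / D * S + P * S) := by ring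
    _ ≤ (m.W * qn D m.n * T + 2 * ((m.n : ℝ≥0∞) ^ 2 * P) / D * T) +
        ((m.n : ℝ≥0∞) ^ 2 * P * S + (m.n : ℝ≥0∞) ^ 2 * P * S) := by
        gcongr
    _ = (m.W * qn D m.n + 2 * ((m.n : ℝ≥0∞) ^ 2 * P) / D) * T + 2 * ((m.n : ℝ≥0∞) ^ 2 * P) * S := by ring

end FDr
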