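import Pool.Agent.Lib.MP_e029a2_pr.SPre
import Pool.Agent.Lib.MP_e029a2_pr.SFirst
import Pool.Agent.Lib.MP_e029a2_pr.AnS

/-!
# The two kernels: definitions
-/

set_option autoImplicit false

namespace FDr

open MeasureTheory ProbabilityTheory
open scoped ENNReal NNReal

variable {w α : Set.Ioo (0 : ℝ) 1} (m : Mac w α) {D : ℕ} [NeZero D] (B : Finset (Fin D → ℤ)) (h0 : ℤ)

/-- the second moments from a state which is `k` long steps above the height `h0` -/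
noncomputable def Tk (k : ℕ) : ℝ≥0∞ :=
  ⨆ (σ : St D) (_ : Inv B σ ∧ σ.2.1 = h0 + k * m.H), ∫⁻ c, X m B c k σ * X m B c k σ ∂Q w α D

/-- the mixed second moments from two states with distinct frogs and the transversal offset `u` -/
noncomputable def Ak (k : ℕ) (u : Fin D → ℤ) : ℝ≥0∞ :=
  ⨆ (p : St D × St D) (_ : Inv B p.1 ∧ Inv B p.2 ∧ p.1.2.1 = h0 + k * m.H ∧ p.2.2.1 = h0 + k * m.H ∧
    p.1.1.1 ≠ p.2.1.1 ∧ p.2.2.2 - p.1.2.2 = u), ∫⁻ c, X m B c k p.1 * X m B c k p.2 ∂Q w α D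

/-- the constant of the kernels -/
def C1 : ℝ≥0 := (m.n : ℝ≥0) ^ 2 * (2 * m.L + 2) ^ (2 * m.n)

end FDr
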