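import Pool.Agent.Lib.MP_e029a2_pr.SSt

/-!
# The frogs of the states of a chain, and their positions
-/

set_option autoImplicit false

namespace FDr

variable {D : ℕ}

/-- the kind of the `t`-th micro step -/
def kd (l : List (Mic D)) (t : ℕ) : Option ℤ := ((l[t]?).map fun μ => μ.1.1).getD none

theorem kd_get (l : List (Mic D)) (t : ℕ) (h : t < l.length) : kd l t = (l[t]).1.1 := by
  unfold kd
  rw [List.getElem?_eq_getElem h]
  rfl

theorem st_frog (σ : St D) (l : List (Mic D)) (i : ℕ) (h : i < l.length) :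
    (st σ l (i + 1)).1 = ((cho (st σ l i) (kd l i)).1, (cho (st σ l i) (kd l i)).2 + 1) := by
  rw [st_succ σ l i h, kd_get l i h]
  rfl

theorem frog_init (σ : St D) (l : List (Mic D)) (i : ℕ) (hi : i ≤ l.length) (h : ∀ t, t < i → kd l t = none) :
    (st σ l i).1 = (σ.1.1, σ.1.2 + i) := by
  induction i with
  | zero =>
    rw [st_zero]
    rfl
  | succ i ih =>
    rw [st_frog σ l i hi, h i (Nat.lt_succ_self i)]
    show ((st σ l i).1.1, (st σ l i).1.2 + 1) = _
    rw [ih (Nat.le_of_succ_le hi) fun t ht => h t (ht.trans (Nat.lt_succ_self i))]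
    rfl

theorem frog_res (σ : St D) (l : List (Mic D)) (a : ℕ) (r : ℤ) (ha : kd l a = some r) (i : ℕ) (hi : i ≤ l.length)
    (hai : a < i) (h : ∀ t, a < t → t < i → kd l t = none) :
    (st σ l i).1 = (((st σ l a).2.1 + r, (st σ l a).2.2), i - a) := by
  induction i with
  | zero => exact absurd hai (Nat.not_lt_zero a)
  | succ i ih =>
    rw [st_frog σ l i hi]
    rcases Nat.lt_or_ge a i with h1 | h1
    · rw [h i h1 (Nat.lt_succ_self i)]
      show ((st σ l i).1.1, (st σ l i).1.2 + 1) = _
      rw [ih (Nat.le_of_succ_le hi) h1 fun t ht ht2 => h t ht (ht2.trans (Nat.lt_succ_self i))]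
      show (((st σ l a).2.1 + r, (st σ l a).2.2), i - a + 1) = _
      rw [Nat.succ_sub h1.le]
    · have h2 : a = i := le_antisymm (Nat.lt_succ_iff.1 hai) h1
      subst h2
      rw [ha]
      show (((st σ l a).2.1 + r, (st σ l a).2.2), 0 + 1) = _
      rw [Nat.add_sub_cancel_left]

/-- the location of the frog of the `i`-th state -/
theorem loc (σ : St D) (l : List (Mic D)) (i : ℕ) (hi : i ≤ l.length) :
    ((∀ t, t < i → kd l t = none) ∧ (st σ l i).1 = (σ.1.1, σ.1.2 + i)) ∨
      ∃ a r, a < i ∧ kd l a = some r ∧ (∀ t, a < t → t < i → kd l t = none) ∧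
        (st σ l i).1 = (((st σ l a).2.1 + r, (st σ l a).2.2), i - a) := by
  classical
  by_cases h : ∀ t, t < i → kd l t = none
  · exact Or.inl ⟨h, frog_init σ l i hi h⟩
  · right
    push Not at h
    obtain ⟨t0, h1, h2⟩ := h
    have h3 : ∃ u, u < i ∧ kd l (i - 1 - u) ≠ none := ⟨i - 1 - t0, by omega, by
      have : i - 1 - (i - 1 - t0) = t0 := by omega
      rw [this]
      exact h2⟩
    have h4 := Nat.find_spec h3
    obtain ⟨r, hr⟩ := Option.ne_none_iff_exists'.1 h4.2
    have h5 : ∀ t, i - 1 - Nat.find h3 < t → t < i → kd l t = none := by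
      intro t ht1 ht2
      by_contra h6
      have h7 : i - 1 - t < Nat.find h3 := by omega
      refine Nat.find_min h3 h7 ⟨by omega, ?_⟩
      have : i - 1 - (i - 1 - t) = t := by omega
      rw [this]
      exact h6
    exact ⟨i - 1 - Nat.find h3, r, by omega, hr, h5, frog_res σ l _ r hr i hi (by omega) h5⟩

theorem Mt_iff (c : Conf D) (σ : St D) (l : List (Mic D)) :
    Mt c σ l ↔ ∀ i (h : i < l.length), Mt1 c (st σ l i) l[i] := by
  induction l generalizing σ with
  | nil => exact ⟨fun _ i h => absurd h (Nat.not_lt_zero i), fun _ => trivial⟩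
  | cons μ l ih =>
    constructor
    · intro h i hi
      cases i with
      | zero => exact h.1
      | succ i => exact (ih (nxt σ μ)).1 h.2 i (Nat.lt_of_succ_lt_succ hi)
    · intro h
      refine ⟨h 0 (Nat.succ_pos _), (ih (nxt σ μ)).2 fun i hi => ?_⟩
      exact h (i + 1) (Nat.succ_lt_succ hi)

/-- the position after a matching micro step -/
theorem pos_step (c : Conf D) (σ : St D) (l : List (Mic D)) (hm : Mt c σ l) (i : ℕ) (hi : i < l.length) :
    (st σ l (i + 1)).2 = (st σ l i).2 + (rel (kd l i), 0) + cvec (c (cho (st σ l i) (kd l i))) := by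
  have h1 := (Mt_iff c σ l).1 hm i hi
  rw [st_succ σ l i hi, kd_get l i hi]
  unfold Mt1 at h1
  show (st σ l i).2 + ((l[i]).1.2, dv (l[i]).2) = _
  rw [← h1.1, ← h1.2, add_assoc]
  congr 1
  unfold cvec
  rw [Prod.mk_add_mk, zero_add]

theorem pos_init (c : Conf D) (σ : St D) (l : List (Mic D)) (hm : Mt c σ l) (i : ℕ) (hi : i ≤ l.length)
    (h : ∀ t, t < i → kd l t = none) :
    (st σ l i).2 = σ.2 + ∑ t ∈ Finset.range i, cvec (c (σ.1.1, σ.1.2 + t)) := by
  induction i with
  | zero =>
    rw [st_zero, Finset.sum_range_zero, add_zero]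
  | succ i ih =>
    have h1 : ∀ t, t < i → kd l t = none := fun t ht => h t (ht.trans (Nat.lt_succ_self i))
    rw [pos_step c σ l hm i hi, h i (Nat.lt_succ_self i), ih (Nat.le_of_succ_le hi) h1, Finset.sum_range_succ]
    show _ + ((0 : ℤ), (0 : Fin D → ℤ)) + cvec (c (st σ l i).1) = _
    rw [frog_init σ l i (Nat.le_of_succ_le hi) h1, Prod.mk_zero_zero, add_zero, add_assoc]

theorem pos_res (c : Conf D) (σ : St D) (l : List (Mic D)) (hm : Mt c σ l) (a : ℕ) (r : ℤ) (ha : kd l a = some r)
    (i : ℕ) (hi : i ≤ l.length) (hai : a < i) (h : ∀ t, a < t → t < i → kd l t = none) :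
    (st σ l i).2 = ent c ((st σ l a).2.1 + r, (st σ l a).2.2) (i - a) := by
  induction i with
  | zero => exact absurd hai (Nat.not_lt_zero a)
  | succ i ih =>
    rw [pos_step c σ l hm i hi]
    rcases Nat.lt_or_ge a i with h1 | h1
    · have h2 : ∀ t, a < t → t < i → kd l t = none := fun t ht ht2 => h t ht (ht2.trans (Nat.lt_succ_self i))
      rw [h i h1 (Nat.lt_succ_self i), ih (Nat.le_of_succ_le hi) h1 h2, Nat.succ_sub h1.le]
      show _ + ((0 : ℤ), (0 : Fin D → ℤ)) + cvec (c (st σ l i).1) = _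
      rw [frog_res σ l a r ha i (Nat.le_of_succ_le hi) h1 h2, Prod.mk_zero_zero, add_zero]
      unfold ent
      rw [Finset.sum_range_succ, add_assoc]
    · have h2 : a = i := le_antisymm (Nat.lt_succ_iff.1 hai) h1
      subst h2
      rw [ha, Nat.add_sub_cancel_left]
      unfold ent
      rw [Finset.sum_range_one]
      show (st σ l a).2 + (r, 0) + cvec (c (((st σ l a).2.1 + r, (st σ l a).2.2), 0)) = _
      congr 1
      show ((st σ l a).2.1 + r, (st σ l a).2.2 + 0) = _
      rw [add_zero]

end FDr
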