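import Pool.Agent.Lib.MP_e029a2_pr.SLoc

/-!
# Facts about long steps
-/

set_option autoImplicit false

namespace FDr

open scoped ENNReal

variable {D : ℕ}

theorem sumv_cons (d : Dir D) (δ : List (Dir D)) : sumv (d :: δ) = dv d + sumv δ := by
  unfold sumv
  rw [List.map_cons, List.sum_cons]

theorem sumv_append (δ δ' : List (Dir D)) : sumv (δ ++ δ') = sumv δ + sumv δ' := by
  unfold sumv
  rw [List.map_append, List.sum_append]

theorem sumv_zero_of_not_mem (δ : List (Dir D)) (j : Fin D) (h : j ∉ δ.map Prod.fst) : sumv δ j = 0 := by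
  induction δ with
  | nil => rfl
  | cons d δ ih =>
    rw [List.map_cons, List.mem_cons, not_or] at h
    rw [sumv_cons, Pi.add_apply, ih h.2, add_zero]
    unfold dv
    exact Pi.single_eq_of_ne h.1 _

theorem abs_sg (b : Bool) : |sg b| = 1 := by
  cases b <;> rfl

theorem sum_abs_dv (d : Dir D) : ∑ i, |dv d i| = 1 := by
  unfold dv
  rw [Finset.sum_eq_single d.1]
  · rw [Pi.single_eq_same, abs_sg]
  · intro b _ hb
    rw [Pi.single_eq_of_ne hb, abs_zero]
  · intro h
    exact absurd (Finset.mem_univ _) h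

theorem norm_sumv (δ : List (Dir D)) (h : (δ.map Prod.fst).Nodup) : ∑ i, |sumv δ i| = δ.length := by
  induction δ with
  | nil =>
    refine Finset.sum_eq_zero fun i _ => ?_
    exact abs_zero
  | cons d δ ih =>
    rw [List.map_cons, List.nodup_cons] at h
    have h1 : ∀ i, |sumv (d :: δ) i| = |dv d i| + |sumv δ i| := by
      intro i
      rw [sumv_cons, Pi.add_apply]
      by_cases hi : i = d.1
      · rw [hi, sumv_zero_of_not_mem δ d.1 h.1, add_zero, abs_zero, add_zero]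
      · have h2 : dv d i = 0 := by
          unfold dv
          exact Pi.single_eq_of_ne hi _
        rw [h2, zero_add, abs_zero, zero_add]
    rw [Finset.sum_congr rfl fun i _ => h1 i, Finset.sum_add_distrib, sum_abs_dv, ih h.2, List.length_cons]
    push_cast
    ring

theorem mem_inj {n : ℕ} (δ : List (Dir D)) : δ ∈ inj D n ↔ δ.length = n ∧ (δ.map Prod.fst).Nodup := by
  unfold inj
  rw [Finset.mem_filter, Finset.mem_image]
  constructor
  · rintro ⟨⟨v, -, rfl⟩, h⟩
    exact ⟨v.toList_length, h⟩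
  · rintro ⟨h1, h2⟩
    exact ⟨⟨⟨δ, h1⟩, Finset.mem_univ _, rfl⟩, h2⟩

section Mac

variable {w α : Set.Ioo (0 : ℝ) 1} (m : Mac w α)

theorem mem_ML (l : List (Mic D)) : l ∈ m.ML D ↔ ∃ κ ∈ m.F, ∃ δ ∈ inj D m.n, l = κ.zip δ := by
  unfold Mac.ML
  rw [Finset.mem_image]
  constructor
  · rintro ⟨⟨κ, δ⟩, h, rfl⟩
    rw [Finset.mem_product] at h
    exact ⟨κ, h.1, δ, h.2, rfl⟩
  · rintro ⟨κ, hκ, δ, hδ, rfl⟩
    exact ⟨(κ, δ), Finset.mem_product.2 ⟨hκ, hδ⟩, rfl⟩

theorem hsum_zip_take (κ : List (Option ℤ × ℤ)) (δ : List (Dir D)) (h : κ.length = δ.length) (i : ℕ) :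
    hsum ((κ.zip δ).take i) = ((κ.take i).map Prod.snd).sum := by
  unfold hsum
  rw [List.map_take, List.map_take]
  congr 2
  rw [show (fun μ : Mic D => μ.1.2) = Prod.snd ∘ Prod.fst from rfl, ← List.map_map, List.map_fst_zip (le_of_eq h)]

theorem vsum_eq (l : List (Mic D)) : vsum l = sumv (l.map Prod.snd) := by
  unfold vsum sumv
  rw [List.map_map]
  rfl

theorem ml_len {l : List (Mic D)} (hl : l ∈ m.ML D) : l.length = m.n := by
  obtain ⟨κ, hκ, δ, hδ, rfl⟩ := (mem_ML m l).1 hl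
  rw [List.length_zip, m.len κ hκ, ((mem_inj δ).1 hδ).1, min_self]

theorem ml_nodup {l : List (Mic D)} (hl : l ∈ m.ML D) : ((l.map Prod.snd).map Prod.fst).Nodup := by
  obtain ⟨κ, hκ, δ, hδ, rfl⟩ := (mem_ML m l).1 hl
  rw [List.map_snd_zip (le_of_eq ((((mem_inj δ).1 hδ).1).trans (m.len κ hκ).symm))]
  exact ((mem_inj δ).1 hδ).2

theorem ml_hsum {l : List (Mic D)} (hl : l ∈ m.ML D) : hsum l = -(m.H : ℤ) := by
  obtain ⟨κ, hκ, δ, hδ, rfl⟩ := (mem_ML m l).1 hl
  have h0 : κ.length = δ.length := (m.len κ hκ).trans (((mem_inj δ).1 hδ).1).symm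
  have h1 := hsum_zip_take κ δ h0 m.n
  rw [List.take_of_length_le, List.take_of_length_le] at h1
  · rw [h1]
    exact m.tot κ hκ
  · exact (m.len κ hκ).le
  · rw [ml_len m hl]

theorem ml_mid {l : List (Mic D)} (hl : l ∈ m.ML D) (i : ℕ) (h1 : 1 ≤ i) (h2 : i < m.n) :
    -(m.H : ℤ) + m.L < hsum (l.take i) ∧ hsum (l.take i) < -(m.L : ℤ) := by
  obtain ⟨κ, hκ, δ, hδ, rfl⟩ := (mem_ML m l).1 hl
  have h0 : κ.length = δ.length := (m.len κ hκ).trans (((mem_inj δ).1 hδ).1).symm
  rw [hsum_zip_take κ δ h0 i]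
  exact m.mid κ hκ i h1 h2

theorem ml_first {l : List (Mic D)} (hl : l ∈ m.ML D) : kd l 0 = none := by
  obtain ⟨κ, hκ, δ, hδ, rfl⟩ := (mem_ML m l).1 hl
  have h1 := m.len κ hκ
  have h2 := ((mem_inj δ).1 hδ).1
  have h3 := m.n4
  cases κ with
  | nil =>
    rw [List.length_nil] at h1
    omega
  | cons a κ =>
    cases δ with
    | nil =>
      rw [List.length_nil] at h2
      omega
    | cons d δ =>
      show a.1 = none
      exact m.first _ hκ a rfl

theorem ml_last {l : List (Mic D)} (hl : l ∈ m.ML D) : kd l (m.n - 1) = none := by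
  have h4 := ml_len m hl
  obtain ⟨κ, hκ, δ, hδ, rfl⟩ := (mem_ML m l).1 hl
  have h1 := m.len κ hκ
  have h2 := ((mem_inj δ).1 hδ).1
  have h3 := m.n4
  rw [kd_get _ _ (by omega), List.getElem_zip]
  show (κ[m.n - 1]'(by omega)).1 = none
  refine m.last κ hκ _ ?_
  have h5 : κ.getLast? = κ[m.n - 1]? := by rw [List.getLast?_eq_getElem?, h1]
  rw [Option.mem_def, h5]
  exact List.getElem?_eq_getElem (by omega)

/-- the number of lines between the starting line and the `a`-th line -/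
theorem ml_norm {l : List (Mic D)} (hl : l ∈ m.ML D) (a : ℕ) (ha : a ≤ m.n) : ∑ i, |vsum (l.take a) i| = a := by
  rw [vsum_eq, norm_sumv]
  · rw [List.length_map, List.length_take, ml_len m hl, min_eq_left ha]
  · rw [List.map_take, List.map_take]
    exact (ml_nodup m hl).sublist (List.take_sublist _ _)

theorem ml_line {l l' : List (Mic D)} (hl : l ∈ m.ML D) (hl' : l' ∈ m.ML D) (a b : ℕ) (ha : a ≤ m.n) (hb : b ≤ m.n)
    (h : vsum (l.take a) = vsum (l'.take b)) : a = b := by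
  have h1 := ml_norm m hl a ha
  have h2 := ml_norm m hl' b hb
  rw [h, h2] at h1
  exact_mod_cast h1.symm

theorem okm_iff (B : Finset (Fin D → ℤ)) (v : Fin D → ℤ) (l : List (Mic D)) :
    okm B v l ↔ ∀ a, 1 ≤ a → a ≤ l.length → v + vsum (l.take a) ∉ B := by
  unfold okm okl
  rw [List.length_map]
  refine forall_congr' fun a => forall_congr' fun _ => forall_congr' fun _ => ?_
  rw [vsum_eq, List.map_take]

end Mac

end FDr
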