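import Pool.Agent.Lib.MP_e029a2_pr.SKern

/-!
# A pair of long steps and the future (job SPair)

`σ, σ'` have the same height `h0 + (k+1) H` and distinct frogs, or are equal.
(1) `pair_le`: `∫ (if Rz l ∧ Rz l' then X k (end l) * X k (end l') else 0) ≤ Q {Rz l ∧ Rz l'} * (Tk k + ⨆ u, Ak k u)`.
If there is no `c` with `Rz l ∧ Rz l'`, the left side is 0. Otherwise, by `Us_disj_Fut` (all four combinations of
`l, l'`; `Rz_Mt`; for `l, l`: with `he = rfl`, `hp = Or.inr rfl`), the set `Us l ∪ Us l'` is disjoint from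
`Fut (end l) ∪ Fut (end l')`, so the integral is `Q {Rz l ∧ Rz l'} * ∫ X k (end l) * X k (end l')` (`lintegral_mul_dep`,
`X_dep`, `X_meas`, `Rz_dep'`, `Rz_meas`), and by `dich` the frogs at the ends are distinct (then the integral is `≤ Ak k u` with
`u = ` the difference of the lines; heights: `end_hgt`; `inv_end`) or the states are equal (`≤ Tk k`).
(2) `pair_le_ne`: if moreover `endS σ l ≠ endS σ' l'`: `≤ Q {Rz l ∧ Rz l'} * ⨆ u, Ak k u`.
(3) `pair_eq`: `l' = l`, `σ' = σ`: `≤ Q {Rz l} * Tk k`.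
(4) `pair_disj`: `σ, σ'` with distinct frogs and no common line with indices in `[1, n)`: `Us_disj`, so
`Q {Rz l ∧ Rz l'} = Q {Rz l} * Q {Rz l'} = qw l * dw * (qw l' * dw)` (`prob_and_dep`, `Q_Rz`), and the frogs at the ends are
distinct (`own` at `n` for both: first / first: distinct by assumption; first / resident: `ne_init`; resident / resident:
common line), so `≤ qw l * dw * (qw l' * dw) * Ak k (σ'.2.2 - σ.2.2 + vsum l' - vsum l)`.
-/

set_option autoImplicit false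

namespace FDr

open MeasureTheory ProbabilityTheory
open scoped ENNReal

variable {w α : Set.Ioo (0 : ℝ) 1} {m : Mac w α} {D : ℕ} [NeZero D] {B : Finset (Fin D → ℤ)} {h0 : ℤ} {k : ℕ}
  {σ σ' : St D} {l l' : List (Mic D)}

open Classical in
private theorem SPair_int (h : Chn m B σ l) (h' : Chn m B σ' l') (he : σ.2.1 = σ'.2.1) (hp : σ.1.1 ≠ σ'.1.1 ∨ σ = σ')
    (c0 : Conf D) (hc0 : Rz m.L c0 σ l ∧ Rz m.L c0 σ' l') :
    ∫⁻ c, (if Rz m.L c σ l ∧ Rz m.L c σ' l' then X m B c k (endS σ l) * X m B c k (endS σ' l') else 0) ∂Q w α D =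
      Q w α D {c | Rz m.L c σ l ∧ Rz m.L c σ' l'} *
        ∫⁻ c, X m B c k (endS σ l) * X m B c k (endS σ' l') ∂Q w α D := by
  have hm := Rz_Mt hc0.1
  have hm' := Rz_Mt hc0.2
  have hp' : σ'.1.1 ≠ σ.1.1 ∨ σ' = σ := by
    rcases hp with hp | hp
    · exact Or.inl hp.symm
    · exact Or.inr hp.symm
  have d1 := Us_disj_Fut h h' he hp c0 hm hm'
  have d2 := Us_disj_Fut h' h he.symm hp' c0 hm' hm
  have d3 := Us_disj_Fut h h rfl (Or.inr rfl) c0 hm hm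
  have d4 := Us_disj_Fut h' h' rfl (Or.inr rfl) c0 hm' hm'
  have hdis : Disjoint (Us m.L σ l ∪ Us m.L σ' l') (Fut B (endS σ l) ∪ Fut B (endS σ' l')) := by
    rw [Set.disjoint_union_left, Set.disjoint_union_right, Set.disjoint_union_right]
    exact ⟨⟨d3, d1⟩, ⟨d2, d4⟩⟩
  have hmeas : MeasurableSet {c : Conf D | Rz m.L c σ l ∧ Rz m.L c σ' l'} := h.Rz_meas.inter h'.Rz_meas
  have h1 : ∀ c : Conf D, (if Rz m.L c σ l ∧ Rz m.L c σ' l' then X m B c k (endS σ l) * X m B c k (endS σ' l') else 0) =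
      (if Rz m.L c σ l ∧ Rz m.L c σ' l' then 1 else 0) * (X m B c k (endS σ l) * X m B c k (endS σ' l')) := by
    intro c
    by_cases hc : Rz m.L c σ l ∧ Rz m.L c σ' l'
    · rw [if_pos hc, if_pos hc, one_mul]
    · rw [if_neg hc, if_neg hc, zero_mul]
  rw [lintegral_congr h1, ← lint_ind _ _ hmeas]
  unfold Q
  refine lintegral_mul_dep (cellLaw w α D) hdis (Measurable.ite hmeas measurable_const measurable_const)
    ((X_meas m B k _ h.inv_end).mul (X_meas m B k _ h'.inv_end)) ?_ ?_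
  · intro c c' hc
    have h2 : Rz m.L c σ l = Rz m.L c' σ l := h.Rz_dep' c c' fun p hp => hc p (Or.inl hp)
    have h3 : Rz m.L c σ' l' = Rz m.L c' σ' l' := h'.Rz_dep' c c' fun p hp => hc p (Or.inr hp)
    show (if Rz m.L c σ l ∧ Rz m.L c σ' l' then (1 : ℝ≥0∞) else 0) = if Rz m.L c' σ l ∧ Rz m.L c' σ' l' then 1 else 0
    by_cases h4 : Rz m.L c σ l ∧ Rz m.L c σ' l'
    · rw [if_pos h4, if_pos ⟨h2 ▸ h4.1, h3 ▸ h4.2⟩]
    · rw [if_neg h4, if_neg fun h5 => h4 ⟨h2 ▸ h5.1, h3 ▸ h5.2⟩]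
  · intro c c' hc
    have h2 := X_dep m B k _ h.inv_end c c' fun p hp => hc p (Or.inl hp)
    have h3 := X_dep m B k _ h'.inv_end c c' fun p hp => hc p (Or.inr hp)
    show X m B c k (endS σ l) * X m B c k (endS σ' l') = X m B c' k (endS σ l) * X m B c' k (endS σ' l')
    rw [show X m B c k (endS σ l) = X m B c' k (endS σ l) from h2, show X m B c k (endS σ' l') = X m B c' k (endS σ' l') from h3]

open Classical in
private theorem SPair_zero
    (h0 : ¬ ∃ c : Conf D, Rz m.L c σ l ∧ Rz m.L c σ' l') (F : Conf D → ℝ≥0∞) :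
    ∫⁻ c, (if Rz m.L c σ l ∧ Rz m.L c σ' l' then F c else 0) ∂Q w α D = 0 := by
  have h1 : ∀ c : Conf D, (if Rz m.L c σ l ∧ Rz m.L c σ' l' then F c else 0) = 0 := fun c => if_neg fun hc => h0 ⟨c, hc⟩
  rw [lintegral_congr h1, lintegral_zero]

omit [NeZero D] in
private theorem SPair_hgt (h : Chn m B σ l) (hσ : σ.2.1 = h0 + (k + 1 : ℕ) * m.H) : (endS σ l).2.1 = h0 + k * m.H := by
  rw [h.end_hgt, hσ]
  push_cast
  ring

private theorem SPair_Ak (h : Chn m B σ l) (h' : Chn m B σ' l') (hσ : σ.2.1 = h0 + (k + 1 : ℕ) * m.H)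
    (hσ' : σ'.2.1 = h0 + (k + 1 : ℕ) * m.H) (hne : (endS σ l).1.1 ≠ (endS σ' l').1.1) :
    ∫⁻ c, X m B c k (endS σ l) * X m B c k (endS σ' l') ∂Q w α D ≤
      Ak m B h0 k ((endS σ' l').2.2 - (endS σ l).2.2) := by
  unfold Ak
  exact le_iSup₂_of_le (endS σ l, endS σ' l')
    ⟨h.inv_end, h'.inv_end, SPair_hgt h hσ, SPair_hgt h' hσ', hne, rfl⟩ le_rfl

private theorem SPair_Tk (h : Chn m B σ l) (hσ : σ.2.1 = h0 + (k + 1 : ℕ) * m.H) :
    ∫⁻ c, X m B c k (endS σ l) * X m B c k (endS σ l) ∂Q w α D ≤ Tk m B h0 k := by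
  unfold Tk
  exact le_iSup₂_of_le (endS σ l) ⟨h.inv_end, SPair_hgt h hσ⟩ le_rfl

open Classical in
theorem pair_le (h : Chn m B σ l) (h' : Chn m B σ' l') (hσ : σ.2.1 = h0 + (k + 1 : ℕ) * m.H)
    (hσ' : σ'.2.1 = h0 + (k + 1 : ℕ) * m.H) (hp : σ.1.1 ≠ σ'.1.1 ∨ σ = σ') :
    ∫⁻ c, (if Rz m.L c σ l ∧ Rz m.L c σ' l' then X m B c k (endS σ l) * X m B c k (endS σ' l') else 0) ∂Q w α D ≤
      Q w α D {c | Rz m.L c σ l ∧ Rz m.L c σ' l'} * (Tk m B h0 k + ⨆ u, Ak m B h0 k u) := by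
  by_cases hex : ∃ c : Conf D, Rz m.L c σ l ∧ Rz m.L c σ' l'
  · obtain ⟨c0, hc0⟩ := hex
    have he : σ.2.1 = σ'.2.1 := hσ.trans hσ'.symm
    rw [SPair_int h h' he hp c0 hc0]
    refine mul_le_mul_right ?_ _
    rcases dich h h' he hp c0 (Rz_Mt hc0.1) (Rz_Mt hc0.2) with h1 | h1
    · exact (SPair_Ak h h' hσ hσ' h1).trans ((le_iSup (fun u => Ak m B h0 k u) _).trans le_add_self)
    · rw [← h1]
      exact (SPair_Tk h hσ).trans le_self_add
  · rw [SPair_zero hex]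
    exact zero_le

open Classical in
theorem pair_le_ne (h : Chn m B σ l) (h' : Chn m B σ' l') (hσ : σ.2.1 = h0 + (k + 1 : ℕ) * m.H)
    (hσ' : σ'.2.1 = h0 + (k + 1 : ℕ) * m.H) (hp : σ.1.1 ≠ σ'.1.1 ∨ σ = σ') (he : endS σ l ≠ endS σ' l') :
    ∫⁻ c, (if Rz m.L c σ l ∧ Rz m.L c σ' l' then X m B c k (endS σ l) * X m B c k (endS σ' l') else 0) ∂Q w α D ≤
      Q w α D {c | Rz m.L c σ l ∧ Rz m.L c σ' l'} * ⨆ u, Ak m B h0 k u := by
  by_cases hex : ∃ c : Conf D, Rz m.L c σ l ∧ Rz m.L c σ' l'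
  · obtain ⟨c0, hc0⟩ := hex
    have hes : σ.2.1 = σ'.2.1 := hσ.trans hσ'.symm
    rw [SPair_int h h' hes hp c0 hc0]
    refine mul_le_mul_right ?_ _
    rcases dich h h' hes hp c0 (Rz_Mt hc0.1) (Rz_Mt hc0.2) with h1 | h1
    · exact (SPair_Ak h h' hσ hσ' h1).trans (le_iSup (fun u => Ak m B h0 k u) _)
    · exact absurd h1 he
  · rw [SPair_zero hex]
    exact zero_le

open Classical in
theorem pair_eq (h : Chn m B σ l) (hσ : σ.2.1 = h0 + (k + 1 : ℕ) * m.H) :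
    ∫⁻ c, (if Rz m.L c σ l ∧ Rz m.L c σ l then X m B c k (endS σ l) * X m B c k (endS σ l) else 0) ∂Q w α D ≤
      qw w α m.L l * dw D m.n * Tk m B h0 k := by
  by_cases hex : ∃ c : Conf D, Rz m.L c σ l ∧ Rz m.L c σ l
  · obtain ⟨c0, hc0⟩ := hex
    rw [SPair_int h h rfl (Or.inr rfl) c0 hc0]
    have h1 : {c : Conf D | Rz m.L c σ l ∧ Rz m.L c σ l} = {c | Rz m.L c σ l} := by
      ext c
      exact ⟨fun hc => hc.1, fun hc => ⟨hc, hc⟩⟩
    rw [h1, h.Q_Rz]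
    exact mul_le_mul_right (SPair_Tk h hσ) _
  · rw [SPair_zero hex]
    exact zero_le

open Classical in
theorem pair_disj (h : Chn m B σ l) (h' : Chn m B σ' l') (hσ : σ.2.1 = h0 + (k + 1 : ℕ) * m.H)
    (hσ' : σ'.2.1 = h0 + (k + 1 : ℕ) * m.H) (hp : σ.1.1 ≠ σ'.1.1)
    (hl : ∀ a b, 1 ≤ a → a < m.n → 1 ≤ b → b < m.n → (st σ l a).2.2 ≠ (st σ' l' b).2.2) :
    ∫⁻ c, (if Rz m.L c σ l ∧ Rz m.L c σ' l' then X m B c k (endS σ l) * X m B c k (endS σ' l') else 0) ∂Q w α D ≤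
      qw w α m.L l * dw D m.n * (qw w α m.L l' * dw D m.n) *
        Ak m B h0 k (σ'.2.2 - σ.2.2 + vsum l' - vsum l) := by
  have hes : σ.2.1 = σ'.2.1 := hσ.trans hσ'.symm
  have hne : (endS σ l).1.1 ≠ (endS σ' l').1.1 := by
    rw [← h.st_n, ← h'.st_n]
    rcases h.own (le_refl m.n) with ⟨-, h2⟩ | ⟨-, h1', h1'', a, r, h3, h4, -, -, h7⟩
    · rcases h'.own (le_refl m.n) with ⟨-, g2⟩ | ⟨-, g1', g1'', -⟩
      · rw [h2, g2]
        exact hp
      · rw [h2]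
        intro h8
        exact h.ne_init (by rw [hes]; exact g1') g1'' h8.symm
    · rcases h'.own (le_refl m.n) with ⟨-, g2⟩ | ⟨-, -, -, b, s, g3, g4, -, -, g7⟩
      · rw [g2]
        intro h8
        exact h'.ne_init (by rw [← hes]; exact h1') h1'' h8
      · rw [h7, g7]
        intro h8
        exact hl a b h3 h4 g3 g4 (Prod.mk.inj h8).2
  by_cases hex : ∃ c : Conf D, Rz m.L c σ l ∧ Rz m.L c σ' l'
  · obtain ⟨c0, hc0⟩ := hex
    rw [SPair_int h h' hes (Or.inl hp) c0 hc0]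
    have h1 : Q w α D {c : Conf D | Rz m.L c σ l ∧ Rz m.L c σ' l'} =
        qw w α m.L l * dw D m.n * (qw w α m.L l' * dw D m.n) := by
      rw [← h.Q_Rz, ← h'.Q_Rz]
      unfold Q
      exact prob_and_dep (cellLaw w α D) (Us_disj h h' hes hp hl) h.Rz_meas h'.Rz_meas h.Rz_dep' h'.Rz_dep'
    rw [h1]
    have h2 : (endS σ' l').2.2 - (endS σ l).2.2 = σ'.2.2 - σ.2.2 + vsum l' - vsum l := by
      rw [h.end_line, h'.end_line]
      abel
    rw [← h2]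
    exact mul_le_mul_right (SPair_Ak h h' hσ hσ' hne) _
  · rw [SPair_zero hex]
    exact zero_le

end FDr
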