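import Pool.Agent.Lib.MP_e029a2_pr.SCnt

/-!
# Pairs of lists with distinct chosen cells (job SPre)

`pw μ` is the probability that the chosen cell of the micro step `μ` matches (`Q_Mt1`).
(1) `Q_Mt2`: if all the chosen cells of `p` (from `σ`) and `p'` (from `σ'`) are distinct, the probability that both match is
the product. Induction on `p` (generalize `σ`), for `p = []` induction on `p'` (generalize `σ'`): the first event depends on the
cell `cho σ μ.1.1`, the others on the other chosen cells (`Mt1_dep`, `Mt_dep`, `prob_and_dep`, finite sets: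
`Dep.measurableSet`).
(2) `sum_pw`: for every `F`: `∑ p ∈ lst S a, (∏ pw) * F (vsum p) ≤ (2L+2)^a * ∑' v, srw D a v * F v`, if the kinds of `S` are
`none` or `some r` with `|r| ≤ L`. Induction on `a` (`sum_lst_succ`; `vsum (μ :: p) = dv μ.2 + vsum p`): for every function
`G` of the direction `∑ μ ∈ S, pw μ * G μ.2 ≤ (2L+2) * ∑ d, (2D)⁻¹ * G d` (for a fixed kind and direction
`∑ k, dispP (k - rel κ) ≤ 1`; at most `2L + 2` kinds), and
`∑ d, (2D)⁻¹ ∑' v, srw a v * F (dv d + v) = ∑' v, srw (a + 1) v * F v` (shift `v ↦ v - dv d`).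
(3) `srw_neg`: `srw D j (-v) = srw D j v` (induction; `d ↦ -d`); `srw_add`: `∑' v, srw D a v * srw D b (u - v) =
srw D (a + b) u` (induction on `a`).
(4) `pre`: combine: for the pairs which meet, `F v = ∑ p', (∏ pw) [σ.2.2 + v = σ'.2.2 + vsum p']
≤ (2L+2)^b * srw D b (σ.2.2 + v - σ'.2.2)`, then (2) and (3).
-/

set_option autoImplicit false

namespace FDr

open MeasureTheory ProbabilityTheory
open scoped ENNReal

variable {D : ℕ}

/-- the probability that the chosen cell of a micro step matches -/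
noncomputable def pw (w α : Set.Ioo (0 : ℝ) 1) (μ : Mic D) : ℝ≥0∞ :=
  dispP w α (μ.1.2 - rel μ.1.1) * (2 * (D : ℝ≥0∞))⁻¹

private theorem SPre_one [NeZero D] (w α : Set.Ioo (0 : ℝ) 1) (σ : St D) (p : List (Mic D)) (h : (cc σ p).Nodup) :
    Q w α D {c | Mt c σ p} = (p.map (pw w α)).prod := by
  induction p generalizing σ with
  | nil =>
    have h1 : {c : Conf D | Mt c σ []} = Set.univ := by
      ext c
      exact ⟨fun _ => trivial, fun _ => trivial⟩
    rw [h1, measure_univ]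
    rfl
  | cons μ p ih =>
    have h0 : (cho σ μ.1.1 :: cc (nxt σ μ) p).Nodup := h
    rw [List.nodup_cons] at h0
    have h1 := prob_and_dep (cellLaw w α D) (S := {cho σ μ.1.1}) (T := {q | q ∈ cc (nxt σ μ) p}) (by
        rw [Set.disjoint_singleton_left]
        exact h0.1)
      (Dep.measurableSet (Set.finite_singleton _) (Mt1_dep σ μ))
      (Dep.measurableSet (List.finite_toSet _) (Mt_dep (nxt σ μ) p)) (Mt1_dep σ μ) (Mt_dep (nxt σ μ) p)
    have h2 := Q_Mt1 w α σ μ
    have h3 := ih (nxt σ μ) h0.2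
    unfold Q at h2 h3 ⊢
    rw [h2, h3] at h1
    rw [List.map_cons, List.prod_cons]
    exact h1

theorem Q_Mt2 [NeZero D] (w α : Set.Ioo (0 : ℝ) 1) (σ σ' : St D) (p p' : List (Mic D))
    (h : (cc σ p ++ cc σ' p').Nodup) :
    Q w α D {c | Mt c σ p ∧ Mt c σ' p'} = (p.map (pw w α)).prod * (p'.map (pw w α)).prod := by
  rw [List.nodup_append] at h
  have h1 := prob_and_dep (cellLaw w α D) (S := {q | q ∈ cc σ p}) (T := {q | q ∈ cc σ' p'}) (by
      rw [Set.disjoint_left]
      intro q hq hq'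
      exact h.2.2 q hq q hq' rfl)
    (Dep.measurableSet (List.finite_toSet _) (Mt_dep σ p))
    (Dep.measurableSet (List.finite_toSet _) (Mt_dep σ' p')) (Mt_dep σ p) (Mt_dep σ' p')
  have h2 := SPre_one w α σ p h.1
  have h3 := SPre_one w α σ' p' h.2.1
  unfold Q at h2 h3 ⊢
  rw [h2, h3] at h1
  exact h1

private theorem SPre_disp (w α : Set.Ioo (0 : ℝ) 1) (r : ℤ) (K : Finset ℤ) : ∑ k ∈ K, dispP w α (k - r) ≤ 1 := by
  have h1 : ∑ k ∈ K, dispP w α (k - r) = runLaw w α (⋃ k ∈ K, {l | dsp l = k - r}) := by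
    rw [measure_biUnion_finset]
    · rfl
    · intro a _ b _ hab
      show Disjoint _ _
      rw [Set.disjoint_left]
      intro l h1 h2
      have h3 : dsp l = a - r := h1
      have h4 : dsp l = b - r := h2
      exact hab (by linarith)
    · intro k _
      exact MeasurableSet.of_discrete
  rw [h1]
  exact prob_le_one

private theorem SPre_step (w α : Set.Ioo (0 : ℝ) 1) (L : ℕ) (S : Finset (Mic D))
    (hS : ∀ μ ∈ S, ∀ r, μ.1.1 = some r → |r| ≤ L) (G : Dir D → ℝ≥0∞) :
    ∑ μ ∈ S, pw w α μ * G μ.2 ≤ (2 * L + 2) * ∑ d : Dir D, (2 * (D : ℝ≥0∞))⁻¹ * G d := by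
  classical
  set Kd : Finset (Option ℤ) := insert none ((Finset.Icc (-(L : ℤ)) L).image some) with hKd
  set Ks : Finset ℤ := S.image fun μ => μ.1.2 with hKs
  have hsub : S ⊆ (Kd ×ˢ Ks) ×ˢ (Finset.univ : Finset (Dir D)) := by
    intro μ hμ
    rw [Finset.mem_product, Finset.mem_product]
    refine ⟨⟨?_, Finset.mem_image_of_mem _ hμ⟩, Finset.mem_univ _⟩
    cases hk : μ.1.1 with
    | none => exact Finset.mem_insert_self _ _
    | some r =>
      refine Finset.mem_insert_of_mem (Finset.mem_image_of_mem _ ?_)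
      rw [Finset.mem_Icc]
      exact abs_le.1 (hS μ hμ r hk)
  have hcard : (Kd.card : ℝ≥0∞) ≤ 2 * L + 2 := by
    have h1 : Kd.card ≤ 2 * L + 2 := by
      refine (Finset.card_insert_le _ _).trans ?_
      have h2 := Finset.card_image_le (s := Finset.Icc (-(L : ℤ)) L) (f := (some : ℤ → Option ℤ))
      rw [Int.card_Icc] at h2
      omega
    exact_mod_cast h1
  refine (Finset.sum_le_sum_of_subset hsub).trans ?_
  rw [Finset.sum_product, Finset.sum_product]
  have h1 : ∀ κ ∈ Kd, ∑ k ∈ Ks, ∑ d : Dir D, pw w α ((κ, k), d) * G d ≤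
      ∑ d : Dir D, (2 * (D : ℝ≥0∞))⁻¹ * G d := by
    intro κ _
    have h2 : ∀ k ∈ Ks, ∑ d : Dir D, pw w α ((κ, k), d) * G d =
        dispP w α (k - rel κ) * ∑ d : Dir D, (2 * (D : ℝ≥0∞))⁻¹ * G d := by
      intro k _
      rw [Finset.mul_sum]
      refine Finset.sum_congr rfl fun d _ => ?_
      show dispP w α (k - rel κ) * (2 * (D : ℝ≥0∞))⁻¹ * G d = _
      rw [mul_assoc]
    rw [Finset.sum_congr rfl h2, ← Finset.sum_mul]
    exact mul_le_of_le_one_left zero_le (SPre_disp w α (rel κ) Ks)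
  refine (Finset.sum_le_sum h1).trans ?_
  rw [Finset.sum_const, nsmul_eq_mul]
  exact mul_le_mul_left hcard _

private theorem SPre_shift (a : ℕ) (F : (Fin D → ℤ) → ℝ≥0∞) :
    ∑ d : Dir D, (2 * (D : ℝ≥0∞))⁻¹ * ∑' v, srw D a v * F (dv d + v) = ∑' v, srw D (a + 1) v * F v := by
  have h1 : ∀ v, srw D (a + 1) v * F v = ∑ d : Dir D, (2 * (D : ℝ≥0∞))⁻¹ * (srw D a (v - dv d) * F v) := by
    intro v
    show (∑ d : Dir D, (2 * (D : ℝ≥0∞))⁻¹ * srw D a (v - dv d)) * F v = _
    rw [Finset.sum_mul]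
    exact Finset.sum_congr rfl fun d _ => mul_assoc _ _ _
  rw [tsum_congr h1, Summable.tsum_finsetSum fun _ _ => ENNReal.summable]
  refine Finset.sum_congr rfl fun d _ => ?_
  rw [ENNReal.tsum_mul_left, ← (Equiv.addLeft (dv d)).tsum_eq fun v => srw D a (v - dv d) * F v]
  congr 1
  refine tsum_congr fun v => ?_
  show _ = srw D a (dv d + v - dv d) * F (dv d + v)
  rw [add_sub_cancel_left]

theorem sum_pw [NeZero D] (w α : Set.Ioo (0 : ℝ) 1) (L : ℕ) (S : Finset (Mic D))
    (hS : ∀ μ ∈ S, ∀ r, μ.1.1 = some r → |r| ≤ L) (a : ℕ) (F : (Fin D → ℤ) → ℝ≥0∞) :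
    ∑ p ∈ lst S a, (p.map (pw w α)).prod * F (vsum p) ≤ (2 * L + 2) ^ a * ∑' v, srw D a v * F v := by
  induction a generalizing F with
  | zero =>
    show ∑ p ∈ {([] : List (Mic D))}, _ ≤ _
    rw [Finset.sum_singleton, pow_zero, one_mul, List.map_nil, List.prod_nil, one_mul]
    refine le_trans (le_of_eq ?_) (ENNReal.le_tsum (0 : Fin D → ℤ))
    show F (vsum []) = (if (0 : Fin D → ℤ) = 0 then 1 else 0) * F 0
    rw [if_pos rfl, one_mul]
    rfl
  | succ a ih =>
    rw [sum_lst_succ]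
    have h1 : ∀ μ ∈ S, ∑ p ∈ lst S a, ((μ :: p).map (pw w α)).prod * F (vsum (μ :: p)) ≤
        pw w α μ * ((2 * L + 2) ^ a * ∑' v, srw D a v * F (dv μ.2 + v)) := by
      intro μ _
      have h2 : ∀ p ∈ lst S a, ((μ :: p).map (pw w α)).prod * F (vsum (μ :: p)) =
          pw w α μ * ((p.map (pw w α)).prod * F (dv μ.2 + vsum p)) := by
        intro p _
        rw [List.map_cons, List.prod_cons, mul_assoc]
        have h3 : vsum (μ :: p) = dv μ.2 + vsum p := by
          unfold vsum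
          rw [List.map_cons, List.sum_cons]
        rw [h3]
      rw [Finset.sum_congr rfl h2, ← Finset.mul_sum]
      exact mul_le_mul_right (ih fun v => F (dv μ.2 + v)) _
    refine (Finset.sum_le_sum h1).trans ?_
    refine (SPre_step w α L S hS fun d => (2 * L + 2) ^ a * ∑' v, srw D a v * F (dv d + v)).trans ?_
    rw [← SPre_shift a F, pow_succ, mul_comm (((2 : ℝ≥0∞) * L + 2) ^ a) (2 * L + 2), mul_assoc]
    refine mul_le_mul_right (le_of_eq ?_) _
    rw [Finset.mul_sum]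
    exact Finset.sum_congr rfl fun d _ => mul_left_comm _ _ _

theorem srw_neg (j : ℕ) (v : Fin D → ℤ) : srw D j (-v) = srw D j v := by
  induction j generalizing v with
  | zero =>
    show (if -v = 0 then (1 : ℝ≥0∞) else 0) = if v = 0 then 1 else 0
    by_cases hv : v = 0
    · rw [if_pos hv, if_pos (by rw [hv, neg_zero])]
    · rw [if_neg hv, if_neg fun h => hv (neg_eq_zero.1 h)]
  | succ j ih =>
    show ∑ d : Dir D, (2 * (D : ℝ≥0∞))⁻¹ * srw D j (-v - dv d) = ∑ d : Dir D, (2 * (D : ℝ≥0∞))⁻¹ * srw D j (v - dv d)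
    let e : Dir D ≃ Dir D := Equiv.prodCongr (Equiv.refl _) Equiv.boolNot
    rw [← e.sum_comp]
    refine Finset.sum_congr rfl fun d _ => ?_
    have h1 : dv (e d) = -dv d := by
      obtain ⟨i, b⟩ := d
      show (Pi.single i (sg (!b)) : Fin D → ℤ) = -Pi.single i (sg b)
      rw [← Pi.single_neg]
      cases b <;> rfl
    rw [h1, ← ih (v - dv d)]
    congr 2
    abel

theorem srw_add (a b : ℕ) (u : Fin D → ℤ) : ∑' v, srw D a v * srw D b (u - v) = srw D (a + b) u := by
  induction a generalizing u with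
  | zero =>
    rw [zero_add, tsum_eq_single (0 : Fin D → ℤ)]
    · show (if (0 : Fin D → ℤ) = 0 then (1 : ℝ≥0∞) else 0) * srw D b (u - 0) = _
      rw [if_pos rfl, one_mul, sub_zero]
    · intro v hv
      show (if v = 0 then (1 : ℝ≥0∞) else 0) * _ = 0
      rw [if_neg hv, zero_mul]
  | succ a ih =>
    rw [← SPre_shift a fun v => srw D b (u - v)]
    have h1 : srw D (a + 1 + b) u = ∑ d : Dir D, (2 * (D : ℝ≥0∞))⁻¹ * srw D (a + b) (u - dv d) := by
      rw [Nat.add_right_comm]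
      rfl
    rw [h1]
    refine Finset.sum_congr rfl fun d _ => ?_
    rw [← ih (u - dv d)]
    congr 1
    refine tsum_congr fun v => ?_
    rw [sub_sub]

open Classical in
theorem pre [NeZero D] (w α : Set.Ioo (0 : ℝ) 1) (L : ℕ) (S : Finset (Mic D))
    (hS : ∀ μ ∈ S, ∀ r, μ.1.1 = some r → |r| ≤ L) (a b : ℕ) (σ σ' : St D) :
    ∑ p ∈ lst S a, ∑ p' ∈ lst S b, (if (cc σ p ++ cc σ' p').Nodup ∧ σ.2.2 + vsum p = σ'.2.2 + vsum p' then
      Q w α D {c | Mt c σ p ∧ Mt c σ' p'} else 0) ≤ (2 * L + 2) ^ (a + b) * srw D (a + b) (σ'.2.2 - σ.2.2) := by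
  have h1 : ∀ p ∈ lst S a, ∑ p' ∈ lst S b,
      (if (cc σ p ++ cc σ' p').Nodup ∧ σ.2.2 + vsum p = σ'.2.2 + vsum p' then
        Q w α D {c | Mt c σ p ∧ Mt c σ' p'} else 0) ≤
      (p.map (pw w α)).prod * ((2 * L + 2) ^ b * srw D b (vsum p - (σ'.2.2 - σ.2.2))) := by
    intro p _
    have h2 : ∀ p' ∈ lst S b, (if (cc σ p ++ cc σ' p').Nodup ∧ σ.2.2 + vsum p = σ'.2.2 + vsum p' then
        Q w α D {c | Mt c σ p ∧ Mt c σ' p'} else 0) ≤
        (p.map (pw w α)).prod * ((p'.map (pw w α)).prod *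
          (if vsum p' = vsum p - (σ'.2.2 - σ.2.2) then 1 else 0)) := by
      intro p' _
      split
      · next h =>
        have h3 : vsum p' = vsum p - (σ'.2.2 - σ.2.2) := by
          rw [sub_sub_eq_add_sub, add_comm (vsum p), h.2, add_sub_cancel_left]
        rw [Q_Mt2 w α σ σ' p p' h.1, if_pos h3, mul_one]
      · exact zero_le
    refine (Finset.sum_le_sum h2).trans ?_
    rw [← Finset.mul_sum]
    refine mul_le_mul_right ((sum_pw w α L S hS b
      fun v => if v = vsum p - (σ'.2.2 - σ.2.2) then 1 else 0).trans (mul_le_mul_right (le_of_eq ?_) _)) _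
    rw [tsum_eq_single (vsum p - (σ'.2.2 - σ.2.2))]
    · rw [if_pos rfl, mul_one]
    · intro v hv
      rw [if_neg hv, mul_zero]
  refine (Finset.sum_le_sum h1).trans ?_
  refine (sum_pw w α L S hS a fun v => (2 * L + 2) ^ b * srw D b (v - (σ'.2.2 - σ.2.2))).trans ?_
  rw [pow_add, mul_assoc]
  refine mul_le_mul_right (le_of_eq ?_) _
  rw [← srw_add a b (σ'.2.2 - σ.2.2), ← ENNReal.tsum_mul_left]
  refine tsum_congr fun v => ?_
  rw [← srw_neg b (v - (σ'.2.2 - σ.2.2)), neg_sub, mul_left_comm]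

end FDr
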