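import Pool.Agent.Lib.MP_e029a2_pr.SEv
import Pool.Agent.Lib.MP_e029a2_pr.SFut

/-!
# The probability of a long step
-/

set_option autoImplicit false

namespace FDr

open MeasureTheory ProbabilityTheory
open scoped ENNReal

variable {D : ℕ}

theorem Us_finite (L : ℕ) (σ : St D) (l : List (Mic D)) : (Us L σ l).Finite := by
  induction l generalizing σ with
  | nil => exact Set.finite_empty
  | cons μ l ih => exact (U1_finite L σ μ.1.1).union (ih (nxt σ μ))

theorem Rz_dep (L : ℕ) (σ : St D) (l : List (Mic D)) (hl : ∀ μ ∈ l, ∀ r, μ.1.1 = some r → |r| ≤ L) :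
    Dep (Us L σ l) (fun c : Conf D => Rz L c σ l) := by
  induction l generalizing σ with
  | nil => exact fun _ _ _ => rfl
  | cons μ l ih =>
    have h1 := (Ev_dep L σ μ (hl μ List.mem_cons_self)).mono (T := Us L σ (μ :: l)) Set.subset_union_left
    have h2 := (ih (nxt σ μ) fun μ' hμ' => hl μ' (List.mem_cons_of_mem _ hμ')).mono (T := Us L σ (μ :: l))
      Set.subset_union_right
    exact h1.comp₂ h2 And

theorem Mt_dep (σ : St D) (l : List (Mic D)) : Dep {p | p ∈ cc σ l} (fun c : Conf D => Mt c σ l) := by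
  induction l generalizing σ with
  | nil => exact fun _ _ _ => rfl
  | cons μ l ih =>
    have h1 := (Mt1_dep σ μ).mono (T := {p | p ∈ cc σ (μ :: l)}) (by
      intro p hp
      rw [Set.mem_singleton_iff] at hp
      rw [hp]
      exact List.mem_cons_self)
    have h2 := (ih (nxt σ μ)).mono (T := {p | p ∈ cc σ (μ :: l)}) fun p hp => List.mem_cons_of_mem _ hp
    exact h1.comp₂ h2 And

variable {w α : Set.Ioo (0 : ℝ) 1} {m : Mac w α} {B : Finset (Fin D → ℤ)} {σ : St D} {l : List (Mic D)}

theorem ml_kinds (hl : l ∈ m.ML D) : ∀ μ ∈ l, ∀ r, μ.1.1 = some r → |r| ≤ m.L := by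
  intro μ hμ r hr
  obtain ⟨κ, hκ, δ, hδ, rfl⟩ := (mem_ML m l).1 hl
  exact m.rL κ hκ _ (List.of_mem_zip hμ).1 r hr

theorem Chn.Rz_dep' (h : Chn m B σ l) : Dep (Us m.L σ l) (fun c : Conf D => Rz m.L c σ l) :=
  Rz_dep m.L σ l (ml_kinds h.ml)

theorem Chn.Rz_meas [NeZero D] (h : Chn m B σ l) : MeasurableSet {c : Conf D | Rz m.L c σ l} :=
  Dep.measurableSet (Us_finite m.L σ l) h.Rz_dep'

/-- the weight of a list of micro steps -/
noncomputable def qw (w α : Set.Ioo (0 : ℝ) 1) (L : ℕ) (l : List (Mic D)) : ℝ≥0∞ := (l.map fun μ => hW w α L μ.1).prod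

theorem Chn.Q_Rz [NeZero D] (h : Chn m B σ l) :
    Q w α D {c | Rz m.L c σ l} = qw w α m.L l * dw D m.n := by
  have key : ∀ i, i ≤ m.n → Q w α D {c | Rz m.L c σ (l.take i)} =
      qw w α m.L (l.take i) * ((2 * (D : ℝ≥0∞))⁻¹) ^ i := by
    intro i
    induction i with
    | zero =>
      intro _
      rw [List.take_zero, pow_zero, mul_one]
      have h1 : {c : Conf D | Rz m.L c σ []} = Set.univ := by
        ext c
        exact ⟨fun _ => trivial, fun _ => trivial⟩
      rw [h1, measure_univ]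
      rfl
    | succ i ih =>
      intro hi
      have hi' : i < l.length := by
        rw [ml_len m h.ml]
        exact hi
      have h1 : {c : Conf D | Rz m.L c σ (l.take (i + 1))} =
          {c | Rz m.L c σ (l.take i) ∧ Ev m.L c (st σ l i) l[i]} := by
        ext c
        show Rz m.L c σ (l.take (i + 1)) ↔ _
        rw [List.take_succ_eq_append_getElem hi', Rz_append]
        constructor
        · rintro ⟨h2, h3⟩
          exact ⟨h2, h3.1⟩
        · rintro ⟨h2, h3⟩
          exact ⟨h2, h3, trivial⟩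
      have h2 : ∀ μ ∈ l.take i, ∀ r, μ.1.1 = some r → |r| ≤ m.L := fun μ hμ =>
        ml_kinds h.ml μ (List.mem_of_mem_take hμ)
      have h3 : ∀ r, (l[i]).1.1 = some r → |r| ≤ m.L := ml_kinds h.ml _ (List.getElem_mem hi')
      have h4 : Disjoint (Us m.L σ (l.take i)) (U1 m.L (st σ l i) (l[i]).1.1) := by
        have h5 := h.Us_take_disj hi
        rw [kd_get l i hi'] at h5
        exact h5
      rw [h1]
      have h6 := prob_and_dep (cellLaw w α D) h4 (Dep.measurableSet (Us_finite m.L σ (l.take i)) (Rz_dep m.L σ _ h2))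
        (Dep.measurableSet (U1_finite m.L (st σ l i) _) (Ev_dep m.L (st σ l i) l[i] h3)) (Rz_dep m.L σ _ h2)
        (Ev_dep m.L (st σ l i) l[i] h3)
      have h7 := ih (Nat.le_of_succ_le hi)
      have h8 := Q_Ev w α m.L (st σ l i) l[i] (h.own_phase (Nat.le_of_succ_le hi))
      unfold Q at h7 h8 ⊢
      rw [h6, h7, h8]
      unfold qw
      rw [List.take_succ_eq_append_getElem hi', List.map_append, List.prod_append, List.map_singleton,
        List.prod_singleton, pow_succ]
      ring
  have h1 := key m.n le_rfl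
  rw [List.take_of_length_le (ml_len m h.ml).le] at h1
  rw [h1]
  unfold dw
  rw [ENNReal.inv_pow]

theorem qw_zip (L : ℕ) (κ : List (Option ℤ × ℤ)) (δ : List (Dir D)) (h : κ.length = δ.length) :
    qw w α L (κ.zip δ) = (κ.map (hW w α L)).prod := by
  unfold qw
  rw [show (fun μ : Mic D => hW w α L μ.1) = hW w α L ∘ Prod.fst from rfl, ← List.map_map,
    List.map_fst_zip (le_of_eq h)]

end FDr
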