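import Pool.Agent.Lib.MP_e029a2_pr.SDef

/-!
# States along a chain
-/

set_option autoImplicit false

namespace FDr

variable {D : ℕ}

theorem endS_append (σ : St D) (l l' : List (Mic D)) : endS σ (l ++ l') = endS (endS σ l) l' := by
  induction l generalizing σ with
  | nil => rfl
  | cons μ l ih => exact ih (nxt σ μ)

theorem Rz_append (L : ℕ) (c : Conf D) (σ : St D) (l l' : List (Mic D)) :
    Rz L c σ (l ++ l') ↔ Rz L c σ l ∧ Rz L c (endS σ l) l' := by
  induction l generalizing σ with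
  | nil => exact ⟨fun h => ⟨trivial, h⟩, fun h => h.2⟩
  | cons μ l ih =>
    show (Ev L c σ μ ∧ Rz L c (nxt σ μ) (l ++ l')) ↔ (Ev L c σ μ ∧ Rz L c (nxt σ μ) l) ∧ Rz L c (endS (nxt σ μ) l) l'
    rw [ih, and_assoc]

theorem Mt_append (c : Conf D) (σ : St D) (l l' : List (Mic D)) :
    Mt c σ (l ++ l') ↔ Mt c σ l ∧ Mt c (endS σ l) l' := by
  induction l generalizing σ with
  | nil => exact ⟨fun h => ⟨trivial, h⟩, fun h => h.2⟩
  | cons μ l ih =>
    show (Mt1 c σ μ ∧ Mt c (nxt σ μ) (l ++ l')) ↔ (Mt1 c σ μ ∧ Mt c (nxt σ μ) l) ∧ Mt c (endS (nxt σ μ) l) l'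
    rw [ih, and_assoc]

theorem Rz_Mt {L : ℕ} {c : Conf D} {σ : St D} {l : List (Mic D)} (h : Rz L c σ l) : Mt c σ l := by
  induction l generalizing σ with
  | nil => trivial
  | cons μ l ih => exact ⟨h.1.2, ih h.2⟩

theorem cc_append (σ : St D) (l l' : List (Mic D)) : cc σ (l ++ l') = cc σ l ++ cc (endS σ l) l' := by
  induction l generalizing σ with
  | nil => rfl
  | cons μ l ih =>
    show cho σ μ.1.1 :: cc (nxt σ μ) (l ++ l') = cho σ μ.1.1 :: (cc (nxt σ μ) l ++ cc (endS (nxt σ μ) l) l')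
    rw [ih]

theorem cc_length (σ : St D) (l : List (Mic D)) : (cc σ l).length = l.length := by
  induction l generalizing σ with
  | nil => rfl
  | cons μ l ih =>
    show (cc (nxt σ μ) l).length + 1 = l.length + 1
    rw [ih]

theorem st_zero (σ : St D) (l : List (Mic D)) : st σ l 0 = σ := by
  unfold st
  rw [List.take_zero]
  rfl

theorem st_len (σ : St D) (l : List (Mic D)) : st σ l l.length = endS σ l := by
  unfold st
  rw [List.take_length]

theorem st_succ (σ : St D) (l : List (Mic D)) (i : ℕ) (h : i < l.length) : st σ l (i + 1) = nxt (st σ l i) l[i] := by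
  unfold st
  rw [List.take_succ_eq_append_getElem h, endS_append]
  rfl

theorem st_cons (σ : St D) (μ : Mic D) (l : List (Mic D)) (i : ℕ) : st σ (μ :: l) (i + 1) = st (nxt σ μ) l i := rfl

theorem endS_pos (σ : St D) (l : List (Mic D)) : (endS σ l).2 = σ.2 + (hsum l, vsum l) := by
  induction l generalizing σ with
  | nil => exact (add_zero _).symm
  | cons μ l ih =>
    show (endS (nxt σ μ) l).2 = σ.2 + (hsum (μ :: l), vsum (μ :: l))
    rw [ih]
    have h1 : hsum (μ :: l) = μ.1.2 + hsum l := by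
      unfold hsum
      rw [List.map_cons, List.sum_cons]
    have h2 : vsum (μ :: l) = dv μ.2 + vsum l := by
      unfold vsum
      rw [List.map_cons, List.sum_cons]
    rw [h1, h2]
    show σ.2 + (μ.1.2, dv μ.2) + (hsum l, vsum l) = σ.2 + (μ.1.2 + hsum l, dv μ.2 + vsum l)
    rw [add_assoc]
    rfl

theorem st_pos (σ : St D) (l : List (Mic D)) (i : ℕ) :
    (st σ l i).2 = σ.2 + (hsum (l.take i), vsum (l.take i)) := endS_pos σ (l.take i)

theorem Rz_iff (L : ℕ) (c : Conf D) (σ : St D) (l : List (Mic D)) :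
    Rz L c σ l ↔ ∀ i (h : i < l.length), Ev L c (st σ l i) l[i] := by
  induction l generalizing σ with
  | nil => exact ⟨fun _ i h => absurd h (Nat.not_lt_zero i), fun _ => trivial⟩
  | cons μ l ih =>
    constructor
    · intro h i hi
      cases i with
      | zero => exact h.1
      | succ i => exact (ih (nxt σ μ)).1 h.2 i (Nat.lt_of_succ_lt_succ hi)
    · intro h
      refine ⟨h 0 (Nat.succ_pos _), (ih (nxt σ μ)).2 fun i hi => ?_⟩
      exact h (i + 1) (Nat.succ_lt_succ hi)

theorem mem_Us (L : ℕ) (σ : St D) (l : List (Mic D)) (p : Site D × ℕ) :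
    p ∈ Us L σ l ↔ ∃ i, ∃ h : i < l.length, p ∈ U1 L (st σ l i) (l[i]).1.1 := by
  induction l generalizing σ with
  | nil => exact ⟨fun h => absurd h (Set.notMem_empty p), fun ⟨i, h, _⟩ => absurd h (Nat.not_lt_zero i)⟩
  | cons μ l ih =>
    constructor
    · intro h
      rcases h with h | h
      · exact ⟨0, Nat.succ_pos _, h⟩
      · obtain ⟨i, hi, h2⟩ := (ih (nxt σ μ)).1 h
        exact ⟨i + 1, Nat.succ_lt_succ hi, h2⟩
    · rintro ⟨i, hi, h⟩
      cases i with
      | zero => exact Or.inl h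
      | succ i => exact Or.inr ((ih (nxt σ μ)).2 ⟨i, Nat.lt_of_succ_lt_succ hi, h⟩)

theorem mem_cc (σ : St D) (l : List (Mic D)) (p : Site D × ℕ) :
    p ∈ cc σ l ↔ ∃ i, ∃ h : i < l.length, p = cho (st σ l i) (l[i]).1.1 := by
  induction l generalizing σ with
  | nil => exact ⟨fun h => absurd h List.not_mem_nil, fun ⟨i, h, _⟩ => absurd h (Nat.not_lt_zero i)⟩
  | cons μ l ih =>
    show p ∈ cho σ μ.1.1 :: cc (nxt σ μ) l ↔ _
    rw [List.mem_cons, ih]
    constructor
    · rintro (h | ⟨i, hi, h⟩)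
      · exact ⟨0, Nat.succ_pos _, h⟩
      · exact ⟨i + 1, Nat.succ_lt_succ hi, h⟩
    · rintro ⟨i, hi, h⟩
      cases i with
      | zero => exact Or.inl h
      | succ i => exact Or.inr ⟨i, Nat.lt_of_succ_lt_succ hi, h⟩

end FDr
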