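import Pool.Agent.Lib.MP_e029a2_pr.SRz

/-!
# The number of chains: dependence and measurability
-/

set_option autoImplicit false

namespace FDr

open MeasureTheory ProbabilityTheory
open scoped ENNReal

variable {D : ℕ}

theorem Dep.sum {ι β κ : Type*} {S : Set ι} (A : Finset κ) {f : κ → (ι → β) → ℝ≥0∞} (h : ∀ a ∈ A, Dep S (f a)) :
    Dep S (fun c => ∑ a ∈ A, f a c) := by
  intro c c' hc
  exact Finset.sum_congr rfl fun a ha => h a ha c c' hc

/-- the position after `i` more cells is the origin -/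
theorem N0_ev_dep (σ : St D) (i : ℕ) : Dep ((fun t => (σ.1.1, σ.1.2 + t)) '' Set.Iio i)
    (fun c : Conf D => σ.2 + ∑ t ∈ Finset.range i, cvec (c (σ.1.1, σ.1.2 + t)) = 0) := by
  intro c c' hc
  have h1 : ∑ t ∈ Finset.range i, cvec (c (σ.1.1, σ.1.2 + t)) = ∑ t ∈ Finset.range i, cvec (c' (σ.1.1, σ.1.2 + t)) := by
    refine Finset.sum_congr rfl fun t ht => ?_
    rw [hc _ ⟨t, Finset.mem_range.1 ht, rfl⟩]
  show (σ.2 + _ = 0) = (σ.2 + _ = 0)
  rw [h1]

theorem N0_dep (B : Finset (Fin D → ℤ)) (σ : St D) : Dep (Fut B σ) (fun c : Conf D => N0 c σ) := by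
  classical
  intro c c' hc
  unfold N0
  refine tsum_congr fun i => ?_
  have h1 : (σ.2 + ∑ t ∈ Finset.range i, cvec (c (σ.1.1, σ.1.2 + t)) = 0) =
      (σ.2 + ∑ t ∈ Finset.range i, cvec (c' (σ.1.1, σ.1.2 + t)) = 0) := by
    refine N0_ev_dep σ i c c' ?_
    rintro _ ⟨t, _, rfl⟩
    exact hc _ (Or.inl ⟨rfl, Nat.le_add_right _ _⟩)
  by_cases h2 : σ.2 + ∑ t ∈ Finset.range i, cvec (c (σ.1.1, σ.1.2 + t)) = 0
  · rw [if_pos h2, if_pos (h1 ▸ h2)]
  · rw [if_neg h2, if_neg (h1 ▸ h2)]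

theorem N0_ev_meas [NeZero D] (σ : St D) (i : ℕ) :
    MeasurableSet {c : Conf D | σ.2 + ∑ t ∈ Finset.range i, cvec (c (σ.1.1, σ.1.2 + t)) = 0} :=
  Dep.measurableSet ((Set.finite_Iio i).image _) (N0_ev_dep σ i)

theorem N0_meas [NeZero D] (σ : St D) : Measurable (fun c : Conf D => N0 c σ) := by
  classical
  unfold N0
  refine Measurable.tsum fun i => ?_
  exact Measurable.ite (N0_ev_meas σ i) measurable_const measurable_const

variable {w α : Set.Ioo (0 : ℝ) 1} (m : Mac w α) (B : Finset (Fin D → ℤ))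

open Classical in
theorem X_succ (c : Conf D) (k : ℕ) (σ : St D) : X m B c (k + 1) σ =
    ∑ l ∈ (m.ML D).filter (fun l => okm B σ.2.2 l), if Rz m.L c σ l then X m B c k (endS σ l) else 0 := rfl

theorem X_zero (c : Conf D) (σ : St D) : X m B c 0 σ = N0 c σ := rfl

theorem X_dep (k : ℕ) (σ : St D) (hσ : Inv B σ) : Dep (Fut B σ) (fun c : Conf D => X m B c k σ) := by
  classical
  induction k generalizing σ with
  | zero => exact N0_dep B σ
  | succ k ih =>
    show Dep (Fut B σ) (fun c : Conf D => ∑ l ∈ (m.ML D).filter (fun l => okm B σ.2.2 l),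
      if Rz m.L c σ l then X m B c k (endS σ l) else 0)
    refine Dep.sum _ fun l hl => ?_
    rw [Finset.mem_filter] at hl
    have h : Chn m B σ l := ⟨hσ, hl.1, hl.2⟩
    have h1 := h.Rz_dep'.mono h.Us_sub
    have h2 := (ih (endS σ l) h.inv_end).mono h.Fut_end_sub
    have h3 : Dep (Fut B σ) (fun _ : Conf D => (0 : ℝ≥0∞)) := fun _ _ _ => rfl
    exact Dep.ite h1 h2 h3

theorem X_meas [NeZero D] (k : ℕ) (σ : St D) (hσ : Inv B σ) : Measurable (fun c : Conf D => X m B c k σ) := by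
  classical
  induction k generalizing σ with
  | zero => exact N0_meas σ
  | succ k ih =>
    show Measurable (fun c : Conf D => ∑ l ∈ (m.ML D).filter (fun l => okm B σ.2.2 l),
      if Rz m.L c σ l then X m B c k (endS σ l) else 0)
    refine Finset.measurable_sum _ fun l hl => ?_
    rw [Finset.mem_filter] at hl
    have h : Chn m B σ l := ⟨hσ, hl.1, hl.2⟩
    exact Measurable.ite h.Rz_meas (ih (endS σ l) h.inv_end) measurable_const

/-- the sum over the long steps -/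
theorem sum_ML (σ : St D) (f : List (Mic D) → ℝ≥0∞) :
    ∑ l ∈ (m.ML D).filter (fun l => okm B σ.2.2 l), f l =
      ∑ κ ∈ m.F, ∑ δ ∈ (inj D m.n).filter (fun δ => okl B σ.2.2 δ), f (κ.zip δ) := by
  classical
  rw [Finset.sum_comm]
  rw [← Finset.sum_product']
  symm
  refine Finset.sum_bij (fun (p : List (Dir D) × List (Option ℤ × ℤ)) _ => p.2.zip p.1) ?_ ?_ ?_ ?_
  · rintro ⟨δ, κ⟩ h
    rw [Finset.mem_product, Finset.mem_filter] at h
    have h0 : κ.length = δ.length := (m.len κ h.2).trans (((mem_inj δ).1 h.1.1).1).symm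
    rw [Finset.mem_filter]
    refine ⟨(mem_ML m _).2 ⟨κ, h.2, δ, h.1.1, rfl⟩, ?_⟩
    show okl B σ.2.2 ((κ.zip δ).map Prod.snd)
    rw [List.map_snd_zip (le_of_eq h0.symm)]
    exact h.1.2
  · rintro ⟨δ, κ⟩ h ⟨δ', κ'⟩ h' h2
    rw [Finset.mem_product, Finset.mem_filter] at h h'
    have h0 : κ.length = δ.length := (m.len κ h.2).trans (((mem_inj δ).1 h.1.1).1).symm
    have h0' : κ'.length = δ'.length := (m.len κ' h'.2).trans (((mem_inj δ').1 h'.1.1).1).symm
    have h3 : κ.zip δ = κ'.zip δ' := h2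
    have h4 : (κ.zip δ).map Prod.snd = (κ'.zip δ').map Prod.snd := by rw [h3]
    have h5 : (κ.zip δ).map Prod.fst = (κ'.zip δ').map Prod.fst := by rw [h3]
    rw [List.map_snd_zip (le_of_eq h0.symm), List.map_snd_zip (le_of_eq h0'.symm)] at h4
    rw [List.map_fst_zip (le_of_eq h0), List.map_fst_zip (le_of_eq h0')] at h5
    rw [h4, h5]
  · intro l hl
    rw [Finset.mem_filter] at hl
    obtain ⟨κ, hκ, δ, hδ, rfl⟩ := (mem_ML m l).1 hl.1
    have h0 : κ.length = δ.length := (m.len κ hκ).trans (((mem_inj δ).1 hδ).1).symm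
    refine ⟨(δ, κ), ?_, rfl⟩
    rw [Finset.mem_product, Finset.mem_filter]
    refine ⟨⟨hδ, ?_⟩, hκ⟩
    have h1 : okl B σ.2.2 ((κ.zip δ).map Prod.snd) := hl.2
    rw [List.map_snd_zip (le_of_eq h0.symm)] at h1
    exact h1
  · rintro ⟨δ, κ⟩ _
    rfl

end FDr
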