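import Pool.Agent.Lib.MP_e029a2_pr.TB

/-!
# Transience, part C: the number of cells which visit the origin, and the inequality of the first line
-/

set_option autoImplicit false

namespace FDr.TR

open MeasureTheory ProbabilityTheory
open scoped ENNReal

variable {D : ℕ}

/-- The number of cells which visit the origin and are used after at most `n` changes of lines. -/
noncomputable def NN (F : Set (Site D)) (z : Site D) (n : ℕ) (c : OConf D) : ℝ≥0∞ :=
  ∑' e : Ix D, ind (Ent F z c n e ∧ OVis z c e 0)

theorem measurable_NN (F : Set (Site D)) (z : Site D) (n : ℕ) : Measurable (NN F z n) := by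
  unfold NN
  exact Measurable.tsum fun e => measurable_ind ((measurable_ent F z n e).and (measurable_ovis z e 0))

theorem NN_congr {F : Set (Site D)} {z : Site D} {n : ℕ} {c c' : OConf D}
    (h : ∀ e : Ix D, (∀ y, e.1 = some y → y ∈ F) → c e = c' e) : NN F z n c = NN F z n c' := by
  unfold NN
  refine tsum_congr fun e => ind_congr ?_
  have h1 := ent_congr_iff (F := F) (z := z) (c := c) (c' := c') (n := n) (fun e h1 _ => h e h1) e
  constructor
  · rintro ⟨h2, h3⟩
    exact ⟨h1.1 h2, (ovis_congr (fun i _ => h _ h2.frog.1) 0).1 h3⟩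
  · rintro ⟨h2, h3⟩
    exact ⟨h1.2 h2, (ovis_congr (fun i _ => h _ h2.frog.1) 0).2 h3⟩

/-- The visits on the first line. -/
noncomputable def N0 (F : Set (Site D)) (z : Site D) (c : OConf D) : ℝ≥0∞ :=
  ∑' o : Option (Site D), ind (Ent F z c 0 (o, 0) ∧ OVis z c (o, 0) 0)

theorem NN_zero_le (F : Set (Site D)) (z : Site D) (c : OConf D) : NN F z 0 c ≤ N0 F z c := by
  unfold NN N0
  have h1 : ∀ e : Ix D, ind (Ent F z c 0 e ∧ OVis z c e 0) ≤
      ∑' o : Option (Site D), ind (e = (o, 0) ∧ (Ent F z c 0 (o, 0) ∧ OVis z c (o, 0) 0)) := by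
    intro e
    refine le_trans ?_ (ENNReal.le_tsum e.1)
    refine ind_mono fun h => ?_
    have h2 : e = (e.1, 0) := Prod.ext rfl (Nat.le_zero.1 h.1.frog.2)
    refine ⟨h2, ?_⟩
    rw [← h2]
    exact h
  refine (ENNReal.tsum_le_tsum h1).trans ?_
  rw [ENNReal.tsum_comm]
  exact le_of_eq (tsum_congr fun o => tsum_ind_and _ _)

/-- **The inequality of the first line.** -/
theorem NN_succ_le (F : Set (Site D)) (z : Site D) (n : ℕ) (c : OConf D) :
    NN F z (n + 1) c ≤ N0 F z c +
      ∑' o : Option (Site D), ind (Ent F z c 0 (o, 0)) *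
        NN (F \ clu F z c) (oent z c o 1) n (fun i => c (psi o i)) := by
  have h1 : ∀ e : Ix D, ind (Ent F z c (n + 1) e ∧ OVis z c e 0) ≤
      (∑' o : Option (Site D), ind (e = (o, 0) ∧ (Ent F z c 0 (o, 0) ∧ OVis z c (o, 0) 0))) +
      ∑' o : Option (Site D), ∑' e' : Ix D, ind (e = psi o e' ∧ (Ent F z c 0 (o, 0) ∧
        (Ent (F \ clu F z c) (oent z c o 1) (fun i => c (psi o i)) n e' ∧
          OVis (oent z c o 1) (fun i => c (psi o i)) e' 0))) := by
    intro e
    by_cases h : Ent F z c (n + 1) e ∧ OVis z c e 0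
    · rw [ind_true h]
      rcases ent_decomp h.1 with ⟨h2, h3⟩ | ⟨m, h2, o, h3, e', h4, h5⟩
      · refine le_trans ?_ le_self_add
        refine le_trans ?_ (ENNReal.le_tsum e.1)
        have h4 : e = (e.1, 0) := Prod.ext rfl h2
        rw [ind_true]
        refine ⟨h4, ?_⟩
        rw [← h4]
        exact ⟨h3, h.2⟩
      · refine le_trans ?_ le_add_self
        refine le_trans ?_ (ENNReal.le_tsum o)
        refine le_trans ?_ (ENNReal.le_tsum e')
        rw [ind_true]
        obtain rfl : n = m := Nat.succ_injective h2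
        refine ⟨h5.symm, h3, h4, ?_⟩
        rw [ovis_psi, h5]
        · exact h.2
        · intro x hx hx'
          refine (h4.frog.1 x hx).2 ?_
          subst hx'
          exact h3
    · rw [ind_false h]
      exact zero_le
  unfold NN
  refine (ENNReal.tsum_le_tsum h1).trans ?_
  rw [ENNReal.tsum_add]
  refine add_le_add (le_of_eq ?_) (le_of_eq ?_)
  · rw [ENNReal.tsum_comm]
    exact tsum_congr fun o => tsum_ind_and _ _
  · rw [ENNReal.tsum_comm]
    refine tsum_congr fun o => ?_
    rw [ENNReal.tsum_comm, ← ENNReal.tsum_mul_left]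
    refine tsum_congr fun e' => ?_
    rw [tsum_ind_and, ind_and]

end FDr.TR
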