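import Pool.Agent.Lib.MP_e029a2_pr.TC

/-!
# Transience, part D: the first line
-/

set_option autoImplicit false

namespace FDr.TR

open MeasureTheory ProbabilityTheory
open scoped ENNReal

variable {D : ℕ}

/-- The law of the configurations with an additional frog. -/
noncomputable def OQ (w α : Set.Ioo (0 : ℝ) 1) (D : ℕ) [NeZero D] : Measure (OConf D) :=
  Measure.infinitePi fun _ => cellLaw w α D

instance OQ_prob (w α : Set.Ioo (0 : ℝ) 1) (D : ℕ) [NeZero D] : IsProbabilityMeasure (OQ w α D) := by
  unfold OQ
  infer_instance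

/-- A frog is activated on the first line if it is visited by a frog which is activated without it. -/
theorem ent_zero_iff {F : Set (Site D)} {z y : Site D} {c : OConf D} :
    Ent F z c 0 (some y, 0) ↔ y ∈ F ∧ ∃ e, Ent (F \ {y}) z c 0 e ∧ OVis z c e y := by
  constructor
  · intro h
    have key : ∀ n e, Ent F z c n e → n = 0 → Ent (F \ {y}) z c 0 e ∨ (y ∈ F ∧ ∃ e', Ent (F \ {y}) z c 0 e' ∧
        OVis z c e' y) := by
      intro n e he
      induction he with
      | src n => exact fun _ => Or.inl (Ent.src _)
      | cont n o j _ ih => exact fun h0 => absurd h0 (Nat.succ_ne_zero n)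
      | wake n e y' he hy hv ih =>
        intro h0
        rcases ih h0 with h1 | h1
        · by_cases hyy : y' = y
          · subst hyy
            exact Or.inr ⟨hy, e, h1, hv⟩
          · exact Or.inl (Ent.wake _ _ _ h1 ⟨hy, hyy⟩ hv)
        · exact Or.inr h1
    rcases key 0 _ h rfl with h1 | h1
    · exact absurd rfl (h1.frog.1 y rfl).2
    · exact h1
  · rintro ⟨hy, e, he, hv⟩
    exact Ent.wake _ _ _ (he.mono Set.sdiff_subset le_rfl) hy hv

theorem ent_zero_indep {F : Set (Site D)} {z y : Site D} {c c' : OConf D}
    (h : ∀ i, i ∉ ({(some y, 0)} : Set (Ix D)) → c i = c' i) :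
    Ent F z c 0 (some y, 0) ↔ Ent F z c' 0 (some y, 0) := by
  rw [ent_zero_iff, ent_zero_iff]
  refine and_congr_right fun _ => exists_congr fun e => ?_
  have h0 : ∀ e : Ix D, (∀ y', e.1 = some y' → y' ∈ F \ {y}) → c e = c' e := by
    intro e he
    refine h e fun h1 => ?_
    rw [Set.mem_singleton_iff] at h1
    exact (he y (by rw [h1])).2 rfl
  have h1 := ent_congr_iff (F := F \ {y}) (z := z) (c := c) (c' := c') (n := 0) (fun e h1 _ => h0 e h1) e
  constructor
  · rintro ⟨h2, h3⟩
    exact ⟨h1.1 h2, (ovis_congr (fun i _ => h0 _ h2.frog.1) y).1 h3⟩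
  · rintro ⟨h2, h3⟩
    exact ⟨h1.2 h2, (ovis_congr (fun i _ => h0 _ h2.frog.1) y).2 h3⟩

variable (w α : Set.Ioo (0 : ℝ) 1) [NeZero D]

/-- sums over the frogs of the first line -/
theorem lintegral_first (F : Set (Site D)) (z : Site D) (g : Option (Site D) → Cell D → ℝ≥0∞) :
    ∫⁻ c, ∑' o : Option (Site D), ind (Ent F z c 0 (o, 0)) * g o (c (o, 0)) ∂OQ w α D =
      ∫⁻ a, g none a ∂cellLaw w α D +
        ∑' y : Site D, OQ w α D {c | Ent F z c 0 (some y, 0)} * ∫⁻ a, g (some y) a ∂cellLaw w α D := by
  have hg : ∀ o, Measurable (g o) := fun o => measurable_of_countable _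
  have hm : ∀ o : Option (Site D), Measurable fun c : OConf D => g o (c (o, 0)) :=
    fun o => (hg o).comp (measurable_pi_apply _)
  have hmm : ∀ o : Option (Site D), Measurable fun c : OConf D => ind (Ent F z c 0 (o, 0)) * g o (c (o, 0)) :=
    fun o => (measurable_ind (measurable_ent F z 0 (o, 0))).mul (hm o)
  rw [lintegral_tsum fun o => (hmm o).aemeasurable, tsum_opt]
  congr 1
  · have h1 : ∀ c : OConf D, ind (Ent F z c 0 (none, 0)) * g none (c (none, 0)) = g none (c (none, 0)) := by
      intro c
      rw [ind_true (Ent.src _), one_mul]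
    rw [lintegral_congr h1]
    exact lintegral_coord (cellLaw w α D) (none, 0) (hg none)
  · refine tsum_congr fun y => ?_
    have h1 : ∀ c : OConf D, ind (Ent F z c 0 (some y, 0)) * g (some y) (c (some y, 0)) =
        g (some y) (c (some y, 0)) * ind (Ent F z c 0 (some y, 0)) := fun c => mul_comm _ _
    rw [lintegral_congr h1]
    unfold OQ
    rw [lintegral_mul_of_disj (cellLaw w α D) {(some y, 0)} (hm (some y))
      (measurable_ind (measurable_ent F z 0 (some y, 0))), lintegral_coord (cellLaw w α D) (some y, 0) (hg (some y)),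
      lintegral_ind _ (measurable_ent F z 0 (some y, 0)), mul_comm]
    · intro c c' h
      rw [h _ rfl]
    · intro c c' h
      exact ind_congr (ent_zero_indep h)

omit [NeZero D] in
/-- The cluster of the first line is contained in the cluster of the one-dimensional process. -/
theorem ent_clus {F : Set (Site D)} {z : Site D} {c : OConf D} {n : ℕ} {e : Ix D} (h : Ent F z c n e) (h0 : n = 0) :
    e = (none, 0) ∨ ∃ h : ℤ, e = (some (z + (h, 0)), 0) ∧
      Clus Set.univ (c (none, 0)).1 (fun h => (c (some (z + (h, 0)), 0)).1) h := by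
  induction h with
  | src n => exact Or.inl rfl
  | cont n o j _ ih => exact absurd h0 (Nat.succ_ne_zero n)
  | wake n e y he hy hv ih =>
    right
    obtain ⟨h', hh', hy'⟩ := hv
    rcases ih h0 with rfl | ⟨h, rfl, hC⟩
    · refine ⟨h', ?_, Clus.enter h' hh' (Set.mem_univ _)⟩
      rw [← hy']
      simp [oent]
    · refine ⟨h + h', ?_, Clus.next h (h + h') hC ?_ (Set.mem_univ _)⟩
      · have h5 : z + (h, 0) + (h', 0) = z + (h + h', 0) := Prod.ext (by simp [add_assoc]) (by simp)
        have h6 : oent z c (some (z + (h, 0))) 0 = z + (h, 0) := by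
          unfold oent
          rw [Finset.sum_range_zero, add_zero, Option.getD_some]
        have h7 : oent z c (some (z + (h, 0))) 0 + (h', 0) = y := hy'
        rw [← h7, h6, h5]
      · rw [add_sub_cancel_left]
        exact hh'

/-- The law of the runs of the first line. -/
theorem map_line (z : Site D) :
    Measure.map (fun (c : OConf D) (o : Option ℤ) => (c (o.map fun h => z + (h, 0), 0)).1) (OQ w α D) =
      Measure.infinitePi fun _ : Option ℤ => runLaw w α := by
  have hinj : Function.Injective fun o : Option ℤ => ((o.map fun h => z + (h, 0), 0) : Ix D) := by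
    intro o o' h
    have h1 := congrArg Prod.fst h
    refine Option.map_injective (fun a b hab => ?_) h1
    simpa using hab
  have h1 := Measure.map_infinitePi_infinitePi_of_inj (P := fun _ : Ix D => cellLaw w α D) hinj
  have h2 := Measure.infinitePi_map_pi (fun _ : Option ℤ => cellLaw w α D) (Y := fun _ => Run)
    (f := fun _ a => a.1) fun _ => measurable_fst
  have h3 : ∀ _ : Option ℤ, (cellLaw w α D).map (fun a => a.1) = runLaw w α := by
    intro _
    unfold cellLaw
    rw [Measure.map_fst_prod, measure_univ, one_smul]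
  rw [funext h3] at h2
  rw [← h2, ← h1, Measure.map_map]
  · rfl
  · exact measurable_pi_lambda _ fun o => measurable_fst.comp (measurable_pi_apply _)
  · exact measurable_pi_lambda _ fun o => measurable_pi_apply _

/-- The probability that the frog `y` is activated on the first line. -/
theorem prob_first_le (F : Set (Site D)) (z y : Site D) :
    OQ w α D {c | Ent F z c 0 (some y, 0)} ≤ if y.2 = z.2 then actP w α Set.univ (y.1 - z.1) else 0 := by
  by_cases hy : y.2 = z.2
  · rw [if_pos hy]
    unfold actP
    rw [← map_line w α z]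
    refine le_trans (measure_mono ?_) (Measure.le_map_apply ?_ _)
    · intro c hc
      rcases ent_clus hc rfl with h | ⟨h, h1, h2⟩
      · simp at h
      · have h3 : y = z + (h, 0) := by simpa using h1
        have h4 : y.1 - z.1 = h := by
          rw [h3]
          simp
        show Clus _ _ _ _
        rw [h4]
        exact h2
    · exact (measurable_pi_lambda _ fun o => measurable_fst.comp (measurable_pi_apply _)).aemeasurable
  · rw [if_neg hy]
    refine le_of_eq (measure_mono_null ?_ measure_empty)
    intro c hc
    rcases ent_clus hc rfl with h | ⟨h, h1, h2⟩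
    · simp at h
    · have h3 : y = z + (h, 0) := by simpa using h1
      exact absurd (by rw [h3]; simp) hy

end FDr.TR
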