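import Pool.Agent.Lib.MP_e029a2_pr.TD

/-!
# Transience, part E: the bound of the expected number of cells which visit the origin
-/

set_option autoImplicit false

namespace FDr.TR

open MeasureTheory ProbabilityTheory
open scoped ENNReal

variable {D : ℕ} (w α : Set.Ioo (0 : ℝ) 1)

/-- The generating function of the activated sites of the one-dimensional process. -/
noncomputable def Ug (s : ℝ) : ℝ≥0∞ := ∑' h : ℤ, actP w α Set.univ h * ENNReal.ofReal (s ^ h)

theorem mfun_eq (s : ℝ) : mfun w α s = kap w α s * (1 + Ug w α s) := rfl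

theorem ofReal_zpow_add {s : ℝ} (hs : 0 < s) (a b : ℤ) :
    ENNReal.ofReal (s ^ (a + b)) = ENNReal.ofReal (s ^ a) * ENNReal.ofReal (s ^ b) := by
  rw [zpow_add₀ hs.ne', ENNReal.ofReal_mul (zpow_pos hs a).le]

theorem actP_le {s : ℝ} (hs : 0 < s) (h : ℤ) : actP w α Set.univ h ≤ Ug w α s * ENNReal.ofReal (s ^ (-h)) := by
  have h1 : actP w α Set.univ h * ENNReal.ofReal (s ^ h) ≤ Ug w α s := ENNReal.le_tsum h
  have h2 : ENNReal.ofReal (s ^ h) * ENNReal.ofReal (s ^ (-h)) = 1 := by
    rw [← ofReal_zpow_add hs, add_neg_cancel, zpow_zero, ENNReal.ofReal_one]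
  calc actP w α Set.univ h = actP w α Set.univ h * ENNReal.ofReal (s ^ h) * ENNReal.ofReal (s ^ (-h)) := by
        rw [mul_assoc, h2, mul_one]
    _ ≤ _ := mul_le_mul_left h1 _

/-- A site which is visited by the first frog is activated. -/
theorem vis_le_actP (h : ℤ) : runLaw w α {l | h ∈ vis l} ≤ actP w α Set.univ h := by
  have h1 : runLaw w α {l | h ∈ vis l} =
      Measure.infinitePi (fun _ : Option ℤ => runLaw w α) {c | h ∈ vis (c none)} := by
    have h0 : Measure.map (fun c : Option ℤ → Run => c none) (Measure.infinitePi fun _ : Option ℤ => runLaw w α) =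
        runLaw w α := Measure.infinitePi_map_eval (fun _ : Option ℤ => runLaw w α) none
    calc runLaw w α {l | h ∈ vis l} = (Measure.map (fun c : Option ℤ → Run => c none)
          (Measure.infinitePi fun _ : Option ℤ => runLaw w α)) {l | h ∈ vis l} := by rw [h0]
      _ = _ := by
        rw [Measure.map_apply (measurable_pi_apply _) (measurableSet_setOfPred.2 (measurable_of_countable _))]
        rfl
  rw [h1]
  exact measure_mono fun c hc => Clus.enter h hc (Set.mem_univ _)

variable [NeZero D]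

theorem lintegral_cell (f : Run → ℝ≥0∞) : ∫⁻ a, f a.1 ∂cellLaw w α D = ∫⁻ l, f l ∂runLaw w α := by
  have h3 : (cellLaw w α D).map (fun a => a.1) = runLaw w α := by
    unfold cellLaw
    rw [Measure.map_fst_prod, measure_univ, one_smul]
  rw [← h3, lintegral_map (measurable_of_countable f) measurable_fst]

theorem sum_first_le {s : ℝ} (hs : 0 < s) (F : Set (Site D)) (z : Site D) :
    ∑' y : Site D, OQ w α D {c | Ent F z c 0 (some y, 0)} * ENNReal.ofReal (s ^ y.1) ≤
      ENNReal.ofReal (s ^ z.1) * Ug w α s := by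
  have h1 : ∀ y : Site D, OQ w α D {c | Ent F z c 0 (some y, 0)} * ENNReal.ofReal (s ^ y.1) ≤
      (if y.2 = z.2 then actP w α Set.univ (y.1 - z.1) else 0) * ENNReal.ofReal (s ^ y.1) :=
    fun y => mul_le_mul_left (prob_first_le w α F z y) _
  refine (ENNReal.tsum_le_tsum h1).trans ?_
  rw [ENNReal.tsum_prod']
  have h2 : ∀ h : ℤ, (∑' v : Fin D → ℤ, (if (h, v).2 = z.2 then actP w α Set.univ ((h, v).1 - z.1) else 0) *
      ENNReal.ofReal (s ^ (h, v).1)) = actP w α Set.univ (h - z.1) * ENNReal.ofReal (s ^ h) := by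
    intro h
    rw [tsum_eq_single z.2]
    · simp
    · intro v hv
      simp [hv]
  rw [tsum_congr h2, ← (Equiv.addRight z.1).tsum_eq]
  have h3 : ∀ h : ℤ, actP w α Set.univ (Equiv.addRight z.1 h - z.1) * ENNReal.ofReal (s ^ (Equiv.addRight z.1 h)) =
      ENNReal.ofReal (s ^ z.1) * (actP w α Set.univ h * ENNReal.ofReal (s ^ h)) := by
    intro h
    rw [Equiv.coe_addRight, add_sub_cancel_right, ofReal_zpow_add hs]
    ring
  rw [tsum_congr h3, ENNReal.tsum_mul_left]
  rfl

/-- The exits from the first line. -/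
theorem exits_le {s : ℝ} (hs : 0 < s) (F : Set (Site D)) (z : Site D) :
    ∫⁻ c, ∑' o : Option (Site D), ind (Ent F z c 0 (o, 0)) * ENNReal.ofReal (s ^ (oent z c o 1).1) ∂OQ w α D ≤
      ENNReal.ofReal (s ^ z.1) * mfun w α s := by
  have h1 : ∀ (c : OConf D) (o : Option (Site D)), ENNReal.ofReal (s ^ (oent z c o 1).1) =
      ENNReal.ofReal (s ^ (o.getD z).1) * ENNReal.ofReal (s ^ dsp (c (o, 0)).1) := by
    intro c o
    simp only [oent, Finset.sum_range_one, Prod.fst_add]
    exact ofReal_zpow_add hs _ _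
  have h2 : ∀ o : Option (Site D), ∫⁻ a, ENNReal.ofReal (s ^ (o.getD z).1) * ENNReal.ofReal (s ^ dsp a.1)
      ∂cellLaw w α D = ENNReal.ofReal (s ^ (o.getD z).1) * kap w α s := by
    intro o
    rw [lintegral_const_mul _ (measurable_of_countable _)]
    congr 1
    exact lintegral_cell w α fun l => ENNReal.ofReal (s ^ dsp l)
  have h0 := lintegral_first w α F z fun (o : Option (Site D)) (a : Cell D) =>
    ENNReal.ofReal (s ^ (o.getD z).1) * ENNReal.ofReal (s ^ dsp a.1)
  simp only [h1]
  rw [h0]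
  simp only [h2]
  have h3 := sum_first_le w α hs F z
  calc ENNReal.ofReal (s ^ z.1) * kap w α s + ∑' y : Site D, OQ w α D {c | Ent F z c 0 (some y, 0)} *
        (ENNReal.ofReal (s ^ y.1) * kap w α s)
      = ENNReal.ofReal (s ^ z.1) * kap w α s + (∑' y : Site D, OQ w α D {c | Ent F z c 0 (some y, 0)} *
        ENNReal.ofReal (s ^ y.1)) * kap w α s := by
        rw [← ENNReal.tsum_mul_right]
        congr 1
        exact tsum_congr fun y => (mul_assoc _ _ _).symm
    _ ≤ ENNReal.ofReal (s ^ z.1) * kap w α s + (ENNReal.ofReal (s ^ z.1) * Ug w α s) * kap w α s := by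
        gcongr
    _ = _ := by
        rw [mfun_eq]
        ring

/-- The visits to the origin on the first line. -/
theorem visits_le {s : ℝ} (hs : 0 < s) (F : Set (Site D)) (z : Site D) :
    ∫⁻ c, N0 F z c ∂OQ w α D ≤ Ug w α s * (1 + Ug w α s) * ENNReal.ofReal (s ^ z.1) := by
  have h1 : ∀ c : OConf D, N0 F z c ≤ ∑' o : Option (Site D), ind (Ent F z c 0 (o, 0)) *
      ind (-(o.getD z).1 ∈ vis (c (o, 0)).1) := by
    intro c
    refine ENNReal.tsum_le_tsum fun o => ?_
    rw [← ind_and]
    refine ind_mono fun h => ⟨h.1, ?_⟩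
    obtain ⟨h', hh, h2⟩ := h.2
    have h3 : (o.getD z).1 + h' = 0 := by
      have h4 := congrArg Prod.fst h2
      simpa [oent] using h4
    have h5 : -(o.getD z).1 = h' := by omega
    rw [h5]
    exact hh
  refine (lintegral_mono h1).trans ?_
  rw [lintegral_first w α F z fun (o : Option (Site D)) (a : Cell D) => ind (-(o.getD z).1 ∈ vis a.1)]
  have h2 : ∀ o : Option (Site D), ∫⁻ a, ind (-(o.getD z).1 ∈ vis a.1) ∂cellLaw w α D ≤
      Ug w α s * ENNReal.ofReal (s ^ (o.getD z).1) := by
    intro o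
    rw [lintegral_cell w α fun l => ind (-(o.getD z).1 ∈ vis l), lintegral_ind _ (measurable_of_countable _)]
    refine (vis_le_actP w α _).trans ((actP_le w α hs _).trans ?_)
    rw [neg_neg]
  have h3 := sum_first_le w α hs F z
  calc _ ≤ Ug w α s * ENNReal.ofReal (s ^ z.1) + ∑' y : Site D, OQ w α D {c | Ent F z c 0 (some y, 0)} *
        (Ug w α s * ENNReal.ofReal (s ^ y.1)) :=
        add_le_add (h2 none) (ENNReal.tsum_le_tsum fun y => mul_le_mul_right (h2 (some y)) _)
    _ = Ug w α s * ENNReal.ofReal (s ^ z.1) + Ug w α s * ∑' y : Site D, OQ w α D {c | Ent F z c 0 (some y, 0)} *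
        ENNReal.ofReal (s ^ y.1) := by
        rw [← ENNReal.tsum_mul_left]
        congr 1
        refine tsum_congr fun y => ?_
        ring
    _ ≤ Ug w α s * ENNReal.ofReal (s ^ z.1) + Ug w α s * (ENNReal.ofReal (s ^ z.1) * Ug w α s) := by gcongr
    _ = _ := by ring

end FDr.TR
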