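import Pool.Agent.Lib.MP_e029a2_pr.TE

/-!
# Transience, part F: the induction over the number of changes of lines
-/

set_option autoImplicit false

namespace FDr.TR

open MeasureTheory ProbabilityTheory
open scoped ENNReal

variable {D : ℕ} (w α : Set.Ioo (0 : ℝ) 1)

/-- The data of the first line: the cluster, a frog of it, and the place where it enters the next line. -/
def AA (F : Set (Site D)) (z : Site D) (C : Set (Site D)) (z' : Site D) (o : Option (Site D)) (c : OConf D) : Prop :=
  clu F z c = C ∧ Ent F z c 0 (o, 0) ∧ oent z c o 1 = z'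

theorem measurable_AA (F : Set (Site D)) (z : Site D) (C : Set (Site D)) (z' : Site D) (o : Option (Site D)) :
    Measurable (AA F z C z' o) :=
  (measurable_clu F C z).and ((measurable_ent F z 0 (o, 0)).and
    ((measurable_of_countable fun x : Site D => x = z').comp (measurable_oent z o 1)))

theorem AA_congr {F : Set (Site D)} {z : Site D} {C : Set (Site D)} {z' : Site D} {o : Option (Site D)}
    (ho : ∀ y, o = some y → y ∈ C) {c c' : OConf D}
    (h : ∀ i ∈ {i : Ix D | i.2 = 0 ∧ ∀ y, i.1 = some y → y ∈ C}, c i = c' i) (hA : AA F z C z' o c) :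
    AA F z C z' o c' := by
  obtain ⟨h1, h2, h3⟩ := hA
  have h4 : clu F z c' = C := clu_congr (fun o ho => h (o, 0) ⟨rfl, ho⟩) h1
  refine ⟨h4, ?_, ?_⟩
  · cases o with
    | none => exact Ent.src _
    | some y =>
      have h5 : y ∈ clu F z c' := by
        rw [h4]
        exact ho y rfl
      exact h5
  · rw [← h3]
    unfold oent
    rw [Finset.sum_range_one, Finset.sum_range_one, h (o, 0) ⟨rfl, ho⟩]

variable [NeZero D]

theorem term_le (F : Finset (Site D)) (z : Site D) (n : ℕ) (C : Finset (Site D)) (z' : Site D) (o : Option (Site D))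
    {b : ℝ≥0∞} (hb : ∫⁻ c, NN (↑(F \ C) : Set (Site D)) z' n c ∂OQ w α D ≤ b) :
    ∫⁻ c, ind (AA ↑F z ↑C z' o c) * NN (↑(F \ C) : Set (Site D)) z' n (fun i => c (psi o i)) ∂OQ w α D ≤
      ∫⁻ c, ind (AA ↑F z ↑C z' o c) * b ∂OQ w α D := by
  by_cases ho : ∀ y, o = some y → y ∈ (↑C : Set (Site D))
  · have hpsi : Measurable fun (c : OConf D) (i : Ix D) => c (psi o i) :=
      measurable_pi_lambda _ fun i => measurable_pi_apply _
    have h1 : ∫⁻ c, ind (AA ↑F z ↑C z' o c) * NN (↑(F \ C) : Set (Site D)) z' n (fun i => c (psi o i)) ∂OQ w α D =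
        (∫⁻ c, ind (AA ↑F z ↑C z' o c) ∂OQ w α D) *
          ∫⁻ c, NN (↑(F \ C) : Set (Site D)) z' n (fun i => c (psi o i)) ∂OQ w α D := by
      unfold OQ
      refine lintegral_mul_of_disj (cellLaw w α D) {i : Ix D | i.2 = 0 ∧ ∀ y, i.1 = some y → y ∈ (↑C : Set (Site D))}
        (measurable_ind (measurable_AA _ _ _ _ _)) ((measurable_NN _ _ _).comp hpsi) ?_ ?_
      · intro c c' h
        exact ind_congr ⟨AA_congr ho h, AA_congr ho fun i hi => (h i hi).symm⟩
      · intro c c' h
        refine NN_congr fun e he => h _ ?_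
        rintro ⟨k1, k2⟩
        obtain ⟨a, j⟩ := e
        cases a with
        | none =>
          rw [psi_none] at k1
          exact absurd k1 (Nat.succ_ne_zero j)
        | some x =>
          have hx : x ∈ F \ C := Finset.mem_coe.1 (he x rfl)
          have hxC : x ∉ C := (Finset.mem_sdiff.1 hx).2
          have hne : some x ≠ o := fun h => hxC (Finset.mem_coe.1 (ho x h.symm))
          rw [psi_some hne] at k2
          exact hxC (Finset.mem_coe.1 (k2 x rfl))
    have h2 : ∫⁻ c, NN (↑(F \ C) : Set (Site D)) z' n (fun i => c (psi o i)) ∂OQ w α D =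
        ∫⁻ c, NN (↑(F \ C) : Set (Site D)) z' n c ∂OQ w α D := by
      unfold OQ
      exact lintegral_reindex (cellLaw w α D) (psi_inj o) (measurable_NN _ _ _)
    rw [h1, h2, lintegral_mul_const _ (measurable_ind (measurable_AA _ _ _ _ _))]
    exact mul_le_mul_right hb _
  · refine lintegral_mono fun c => ?_
    have h1 : ¬AA ↑F z ↑C z' o c := by
      rintro ⟨h1, h2, -⟩
      refine ho ?_
      rintro y rfl
      rw [← h1]
      exact h2
    simp only [ind_false h1, zero_mul, le_refl]

/-- **The induction step**. -/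
theorem step_le (F : Finset (Site D)) (z : Site D) (n : ℕ) {B : Site D → ℝ≥0∞}
    (hB : ∀ (G : Finset (Site D)) (z' : Site D), ∫⁻ c, NN (↑G : Set (Site D)) z' n c ∂OQ w α D ≤ B z') :
    ∫⁻ c, NN (↑F : Set (Site D)) z (n + 1) c ∂OQ w α D ≤ ∫⁻ c, N0 (↑F : Set (Site D)) z c ∂OQ w α D +
      ∫⁻ c, ∑' o : Option (Site D), ind (Ent ↑F z c 0 (o, 0)) * B (oent z c o 1) ∂OQ w α D := by
  classical
  have hmN0 : Measurable fun c : OConf D => N0 (↑F : Set (Site D)) z c :=
    Measurable.tsum fun o => measurable_ind ((measurable_ent _ z 0 (o, 0)).and (measurable_ovis z (o, 0) 0))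
  have hpsi : ∀ o : Option (Site D), Measurable fun (c : OConf D) (i : Ix D) => c (psi o i) :=
    fun o => measurable_pi_lambda _ fun i => measurable_pi_apply _
  refine (lintegral_mono fun c => NN_succ_le (↑F : Set (Site D)) z n c).trans ?_
  rw [lintegral_add_left hmN0]
  refine add_le_add le_rfl ?_
  -- the sum over all the clusters and the places
  have h1 : ∀ c : OConf D, (∑' o : Option (Site D), ind (Ent ↑F z c 0 (o, 0)) *
      NN (↑F \ clu ↑F z c) (oent z c o 1) n (fun i => c (psi o i))) ≤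
      ∑' (p : Option (Site D) × Finset (Site D) × Site D), ind (AA ↑F z ↑p.2.1 p.2.2 p.1 c) *
        NN (↑(F \ p.2.1) : Set (Site D)) p.2.2 n (fun i => c (psi p.1 i)) := by
    intro c
    rw [ENNReal.tsum_prod']
    refine ENNReal.tsum_le_tsum fun o => ?_
    have hC : (↑(F.filter fun y => y ∈ clu ↑F z c) : Set (Site D)) = clu ↑F z c := by
      ext y
      simp only [Finset.coe_filter, Set.mem_ofPred_eq]
      exact ⟨fun h => h.2, fun h => ⟨Finset.mem_coe.1 (clu_subset _ _ _ h), h⟩⟩
    refine le_trans ?_ (ENNReal.le_tsum (F.filter fun y => y ∈ clu ↑F z c, oent z c o 1))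
    simp only
    refine le_of_eq ?_
    congr 1
    · refine ind_congr ⟨fun h => ⟨hC.symm, h, rfl⟩, fun h => h.2.1⟩
    · rw [Finset.coe_sdiff, hC]
  have h2 : ∀ c : OConf D, (∑' (p : Option (Site D) × Finset (Site D) × Site D),
      ind (AA ↑F z ↑p.2.1 p.2.2 p.1 c) * B p.2.2) ≤
      ∑' o : Option (Site D), ind (Ent ↑F z c 0 (o, 0)) * B (oent z c o 1) := by
    intro c
    rw [ENNReal.tsum_prod']
    refine ENNReal.tsum_le_tsum fun o => ?_
    have hC : (↑(F.filter fun y => y ∈ clu ↑F z c) : Set (Site D)) = clu ↑F z c := by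
      ext y
      simp only [Finset.coe_filter, Set.mem_ofPred_eq]
      exact ⟨fun h => h.2, fun h => ⟨Finset.mem_coe.1 (clu_subset _ _ _ h), h⟩⟩
    rw [tsum_eq_single (F.filter fun y => y ∈ clu ↑F z c, oent z c o 1)]
    · exact mul_le_mul_left (ind_mono fun h => h.2.1) _
    · intro p hp
      rw [ind_false, zero_mul]
      rintro ⟨k1, -, k3⟩
      refine hp (Prod.ext ?_ k3.symm)
      exact Finset.coe_injective (k1.symm.trans hC.symm)
  calc ∫⁻ c, ∑' o : Option (Site D), ind (Ent ↑F z c 0 (o, 0)) *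
        NN (↑F \ clu ↑F z c) (oent z c o 1) n (fun i => c (psi o i)) ∂OQ w α D
      ≤ ∫⁻ c, ∑' (p : Option (Site D) × Finset (Site D) × Site D), ind (AA ↑F z ↑p.2.1 p.2.2 p.1 c) *
        NN (↑(F \ p.2.1) : Set (Site D)) p.2.2 n (fun i => c (psi p.1 i)) ∂OQ w α D := lintegral_mono h1
    _ = ∑' (p : Option (Site D) × Finset (Site D) × Site D), ∫⁻ c, ind (AA ↑F z ↑p.2.1 p.2.2 p.1 c) *
        NN (↑(F \ p.2.1) : Set (Site D)) p.2.2 n (fun i => c (psi p.1 i)) ∂OQ w α D := by
        refine lintegral_tsum fun p => Measurable.aemeasurable ?_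
        exact (measurable_ind (measurable_AA _ _ _ _ _)).mul ((measurable_NN _ _ _).comp (hpsi p.1))
    _ ≤ ∑' (p : Option (Site D) × Finset (Site D) × Site D), ∫⁻ c, ind (AA ↑F z ↑p.2.1 p.2.2 p.1 c) * B p.2.2
        ∂OQ w α D := ENNReal.tsum_le_tsum fun p => term_le w α F z n p.2.1 p.2.2 p.1 (hB _ _)
    _ = ∫⁻ c, ∑' (p : Option (Site D) × Finset (Site D) × Site D), ind (AA ↑F z ↑p.2.1 p.2.2 p.1 c) * B p.2.2
        ∂OQ w α D := by
        refine (lintegral_tsum fun p => Measurable.aemeasurable ?_).symm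
        exact (measurable_ind (measurable_AA _ _ _ _ _)).mul measurable_const
    _ ≤ _ := lintegral_mono h2

/-- **The bound of the expected number of cells which visit the origin.** -/
theorem NN_bound {s : ℝ} (hs : 0 < s) (n : ℕ) (F : Finset (Site D)) (z : Site D) :
    ∫⁻ c, NN (↑F : Set (Site D)) z n c ∂OQ w α D ≤
      Ug w α s * (1 + Ug w α s) * (∑ g ∈ Finset.range (n + 1), mfun w α s ^ g) * ENNReal.ofReal (s ^ z.1) := by
  induction n generalizing F z with
  | zero =>
    refine (lintegral_mono fun c => NN_zero_le _ _ c).trans ((visits_le w α hs _ z).trans ?_)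
    simp
  | succ n ih =>
    refine (step_le w α F z n (B := fun z' => Ug w α s * (1 + Ug w α s) *
      (∑ g ∈ Finset.range (n + 1), mfun w α s ^ g) * ENNReal.ofReal (s ^ z'.1)) fun G z' => ih G z').trans ?_
    have h1 : ∀ c : OConf D, (∑' o : Option (Site D), ind (Ent ↑F z c 0 (o, 0)) * (Ug w α s * (1 + Ug w α s) *
        (∑ g ∈ Finset.range (n + 1), mfun w α s ^ g) * ENNReal.ofReal (s ^ (oent z c o 1).1))) =
        (Ug w α s * (1 + Ug w α s) * (∑ g ∈ Finset.range (n + 1), mfun w α s ^ g)) *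
          ∑' o : Option (Site D), ind (Ent ↑F z c 0 (o, 0)) * ENNReal.ofReal (s ^ (oent z c o 1).1) := by
      intro c
      rw [← ENNReal.tsum_mul_left]
      refine tsum_congr fun o => ?_
      ring
    have hm : Measurable fun c : OConf D => ∑' o : Option (Site D), ind (Ent ↑F z c 0 (o, 0)) *
        ENNReal.ofReal (s ^ (oent z c o 1).1) := by
      refine Measurable.tsum fun o => (measurable_ind (measurable_ent _ _ _ _)).mul ?_
      exact (measurable_of_countable fun x : Site D => ENNReal.ofReal (s ^ x.1)).comp (measurable_oent z o 1)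
    simp only [h1]
    rw [lintegral_const_mul _ hm]
    calc _ ≤ Ug w α s * (1 + Ug w α s) * ENNReal.ofReal (s ^ z.1) +
          (Ug w α s * (1 + Ug w α s) * (∑ g ∈ Finset.range (n + 1), mfun w α s ^ g)) *
            (ENNReal.ofReal (s ^ z.1) * mfun w α s) :=
          add_le_add (visits_le w α hs _ z) (mul_le_mul_right (exits_le w α hs _ z) _)
      _ = _ := by
          rw [Finset.sum_range_succ' _ (n + 1)]
          simp only [pow_succ, pow_zero]
          rw [← Finset.sum_mul]
          ring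

end FDr.TR
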