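import Pool.Agent.Lib.MP_e029a2_pr.TE

/-!
# The threshold in `w`, part 1: product measures with different factors; the law of a run as a concatenation
-/

set_option autoImplicit false

namespace FDr.TH

open MeasureTheory ProbabilityTheory
open scoped ENNReal

/-! ### Product measures -/

section prod

variable {ι X : Type*} [MeasurableSpace X] (μ : ι → Measure X) [∀ i, IsProbabilityMeasure (μ i)]

open Classical in
theorem map_merge (S : Set ι) :
    Measure.map (fun (p : (ι → X) × (ι → X)) i => if i ∈ S then p.1 i else p.2 i)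
      ((Measure.infinitePi μ).prod (Measure.infinitePi μ)) = Measure.infinitePi μ := by
  refine Measure.eq_infinitePi _ fun s t ht => ?_
  have hm : Measurable fun (p : (ι → X) × (ι → X)) i => if i ∈ S then p.1 i else p.2 i := by
    refine measurable_pi_lambda _ fun i => ?_
    by_cases hi : i ∈ S
    · simp only [hi, if_true]
      exact (measurable_pi_apply i).comp measurable_fst
    · simp only [hi, if_false]
      exact (measurable_pi_apply i).comp measurable_snd
  rw [Measure.map_apply hm (MeasurableSet.pi s.countable_toSet fun i _ => ht i)]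
  have h1 : (fun (p : (ι → X) × (ι → X)) i => if i ∈ S then p.1 i else p.2 i) ⁻¹' (Set.pi s t) =
      (Set.pi (s.filter fun i => i ∈ S) t) ×ˢ (Set.pi (s.filter fun i => i ∉ S) t) := by
    ext p
    simp only [Set.mem_preimage, Set.mem_pi, Set.mem_prod, Finset.coe_filter, Set.mem_ofPred_eq, Finset.mem_coe]
    constructor
    · intro h
      refine ⟨fun i hi => ?_, fun i hi => ?_⟩
      · have := h i hi.1
        rwa [if_pos hi.2] at this
      · have := h i hi.1
        rwa [if_neg hi.2] at this
    · intro h i hi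
      by_cases hS : i ∈ S
      · rw [if_pos hS]
        exact h.1 i ⟨hi, hS⟩
      · rw [if_neg hS]
        exact h.2 i ⟨hi, hS⟩
  rw [h1, Measure.prod_prod, Measure.infinitePi_pi _ fun i _ => ht i, Measure.infinitePi_pi _ fun i _ => ht i]
  exact Finset.prod_filter_mul_prod_filter_not s _ _

/-- Functions of disjoint sets of coordinates are independent. -/
theorem lintegral_mul_of_disj (S : Set ι) {f g : (ι → X) → ℝ≥0∞} (hf : Measurable f) (hg : Measurable g)
    (hfS : ∀ c c' : ι → X, (∀ i ∈ S, c i = c' i) → f c = f c')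
    (hgS : ∀ c c' : ι → X, (∀ i, i ∉ S → c i = c' i) → g c = g c') :
    ∫⁻ c, f c * g c ∂(Measure.infinitePi μ) =
      (∫⁻ c, f c ∂(Measure.infinitePi μ)) * ∫⁻ c, g c ∂(Measure.infinitePi μ) := by
  classical
  have hm : Measurable fun (p : (ι → X) × (ι → X)) i => if i ∈ S then p.1 i else p.2 i := by
    refine measurable_pi_lambda _ fun i => ?_
    by_cases hi : i ∈ S
    · simp only [hi, if_true]
      exact (measurable_pi_apply i).comp measurable_fst
    · simp only [hi, if_false]
      exact (measurable_pi_apply i).comp measurable_snd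
  calc ∫⁻ c, f c * g c ∂(Measure.infinitePi μ)
      = ∫⁻ c, f c * g c ∂(Measure.map (fun (p : (ι → X) × (ι → X)) i => if i ∈ S then p.1 i else p.2 i)
      ((Measure.infinitePi μ).prod (Measure.infinitePi μ))) := by rw [map_merge μ S]
    _ = ∫⁻ p, f p.1 * g p.2 ∂((Measure.infinitePi μ).prod (Measure.infinitePi μ)) := by
        have hfg : Measurable fun c => f c * g c := hf.mul hg
        rw [lintegral_map hfg hm]
        refine lintegral_congr fun p => ?_
        congr 1
        · exact hfS _ _ fun i hi => if_pos hi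
        · exact hgS _ _ fun i hi => if_neg hi
    _ = _ := lintegral_prod_mul hf.aemeasurable hg.aemeasurable

end prod

/-! ### The law of a run -/

/-- The probability that the end of a `w'`-run is the end of the `w`-run. -/
noncomputable def rr (w' w : ℝ) : ℝ := w' * (1 - w) / (w * (1 - w'))

theorem rr_pos {w' w : Set.Ioo (0 : ℝ) 1} : 0 < rr w' w := by
  have h1 := w'.2.1
  have h2 := w.2.2
  have h3 := w.2.1
  have h4 := w'.2.2
  unfold rr
  have : 0 < 1 - (w : ℝ) := by linarith
  have : 0 < 1 - (w' : ℝ) := by linarith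
  positivity

theorem rr_lt {w' w : Set.Ioo (0 : ℝ) 1} (h : w' < w) : rr w' w < 1 := by
  have h1 := w'.2.1
  have h2 := w.2.2
  have h3 := w.2.1
  have h4 := w'.2.2
  have h5 : (w' : ℝ) < w := h
  unfold rr
  have : 0 < 1 - (w' : ℝ) := by linarith
  rw [div_lt_one (by positivity)]
  nlinarith

/-- The law of the second part of a `w`-run: empty with probability `rr`, otherwise a `w`-run. -/
noncomputable def sec (w' w α : Set.Ioo (0 : ℝ) 1) : Measure Run :=
  ENNReal.ofReal (rr w' w) • Measure.dirac [] + ENNReal.ofReal (1 - rr w' w) • runLaw w α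

theorem lintegral_sec (w' w α : Set.Ioo (0 : ℝ) 1) (f : Run → ℝ≥0∞) :
    ∫⁻ l, f l ∂sec w' w α = ENNReal.ofReal (rr w' w) * f [] + ENNReal.ofReal (1 - rr w' w) * ∫⁻ l, f l ∂runLaw w α := by
  unfold sec
  rw [lintegral_add_measure, lintegral_smul_measure, lintegral_smul_measure, lintegral_dirac, smul_eq_mul, smul_eq_mul]

theorem sec_prob {w' w : Set.Ioo (0 : ℝ) 1} (α : Set.Ioo (0 : ℝ) 1) (h : w' < w) : IsProbabilityMeasure (sec w' w α) := by
  constructor
  have h1 := lintegral_sec w' w α fun _ => 1
  rw [lintegral_one, lintegral_one, mul_one] at h1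
  rw [h1, measure_univ, mul_one, ← ENNReal.ofReal_add rr_pos.le (by linarith [rr_lt h])]
  simp

theorem lintegral_runLaw (w α : Set.Ioo (0 : ℝ) 1) (f : Run → ℝ≥0∞) :
    ∫⁻ l, f l ∂runLaw w α = ∑' l : Run, ENNReal.ofReal (runW w α l) * f l := by
  unfold runLaw
  rw [lintegral_sum_measure]
  refine tsum_congr fun l => ?_
  rw [lintegral_smul_measure, lintegral_dirac, smul_eq_mul]

theorem bw_scale {w' w : Set.Ioo (0 : ℝ) 1} (α : Set.Ioo (0 : ℝ) 1) (l : Run) :
    (l.map (bw w' α)).prod = ((w' : ℝ) / w) ^ l.length * (l.map (bw w α)).prod := by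
  have h3 := w.2.1
  induction l with
  | nil => simp
  | cons b l ih =>
    rw [List.map_cons, List.prod_cons, List.map_cons, List.prod_cons, List.length_cons, ih, pow_succ]
    have h1 : bw w' α b = (w' : ℝ) / w * bw w α b := by
      unfold bw
      split_ifs <;> field_simp
    rw [h1]
    ring

/-- the weights of the concatenations with sum `l` -/
theorem weight_sum {w' w : Set.Ioo (0 : ℝ) 1} (α : Set.Ioo (0 : ℝ) 1) (h : w' < w) (l : Run) :
    rr w' w * runW w' α l + (1 - rr w' w) * ∑ i ∈ Finset.range (l.length + 1),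
      runW w' α (l.take i) * runW w α (l.drop i) = runW w α l := by
  have h1 := w'.2.1
  have h2 := w.2.2
  have h3 := w.2.1
  have h4 := w'.2.2
  have h5 : (w' : ℝ) < w := h
  have hw : (w : ℝ) ≠ 0 := h3.ne'
  have hw' : (1 : ℝ) - w' ≠ 0 := by
    have : 0 < 1 - (w' : ℝ) := by linarith
    exact this.ne'
  have hd : (w : ℝ) - w' ≠ 0 := by
    have : 0 < (w : ℝ) - w' := by linarith
    exact this.ne'
  have e1 : ∀ i ∈ Finset.range (l.length + 1), runW w' α (l.take i) * runW w α (l.drop i) =
      (1 - w') * (1 - w) * (l.map (bw w α)).prod * ((w' : ℝ) / w) ^ i := by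
    intro i hi
    have hi' : i ≤ l.length := Nat.lt_succ_iff.1 (Finset.mem_range.1 hi)
    rw [runW_eq, runW_eq, bw_scale (w := w) α, List.length_take, min_eq_left hi']
    have h6 : ((l.take i).map (bw w α)).prod * ((l.drop i).map (bw w α)).prod = (l.map (bw w α)).prod := by
      rw [← List.prod_append, ← List.map_append, List.take_append_drop]
    rw [← h6]
    ring
  rw [Finset.sum_congr rfl e1, ← Finset.mul_sum, runW_eq, runW_eq, bw_scale (w := w) α]
  have hne : (w' : ℝ) / w ≠ 1 := by
    intro he
    rw [div_eq_one_iff_eq hw] at he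
    linarith
  rw [geom_sum_eq hne]
  unfold rr
  have e2 : (w' : ℝ) / w - 1 = -(w - w') / w := by
    field_simp
    ring
  rw [e2, pow_succ]
  field_simp
  ring

/-- the pairs of runs and the splittings of a run -/
theorem tsum_split (G : Run → Run → ℝ≥0∞) : ∑' l : Run, ∑' r : Run, G l r =
    ∑' m : Run, ∑ i ∈ Finset.range (m.length + 1), G (m.take i) (m.drop i) := by
  classical
  have h1 : ∀ l r : Run, G l r = ∑' m : Run, ∑ i ∈ Finset.range (m.length + 1),
      if m.take i = l ∧ m.drop i = r then G l r else 0 := by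
    intro l r
    rw [tsum_eq_single (l ++ r)]
    · rw [Finset.sum_eq_single l.length]
      · rw [if_pos ⟨List.take_left, List.drop_left⟩]
      · intro i hi hne
        refine if_neg fun h => hne ?_
        have h2 := congrArg List.length h.1
        rw [List.length_take, min_eq_left (Nat.lt_succ_iff.1 (Finset.mem_range.1 hi))] at h2
        exact h2
      · intro hn
        exact absurd (Finset.mem_range.2 (by rw [List.length_append]; omega)) hn
    · intro m hm
      refine Finset.sum_eq_zero fun i _ => if_neg fun h => hm ?_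
      rw [← List.take_append_drop i m, h.1, h.2]
  calc ∑' l : Run, ∑' r : Run, G l r = ∑' l : Run, ∑' r : Run, ∑' m : Run, ∑ i ∈ Finset.range (m.length + 1),
      (if m.take i = l ∧ m.drop i = r then G l r else 0) :=
        tsum_congr fun l => tsum_congr fun r => h1 l r
    _ = ∑' m : Run, ∑' l : Run, ∑' r : Run, ∑ i ∈ Finset.range (m.length + 1),
      (if m.take i = l ∧ m.drop i = r then G l r else 0) := by
        rw [tsum_congr fun l => ENNReal.tsum_comm, ENNReal.tsum_comm]
    _ = _ := by
        refine tsum_congr fun m => ?_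
        rw [tsum_congr fun l => Summable.tsum_finsetSum fun _ _ => ENNReal.summable,
          Summable.tsum_finsetSum fun _ _ => ENNReal.summable]
        refine Finset.sum_congr rfl fun i _ => ?_
        rw [tsum_eq_single (m.take i), tsum_eq_single (m.drop i)]
        · exact if_pos ⟨rfl, rfl⟩
        · intro r hr
          exact if_neg fun h => hr h.2.symm
        · intro l hl
          refine ENNReal.tsum_eq_zero.2 fun r => if_neg fun h => hl h.1.symm

/-- **The law of a run.** -/
theorem lintegral_append {w' w : Set.Ioo (0 : ℝ) 1} (α : Set.Ioo (0 : ℝ) 1) (h : w' < w) (f : Run → ℝ≥0∞) :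
    ∫⁻ l, ∫⁻ r, f (l ++ r) ∂sec w' w α ∂runLaw w' α = ∫⁻ l, f l ∂runLaw w α := by
  have hρ := (rr_pos (w' := w') (w := w)).le
  have hρ' : 0 ≤ 1 - rr w' w := by linarith [rr_lt h]
  have hnn : ∀ (v : Set.Ioo (0 : ℝ) 1) (l : Run), 0 ≤ runW v α l := fun v l => (runW_pos v.2 α.2 l).le
  have h1 : ∀ l : Run, ∫⁻ r, f (l ++ r) ∂sec w' w α = ENNReal.ofReal (rr w' w) * f l +
      ENNReal.ofReal (1 - rr w' w) * ∑' r : Run, ENNReal.ofReal (runW w α r) * f (l ++ r) := by
    intro l
    rw [lintegral_sec, List.append_nil, lintegral_runLaw]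
  simp only [h1]
  rw [lintegral_runLaw, lintegral_runLaw]
  -- the splittings of a run
  have h2 : ∑' l : Run, ENNReal.ofReal (runW w' α l) * (ENNReal.ofReal (1 - rr w' w) *
      ∑' r : Run, ENNReal.ofReal (runW w α r) * f (l ++ r)) =
      ∑' l : Run, ENNReal.ofReal ((1 - rr w' w) * ∑ i ∈ Finset.range (l.length + 1),
        runW w' α (l.take i) * runW w α (l.drop i)) * f l := by
    have h3 : ∀ l : Run, ENNReal.ofReal (runW w' α l) * (ENNReal.ofReal (1 - rr w' w) *
        ∑' r : Run, ENNReal.ofReal (runW w α r) * f (l ++ r)) = ∑' r : Run, ENNReal.ofReal (1 - rr w' w) *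
          (ENNReal.ofReal (runW w' α l) * ENNReal.ofReal (runW w α r)) * f (l ++ r) := by
      intro l
      rw [← ENNReal.tsum_mul_left, ← ENNReal.tsum_mul_left]
      exact tsum_congr fun r => by ring
    rw [tsum_congr h3, tsum_split fun l r => ENNReal.ofReal (1 - rr w' w) *
          (ENNReal.ofReal (runW w' α l) * ENNReal.ofReal (runW w α r)) * f (l ++ r)]
    refine tsum_congr fun l => ?_
    rw [ENNReal.ofReal_mul hρ', ENNReal.ofReal_sum_of_nonneg fun i _ => mul_nonneg (hnn _ _) (hnn _ _), Finset.mul_sum,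
      Finset.sum_mul]
    refine Finset.sum_congr rfl fun i _ => ?_
    rw [List.take_append_drop, ENNReal.ofReal_mul (hnn _ _)]
  simp only [mul_add]
  rw [ENNReal.tsum_add, h2, ← ENNReal.tsum_add]
  refine tsum_congr fun l => ?_
  rw [← weight_sum α h l, ENNReal.ofReal_add (mul_nonneg hρ (hnn _ _))
    (mul_nonneg hρ' (Finset.sum_nonneg fun i _ => mul_nonneg (hnn _ _) (hnn _ _))), add_mul, ENNReal.ofReal_mul hρ]
  ring

end FDr.TH
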