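import Pool.Agent.Lib.MP_e029a2_pr.TH1

/-!
# The threshold in `w`, part 2: the cluster of a frog which arrives at `h`
-/

set_option autoImplicit false

namespace FDr.TH

open MeasureTheory ProbabilityTheory
open scoped ENNReal

/-- The frogs of `S` which are activated if a frog arrives at `h` and makes the run `e`. -/
inductive CL (S : Set ℤ) (h : ℤ) (e : Run) (c : ℤ → Run) : ℤ → Prop
  | enter (z : ℤ) : z - h ∈ vis e → z ∈ S → CL S h e c z
  | next (z z' : ℤ) : CL S h e c z → z' - z ∈ vis (c z) → z' ∈ S → CL S h e c z'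

/-- The place of a frog: `none` arrives at `h`. -/
def pl (h : ℤ) (f : Option ℤ) : ℤ := f.getD h

/-- The cluster. -/
def cS (S : Set ℤ) (h : ℤ) (c : Option ℤ → Run) : Set ℤ := {z | CL S h (c none) (fun x => c (some x)) z}

theorem CL.mem {S : Set ℤ} {h : ℤ} {e : Run} {c : ℤ → Run} {z : ℤ} (H : CL S h e c z) : z ∈ S := by
  cases H with
  | enter _ _ h2 => exact h2
  | next _ _ _ _ h2 => exact h2

theorem cS_subset (S : Set ℤ) (h : ℤ) (c : Option ℤ → Run) : cS S h c ⊆ S := fun _ hz => CL.mem hz

/-- the frogs of the cluster and the arriving frog -/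
def fr (C : Set ℤ) (f : Option ℤ) : Prop := ∀ x, f = some x → x ∈ C

theorem fr_none (C : Set ℤ) : fr C none := fun x hx => by simp at hx

/-- a frog of the cluster activates what it visits -/
theorem cS_next {S : Set ℤ} {h : ℤ} {c : Option ℤ → Run} {f : Option ℤ} (hf : fr (cS S h c) f) {z : ℤ}
    (hz : z - pl h f ∈ vis (c f)) (hS : z ∈ S) : z ∈ cS S h c := by
  cases f with
  | none => exact CL.enter z hz hS
  | some x => exact CL.next x z (hf x rfl) hz hS

theorem zero_mem_vis (l : Run) : (0 : ℤ) ∈ vis l := ⟨0, Nat.zero_le _, by simp [dsp]⟩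

theorem dsp_mem_vis (l : Run) : dsp l ∈ vis l := ⟨l.length, le_rfl, by rw [List.take_length]⟩

theorem dsp_append (l r : Run) : dsp (l ++ r) = dsp l + dsp r := by
  unfold dsp
  rw [List.map_append, List.sum_append]

theorem vis_append {l r : Run} {x : ℤ} (hx : x ∈ vis (l ++ r)) : x ∈ vis l ∨ x - dsp l ∈ vis r := by
  obtain ⟨i, hi, rfl⟩ := hx
  rcases le_total i l.length with h | h
  · left
    refine ⟨i, h, ?_⟩
    rw [List.take_append_of_le_length h]
  · right
    refine ⟨i - l.length, ?_, ?_⟩
    · rw [List.length_append] at hi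
      omega
    · rw [List.take_append, List.take_of_length_le h, dsp_append]
      ring

/-- **The decomposition.** -/
theorem CL_decomp {S : Set ℤ} {h : ℤ} {l r : Option ℤ → Run} {z : ℤ}
    (H : CL S h (l none ++ r none) (fun x => l (some x) ++ r (some x)) z) :
    z ∈ cS S h l ∨ ∃ f, fr (cS S h l) f ∧
      CL (S \ cS S h l) (pl h f + dsp (l f)) (r f) (fun x => l (some x) ++ r (some x)) z := by
  induction H with
  | enter z hz hS =>
    by_cases hC : z ∈ cS S h l
    · exact Or.inl hC
    · right
      rcases vis_append hz with h1 | h1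
      · exact absurd (cS_next (fr_none _) h1 hS) hC
      · refine ⟨none, fr_none _, CL.enter z ?_ ⟨hS, hC⟩⟩
        rw [← sub_sub]
        exact h1
  | next z z' _ hv hS ih =>
    by_cases hC : z' ∈ cS S h l
    · exact Or.inl hC
    · right
      rcases ih with h1 | ⟨f, hf, h1⟩
      · rcases vis_append hv with h2 | h2
        · exact absurd (CL.next z z' h1 h2 hS) hC
        · refine ⟨some z, fun x hx => ?_, CL.enter z' ?_ ⟨hS, hC⟩⟩
          · obtain rfl : z = x := by simpa using hx
            exact h1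
          · rw [← sub_sub]
            exact h2
      · exact ⟨f, hf, CL.next z z' h1 hv ⟨hS, hC⟩⟩

/-- the end of a first part is not in `S \ C` -/
theorem end_notMem {S : Set ℤ} {h : ℤ} {l : Option ℤ → Run} {f : Option ℤ} (hf : fr (cS S h l) f) :
    pl h f + dsp (l f) ∉ S \ cS S h l := by
  rintro ⟨h1, h2⟩
  refine h2 (cS_next hf ?_ h1)
  rw [add_sub_cancel_left]
  exact dsp_mem_vis _

/-- the empty run activates nothing outside its place -/
theorem CL_nil {S : Set ℤ} {h : ℤ} {c : ℤ → Run} {z : ℤ} (hh : h ∉ S) (H : CL S h [] c z) : False := by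
  induction H with
  | enter z hz hS =>
    obtain ⟨i, _, hi⟩ := hz
    have h1 : dsp (([] : Run).take i) = 0 := by simp [dsp]
    rw [h1] at hi
    have h2 : z = h := by omega
    rw [h2] at hS
    exact hh hS
  | next _ _ _ _ _ ih => exact ih

/-! ### Dependence -/

theorem CL_congr {S : Set ℤ} {h : ℤ} {e : Run} {c c' : ℤ → Run} (hc : ∀ x ∈ S, c x = c' x) {z : ℤ}
    (H : CL S h e c z) : CL S h e c' z := by
  induction H with
  | enter z hz hS => exact CL.enter z hz hS
  | next z z' H hv hS ih =>
    rw [hc z H.mem] at hv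
    exact CL.next z z' ih hv hS

theorem CL_congr_iff {S : Set ℤ} {h : ℤ} {e : Run} {c c' : ℤ → Run} (hc : ∀ x ∈ S, c x = c' x) (z : ℤ) :
    CL S h e c z ↔ CL S h e c' z :=
  ⟨CL_congr hc, CL_congr fun x hx => (hc x hx).symm⟩

theorem CL_mono {S T : Set ℤ} (hST : S ⊆ T) {h : ℤ} {e : Run} {c : ℤ → Run} {z : ℤ} (H : CL S h e c z) :
    CL T h e c z := by
  induction H with
  | enter z hz hS => exact CL.enter z hz (hST hS)
  | next z z' _ hv hS ih => exact CL.next z z' ih hv (hST hS)

theorem cS_congr {S C : Set ℤ} {h : ℤ} {c c' : Option ℤ → Run} (hc : ∀ f, fr C f → c f = c' f) (hC : cS S h c = C) :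
    cS S h c' = C := by
  have k1 : ∀ z, CL S h (c' none) (fun x => c' (some x)) z → z ∈ C := by
    intro z H
    induction H with
    | enter z hz hS =>
      rw [← hc none (fr_none _)] at hz
      rw [← hC]
      exact CL.enter z hz hS
    | next z z' _ hv hS ih =>
      rw [← hC] at ih ⊢
      have h1 : fr C (some z) := fun x hx => by
        obtain rfl : z = x := by simpa using hx
        rw [← hC]
        exact ih
      rw [← hc _ h1] at hv
      exact CL.next z z' ih hv hS
  have k2 : ∀ z, CL S h (c none) (fun x => c (some x)) z → z ∈ cS S h c' := by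
    intro z H
    induction H with
    | enter z hz hS =>
      rw [hc none (fr_none _)] at hz
      exact CL.enter z hz hS
    | next z z' H hv hS ih =>
      have h1 : fr C (some z) := fun x hx => by
        obtain rfl : z = x := by simpa using hx
        rw [← hC]
        exact H
      rw [hc _ h1] at hv
      exact CL.next z z' ih hv hS
  ext z
  constructor
  · exact k1 z
  · intro hz
    rw [← hC] at hz
    exact k2 z hz

/-- a frog is activated by the others -/
theorem CL_iff {S : Set ℤ} {h : ℤ} {e : Run} {c : ℤ → Run} {x : ℤ} :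
    CL S h e c x ↔ x ∈ S ∧ (x - h ∈ vis e ∨ ∃ y, CL (S \ {x}) h e c y ∧ x - y ∈ vis (c y)) := by
  constructor
  · intro H
    have key : ∀ z, CL S h e c z → CL (S \ {x}) h e c z ∨ (x ∈ S ∧ (x - h ∈ vis e ∨
        ∃ y, CL (S \ {x}) h e c y ∧ x - y ∈ vis (c y))) := by
      intro z H
      induction H with
      | enter z hz hS =>
        by_cases hzx : z = x
        · subst hzx
          exact Or.inr ⟨hS, Or.inl hz⟩
        · exact Or.inl (CL.enter z hz ⟨hS, hzx⟩)
      | next z z' _ hv hS ih =>
        rcases ih with h1 | h1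
        · by_cases hzx : z' = x
          · subst hzx
            exact Or.inr ⟨hS, Or.inr ⟨z, h1, hv⟩⟩
          · exact Or.inl (CL.next z z' h1 hv ⟨hS, hzx⟩)
        · exact Or.inr h1
    rcases key x H with h1 | h1
    · exact absurd rfl h1.mem.2
    · exact h1
  · rintro ⟨hS, h1 | ⟨y, hy, h1⟩⟩
    · exact CL.enter x h1 hS
    · exact CL.next y x (CL_mono Set.sdiff_subset hy) h1 hS

theorem CL_indep {S : Set ℤ} {h : ℤ} {e : Run} {c c' : ℤ → Run} {x : ℤ} (hc : ∀ y, y ≠ x → c y = c' y) :
    CL S h e c x ↔ CL S h e c' x := by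
  rw [CL_iff, CL_iff]
  refine and_congr_right fun _ => or_congr_right (exists_congr fun y => ?_)
  have h1 : CL (S \ {x}) h e c y ↔ CL (S \ {x}) h e c' y := CL_congr_iff (fun z hz => hc z hz.2) y
  constructor
  · rintro ⟨h2, h3⟩
    exact ⟨h1.1 h2, by rw [← hc y h2.mem.2]; exact h3⟩
  · rintro ⟨h2, h3⟩
    exact ⟨h1.2 h2, by rw [hc y h2.mem.2]; exact h3⟩

/-! ### Measurability -/

/-- the cluster after at most `k` steps -/
def CK (S : Set ℤ) (h : ℤ) (e : Run) (c : ℤ → Run) : ℕ → ℤ → Prop
  | 0, z => z - h ∈ vis e ∧ z ∈ S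
  | k + 1, z => CK S h e c k z ∨ ∃ y : ℤ, CK S h e c k y ∧ z - y ∈ vis (c y) ∧ z ∈ S

theorem CL_iff_CK {S : Set ℤ} {h : ℤ} {e : Run} {c : ℤ → Run} {z : ℤ} : CL S h e c z ↔ ∃ k, CK S h e c k z := by
  constructor
  · intro H
    induction H with
    | enter z hz hS => exact ⟨0, hz, hS⟩
    | next z z' _ hv hS ih =>
      obtain ⟨k, hk⟩ := ih
      exact ⟨k + 1, Or.inr ⟨z, hk, hv, hS⟩⟩
  · rintro ⟨k, hk⟩
    induction k generalizing z with
    | zero => exact CL.enter z hk.1 hk.2
    | succ k ih =>
      rcases hk with h1 | ⟨y, h1, h2, h3⟩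
      · exact ih h1
      · exact CL.next y z (ih h1) h2 h3

theorem measurable_CL {Ω : Type*} [MeasurableSpace Ω] (S : Set ℤ) (h : ℤ) {e : Ω → Run} {c : Ω → ℤ → Run}
    (he : Measurable e) (hc : ∀ x, Measurable fun ω => c ω x) (z : ℤ) :
    Measurable fun ω => CL S h (e ω) (c ω) z := by
  rw [funext fun ω : Ω => propext (CL_iff_CK (S := S) (h := h) (e := e ω) (c := c ω) (z := z))]
  refine Measurable.exists fun k => ?_
  induction k generalizing z with
  | zero => exact Measurable.and ((measurable_of_countable fun l : Run => z - h ∈ vis l).comp he) measurable_const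
  | succ k ih =>
    refine Measurable.or (ih z) (Measurable.exists fun y => (ih y).and (Measurable.and ?_ measurable_const))
    exact (measurable_of_countable fun l : Run => z - y ∈ vis l).comp (hc y)

theorem measurable_cS (S C : Set ℤ) (h : ℤ) : Measurable fun c : Option ℤ → Run => cS S h c = C := by
  have h1 : ∀ c : Option ℤ → Run, cS S h c = C ↔ ∀ z, CL S h (c none) (fun x => c (some x)) z ↔ z ∈ C :=
    fun c => Set.ext_iff
  rw [funext fun c => propext (h1 c)]
  exact Measurable.forall fun z => (measurable_CL S h (measurable_pi_apply _) (fun x => measurable_pi_apply _) z).iff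
    measurable_const

end FDr.TH
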