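import Pool.Agent.Lib.MP_e029a2_pr.TH2

/-!
# The threshold in `w`, part 3: the inequality between the clusters for `w'` and `w`
-/

set_option autoImplicit false

namespace FDr.TH

open MeasureTheory ProbabilityTheory
open scoped ENNReal

/-- The law of the runs of the frogs of a line. -/
noncomputable def PR (w α : Set.Ioo (0 : ℝ) 1) : Measure (Option ℤ → Run) := Measure.infinitePi fun _ => runLaw w α

instance PR_prob (w α : Set.Ioo (0 : ℝ) 1) : IsProbabilityMeasure (PR w α) := by
  unfold PR
  infer_instance

/-- The probability that `z` is activated. -/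
noncomputable def pC (w α : Set.Ioo (0 : ℝ) 1) (S : Set ℤ) (h z : ℤ) : ℝ≥0∞ :=
  PR w α {c | CL S h (c none) (fun x => c (some x)) z}

theorem measurable_CLc (S : Set ℤ) (h z : ℤ) :
    Measurable fun c : Option ℤ → Run => CL S h (c none) (fun x => c (some x)) z :=
  measurable_CL S h (measurable_pi_apply _) (fun _ => measurable_pi_apply _) z

/-- The event `A`: the cluster is `C`, `f` is the arriving frog or a frog of the cluster, and its run ends at `e`. -/
def EA (S : Set ℤ) (h : ℤ) (C : Set ℤ) (f : Option ℤ) (e : ℤ) (c : Option ℤ → Run) : Prop :=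
  cS S h c = C ∧ fr C f ∧ pl h f + dsp (c f) = e

theorem measurable_EA (S : Set ℤ) (h : ℤ) (C : Set ℤ) (f : Option ℤ) (e : ℤ) : Measurable (EA S h C f e) := by
  refine (measurable_cS S C h).and (measurable_const.and ?_)
  exact (measurable_of_countable fun l : Run => pl h f + dsp l = e).comp (measurable_pi_apply f)

/-! ### The two parts of the runs -/

/-- The laws of the two parts. -/
noncomputable def μ2 (w' w α : Set.Ioo (0 : ℝ) 1) (b : Bool) : Measure Run := if b then sec w' w α else runLaw w' α

theorem μ2_prob {w' w : Set.Ioo (0 : ℝ) 1} (α : Set.Ioo (0 : ℝ) 1) (h : w' < w) (b : Bool) :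
    IsProbabilityMeasure (μ2 w' w α b) := by
  have := sec_prob α h
  unfold μ2
  cases b
  · simp only [Bool.false_eq_true, if_false]
    infer_instance
  · simp only [if_true]
    infer_instance

/-- The law of the parts of all the runs. -/
noncomputable def P2 (w' w α : Set.Ioo (0 : ℝ) 1) : Measure (Option ℤ × Bool → Run) :=
  Measure.infinitePi fun p : Option ℤ × Bool => μ2 w' w α p.2

/-- The first parts. -/
def lp (ω : Option ℤ × Bool → Run) (f : Option ℤ) : Run := ω (f, false)

/-- The second parts. -/
def rp (ω : Option ℤ × Bool → Run) (f : Option ℤ) : Run := ω (f, true)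

/-- The runs. -/
def cp (ω : Option ℤ × Bool → Run) (f : Option ℤ) : Run := lp ω f ++ rp ω f

theorem measurable_lp : Measurable lp := measurable_pi_lambda _ fun _ => measurable_pi_apply _

theorem measurable_rp : Measurable rp := measurable_pi_lambda _ fun _ => measurable_pi_apply _

theorem measurable_cp : Measurable cp :=
  measurable_pi_lambda _ fun _ => (measurable_of_countable fun p : Run × Run => p.1 ++ p.2).comp
    (Measurable.prodMk (measurable_pi_apply _) (measurable_pi_apply _))

theorem map_lp {w' w : Set.Ioo (0 : ℝ) 1} (α : Set.Ioo (0 : ℝ) 1) (h : w' < w) :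
    Measure.map lp (P2 w' w α) = PR w' α := by
  have := fun p : Option ℤ × Bool => μ2_prob α h p.2
  have hinj : Function.Injective fun f : Option ℤ => (f, false) := fun f g hfg => by
    simpa using hfg
  have h1 := Measure.map_infinitePi_infinitePi_of_inj (P := fun p : Option ℤ × Bool => μ2 w' w α p.2) hinj
  unfold P2 PR
  exact h1

theorem map_cp {w' w : Set.Ioo (0 : ℝ) 1} (α : Set.Ioo (0 : ℝ) 1) (h : w' < w) :
    Measure.map cp (P2 w' w α) = PR w α := by
  have := fun p : Option ℤ × Bool => μ2_prob α h p.2
  have hp := fun b : Bool => μ2_prob α h b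
  have h1 := Measure.infinitePi_map_curry (fun (_ : Option ℤ) (b : Bool) => μ2 w' w α b)
  have h2 := Measure.infinitePi_map_pi (fun _ : Option ℤ => Measure.infinitePi fun b : Bool => μ2 w' w α b)
    (Y := fun _ => Run) (f := fun _ y => y false ++ y true)
    (fun _ => (measurable_of_countable fun p : Run × Run => p.1 ++ p.2).comp
      (Measurable.prodMk (measurable_pi_apply _) (measurable_pi_apply _)))
  have h3 : ∀ _ : Option ℤ, (Measure.infinitePi fun b : Bool => μ2 w' w α b).map (fun y => y false ++ y true) =
      runLaw w α := by
    intro _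
    have h4 := Measure.infinitePi_map_eval_prod (P := fun b : Bool => μ2 w' w α b) (i := false) (j := true) (by simp)
    have h5 : (Measure.infinitePi fun b : Bool => μ2 w' w α b).map (fun y => y false ++ y true) =
        (((Measure.infinitePi fun b : Bool => μ2 w' w α b).map fun y => (y false, y true)).map
          fun p : Run × Run => p.1 ++ p.2) := by
      have hm : Measurable fun y : Bool → Run => (y false, y true) :=
        Measurable.prodMk (measurable_pi_apply false) (measurable_pi_apply true)
      rw [Measure.map_map (measurable_of_countable _) hm]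
      rfl
    have h6 : μ2 w' w α false = runLaw w' α := by simp [μ2]
    have h7 : μ2 w' w α true = sec w' w α := by simp [μ2]
    rw [h5, h4, h6, h7]
    have := sec_prob α h
    ext s hs
    rw [Measure.map_apply (measurable_of_countable _) hs, ← lintegral_indicator_one
      ((measurable_of_countable (fun p : Run × Run => p.1 ++ p.2)) hs), lintegral_prod _
      (measurable_of_countable _).aemeasurable, ← lintegral_indicator_one hs, ← lintegral_append α h]
    rfl
  rw [funext h3] at h2
  unfold PR P2
  rw [← h2]
  have h8 : (Measure.infinitePi fun _ : Option ℤ => Measure.infinitePi fun b : Bool => μ2 w' w α b) =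
      Measure.map (MeasurableEquiv.curry (Option ℤ) Bool Run)
        (Measure.infinitePi fun p : Option ℤ × Bool => μ2 w' w α p.2) := h1.symm
  rw [h8, Measure.map_map]
  · rfl
  · exact measurable_pi_lambda _ fun f => (measurable_of_countable fun p : Run × Run => p.1 ++ p.2).comp
      (Measurable.prodMk ((measurable_pi_apply _).comp (measurable_pi_apply _))
        ((measurable_pi_apply _).comp (measurable_pi_apply _)))
  · exact MeasurableEquiv.measurable _

end FDr.TH
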