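import Pool.Agent.Lib.MP_e029a2_pr.TH3

/-!
# The threshold in `w`, part 4: the inequality for one point
-/

set_option autoImplicit false

namespace FDr.TH

open MeasureTheory ProbabilityTheory
open scoped ENNReal

open FDr.TR (ind ind_true ind_false ind_mono ind_and ind_congr measurable_ind lintegral_ind)

/-! ### Conditioning on one coordinate -/

section cond

variable {ι X : Type*} [MeasurableSpace X] [Countable X] [MeasurableSingletonClass X] (μ : ι → Measure X)
  [∀ i, IsProbabilityMeasure (μ i)]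

theorem lintegral_cond (i0 : ι) {g : X → (ι → X) → ℝ≥0∞} (hg : ∀ a, Measurable (g a))
    (hdep : ∀ a (c c' : ι → X), (∀ i, i ≠ i0 → c i = c' i) → g a c = g a c') :
    ∫⁻ c, g (c i0) c ∂(Measure.infinitePi μ) = ∫⁻ a, ∫⁻ c, g a c ∂(Measure.infinitePi μ) ∂μ i0 := by
  have h0 : ∀ a : X, Measurable fun c : ι → X => c i0 = a := fun a =>
    (measurable_of_countable fun x : X => x = a).comp (measurable_pi_apply i0)
  have h1 : ∀ c : ι → X, g (c i0) c = ∑' a : X, ind (c i0 = a) * g a c := by
    intro c
    rw [tsum_eq_single (c i0), ind_true rfl, one_mul]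
    intro a ha
    rw [ind_false fun h => ha h.symm, zero_mul]
  have hmm : ∀ a : X, Measurable fun c : ι → X => ind (c i0 = a) * g a c := fun a => (measurable_ind (h0 a)).mul (hg a)
  rw [lintegral_congr h1, lintegral_tsum fun a => (hmm a).aemeasurable, lintegral_countable']
  refine tsum_congr fun a => ?_
  rw [lintegral_mul_of_disj μ {i0} (measurable_ind (h0 a)) (hg a), mul_comm, lintegral_ind _ (h0 a)]
  · congr 1
    have h2 := Measure.infinitePi_map_eval μ i0
    have h3 : (Measure.infinitePi μ).map (fun x => x i0) {a} = μ i0 {a} := by rw [h2]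
    rw [Measure.map_apply (measurable_pi_apply i0) (measurableSet_singleton a)] at h3
    exact h3
  · intro c c' h
    rw [h i0 rfl]
  · intro c c' h
    exact hdep a c c' fun i hi => h i hi

end cond

/-- The activation probability if the arriving frog makes the run `r`. -/
noncomputable def qC (w α : Set.Ioo (0 : ℝ) 1) (S : Set ℤ) (h : ℤ) (r : Run) (z : ℤ) : ℝ≥0∞ :=
  PR w α {c | CL S h r (fun x => c (some x)) z}

theorem pC_eq (w α : Set.Ioo (0 : ℝ) 1) (S : Set ℤ) (h z : ℤ) : pC w α S h z = ∫⁻ r, qC w α S h r z ∂runLaw w α := by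
  have hm : ∀ r : Run, Measurable fun c : Option ℤ → Run => CL S h r (fun x => c (some x)) z := fun r =>
    measurable_CL S h measurable_const (fun _ => measurable_pi_apply _) z
  have h1 := lintegral_cond (fun _ : Option ℤ => runLaw w α) none
    (g := fun r (c : Option ℤ → Run) => ind (CL S h r (fun x => c (some x)) z)) (fun r => measurable_ind (hm r))
    (fun r c c' hc => by
      refine ind_congr (CL_congr_iff (fun x _ => hc (some x) (by simp)) z))
  have h2 : pC w α S h z = ∫⁻ c, ind (CL S h (c none) (fun x => c (some x)) z) ∂PR w α :=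
    (lintegral_ind _ (measurable_CLc S h z)).symm
  rw [h2]
  unfold PR
  rw [h1]
  refine lintegral_congr fun r => ?_
  rw [lintegral_ind _ (hm r)]
  rfl

variable {w' w : Set.Ioo (0 : ℝ) 1} (α : Set.Ioo (0 : ℝ) 1) (hw : w' < w)

include hw

/-- the activation outside the first cluster -/
theorem second_le (T : Set ℤ) (e : ℤ) (he : e ∉ T) (f : Option ℤ) (hf : ∀ x, f = some x → x ∉ T) (z : ℤ) :
    P2 w' w α {ω | CL T e (rp ω f) (fun x => cp ω (some x)) z} = ENNReal.ofReal (1 - rr w' w) * pC w α T e z := by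
  have := fun p : Option ℤ × Bool => μ2_prob α hw p.2
  have hm : ∀ r : Run, Measurable fun ω : Option ℤ × Bool → Run => CL T e r (fun x => cp ω (some x)) z := fun r =>
    measurable_CL T e measurable_const (fun x => (measurable_pi_apply _).comp measurable_cp) z
  have h1 := lintegral_cond (fun p : Option ℤ × Bool => μ2 w' w α p.2) (f, true)
    (g := fun r (ω : Option ℤ × Bool → Run) => ind (CL T e r (fun x => cp ω (some x)) z))
    (fun r => measurable_ind (hm r)) (fun r ω ω' hc => by
      refine ind_congr (CL_congr_iff (fun x hx => ?_) z)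
      have h2 : ω (some x, false) = ω' (some x, false) := hc _ (by simp)
      have h3 : ω (some x, true) = ω' (some x, true) := hc _ (by
        intro h
        have h4 : f = some x := (congrArg Prod.fst h).symm
        exact hf x h4 hx)
      unfold cp lp rp
      rw [h2, h3])
  have h2 : P2 w' w α {ω | CL T e (rp ω f) (fun x => cp ω (some x)) z} =
      ∫⁻ ω, ind (CL T e (ω (f, true)) (fun x => cp ω (some x)) z) ∂P2 w' w α :=
    (lintegral_ind _ (measurable_CL T e ((measurable_pi_apply _).comp measurable_rp)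
      (fun x => (measurable_pi_apply _).comp measurable_cp) z)).symm
  have h3 : ∀ r : Run, ∫⁻ ω, ind (CL T e r (fun x => cp ω (some x)) z) ∂P2 w' w α = qC w α T e r z := by
    intro r
    rw [lintegral_ind _ (hm r)]
    unfold qC
    rw [← map_cp α hw, Measure.map_apply measurable_cp]
    · rfl
    · exact measurableSet_setOfPred.2 (measurable_CL T e measurable_const (fun _ => measurable_pi_apply _) z)
  have h4 : μ2 w' w α true = sec w' w α := by simp [μ2]
  rw [h2]
  unfold P2 at h3 ⊢
  rw [h1]
  simp only [h3]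
  rw [h4, lintegral_sec, ← pC_eq]
  have h5 : qC w α T e [] z = 0 := by
    unfold qC
    have h6 : {c : Option ℤ → Run | CL T e [] (fun x => c (some x)) z} = ∅ :=
      Set.eq_empty_of_forall_notMem fun c hc => CL_nil he hc
    rw [h6, measure_empty]
  rw [h5, mul_zero, zero_add]

/-- **The inequality for one point.** -/
theorem pC_le (S : Finset ℤ) (h z : ℤ) : pC w α ↑S h z ≤ pC w' α ↑S h z + ENNReal.ofReal (1 - rr w' w) *
    ∑' p : Finset ℤ × Option ℤ × ℤ, PR w' α {c | EA ↑S h ↑p.1 p.2.1 p.2.2 c} * pC w α (↑(S \ p.1)) p.2.2 z := by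
  classical
  have := fun p : Option ℤ × Bool => μ2_prob α hw p.2
  have h1 : pC w α ↑S h z = P2 w' w α {ω | CL ↑S h (cp ω none) (fun x => cp ω (some x)) z} := by
    unfold pC
    rw [← map_cp α hw, Measure.map_apply measurable_cp (measurableSet_setOfPred.2 (measurable_CLc _ _ _))]
    rfl
  have h2 : pC w' α ↑S h z = P2 w' w α {ω | CL ↑S h (lp ω none) (fun x => lp ω (some x)) z} := by
    unfold pC
    rw [← map_lp α hw, Measure.map_apply measurable_lp (measurableSet_setOfPred.2 (measurable_CLc _ _ _))]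
    rfl
  have h3 : {ω | CL (↑S : Set ℤ) h (cp ω none) (fun x => cp ω (some x)) z} ⊆
      {ω | CL ↑S h (lp ω none) (fun x => lp ω (some x)) z} ∪ ⋃ p : Finset ℤ × Option ℤ × ℤ,
        {ω | EA ↑S h ↑p.1 p.2.1 p.2.2 (lp ω) ∧ CL (↑(S \ p.1) : Set ℤ) p.2.2 (rp ω p.2.1) (fun x => cp ω (some x)) z} := by
    intro ω hω
    rcases CL_decomp (l := lp ω) (r := rp ω) hω with h4 | ⟨f, hf, h4⟩
    · exact Or.inl h4
    · right
      have hfin : (cS (↑S : Set ℤ) h (lp ω)).Finite := S.finite_toSet.subset (cS_subset _ _ _)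
      rw [Set.mem_iUnion]
      refine ⟨(hfin.toFinset, f, pl h f + dsp (lp ω f)), ⟨?_, ?_, rfl⟩, ?_⟩
      · exact hfin.coe_toFinset.symm
      · rw [hfin.coe_toFinset]
        exact hf
      · rw [Finset.coe_sdiff, hfin.coe_toFinset]
        exact h4
  rw [h1, h2]
  refine (measure_mono h3).trans ((measure_union_le _ _).trans (add_le_add le_rfl ?_))
  refine (measure_iUnion_le _).trans ?_
  rw [← ENNReal.tsum_mul_left]
  refine ENNReal.tsum_le_tsum fun p => ?_
  obtain ⟨C, f, e⟩ := p
  simp only
  by_cases hbad : fr (↑C : Set ℤ) f ∧ e ∉ (↑(S \ C) : Set ℤ)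
  · obtain ⟨hf, he⟩ := hbad
    have hfT : ∀ x, f = some x → x ∉ (↑(S \ C) : Set ℤ) := fun x hx h5 =>
      (Finset.mem_sdiff.1 (Finset.mem_coe.1 h5)).2 (Finset.mem_coe.1 (hf x hx))
    have hm1 : Measurable fun ω : Option ℤ × Bool → Run => EA ↑S h ↑C f e (lp ω) :=
      (measurable_EA _ _ _ _ _).comp measurable_lp
    have hm2 : Measurable fun ω : Option ℤ × Bool → Run => CL (↑(S \ C) : Set ℤ) e (rp ω f) (fun x => cp ω (some x)) z :=
      measurable_CL _ e ((measurable_pi_apply _).comp measurable_rp)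
        (fun x => (measurable_pi_apply _).comp measurable_cp) z
    rw [← lintegral_ind _ (hm1.and hm2)]
    simp only [ind_and]
    unfold P2
    rw [lintegral_mul_of_disj (fun p : Option ℤ × Bool => μ2 w' w α p.2)
      {i | i.2 = false ∧ fr (↑C : Set ℤ) i.1} (measurable_ind hm1) (measurable_ind hm2)]
    · rw [lintegral_ind _ hm1, lintegral_ind _ hm2]
      have h5 := second_le α hw (↑(S \ C) : Set ℤ) e he f hfT z
      have h6 : P2 w' w α {ω | EA ↑S h ↑C f e (lp ω)} = PR w' α {c | EA ↑S h ↑C f e c} := by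
        rw [← map_lp α hw, Measure.map_apply measurable_lp (measurableSet_setOfPred.2 (measurable_EA _ _ _ _ _))]
        rfl
      unfold P2 at h5 h6
      rw [h5, h6]
      refine le_of_eq ?_
      ring
    · intro ω ω' hc
      refine ind_congr ?_
      have key : ∀ ω ω' : Option ℤ × Bool → Run, (∀ i ∈ {i : Option ℤ × Bool | i.2 = false ∧ fr (↑C : Set ℤ) i.1},
          ω i = ω' i) → EA ↑S h ↑C f e (lp ω) → EA ↑S h ↑C f e (lp ω') := by
        rintro ω ω' hc ⟨k1, k2, k3⟩
        refine ⟨cS_congr (fun g hg => hc (g, false) ⟨rfl, hg⟩) k1, k2, ?_⟩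
        have h7 : lp ω f = lp ω' f := hc (f, false) ⟨rfl, k2⟩
        rw [← h7]
        exact k3
      exact ⟨key ω ω' hc, key ω' ω fun i hi => (hc i hi).symm⟩
    · intro ω ω' hc
      have h7 : rp ω f = rp ω' f := hc (f, true) fun h8 => by
        have := h8.1
        simp at this
      rw [h7]
      refine ind_congr (CL_congr_iff (fun x hx => ?_) z)
      have h8 : ω (some x, false) = ω' (some x, false) := hc _ fun h9 =>
        (Finset.mem_sdiff.1 (Finset.mem_coe.1 hx)).2 (Finset.mem_coe.1 (h9.2 x rfl))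
      have h9 : ω (some x, true) = ω' (some x, true) := hc _ fun h9 => by
        have := h9.1
        simp at this
      unfold cp lp rp
      rw [h8, h9]
  · have h5 : {ω | EA (↑S : Set ℤ) h ↑C f e (lp ω) ∧ CL (↑(S \ C) : Set ℤ) e (rp ω f) (fun x => cp ω (some x)) z} = ∅ := by
      refine Set.eq_empty_of_forall_notMem fun ω hω => hbad ?_
      obtain ⟨⟨k1, k2, k3⟩, -⟩ := hω
      refine ⟨k2, ?_⟩
      rw [← k3, Finset.coe_sdiff, ← k1]
      refine end_notMem ?_
      rw [k1]
      exact k2
    rw [h5, measure_empty]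
    exact zero_le

end FDr.TH
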