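import Pool.Agent.Lib.MP_e029a2_pr.TH4
import Pool.Agent.Lib.MP_e029a2_pr.TG
import Pool.Agent.Lib.MP_e029a2_pr.D2

/-!
# The threshold in `w`, part 5: generating functions
-/

set_option autoImplicit false

namespace FDr.TH

open MeasureTheory ProbabilityTheory
open scoped ENNReal

open FDr.TR (ind_true ind_false ind_mono ind_and ind_congr measurable_ind lintegral_ind tsum_opt ofReal_zpow_add Ug
  mfun_eq tsum_ind_and kap_ne_zero)

/-- The generating function of the activated frogs of `S`. -/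
noncomputable def Xi (w α : Set.Ioo (0 : ℝ) 1) (s : ℝ) (S : Finset ℤ) (h : ℤ) : ℝ≥0∞ :=
  ∑ z ∈ S, pC w α ↑S h z * ENNReal.ofReal (s ^ z)

theorem pC_zero (w α : Set.Ioo (0 : ℝ) 1) {S : Set ℤ} {h z : ℤ} (hz : z ∉ S) : pC w α S h z = 0 := by
  unfold pC
  have h6 : {c : Option ℤ → Run | CL S h (c none) (fun x => c (some x)) z} = ∅ :=
    Set.eq_empty_of_forall_notMem fun c hc => hz (CL.mem hc)
  rw [h6, measure_empty]

/-! ### The ends of the runs of the cluster -/

theorem run_lintegral (w α : Set.Ioo (0 : ℝ) 1) (f : Option ℤ) (g : Run → ℝ≥0∞) :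
    ∫⁻ c, g (c f) ∂PR w α = ∫⁻ l, g l ∂runLaw w α := by
  unfold PR
  exact TR.lintegral_coord (runLaw w α) f (measurable_of_countable g)

theorem ends_le (w α : Set.Ioo (0 : ℝ) 1) {s : ℝ} (hs : 0 < s) (S : Finset ℤ) (h : ℤ) :
    ∑' p : Finset ℤ × Option ℤ × ℤ, PR w α {c | EA ↑S h ↑p.1 p.2.1 p.2.2 c} * ENNReal.ofReal (s ^ p.2.2) ≤
      kap w α s * (ENNReal.ofReal (s ^ h) + Xi w α s S h) := by
  classical
  have hm : ∀ p : Finset ℤ × Option ℤ × ℤ, Measurable fun c => EA (↑S : Set ℤ) h ↑p.1 p.2.1 p.2.2 c :=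
    fun p => measurable_EA _ _ _ _ _
  have h1 : ∑' p : Finset ℤ × Option ℤ × ℤ, PR w α {c | EA ↑S h ↑p.1 p.2.1 p.2.2 c} * ENNReal.ofReal (s ^ p.2.2) =
      ∫⁻ c, ∑' p : Finset ℤ × Option ℤ × ℤ, TR.ind (EA ↑S h ↑p.1 p.2.1 p.2.2 c) * ENNReal.ofReal (s ^ p.2.2) ∂PR w α := by
    have hm2 : ∀ p : Finset ℤ × Option ℤ × ℤ, Measurable fun c => TR.ind (EA (↑S : Set ℤ) h ↑p.1 p.2.1 p.2.2 c) *
        ENNReal.ofReal (s ^ p.2.2) := fun p => (measurable_ind (hm p)).mul measurable_const
    rw [lintegral_tsum fun p => (hm2 p).aemeasurable]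
    refine tsum_congr fun p => ?_
    rw [lintegral_mul_const _ (measurable_ind (hm p)), lintegral_ind _ (hm p)]
  have h2 : ∀ c : Option ℤ → Run, (∑' p : Finset ℤ × Option ℤ × ℤ, TR.ind (EA ↑S h ↑p.1 p.2.1 p.2.2 c) *
      ENNReal.ofReal (s ^ p.2.2)) ≤
      ENNReal.ofReal (s ^ (h + dsp (c none))) + ∑ x ∈ S, TR.ind (CL ↑S h (c none) (fun x => c (some x)) x) *
        ENNReal.ofReal (s ^ (x + dsp (c (some x)))) := by
    intro c
    have hfin : (cS (↑S : Set ℤ) h c).Finite := S.finite_toSet.subset (cS_subset _ _ _)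
    have h3 : (∑' p : Finset ℤ × Option ℤ × ℤ, TR.ind (EA ↑S h ↑p.1 p.2.1 p.2.2 c) * ENNReal.ofReal (s ^ p.2.2)) ≤
        ∑' f : Option ℤ, TR.ind (fr (cS ↑S h c) f) * ENNReal.ofReal (s ^ (pl h f + dsp (c f))) := by
      rw [ENNReal.tsum_prod', ENNReal.tsum_eq_add_tsum_ite hfin.toFinset]
      have h4 : (∑' C : Finset ℤ, if C = hfin.toFinset then 0 else ∑' p : Option ℤ × ℤ,
          TR.ind (EA ↑S h ↑C p.1 p.2 c) * ENNReal.ofReal (s ^ p.2)) = 0 := by
        rw [ENNReal.tsum_eq_zero]
        intro C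
        split_ifs with hC
        · rfl
        · rw [ENNReal.tsum_eq_zero]
          intro p
          rw [ind_false, zero_mul]
          rintro ⟨k1, -, -⟩
          refine hC ?_
          rw [← Finset.coe_inj, hfin.coe_toFinset]
          exact k1.symm
      simp only at h4 ⊢
      rw [h4, add_zero, ENNReal.tsum_prod']
      refine ENNReal.tsum_le_tsum fun f => ?_
      rw [tsum_eq_single (pl h f + dsp (c f))]
      · refine mul_le_mul_left (ind_mono ?_) _
        rintro ⟨-, k2, -⟩
        rw [hfin.coe_toFinset] at k2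
        exact k2
      · intro e he
        rw [ind_false, zero_mul]
        rintro ⟨-, -, k3⟩
        exact he k3.symm
    refine h3.trans ?_
    rw [tsum_opt]
    refine add_le_add ?_ ?_
    · rw [ind_true (fr_none _), one_mul]
      exact le_rfl
    · rw [tsum_eq_sum (s := S)]
      · refine Finset.sum_le_sum fun x _ => mul_le_mul_left (ind_mono fun hf => ?_) _
        exact hf x rfl
      · intro x hx
        rw [ind_false, zero_mul]
        intro hf
        exact hx (Finset.mem_coe.1 (CL.mem (hf x rfl)))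
  rw [h1]
  refine (lintegral_mono h2).trans ?_
  have hm3 : Measurable fun c : Option ℤ → Run => ENNReal.ofReal (s ^ (h + dsp (c none))) :=
    (measurable_of_countable fun l : Run => ENNReal.ofReal (s ^ (h + dsp l))).comp (measurable_pi_apply _)
  have hm4 : ∀ x : ℤ, Measurable fun c : Option ℤ → Run => ENNReal.ofReal (s ^ (x + dsp (c (some x)))) := fun x =>
    (measurable_of_countable fun l : Run => ENNReal.ofReal (s ^ (x + dsp l))).comp (measurable_pi_apply _)
  have hm5 : ∀ x : ℤ, Measurable fun c : Option ℤ → Run => TR.ind (CL (↑S : Set ℤ) h (c none) (fun x => c (some x)) x) *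
      ENNReal.ofReal (s ^ (x + dsp (c (some x)))) := fun x => (measurable_ind (measurable_CLc _ _ _)).mul (hm4 x)
  rw [lintegral_add_left hm3, lintegral_finsetSum _ fun x _ => hm5 x]
  have h5 : ∀ (f : Option ℤ) (y : ℤ), ∫⁻ c, ENNReal.ofReal (s ^ (y + dsp (c f))) ∂PR w α =
      ENNReal.ofReal (s ^ y) * kap w α s := by
    intro f y
    rw [run_lintegral w α f fun l => ENNReal.ofReal (s ^ (y + dsp l))]
    simp only [ofReal_zpow_add hs]
    rw [lintegral_const_mul _ (measurable_of_countable _)]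
    rfl
  rw [h5, mul_add]
  refine add_le_add (le_of_eq (mul_comm _ _)) (le_of_eq ?_)
  unfold Xi
  rw [Finset.mul_sum]
  refine Finset.sum_congr rfl fun x _ => ?_
  have h6 : ∫⁻ c, TR.ind (CL ↑S h (c none) (fun x => c (some x)) x) * ENNReal.ofReal (s ^ (x + dsp (c (some x)))) ∂PR w α =
      ∫⁻ c, ENNReal.ofReal (s ^ (x + dsp (c (some x)))) * TR.ind (CL ↑S h (c none) (fun x => c (some x)) x) ∂PR w α :=
    lintegral_congr fun c => mul_comm _ _
  rw [h6]
  have h7 : ∫⁻ c, ENNReal.ofReal (s ^ (x + dsp (c (some x)))) * TR.ind (CL ↑S h (c none) (fun x => c (some x)) x) ∂PR w α =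
      (∫⁻ c, ENNReal.ofReal (s ^ (x + dsp (c (some x)))) ∂PR w α) *
        ∫⁻ c, TR.ind (CL ↑S h (c none) (fun x => c (some x)) x) ∂PR w α := by
    unfold PR
    refine lintegral_mul_of_disj (fun _ => runLaw w α) {some x} (hm4 x) (measurable_ind (measurable_CLc _ _ _)) ?_ ?_
    · intro c c' hc
      rw [hc _ rfl]
    · intro c c' hc
      have h8 : c none = c' none := hc none (by simp)
      refine ind_congr ?_
      rw [h8]
      refine CL_indep fun y hy => hc (some y) ?_
      simpa using hy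
  rw [h7, h5, lintegral_ind _ (measurable_CLc _ _ _)]
  show _ * kap w α s * pC w α ↑S h x = _
  ring

/-! ### The inequality for the generating functions -/

theorem Xi_le {w' w : Set.Ioo (0 : ℝ) 1} (α : Set.Ioo (0 : ℝ) 1) (hw : w' < w) (s : ℝ) (S : Finset ℤ) (h : ℤ) :
    Xi w α s S h ≤ Xi w' α s S h + ENNReal.ofReal (1 - rr w' w) *
      ∑' p : Finset ℤ × Option ℤ × ℤ, PR w' α {c | EA ↑S h ↑p.1 p.2.1 p.2.2 c} * Xi w α s (S \ p.1) p.2.2 := by
  have h1 : ∀ p : Finset ℤ × Option ℤ × ℤ, Xi w α s (S \ p.1) p.2.2 =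
      ∑ z ∈ S, pC w α (↑(S \ p.1)) p.2.2 z * ENNReal.ofReal (s ^ z) := by
    intro p
    refine Finset.sum_subset Finset.sdiff_subset fun z _ hz => ?_
    rw [pC_zero, zero_mul]
    exact fun h => hz (Finset.mem_coe.1 h)
  simp only [h1]
  unfold Xi
  calc ∑ z ∈ S, pC w α ↑S h z * ENNReal.ofReal (s ^ z)
      ≤ ∑ z ∈ S, (pC w' α ↑S h z + ENNReal.ofReal (1 - rr w' w) *
        ∑' p : Finset ℤ × Option ℤ × ℤ, PR w' α {c | EA ↑S h ↑p.1 p.2.1 p.2.2 c} * pC w α (↑(S \ p.1)) p.2.2 z) *
          ENNReal.ofReal (s ^ z) :=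
        Finset.sum_le_sum fun z _ => mul_le_mul_left (pC_le α hw S h z) _
    _ = ∑ z ∈ S, pC w' α ↑S h z * ENNReal.ofReal (s ^ z) + ∑ z ∈ S, ENNReal.ofReal (1 - rr w' w) *
        ∑' p : Finset ℤ × Option ℤ × ℤ, PR w' α {c | EA ↑S h ↑p.1 p.2.1 p.2.2 c} * (pC w α (↑(S \ p.1)) p.2.2 z *
          ENNReal.ofReal (s ^ z)) := by
        rw [← Finset.sum_add_distrib]
        refine Finset.sum_congr rfl fun z _ => ?_
        rw [add_mul, mul_assoc (ENNReal.ofReal (1 - rr w' w)), ← ENNReal.tsum_mul_right]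
        simp only [mul_assoc]
    _ = _ := by
        rw [← Finset.mul_sum]
        congr 2
        rw [← Summable.tsum_finsetSum fun _ _ => ENNReal.summable]
        refine tsum_congr fun p => ?_
        rw [Finset.mul_sum]

/-! ### Comparison with the process on the whole line -/

theorem act_zero (w α : Set.Ioo (0 : ℝ) 1) : actP w α Set.univ 0 = 1 := by
  unfold actP
  have h1 : {c : Option ℤ → Run | Clus Set.univ (c none) (fun z => c (some z)) 0} = Set.univ := by
    rw [Set.eq_univ_iff_forall]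
    intro c
    exact Clus.enter 0 (zero_mem_vis _) (Set.mem_univ _)
  rw [h1, measure_univ]

theorem CL_clus {S : Set ℤ} {h : ℤ} {e : Run} {c : ℤ → Run} {z : ℤ} (H : CL S h e c z) :
    Clus Set.univ e (fun x => c (x + h)) (z - h) := by
  induction H with
  | enter z hz hS => exact Clus.enter _ hz (Set.mem_univ _)
  | next z z' _ hv hS ih =>
    refine Clus.next (z - h) (z' - h) ih ?_ (Set.mem_univ _)
    simp only [sub_add_cancel]
    rw [sub_sub_sub_cancel_right]
    exact hv

theorem pC_le_actP (w α : Set.Ioo (0 : ℝ) 1) (S : Set ℤ) (h z : ℤ) : pC w α S h z ≤ actP w α Set.univ (z - h) := by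
  have hinj : Function.Injective fun o : Option ℤ => o.map fun x => x + h := by
    refine Option.map_injective fun a b hab => ?_
    simpa using hab
  have h1 := Measure.map_infinitePi_infinitePi_of_inj (P := fun _ : Option ℤ => runLaw w α) hinj
  have hm : Measurable fun (c : Option ℤ → Run) (o : Option ℤ) => c (o.map fun x => x + h) :=
    measurable_pi_lambda _ fun _ => measurable_pi_apply _
  unfold pC actP PR
  calc (Measure.infinitePi fun _ : Option ℤ => runLaw w α) {c | CL S h (c none) (fun x => c (some x)) z}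
      ≤ (Measure.infinitePi fun _ : Option ℤ => runLaw w α)
        ((fun (c : Option ℤ → Run) (o : Option ℤ) => c (o.map fun x => x + h)) ⁻¹'
          {c | Clus Set.univ (c none) (fun z => c (some z)) (z - h)}) := measure_mono fun c hc => CL_clus hc
    _ ≤ (Measure.map (fun (c : Option ℤ → Run) (o : Option ℤ) => c (o.map fun x => x + h))
        (Measure.infinitePi fun _ : Option ℤ => runLaw w α)) {c | Clus Set.univ (c none) (fun z => c (some z)) (z - h)} :=
        Measure.le_map_apply hm.aemeasurable _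
    _ = _ := by rw [h1]

end FDr.TH
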