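import Pool.Agent.Lib.MP_e029a2_pr.TH5

/-!
# The threshold in `w`, part 6: constants and finiteness
-/

set_option autoImplicit false

namespace FDr.TH

open MeasureTheory ProbabilityTheory
open scoped ENNReal

open FDr.TR (ofReal_zpow_add Ug mfun_eq kap_ne_zero)

theorem kap_geom (w α : Set.Ioo (0 : ℝ) 1) {s : ℝ} (hs : 0 < s) : kap w α s = ENNReal.ofReal (1 - w) *
    ∑' n : ℕ, ENNReal.ofReal (bw w α true * s + bw w α false * s⁻¹) ^ n := by
  have hw1 : 0 < 1 - (w : ℝ) := by linarith [w.2.2]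
  have hbt := bw_pos w.2 α.2 true
  have hbf := bw_pos w.2 α.2 false
  have h1 : ∀ l : Run, ENNReal.ofReal (runW w α l) * ENNReal.ofReal (s ^ dsp l) =
      ENNReal.ofReal (1 - w) * (l.map fun b => ENNReal.ofReal (bw w α b * s ^ sg b)).prod := by
    intro l
    rw [runW_eq, ENNReal.ofReal_mul hw1.le, mul_assoc]
    congr 1
    induction l with
    | nil => simp [dsp]
    | cons b l ih =>
      have hp : 0 ≤ (l.map (bw w α)).prod := by
        refine List.prod_nonneg fun x hx => ?_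
        obtain ⟨b, -, rfl⟩ := List.mem_map.1 hx
        exact (bw_pos w.2 α.2 b).le
      have hd : dsp (b :: l) = sg b + dsp l := by
        unfold dsp
        rw [List.map_cons, List.sum_cons]
      rw [List.map_cons, List.prod_cons, List.map_cons, List.prod_cons, hd, ofReal_zpow_add hs,
        ENNReal.ofReal_mul (bw_pos w.2 α.2 b).le, ENNReal.ofReal_mul (bw_pos w.2 α.2 b).le, ← ih]
      ring
  unfold kap
  rw [lintegral_runLaw, tsum_congr h1, ENNReal.tsum_mul_left, tsum_run fun b => ENNReal.ofReal (bw w α b * s ^ sg b)]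
  congr 1
  refine tsum_congr fun n => ?_
  congr 1
  rw [← ENNReal.ofReal_add (by positivity) (by positivity)]
  simp [sg]

theorem bw_ratio (w' w α : Set.Ioo (0 : ℝ) 1) (s : ℝ) : bw w' α true * s + bw w' α false * s⁻¹ =
    (w' : ℝ) / w * (bw w α true * s + bw w α false * s⁻¹) := by
  have hw := w.2.1.ne'
  unfold bw
  simp only [if_true, Bool.false_eq_true, if_false]
  field_simp

/-- if `kap w' < 1` then the step weight is smaller than `w` -/
theorem bw_lt (w' w α : Set.Ioo (0 : ℝ) 1) {s : ℝ} (hs : 0 < s) (hk : kap w' α s < 1) :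
    bw w α true * s + bw w α false * s⁻¹ < w := by
  have hw := w.2.1
  have hw'0 := w'.2.1
  have hw1 := w'.2.2
  have key : bw w' α true * s + bw w' α false * s⁻¹ < w' := by
    by_contra hcon
    push Not at hcon
    refine absurd hk (not_lt.2 ?_)
    rw [kap_geom w' α hs]
    calc (1 : ℝ≥0∞) = ENNReal.ofReal (1 - w') * ∑' n : ℕ, ENNReal.ofReal w' ^ n := by
          rw [ENNReal.tsum_geometric, ENNReal.ofReal_sub _ hw'0.le, ENNReal.ofReal_one]
          refine (ENNReal.mul_inv_cancel ?_ ?_).symm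
          · rw [← ENNReal.ofReal_one, ← ENNReal.ofReal_sub _ hw'0.le]
            exact (ENNReal.ofReal_pos.2 (by linarith)).ne'
          · exact ENNReal.sub_ne_top ENNReal.one_ne_top
      _ ≤ _ := by
          refine mul_le_mul_right (ENNReal.tsum_le_tsum fun n => ?_) _
          exact pow_le_pow_left₀ zero_le (ENNReal.ofReal_le_ofReal hcon) n
  rw [bw_ratio w' w α s, div_mul_eq_mul_div, div_lt_iff₀ hw] at key
  exact lt_of_mul_lt_mul_left key hw'0.le

/-- the relation between the two generating functions of the displacement -/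
theorem kap_rel {w' w : Set.Ioo (0 : ℝ) 1} (α : Set.Ioo (0 : ℝ) 1) (hw : w' < w) {s : ℝ} (hs : 0 < s) :
    kap w α s = kap w' α s * (ENNReal.ofReal (rr w' w) + ENNReal.ofReal (1 - rr w' w) * kap w α s) := by
  have h1 := lintegral_append α hw fun l => ENNReal.ofReal (s ^ dsp l)
  have h2 : ∀ l : Run, ∫⁻ r, ENNReal.ofReal (s ^ dsp (l ++ r)) ∂sec w' w α = ENNReal.ofReal (s ^ dsp l) *
      (ENNReal.ofReal (rr w' w) + ENNReal.ofReal (1 - rr w' w) * kap w α s) := by
    intro l
    simp only [dsp_append, ofReal_zpow_add hs]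
    rw [lintegral_const_mul _ (measurable_of_countable _), lintegral_sec]
    have h3 : dsp ([] : Run) = 0 := by simp [dsp]
    rw [h3, zpow_zero, ENNReal.ofReal_one, mul_one]
    rfl
  simp only [h2] at h1
  rw [lintegral_mul_const _ (measurable_of_countable _)] at h1
  exact h1.symm

theorem one_le_Ug (w α : Set.Ioo (0 : ℝ) 1) (s : ℝ) : 1 ≤ Ug w α s := by
  unfold Ug
  refine le_trans (le_of_eq ?_) (ENNReal.le_tsum (0 : ℤ))
  rw [act_zero, zpow_zero, ENNReal.ofReal_one, mul_one]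

/-! ### Finiteness -/

/-- the arriving frog visits some frog of the cluster -/
theorem CL_first {S : Set ℤ} {h : ℤ} {e : Run} {c : ℤ → Run} {z : ℤ} (H : CL S h e c z) :
    ∃ z' ∈ S, z' - h ∈ vis e := by
  induction H with
  | enter z hz hS => exact ⟨z, hS, hz⟩
  | next _ _ _ _ _ ih => exact ih

theorem pC_le_vis (w α : Set.Ioo (0 : ℝ) 1) (S : Finset ℤ) (h z : ℤ) :
    pC w α ↑S h z ≤ ∑ z' ∈ S, visP w α (z' - h) := by
  have h1 : {c : Option ℤ → Run | CL (↑S : Set ℤ) h (c none) (fun x => c (some x)) z} ⊆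
      ⋃ z' ∈ S, {c | z' - h ∈ vis (c none)} := by
    intro c hc
    obtain ⟨z', hz', h2⟩ := CL_first hc
    rw [Set.mem_iUnion₂]
    exact ⟨z', Finset.mem_coe.1 hz', h2⟩
  refine (measure_mono h1).trans ((measure_biUnion_finset_le S _).trans (Finset.sum_le_sum fun z' _ => ?_))
  have hm : Measurable fun l : Run => z' - h ∈ vis l := measurable_of_countable _
  have h2 : PR w α {c | z' - h ∈ vis (c none)} = ∫⁻ c, TR.ind (z' - h ∈ vis (c none)) ∂PR w α :=
    (TR.lintegral_ind _ (hm.comp (measurable_pi_apply _))).symm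
  rw [h2, run_lintegral w α none fun l => TR.ind (z' - h ∈ vis l), TR.lintegral_ind _ hm]
  rfl

theorem Xi_finite (w α : Set.Ioo (0 : ℝ) 1) {s : ℝ} (hs : 0 < s) (hb : bw w α true * s + bw w α false * s⁻¹ < 1)
    (S : Finset ℤ) : ∃ M : ℝ≥0∞, M ≠ ⊤ ∧ ∀ T ⊆ S, ∀ h : ℤ, Xi w α s T h * ENNReal.ofReal (s ^ (-h)) ≤ M := by
  obtain ⟨B, hB⟩ : ∃ B : ℝ≥0∞, B = ENNReal.ofReal (1 / (1 - (bw w α true * s + bw w α false * s⁻¹))) := ⟨_, rfl⟩
  have hvis : ∀ d : ℤ, visP w α d ≤ B * ENNReal.ofReal (s ^ (-d)) := by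
    intro d
    have h1 : visP w α d * ENNReal.ofReal (s ^ d) ≤ B := by
      rw [hB]
      exact (ENNReal.le_tsum d).trans (visP_gen w α s hs hb)
    have h2 : ENNReal.ofReal (s ^ d) * ENNReal.ofReal (s ^ (-d)) = 1 := by
      rw [← ofReal_zpow_add hs, add_neg_cancel, zpow_zero, ENNReal.ofReal_one]
    calc visP w α d = visP w α d * ENNReal.ofReal (s ^ d) * ENNReal.ofReal (s ^ (-d)) := by rw [mul_assoc, h2, mul_one]
      _ ≤ _ := mul_le_mul_left h1 _
  refine ⟨∑ z ∈ S, ∑ z' ∈ S, B * ENNReal.ofReal (s ^ (z - z')), ?_, ?_⟩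
  · refine (ENNReal.sum_lt_top.2 fun z _ => ENNReal.sum_lt_top.2 fun z' _ => ?_).ne
    rw [hB]
    exact ENNReal.mul_lt_top ENNReal.ofReal_lt_top ENNReal.ofReal_lt_top
  · intro T hT h
    unfold Xi
    rw [Finset.sum_mul]
    refine le_trans (Finset.sum_le_sum fun z _ => ?_) (Finset.sum_le_sum_of_subset hT)
    calc pC w α ↑T h z * ENNReal.ofReal (s ^ z) * ENNReal.ofReal (s ^ (-h))
        ≤ (∑ z' ∈ T, B * ENNReal.ofReal (s ^ (-(z' - h)))) * ENNReal.ofReal (s ^ z) * ENNReal.ofReal (s ^ (-h)) := by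
          gcongr
          exact (pC_le_vis w α T h z).trans (Finset.sum_le_sum fun z' _ => hvis _)
      _ = ∑ z' ∈ T, B * ENNReal.ofReal (s ^ (z - z')) := by
          rw [Finset.sum_mul, Finset.sum_mul]
          refine Finset.sum_congr rfl fun z' _ => ?_
          rw [mul_assoc, mul_assoc, ← ofReal_zpow_add hs, ← ofReal_zpow_add hs]
          congr 3
          ring
      _ ≤ _ := Finset.sum_le_sum_of_subset hT

/-! ### The comparison with the process for `w'` on the whole line -/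

theorem Xi_le_Ug (w α : Set.Ioo (0 : ℝ) 1) {s : ℝ} (hs : 0 < s) (T : Finset ℤ) (h : ℤ) :
    Xi w α s T h ≤ ENNReal.ofReal (s ^ h) * Ug w α s := by
  have h1 : ENNReal.ofReal (s ^ h) * Ug w α s = ∑' z : ℤ, actP w α Set.univ (z - h) * ENNReal.ofReal (s ^ z) := by
    unfold Ug
    rw [← ENNReal.tsum_mul_left, ← (Equiv.subRight h).tsum_eq]
    refine tsum_congr fun z => ?_
    rw [Equiv.subRight_apply, mul_left_comm, ← ofReal_zpow_add hs, add_sub_cancel]
  rw [h1]
  refine le_trans (Finset.sum_le_sum fun z _ => ?_) (ENNReal.sum_le_tsum T)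
  exact mul_le_mul_left (pC_le_actP w α ↑T h z) _

theorem Xi_add_le_Ug (w α : Set.Ioo (0 : ℝ) 1) {s : ℝ} (hs : 0 < s) {T : Finset ℤ} {h : ℤ} (hT : h ∉ T) :
    Xi w α s T h + ENNReal.ofReal (s ^ h) ≤ ENNReal.ofReal (s ^ h) * Ug w α s := by
  have h1 : ENNReal.ofReal (s ^ h) * Ug w α s = ∑' z : ℤ, actP w α Set.univ (z - h) * ENNReal.ofReal (s ^ z) := by
    unfold Ug
    rw [← ENNReal.tsum_mul_left, ← (Equiv.subRight h).tsum_eq]
    refine tsum_congr fun z => ?_
    rw [Equiv.subRight_apply, mul_left_comm, ← ofReal_zpow_add hs, add_sub_cancel]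
  rw [h1]
  refine le_trans ?_ (ENNReal.sum_le_tsum (insert h T))
  rw [Finset.sum_insert hT, sub_self, act_zero, one_mul, add_comm]
  refine add_le_add le_rfl (Finset.sum_le_sum fun z _ => ?_)
  exact mul_le_mul_left (pC_le_actP w α ↑T h z) _

end FDr.TH
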