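import Pool.Agent.Lib.MP_e029a2_pr.AM10

/-!
# The threshold function is strictly decreasing
-/

set_option autoImplicit false

namespace FDr

open scoped ENNReal

/-- **The threshold function is strictly decreasing**, with an explicit rate. -/
theorem threshold_strict {f : Set.Ioo (0 : ℝ) 1 → ℝ} (hf0 : ∀ α, 1 / 2 ≤ f α) (hf1 : ∀ α, f α ≤ 1)
    (hf : ∀ w α : Set.Ioo (0 : ℝ) 1, ((w : ℝ) < f α → 1 < Lam w α) ∧ (f α < (w : ℝ) → Lam w α < 1))
    (hlt : ∀ α : Set.Ioo (0 : ℝ) 1, ∃ w : Set.Ioo (0 : ℝ) 1, Lam w α < 1) :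
    (∀ α, f α < 1) ∧ StrictAnti f ∧ ∀ α α' : Set.Ioo (0 : ℝ) 1, α < α' →
      f α' ≤ f α - (1 - f α) ^ 2 * (1 + f α) * (α' - α) / 8 := by
  have h1 : ∀ α, f α < 1 := by
    intro α
    obtain ⟨w, hw⟩ := hlt α
    have h2 : ¬(w : ℝ) < f α := fun h3 => absurd ((hf w α).1 h3) (not_lt.2 hw.le)
    exact (not_lt.1 h2).trans_lt w.2.2
  have h2 : ∀ α α' : Set.Ioo (0 : ℝ) 1, α < α' → f α' ≤ f α - (1 - f α) ^ 2 * (1 + f α) * (α' - α) / 8 :=
    fun α α' h => AM.threshold_anti hf0 hf1 hf h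
  refine ⟨h1, fun α α' h => ?_, h2⟩
  have h3 := h2 α α' h
  have h4 : 0 < 1 - f α := by linarith [h1 α]
  have h5 : 0 < 1 + f α := by linarith [hf0 α]
  have h6 : 0 < (α' : ℝ) - α := sub_pos.2 h
  have h7 : 0 < (1 - f α) ^ 2 * (1 + f α) * (α' - α) / 8 := by positivity
  linarith

end FDr
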