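import Pool.Agent.Lib.MP_e029a2_pr.ADef

/-!
# Job W1: the number of words

`Wd k D` (functions `Fin k → Fin D × Bool` with injective first component) is in bijection with
`(Fin k ↪ Fin D) × (Fin k → Bool)`; `Fintype.card_embedding_eq` and `Fintype.card_fun` give the
cardinality `D.descFactorial k * 2 ^ k`.
-/

set_option autoImplicit false

namespace FDr

open MeasureTheory
open scoped ENNReal

private def W1_equiv (k D : ℕ) : {σ : Fin k → Dir D // Function.Injective fun j => (σ j).1} ≃
    (Fin k ↪ Fin D) × (Fin k → Bool) where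
  toFun σ := (⟨fun j => (σ.1 j).1, σ.2⟩, fun j => (σ.1 j).2)
  invFun p := ⟨fun j => (p.1 j, p.2 j), fun _ _ h => p.1.injective h⟩
  left_inv _ := rfl
  right_inv _ := rfl

theorem card_Wd (k D : ℕ) : (Wd k D).card = wc k D := by
  unfold Wd wc
  rw [← Fintype.card_subtype, Fintype.card_congr (W1_equiv k D), Fintype.card_prod, Fintype.card_embedding_eq,
    Fintype.card_fun, Fintype.card_bool, Fintype.card_fin, Fintype.card_fin, mul_comm]

end FDr
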