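import Pool.Agent.Lib.MP_e029a2_pr.W1
import Pool.Agent.Lib.MP_e029a2_pr.W2

/-!
# Job W3: the first direction of a uniform word has a uniform coordinate

For `c c' : Fin D` the map `σ ↦ (j ↦ (Equiv.swap c c' (σ j).1, (σ j).2))` is a bijection of `Wd k D`
which maps `{σ | (σ 0).1 = c}` onto `{σ | (σ 0).1 = c'}`; so all these sets have the same cardinality,
which is `card (Wd k D) / D = wc k D / D` (as `∑_c` of the cardinalities is `card (Wd k D)`, `card_Wd`).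
Then `∑_σ F (σ 0).1 = ∑_c F c * card {σ | (σ 0).1 = c}` (`Finset.sum_fiberwise` or
`Finset.sum_comp`).
-/

set_option autoImplicit false

namespace FDr

open MeasureTheory
open scoped ENNReal

/-- Permutations of the directions do not change the sum over the words. -/
private theorem W3_perm (k D : ℕ) (hk : 0 < k) (e : Equiv.Perm (Fin D)) (F : Fin D → ℝ) :
    ∑ σ ∈ Wd k D, F (e (σ ⟨0, hk⟩).1) = ∑ σ ∈ Wd k D, F (σ ⟨0, hk⟩).1 := by
  refine Finset.sum_equiv (Equiv.arrowCongr (Equiv.refl (Fin k)) (Equiv.prodCongr e (Equiv.refl Bool))) ?_ ?_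
  · intro σ
    unfold Wd
    rw [Finset.mem_filter, Finset.mem_filter]
    refine and_congr ⟨fun _ => Finset.mem_univ _, fun _ => Finset.mem_univ _⟩ ?_
    exact (e.injective.of_comp_iff fun j => (σ j).1).symm
  · intro σ _
    rfl

theorem sum_first (k D : ℕ) (hk : 0 < k) (hD : 1 ≤ D) (F : Fin D → ℝ) :
    ∑ σ ∈ Wd k D, F (σ ⟨0, hk⟩).1 = (wc k D : ℝ) / D * ∑ c, F c := by
  have hD0 : NeZero D := ⟨by omega⟩
  have hDr : (D : ℝ) ≠ 0 := Nat.cast_ne_zero.2 (by omega)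
  have h1 : ∑ i : Fin D, ∑ σ ∈ Wd k D, F (Equiv.addLeft i (σ ⟨0, hk⟩).1) =
      (D : ℝ) * ∑ σ ∈ Wd k D, F (σ ⟨0, hk⟩).1 := by
    rw [Finset.sum_congr rfl fun i _ => W3_perm k D hk (Equiv.addLeft i) F, Finset.sum_const,
      Finset.card_univ, Fintype.card_fin, nsmul_eq_mul]
  have h2 : ∑ i : Fin D, ∑ σ ∈ Wd k D, F (Equiv.addLeft i (σ ⟨0, hk⟩).1) =
      (wc k D : ℝ) * ∑ c, F c := by
    rw [Finset.sum_comm]
    have h3 : ∀ σ ∈ Wd k D, ∑ i : Fin D, F (Equiv.addLeft i (σ ⟨0, hk⟩).1) = ∑ c, F c := by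
      intro σ _
      have h4 := Equiv.sum_comp (Equiv.addRight (σ ⟨0, hk⟩).1) F
      exact h4
    rw [Finset.sum_congr rfl h3, Finset.sum_const, card_Wd, nsmul_eq_mul]
  rw [h1] at h2
  rw [div_mul_eq_mul_div, eq_div_iff hDr, ← h2]
  ring

end FDr
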