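import Pool.Agent.Lib.MP_e029a2_pr.ZVal

/-!
# Infinitely many visits
-/

set_option autoImplicit false

namespace FDr

theorem visC_infinite {D : ℕ} {w α : Set.Ioo (0 : ℝ) 1} (m : Mac w α) (B : Finset (Fin D → ℤ)) (c : Conf D) (σ : St D)
    (h : Val c σ) (hX : ∀ N0 : ℕ, ∃ N, N0 ≤ N ∧ X m B c N σ ≠ 0) : (visC c).Infinite := by
  intro hfin
  -- the heights of the earlier entries of the frogs which visit the origin are finitely many
  have h1 : (⋃ p ∈ visC c, (fun j : ℕ => (ent c p.1 j).1) '' Set.Iic p.2.1).Finite :=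
    hfin.biUnion fun p _ => (Set.finite_Iic _).image _
  have h2 : ∀ N, X m B c N σ ≠ 0 → σ.2.1 - N * m.H ∈ ⋃ p ∈ visC c, (fun j : ℕ => (ent c p.1 j).1) '' Set.Iic p.2.1 := by
    intro N hN
    obtain ⟨x, j, i, h3, h4, h5⟩ := X_visit m B c N σ h hN
    have h6 : (x, j + i, 0) ∈ visC c := by
      refine ⟨h3, Nat.zero_le _, ?_⟩
      show ent c x (j + i) + (dsp ((c (x, j + i)).1.take 0), 0) = 0
      rw [h5, List.take_zero]
      rfl
    refine Set.mem_biUnion h6 ⟨j, ?_, h4⟩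
    exact Nat.le_add_right j i
  have h3 : (Set.range fun N : {N : ℕ // X m B c N σ ≠ 0} => σ.2.1 - N.1 * (m.H : ℤ)).Finite := by
    refine h1.subset ?_
    rintro _ ⟨N, rfl⟩
    exact h2 N.1 N.2
  have h4 : Function.Injective fun N : {N : ℕ // X m B c N σ ≠ 0} => σ.2.1 - N.1 * (m.H : ℤ) := by
    rintro ⟨N, hN⟩ ⟨N', hN'⟩ h5
    have h6 : σ.2.1 - N * (m.H : ℤ) = σ.2.1 - N' * (m.H : ℤ) := h5
    have h7 : (N : ℤ) * m.H = N' * m.H := by linarith
    have h8 : N * m.H = N' * m.H := by exact_mod_cast h7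
    have h9 := m.H1
    have h10 : N = N' := Nat.eq_of_mul_eq_mul_right (by omega) h8
    subst h10
    rfl
  have h3' : Finite (Set.range fun N : {N : ℕ // X m B c N σ ≠ 0} => σ.2.1 - N.1 * (m.H : ℤ)) := h3
  have h5 : Finite {N : ℕ // X m B c N σ ≠ 0} := Finite.of_injective_finite_range h4
  have h6 : {N : ℕ | X m B c N σ ≠ 0}.Finite := h5
  obtain ⟨M, hM⟩ := h6.bddAbove
  obtain ⟨N, h7, h8⟩ := hX (M + 1)
  have h9 := hM h8
  omega

end FDr
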