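import Pool.Agent.Lib.MP_e029a2_pr.SX

/-!
# Realised chains are chains of active frogs
-/

set_option autoImplicit false

namespace FDr

open scoped ENNReal

/-- the frog of the state is active and enters its line at the point of the state -/
def Val {D : ℕ} (c : Conf D) (σ : St D) : Prop := ActC c σ.1.1 ∧ σ.2 = ent c σ.1.1 σ.1.2

theorem ent_succ {D : ℕ} (c : Conf D) (x : Site D) (j : ℕ) : ent c x (j + 1) = ent c x j + cvec (c (x, j)) := by
  unfold ent
  rw [Finset.sum_range_succ, add_assoc]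

theorem ent_zero {D : ℕ} (c : Conf D) (x : Site D) : ent c x 0 = x := by
  unfold ent
  rw [Finset.sum_range_zero, add_zero]

theorem ent_add {D : ℕ} (c : Conf D) (x : Site D) (j i : ℕ) :
    ent c x (j + i) = ent c x j + ∑ t ∈ Finset.range i, cvec (c (x, j + t)) := by
  unfold ent
  rw [Finset.sum_range_add, add_assoc]

/-- the residents of the cluster are active -/
theorem clus_act {D : ℕ} {S : Set ℤ} {c : Conf D} {σ : St D} (h : Val c σ) {r : ℤ}
    (hr : Clus S (c σ.1).1 (fun h => (c ((σ.2.1 + h, σ.2.2), 0)).1) r) : ActC c (σ.2.1 + r, σ.2.2) := by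
  induction hr with
  | enter r h1 h2 =>
    have h3 := ActC.visit σ.1.1 σ.1.2 r h.1 h1
    rw [← h.2] at h3
    have h4 : σ.2 + (r, 0) = (σ.2.1 + r, σ.2.2) := Prod.ext rfl (add_zero _)
    rw [h4] at h3
    exact h3
  | next r r' h1 h2 h3 ih =>
    have h4 := ActC.visit (σ.2.1 + r, σ.2.2) 0 (r' - r) ih h2
    rw [ent_zero] at h4
    have h5 : ((σ.2.1 + r, σ.2.2) : Site D) + (r' - r, 0) = (σ.2.1 + r', σ.2.2) := by
      refine Prod.ext ?_ (add_zero _)
      show σ.2.1 + r + (r' - r) = σ.2.1 + r'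
      ring
    rw [h5] at h4
    exact h4

theorem Val.nxt {D : ℕ} {L : ℕ} {c : Conf D} {σ : St D} {μ : Mic D} (h : Val c σ) (he : Ev L c σ μ) :
    Val c (nxt σ μ) := by
  obtain ⟨⟨κ, k⟩, d⟩ := μ
  obtain ⟨h1, h2, h3⟩ := he
  cases κ with
  | none =>
    refine ⟨h.1, ?_⟩
    show σ.2 + (k, dv d) = ent c σ.1.1 (σ.1.2 + 1)
    rw [ent_succ, ← h.2]
    congr 1
    have h4 : (0 : ℤ) + dsp (c σ.1).1 = k := h2
    have h5 : (c σ.1).2 = d := h3
    unfold cvec
    refine Prod.ext ?_ ?_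
    · show k = dsp (c σ.1).1
      rw [← h4, zero_add]
    · show dv d = dv (c σ.1).2
      rw [h5]
  | some r =>
    have h4 : ActC c (σ.2.1 + r, σ.2.2) := clus_act h (h1 r rfl)
    refine ⟨h4, ?_⟩
    show σ.2 + (k, dv d) = ent c (σ.2.1 + r, σ.2.2) (0 + 1)
    rw [ent_succ, ent_zero]
    have h5 : r + dsp (c ((σ.2.1 + r, σ.2.2), 0)).1 = k := h2
    have h6 : (c ((σ.2.1 + r, σ.2.2), 0)).2 = d := h3
    unfold cvec
    refine Prod.ext ?_ ?_
    · show σ.2.1 + k = σ.2.1 + r + dsp (c ((σ.2.1 + r, σ.2.2), 0)).1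
      rw [← h5]
      ring
    · show σ.2.2 + dv d = σ.2.2 + dv (c ((σ.2.1 + r, σ.2.2), 0)).2
      rw [h6]

theorem Val.endS {D : ℕ} {L : ℕ} {c : Conf D} {σ : St D} {l : List (Mic D)} (h : Val c σ) (hl : Rz L c σ l) :
    Val c (endS σ l) := by
  induction l generalizing σ with
  | nil => exact h
  | cons μ l ih => exact ih (h.nxt hl.1) hl.2

theorem X_visit {D : ℕ} {w α : Set.Ioo (0 : ℝ) 1} (m : Mac w α) (B : Finset (Fin D → ℤ)) (c : Conf D) (N : ℕ) (σ : St D)
    (h : Val c σ) (hX : X m B c N σ ≠ 0) : ∃ (x : Site D) (j i : ℕ), ActC c x ∧ (ent c x j).1 = σ.2.1 - N * m.H ∧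
      ent c x (j + i) = 0 := by
  classical
  induction N generalizing σ with
  | zero =>
    rw [X_zero] at hX
    unfold N0 at hX
    have h1 : ∃ i : ℕ, σ.2 + ∑ t ∈ Finset.range i, cvec (c (σ.1.1, σ.1.2 + t)) = 0 := by
      by_contra h2
      push Not at h2
      refine hX ?_
      rw [ENNReal.tsum_eq_zero]
      intro i
      exact if_neg (h2 i)
    obtain ⟨i, hi⟩ := h1
    refine ⟨σ.1.1, σ.1.2, i, h.1, ?_, ?_⟩
    · rw [← h.2]
      simp
    · rw [ent_add, ← h.2]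
      exact hi
  | succ N ih =>
    rw [X_succ] at hX
    obtain ⟨l, hl, h1⟩ := Finset.exists_ne_zero_of_sum_ne_zero hX
    have h2 : Rz m.L c σ l := by
      by_contra h3
      exact h1 (if_neg h3)
    rw [if_pos h2] at h1
    obtain ⟨x, j, i, h3, h4, h5⟩ := ih (FDr.endS σ l) (h.endS h2) h1
    refine ⟨x, j, i, h3, ?_, h5⟩
    have h6 : (FDr.endS σ l).2.1 = σ.2.1 + hsum l := by
      rw [endS_pos]
      rfl
    rw [h4, h6, ml_hsum m (Finset.mem_filter.1 hl).1]
    push_cast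
    ring

end FDr
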